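import Pool.Agent.Lib_PL.MainCCW

/-!
The final theorem for polygons with vertices indexed by `ZMod n`, any orientation.
-/

open Set Complex
open scoped Topology

namespace Pool.Agent.Lib_PL

namespace SimplePolygon

variable {n : ℕ} (P : SimplePolygon n)

/-- the polygon with integer indices -/
def toPoly : Poly n where
  V := fun i => P.vertex (i : ZMod n)
  three_le := P.three_le
  per := by
    intro i
    simp
  inj := by
    intro i j h
    have h1 : (j : ZMod n) = (i : ZMod n) := (P.injective h).symm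
    exact (ZMod.intCast_eq_intCast_iff_dvd_sub j i n).1 h1
  simple := by
    intro i j hij z hz hz'
    have hne : (i : ZMod n) ≠ (j : ZMod n) := by
      intro h
      exact hij ((ZMod.intCast_eq_intCast_iff_dvd_sub j i n).1 h.symm)
    have e : ∀ m : ℤ, ((m + 1 : ℤ) : ZMod n) = (m : ZMod n) + 1 := by
      intro m
      push_cast
      rfl
    have hz1 : z ∈ segment ℝ (P.vertex (i : ZMod n)) (P.vertex ((i : ZMod n) + 1)) := by
      rw [← e]; exact hz
    have hz2 : z ∈ segment ℝ (P.vertex (j : ZMod n)) (P.vertex ((j : ZMod n) + 1)) := by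
      rw [← e]; exact hz'
    have h := P.simple _ _ hne ⟨hz1, hz2⟩
    rw [e, e]
    exact ⟨h.1, h.2⟩

private theorem Final_cast (m : ℤ) : ((m + 1 : ℤ) : ZMod n) = (m : ZMod n) + 1 := by
  push_cast
  rfl

private theorem Final_C : P.toPoly.C = P.boundary := by
  ext z
  unfold Poly.C boundary
  rw [mem_iUnion, mem_iUnion]
  constructor
  · rintro ⟨i, hi⟩
    refine ⟨(i : ZMod n), ?_⟩
    rw [← Final_cast]
    exact hi
  · rintro ⟨i, hi⟩
    obtain ⟨m, rfl⟩ := ZMod.intCast_surjective i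
    refine ⟨m, ?_⟩
    rw [← Final_cast] at hi
    exact hi

private theorem Final_I : P.toPoly.I = P.inner := by
  unfold Poly.I inner
  rw [Final_C]

theorem toPoly_R : P.toPoly.R = P.region := by
  unfold Poly.R region
  rw [Final_C, Final_I]

private theorem Final_open (r : ℂ) :
    (∃ i : ℤ, r ∈ openSegment ℝ (P.toPoly.V i) (P.toPoly.V (i + 1))) ↔
      ∃ i : ZMod n, r ∈ openSegment ℝ (P.vertex i) (P.vertex (i + 1)) := by
  constructor
  · rintro ⟨i, hi⟩
    refine ⟨(i : ZMod n), ?_⟩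
    rw [← Final_cast]
    exact hi
  · rintro ⟨i, hi⟩
    obtain ⟨m, rfl⟩ := ZMod.intCast_surjective i
    refine ⟨m, ?_⟩
    rw [← Final_cast] at hi
    exact hi

private theorem Final_Lt (p : ℂ) (j : ℕ) : P.toPoly.Lt p j = P.lit p j := by
  induction j with
  | zero =>
    unfold Poly.Lt lit Poly.Vis
    rw [toPoly_R, Final_I]
  | succ j ih =>
    unfold Poly.Lt lit Poly.Vis
    rw [toPoly_R, Final_I, ih]
    ext z
    simp only [mem_ofPred_eq]
    constructor
    · rintro ⟨hz, r, hr, hi, hv⟩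
      exact ⟨hz, r, hr, (P.Final_open r).1 hi, hv⟩
    · rintro ⟨hz, r, hr, hi, hv⟩
      exact ⟨hz, r, hr, (P.Final_open r).2 hi, hv⟩

theorem toPoly_VV (p : ℂ) (k : ℕ) : P.toPoly.VV p k = P.litRegion p k := by
  ext z
  unfold Poly.VV litRegion
  simp only [mem_ofPred_eq, mem_iUnion, Finset.mem_range, exists_prop]
  constructor
  · rintro ⟨j, hj, hz⟩
    exact ⟨j, by omega, by rw [← Final_Lt]; exact hz⟩
  · rintro ⟨j, hj, hz⟩
    exact ⟨j, by omega, by rw [Final_Lt]; exact hz⟩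

end SimplePolygon

private theorem Final_rev_seg {n : ℕ} (P : Poly n) (i : ℤ) :
    P.rev.V (-i - 1) = P.V (i + 1) ∧ P.rev.V (-i - 1 + 1) = P.V i ∧
      P.V (-i - 1) = P.rev.V (i + 1) ∧ P.V (-i - 1 + 1) = P.rev.V i := by
  refine ⟨?_, ?_, ?_, ?_⟩
  · exact congrArg P.V (by ring)
  · exact congrArg P.V (by ring)
  · exact congrArg P.V (by ring)
  · exact congrArg P.V (by ring)

private theorem Final_rev_C {n : ℕ} (P : Poly n) : P.rev.C = P.C := by
  ext z
  unfold Poly.C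
  rw [mem_iUnion, mem_iUnion]
  constructor
  · rintro ⟨i, hi⟩
    obtain ⟨-, -, h3, h4⟩ := Final_rev_seg P i
    refine ⟨-i - 1, ?_⟩
    rw [h3, h4, segment_symm]
    exact hi
  · rintro ⟨i, hi⟩
    obtain ⟨h1, h2, -, -⟩ := Final_rev_seg P i
    refine ⟨-i - 1, ?_⟩
    rw [h1, h2, segment_symm]
    exact hi

private theorem Final_rev_I {n : ℕ} (P : Poly n) : P.rev.I = P.I := by
  unfold Poly.I
  rw [Final_rev_C]

theorem rev_R {n : ℕ} (P : Poly n) : P.rev.R = P.R := by
  unfold Poly.R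
  rw [Final_rev_C, Final_rev_I]

private theorem Final_rev_open {n : ℕ} (P : Poly n) (r : ℂ) :
    (∃ i : ℤ, r ∈ openSegment ℝ (P.rev.V i) (P.rev.V (i + 1))) ↔
      ∃ i : ℤ, r ∈ openSegment ℝ (P.V i) (P.V (i + 1)) := by
  constructor
  · rintro ⟨i, hi⟩
    obtain ⟨-, -, h3, h4⟩ := Final_rev_seg P i
    refine ⟨-i - 1, ?_⟩
    rw [h3, h4, openSegment_symm]
    exact hi
  · rintro ⟨i, hi⟩
    obtain ⟨h1, h2, -, -⟩ := Final_rev_seg P i
    refine ⟨-i - 1, ?_⟩
    rw [h1, h2, openSegment_symm]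
    exact hi

private theorem Final_rev_Lt {n : ℕ} (P : Poly n) (p : ℂ) (j : ℕ) : P.rev.Lt p j = P.Lt p j := by
  induction j with
  | zero =>
    unfold Poly.Lt Poly.Vis
    rw [rev_R, Final_rev_I]
  | succ j ih =>
    unfold Poly.Lt Poly.Vis
    rw [rev_R, Final_rev_I, ih]
    ext z
    simp only [mem_ofPred_eq]
    constructor
    · rintro ⟨hz, r, hr, hi, hv⟩
      exact ⟨hz, r, hr, (Final_rev_open P r).1 hi, hv⟩
    · rintro ⟨hz, r, hr, hi, hv⟩
      exact ⟨hz, r, hr, (Final_rev_open P r).2 hi, hv⟩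

theorem rev_VV {n : ℕ} (P : Poly n) (p : ℂ) (k : ℕ) : P.rev.VV p k = P.VV p k := by
  unfold Poly.VV
  simp only [Final_rev_Lt]

theorem main_final (k : ℕ) : ∃ c : ℕ, ∀ (n : ℕ) (P : SimplePolygon n), ∀ p ∈ P.region,
    ∃ (Q : Finset ℂ) (T : Finset (ℂ × ℂ)), Q.card + T.card ≤ c * n ^ 3 ∧
      IsSubdiv (frontier (P.litRegion p k)) Q T := by
  obtain ⟨c, hc⟩ := Poly.main_ccw k
  refine ⟨c, fun n P p hp => ?_⟩
  rcases P.toPoly.ccw_or with h | h
  · have h1 := hc n P.toPoly h p (by rw [P.toPoly_R]; exact hp)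
    rw [P.toPoly_VV] at h1
    exact h1
  · have h1 := hc n P.toPoly.rev h p (by rw [rev_R, P.toPoly_R]; exact hp)
    rw [rev_VV, P.toPoly_VV] at h1
    exact h1

end Pool.Agent.Lib_PL
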