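import Mathlib

/-!
The definitions used by the statement of the main theorem (MP_ee0a5d_co): simple polygons, the region
lit with at most `k` diffuse reflections, and finite planar subdivisions.
-/

open Set

namespace Pool.Agent.Lib_PL

/-- A simple polygon with `n` edges in the plane `ℂ`: the vertices are indexed by `ZMod n` (so
cyclically), the edges are the segments from `vertex i` to `vertex (i + 1)`, and two different edges
have at most a common vertex in common. -/
structure SimplePolygon (n : ℕ) where
  /-- the vertices -/
  vertex : ZMod n → ℂ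
  three_le : 3 ≤ n
  injective : Function.Injective vertex
  simple : ∀ i j : ZMod n, i ≠ j →
    segment ℝ (vertex i) (vertex (i + 1)) ∩ segment ℝ (vertex j) (vertex (j + 1)) ⊆
      {vertex i, vertex (i + 1)} ∩ {vertex j, vertex (j + 1)}

namespace SimplePolygon

variable {n : ℕ} (P : SimplePolygon n)

/-- The boundary of the polygon: the union of its edges. -/
def boundary : Set ℂ := ⋃ i : ZMod n, segment ℝ (P.vertex i) (P.vertex (i + 1))

/-- The interior of the polygon: the union of the bounded components of the complement of its
boundary. -/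
def inner : Set ℂ :=
  {z | z ∉ P.boundary ∧ Bornology.IsBounded (connectedComponentIn P.boundaryᶜ z)}

/-- The polygon as a closed region: boundary and interior. -/
def region : Set ℂ := P.boundary ∪ P.inner

/-- The set `L_j` of the points of the polygon lit at time `j`, with the light source at `p`. -/
def lit (p : ℂ) : ℕ → Set ℂ
  | 0 => {q | q ∈ P.region ∧ openSegment ℝ p q ⊆ P.inner}
  | j + 1 => {q | q ∈ P.region ∧ ∃ r ∈ lit p j,
      (∃ i : ZMod n, r ∈ openSegment ℝ (P.vertex i) (P.vertex (i + 1))) ∧
      openSegment ℝ r q ⊆ P.inner}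

/-- The region `V_k = L_0 ∪ ... ∪ L_k` lit with at most `k` diffuse reflections, with the light source
at `p`. -/
def litRegion (p : ℂ) (k : ℕ) : Set ℂ := ⋃ j ∈ Finset.range (k + 1), P.lit p j

end SimplePolygon

/-- The plane set `A` is subdivided into the finite set of vertices `Q` and the finite set of edges
`T`: the edges are open segments with different ends in `Q`, they are pairwise disjoint, they contain
no vertex, and `A` is the union of the vertices and of the edges. -/
structure IsSubdiv (A : Set ℂ) (Q : Finset ℂ) (T : Finset (ℂ × ℂ)) : Prop where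
  ends : ∀ t ∈ T, t.1 ∈ Q ∧ t.2 ∈ Q ∧ t.1 ≠ t.2
  disj : ∀ t ∈ T, ∀ t' ∈ T, t ≠ t' → Disjoint (openSegment ℝ t.1 t.2) (openSegment ℝ t'.1 t'.2)
  free : ∀ t ∈ T, ∀ q ∈ Q, q ∉ openSegment ℝ t.1 t.2
  cover : A = (Q : Set ℂ) ∪ ⋃ t ∈ T, openSegment ℝ t.1 t.2

end Pool.Agent.Lib_PL
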