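import Pool.Agent.Lib_PL.Defs

/-! Elementary algebra of the cross product `cr`. -/

open Set Complex

namespace Pool.Agent.Lib_PL

theorem cr_add_left (u v w : ℂ) : cr (u + v) w = cr u w + cr v w := by
  simp [cr]; ring

theorem cr_add_right (u v w : ℂ) : cr u (v + w) = cr u v + cr u w := by
  simp [cr]; ring

theorem cr_sub_left (u v w : ℂ) : cr (u - v) w = cr u w - cr v w := by
  simp [cr]; ring

theorem cr_sub_right (u v w : ℂ) : cr u (v - w) = cr u v - cr u w := by
  simp [cr]; ring

theorem cr_neg_left (u v : ℂ) : cr (-u) v = -cr u v := by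
  simp [cr]; ring

theorem cr_neg_right (u v : ℂ) : cr u (-v) = -cr u v := by
  simp [cr]; ring

theorem cr_mul_left (t : ℝ) (u v : ℂ) : cr ((t : ℂ) * u) v = t * cr u v := by
  simp [cr]; ring

theorem cr_mul_right (t : ℝ) (u v : ℂ) : cr u ((t : ℂ) * v) = t * cr u v := by
  simp [cr]; ring

theorem cr_smul_left (t : ℝ) (u v : ℂ) : cr (t • u) v = t * cr u v := by
  simp [cr]; ring

theorem cr_smul_right (t : ℝ) (u v : ℂ) : cr u (t • v) = t * cr u v := by
  simp [cr]; ring

theorem cr_self (u : ℂ) : cr u u = 0 := by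
  simp [cr]; ring

theorem cr_swap (u v : ℂ) : cr u v = -cr v u := by
  simp [cr]; ring

theorem cr_zero_left (v : ℂ) : cr 0 v = 0 := by simp [cr]

theorem cr_zero_right (v : ℂ) : cr v 0 = 0 := by simp [cr]

theorem cr_conj (u v : ℂ) : cr ((starRingEnd ℂ) u) ((starRingEnd ℂ) v) = -cr u v := by
  simp [cr]; ring

/-- three plane vectors are linearly dependent -/
theorem cr_dep (a b c : ℂ) : (cr a b : ℂ) * c + (cr b c : ℂ) * a + (cr c a : ℂ) * b = 0 := by
  apply Complex.ext <;> simp [cr] <;> ring

theorem cr_dec {u v : ℂ} (h : cr u v ≠ 0) (d : ℂ) :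
    d = ((cr d v / cr u v : ℝ) : ℂ) * u + ((cr u d / cr u v : ℝ) : ℂ) * v := by
  have h1 : (cr u v : ℂ) ≠ 0 := by exact_mod_cast h
  have h2 := cr_dep u v d
  have h3 : cr v d = -cr d v := cr_swap v d
  have h4 : cr d u = -cr u d := cr_swap d u
  rw [h3, h4] at h2
  push_cast at h2 ⊢
  field_simp
  linear_combination h2

theorem cr_eq_zero {u v : ℂ} (hu : u ≠ 0) (h : cr u v = 0) : ∃ t : ℝ, v = (t : ℂ) * u := by
  by_cases hr : u.re = 0
  · have hi : u.im ≠ 0 := by
      intro hi
      exact hu (Complex.ext hr hi)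
    refine ⟨v.im / u.im, ?_⟩
    have h' : u.re * v.im - u.im * v.re = 0 := h
    rw [hr] at h'
    have hv : v.re = 0 := by
      have : u.im * v.re = 0 := by linarith
      rcases mul_eq_zero.1 this with h1 | h1
      · exact absurd h1 hi
      · exact h1
    apply Complex.ext
    · simp [hr, hv]
    · simp; field_simp
  · refine ⟨v.re / u.re, ?_⟩
    have h' : u.re * v.im - u.im * v.re = 0 := h
    apply Complex.ext
    · simp; field_simp
    · simp; field_simp; linarith

theorem cr_continuous : Continuous fun z : ℂ × ℂ => cr z.1 z.2 := by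
  unfold cr
  fun_prop

theorem InSector.ne_zero {u v d : ℂ} (h : InSector u v d) : d ≠ 0 := by
  rintro rfl
  obtain ⟨h1, h2, h3⟩ := h
  rcases lt_trichotomy (cr u v) 0 with h4 | h4 | h4
  · rcases h2 h4 with h5 | h5
    · rw [cr_zero_right] at h5; exact lt_irrefl _ h5
    · rw [cr_zero_left] at h5; exact lt_irrefl _ h5
  · have := h3 h4; rw [cr_zero_right] at this; exact lt_irrefl _ this
  · have := (h1 h4).1; rw [cr_zero_right] at this; exact lt_irrefl _ this

theorem InSector_smul {u v d : ℂ} {t : ℝ} (ht : 0 < t) :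
    InSector u v ((t : ℂ) * d) ↔ InSector u v d := by
  unfold InSector
  simp only [cr_mul_right, cr_mul_left, mul_pos_iff_of_pos_left ht]

theorem InSector_smul' {u v d : ℂ} {s t : ℝ} (hs : 0 < s) (ht : 0 < t) :
    InSector ((s : ℂ) * u) ((t : ℂ) * v) d ↔ InSector u v d := by
  have e1 : cr ((s : ℂ) * u) ((t : ℂ) * v) = s * t * cr u v := by
    rw [cr_mul_left, cr_mul_right]; ring
  have hst : 0 < s * t := mul_pos hs ht
  unfold InSector
  rw [e1]
  have h1 : (0 < s * t * cr u v) ↔ (0 < cr u v) := by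
    constructor
    · intro h; exact (pos_iff_pos_of_mul_pos h).1 hst
    · intro h; exact mul_pos hst h
  have h2 : (s * t * cr u v < 0) ↔ (cr u v < 0) := by
    constructor
    · intro h; by_contra h'; push Not at h'; have := mul_nonneg hst.le h'; linarith
    · intro h; exact mul_neg_of_pos_of_neg hst h
  have h3 : (s * t * cr u v = 0) ↔ (cr u v = 0) := by
    constructor
    · intro h; rcases mul_eq_zero.1 h with h' | h'
      · exact absurd h' hst.ne'
      · exact h'
    · intro h; rw [h, mul_zero]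
  rw [h1, h2, h3]
  simp only [cr_mul_right, cr_mul_left, mul_pos_iff_of_pos_left hs, mul_pos_iff_of_pos_left ht]

theorem InSector_flat {u v d : ℂ} (h : cr u v = 0) : InSector u v d ↔ 0 < cr u d := by
  unfold InSector
  rw [h]
  simp

end Pool.Agent.Lib_PL
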