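import Pool.Agent.Lib_PL.Alg

/-!
Winding number of a general closed polyline `U 0, U 1, ..., U m = U 0`.

Integrality: the product of the ratios `(U (k+1) - z)/(U k - z)` is `1`, so `exp` of `i` times the sum of
the arguments is `1`.  Local constancy: each term is continuous off the segment (`Complex.arg` is
continuous on the slit plane and `(b - z)/(a - z)` is a non-positive real (or `a = z`) iff `z` is on the
segment) and an integer valued continuous function is locally constant.  Far away the ratios are close to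
`1`, so the sum is `< 2 pi` in absolute value.  Jump: the term `k0` jumps by `2 pi` (the ratio is close to a
negative real number; its imaginary part has the sign of `cr (U (k0+1) - U k0) d`), the other terms are
continuous at `c`.
-/

open Set Complex
open scoped Topology

namespace Pool.Agent.Lib_PL

/-- winding number of the closed polyline `U 0, ..., U m` around `z` -/
noncomputable def plw (U : ℕ → ℂ) (m : ℕ) (z : ℂ) : ℝ :=
  (∑ k ∈ Finset.range m, Complex.arg ((U (k + 1) - z) / (U k - z))) / (2 * Real.pi)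

/-- off the segment the ratio is in the slit plane -/
theorem slit_iff (a b z : ℂ) (h : z ∉ segment ℝ a b) : (b - z) / (a - z) ∈ Complex.slitPlane := by
  by_contra hs
  rw [Complex.mem_slitPlane_iff, not_or] at hs
  obtain ⟨h1, h2⟩ := hs
  rw [not_not] at h2
  rw [not_lt] at h1
  apply h
  have haz : a - z ≠ 0 := by
    intro h0
    exact h (by rw [← sub_eq_zero.1 h0]; exact left_mem_segment ℝ a b)
  set w := (b - z) / (a - z) with hw
  have hwr : w = ((w.re : ℝ) : ℂ) := by
    apply Complex.ext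
    · simp
    · simp [h2]
  have hbz : b - z = w * (a - z) := by rw [hw, div_mul_cancel₀ _ haz]
  rw [hwr] at hbz
  set t : ℝ := -w.re with ht
  have ht0 : 0 ≤ t := by rw [ht]; linarith
  have h1t : (0 : ℝ) < 1 + t := by linarith
  refine ⟨t / (1 + t), 1 / (1 + t), by positivity, by positivity, by field_simp; ring, ?_⟩
  have hc : ((1 + t : ℝ) : ℂ) ≠ 0 := by exact_mod_cast h1t.ne'
  have hz : z * ((1 + t : ℝ) : ℂ) = (t : ℂ) * a + b := by
    rw [ht]
    push_cast
    linear_combination (-1 : ℂ) * hbz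
  rw [Complex.real_smul, Complex.real_smul]
  push_cast at hc hz ⊢
  field_simp
  linear_combination (-1 : ℂ) * hz

private theorem Wind_ne {U : ℕ → ℂ} {m : ℕ} {z : ℂ}
    (hz : ∀ k < m, z ∉ segment ℝ (U k) (U (k + 1))) {k : ℕ} (hk : k < m) : U k - z ≠ 0 := by
  intro h0
  exact hz k hk (by rw [← sub_eq_zero.1 h0]; exact left_mem_segment ℝ _ _)

private theorem Wind_exp_arg (w : ℂ) (hw : w ≠ 0) :
    Complex.exp ((w.arg : ℂ) * I) = w / (‖w‖ : ℂ) := by
  have h := Complex.norm_mul_exp_arg_mul_I w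
  have hn : (‖w‖ : ℂ) ≠ 0 := by exact_mod_cast (norm_ne_zero_iff.2 hw)
  rw [eq_div_iff hn, mul_comm]
  exact h

private theorem Wind_int_eq {x y : ℝ} (n : ℤ) (hx : ∃ w : ℤ, x = w) (hy : ∃ w : ℤ, y = w)
    (h : |x - y - n| < 1) : x = y + n := by
  obtain ⟨u, hu⟩ := hx
  obtain ⟨v, hv⟩ := hy
  have h1 : |((u - v - n : ℤ) : ℝ)| < 1 := by
    push_cast
    rw [← hu, ← hv]
    exact h
  have h2 : u - v - n = 0 := by
    have : |(u - v - n : ℤ)| < 1 := by exact_mod_cast h1
    exact Int.abs_lt_one_iff.1 this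
  have h3 : u = v + n := by omega
  rw [hu, hv, h3]
  push_cast
  ring

theorem plw_int (U : ℕ → ℂ) (m : ℕ) (hU : U m = U 0) (z : ℂ)
    (hz : ∀ k < m, z ∉ segment ℝ (U k) (U (k + 1))) : ∃ w : ℤ, plw U m z = w := by
  rcases Nat.eq_zero_or_pos m with h0 | h0
  · subst h0
    exact ⟨0, by simp [plw]⟩
  have hne : ∀ k ≤ m, U k - z ≠ 0 := by
    intro k hk
    rcases hk.lt_or_eq with h | h
    · exact Wind_ne hz h
    · rw [h, hU]
      exact Wind_ne hz h0
  have hprod : ∀ j ≤ m, ∏ k ∈ Finset.range j, ((U (k + 1) - z) / (U k - z)) =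
      (U j - z) / (U 0 - z) := by
    intro j
    induction j with
    | zero => intro _; rw [Finset.prod_range_zero, div_self (hne 0 (Nat.zero_le m))]
    | succ j ih =>
      intro hj
      rw [Finset.prod_range_succ, ih (by omega)]
      have h1 := hne j (by omega)
      have h2 := hne 0 (by omega)
      field_simp
  have hexp : Complex.exp (((∑ k ∈ Finset.range m,
      Complex.arg ((U (k + 1) - z) / (U k - z)) : ℝ) : ℂ) * I) = 1 := by
    rw [Complex.ofReal_sum, Finset.sum_mul, Complex.exp_sum]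
    have h1 : ∀ k ∈ Finset.range m, Complex.exp (((Complex.arg ((U (k + 1) - z) / (U k - z)) : ℝ) : ℂ) * I)
        = ((U (k + 1) - z) / (U k - z)) / ((‖(U (k + 1) - z) / (U k - z)‖ : ℝ) : ℂ) := by
      intro k hk
      rw [Finset.mem_range] at hk
      exact Wind_exp_arg _ (div_ne_zero (hne _ (by omega)) (hne _ (by omega)))
    rw [Finset.prod_congr rfl h1, Finset.prod_div_distrib, ← Complex.ofReal_prod, ← norm_prod,
      hprod m le_rfl, hU, div_self (hne 0 (by omega))]
    simp
  obtain ⟨n, hn⟩ := Complex.exp_eq_one_iff.1 hexp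
  refine ⟨n, ?_⟩
  have h2 : ((∑ k ∈ Finset.range m, Complex.arg ((U (k + 1) - z) / (U k - z)) : ℝ) : ℂ) =
      ((n * (2 * Real.pi) : ℝ) : ℂ) := by
    apply mul_right_cancel₀ Complex.I_ne_zero
    rw [hn]
    push_cast
    ring
  have h3 := Complex.ofReal_injective h2
  rw [plw, h3]
  have := Real.pi_ne_zero
  field_simp

private theorem Wind_term_cont (a b z : ℂ) (h : z ∉ segment ℝ a b) :
    ContinuousAt (fun z : ℂ => Complex.arg ((b - z) / (a - z))) z := by
  have haz : a - z ≠ 0 := by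
    intro h0
    exact h (by rw [← sub_eq_zero.1 h0]; exact left_mem_segment ℝ a b)
  have h1 : ContinuousAt (fun z : ℂ => (b - z) / (a - z)) z :=
    ContinuousAt.div (by fun_prop) (by fun_prop) haz
  exact ContinuousAt.comp (g := Complex.arg) (Complex.continuousAt_arg (slit_iff a b z h)) h1

private theorem Wind_seg_closed (a b : ℂ) : IsClosed (segment ℝ a b) := by
  rw [segment_eq_image]
  exact (isCompact_Icc.image (by fun_prop)).isClosed

private theorem Wind_seg_bdd (a b : ℂ) : Bornology.IsBounded (segment ℝ a b) := by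
  rw [segment_eq_image]
  exact (isCompact_Icc.image (by fun_prop)).isBounded

private theorem Wind_near (s : Finset ℕ) (U : ℕ → ℂ) (z : ℂ)
    (hz : ∀ k ∈ s, z ∉ segment ℝ (U k) (U (k + 1))) :
    ∀ᶠ z' in 𝓝 z, ∀ k ∈ s, z' ∉ segment ℝ (U k) (U (k + 1)) := by
  rw [Filter.eventually_all_finset]
  intro k hk
  exact (Wind_seg_closed _ _).isOpen_compl.mem_nhds (hz k hk)

theorem plw_loc (U : ℕ → ℂ) (m : ℕ) (hU : U m = U 0) (z : ℂ)
    (hz : ∀ k < m, z ∉ segment ℝ (U k) (U (k + 1))) : ∀ᶠ z' in 𝓝 z, plw U m z' = plw U m z := by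
  have hc : ContinuousAt (fun z => plw U m z) z := by
    unfold plw
    refine ContinuousAt.div_const ?_ _
    exact tendsto_finsetSum _ fun k hk => Wind_term_cont _ _ _ (hz k (Finset.mem_range.1 hk))
  have h1 : ∀ᶠ z' in 𝓝 z, |plw U m z' - plw U m z| < 1 := by
    have := (Metric.tendsto_nhds.1 hc) 1 one_pos
    exact this
  have h2 := Wind_near (Finset.range m) U z (fun k hk => hz k (Finset.mem_range.1 hk))
  filter_upwards [h1, h2] with z' h3 h4
  have h5 := plw_int U m hU z' (fun k hk => h4 k (Finset.mem_range.2 hk))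
  have h6 := plw_int U m hU z hz
  have h7 := Wind_int_eq 0 h5 h6 (by simpa using h3)
  simpa using h7

private theorem Wind_far_term (a b : ℂ) :
    Filter.Tendsto (fun z : ℂ => Complex.arg ((b - z) / (a - z))) (Bornology.cobounded ℂ) (𝓝 0) := by
  have h1 : Filter.Tendsto (fun z : ℂ => (a - z)⁻¹) (Bornology.cobounded ℂ) (𝓝 0) :=
    Filter.tendsto_inv₀_cobounded.comp (tendsto_const_sub_cobounded a)
  have h2 : Filter.Tendsto (fun z : ℂ => 1 + (b - a) * (a - z)⁻¹) (Bornology.cobounded ℂ)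
      (𝓝 (1 + (b - a) * 0)) := (h1.const_mul (b - a)).const_add 1
  rw [mul_zero, add_zero] at h2
  have h3 : ∀ᶠ z in Bornology.cobounded ℂ, 1 + (b - a) * (a - z)⁻¹ = (b - z) / (a - z) := by
    have h4 : ∀ᶠ z in Bornology.cobounded ℂ, z ∈ ({a} : Set ℂ)ᶜ :=
      Bornology.isBounded_def.1 Bornology.isBounded_singleton
    filter_upwards [h4] with z hz
    have : a - z ≠ 0 := by
      intro h0
      exact hz (sub_eq_zero.1 h0).symm
    field_simp
    ring
  have h5 := Filter.Tendsto.congr' h3 h2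
  have h6 : Filter.Tendsto Complex.arg (𝓝 1) (𝓝 0) := by
    have := (Complex.continuousAt_arg Complex.one_mem_slitPlane).tendsto
    rwa [Complex.arg_one] at this
  exact h6.comp h5

theorem plw_far (U : ℕ → ℂ) (m : ℕ) (hU : U m = U 0) :
    ∃ r : ℝ, ∀ z : ℂ, r < ‖z‖ → plw U m z = 0 := by
  have h1 : Filter.Tendsto (fun z => plw U m z) (Bornology.cobounded ℂ) (𝓝 0) := by
    unfold plw
    have := (tendsto_finsetSum (Finset.range m)
      fun k (_ : k ∈ Finset.range m) => Wind_far_term (U k) (U (k + 1))).div_const (2 * Real.pi)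
    simpa using this
  have h2 : ∀ᶠ z in Bornology.cobounded ℂ, |plw U m z| < 1 := by
    have := (Metric.tendsto_nhds.1 h1) 1 one_pos
    simpa [Real.dist_eq] using this
  have h3 : ∀ᶠ z in Bornology.cobounded ℂ, ∀ k ∈ Finset.range m, z ∉ segment ℝ (U k) (U (k + 1)) := by
    rw [Filter.eventually_all_finset]
    intro k _
    exact Bornology.isBounded_def.1 (Wind_seg_bdd _ _)
  have h4 : ∀ᶠ z in Bornology.cobounded ℂ, plw U m z = 0 := by
    filter_upwards [h2, h3] with z h5 h6
    obtain ⟨w, hw⟩ := plw_int U m hU z (fun k hk => h6 k (Finset.mem_range.2 hk))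
    have h7 := Wind_int_eq 0 ⟨w, hw⟩ ⟨0, by simp⟩ (y := 0) (by simpa using h5)
    simpa using h7
  obtain ⟨r, -, hr⟩ := Filter.hasBasis_cobounded_norm.eventually_iff.1 h4
  exact ⟨r, fun z hz => hr hz.le⟩

theorem Wind_im (a b z : ℂ) :
    ((b - z) / (a - z)).im = cr (a - z) (b - z) / Complex.normSq (a - z) := by
  rw [Complex.div_im, cr]
  ring

theorem plw_jump (U : ℕ → ℂ) (m : ℕ) (hU : U m = U 0) (k0 : ℕ) (hk0 : k0 < m) (c : ℂ)
    (hc : c ∈ openSegment ℝ (U k0) (U (k0 + 1))) (hne : U k0 ≠ U (k0 + 1))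
    (hz : ∀ k < m, k ≠ k0 → c ∉ segment ℝ (U k) (U (k + 1))) :
    ∃ ρ > 0, ∀ d d' : ℂ, ‖d‖ < ρ → ‖d'‖ < ρ → 0 < cr (U (k0 + 1) - U k0) d →
      cr (U (k0 + 1) - U k0) d' < 0 → plw U m (c + d) = plw U m (c + d') + 1 := by
  set e := U (k0 + 1) - U k0 with he
  obtain ⟨s, t, hs, ht, hst, hcst⟩ := hc
  have hs' : s = 1 - t := by linarith
  have hac : U k0 - c = -((t : ℂ) * e) := by
    rw [← hcst, he, hs', Complex.real_smul, Complex.real_smul]
    push_cast
    ring
  have hbc : U (k0 + 1) - c = (s : ℂ) * e := by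
    have : (t : ℂ) = 1 - s := by rw [hs']; push_cast; ring
    rw [← hcst, he, Complex.real_smul, Complex.real_smul, this]
    ring
  have he0 : e ≠ 0 := by
    rw [he]
    exact sub_ne_zero.2 hne.symm
  have htc : (t : ℂ) ≠ 0 := by exact_mod_cast ht.ne'
  have hac0 : U k0 - c ≠ 0 := by
    rw [hac]
    exact neg_ne_zero.2 (mul_ne_zero htc he0)
  -- the ratio at c
  have hr : (U (k0 + 1) - c) / (U k0 - c) = ((-(s / t) : ℝ) : ℂ) := by
    rw [hac, hbc]
    push_cast
    field_simp
  have hcont : ContinuousAt (fun z : ℂ => (U (k0 + 1) - z) / (U k0 - z)) c :=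
    ContinuousAt.div (by fun_prop) (by fun_prop) hac0
  have hre : ((U (k0 + 1) - c) / (U k0 - c)).re < 0 := by
    rw [hr, Complex.ofReal_re]
    have := div_pos hs ht
    linarith
  have him : ((U (k0 + 1) - c) / (U k0 - c)).im = 0 := by
    rw [hr, Complex.ofReal_im]
  -- sign of the imaginary part
  have hsgn : ∀ d : ℂ, cr (U k0 - (c + d)) (U (k0 + 1) - (c + d)) = cr e d := by
    intro d
    have e1 : U k0 - (c + d) = -((t : ℂ) * e) - d := by rw [← hac]; ring
    have e2 : U (k0 + 1) - (c + d) = (s : ℂ) * e - d := by rw [← hbc]; ring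
    rw [e1, e2, cr_sub_left, cr_sub_right, cr_sub_right, cr_neg_left, cr_neg_left, cr_mul_left,
      cr_mul_left, cr_mul_right, cr_mul_right, cr_self, cr_self, cr_swap d e, hs']
    ring
  have hA1 := Complex.tendsto_arg_nhdsWithin_im_nonneg_of_re_neg_of_im_zero hre him
  have hA2 := Complex.tendsto_arg_nhdsWithin_im_neg_of_re_neg_of_im_zero hre him
  have hB1 : ∀ᶠ w in 𝓝 ((U (k0 + 1) - c) / (U k0 - c)), 0 ≤ w.im → |w.arg - Real.pi| < 1 := by
    have := (Metric.tendsto_nhds.1 hA1) 1 one_pos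
    rw [eventually_nhdsWithin_iff] at this
    exact this
  have hB2 : ∀ᶠ w in 𝓝 ((U (k0 + 1) - c) / (U k0 - c)), w.im < 0 → |w.arg - -Real.pi| < 1 := by
    have := (Metric.tendsto_nhds.1 hA2) 1 one_pos
    rw [eventually_nhdsWithin_iff] at this
    exact this
  have hC1 := hcont.eventually hB1
  have hC2 := hcont.eventually hB2
  -- the other terms
  set s0 := (Finset.range m).erase k0 with hs0
  have hz' : ∀ k ∈ s0, c ∉ segment ℝ (U k) (U (k + 1)) := by
    intro k hk
    rw [hs0, Finset.mem_erase, Finset.mem_range] at hk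
    exact hz k hk.2 hk.1
  have hF : ContinuousAt (fun z : ℂ => ∑ k ∈ s0, Complex.arg ((U (k + 1) - z) / (U k - z))) c :=
    tendsto_finsetSum _ fun k hk => Wind_term_cont _ _ _ (hz' k hk)
  have hD : ∀ᶠ z in 𝓝 c, |(∑ k ∈ s0, Complex.arg ((U (k + 1) - z) / (U k - z))) -
      ∑ k ∈ s0, Complex.arg ((U (k + 1) - c) / (U k - c))| < 1 := by
    have := (Metric.tendsto_nhds.1 hF) 1 one_pos
    exact this
  have hE := Wind_near s0 U c hz'
  obtain ⟨ρ, hρ, hρ'⟩ := Metric.eventually_nhds_iff.1 (((hC1.and hC2).and hD).and hE)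
  refine ⟨ρ, hρ, fun d d' hd hd' hpos hneg => ?_⟩
  have hsplit : ∀ z : ℂ, plw U m z = (Complex.arg ((U (k0 + 1) - z) / (U k0 - z)) +
      ∑ k ∈ s0, Complex.arg ((U (k + 1) - z) / (U k - z))) / (2 * Real.pi) := by
    intro z
    rw [plw, hs0, ← Finset.add_sum_erase (Finset.range m)
      (fun k => Complex.arg ((U (k + 1) - z) / (U k - z))) (Finset.mem_range.2 hk0)]
  have hnorm : ∀ d : ℂ, ‖d‖ < ρ → dist (c + d) c < ρ := by
    intro d hd
    rw [dist_eq_norm, add_sub_cancel_left]
    exact hd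
  obtain ⟨⟨⟨a1, a2⟩, a3⟩, a4⟩ := hρ' (hnorm d hd)
  obtain ⟨⟨⟨b1, b2⟩, b3⟩, b4⟩ := hρ' (hnorm d' hd')
  have hns : ∀ d : ℂ, cr e d ≠ 0 → 0 < Complex.normSq (U k0 - (c + d)) := by
    intro d hd
    rw [Complex.normSq_pos]
    intro h0
    apply hd
    rw [← hsgn, h0, cr_zero_left]
  have hp1 : 0 < ((U (k0 + 1) - (c + d)) / (U k0 - (c + d))).im := by
    rw [Wind_im, hsgn]
    exact div_pos hpos (hns d hpos.ne')
  have hp2 : ((U (k0 + 1) - (c + d')) / (U k0 - (c + d'))).im < 0 := by
    rw [Wind_im, hsgn]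
    exact div_neg_of_neg_of_pos hneg (hns d' hneg.ne)
  have c1 := a1 hp1.le
  have c2 := b2 hp2
  -- the points are off the segment k0
  have hoff : ∀ d : ℂ, cr e d ≠ 0 → c + d ∉ segment ℝ (U k0) (U (k0 + 1)) := by
    intro d hd hmem
    obtain ⟨p, q, -, -, hpq, hx⟩ := hmem
    apply hd
    have e1 : d = ((q - t : ℝ) : ℂ) * e := by
      have : d = (p • U k0 + q • U (k0 + 1)) - c := by rw [hx]; ring
      rw [this, ← hcst, he, hs']
      have hp : p = 1 - q := by linarith
      rw [hp]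
      simp only [Complex.real_smul]
      push_cast
      ring
    rw [e1, cr_mul_right, cr_self, mul_zero]
  have hall : ∀ d : ℂ, cr e d ≠ 0 → (∀ k ∈ s0, c + d ∉ segment ℝ (U k) (U (k + 1))) →
      ∀ k < m, c + d ∉ segment ℝ (U k) (U (k + 1)) := by
    intro d hd h k hk
    by_cases hkk : k = k0
    · rw [hkk]
      exact hoff d hd
    · exact h k (Finset.mem_erase.2 ⟨hkk, Finset.mem_range.2 hk⟩)
  have i1 := plw_int U m hU (c + d) (hall d hpos.ne' a4)
  have i2 := plw_int U m hU (c + d') (hall d' hneg.ne b4)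
  have := Wind_int_eq 1 i1 i2 (by
    rw [hsplit, hsplit]
    set A := Complex.arg ((U (k0 + 1) - (c + d)) / (U k0 - (c + d)))
    set B := Complex.arg ((U (k0 + 1) - (c + d')) / (U k0 - (c + d')))
    set X := ∑ k ∈ s0, Complex.arg ((U (k + 1) - (c + d)) / (U k - (c + d)))
    set Y := ∑ k ∈ s0, Complex.arg ((U (k + 1) - (c + d')) / (U k - (c + d')))
    set Z := ∑ k ∈ s0, Complex.arg ((U (k + 1) - c) / (U k - c))
    have hpi := Real.pi_gt_three
    have e1 : (A + X) / (2 * Real.pi) - (B + Y) / (2 * Real.pi) - ((1 : ℤ) : ℝ) =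
        ((A - Real.pi) - (B - -Real.pi) + (X - Z) - (Y - Z)) / (2 * Real.pi) := by
      push_cast
      field_simp
      ring
    rw [e1, abs_div, abs_of_pos (by positivity : (0 : ℝ) < 2 * Real.pi), div_lt_one (by positivity)]
    rw [abs_lt] at a3 b3 c1 c2 ⊢
    constructor <;> linarith [a3.1, a3.2, b3.1, b3.2, c1.1, c1.2, c2.1, c2.2])
  simpa using this

private theorem Wind_arg_nonpos {w : ℂ} (hw : w ∈ Complex.slitPlane) (h : w.im ≤ 0) :
    w.arg ≤ 0 := by
  rcases h.lt_or_eq with h1 | h1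
  · exact (Complex.arg_neg_iff.2 h1).le
  · rw [Complex.mem_slitPlane_iff] at hw
    have h2 : 0 < w.re := hw.resolve_right (fun h => h h1)
    exact (Complex.arg_eq_zero_iff.2 ⟨h2.le, h1⟩).le

/-- splitting a segment at an intermediate point -/
theorem arg_split (a b c z : ℂ) (hb : b ∈ segment ℝ a c) (hz : z ∉ segment ℝ a c) :
    Complex.arg ((c - z) / (a - z)) =
      Complex.arg ((b - z) / (a - z)) + Complex.arg ((c - z) / (b - z)) := by
  have hab : z ∉ segment ℝ a b := fun h => hz ((convex_segment a c).segment_subset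
    (left_mem_segment ℝ a c) hb h)
  have hbc : z ∉ segment ℝ b c := fun h => hz ((convex_segment a c).segment_subset
    hb (right_mem_segment ℝ a c) h)
  have s1 := slit_iff a c z hz
  have s2 := slit_iff a b z hab
  have s3 := slit_iff b c z hbc
  have haz : a - z ≠ 0 := by
    intro h0
    exact hz (by rw [← sub_eq_zero.1 h0]; exact left_mem_segment ℝ a c)
  have hbz : b - z ≠ 0 := by
    intro h0
    exact hz (by rw [← sub_eq_zero.1 h0]; exact hb)
  have hcz : c - z ≠ 0 := by
    intro h0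
    exact hz (by rw [← sub_eq_zero.1 h0]; exact right_mem_segment ℝ a c)
  obtain ⟨s, t, hs, ht, hst, hbst⟩ := hb
  have hs' : s = 1 - t := by linarith
  have eb : b - z = (s : ℂ) * (a - z) + (t : ℂ) * (c - z) := by
    rw [← hbst, hs', Complex.real_smul, Complex.real_smul]
    push_cast
    ring
  have i2 : ((b - z) / (a - z)).im = t * (cr (a - z) (c - z) / Complex.normSq (a - z)) := by
    rw [Wind_im, eb, cr_add_right, cr_mul_right, cr_mul_right, cr_self]
    ring
  have i3 : ((c - z) / (b - z)).im = s * (cr (a - z) (c - z) / Complex.normSq (b - z)) := by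
    rw [Wind_im]
    have : cr (b - z) (c - z) = s * cr (a - z) (c - z) := by
      rw [eb, cr_add_left, cr_mul_left, cr_mul_left, cr_self]
      ring
    rw [this]
    ring
  have i1 := Wind_im a c z
  have hn1 : 0 < Complex.normSq (a - z) := Complex.normSq_pos.2 haz
  have hn2 : 0 < Complex.normSq (b - z) := Complex.normSq_pos.2 hbz
  have hmul : (c - z) / (a - z) = ((b - z) / (a - z)) * ((c - z) / (b - z)) := by
    field_simp
  have hang := Complex.arg_mul_coe_angle (div_ne_zero hbz haz) (div_ne_zero hcz hbz)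
  rw [← hmul, ← Real.Angle.coe_add, Real.Angle.angle_eq_iff_two_pi_dvd_sub] at hang
  obtain ⟨n, hn⟩ := hang
  have hpi := Real.pi_pos
  have l1 : ((c - z) / (a - z)).arg < Real.pi :=
    lt_of_le_of_ne (Complex.arg_le_pi _) (Complex.mem_slitPlane_iff_arg.1 s1).1
  have l2 : ((b - z) / (a - z)).arg < Real.pi :=
    lt_of_le_of_ne (Complex.arg_le_pi _) (Complex.mem_slitPlane_iff_arg.1 s2).1
  have l3 : ((c - z) / (b - z)).arg < Real.pi :=
    lt_of_le_of_ne (Complex.arg_le_pi _) (Complex.mem_slitPlane_iff_arg.1 s3).1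
  have g1 := Complex.neg_pi_lt_arg ((c - z) / (a - z))
  have g2 := Complex.neg_pi_lt_arg ((b - z) / (a - z))
  have g3 := Complex.neg_pi_lt_arg ((c - z) / (b - z))
  have hn0 : n = 0 := by
    rcases le_total 0 (cr (a - z) (c - z)) with h | h
    · have p1 : 0 ≤ ((c - z) / (a - z)).arg := Complex.arg_nonneg_iff.2 (by
        rw [i1]; exact div_nonneg h hn1.le)
      have p2 : 0 ≤ ((b - z) / (a - z)).arg := Complex.arg_nonneg_iff.2 (by
        rw [i2]; exact mul_nonneg ht (div_nonneg h hn1.le))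
      have p3 : 0 ≤ ((c - z) / (b - z)).arg := Complex.arg_nonneg_iff.2 (by
        rw [i3]; exact mul_nonneg hs (div_nonneg h hn2.le))
      have q1 : (n : ℝ) < 1 := by nlinarith
      have q2 : (-1 : ℝ) < n := by nlinarith
      have q3 : n < 1 := by exact_mod_cast q1
      have q4 : -1 < n := by exact_mod_cast q2
      omega
    · have p1 : ((c - z) / (a - z)).arg ≤ 0 := Wind_arg_nonpos s1 (by
        rw [i1]; exact div_nonpos_of_nonpos_of_nonneg h hn1.le)
      have p2 : ((b - z) / (a - z)).arg ≤ 0 := Wind_arg_nonpos s2 (by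
        rw [i2]; exact mul_nonpos_of_nonneg_of_nonpos ht (div_nonpos_of_nonpos_of_nonneg h hn1.le))
      have p3 : ((c - z) / (b - z)).arg ≤ 0 := Wind_arg_nonpos s3 (by
        rw [i3]; exact mul_nonpos_of_nonneg_of_nonpos hs (div_nonpos_of_nonpos_of_nonneg h hn2.le))
      have q1 : (n : ℝ) < 1 := by nlinarith
      have q2 : (-1 : ℝ) < n := by nlinarith
      have q3 : n < 1 := by exact_mod_cast q1
      have q4 : -1 < n := by exact_mod_cast q2
      omega
  rw [hn0] at hn
  push_cast at hn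
  linarith

end Pool.Agent.Lib_PL
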