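import Pool.Agent.Lib_PL.Gamma
import Pool.Agent.Lib_PL.Wind

/-!
Angles of boundary arcs.  All statements are obtained from `Wind` (polyline consisting of the points
`γ (max a (min b (⌊a⌋ + k)))`) and from `arg_split`.
-/

open Set Complex
open scoped Topology

namespace Pool.Agent.Lib_PL

namespace Poly

variable {n : ℕ} (P : Poly n)

/-- one term of the sum in `arcAng` -/
private noncomputable def Arcs_term (a b : ℝ) (z : ℂ) (i : ℤ) : ℝ :=
  Complex.arg ((P.γ (min b ((i : ℝ) + 1)) - z) / (P.γ (max a (i : ℝ)) - z))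

private theorem Arcs_eq (a b : ℝ) (z : ℂ) :
    P.arcAng a b z = ∑ i ∈ Finset.Ico ⌊a⌋ ⌈b⌉, P.Arcs_term a b z i := rfl

private theorem Arcs_sum_consec (f : ℤ → ℝ) {a b c : ℤ} (hab : a ≤ b) (hbc : b ≤ c) :
    ∑ i ∈ Finset.Ico a b, f i + ∑ i ∈ Finset.Ico b c, f i = ∑ i ∈ Finset.Ico a c, f i := by
  rw [← Finset.sum_union (Finset.Ico_disjoint_Ico_consecutive a b c),
    Finset.Ico_union_Ico_eq_Ico hab hbc]

private theorem Arcs_term_right {a b c : ℝ} (z : ℂ) {i : ℤ} (h1 : (i : ℝ) + 1 ≤ b)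
    (h2 : (i : ℝ) + 1 ≤ c) : P.Arcs_term a b z i = P.Arcs_term a c z i := by
  unfold Arcs_term
  rw [min_eq_right h1, min_eq_right h2]

private theorem Arcs_term_left {a b c : ℝ} (z : ℂ) {i : ℤ} (h1 : a ≤ (i : ℝ))
    (h2 : b ≤ (i : ℝ)) : P.Arcs_term a c z i = P.Arcs_term b c z i := by
  unfold Arcs_term
  rw [max_eq_right h1, max_eq_right h2]

theorem arcAng_add {a b c : ℝ} (hab : a ≤ b) (hbc : b ≤ c) (z : ℂ) (hz : z ∉ P.γ '' Icc a c) :
    P.arcAng a b z + P.arcAng b c z = P.arcAng a c z := by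
  rw [Arcs_eq, Arcs_eq, Arcs_eq]
  have hfl : ⌊a⌋ ≤ ⌊b⌋ := Int.floor_le_floor hab
  have hmb : (⌊b⌋ : ℝ) ≤ b := Int.floor_le b
  have hbm : b < (⌊b⌋ : ℝ) + 1 := Int.lt_floor_add_one b
  set m : ℤ := ⌊b⌋ with hm
  have hmc : m ≤ ⌈c⌉ := by
    have h1 : (m : ℝ) ≤ (⌈c⌉ : ℝ) := hmb.trans (hbc.trans (Int.le_ceil c))
    exact_mod_cast h1
  rcases eq_or_lt_of_le hmb with hbi | hbi
  · -- `b` is an integer
    have hce : ⌈b⌉ = m := by rw [← hbi]; exact Int.ceil_intCast m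
    rw [hce]
    have e1 : ∑ i ∈ Finset.Ico ⌊a⌋ m, P.Arcs_term a b z i =
        ∑ i ∈ Finset.Ico ⌊a⌋ m, P.Arcs_term a c z i := by
      refine Finset.sum_congr rfl fun i hi => ?_
      have h2 : i + 1 ≤ m := (Finset.mem_Ico.1 hi).2
      have h3 : (i : ℝ) + 1 ≤ (m : ℝ) := by exact_mod_cast h2
      exact P.Arcs_term_right z (h3.trans hmb) ((h3.trans hmb).trans hbc)
    have e2 : ∑ i ∈ Finset.Ico m ⌈c⌉, P.Arcs_term b c z i =
        ∑ i ∈ Finset.Ico m ⌈c⌉, P.Arcs_term a c z i := by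
      refine Finset.sum_congr rfl fun i hi => ?_
      have h2 : m ≤ i := (Finset.mem_Ico.1 hi).1
      have h3 : (m : ℝ) ≤ (i : ℝ) := by exact_mod_cast h2
      rw [← hbi]
      exact P.Arcs_term_left z h3 ((hab.trans hbi.ge).trans h3)
    rw [e1, e2]
    exact Arcs_sum_consec _ hfl hmc
  · have hce : ⌈b⌉ = m + 1 := by
      rw [Int.ceil_eq_iff]
      push_cast
      constructor <;> linarith
    have hmc1 : m + 1 ≤ ⌈c⌉ := by
      have h1 : (m : ℝ) < (⌈c⌉ : ℝ) := hbi.trans_le (hbc.trans (Int.le_ceil c))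
      have h2 : m < ⌈c⌉ := by exact_mod_cast h1
      exact h2
    rw [hce, ← Arcs_sum_consec (P.Arcs_term a b z) hfl (by omega : m ≤ m + 1),
      ← Arcs_sum_consec (P.Arcs_term b c z) (by omega : m ≤ m + 1) hmc1,
      ← Arcs_sum_consec (P.Arcs_term a c z) hfl hmc,
      ← Arcs_sum_consec (P.Arcs_term a c z) (by omega : m ≤ m + 1) hmc1]
    have e1 : ∑ i ∈ Finset.Ico ⌊a⌋ m, P.Arcs_term a b z i =
        ∑ i ∈ Finset.Ico ⌊a⌋ m, P.Arcs_term a c z i := by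
      refine Finset.sum_congr rfl fun i hi => ?_
      have h2 : i + 1 ≤ m := (Finset.mem_Ico.1 hi).2
      have h3 : (i : ℝ) + 1 ≤ (m : ℝ) := by exact_mod_cast h2
      exact P.Arcs_term_right z (h3.trans hmb) ((h3.trans hmb).trans hbc)
    have e2 : ∑ i ∈ Finset.Ico (m + 1) ⌈c⌉, P.Arcs_term b c z i =
        ∑ i ∈ Finset.Ico (m + 1) ⌈c⌉, P.Arcs_term a c z i := by
      refine Finset.sum_congr rfl fun i hi => ?_
      have h2 : m + 1 ≤ i := (Finset.mem_Ico.1 hi).1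
      have h3 : (m : ℝ) + 1 ≤ (i : ℝ) := by exact_mod_cast h2
      exact P.Arcs_term_left z (hbm.le.trans h3) (hab.trans (hbm.le.trans h3))
    have e3 : ∀ f : ℤ → ℝ, ∑ i ∈ Finset.Ico m (m + 1), f i = f m := by
      intro f
      have h1 : Finset.Ico m (m + 1) = {m} := by
        ext i
        simp only [Finset.mem_Ico, Finset.mem_singleton]
        omega
      rw [h1, Finset.sum_singleton]
    rw [e1, e2, e3, e3, e3]
    have e4 : P.Arcs_term a b z m + P.Arcs_term b c z m = P.Arcs_term a c z m := by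
      unfold Arcs_term
      rw [min_eq_left hbm.le, max_eq_left hmb]
      have hx1 : max a (m : ℝ) ≤ b := max_le hab hmb
      have hy1 : b ≤ min c ((m : ℝ) + 1) := le_min hbc hbm.le
      have hseg : segment ℝ (P.γ (max a (m : ℝ))) (P.γ (min c ((m : ℝ) + 1))) =
          P.γ '' uIcc (max a (m : ℝ)) (min c ((m : ℝ) + 1)) :=
        P.segment_γ (i := m) (le_max_right _ _) (hx1.trans hbm.le)
          (hmb.trans hy1) (min_le_right _ _)
      rw [uIcc_of_le (hx1.trans hy1)] at hseg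
      have hzz : z ∉ segment ℝ (P.γ (max a (m : ℝ))) (P.γ (min c ((m : ℝ) + 1))) := by
        rw [hseg]
        rintro ⟨t, ht, rfl⟩
        exact hz ⟨t, ⟨(le_max_left _ _).trans ht.1, ht.2.trans (min_le_left _ _)⟩, rfl⟩
      have hbb : P.γ b ∈ segment ℝ (P.γ (max a (m : ℝ))) (P.γ (min c ((m : ℝ) + 1))) := by
        rw [hseg]
        exact ⟨b, ⟨hx1, hy1⟩, rfl⟩
      exact (arg_split _ _ _ z hbb hzz).symm
    rw [← e4]
    ring

private theorem Arcs_shift (a b : ℝ) (z : ℂ) (m : ℤ) :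
    P.arcAng (a + m * n) (b + m * n) z = P.arcAng a b z := by
  rw [Arcs_eq, Arcs_eq]
  have h1 : ⌊a + (m : ℝ) * (n : ℝ)⌋ = ⌊a⌋ + m * n := by
    have h2 : a + (m : ℝ) * (n : ℝ) = a + ((m * (n : ℤ) : ℤ) : ℝ) := by push_cast; ring
    rw [h2, Int.floor_add_intCast]
  have h3 : ⌈b + (m : ℝ) * (n : ℝ)⌉ = ⌈b⌉ + m * n := by
    have h2 : b + (m : ℝ) * (n : ℝ) = b + ((m * (n : ℤ) : ℤ) : ℝ) := by push_cast; ring
    rw [h2, Int.ceil_add_intCast]
  rw [h1, h3, ← Finset.image_add_right_Ico, Finset.sum_image (fun x _ y _ h => by omega)]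
  refine Finset.sum_congr rfl fun i _ => ?_
  unfold Arcs_term
  have h4 : min (b + (m : ℝ) * (n : ℝ)) (((i + m * (n : ℤ) : ℤ) : ℝ) + 1) =
      min b ((i : ℝ) + 1) + (m : ℝ) * (n : ℝ) := by
    rw [← min_add_add_right]
    push_cast
    congr 1
    ring
  have h5 : max (a + (m : ℝ) * (n : ℝ)) ((i + m * (n : ℤ) : ℤ) : ℝ) =
      max a (i : ℝ) + (m : ℝ) * (n : ℝ) := by
    rw [← max_add_add_right]
    push_cast
    rfl
  rw [h4, h5, P.γ_add_mul, P.γ_add_mul]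

theorem arcAng_shift (a b : ℝ) (z : ℂ) : P.arcAng (a + n) (b + n) z = P.arcAng a b z := by
  have h := P.Arcs_shift a b z 1
  simpa using h

private theorem Arcs_nC {z : ℂ} (hz : z ∉ P.C) (s : Set ℝ) : z ∉ P.γ '' s := by
  rintro ⟨t, _, rfl⟩
  exact hz (P.γ_mem_C t)

private theorem Arcs_zero_n (z : ℂ) : P.arcAng 0 (0 + n) z = 2 * Real.pi * P.wind z := by
  have hpi : (2 * Real.pi) ≠ 0 := by positivity
  unfold arcAng wind
  rw [mul_div_cancel₀ _ hpi]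
  have h1 : ⌊(0 : ℝ)⌋ = 0 := Int.floor_zero
  have h2 : ⌈(0 : ℝ) + (n : ℝ)⌉ = (n : ℤ) := by
    rw [zero_add]
    exact Int.ceil_natCast n
  rw [h1, h2, zero_add]
  have h3 : Finset.Ico (0 : ℤ) (n : ℤ) = (Finset.range n).image (fun k : ℕ => (k : ℤ)) := by
    ext i
    simp only [Finset.mem_Ico, Finset.mem_image, Finset.mem_range]
    constructor
    · rintro ⟨h4, h5⟩
      exact ⟨i.toNat, by omega, by omega⟩
    · rintro ⟨k, hk, rfl⟩
      omega
  rw [h3, Finset.sum_image (fun x _ y _ h => by exact_mod_cast h)]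
  refine Finset.sum_congr rfl fun k hk => ?_
  have hk' : k < n := Finset.mem_range.1 hk
  have h4 : min (n : ℝ) (((k : ℤ) : ℝ) + 1) = (((k : ℤ) + 1 : ℤ) : ℝ) := by
    have h5 : ((k : ℤ) : ℝ) + 1 ≤ (n : ℝ) := by
      have : (k : ℝ) + 1 ≤ (n : ℝ) := by exact_mod_cast hk'
      simpa using this
    rw [min_eq_right h5]
    push_cast
    rfl
  have h6 : max (0 : ℝ) ((k : ℤ) : ℝ) = ((k : ℤ) : ℝ) := by
    apply max_eq_right
    simp
  rw [h4, h6, P.γ_int, P.γ_int]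

theorem arcAng_wind (a : ℝ) (z : ℂ) (hz : z ∉ P.C) :
    P.arcAng a (a + n) z = 2 * Real.pi * P.wind z := by
  have hn : 0 < (n : ℝ) := by
    have := P.three_le
    positivity
  set m : ℤ := ⌊a / n⌋ with hm
  set b : ℝ := a - m * n with hb
  have h1 : 0 ≤ b := by
    have h2 : (m : ℝ) ≤ a / n := Int.floor_le _
    rw [le_div_iff₀ hn] at h2
    rw [hb]; linarith
  have h2 : b < n := by
    have h3 : a / n < (m : ℝ) + 1 := Int.lt_floor_add_one _
    rw [div_lt_iff₀ hn] at h3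
    rw [hb]; linarith
  have e1 : P.arcAng a (a + n) z = P.arcAng b (b + n) z := by
    have h3 := P.Arcs_shift b (b + n) z m
    rw [← h3]
    congr 1 <;> rw [hb] <;> ring
  have e2 : P.arcAng b n z + P.arcAng n (b + n) z = P.arcAng b (b + n) z :=
    P.arcAng_add h2.le (by linarith) z (P.Arcs_nC hz _)
  have e3 : P.arcAng n (b + n) z = P.arcAng 0 b z := by
    have h3 := P.arcAng_shift 0 b z
    rw [← h3, zero_add]
  have e4 : P.arcAng 0 b z + P.arcAng b n z = P.arcAng 0 n z :=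
    P.arcAng_add h1 h2.le z (P.Arcs_nC hz _)
  have e5 := P.Arcs_zero_n z
  rw [zero_add] at e5
  rw [e1, ← e2, e3, ← e5, ← e4]
  ring

private theorem Arcs_wind_eq (z : ℂ) : P.wind z = plw (fun k : ℕ => P.V k) n z := by
  unfold wind plw
  simp only [Nat.cast_add, Nat.cast_one]

private theorem Arcs_V_n : (fun k : ℕ => P.V k) n = (fun k : ℕ => P.V k) 0 := by
  have h := P.per 0
  simpa using h

private theorem Arcs_seg_C (i : ℤ) {z : ℂ} (hz : z ∉ P.C) :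
    z ∉ segment ℝ (P.V i) (P.V (i + 1)) := fun h => hz (mem_iUnion.2 ⟨i, h⟩)

theorem wind_int (z : ℂ) (hz : z ∉ P.C) : ∃ w : ℤ, P.wind z = w := by
  rw [Arcs_wind_eq]
  refine plw_int _ n P.Arcs_V_n z fun k _ => ?_
  have h := P.Arcs_seg_C (k : ℤ) hz
  simpa using h

theorem wind_loc (z : ℂ) (hz : z ∉ P.C) : ∀ᶠ z' in 𝓝 z, P.wind z' = P.wind z := by
  simp only [Arcs_wind_eq]
  refine plw_loc _ n P.Arcs_V_n z fun k _ => ?_
  have h := P.Arcs_seg_C (k : ℤ) hz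
  simpa using h

theorem wind_far : ∃ r : ℝ, ∀ z : ℂ, r < ‖z‖ → P.wind z = 0 := by
  simp only [Arcs_wind_eq]
  exact plw_far _ n P.Arcs_V_n

/-- jump of the winding number: left minus right is one -/
theorem wind_jump {x : ℝ} (hx : NI x) : ∃ ρ > 0, ∀ d d' : ℂ, ‖d‖ < ρ → ‖d'‖ < ρ →
    0 < cr (P.ed x) d → cr (P.ed x) d' < 0 → P.wind (P.γ x + d) = P.wind (P.γ x + d') + 1 := by
  have hn : 0 < (n : ℤ) := by
    have := P.three_le
    omega
  set j : ℤ := ⌊x⌋ with hj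
  set k0 : ℕ := (j % n).toNat with hk0
  have h0 : 0 ≤ j % n := Int.emod_nonneg _ hn.ne'
  have h1 : j % n < n := Int.emod_lt_of_pos _ hn
  have hk0' : (k0 : ℤ) = j % n := Int.toNat_of_nonneg h0
  have hk0n : k0 < n := by omega
  have hdecomp : j = (k0 : ℤ) + (j / n) * n := by
    rw [hk0']
    have := Int.emod_add_mul_ediv j n
    linarith
  have hV0 : P.V j = P.V (k0 : ℤ) := by
    rw [hdecomp, P.V_add_mul]
  have hV1 : P.V (j + 1) = P.V ((k0 : ℤ) + 1) := by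
    have h2 : j + 1 = ((k0 : ℤ) + 1) + (j / n) * n := by
      rw [hdecomp]
      have h3 : ((k0 : ℤ) + j / n * n) / n = j / n := by rw [← hdecomp]
      rw [h3]
      ring
    rw [h2, P.V_add_mul]
  have hmem := P.γ_mem_openSegment hx
  rw [← hj, hV0, hV1] at hmem
  have hne : P.V (k0 : ℤ) ≠ P.V ((k0 : ℤ) + 1) := P.V_ne _
  obtain ⟨ρ, hρ, hjump⟩ := plw_jump (fun k : ℕ => P.V k) n P.Arcs_V_n k0 hk0n (P.γ x)
    (by simpa using hmem) (by simpa using hne) (by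
      intro k hk hkk hmem2
      have hmem3 : P.γ x ∈ segment ℝ (P.V (k : ℤ)) (P.V ((k : ℤ) + 1)) := by simpa using hmem2
      have hnd : ¬ (n : ℤ) ∣ (k0 : ℤ) - k := by
        rintro ⟨c, hc⟩
        have h4 : (k0 : ℤ) - k < n := by omega
        have h5 : -(n : ℤ) < (k0 : ℤ) - k := by omega
        rw [hc] at h4 h5
        have h6 : c < 1 := by
          by_contra h7
          push Not at h7
          nlinarith
        have h8 : -1 < c := by
          by_contra h7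
          push Not at h7
          nlinarith
        have h9 : c = 0 := by omega
        rw [h9, mul_zero] at hc
        exact hkk (by omega)
      have h4 := (P.simple (k0 : ℤ) k hnd _ (openSegment_subset_segment ℝ _ _ hmem) hmem3).1
      obtain ⟨s, t, hs, ht, hst, h5⟩ := hmem
      rcases h4 with h4 | h4
      · apply hne
        rw [← h5] at h4
        have h6 : (t : ℂ) * (P.V ((k0 : ℤ) + 1) - P.V (k0 : ℤ)) = 0 := by
          have h7 : (s : ℂ) = 1 - t := by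
            have : s = 1 - t := by linarith
            rw [this]; push_cast; ring
          simp only [Complex.real_smul] at h4
          rw [h7] at h4
          linear_combination h4
        rcases mul_eq_zero.1 h6 with h7 | h7
        · exact absurd (by exact_mod_cast h7) ht.ne'
        · exact (sub_eq_zero.1 h7).symm
      · apply hne
        rw [← h5] at h4
        have h6 : (s : ℂ) * (P.V (k0 : ℤ) - P.V ((k0 : ℤ) + 1)) = 0 := by
          have h7 : (t : ℂ) = 1 - s := by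
            have : t = 1 - s := by linarith
            rw [this]; push_cast; ring
          simp only [Complex.real_smul] at h4
          rw [h7] at h4
          linear_combination h4
        rcases mul_eq_zero.1 h6 with h7 | h7
        · exact absurd (by exact_mod_cast h7) hs.ne'
        · exact sub_eq_zero.1 h7)
  refine ⟨ρ, hρ, fun d d' hd hd' hc hc' => ?_⟩
  have hed : P.ed x = P.V ((k0 : ℤ) + 1) - P.V (k0 : ℤ) := by
    unfold ed
    rw [← hj, hV0, hV1]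
  rw [hed] at hc hc'
  rw [Arcs_wind_eq, Arcs_wind_eq]
  exact hjump d d' hd hd' (by simpa using hc) (by simpa using hc')

/-- number of edges met by the arc -/
private noncomputable def Arcs_M (a b : ℝ) : ℕ := (⌈b⌉ - ⌊a⌋).toNat

/-- the closed polyline: arc followed by the chord -/
private noncomputable def Arcs_U (a b : ℝ) (k : ℕ) : ℂ :=
  if k ≤ Arcs_M a b then P.γ (max a (min b ((⌊a⌋ : ℝ) + k))) else P.γ a

private theorem Arcs_fc {a b : ℝ} (hab : a < b) : ((Arcs_M a b : ℕ) : ℤ) = ⌈b⌉ - ⌊a⌋ := by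
  unfold Arcs_M
  apply Int.toNat_of_nonneg
  have h1 : (⌊a⌋ : ℝ) ≤ (⌈b⌉ : ℝ) := (Int.floor_le a).trans (hab.le.trans (Int.le_ceil b))
  have h2 : ⌊a⌋ ≤ ⌈b⌉ := by exact_mod_cast h1
  omega

private theorem Arcs_U_left {a b : ℝ} (hab : a < b) {k : ℕ} (hk : k < Arcs_M a b) :
    P.Arcs_U a b k = P.γ (max a (((⌊a⌋ + k : ℤ) : ℝ))) := by
  unfold Arcs_U
  rw [if_pos hk.le]
  have h1 : (⌊a⌋ + k : ℤ) + 1 ≤ ⌈b⌉ := by
    have := Arcs_fc hab
    omega
  have h2 : ((⌊a⌋ + k : ℤ) : ℝ) < b := by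
    have h3 : (⌈b⌉ : ℝ) < b + 1 := Int.ceil_lt_add_one b
    have h4 : ((⌊a⌋ + k : ℤ) : ℝ) + 1 ≤ (⌈b⌉ : ℝ) := by exact_mod_cast h1
    linarith
  have h5 : (⌊a⌋ : ℝ) + (k : ℝ) = ((⌊a⌋ + k : ℤ) : ℝ) := by push_cast; ring
  rw [h5, min_eq_right h2.le]

private theorem Arcs_U_right {a b : ℝ} (hab : a < b) {k : ℕ} (hk : k < Arcs_M a b) :
    P.Arcs_U a b (k + 1) = P.γ (min b (((⌊a⌋ + k : ℤ) : ℝ) + 1)) := by
  unfold Arcs_U
  rw [if_pos (by omega : k + 1 ≤ Arcs_M a b)]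
  have h5 : (⌊a⌋ : ℝ) + ((k + 1 : ℕ) : ℝ) = ((⌊a⌋ + k : ℤ) : ℝ) + 1 := by push_cast; ring
  rw [h5]
  have h1 : a ≤ ((⌊a⌋ + k : ℤ) : ℝ) + 1 := by
    have h3 : a < (⌊a⌋ : ℝ) + 1 := Int.lt_floor_add_one a
    push_cast
    have h4 : (0 : ℝ) ≤ (k : ℝ) := Nat.cast_nonneg k
    linarith
  rw [max_eq_right (le_min hab.le h1)]

private theorem Arcs_U_M {a b : ℝ} (hab : a < b) : P.Arcs_U a b (Arcs_M a b) = P.γ b := by
  unfold Arcs_U
  rw [if_pos le_rfl]
  have h1 : (⌊a⌋ : ℝ) + ((Arcs_M a b : ℕ) : ℝ) = (⌈b⌉ : ℝ) := by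
    have h2 := Arcs_fc hab
    have h3 : (((Arcs_M a b : ℕ) : ℤ) : ℝ) = ((⌈b⌉ - ⌊a⌋ : ℤ) : ℝ) := by rw [h2]
    push_cast at h3
    linarith
  rw [h1, min_eq_left (Int.le_ceil b), max_eq_right hab.le]

private theorem Arcs_U_last (a b : ℝ) : P.Arcs_U a b (Arcs_M a b + 1) = P.γ a := by
  unfold Arcs_U
  rw [if_neg (by omega)]

private theorem Arcs_U_zero {a b : ℝ} (hab : a < b) : P.Arcs_U a b 0 = P.γ a := by
  unfold Arcs_U
  rw [if_pos (Nat.zero_le _)]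
  have h1 : (⌊a⌋ : ℝ) ≤ a := Int.floor_le a
  rw [Nat.cast_zero, add_zero, min_eq_right (h1.trans hab.le), max_eq_left h1]

private theorem Arcs_U_closed {a b : ℝ} (hab : a < b) :
    P.Arcs_U a b (Arcs_M a b + 1) = P.Arcs_U a b 0 := by
  rw [P.Arcs_U_last, P.Arcs_U_zero hab]

private theorem Arcs_cw_eq {a b : ℝ} (hab : a < b) (z : ℂ) :
    P.cw a b z = plw (P.Arcs_U a b) (Arcs_M a b + 1) z := by
  unfold cw plw
  rw [Finset.sum_range_succ, P.Arcs_U_M hab, P.Arcs_U_last]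
  congr 2
  unfold arcAng
  have h3 : Finset.Ico ⌊a⌋ ⌈b⌉ =
      (Finset.range (Arcs_M a b)).image (fun k : ℕ => ⌊a⌋ + (k : ℤ)) := by
    have h2 := Arcs_fc hab
    ext i
    simp only [Finset.mem_Ico, Finset.mem_image, Finset.mem_range]
    constructor
    · rintro ⟨h4, h5⟩
      exact ⟨(i - ⌊a⌋).toNat, by omega, by omega⟩
    · rintro ⟨k, hk, rfl⟩
      omega
  rw [h3, Finset.sum_image (fun x _ y _ h => by simpa using h)]
  refine Finset.sum_congr rfl fun k hk => ?_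
  rw [P.Arcs_U_left hab (Finset.mem_range.1 hk), P.Arcs_U_right hab (Finset.mem_range.1 hk)]

private theorem Arcs_U_seg {a b : ℝ} (hab : a < b) {k : ℕ} (hk : k < Arcs_M a b) {z : ℂ}
    (hz : z ∉ P.γ '' Icc a b) :
    z ∉ segment ℝ (P.Arcs_U a b k) (P.Arcs_U a b (k + 1)) := by
  rw [P.Arcs_U_left hab hk, P.Arcs_U_right hab hk]
  have h1 : (⌊a⌋ + k : ℤ) + 1 ≤ ⌈b⌉ := by
    have := Arcs_fc hab
    omega
  set i : ℤ := ⌊a⌋ + k with hi
  have h2 : (i : ℝ) < b := by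
    have h3 : (⌈b⌉ : ℝ) < b + 1 := Int.ceil_lt_add_one b
    have h4 : (i : ℝ) + 1 ≤ (⌈b⌉ : ℝ) := by exact_mod_cast h1
    linarith
  have h3 : a < (i : ℝ) + 1 := by
    have h3 : a < (⌊a⌋ : ℝ) + 1 := Int.lt_floor_add_one a
    rw [hi]
    push_cast
    have h4 : (0 : ℝ) ≤ (k : ℝ) := Nat.cast_nonneg k
    linarith
  have h4 : max a (i : ℝ) ≤ min b ((i : ℝ) + 1) :=
    max_le (le_min hab.le h3.le) (le_min h2.le (by linarith))
  rw [P.segment_γ (i := i) (le_max_right _ _) (h4.trans (min_le_right _ _))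
    ((le_max_right _ _).trans h4) (min_le_right _ _), uIcc_of_le h4]
  rintro ⟨t, ht, rfl⟩
  exact hz ⟨t, ⟨(le_max_left _ _).trans ht.1, ht.2.trans (min_le_left _ _)⟩, rfl⟩

private theorem Arcs_U_all {a b : ℝ} (hab : a < b) {z : ℂ}
    (hz : z ∉ P.γ '' Icc a b) (hz' : z ∉ segment ℝ (P.γ b) (P.γ a)) :
    ∀ k < Arcs_M a b + 1, z ∉ segment ℝ (P.Arcs_U a b k) (P.Arcs_U a b (k + 1)) := by
  intro k hk
  rcases Nat.lt_succ_iff_lt_or_eq.1 hk with h | h
  · exact P.Arcs_U_seg hab h hz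
  · rw [h, P.Arcs_U_M hab, P.Arcs_U_last]
    exact hz'

theorem cw_int {a b : ℝ} (hab : a < b) (z : ℂ) (hz : z ∉ P.γ '' Icc a b)
    (hz' : z ∉ segment ℝ (P.γ b) (P.γ a)) : ∃ w : ℤ, P.cw a b z = w := by
  rw [P.Arcs_cw_eq hab]
  exact plw_int _ _ (P.Arcs_U_closed hab) z (P.Arcs_U_all hab hz hz')

theorem cw_loc {a b : ℝ} (hab : a < b) (z : ℂ) (hz : z ∉ P.γ '' Icc a b)
    (hz' : z ∉ segment ℝ (P.γ b) (P.γ a)) : ∀ᶠ z' in 𝓝 z, P.cw a b z' = P.cw a b z := by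
  simp only [P.Arcs_cw_eq hab]
  exact plw_loc _ _ (P.Arcs_U_closed hab) z (P.Arcs_U_all hab hz hz')

theorem cw_far {a b : ℝ} (hab : a < b) : ∃ r : ℝ, ∀ z : ℂ, r < ‖z‖ → P.cw a b z = 0 := by
  simp only [P.Arcs_cw_eq hab]
  exact plw_far _ _ (P.Arcs_U_closed hab)

/-- jump across the chord (`cw a b` runs along the chord from `γ b` to `γ a`) -/
theorem cw_jump {a b : ℝ} (hab : a < b) (c : ℂ) (hc : c ∈ openSegment ℝ (P.γ a) (P.γ b))
    (hne : P.γ a ≠ P.γ b) (hc' : c ∉ P.γ '' Icc a b) : ∃ ρ > 0, ∀ d d' : ℂ, ‖d‖ < ρ → ‖d'‖ < ρ →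
    0 < cr (P.γ b - P.γ a) d → cr (P.γ b - P.γ a) d' < 0 →
    P.cw a b (c + d') = P.cw a b (c + d) + 1 := by
  obtain ⟨ρ, hρ, h⟩ := plw_jump (P.Arcs_U a b) (Arcs_M a b + 1) (P.Arcs_U_closed hab)
    (Arcs_M a b) (Nat.lt_succ_self _) c
    (by rw [P.Arcs_U_M hab, P.Arcs_U_last, openSegment_symm]; exact hc)
    (by rw [P.Arcs_U_M hab, P.Arcs_U_last]; exact hne.symm)
    (by
      intro k hk hkk
      exact P.Arcs_U_seg hab (by omega) hc')
  refine ⟨ρ, hρ, fun d d' hd hd' h1 h2 => ?_⟩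
  have e : P.γ a - P.γ b = -(P.γ b - P.γ a) := by ring
  rw [P.Arcs_cw_eq hab, P.Arcs_cw_eq hab]
  refine h d' d hd' hd ?_ ?_
  · rw [P.Arcs_U_M hab, P.Arcs_U_last, e, cr_neg_left]
    linarith
  · rw [P.Arcs_U_M hab, P.Arcs_U_last, e, cr_neg_left]
    linarith

theorem cw_add {a b : ℝ} (hab : a < b) (hba : b < a + n) (z : ℂ) (hz : z ∉ P.C)
    (hz' : z ∉ segment ℝ (P.γ a) (P.γ b)) : P.cw a b z + P.cw b (a + n) z = P.wind z := by
  have hpi : (2 * Real.pi) ≠ 0 := by positivity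
  have h1 := P.arcAng_wind a z hz
  have h2 := P.arcAng_add hab.le hba.le z (P.Arcs_nC hz _)
  have h3 : P.γ (a + n) = P.γ a := P.γ_add_n a
  have h4 : Complex.arg ((P.γ a - z) / (P.γ b - z)) +
      Complex.arg ((P.γ b - z) / (P.γ a - z)) = 0 := by
    have h5 := slit_iff (P.γ a) (P.γ b) z hz'
    have h6 : (P.γ a - z) / (P.γ b - z) = ((P.γ b - z) / (P.γ a - z))⁻¹ := by
      rw [inv_div]
    rw [h6, Complex.arg_inv, if_neg (Complex.slitPlane_arg_ne_pi h5)]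
    ring
  unfold cw
  rw [h3, ← add_div, div_eq_iff hpi]
  rw [← h2] at h1
  linarith

end Poly

end Pool.Agent.Lib_PL
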