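import Pool.Agent.Lib_PL.Levels

/-!
Components of `Bp p k` as arcs.
-/

open Set Complex
open scoped Topology

namespace Pool.Agent.Lib_PL

namespace Arc

theorem sh_zero (A : Arc) : A.sh 0 = A := by
  cases A
  simp [sh]

theorem sh_sh (A : Arc) (s t : ℤ) : (A.sh s).sh t = A.sh (s + t) := by
  cases A
  simp only [sh, mk.injEq]
  push_cast
  refine ⟨by ring, by ring, by ring⟩

theorem mem_sh (A : Arc) (t : ℤ) (x : ℝ) : x ∈ (A.sh t).s ↔ x - t ∈ A.s := by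
  simp only [sh, s, mem_Ioo]
  constructor
  · rintro ⟨h1, h2⟩
    exact ⟨by linarith, by linarith⟩
  · rintro ⟨h1, h2⟩
    exact ⟨by linarith, by linarith⟩

theorem cornered_sh (A : Arc) (t : ℤ) : (A.sh t).Cornered ↔ A.Cornered := by
  simp only [sh, Cornered]
  push_cast
  constructor
  · rintro (h | h)
    · exact Or.inl (by linarith)
    · exact Or.inr (by linarith)
  · rintro (h | h)
    · exact Or.inl (by linarith)
    · exact Or.inr (by linarith)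

end Arc

namespace Poly

variable {n : ℕ} (P : Poly n)

private theorem Comp_isOpen (hc : P.CCW) (p : ℂ) (k : ℕ) : IsOpen (P.Bp p k) := by
  rw [Metric.isOpen_iff]
  intro x hx
  obtain ⟨ε, hε, h⟩ := P.Bp_open hc hx
  refine ⟨ε, hε, fun y hy => h y ?_⟩
  rw [Metric.mem_ball, Real.dist_eq] at hy
  exact hy

private theorem Comp_int_notMem {p : ℂ} {k : ℕ} (i : ℤ) : (i : ℝ) ∉ P.Bp p k :=
  fun h => h.1 i rfl

private theorem Comp_int_notMem' {p : ℂ} {k : ℕ} (i : ℤ) : (i : ℝ) + 1 ∉ P.Bp p k := by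
  intro h
  exact h.1 (i + 1) (by push_cast; ring)

theorem exists_comp (hc : P.CCW) {p : ℂ} {k : ℕ} {x : ℝ} (h : x ∈ P.Bp p k) :
    ∃ A, P.IsComp p k A ∧ x ∈ A.s := by
  obtain ⟨hf1, hf2, -⟩ := NI_floor h.1
  have hop := P.Comp_isOpen hc p k
  set U : Set ℝ := Ici x ∩ (P.Bp p k)ᶜ with hU
  set L : Set ℝ := Iic x ∩ (P.Bp p k)ᶜ with hL
  have hUc : IsClosed U := isClosed_Ici.inter hop.isClosed_compl
  have hLc : IsClosed L := isClosed_Iic.inter hop.isClosed_compl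
  have hUm : (⌊x⌋ : ℝ) + 1 ∈ U := ⟨hf2.le, P.Comp_int_notMem' _⟩
  have hLm : (⌊x⌋ : ℝ) ∈ L := ⟨hf1.le, P.Comp_int_notMem _⟩
  have hUb : BddBelow U := ⟨x, fun y hy => hy.1⟩
  have hLb : BddAbove L := ⟨x, fun y hy => hy.1⟩
  have hb := hUc.csInf_mem ⟨_, hUm⟩ hUb
  have ha := hLc.csSup_mem ⟨_, hLm⟩ hLb
  have hb1 : sInf U ≤ (⌊x⌋ : ℝ) + 1 := csInf_le hUb hUm
  have ha1 : (⌊x⌋ : ℝ) ≤ sSup L := le_csSup hLb hLm
  have hxb : x < sInf U := lt_of_le_of_ne hb.1 (fun he => hb.2 (he ▸ h))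
  have hax : sSup L < x := lt_of_le_of_ne ha.1 (fun he => ha.2 (he.symm ▸ h))
  refine ⟨⟨⌊x⌋, sSup L, sInf U⟩, ⟨ha1, hax.trans hxb, hb1, ?_, Or.inr ha.2, Or.inr hb.2⟩,
    hax, hxb⟩
  intro y hy
  by_contra hyn
  rcases le_total x y with h1 | h1
  · exact absurd (csInf_le hUb ⟨h1, hyn⟩) (not_le.2 hy.2)
  · exact absurd (le_csSup hLb ⟨h1, hyn⟩) (not_le.2 hy.1)

theorem IsComp.mem_floor {P : Poly n} {p : ℂ} {k : ℕ} {A : Arc} (h : P.IsComp p k A) {x : ℝ}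
    (hx : x ∈ A.s) : (A.i : ℝ) < x ∧ x < A.i + 1 ∧ ⌊x⌋ = A.i ∧ NI x := by
  have h1 : (A.i : ℝ) < x := lt_of_le_of_lt h.ia hx.1
  have h2 : x < A.i + 1 := lt_of_lt_of_le hx.2 h.bi
  obtain ⟨h3, h4⟩ := NI_of_Ioo h1 h2
  exact ⟨h1, h2, h4, h3⟩

private theorem Comp_a_le {p : ℂ} {k : ℕ} {A B : Arc} (hA : P.IsComp p k A)
    (hB : P.IsComp p k B) {x : ℝ} (hx : x ∈ A.s) (hx' : x ∈ B.s) : B.a ≤ A.a := by
  by_contra h
  have h1 : A.a < B.a := not_le.1 h
  have h2 : B.a ∈ A.s := ⟨h1, hx'.1.trans hx.2⟩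
  have h3 := (hA.mem_floor h2)
  have h4 := (hA.mem_floor hx).2.2.1
  have h5 := (hB.mem_floor hx').2.2.1
  rcases hB.left with h6 | h6
  · rw [← h5, h4] at h6
    linarith [h3.1]
  · exact h6 (hA.sub h2)

private theorem Comp_b_le {p : ℂ} {k : ℕ} {A B : Arc} (hA : P.IsComp p k A)
    (hB : P.IsComp p k B) {x : ℝ} (hx : x ∈ A.s) (hx' : x ∈ B.s) : A.b ≤ B.b := by
  by_contra h
  have h1 : B.b < A.b := not_le.1 h
  have h2 : B.b ∈ A.s := ⟨hx.1.trans hx'.2, h1⟩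
  have h3 := (hA.mem_floor h2)
  have h4 := (hA.mem_floor hx).2.2.1
  have h5 := (hB.mem_floor hx').2.2.1
  rcases hB.right with h6 | h6
  · rw [← h5, h4] at h6
    linarith [h3.2.1]
  · exact h6 (hA.sub h2)

theorem comp_unique {p : ℂ} {k : ℕ} {A B : Arc} (hA : P.IsComp p k A) (hB : P.IsComp p k B) {x : ℝ}
    (hx : x ∈ A.s) (hx' : x ∈ B.s) : A = B := by
  have h1 := (hA.mem_floor hx).2.2.1
  have h2 := (hB.mem_floor hx').2.2.1
  have h3 := le_antisymm (P.Comp_a_le hB hA hx' hx) (P.Comp_a_le hA hB hx hx')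
  have h4 := le_antisymm (P.Comp_b_le hA hB hx hx') (P.Comp_b_le hB hA hx' hx)
  cases A
  cases B
  simp only at h1 h2 h3 h4
  subst h3
  subst h4
  rw [h1] at h2
  subst h2
  rfl

private theorem Comp_Bp_sub {p : ℂ} {k : ℕ} (x : ℝ) (m : ℤ) :
    x - ((m * n : ℤ) : ℝ) ∈ P.Bp p k ↔ x ∈ P.Bp p k := by
  rw [← P.Bp_add p k (x - ((m * n : ℤ) : ℝ)) m]
  have : x - ((m * n : ℤ) : ℝ) + (m : ℝ) * n = x := by push_cast; ring
  rw [this]

private theorem Comp_Bp_add {p : ℂ} {k : ℕ} (x : ℝ) (m : ℤ) :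
    x + ((m * n : ℤ) : ℝ) ∈ P.Bp p k ↔ x ∈ P.Bp p k := by
  rw [← P.Bp_add p k x m]
  push_cast
  rfl

theorem comp_sh {p : ℂ} {k : ℕ} {A : Arc} (m : ℤ) (hA : P.IsComp p k A) :
    P.IsComp p k (A.sh (m * n)) := by
  refine ⟨?_, ?_, ?_, ?_, ?_, ?_⟩
  · have := hA.ia
    simp only [Arc.sh]
    push_cast
    linarith
  · have := hA.ab
    simp only [Arc.sh]
    linarith
  · have := hA.bi
    simp only [Arc.sh]
    push_cast
    linarith
  · intro x hx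
    rw [Arc.mem_sh] at hx
    exact (P.Comp_Bp_sub x m).1 (hA.sub hx)
  · rcases hA.left with h | h
    · left
      simp only [Arc.sh]
      push_cast
      linarith
    · right
      intro h'
      exact h ((P.Comp_Bp_add A.a m).1 h')
  · rcases hA.right with h | h
    · left
      simp only [Arc.sh]
      push_cast
      linarith
    · right
      intro h'
      exact h ((P.Comp_Bp_add A.b m).1 h')

theorem exact_sh {p : ℂ} {k : ℕ} {A : Arc} (m : ℤ) (hA : P.Exact p k A) :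
    P.Exact p k (A.sh (m * n)) := by
  refine ⟨P.comp_sh m hA.1, fun x hx j hj h => ?_⟩
  rw [Arc.mem_sh] at hx
  exact hA.2 _ hx j hj ((P.Comp_Bp_sub x m).2 h)

include P in
private theorem Comp_n_pos : (0 : ℤ) < n := by
  have := P.three_le
  omega

/-- two components with `0 ≤ i < n` are equal or disjoint modulo `n` -/
theorem comp_canon {p : ℂ} {k : ℕ} {A B : Arc} (hA : P.IsComp p k A) (hB : P.IsComp p k B)
    (hA0 : 0 ≤ A.i) (hAn : A.i < n) (hB0 : 0 ≤ B.i) (hBn : B.i < n) {x : ℝ} {m m' : ℤ}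
    (hx : x ∈ (A.sh (m * n)).s) (hx' : x ∈ (B.sh (m' * n)).s) : A = B := by
  have h := P.comp_unique (P.comp_sh m hA) (P.comp_sh m' hB) hx hx'
  have h1 : A.i + m * n = B.i + m' * n := congrArg Arc.i h
  have hn := P.Comp_n_pos
  have h2 : m = m' := by
    have h3 : (A.i + m * n) / n = (B.i + m' * n) / n := by rw [h1]
    rw [Int.add_mul_ediv_right _ _ hn.ne', Int.add_mul_ediv_right _ _ hn.ne',
      Int.ediv_eq_zero_of_lt hA0 hAn, Int.ediv_eq_zero_of_lt hB0 hBn] at h3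
    omega
  subst h2
  have h4 := congrArg (fun C : Arc => C.sh (-(m * n))) h
  simp only [Arc.sh_sh, add_neg_cancel, Arc.sh_zero] at h4
  exact h4

include P in
theorem canon (A : Arc) : ∃ m : ℤ, 0 ≤ (A.sh (m * n)).i ∧ (A.sh (m * n)).i < n := by
  have hn := P.Comp_n_pos
  refine ⟨-(A.i / n), ?_⟩
  have h : (A.sh (-(A.i / n) * n)).i = A.i % n := by
    simp only [Arc.sh]
    have := Int.emod_add_mul_ediv A.i n
    linarith
  rw [h]
  exact ⟨Int.emod_nonneg _ hn.ne', Int.emod_lt_of_pos _ hn⟩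

theorem comp_absorb {p : ℂ} {k : ℕ} {A : Arc} (hA : P.IsComp p k A) {x y : ℝ} (hx : x ∈ A.s)
    (h : uIcc x y ⊆ P.Bp p k) : y ∈ A.s := by
  constructor
  · by_contra hc
    have h1 : y ≤ A.a := not_lt.1 hc
    have h2 : A.a ∈ uIcc x y := by
      rw [mem_uIcc]
      exact Or.inr ⟨h1, hx.1.le⟩
    rcases hA.left with h3 | h3
    · exact P.Comp_int_notMem A.i (h3 ▸ h h2)
    · exact h3 (h h2)
  · by_contra hc
    have h1 : A.b ≤ y := not_lt.1 hc
    have h2 : A.b ∈ uIcc x y := by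
      rw [mem_uIcc]
      exact Or.inl ⟨hx.2.le, h1⟩
    rcases hA.right with h3 | h3
    · exact P.Comp_int_notMem' A.i (h3 ▸ h h2)
    · exact h3 (h h2)

private theorem Comp_uIcc_sub (A : Arc) {x y : ℝ} (hx : x ∈ A.s) (hy : y ∈ A.s) :
    uIcc x y ⊆ A.s := by
  intro z hz
  rw [mem_uIcc] at hz
  rcases hz with ⟨h1, h2⟩ | ⟨h1, h2⟩
  · exact ⟨lt_of_lt_of_le hx.1 h1, lt_of_le_of_lt h2 hy.2⟩
  · exact ⟨lt_of_lt_of_le hy.1 h1, lt_of_le_of_lt h2 hx.2⟩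

private theorem Comp_nonempty {p : ℂ} {k : ℕ} {A : Arc} (hA : P.IsComp p k A) :
    (A.a + A.b) / 2 ∈ A.s := by
  have := hA.ab
  exact ⟨by linarith, by linarith⟩

theorem core_exists (hc : P.CCW) {p : ℂ} {k : ℕ} {A : Arc} (hA : P.IsComp p k A) :
    ∃ l ≤ k, ∃ Y, P.Exact p l Y ∧ Y.s ⊆ A.s ∧ Y.i = A.i ∧ (¬ A.Cornered → ¬ Y.Cornered) := by
  classical
  have hex : ∃ l : ℕ, ∃ x ∈ A.s, x ∈ P.Bp p l :=
    ⟨k, _, P.Comp_nonempty hA, hA.sub (P.Comp_nonempty hA)⟩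
  obtain ⟨x, hxA, hxl⟩ := Nat.find_spec hex
  have hlk : Nat.find hex ≤ k :=
    Nat.find_min' hex ⟨_, P.Comp_nonempty hA, hA.sub (P.Comp_nonempty hA)⟩
  obtain ⟨Y, hY, hxY⟩ := P.exists_comp hc hxl
  have hsub : Y.s ⊆ A.s := by
    intro y hy
    refine P.comp_absorb hA hxA ?_
    exact ((Comp_uIcc_sub Y hxY hy).trans hY.sub).trans (P.Bp_mono p hlk)
  have hi : Y.i = A.i := by
    rw [← (hY.mem_floor hxY).2.2.1, (hA.mem_floor hxA).2.2.1]
  refine ⟨Nat.find hex, hlk, Y, ⟨hY, fun y hy j hj hyj => ?_⟩, hsub, hi, ?_⟩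
  · exact Nat.find_min hex hj ⟨y, hsub hy, hyj⟩
  · intro hnc hYc
    have h1 := (Ioo_subset_Ioo_iff hY.ab).1 hsub
    have h2 := hA.ia
    have h3 := hA.bi
    apply hnc
    rcases hYc with h4 | h4
    · left
      rw [hi] at h4
      linarith [h1.1]
    · right
      rw [hi] at h4
      linarith [h1.2]

/-- all points of the edge of `Y` which see `S` are in `Y` -/
theorem see_absorb (hc : P.CCW) {p : ℂ} {k : ℕ} {S Y : Arc} (hS : (S.i : ℝ) ≤ S.a)
    (hS' : S.b ≤ S.i + 1) (hB : S.s ⊆ P.Bp p k) (hY : P.IsComp p (k + 1) Y) (hYS : P.Sees Y S)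
    {x : ℝ} (hx : (Y.i : ℝ) < x) (hx' : x < Y.i + 1) (hv : ∃ s ∈ S.s, P.Vis (P.γ s) (P.γ x)) :
    x ∈ Y.s := by
  obtain ⟨y, hy, s, hs, hvy⟩ := hYS
  obtain ⟨s', hs', hvx⟩ := hv
  have hvy' := hvy.symm
  obtain ⟨hy1, hy2, -, -⟩ := hY.mem_floor hy
  have e1 : (S.i : ℝ) < s := lt_of_le_of_lt hS hs.1
  have e2 : s < S.i + 1 := lt_of_lt_of_le hs.2 hS'
  have e3 : (S.i : ℝ) < s' := lt_of_le_of_lt hS hs'.1
  have e4 : s' < S.i + 1 := lt_of_lt_of_le hs'.2 hS'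
  refine P.comp_absorb hY hy ?_
  intro c hcc
  have key : ∃ σ ∈ S.s, P.Vis (P.γ σ) (P.γ c) := by
    rcases le_total y x with h1 | h1
    · rw [uIcc_of_le h1] at hcc
      obtain ⟨σ, hσ, h2⟩ := P.f2_edge hc e1 e2 e3 e4 hy1 h1 hx' hvy' hvx c hcc
      exact ⟨σ, Comp_uIcc_sub S hs hs' hσ, h2⟩
    · rw [uIcc_of_ge h1] at hcc
      obtain ⟨σ, hσ, h2⟩ := P.f2_edge hc e3 e4 e1 e2 hx h1 hy2 hvx hvy' c hcc
      exact ⟨σ, Comp_uIcc_sub S hs' hs hσ, h2⟩
  obtain ⟨σ, hσ, h2⟩ := key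
  rw [mem_uIcc] at hcc
  have h3 : (Y.i : ℝ) < c := by
    rcases hcc with h | h
    · exact lt_of_lt_of_le hy1 h.1
    · exact lt_of_lt_of_le hx h.1
  have h4 : c < Y.i + 1 := by
    rcases hcc with h | h
    · exact lt_of_le_of_lt h.2 hx'
    · exact lt_of_le_of_lt h.2 hy2
  exact P.Bp_of_vis (hB hσ) h2 (NI_of_Ioo h3 h4).1

theorem level0_unique (hc : P.CCW) {p : ℂ} {A B : Arc} (hA : P.IsComp p 0 A) (hB : P.IsComp p 0 B)
    (h : A.i = B.i) : A = B := by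
  have hx := P.Comp_nonempty hA
  have hy := P.Comp_nonempty hB
  obtain ⟨h1, h2, -, -⟩ := hA.mem_floor hx
  obtain ⟨h3, h4, -, -⟩ := hB.mem_floor hy
  rw [← h] at h3 h4
  refine P.comp_unique hA hB (x := (B.a + B.b) / 2) (P.comp_absorb hA hx ?_) hy
  rcases le_total ((A.a + A.b) / 2) ((B.a + B.b) / 2) with h5 | h5
  · rw [uIcc_of_le h5]
    exact P.Bp_zero_int hc h1 h5 h4 (hA.sub hx) (hB.sub hy)
  · rw [uIcc_of_ge h5]
    exact P.Bp_zero_int hc h3 h5 h2 (hB.sub hy) (hA.sub hx)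

theorem level0_count (hc : P.CCW) {p : ℂ} (F : Finset Arc)
    (hF : ∀ A ∈ F, P.IsComp p 0 A ∧ 0 ≤ A.i ∧ A.i < n) : F.card ≤ n := by
  have h := Finset.card_le_card_of_injOn (s := F) (t := Finset.range n)
    (fun A : Arc => A.i.toNat) ?_ ?_
  · simpa using h
  · intro A hA
    have := hF A hA
    simp only [Finset.coe_range, mem_Iio]
    omega
  · intro A hA B hB hAB
    have h1 := hF A hA
    have h2 := hF B hB
    refine P.level0_unique hc h1.1 h2.1 ?_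
    simp only at hAB
    omega

private theorem Comp_left_eq {p : ℂ} {k : ℕ} {A B : Arc} (hA : P.IsComp p k A)
    (hB : P.IsComp p k B) (hi : A.i = B.i) (h1 : A.a = A.i) (h2 : B.a = B.i) : A = B := by
  have h3 := hA.ab
  have h4 := hB.ab
  have h5 : A.a = B.a := by rw [h1, h2, hi]
  have h6 : A.a < min A.b B.b := lt_min h3 (h5 ▸ h4)
  have h7 := min_le_left A.b B.b
  have h8 := min_le_right A.b B.b
  refine P.comp_unique hA hB (x := (A.a + min A.b B.b) / 2) ⟨by linarith, by linarith⟩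
    ⟨by linarith, by linarith⟩

private theorem Comp_right_eq {p : ℂ} {k : ℕ} {A B : Arc} (hA : P.IsComp p k A)
    (hB : P.IsComp p k B) (hi : A.i = B.i) (h1 : A.b = A.i + 1) (h2 : B.b = B.i + 1) : A = B := by
  have h3 := hA.ab
  have h4 := hB.ab
  have h5 : A.b = B.b := by rw [h1, h2, hi]
  have h6 : max A.a B.a < A.b := max_lt h3 (h5 ▸ h4)
  have h7 := le_max_left A.a B.a
  have h8 := le_max_right A.a B.a
  refine P.comp_unique hA hB (x := (max A.a B.a + A.b) / 2) ⟨by linarith, by linarith⟩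
    ⟨by linarith, by linarith⟩

theorem cornered_count {p : ℂ} {k : ℕ} (F : Finset Arc)
    (hF : ∀ A ∈ F, P.IsComp p k A ∧ A.Cornered ∧ 0 ≤ A.i ∧ A.i < n) : F.card ≤ 2 * n := by
  classical
  have h := Finset.card_le_card_of_injOn (s := F)
    (t := (Finset.univ : Finset Bool) ×ˢ Finset.range n)
    (fun A : Arc => (decide (A.a = A.i), A.i.toNat)) ?_ ?_
  · rw [Finset.card_product] at h
    simpa using h
  · intro A hA
    have := hF A hA
    simp only [Finset.coe_product, mem_prod, Finset.coe_univ, mem_univ, Finset.coe_range, mem_Iio,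
      true_and]
    omega
  · intro A hA B hB hAB
    have h1 := hF A hA
    have h2 := hF B hB
    simp only [Prod.mk.injEq, decide_eq_decide] at hAB
    have hi : A.i = B.i := by omega
    by_cases h3 : A.a = A.i
    · exact P.Comp_left_eq h1.1 h2.1 hi h3 (hAB.1.1 h3)
    · have h4 : ¬ B.a = B.i := fun h => h3 (hAB.1.2 h)
      have h5 := h1.2.1.resolve_left h3
      have h6 := h2.2.1.resolve_left h4
      exact P.Comp_right_eq h1.1 h2.1 hi h5 h6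

private theorem Comp_γ_sub (x : ℝ) (m : ℤ) : P.γ (x - ((m * n : ℤ) : ℝ)) = P.γ x := by
  rw [← P.γ_add_mul (x - ((m * n : ℤ) : ℝ)) m]
  congr 1
  push_cast
  ring

private theorem Comp_γ_add (x : ℝ) (m : ℤ) : P.γ (x + ((m * n : ℤ) : ℝ)) = P.γ x := by
  rw [← P.γ_add_mul x m]
  congr 1
  push_cast
  ring

theorem sees_sh {A B : Arc} {m m' : ℤ} : P.Sees (A.sh (m * n)) (B.sh (m' * n)) ↔ P.Sees A B := by
  constructor
  · rintro ⟨x, hx, y, hy, h⟩
    rw [Arc.mem_sh] at hx hy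
    refine ⟨_, hx, _, hy, ?_⟩
    rw [P.Comp_γ_sub, P.Comp_γ_sub]
    exact h
  · rintro ⟨x, hx, y, hy, h⟩
    refine ⟨x + ((m * n : ℤ) : ℝ), ?_, y + ((m' * n : ℤ) : ℝ), ?_, ?_⟩
    · rw [Arc.mem_sh, add_sub_cancel_right]; exact hx
    · rw [Arc.mem_sh, add_sub_cancel_right]; exact hy
    · rw [P.Comp_γ_add, P.Comp_γ_add]
      exact h

theorem sees_symm {A B : Arc} : P.Sees A B ↔ P.Sees B A := by
  constructor
  · rintro ⟨x, hx, y, hy, h⟩
    exact ⟨y, hy, x, hx, h.symm⟩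
  · rintro ⟨x, hx, y, hy, h⟩
    exact ⟨y, hy, x, hx, h.symm⟩

/-- the edges of two arcs which see each other are different -/
theorem sees_ne {A B : Arc} (hA : (A.i : ℝ) ≤ A.a) (hA' : A.b ≤ A.i + 1) (hB : (B.i : ℝ) ≤ B.a)
    (hB' : B.b ≤ B.i + 1) (h : P.Sees A B) (m : ℤ) : A.i ≠ B.i + m * n := by
  intro he
  obtain ⟨x, hx, y, hy, hv⟩ := h
  have he' : (A.i : ℝ) = B.i + m * n := by rw [he]; push_cast; ring
  have h1 : A.a < x := hx.1
  have h2 : x < A.b := hx.2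
  have h3 : B.a < y := hy.1
  have h4 : y < B.b := hy.2
  apply P.not_vis_edge A.i (x := x) (y := y + m * n) (by linarith) (by linarith) (by linarith)
    (by linarith)
  rw [P.γ_add_mul]
  exact hv

private theorem Comp_sees_sh_right {A B : Arc} (m : ℤ) (h : P.Sees A B) :
    P.Sees A (B.sh (m * n)) := by
  have h1 := (P.sees_sh (A := A) (B := B) (m := 0) (m' := m)).2 h
  rwa [zero_mul, Arc.sh_zero] at h1

private theorem Comp_par_aux (hc : P.CCW) (p : ℂ) (l : ℕ) (Y : Arc) (hY : P.Exact p (l + 1) Y) :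
    ∃ T : Arc, P.IsComp p l T ∧ (0 ≤ T.i ∧ T.i < n) ∧ P.Sees Y T ∧
      ((∃ T, P.IsComp p l T ∧ T.Cornered ∧ P.Sees Y T) → T.Cornered) := by
  have hred : ∀ T : Arc, P.IsComp p l T → P.Sees Y T → ∃ T' : Arc, P.IsComp p l T' ∧
      (0 ≤ T'.i ∧ T'.i < n) ∧ P.Sees Y T' ∧ (T.Cornered → T'.Cornered) := by
    intro T hT hs
    obtain ⟨m, hm⟩ := P.canon T
    exact ⟨T.sh (m * n), P.comp_sh m hT, hm, P.Comp_sees_sh_right m hs,
      fun h => (Arc.cornered_sh T _).2 h⟩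
  by_cases h : ∃ T, P.IsComp p l T ∧ T.Cornered ∧ P.Sees Y T
  · obtain ⟨T, hT, hTc, hTs⟩ := h
    obtain ⟨T', h1, h2, h3, h4⟩ := hred T hT hTs
    exact ⟨T', h1, h2, h3, fun _ => h4 hTc⟩
  · have hx := P.Comp_nonempty hY.1
    obtain ⟨hNI, hor⟩ := (P.Bp_succ_iff p l _).1 (hY.1.sub hx)
    rcases hor with hv | ⟨y, hy, hv⟩
    · exact absurd ((P.Bp_zero_iff p _).2 ⟨hNI, hv⟩) (hY.2 _ hx 0 (Nat.succ_pos l))
    · obtain ⟨T, hT, hyT⟩ := P.exists_comp hc hy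
      obtain ⟨T', h1, h2, h3, -⟩ := hred T hT ⟨_, hx, y, hyT, hv.symm⟩
      exact ⟨T', h1, h2, h3, fun h' => absurd h' h⟩

theorem exists_par (hc : P.CCW) (p : ℂ) : ∃ par, P.PRule p par := by
  classical
  refine ⟨fun l Y => if h : P.Exact p (l + 1) Y then
    Classical.choose (P.Comp_par_aux hc p l Y h) else Y, ?_, ?_, ?_, ?_⟩
  · intro l Y h
    simp only [dif_pos h]
    exact (Classical.choose_spec (P.Comp_par_aux hc p l Y h)).1
  · intro l Y h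
    simp only [dif_pos h]
    exact (Classical.choose_spec (P.Comp_par_aux hc p l Y h)).2.1
  · intro l Y h
    simp only [dif_pos h]
    exact (Classical.choose_spec (P.Comp_par_aux hc p l Y h)).2.2.1
  · intro l Y h
    simp only [dif_pos h]
    exact (Classical.choose_spec (P.Comp_par_aux hc p l Y h)).2.2.2

private theorem Comp_core_aux (hc : P.CCW) (p : ℂ) (k : ℕ) (X : Arc) (hX : P.IsComp p k X) :
    ∃ q : ℕ × Arc, q.1 ≤ k ∧ P.Exact p q.1 q.2 ∧ q.2.s ⊆ X.s ∧ q.2.i = X.i ∧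
      (¬ X.Cornered → ¬ q.2.Cornered) := by
  obtain ⟨l, hl, Y, h1, h2, h3, h4⟩ := P.core_exists hc hX
  exact ⟨(l, Y), hl, h1, h2, h3, h4⟩

theorem exists_core (hc : P.CCW) (p : ℂ) : ∃ core lev, P.CRule p core lev := by
  classical
  refine ⟨fun k X => if h : P.IsComp p k X then
      (Classical.choose (P.Comp_core_aux hc p k X h)).2 else X,
    fun k X => if h : P.IsComp p k X then
      (Classical.choose (P.Comp_core_aux hc p k X h)).1 else 0, ⟨?_⟩⟩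
  intro k X h
  simp only [dif_pos h]
  exact Classical.choose_spec (P.Comp_core_aux hc p k X h)

end Poly

end Pool.Agent.Lib_PL
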