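import Pool.Agent.Lib_PL.SideA

/-!
Consequences of the side lemma.
-/

open Set Complex
open scoped Topology

namespace Pool.Agent.Lib_PL

namespace Poly

variable {n : ℕ} (P : Poly n)

private theorem SideB_seg (a b : ℝ) :
    segment ℝ (P.γ b) (P.γ (a + n)) = segment ℝ (P.γ a) (P.γ b) := by
  rw [P.γ_add_n, segment_symm]

private theorem SideB_vis {a b : ℝ} (h : P.Vis (P.γ a) (P.γ b)) :
    P.Vis (P.γ b) (P.γ (a + n)) := by
  rw [P.γ_add_n]
  exact h.symm

private theorem SideB_shift (a b : ℝ) : P.Side (a + n) (b + n) = P.Side a b := by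
  have h := P.side_shift a b 1
  simpa using h

/-- collinear points: leaving an open segment through one of its ends -/
private theorem SideB_line {p q c z : ℂ} (hpq : p ≠ q) (hc : c ∈ openSegment ℝ p q)
    (hz : z ∉ segment ℝ p q) (h0 : cr (q - p) (z - c) = 0) :
    p ∈ openSegment ℝ c z ∨ q ∈ openSegment ℝ c z := by
  obtain ⟨t, ht⟩ := cr_eq_zero (sub_ne_zero.2 hpq.symm) h0
  rw [openSegment_eq_image'] at hc
  obtain ⟨s, ⟨hs0, hs1⟩, hs⟩ := hc
  have hz2 : z = p + (s + t) • (q - p) := by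
    have h1 : z = c + (t : ℂ) * (q - p) := by rw [← ht]; ring
    rw [h1, ← hs]
    simp only [Complex.real_smul]
    push_cast
    ring
  have h3 : s + t < 0 ∨ 1 < s + t := by
    by_contra hcon
    push Not at hcon
    apply hz
    rw [segment_eq_image']
    exact ⟨s + t, ⟨hcon.1, hcon.2⟩, hz2.symm⟩
  rcases h3 with h3 | h3
  · left
    have ht0 : t < 0 := by linarith
    rw [openSegment_eq_image']
    refine ⟨-s / t, ⟨div_pos_of_neg_of_neg (by linarith) ht0, ?_⟩, ?_⟩
    · rw [div_lt_one_of_neg ht0]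
      linarith
    · have h4 : z - c = (t : ℂ) * (q - p) := ht
      have h5 : (t : ℂ) ≠ 0 := by exact_mod_cast ht0.ne
      simp only [Complex.real_smul]
      rw [h4, ← hs]
      simp only [Complex.real_smul]
      push_cast
      field_simp
      ring
  · right
    have ht0 : 0 < t := by linarith
    rw [openSegment_eq_image']
    refine ⟨(1 - s) / t, ⟨div_pos (by linarith) ht0, ?_⟩, ?_⟩
    · rw [div_lt_one ht0]
      linarith
    · have h4 : z - c = (t : ℂ) * (q - p) := ht
      have h5 : (t : ℂ) ≠ 0 := by exact_mod_cast ht0.ne'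
      simp only [Complex.real_smul]
      rw [h4, ← hs]
      simp only [Complex.real_smul]
      push_cast
      field_simp
      ring

private theorem SideB_cr_seg {p q c : ℂ} (hc : c ∈ segment ℝ p q) : cr (q - p) (c - p) = 0 := by
  rw [segment_eq_image'] at hc
  obtain ⟨s, _, hs⟩ := hc
  rw [← hs]
  simp only [Complex.real_smul]
  rw [show p + (s : ℂ) * (q - p) - p = (s : ℂ) * (q - p) by ring, cr_mul_right, cr_self, mul_zero]

/-- the other arc -/
theorem side_arc' {a b : ℝ} (hab : a < b) (h : P.Vis (P.γ a) (P.γ b)) {x : ℝ}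
    (hx : x ∈ Ioo b (a + n)) : P.γ x ∈ P.Side b (a + n) := by
  refine P.side_arc ?_ (P.SideB_vis h) hx
  linarith

/-- boundary points on a side -/
theorem side_mem_arc (hc : P.CCW) {a b : ℝ} (hab : a < b) (hba : b < a + n)
    (h : P.Vis (P.γ a) (P.γ b)) {x : ℝ} (hx : P.γ x ∈ P.Side a b) :
    ∃ m : ℤ, a < x + m * n ∧ x + m * n < b := by
  have hn : (0 : ℝ) < n := by
    have := P.three_le
    exact_mod_cast (by omega : 0 < n)
  obtain ⟨m, hm, -⟩ := existsUnique_add_zsmul_mem_Ico hn x a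
  have hm' : x + m * n ∈ Ico a (a + n) := by simpa using hm
  have hγ : P.γ (x + m * n) = P.γ x := P.γ_add_mul x m
  have hsub := P.side_sub hx
  refine ⟨m, ?_, ?_⟩
  · rcases hm'.1.lt_or_eq with h1 | h1
    · exact h1
    · exfalso
      apply hsub.2
      rw [← hγ, ← h1]
      exact left_mem_segment ℝ _ _
  · by_contra hcon
    rw [not_lt] at hcon
    rcases hcon.lt_or_eq with h1 | h1
    · have h2 := P.side_arc' hab h (x := x + m * n) ⟨h1, hm'.2⟩
      rw [hγ] at h2
      exact disjoint_left.1 (P.side_disj hc hab hba h) hx h2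
    · apply hsub.2
      rw [← hγ, ← h1]
      exact right_mem_segment ℝ _ _

/-- openness of the complementary side -/
theorem side_open' (hc : P.CCW) {a b : ℝ} (hab : a < b) (hba : b < a + n)
    (h : P.Vis (P.γ a) (P.γ b)) {z : ℂ} (hz : z ∈ P.Side b (a + n)) :
    ∃ ρ > 0, ∀ z' ∈ P.R, ‖z' - z‖ < ρ → z' ∈ P.Side b (a + n) := by
  exact P.side_open hc hba (by linarith) (P.SideB_vis h) hz

/-- a connected subset of `R` which misses the chord lies on one side -/
theorem side_conn (hc : P.CCW) {a b : ℝ} (hab : a < b) (hba : b < a + n)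
    (h : P.Vis (P.γ a) (P.γ b)) {M : Set ℂ} (hM : IsPreconnected M) (hR : M ⊆ P.R)
    (hd : Disjoint M (segment ℝ (P.γ a) (P.γ b))) : M ⊆ P.Side a b ∨ M ⊆ P.Side b (a + n) := by
  have hF : M ⊆ P.R \ segment ℝ (P.γ a) (P.γ b) := fun z hz =>
    ⟨hR hz, fun h1 => disjoint_left.1 hd hz h1⟩
  rcases M.eq_empty_or_nonempty with hM0 | ⟨z, hz⟩
  · left
    rw [hM0]
    exact empty_subset _
  rcases P.side_union hc hab hba h (hF hz).1 (hF hz).2 with ⟨x, hx, h1⟩ | ⟨x, hx, h1⟩
  · left
    intro w hw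
    refine ⟨x, hx, ?_⟩
    rw [connectedComponentIn_eq h1]
    exact hM.subset_connectedComponentIn hz hF hw
  · right
    intro w hw
    refine ⟨x, hx, ?_⟩
    rw [connectedComponentIn_eq h1]
    refine hM.subset_connectedComponentIn hz ?_ hw
    rw [P.SideB_seg]
    exact hF

/-- a segment in `R` with ends on different sides meets the chord -/
theorem side_cross (hc : P.CCW) {a b : ℝ} (hab : a < b) (hba : b < a + n)
    (h : P.Vis (P.γ a) (P.γ b)) {z w : ℂ} (hR : segment ℝ z w ⊆ P.R) (hz : z ∈ P.Side a b)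
    (hw : w ∈ P.Side b (a + n)) : ∃ c ∈ openSegment ℝ z w, c ∈ segment ℝ (P.γ a) (P.γ b) := by
  have hz' := P.side_sub hz
  have hw' := P.side_sub hw
  rw [P.SideB_seg] at hw'
  have hex : ∃ c ∈ segment ℝ z w, c ∈ segment ℝ (P.γ a) (P.γ b) := by
    by_contra hcon
    push Not at hcon
    have hd : Disjoint (segment ℝ z w) (segment ℝ (P.γ a) (P.γ b)) :=
      disjoint_left.2 hcon
    rcases P.side_conn hc hab hba h (convex_segment z w).isPreconnected hR hd with h1 | h1
    · exact disjoint_left.1 (P.side_disj hc hab hba h) (h1 (right_mem_segment ℝ z w)) hw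
    · exact disjoint_left.1 (P.side_disj hc hab hba h) hz (h1 (left_mem_segment ℝ z w))
  obtain ⟨c, h1, h2⟩ := hex
  refine ⟨c, mem_openSegment_of_ne_left_right ?_ ?_ h1, h2⟩
  · rintro rfl
    exact hz'.2 h2
  · rintro rfl
    exact hw'.2 h2

/-- a point of `Side a b` seen from an inner point of the chord is not on the left of the chord -/
private theorem SideB_right (hc : P.CCW) {a b : ℝ} (hab : a < b) (hba : b < a + n)
    (h : P.Vis (P.γ a) (P.γ b)) {z c : ℂ} (hR : segment ℝ c z ⊆ P.R)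
    (hcc : c ∈ openSegment ℝ (P.γ a) (P.γ b)) (hz : z ∈ P.Side a b) :
    ¬ 0 < cr (P.γ b - P.γ a) (z - c) := by
  intro hpos
  obtain ⟨ρ, hρ, hloc⟩ := P.side_local hc hab hba h hcc
  obtain ⟨ε, hε0, hε1, hε2⟩ : ∃ ε : ℝ, 0 < ε ∧ ε < 1 ∧ ‖(ε : ℂ) * (z - c)‖ < ρ := by
    refine ⟨min (1 / 2) (ρ / (2 * (‖z - c‖ + 1))), ?_, ?_, ?_⟩
    · have := norm_nonneg (z - c)
      exact lt_min (by norm_num) (by positivity)
    · exact (min_le_left _ _).trans_lt (by norm_num)
    · have h1 := norm_nonneg (z - c)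
      rw [norm_mul, Complex.norm_real, Real.norm_eq_abs, abs_of_pos
        (lt_min (by norm_num) (by positivity))]
      have h2 : min (1 / 2) (ρ / (2 * (‖z - c‖ + 1))) * ‖z - c‖ ≤
          ρ / (2 * (‖z - c‖ + 1)) * ‖z - c‖ :=
        mul_le_mul_of_nonneg_right (min_le_right _ _) h1
      refine h2.trans_lt ?_
      rw [div_mul_eq_mul_div, div_lt_iff₀ (by positivity)]
      nlinarith
  have h1 : c + (ε : ℂ) * (z - c) ∈ P.Side b (a + n) := by
    refine (hloc _ hε2).2 ?_
    rw [cr_mul_right]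
    exact mul_pos hε0 hpos
  have hcs : cr (P.γ b - P.γ a) (c - P.γ a) = 0 :=
    SideB_cr_seg (openSegment_subset_segment ℝ _ _ hcc)
  have h2 : segment ℝ (c + (ε : ℂ) * (z - c)) z ⊆ segment ℝ c z := by
    refine (convex_segment c z).segment_subset ?_ (right_mem_segment ℝ _ _)
    rw [segment_eq_image']
    exact ⟨ε, ⟨hε0.le, hε1.le⟩, by simp only [Complex.real_smul]⟩
  have h3 : Disjoint (segment ℝ (c + (ε : ℂ) * (z - c)) z) (segment ℝ (P.γ a) (P.γ b)) := by
    rw [disjoint_left]
    intro w hw hw'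
    have h4 := SideB_cr_seg hw'
    rw [segment_eq_image'] at hw
    obtain ⟨t, ⟨ht0, ht1⟩, ht⟩ := hw
    have h5 : w - P.γ a = (c - P.γ a) + ((ε + t * (1 - ε) : ℝ) : ℂ) * (z - c) := by
      rw [← ht]
      simp only [Complex.real_smul]
      push_cast
      ring
    rw [h5, cr_add_right, hcs, cr_mul_right, zero_add] at h4
    have h6 : 0 < ε + t * (1 - ε) := by nlinarith
    exact absurd h4 (mul_pos h6 hpos).ne'
  rcases P.side_conn hc hab hba h (convex_segment _ z).isPreconnected (h2.trans hR) h3 with h4 | h4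
  · exact disjoint_left.1 (P.side_disj hc hab hba h) (h4 (left_mem_segment ℝ _ _)) h1
  · exact disjoint_left.1 (P.side_disj hc hab hba h) hz (h4 (right_mem_segment ℝ _ _))

/-- a segment in `R` with both ends on the same side (here: `Side a b`), which does not contain the
ends of the chord, does not meet the chord -/
theorem side_same (hc : P.CCW) {a b : ℝ} (hab : a < b) (hba : b < a + n)
    (h : P.Vis (P.γ a) (P.γ b)) {z w : ℂ} (hR : segment ℝ z w ⊆ P.R) (ha : P.γ a ∉ segment ℝ z w)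
    (hb : P.γ b ∉ segment ℝ z w) (hz : z ∈ P.Side a b)
    (hw : w ∈ P.Side a b) : segment ℝ z w ⊆ P.Side a b := by
  have hz' := P.side_sub hz
  have hw' := P.side_sub hw
  by_cases hd : Disjoint (segment ℝ z w) (segment ℝ (P.γ a) (P.γ b))
  · rcases P.side_conn hc hab hba h (convex_segment z w).isPreconnected hR hd with h1 | h1
    · exact h1
    · exact absurd (h1 (left_mem_segment ℝ z w)) (disjoint_left.1 (P.side_disj hc hab hba h) hz)
  exfalso
  rw [not_disjoint_iff] at hd
  obtain ⟨c, h1, h2⟩ := hd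
  have hco : c ∈ openSegment ℝ (P.γ a) (P.γ b) := by
    refine mem_openSegment_of_ne_left_right ?_ ?_ h2
    · intro h3
      exact ha (by rw [h3]; exact h1)
    · intro h3
      exact hb (by rw [h3]; exact h1)
  have hcz : segment ℝ c z ⊆ segment ℝ z w :=
    (convex_segment z w).segment_subset h1 (left_mem_segment ℝ _ _)
  have hcw : segment ℝ c w ⊆ segment ℝ z w :=
    (convex_segment z w).segment_subset h1 (right_mem_segment ℝ _ _)
  have e1 := P.SideB_right hc hab hba h (hcz.trans hR) hco hz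
  have e2 := P.SideB_right hc hab hba h (hcw.trans hR) hco hw
  have h3 := h1
  rw [segment_eq_image'] at h3
  obtain ⟨r, ⟨hr0, hr1⟩, hr⟩ := h3
  have h4 : z - c = ((-r : ℝ) : ℂ) * (w - z) := by
    rw [← hr]
    simp only [Complex.real_smul]
    push_cast
    ring
  have h5 : w - c = ((1 - r : ℝ) : ℂ) * (w - z) := by
    rw [← hr]
    simp only [Complex.real_smul]
    push_cast
    ring
  have hr0' : 0 < r := by
    rcases hr0.lt_or_eq with h6 | h6
    · exact h6
    · exfalso
      apply hz'.2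
      have : c = z := by rw [← hr, ← h6]; simp
      rw [← this]
      exact h2
  have hr1' : r < 1 := by
    rcases hr1.lt_or_eq with h6 | h6
    · exact h6
    · exfalso
      apply hw'.2
      have : c = w := by rw [← hr, h6]; simp
      rw [← this]
      exact h2
  rw [h4, cr_mul_right] at e1
  rw [h5, cr_mul_right] at e2
  have h6 : cr (P.γ b - P.γ a) (w - z) = 0 := by
    rcases lt_trichotomy (cr (P.γ b - P.γ a) (w - z)) 0 with h7 | h7 | h7
    · exact absurd (mul_pos_of_neg_of_neg (by linarith) h7) e1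
    · exact h7
    · exact absurd (mul_pos (by linarith) h7) e2
  have h7 : cr (P.γ b - P.γ a) (z - c) = 0 := by
    rw [h4, cr_mul_right, h6, mul_zero]
  rcases SideB_line h.ne hco hz'.2 h7 with h8 | h8
  · exact ha (hcz (openSegment_subset_segment ℝ _ _ h8))
  · exact hb (hcz (openSegment_subset_segment ℝ _ _ h8))

theorem side_same' (hc : P.CCW) {a b : ℝ} (hab : a < b) (hba : b < a + n)
    (h : P.Vis (P.γ a) (P.γ b)) {z w : ℂ} (hR : segment ℝ z w ⊆ P.R) (ha : P.γ a ∉ segment ℝ z w)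
    (hb : P.γ b ∉ segment ℝ z w) (hz : z ∈ P.Side b (a + n))
    (hw : w ∈ P.Side b (a + n)) : segment ℝ z w ⊆ P.Side b (a + n) := by
  refine P.side_same hc hba (by linarith) (P.SideB_vis h) hR hb ?_ hz hw
  rw [P.γ_add_n]
  exact ha

/-- free segments with both ends on the same side do not meet the chord -/
theorem side_same_vis (hc : P.CCW) {a b : ℝ} (hab : a < b) (hba : b < a + n)
    (h : P.Vis (P.γ a) (P.γ b)) {z w : ℂ} (hv : P.Vis z w) (hz : z ∈ P.Side a b)
    (hw : w ∈ P.Side a b) : segment ℝ z w ⊆ P.Side a b := by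
  have hz' := P.side_sub hz
  have hw' := P.side_sub hw
  have key : ∀ c : ℂ, c ∈ P.C → c ∈ segment ℝ (P.γ a) (P.γ b) → c ∉ segment ℝ z w := by
    intro c hC hcs hcz
    rcases hv.end_of_C hcz hC with h1 | h1
    · exact hz'.2 (h1 ▸ hcs)
    · exact hw'.2 (h1 ▸ hcs)
  exact P.side_same hc hab hba h hv.seg (key _ (P.γ_mem_C a) (left_mem_segment ℝ _ _))
    (key _ (P.γ_mem_C b) (right_mem_segment ℝ _ _)) hz hw

theorem side_same_vis' (hc : P.CCW) {a b : ℝ} (hab : a < b) (hba : b < a + n)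
    (h : P.Vis (P.γ a) (P.γ b)) {z w : ℂ} (hv : P.Vis z w) (hz : z ∈ P.Side b (a + n))
    (hw : w ∈ P.Side b (a + n)) : segment ℝ z w ⊆ P.Side b (a + n) := by
  exact P.side_same_vis hc hba (by linarith) (P.SideB_vis h) hv hz hw

/-- interleaving chords cross -/
theorem cross_chords (hc : P.CCW) {a b x y : ℝ} (hax : a < x) (hxb : x < b) (hby : b < y)
    (hya : y < a + n) (h : P.Vis (P.γ a) (P.γ b)) (h' : P.Vis (P.γ x) (P.γ y)) :
    ∃ c ∈ openSegment ℝ (P.γ a) (P.γ b), c ∈ openSegment ℝ (P.γ x) (P.γ y) ∧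
      cr (P.γ b - P.γ a) (P.γ y - P.γ x) ≠ 0 := by
  have hab : a < b := hax.trans hxb
  have hba : b < a + n := hby.trans hya
  have hx := P.side_arc hba h (x := x) ⟨hax, hxb⟩
  have hy := P.side_arc' hab h (x := y) ⟨hby, hya⟩
  have hx' := P.side_sub hx
  obtain ⟨c, h1, h2⟩ := P.side_cross hc hab hba h h'.seg hx hy
  have hcI : c ∈ P.I := h'.mem h1
  have hne : ∀ t : ℝ, P.γ t ∉ P.I := fun t ht => ht.1 (P.γ_mem_C t)
  have hco : c ∈ openSegment ℝ (P.γ a) (P.γ b) := by
    refine mem_openSegment_of_ne_left_right ?_ ?_ h2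
    · intro h3
      exact hne a (by rw [h3]; exact hcI)
    · intro h3
      exact hne b (by rw [h3]; exact hcI)
  refine ⟨c, hco, h1, fun h0 => ?_⟩
  have h3 : cr (P.γ b - P.γ a) (P.γ x - c) = 0 := by
    have h4 := h1
    rw [openSegment_eq_image'] at h4
    obtain ⟨r, _, hr⟩ := h4
    have h5 : P.γ x - c = ((-r : ℝ) : ℂ) * (P.γ y - P.γ x) := by
      rw [← hr]
      simp only [Complex.real_smul]
      push_cast
      ring
    rw [h5, cr_mul_right, h0, mul_zero]
  have hsub : openSegment ℝ c (P.γ x) ⊆ openSegment ℝ (P.γ x) (P.γ y) := by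
    intro w hw
    have h4 := h1
    rw [openSegment_eq_image'] at h4 hw ⊢
    obtain ⟨r, ⟨hr0, hr1⟩, hr⟩ := h4
    obtain ⟨s, ⟨hs0, hs1⟩, hs⟩ := hw
    refine ⟨(1 - s) * r, ⟨mul_pos (by linarith) hr0, ?_⟩, ?_⟩
    · nlinarith
    · rw [← hs, ← hr]
      simp only [Complex.real_smul]
      push_cast
      ring
  rcases SideB_line h.ne hco hx'.2 h3 with h4 | h4
  · exact hne a (h' (hsub h4))
  · exact hne b (h' (hsub h4))

/-- nested chords do not meet -/
theorem nest_chords (hc : P.CCW) {a b x y : ℝ} (hax : a < x) (hxy : x < y) (hyb : y < b)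
    (hba : b < a + n) (h : P.Vis (P.γ a) (P.γ b)) (h' : P.Vis (P.γ x) (P.γ y)) :
    Disjoint (segment ℝ (P.γ a) (P.γ b)) (segment ℝ (P.γ x) (P.γ y)) := by
  have hab : a < b := hax.trans (hxy.trans hyb)
  have hx := P.side_arc hba h (x := x) ⟨hax, hxy.trans hyb⟩
  have hy := P.side_arc hba h (x := y) ⟨hax.trans hxy, hyb⟩
  have h1 := P.side_same_vis hc hab hba h h' hx hy
  rw [disjoint_left]
  intro c hc1 hc2
  exact (P.side_sub (h1 hc2)).2 hc1

/-- two segments which meet in two different points are collinear (used for `side_same`) -/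
theorem two_points {z w a b c c' : ℂ} (h1 : c ∈ segment ℝ z w) (h2 : c ∈ segment ℝ a b)
    (h3 : c' ∈ segment ℝ z w) (h4 : c' ∈ segment ℝ a b) (hne : c ≠ c') :
    segment ℝ c c' ⊆ segment ℝ z w ∩ segment ℝ a b := by
  exact subset_inter ((convex_segment z w).segment_subset h1 h3)
    ((convex_segment a b).segment_subset h2 h4)

end Poly

end Pool.Agent.Lib_PL
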