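import Pool.Agent.Lib_PL.Vis1

/-!
Squeeze lemma.  Let the segment `A B` be a limit of free segments `a b`, and let `γ t` be a point of the open
segment `A B` which is strictly right of all these segments.  Then the boundary near `γ t` is weakly right
of the line `A B`.

Proof: if `γ τ` (close to `γ t`) is strictly left of `A B`, then it is strictly left of `a b` for a very
good approximation, while `γ t` is strictly right; by the intermediate value theorem the curve between
meets the line `a b` close to `γ t`, hence (closeness) at a point of the open segment `a b`, which is in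
`I`; contradiction.
-/

open Set Complex
open scoped Topology

namespace Pool.Agent.Lib_PL

/-- a point on the line `a b` whose projection is strictly between `a` and `b` -/
private theorem Squeeze_mem {a b z : ℂ} (h0 : cr (b - a) (z - a) = 0)
    (h1 : 0 < (z - a).re * (b - a).re + (z - a).im * (b - a).im)
    (h2 : 0 < (b - z).re * (b - a).re + (b - z).im * (b - a).im) :
    z ∈ openSegment ℝ a b := by
  set N : ℝ := (b - a).re ^ 2 + (b - a).im ^ 2 with hN
  set g : ℝ := (z - a).re * (b - a).re + (z - a).im * (b - a).im with hg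
  have hsum : g + ((b - z).re * (b - a).re + (b - z).im * (b - a).im) = N := by
    simp only [hg, hN, Complex.sub_re, Complex.sub_im]
    ring
  have hNpos : 0 < N := by linarith
  have hlt : g < N := by linarith
  rw [openSegment_eq_image']
  refine ⟨g / N, ⟨div_pos h1 hNpos, (div_lt_one hNpos).2 hlt⟩, ?_⟩
  simp only [cr, Complex.sub_re, Complex.sub_im] at h0
  simp only [Complex.real_smul]
  have hNne : N ≠ 0 := hNpos.ne'
  apply Complex.ext
  · simp only [Complex.add_re, Complex.mul_re, Complex.ofReal_re, Complex.ofReal_im,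
      Complex.sub_re, Complex.sub_im, zero_mul, sub_zero]
    field_simp
    simp only [hg, hN, Complex.sub_re, Complex.sub_im]
    linear_combination (b.im - a.im) * h0
  · simp only [Complex.add_im, Complex.mul_im, Complex.ofReal_re, Complex.ofReal_im,
      Complex.sub_re, Complex.sub_im, zero_mul, add_zero]
    field_simp
    simp only [hg, hN, Complex.sub_re, Complex.sub_im]
    linear_combination (-(b.re - a.re)) * h0

namespace Poly

variable {n : ℕ} (P : Poly n)

private theorem Squeeze_aux (s : ℝ) (A B : ℂ) (hAB : A ≠ B) (t : ℝ)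
    (ht : P.γ t ∈ openSegment ℝ A B)
    (H : ∀ ε > 0, ∃ a b : ℂ, ‖a - A‖ < ε ∧ ‖b - B‖ < ε ∧ P.Vis a b ∧
      s * cr (b - a) (P.γ t - a) < 0) :
    ∃ ρ > 0, ∀ τ : ℝ, |τ - t| < ρ → s * cr (B - A) (P.γ τ - A) ≤ 0 := by
  have hcrc := cr_continuous
  -- the projection inequalities at the limit
  have hlim : 0 < (P.γ t - A).re * (B - A).re + (P.γ t - A).im * (B - A).im ∧
      0 < (B - P.γ t).re * (B - A).re + (B - P.γ t).im * (B - A).im := by
    rw [openSegment_eq_image'] at ht
    obtain ⟨u, ⟨hu0, hu1⟩, hu⟩ := ht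
    simp only [Complex.real_smul] at hu
    have hN : 0 < (B - A).re ^ 2 + (B - A).im ^ 2 := by
      have h1 : B - A ≠ 0 := sub_ne_zero.2 hAB.symm
      have h2 := Complex.normSq_pos.2 h1
      rw [Complex.normSq_apply] at h2
      nlinarith
    have e1 : (P.γ t - A).re = u * (B - A).re := by
      rw [← hu]
      simp
    have e2 : (P.γ t - A).im = u * (B - A).im := by
      rw [← hu]
      simp
    have e3 : (B - P.γ t).re = (1 - u) * (B - A).re := by
      have : (B - P.γ t).re = (B - A).re - (P.γ t - A).re := by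
        simp only [Complex.sub_re]
        ring
      rw [this, e1]
      ring
    have e4 : (B - P.γ t).im = (1 - u) * (B - A).im := by
      have : (B - P.γ t).im = (B - A).im - (P.γ t - A).im := by
        simp only [Complex.sub_im]
        ring
      rw [this, e2]
      ring
    rw [e1, e2, e3, e4]
    constructor
    · have : u * (B - A).re * (B - A).re + u * (B - A).im * (B - A).im =
        u * ((B - A).re ^ 2 + (B - A).im ^ 2) := by ring
      rw [this]
      exact mul_pos hu0 hN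
    · have : (1 - u) * (B - A).re * (B - A).re + (1 - u) * (B - A).im * (B - A).im =
        (1 - u) * ((B - A).re ^ 2 + (B - A).im ^ 2) := by ring
      rw [this]
      exact mul_pos (by linarith) hN
  -- open conditions around `(A, B, γ t)`
  have hc1 : Continuous fun p : ℂ × ℂ × ℂ =>
      (p.2.2 - p.1).re * (p.2.1 - p.1).re + (p.2.2 - p.1).im * (p.2.1 - p.1).im := by
    fun_prop
  have hc2 : Continuous fun p : ℂ × ℂ × ℂ =>
      (p.2.1 - p.2.2).re * (p.2.1 - p.1).re + (p.2.1 - p.2.2).im * (p.2.1 - p.1).im := by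
    fun_prop
  have hev : ∀ᶠ p : ℂ × ℂ × ℂ in 𝓝 (A, B, P.γ t),
      0 < (p.2.2 - p.1).re * (p.2.1 - p.1).re + (p.2.2 - p.1).im * (p.2.1 - p.1).im ∧
      0 < (p.2.1 - p.2.2).re * (p.2.1 - p.1).re + (p.2.1 - p.2.2).im * (p.2.1 - p.1).im :=
    (hc1.continuousAt.eventually (lt_mem_nhds hlim.1)).and
      (hc2.continuousAt.eventually (lt_mem_nhds hlim.2))
  obtain ⟨δ, hδ, hδ'⟩ := Metric.eventually_nhds_iff.1 hev
  have key : ∀ a b z : ℂ, ‖a - A‖ < δ → ‖b - B‖ < δ → ‖z - P.γ t‖ < δ → 
      cr (b - a) (z - a) = 0 → z ∈ openSegment ℝ a b := by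
    intro a b z ha hb hz h0
    have hd : dist ((a, b, z) : ℂ × ℂ × ℂ) (A, B, P.γ t) < δ := by
      rw [Prod.dist_eq, Prod.dist_eq, max_lt_iff, max_lt_iff, dist_eq_norm, dist_eq_norm,
        dist_eq_norm]
      exact ⟨ha, hb, hz⟩
    have h1 := hδ' hd
    exact Squeeze_mem h0 h1.1 h1.2
  obtain ⟨ρ, hρ, hρ'⟩ := Metric.continuousAt_iff.1 (P.γ_cont.continuousAt (x := t)) δ hδ
  refine ⟨ρ, hρ, ?_⟩
  intro τ hτ
  by_contra hcon
  push Not at hcon
  -- approximations keep the sign at `τ`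
  have hc3 : Continuous fun p : ℂ × ℂ => s * cr (p.2 - p.1) (P.γ τ - p.1) :=
    continuous_const.mul (hcrc.comp ((by fun_prop : Continuous fun p : ℂ × ℂ =>
      ((p.2 - p.1, P.γ τ - p.1) : ℂ × ℂ))))
  have hev3 : ∀ᶠ p : ℂ × ℂ in 𝓝 (A, B), 0 < s * cr (p.2 - p.1) (P.γ τ - p.1) :=
    hc3.continuousAt.eventually (lt_mem_nhds hcon)
  obtain ⟨δ3, hδ3, hδ3'⟩ := Metric.eventually_nhds_iff.1 hev3
  obtain ⟨a, b, ha, hb, hv, hneg⟩ := H (min δ δ3) (lt_min hδ hδ3)
  have ha1 : ‖a - A‖ < δ := lt_of_lt_of_le ha (min_le_left _ _)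
  have hb1 : ‖b - B‖ < δ := lt_of_lt_of_le hb (min_le_left _ _)
  have ha3 : ‖a - A‖ < δ3 := lt_of_lt_of_le ha (min_le_right _ _)
  have hb3 : ‖b - B‖ < δ3 := lt_of_lt_of_le hb (min_le_right _ _)
  have hpos : 0 < s * cr (b - a) (P.γ τ - a) := by
    have hd : dist ((a, b) : ℂ × ℂ) (A, B) < δ3 := by
      rw [Prod.dist_eq, max_lt_iff, dist_eq_norm, dist_eq_norm]
      exact ⟨ha3, hb3⟩
    exact hδ3' hd
  have hc4 : Continuous fun x : ℝ => s * cr (b - a) (P.γ x - a) := by
    have h5 : Continuous fun x : ℝ => ((b - a, P.γ x - a) : ℂ × ℂ) :=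
      continuous_const.prodMk (P.γ_cont.sub continuous_const)
    exact continuous_const.mul (hcrc.comp h5)
  have hmem : (0 : ℝ) ∈ (fun x : ℝ => s * cr (b - a) (P.γ x - a)) '' uIcc t τ := by
    apply intermediate_value_uIcc hc4.continuousOn
    exact mem_uIcc_of_le hneg.le hpos.le
  obtain ⟨x, hx, hx0⟩ := hmem
  have hxt : |x - t| < ρ := by
    refine lt_of_le_of_lt ?_ hτ
    have := abs_sub_left_of_mem_uIcc hx
    exact this
  have hxn : ‖P.γ x - P.γ t‖ < δ := by
    have := hρ' (by rw [Real.dist_eq]; exact hxt : dist x t < ρ)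
    rwa [dist_eq_norm] at this
  have hs : s ≠ 0 := by
    rintro rfl
    simp at hneg
  have hcr0 : cr (b - a) (P.γ x - a) = 0 := by
    rcases mul_eq_zero.1 hx0 with h | h
    · exact absurd h hs
    · exact h
  have hz := key a b (P.γ x) ha1 hb1 hxn hcr0
  exact P.I_disj_C (hv hz) (P.γ_mem_C x)

theorem squeeze_right (A B : ℂ) (hAB : A ≠ B) (t : ℝ) (ht : P.γ t ∈ openSegment ℝ A B)
    (H : ∀ ε > 0, ∃ a b : ℂ, ‖a - A‖ < ε ∧ ‖b - B‖ < ε ∧ P.Vis a b ∧ cr (b - a) (P.γ t - a) < 0) :
    ∃ ρ > 0, ∀ τ : ℝ, |τ - t| < ρ → cr (B - A) (P.γ τ - A) ≤ 0 := by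
  have h := P.Squeeze_aux 1 A B hAB t ht (by simpa using H)
  simpa using h

theorem squeeze_left (A B : ℂ) (hAB : A ≠ B) (t : ℝ) (ht : P.γ t ∈ openSegment ℝ A B)
    (H : ∀ ε > 0, ∃ a b : ℂ, ‖a - A‖ < ε ∧ ‖b - B‖ < ε ∧ P.Vis a b ∧ 0 < cr (b - a) (P.γ t - a)) :
    ∃ ρ > 0, ∀ τ : ℝ, |τ - t| < ρ → 0 ≤ cr (B - A) (P.γ τ - A) := by
  have h := P.Squeeze_aux (-1) A B hAB t ht (by simpa using H)
  simpa using h

end Poly

end Pool.Agent.Lib_PL
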