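import Pool.Agent.Lib_PL.TransE
import Pool.Agent.Lib_PL.SideB
import Pool.Agent.Lib_PL.Squeeze

/-!
Contacts of the segment `L = [γ D, γ s0]`.  A position `x` with `γ x ∈ L` is a left contact if `s0 < x < D`, a right
contact if `D < x < s0 + n`.

`left_strict`: take a chord `s y` with `s < x < y` (`s`, `y` close to `s0`, `D`).  `γ D ∈ Side s y` is strictly left of
the line directed from `γ y` to `γ s`, `γ s0` is strictly right of it and on the other side; so `L` crosses the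
chord in one point; the part of `L` strictly left of the line is connected, misses the chord and contains
`γ D`, so it is in `Side s y`, the part strictly right is in `Side y (s+n)` (`side_conn`); the crossing point is on the
chord.  Hence `γ x ∈ Side s y` is strictly left.
-/

open Set Complex
open scoped Topology

namespace Pool.Agent.Lib_PL

private lemma contact_aff (v y p q : ℂ) (a b : ℝ) (hab : a + b = 1) :
    cr v (a • p + b • q - y) = a * cr v (p - y) + b * cr v (q - y) := by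
  have h : a • p + b • q - y = a • (p - y) + b • (q - y) := by
    have h1 : y = a • y + b • y := by rw [← add_smul, hab, one_smul]
    rw [smul_sub, smul_sub]
    nth_rewrite 1 [h1]
    abel
  rw [h, cr_add_right, cr_smul_right, cr_smul_right]

namespace Poly

variable {n : ℕ} (P : Poly n)

variable {i j : ℤ} {α β D s0 : ℝ}

/-- order facts -/
private lemma contact_ord {P : Poly n} (h : P.PreP i j α β D s0) :
    (i : ℝ) ≤ s0 ∧ s0 < (i : ℝ) + 1 ∧ (i : ℝ) + 1 ≤ j ∧ (j : ℝ) + 1 ≤ i + n := by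
  have h1 : (i : ℝ) + 1 ≤ j := by exact_mod_cast h.ij
  have h2 : (j : ℝ) + 1 ≤ i + n := by exact_mod_cast h.ji
  have h3 := h.iα
  have h4 := h.αs
  have h5 := h.sβ
  have h6 := h.βi
  exact ⟨by linarith, by linarith, h1, h2⟩

/-- `γ D` is strictly left of the line directed from `γ y` to `γ s` -/
private lemma contact_D (hc : P.CCW) (h : P.PreP i j α β D s0) {s y : ℝ} (hy : D < y) (hyj : y < j + 1)
    (hv : P.Vis (P.γ s) (P.γ y)) : 0 < cr (P.γ s - P.γ y) (P.γ D - P.γ y) := by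
  have hjD := h.jD
  have hDj := h.Dj
  have h1 := Vis.left' hc (i := j) (by linarith) hyj hv.symm
  have h2 := P.γ_sub j y D (by linarith) (by linarith) (by linarith) (by linarith)
  rw [h2, cr_mul_right, cr_swap]
  nlinarith

/-- `γ s0` is strictly right of the line directed from `γ y` to `γ s` -/
private lemma contact_s (hc : P.CCW) (h : P.PreP i j α β D s0) {s y : ℝ} (hs : s0 < s) (hsβ : s < β)
    (hv : P.Vis (P.γ s) (P.γ y)) : cr (P.γ s - P.γ y) (P.γ s0 - P.γ y) < 0 := by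
  obtain ⟨o1, o2, o3, o4⟩ := contact_ord h
  have hβi := h.βi
  have h1 := Vis.left' hc (i := i) (by linarith) (by linarith) hv
  have h2 := P.γ_sub i s s0 (by linarith) (by linarith) (by linarith) (by linarith)
  have h3 : P.γ s0 - P.γ y = (P.γ s0 - P.γ s) + (P.γ s - P.γ y) := by ring
  have h4 : P.γ s - P.γ y = -(P.γ y - P.γ s) := by ring
  rw [h3, cr_add_right, cr_self, h2, cr_mul_right, h4, cr_neg_left, cr_swap (P.γ y - P.γ s)]
  nlinarith

theorem left_strict (hc : P.CCW) (h : P.PreP i j α β D s0) {x : ℝ} (hx : s0 < x) (hx' : x < D)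
    (hL : P.γ x ∈ segment ℝ (P.γ D) (P.γ s0)) : ∃ ε > 0, ∀ s y : ℝ, s0 < s → s < s0 + ε → s < β →
    D < y → y < D + ε → y < j + 1 → P.Vis (P.γ s) (P.γ y) → 0 < cr (P.γ s - P.γ y) (P.γ x - P.γ y) := by
  obtain ⟨o1, o2, o3, o4⟩ := contact_ord h
  refine ⟨x - s0, by linarith, fun s y hs hs' hsβ hy hy' hyj hv => ?_⟩
  by_contra hcon
  push Not at hcon
  have hsx : s < x := by linarith
  have hxy : x < y := by linarith
  have hsy : s < y := by linarith
  have hyn : y < s + n := by linarith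
  have hsx' : P.γ x ∈ P.Side s y := P.side_arc hyn hv ⟨hsx, hxy⟩
  have hs0' : P.γ s0 ∈ P.Side y (s + n) := by
    have h1 := P.side_arc' hsy hv (x := s0 + n) ⟨by linarith, by linarith⟩
    rwa [P.γ_add_n] at h1
  have hfs := P.contact_s hc h hs hsβ hv
  have hxn := (P.side_sub hsx').2
  have hsub : segment ℝ (P.γ x) (P.γ s0) ⊆ P.R :=
    ((convex_segment (𝕜 := ℝ) (P.γ D) (P.γ s0)).segment_subset hL (right_mem_segment ℝ _ _)).trans h.LR
  have hdis : Disjoint (segment ℝ (P.γ x) (P.γ s0)) (segment ℝ (P.γ s) (P.γ y)) := by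
    rw [Set.disjoint_left]
    intro z hz hz'
    obtain ⟨a, b, ha, hb, hab, rfl⟩ := hz
    have e1 := contact_aff (P.γ s - P.γ y) (P.γ y) (P.γ x) (P.γ s0) a b hab
    obtain ⟨a', b', ha', hb', hab', he⟩ := hz'
    have e2 := contact_aff (P.γ s - P.γ y) (P.γ y) (P.γ s) (P.γ y) a' b' hab'
    rw [he, e1, sub_self, cr_zero_right, cr_self] at e2
    by_cases hb0 : b = 0
    · subst hb0
      have ha1 : a = 1 := by linarith
      subst ha1
      apply hxn
      refine ⟨a', b', ha', hb', hab', ?_⟩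
      rw [he]
      simp
    · have hbp : 0 < b := lt_of_le_of_ne hb (Ne.symm hb0)
      nlinarith [mul_nonneg ha (neg_nonneg.2 hcon), mul_pos hbp (neg_pos.2 hfs)]
  rcases P.side_conn hc hsy hyn hv (convex_segment (𝕜 := ℝ) _ _).isPreconnected hsub hdis with h1 | h1
  · exact Set.disjoint_left.1 (P.side_disj hc hsy hyn hv) (h1 (right_mem_segment ℝ _ _)) hs0'
  · exact Set.disjoint_left.1 (P.side_disj hc hsy hyn hv) hsx' (h1 (left_mem_segment ℝ _ _))

theorem right_strict (hc : P.CCW) (h : P.PreP i j α β D s0) {x : ℝ} (hx : D < x) (hx' : x < s0 + n)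
    (hL : P.γ x ∈ segment ℝ (P.γ D) (P.γ s0)) : ∃ ε > 0, ∀ s y : ℝ, s0 < s → s < s0 + ε → s < β →
    D < y → y < D + ε → y < j + 1 → P.Vis (P.γ s) (P.γ y) → cr (P.γ s - P.γ y) (P.γ x - P.γ y) < 0 := by
  obtain ⟨o1, o2, o3, o4⟩ := contact_ord h
  have hjD := h.jD
  refine ⟨x - D, by linarith, fun s y hs hs' hsβ hy hy' hyj hv => ?_⟩
  by_contra hcon
  push Not at hcon
  have hβi := h.βi
  have hsD : s < D := by linarith
  have hyx : y < x := by linarith
  have hsy : s < y := by linarith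
  have hyn : y < s + n := by linarith
  have hsx' : P.γ x ∈ P.Side y (s + n) := P.side_arc' hsy hv ⟨hyx, by linarith⟩
  have hD' : P.γ D ∈ P.Side s y := P.side_arc hyn hv ⟨hsD, hy⟩
  have hfD := P.contact_D hc h hy hyj hv
  have hxn := (P.side_sub hsx').2
  rw [P.γ_add_n, segment_symm] at hxn
  have hsub : segment ℝ (P.γ x) (P.γ D) ⊆ P.R :=
    ((convex_segment (𝕜 := ℝ) (P.γ D) (P.γ s0)).segment_subset hL (left_mem_segment ℝ _ _)).trans h.LR
  have hdis : Disjoint (segment ℝ (P.γ x) (P.γ D)) (segment ℝ (P.γ s) (P.γ y)) := by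
    rw [Set.disjoint_left]
    intro z hz hz'
    obtain ⟨a, b, ha, hb, hab, rfl⟩ := hz
    have e1 := contact_aff (P.γ s - P.γ y) (P.γ y) (P.γ x) (P.γ D) a b hab
    obtain ⟨a', b', ha', hb', hab', he⟩ := hz'
    have e2 := contact_aff (P.γ s - P.γ y) (P.γ y) (P.γ s) (P.γ y) a' b' hab'
    rw [he, e1, sub_self, cr_zero_right, cr_self] at e2
    by_cases hb0 : b = 0
    · subst hb0
      have ha1 : a = 1 := by linarith
      subst ha1
      apply hxn
      refine ⟨a', b', ha', hb', hab', ?_⟩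
      rw [he]
      simp
    · have hbp : 0 < b := lt_of_le_of_ne hb (Ne.symm hb0)
      nlinarith [mul_nonneg ha hcon, mul_pos hbp hfD]
  rcases P.side_conn hc hsy hyn hv (convex_segment (𝕜 := ℝ) _ _).isPreconnected hsub hdis with h1 | h1
  · exact Set.disjoint_left.1 (P.side_disj hc hsy hyn hv) (h1 (left_mem_segment ℝ _ _)) hsx'
  · exact Set.disjoint_left.1 (P.side_disj hc hsy hyn hv) hD' (h1 (right_mem_segment ℝ _ _))

/-- a contact is strictly inside `L` -/
private lemma contact_open {P : Poly n} (h : P.PreP i j α β D s0) {x : ℝ} (hx : s0 < x) (hx' : x < s0 + n)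
    (hne : x ≠ D) (hL : P.γ x ∈ segment ℝ (P.γ D) (P.γ s0)) :
    P.γ x ∈ openSegment ℝ (P.γ D) (P.γ s0) := by
  obtain ⟨o1, o2, o3, o4⟩ := contact_ord h
  have hjD := h.jD
  have hDj := h.Dj
  refine mem_openSegment_of_ne_left_right ?_ ?_ hL
  · intro he
    exact hne (P.γ_inj' (c := s0) he.symm (by linarith) hx' (by linarith) (by linarith))
  · intro he
    have := P.γ_inj' (c := s0) he.symm (by linarith) hx' le_rfl (by linarith)
    linarith

/-- good approximations, with a bound on positions and on points -/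
private lemma contact_approx {P : Poly n} (h : P.PreP i j α β D s0) {ε δ : ℝ} (hε : 0 < ε) (hδ : 0 < δ) :
    ∃ s y : ℝ, s0 < s ∧ s < s0 + δ ∧ s < β ∧ D < y ∧ y < D + δ ∧ y < j + 1 ∧ P.Vis (P.γ s) (P.γ y) ∧
      ‖P.γ y - P.γ D‖ < ε ∧ ‖P.γ s - P.γ s0‖ < ε := by
  obtain ⟨δ1, hδ1, h1⟩ := Metric.continuousAt_iff.1 (P.γ_cont.continuousAt (x := D)) ε hε
  obtain ⟨δ2, hδ2, h2⟩ := Metric.continuousAt_iff.1 (P.γ_cont.continuousAt (x := s0)) ε hε
  obtain ⟨s, y, a1, a2, a3, a4, a5, a6, a7⟩ := h.approx (min δ (min δ1 δ2)) (by positivity)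
  have m1 : min δ (min δ1 δ2) ≤ δ := min_le_left _ _
  have m2 : min δ (min δ1 δ2) ≤ δ1 := (min_le_right _ _).trans (min_le_left _ _)
  have m3 : min δ (min δ1 δ2) ≤ δ2 := (min_le_right _ _).trans (min_le_right _ _)
  refine ⟨s, y, a1, by linarith, a3, a4, by linarith, a6, a7, ?_, ?_⟩
  · rw [← dist_eq_norm]
    apply h1
    rw [Real.dist_eq, abs_of_pos (by linarith)]
    linarith
  · rw [← dist_eq_norm]
    apply h2
    rw [Real.dist_eq, abs_of_pos (by linarith)]
    linarith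

/-- the boundary near a left contact is weakly left of `L` -/
theorem left_weak (hc : P.CCW) (h : P.PreP i j α β D s0) {x : ℝ} (hx : s0 < x) (hx' : x < D)
    (hL : P.γ x ∈ segment ℝ (P.γ D) (P.γ s0)) :
    ∃ ρ > 0, ∀ τ : ℝ, |τ - x| < ρ → 0 ≤ cr (P.γ s0 - P.γ D) (P.γ τ - P.γ D) := by
  obtain ⟨o1, o2, o3, o4⟩ := contact_ord h
  have hDj := h.Dj
  apply P.squeeze_left (P.γ D) (P.γ s0) h.ne x (contact_open h hx (by linarith) (ne_of_lt hx') hL)
  intro ε hε
  obtain ⟨δ, hδ, hst⟩ := P.left_strict hc h hx hx' hL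
  obtain ⟨s, y, a1, a2, a3, a4, a5, a6, a7, a8, a9⟩ := contact_approx h hε hδ
  exact ⟨P.γ y, P.γ s, a8, a9, a7.symm, hst s y a1 a2 a3 a4 a5 a6 a7⟩

/-- the boundary near a right contact is weakly right of `L` -/
theorem right_weak (hc : P.CCW) (h : P.PreP i j α β D s0) {x : ℝ} (hx : D < x) (hx' : x < s0 + n)
    (hL : P.γ x ∈ segment ℝ (P.γ D) (P.γ s0)) :
    ∃ ρ > 0, ∀ τ : ℝ, |τ - x| < ρ → cr (P.γ s0 - P.γ D) (P.γ τ - P.γ D) ≤ 0 := by
  obtain ⟨o1, o2, o3, o4⟩ := contact_ord h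
  have hjD := h.jD
  apply P.squeeze_right (P.γ D) (P.γ s0) h.ne x (contact_open h (by linarith) hx' (ne_of_gt hx) hL)
  intro ε hε
  obtain ⟨δ, hδ, hst⟩ := P.right_strict hc h hx hx' hL
  obtain ⟨s, y, a1, a2, a3, a4, a5, a6, a7, a8, a9⟩ := contact_approx h hε hδ
  exact ⟨P.γ y, P.γ s, a8, a9, a7.symm, hst s y a1 a2 a3 a4 a5 a6 a7⟩

/-- every left contact is closer to `γ D` than every right contact -/
theorem left_right (hc : P.CCW) (h : P.PreP i j α β D s0) {x x' : ℝ} (hx : s0 < x) (hx' : x < D)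
    (hL : P.γ x ∈ segment ℝ (P.γ D) (P.γ s0)) (hr : D < x') (hr' : x' < s0 + n)
    (hR : P.γ x' ∈ segment ℝ (P.γ D) (P.γ s0)) : P.γ x' ∈ openSegment ℝ (P.γ x) (P.γ s0) := by
  obtain ⟨o1, o2, o3, o4⟩ := contact_ord h
  have hjD := h.jD
  obtain ⟨δ1, hδ1, h1⟩ := P.left_strict hc h hx hx' hL
  obtain ⟨δ2, hδ2, h2⟩ := P.right_strict hc h hr hr' hR
  obtain ⟨s, y, a1, a2, a3, a4, a5, a6, a7, a8, a9⟩ :=
    contact_approx h (ε := 1) one_pos (δ := min δ1 δ2) (by positivity)
  have m1 : min δ1 δ2 ≤ δ1 := min_le_left _ _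
  have m2 : min δ1 δ2 ≤ δ2 := min_le_right _ _
  have f1 := h1 s y a1 (by linarith) a3 a4 (by linarith) a6 a7
  have f2 := h2 s y a1 (by linarith) a3 a4 (by linarith) a6 a7
  have fD := P.contact_D hc h a4 a6 a7
  have fs := P.contact_s hc h a1 a3 a7
  have hRo := contact_open h (by linarith) hr' (ne_of_gt hr) hR
  rw [segment_eq_image'] at hL
  rw [openSegment_eq_image'] at hRo
  obtain ⟨t, ⟨ht0, ht1⟩, ht⟩ := hL
  obtain ⟨t', ⟨ht0', ht1'⟩, ht'⟩ := hRo
  simp only at ht ht'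
  have e : ∀ τ : ℝ, P.γ D + τ • (P.γ s0 - P.γ D) = (1 - τ) • P.γ D + τ • P.γ s0 := by
    intro τ
    rw [smul_sub, sub_smul, one_smul]
    abel
  have g1 := contact_aff (P.γ s - P.γ y) (P.γ y) (P.γ D) (P.γ s0) (1 - t) t (by ring)
  have g2 := contact_aff (P.γ s - P.γ y) (P.γ y) (P.γ D) (P.γ s0) (1 - t') t' (by ring)
  rw [← e, ht] at g1
  rw [← e, ht'] at g2
  rw [g1] at f1
  rw [g2] at f2
  have htt : t < t' := by
    by_contra hcon
    push Not at hcon
    nlinarith [mul_nonneg (sub_nonneg.2 hcon) fD.le, mul_nonneg (sub_nonneg.2 hcon) (neg_nonneg.2 fs.le)]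
  have h1t : 0 < 1 - t := by linarith
  rw [← ht, ← ht', openSegment_eq_image']
  refine ⟨(t' - t) / (1 - t), ⟨div_pos (by linarith) h1t, (div_lt_one h1t).2 (by linarith)⟩, ?_⟩
  simp only
  have e3 : P.γ s0 - (P.γ D + t • (P.γ s0 - P.γ D)) = (1 - t) • (P.γ s0 - P.γ D) := by
    rw [sub_smul, one_smul]
    abel
  rw [e3, smul_smul, div_mul_cancel₀ _ h1t.ne', add_assoc, ← add_smul]
  congr 2
  ring

end Poly

end Pool.Agent.Lib_PL
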