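import Mathlib

/-!
# Definitions for MP_ee0a5d_co (region lit by at most `k` diffuse reflections)

Plane = `ℂ`.  `Poly n` : simple polygon with vertices `V i` (`i : ℤ`, `n`-periodic).  `γ : ℝ → ℂ` runs
once around the polygon while the parameter increases by `n`; `γ i = V i`; `γ` is affine on `[i,i+1]`.
`NI x` : `x` is not an integer (so `γ x` is not a vertex).
-/

open Set Complex

namespace Pool.Agent.Lib_PL

/-- cross product of two plane vectors; `0 < cr u v` iff `v` is to the left of `u` -/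
noncomputable def cr (u v : ℂ) : ℝ := u.re * v.im - u.im * v.re

/-- `d` is strictly inside the counterclockwise sector from direction `u` to direction `v`
(`u`, `v` non-zero and not positive multiples of each other) -/
def InSector (u v d : ℂ) : Prop :=
  (0 < cr u v → 0 < cr u d ∧ 0 < cr d v) ∧ (cr u v < 0 → 0 < cr u d ∨ 0 < cr d v) ∧
    (cr u v = 0 → 0 < cr u d)

/-- `x` is not an integer -/
def NI (x : ℝ) : Prop := ∀ m : ℤ, (m : ℝ) ≠ x

/-- simple polygon with `n` edges, vertices indexed periodically -/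
structure Poly (n : ℕ) where
  V : ℤ → ℂ
  three_le : 3 ≤ n
  per : ∀ i : ℤ, V (i + n) = V i
  inj : ∀ i j : ℤ, V i = V j → (n : ℤ) ∣ i - j
  simple : ∀ i j : ℤ, ¬ (n : ℤ) ∣ i - j → ∀ z, z ∈ segment ℝ (V i) (V (i + 1)) →
    z ∈ segment ℝ (V j) (V (j + 1)) → (z = V i ∨ z = V (i + 1)) ∧ (z = V j ∨ z = V (j + 1))

namespace Poly

variable {n : ℕ} (P : Poly n)

/-- the boundary curve -/
def C : Set ℂ := ⋃ i : ℤ, segment ℝ (P.V i) (P.V (i + 1))

/-- the interior of the polygon: bounded components of the complement of the boundary curve -/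
def I : Set ℂ := {z | z ∉ P.C ∧ Bornology.IsBounded (connectedComponentIn P.Cᶜ z)}

/-- the closed polygonal region -/
def R : Set ℂ := P.C ∪ P.I

/-- parametrisation of the boundary, `γ i = V i`, affine on `[i, i+1]` -/
noncomputable def γ (x : ℝ) : ℂ := P.V ⌊x⌋ + ((Int.fract x : ℝ) : ℂ) * (P.V (⌊x⌋ + 1) - P.V ⌊x⌋)

/-- forward direction of the boundary at position `x` -/
noncomputable def ep (x : ℝ) : ℂ := P.V (⌊x⌋ + 1) - P.γ x

/-- backward direction of the boundary at position `x` -/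
noncomputable def em (x : ℝ) : ℂ := P.V (⌈x⌉ - 1) - P.γ x

/-- direction of the edge containing the (non-integer) position `x` -/
noncomputable def ed (x : ℝ) : ℂ := P.V (⌊x⌋ + 1) - P.V ⌊x⌋

/-- mutual visibility: the open segment lies in the interior -/
def Vis (z w : ℂ) : Prop := openSegment ℝ z w ⊆ P.I

/-- total angle under which the boundary arc from position `a` to position `b` is seen from `z` -/
noncomputable def arcAng (a b : ℝ) (z : ℂ) : ℝ :=
  ∑ i ∈ Finset.Ico ⌊a⌋ ⌈b⌉,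
    Complex.arg ((P.γ (min b ((i : ℝ) + 1)) - z) / (P.γ (max a (i : ℝ)) - z))

/-- winding number of the closed curve: arc from `a` to `b`, then the chord from `γ b` back to `γ a` -/
noncomputable def cw (a b : ℝ) (z : ℂ) : ℝ :=
  (P.arcAng a b z + Complex.arg ((P.γ a - z) / (P.γ b - z))) / (2 * Real.pi)

/-- winding number of the boundary curve -/
noncomputable def wind (z : ℂ) : ℝ :=
  (∑ i ∈ Finset.range n, Complex.arg ((P.V ((i : ℤ) + 1) - z) / (P.V (i : ℤ) - z))) / (2 * Real.pi)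

/-- the polygon is traversed counterclockwise (interior on the left) -/
def CCW : Prop := ∀ z ∈ P.I, P.wind z = 1

/-- The side of the chord `γ a γ b` (`a < b < a + n`) which contains the boundary arc `(a,b)`. -/
def Side (a b : ℝ) : Set ℂ :=
  {z | ∃ x ∈ Ioo a b, z ∈ connectedComponentIn (P.R \ segment ℝ (P.γ a) (P.γ b)) (P.γ x)}

/-- points lit at time `j` -/
def Lt (p : ℂ) : ℕ → Set ℂ
  | 0 => {z | z ∈ P.R ∧ P.Vis p z}
  | j + 1 => {z | z ∈ P.R ∧ ∃ r ∈ Lt p j, (∃ i : ℤ, r ∈ openSegment ℝ (P.V i) (P.V (i + 1))) ∧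
      P.Vis r z}

/-- points lit with at most `k` reflections -/
def VV (p : ℂ) (k : ℕ) : Set ℂ := {z | ∃ j ≤ k, z ∈ P.Lt p j}

/-- positions of the non-vertex boundary points lit with at most `k` reflections -/
def Bp (p : ℂ) (k : ℕ) : Set ℝ := {x | NI x ∧ P.γ x ∈ P.VV p k}

end Poly

/-- an open interval `(a,b)` of positions inside edge `i` (that is inside `[i,i+1]`) -/
structure Arc where
  i : ℤ
  a : ℝ
  b : ℝ

namespace Arc

/-- the positions in the arc -/
def s (A : Arc) : Set ℝ := Ioo A.a A.b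

/-- shift of an arc by `t` -/
def sh (A : Arc) (t : ℤ) : Arc := ⟨A.i + t, A.a + t, A.b + t⟩

/-- mirror image of an arc (positions are negated) -/
def mir (A : Arc) : Arc := ⟨-A.i - 1, -A.b, -A.a⟩

/-- the closure of the arc contains a vertex -/
def Cornered (A : Arc) : Prop := A.a = A.i ∨ A.b = A.i + 1

end Arc

namespace Poly

variable {n : ℕ} (P : Poly n)

/-- `A` is a connected component of the open set `Bp p k` of positions -/
structure IsComp (p : ℂ) (k : ℕ) (A : Arc) : Prop where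
  ia : (A.i : ℝ) ≤ A.a
  ab : A.a < A.b
  bi : A.b ≤ A.i + 1
  sub : A.s ⊆ P.Bp p k
  left : A.a = A.i ∨ A.a ∉ P.Bp p k
  right : A.b = A.i + 1 ∨ A.b ∉ P.Bp p k

/-- component of `Bp p k` all of whose points have level exactly `k` -/
def Exact (p : ℂ) (k : ℕ) (A : Arc) : Prop :=
  P.IsComp p k A ∧ ∀ x ∈ A.s, ∀ j < k, x ∉ P.Bp p j

/-- some point of `A` sees some point of `B` -/
def Sees (A B : Arc) : Prop := ∃ x ∈ A.s, ∃ y ∈ B.s, P.Vis (P.γ x) (P.γ y)

/-- The position `ω` represents the viewer `M` for all chords which start in the arc `S`. -/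
structure Rep (M : Set ℂ) (S : Arc) (ω : ℝ) : Prop where
  notin : ∀ m : ℤ, ω + m * n ∉ S.s
  rep : ∀ s g : ℝ, s ∈ S.s → NI g → s < g → g < s + n → P.Vis (P.γ s) (P.γ g) →
    (M ⊆ P.Side s g ∧ ∃ m : ℤ, s < ω + m * n ∧ ω + m * n ≤ g) ∨
    (M ⊆ P.Side g (s + n) ∧ ∃ m : ℤ, g ≤ ω + m * n ∧ ω + m * n < s + n)

/-- No chord which starts in the arc `S` and does not end on edge `j` separates `M` from edge `j`. -/
def Good (M : Set ℂ) (S : Arc) (j : ℤ) : Prop :=
  ∀ s g : ℝ, s ∈ S.s → NI g → s < g → g < s + n → P.Vis (P.γ s) (P.γ g) → ∀ m : ℤ,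
    (s ≤ j + m * n → (j : ℝ) + m * n + 1 ≤ g → M ⊆ P.Side s g) ∧
    (g ≤ j + m * n → (j : ℝ) + m * n + 1 ≤ s + n → M ⊆ P.Side g (s + n))

/-- First part of the pivot data: `D` and `s0`. -/
structure PreP (i j : ℤ) (α β D s0 : ℝ) : Prop where
  ij : i < j
  ji : j < i + n
  iα : (i : ℝ) ≤ α
  βi : β ≤ i + 1
  jD : (j : ℝ) < D
  Dj : D < j + 1
  αs : α ≤ s0
  sβ : s0 < β
  Dinf : ∀ s ∈ Ioo α β, ∀ y : ℝ, (j : ℝ) < y → y ≤ D → ¬ P.Vis (P.γ s) (P.γ y)
  sinf : ∀ s : ℝ, α < s → s ≤ s0 → ∀ y ∈ Ioo (j : ℝ) (j + 1), ¬ P.Vis (P.γ s) (P.γ y)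
  approx : ∀ ε > 0, ∃ s y : ℝ, s0 < s ∧ s < s0 + ε ∧ s < β ∧ D < y ∧ y < D + ε ∧ y < j + 1 ∧
    P.Vis (P.γ s) (P.γ y)

/-- Second part of the pivot data: transversality and the vertex `q`, the contact of the left side
which is closest to `γ s0`. -/
structure PreQ (i j : ℤ) (α β D s0 : ℝ) (q : ℤ) : Prop where
  pre : P.PreP i j α β D s0
  tE : 0 < cr (P.V (j + 1) - P.V j) (P.γ s0 - P.γ D)
  tF : 0 < cr (P.V (i + 1) - P.V i) (P.γ D - P.γ s0)
  iq : i + 1 ≤ q
  qj : q ≤ j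
  onL : P.V q ∈ openSegment ℝ (P.γ D) (P.γ s0)
  epl : 0 ≤ cr (P.γ s0 - P.γ D) (P.V (q + 1) - P.V q)
  eml : 0 < cr (P.γ s0 - P.γ D) (P.V (q - 1) - P.V q)
  /-- `ep` does not point towards `s0` -/
  epn : ∀ t : ℝ, 0 < t → P.V (q + 1) - P.V q ≠ (t : ℂ) * (P.γ s0 - P.γ D)
  /-- all left contacts lie between `D` and `q` -/
  leftc : ∀ x : ℝ, s0 < x → x < D → P.γ x ∈ segment ℝ (P.γ D) (P.γ s0) →
    P.γ x ∈ segment ℝ (P.γ D) (P.V q)
  /-- all right contacts lie strictly between `q` and `s0` -/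
  rightc : ∀ x : ℝ, D < x → x < s0 + n → P.γ x ∈ segment ℝ (P.γ D) (P.γ s0) →
    P.γ x ∈ openSegment ℝ (P.V q) (P.γ s0)

/-- The conclusions of the pivot lemma.  `S = (α,β)` is an interval in edge `i`, `D` is the first
point (position) on edge `j` such that the points of edge `j` just after `D` see `S`, `s0` is the infimum
of the points of `S` which see edge `j`; `q` is the pivot vertex. -/
structure Pivot (i j : ℤ) (α β D s0 : ℝ) (q : ℤ) : Prop where
  ij : i < j
  ji : j < i + n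
  iα : (i : ℝ) ≤ α
  βi : β ≤ i + 1
  jD : (j : ℝ) < D
  Dj : D < j + 1
  αs : α ≤ s0
  sβ : s0 < β
  iq : i + 1 ≤ q
  qj : q ≤ j
  /-- no point of edge `j` up to `D` sees `S` -/
  Dinf : ∀ s ∈ Ioo α β, ∀ y : ℝ, (j : ℝ) < y → y ≤ D → ¬ P.Vis (P.γ s) (P.γ y)
  /-- no point of `S` up to `s0` sees edge `j` -/
  sinf : ∀ s : ℝ, α < s → s ≤ s0 → ∀ y ∈ Ioo (j : ℝ) (j + 1), ¬ P.Vis (P.γ s) (P.γ y)
  /-- chords converging to `[γ D, γ s0]` -/
  approx : ∀ ε > 0, ∃ s y : ℝ, s0 < s ∧ s < s0 + ε ∧ s < β ∧ D < y ∧ y < D + ε ∧ y < j + 1 ∧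
    P.Vis (P.γ s) (P.γ y)
  LR : segment ℝ (P.γ D) (P.γ s0) ⊆ P.R
  /-- `s0` is strictly left of edge `j` -/
  tE : 0 < cr (P.V (j + 1) - P.V j) (P.γ s0 - P.γ D)
  /-- `D` is strictly left of edge `i` -/
  tF : 0 < cr (P.V (i + 1) - P.V i) (P.γ D - P.γ s0)
  onL : P.V q ∈ openSegment ℝ (P.γ D) (P.γ s0)
  epl : 0 ≤ cr (P.γ s0 - P.γ D) (P.V (q + 1) - P.V q)
  eml : 0 < cr (P.γ s0 - P.γ D) (P.V (q - 1) - P.V q)
  /-- (p1) the pocket `(q,D]` does not see `S` -/
  p1 : ∀ s ∈ Ioo α β, ∀ x : ℝ, (q : ℝ) < x → x ≤ D → ¬ P.Vis (P.γ s) (P.γ x)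
  /-- (p2) pinch -/
  p2 : ∀ a b : ℝ, s0 ≤ a → a < q → (q : ℝ) < b → b ≤ D → ¬ P.Vis (P.γ a) (P.γ b)
  /-- (p3) there are points `y` of edge `j` which see `S` and see all points just after `q` -/
  p3 : ∀ δ > 0, ∃ y : ℝ, D < y ∧ y < D + δ ∧ y < j + 1 ∧ (∃ s ∈ Ioo α β, P.Vis (P.γ s) (P.γ y)) ∧
    ∃ ε > 0, ∀ x : ℝ, (q : ℝ) < x → x < q + ε → P.Vis (P.γ x) (P.γ y)
  /-- (p4) some point of `S` sees all points just before `q` -/
  p4 : ∃ s ∈ Ioo α β, ∃ ε > 0, ∀ x : ℝ, (q : ℝ) - ε < x → x < q → P.Vis (P.γ x) (P.γ s)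

/-- `R` is bounded closed etc. are theorems; the reversed polygon -/
def rev : Poly n where
  V := fun i => P.V (-i)
  three_le := P.three_le
  per := by
    intro i
    have := P.per (-(i + n))
    have h2 : -(i + (n : ℤ)) + n = -i := by ring
    rw [h2] at this
    exact this.symm
  inj := by
    intro i j h
    have := P.inj _ _ h
    have h2 : (-i - -j : ℤ) = -(i - j) := by ring
    rw [h2, Int.dvd_neg] at this
    exact this
  simple := by
    intro i j hij z hz hz'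
    have h1 : ¬ (n : ℤ) ∣ (-(i + 1)) - (-(j + 1)) := by
      have h2 : ((-(i + 1)) - (-(j + 1)) : ℤ) = -(i - j) := by ring
      rw [h2, Int.dvd_neg]
      exact hij
    have e : ∀ k : ℤ, -(k + 1) + 1 = -k := fun k => by ring
    have := P.simple _ _ h1 z (by rw [e, segment_symm]; exact hz) (by rw [e, segment_symm]; exact hz')
    rw [e, e] at this
    exact ⟨this.1.symm, this.2.symm⟩

/-- the mirror image (complex conjugation), with the orientation reversed so that a counterclockwise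
polygon stays counterclockwise: `V' i = conj (V (-i))` -/
noncomputable def mir : Poly n where
  V := fun i => (starRingEnd ℂ) (P.V (-i))
  three_le := P.three_le
  per := by
    intro i
    exact congrArg _ (P.rev.per i)
  inj := by
    intro i j h
    exact P.rev.inj i j ((starRingEnd ℂ).injective h)
  simple := by
    intro i j hij z hz hz'
    have key : ∀ a b z : ℂ, z ∈ segment ℝ ((starRingEnd ℂ) a) ((starRingEnd ℂ) b) →
        (starRingEnd ℂ) z ∈ segment ℝ a b := by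
      intro a b z hz
      obtain ⟨s, t, hs, ht, hst, h⟩ := hz
      refine ⟨s, t, hs, ht, hst, ?_⟩
      rw [← h]
      simp
    have := P.rev.simple i j hij ((starRingEnd ℂ) z) (key _ _ _ hz) (key _ _ _ hz')
    have e : ∀ a : ℂ, (starRingEnd ℂ) z = a → z = (starRingEnd ℂ) a := by
      intro a ha
      rw [← ha]
      simp
    exact ⟨this.1.imp (e _) (e _), this.2.imp (e _) (e _)⟩

end Poly

end Pool.Agent.Lib_PL
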