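import Pool.Agent.Lib_PL.Alg
import Pool.Agent.Lib_PL.Stmt

/-!
Definitions for the recursion and for the subdivision.
-/

open Set Complex
open scoped Topology

namespace Pool.Agent.Lib_PL

/-- near `z` the set `A` is a straight line through `z` -/
def Reg (A : Set ℂ) (z : ℂ) : Prop :=
  ∃ d : ℂ, d ≠ 0 ∧ ∃ ρ > 0, ∀ z' : ℂ, ‖z' - z‖ < ρ → (z' ∈ A ↔ ∃ t : ℝ, z' = z + (t : ℂ) * d)

namespace Poly

variable {n : ℕ} (P : Poly n)

/-- common part of the data of an item: `X` is (an interval containing) the item, `S` its parent,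
normalised so that `S.i < X.i < S.i + n`; `M` is the viewer, represented by positions in `Ω` -/
structure HBase (Ω : Finset ℝ) (S X : Arc) (M : Set ℂ) : Prop where
  ij : S.i < X.i
  ji : X.i < S.i + n
  Sia : (S.i : ℝ) ≤ S.a
  Sab : S.a < S.b
  Sbi : S.b ≤ S.i + 1
  Xia : (X.i : ℝ) < X.a
  Xab : X.a < X.b
  Xbi : X.b < X.i + 1
  SX : ∃ s ∈ S.s, ∃ x ∈ X.s, P.Vis (P.γ s) (P.γ x)
  Z : ∀ x : ℝ, (X.i : ℝ) < x → x < X.i + 1 → (∃ s ∈ S.s, P.Vis (P.γ s) (P.γ x)) → x ∈ X.s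
  repS : ∃ ω ∈ Ω, P.Rep M S ω
  Mne : M.Nonempty

/-- hooked to the left -/
def HookL (S X : Arc) (M : Set ℂ) : Prop :=
  ∃ σ ∈ S.s, ∃ g : ℝ, (S.i : ℝ) + 1 < g ∧ g < X.i ∧ NI g ∧ P.Vis (P.γ σ) (P.γ g) ∧ M ⊆ P.Side σ g

/-- hooked to the right -/
def HookR (S X : Arc) (M : Set ℂ) : Prop :=
  ∃ σ ∈ S.s, ∃ g : ℝ, (X.i : ℝ) + 1 < g ∧ g < S.i + n ∧ NI g ∧ P.Vis (P.γ σ) (P.γ g) ∧
    M ⊆ P.Side g (σ + n)

/-- additional data of items of depth at least two: `Ym` is the predecessor, `X` its parent -/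
structure T2 (p : ℂ) (Ω : Finset ℝ) (L : ℕ) (S X Ym : Arc) (M : Set ℂ) : Prop where
  SB : S.s ⊆ P.Bp p L
  Xc : P.IsComp p (L + 1) X
  Yc : P.IsComp p (L + 2) Ym
  Ync : ¬ Ym.Cornered
  sees : P.Sees Ym X
  nocorner : ∀ T : Arc, P.IsComp p (L + 1) T → T.Cornered → ¬ P.Sees Ym T
  ki : ∀ m : ℤ, Ym.i ≠ S.i + m * n
  good : P.Good M X Ym.i
  repX : ∃ ω ∈ Ω, P.Rep M X ω

/-- additional data of items of depth one, viewer a vertex -/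
structure T1A (p : ℂ) (ν : ℤ) (K : ℕ) (S X : Arc) (M : Set ℂ) : Prop where
  Xc : P.IsComp p K X
  M_eq : M = {P.V ν}
  sees : ∃ x ∈ X.s, P.Vis (P.V ν) (P.γ x)

/-- additional data of items of depth one, viewer a component of level exactly `L + 2` of the lit part
of the free segment with ends `γ ω1`, `γ ω2` -/
structure T1B (p : ℂ) (ω1 ω2 : ℝ) (L : ℕ) (S X : Arc) (M : Set ℂ) : Prop where
  w : P.Vis (P.γ ω1) (P.γ ω2)
  SB : S.s ⊆ P.Bp p L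
  Xc : P.IsComp p (L + 1) X
  Mw : M ⊆ openSegment ℝ (P.γ ω1) (P.γ ω2)
  Mc : IsPreconnected M
  MN : ∀ z ∈ M, z ∉ P.VV p (L + 1)
  sees : ∃ z ∈ M, ∃ x ∈ X.s, P.Vis (P.γ x) z
  all : ∀ z ∈ openSegment ℝ (P.γ ω1) (P.γ ω2), (∃ x ∈ X.s, P.Vis (P.γ x) z) → z ∈ M

/-- a parent function -/
structure PRule (p : ℂ) (par : ℕ → Arc → Arc) : Prop where
  comp : ∀ l Y, P.Exact p (l + 1) Y → P.IsComp p l (par l Y)
  can : ∀ l Y, P.Exact p (l + 1) Y → 0 ≤ (par l Y).i ∧ (par l Y).i < n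
  sees : ∀ l Y, P.Exact p (l + 1) Y → P.Sees Y (par l Y)
  corner : ∀ l Y, P.Exact p (l + 1) Y →
    (∃ T, P.IsComp p l T ∧ T.Cornered ∧ P.Sees Y T) → (par l Y).Cornered

/-- a core function: `core k X` is a component of minimal level `lev k X` inside `X` -/
structure CRule (p : ℂ) (core : ℕ → Arc → Arc) (lev : ℕ → Arc → ℕ) : Prop where
  ex : ∀ k X, P.IsComp p k X → lev k X ≤ k ∧ P.Exact p (lev k X) (core k X) ∧
    (core k X).s ⊆ X.s ∧ (core k X).i = X.i ∧ (¬ X.Cornered → ¬ (core k X).Cornered)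

/-- items of depth at least two, of level at most `L` -/
def Item2 (p : ℂ) (par core : ℕ → Arc → Arc) (lev : ℕ → Arc → ℕ) (MM : Set (Set ℂ)) (K' L : ℕ)
    (Y : Arc) : Prop :=
  ∃ (lm : ℕ) (Ym : Arc) (M : Set ℂ), M ∈ MM ∧ lm + 1 ≤ K' ∧ P.Exact p (lm + 1) Ym ∧ 0 ≤ Ym.i ∧
    Ym.i < n ∧ ¬ Ym.Cornered ∧ ¬ (par lm Ym).Cornered ∧ Y = core lm (par lm Ym) ∧
    lev lm (par lm Ym) ≤ L ∧ P.Good M (par lm Ym) Ym.i

/-- the part of `Bp p k` seen from vertex `ν` -/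
def SeeSet (p : ℂ) (k : ℕ) (ν : ℤ) : Set ℝ := {x | x ∈ P.Bp p k ∧ P.Vis (P.V ν) (P.γ x)}

end Poly

/-- constants of the recursion (`w` = number of representatives) -/
def c2 (K w : ℕ) : ℕ → ℕ
  | 0 => 1
  | L + 1 => 1 + 2 * (K * (w + 1)) + (L + 1) * (2 * w) * (2 + c2 K w L)

end Pool.Agent.Lib_PL
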