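import Pool.Agent.Lib_PL.Jordan2

/-!
A bounded open set whose frontier lies in the polygon lies in the interior; triangles and convex
quadrilaterals.

`F0`: if `z ∈ Q`, `z ∉ I`, then `Q` contains an exterior point (`ext_near`); its component in the complement
of `C` is unbounded (`ext_unbounded`) and connected, so it meets the frontier of `Q`, which lies in `R`;
contradiction.
-/

open Set Complex
open scoped Topology

namespace Pool.Agent.Lib_PL

namespace Poly

variable {n : ℕ} (P : Poly n)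

theorem F0 (Q : Set ℂ) (ho : IsOpen Q) (hb : Bornology.IsBounded Q) (hf : frontier Q ⊆ P.R) :
    Q ⊆ P.I := by
  have key : ∀ z ∈ Q, z ∈ P.R := by
    intro z hz
    by_contra hzR
    have hsub : P.Rᶜ ⊆ Q := by
      have h1 : P.Rᶜ ⊆ Q ∪ (closure Q)ᶜ := by
        intro w hw
        by_cases hwQ : w ∈ Q
        · exact Or.inl hwQ
        · right
          intro hwc
          apply hw
          apply hf
          rw [frontier, ho.interior_eq]
          exact ⟨hwc, hwQ⟩
      refine IsPreconnected.subset_left_of_subset_union ho isClosed_closure.isOpen_compl ?_ h1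
        ⟨z, hzR, hz⟩ P.ext_connected
      rw [Set.disjoint_left]
      intro w hw hw'
      exact hw' (subset_closure hw)
    have h2 : Bornology.IsBounded (Set.univ : Set ℂ) := by
      have h3 : (Set.univ : Set ℂ) ⊆ P.R ∪ Q := by
        intro w _
        by_cases hw : w ∈ P.R
        · exact Or.inl hw
        · exact Or.inr (hsub hw)
      exact (P.R_bounded.union hb).subset h3
    exact NormedSpace.unbounded_univ ℝ ℂ h2
  intro z hz
  rcases key z hz with h | h
  · exfalso
    obtain ⟨x, hx⟩ := (P.mem_C_iff z).1 h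
    obtain ⟨ε, hε, hball⟩ := Metric.isOpen_iff.1 ho z hz
    obtain ⟨w, hw, hwn⟩ := P.ext_near x hε
    apply hw
    apply key
    apply hball
    rw [Metric.mem_ball, dist_eq_norm, ← hx]
    exact hwn
  · exact h

private theorem filling_bary (A B D : ℂ) (hn : cr (B - A) (D - A) ≠ 0) (z : ℂ) :
    z = ((cr (D - B) (z - B) / cr (B - A) (D - A) : ℝ) : ℂ) * A +
      ((cr (A - D) (z - D) / cr (B - A) (D - A) : ℝ) : ℂ) * B +
      ((cr (B - A) (z - A) / cr (B - A) (D - A) : ℝ) : ℂ) * D ∧
    cr (D - B) (z - B) / cr (B - A) (D - A) + cr (A - D) (z - D) / cr (B - A) (D - A) +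
      cr (B - A) (z - A) / cr (B - A) (D - A) = 1 := by
  have hs : cr (D - B) (z - B) + cr (A - D) (z - D) + cr (B - A) (z - A) =
      cr (B - A) (D - A) := by
    simp [cr]; ring
  have hz : (cr (B - A) (D - A) : ℂ) * z = (cr (D - B) (z - B) : ℂ) * A +
      (cr (A - D) (z - D) : ℂ) * B + (cr (B - A) (z - A) : ℂ) * D := by
    apply Complex.ext <;> simp [cr] <;> ring
  have hn' : (cr (B - A) (D - A) : ℂ) ≠ 0 := by exact_mod_cast hn
  constructor
  · push_cast
    field_simp
    linear_combination hz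
  · field_simp
    exact hs

private theorem filling_cont (u w : ℂ) (c : ℝ) :
    Continuous fun z : ℂ => cr u (z - w) / c := by
  unfold cr
  fun_prop

private theorem filling_real (A B D : ℂ) (hn : cr (B - A) (D - A) ≠ 0) (α β δ : ℝ)
    (hs : α + β + δ = 1) :
    cr (D - B) ((α : ℂ) * A + (β : ℂ) * B + (δ : ℂ) * D - B) / cr (B - A) (D - A) = α ∧
    cr (A - D) ((α : ℂ) * A + (β : ℂ) * B + (δ : ℂ) * D - D) / cr (B - A) (D - A) = β ∧
    cr (B - A) ((α : ℂ) * A + (β : ℂ) * B + (δ : ℂ) * D - A) / cr (B - A) (D - A) = δ := by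
  refine ⟨?_, ?_, ?_⟩
  · rw [div_eq_iff hn]
    have h : β = 1 - α - δ := by linarith
    subst h
    simp [cr]; ring
  · rw [div_eq_iff hn]
    have h : δ = 1 - α - β := by linarith
    subst h
    simp [cr]; ring
  · rw [div_eq_iff hn]
    have h : α = 1 - β - δ := by linarith
    subst h
    simp [cr]; ring

/-- interior of a triangle with sides in `R` -/
theorem tri (A B D : ℂ) (hn : cr (B - A) (D - A) ≠ 0) (h1 : segment ℝ A B ⊆ P.R)
    (h2 : segment ℝ B D ⊆ P.R) (h3 : segment ℝ D A ⊆ P.R) (α β δ : ℝ) (hα : 0 < α) (hβ : 0 < β)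
    (hδ : 0 < δ) (hs : α + β + δ = 1) : (α : ℂ) * A + (β : ℂ) * B + (δ : ℂ) * D ∈ P.I := by
  set c := cr (B - A) (D - A) with hc
  have cA := filling_cont (D - B) B c
  have cB := filling_cont (A - D) D c
  have cD := filling_cont (B - A) A c
  set Q : Set ℂ := {z | 0 < cr (D - B) (z - B) / c ∧ 0 < cr (A - D) (z - D) / c ∧
    0 < cr (B - A) (z - A) / c} with hQ
  have ho : IsOpen Q := by
    have e : Q = {z | 0 < cr (D - B) (z - B) / c} ∩ ({z | 0 < cr (A - D) (z - D) / c} ∩
        {z | 0 < cr (B - A) (z - A) / c}) := by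
      ext z; simp [hQ]
    rw [e]
    exact (isOpen_lt continuous_const cA).inter
      ((isOpen_lt continuous_const cB).inter (isOpen_lt continuous_const cD))
  have hb : Bornology.IsBounded Q := by
    rw [isBounded_iff_forall_norm_le]
    refine ⟨‖A‖ + ‖B‖ + ‖D‖, ?_⟩
    rintro z ⟨h1, h2, h3⟩
    obtain ⟨e1, e2⟩ := filling_bary A B D hn z
    rw [← hc] at e1 e2
    have a1 : ∀ (t : ℝ) (w : ℂ), 0 < t → t ≤ 1 → ‖(t : ℂ) * w‖ ≤ ‖w‖ := by
      intro t w ht ht'
      rw [norm_mul, Complex.norm_real, Real.norm_of_nonneg ht.le]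
      nlinarith [norm_nonneg w]
    rw [e1]
    refine (norm_add₃_le).trans ?_
    have b1 := a1 _ A h1 (by linarith)
    have b2 := a1 _ B h2 (by linarith)
    have b3 := a1 _ D h3 (by linarith)
    linarith
  have hf : frontier Q ⊆ P.R := by
    intro z hz
    rw [frontier, ho.interior_eq] at hz
    obtain ⟨hz1, hz2⟩ := hz
    have hcl : IsClosed {z | 0 ≤ cr (D - B) (z - B) / c ∧ 0 ≤ cr (A - D) (z - D) / c ∧
        0 ≤ cr (B - A) (z - A) / c} := by
      have e : {z | 0 ≤ cr (D - B) (z - B) / c ∧ 0 ≤ cr (A - D) (z - D) / c ∧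
          0 ≤ cr (B - A) (z - A) / c} = {z | 0 ≤ cr (D - B) (z - B) / c} ∩
          ({z | 0 ≤ cr (A - D) (z - D) / c} ∩ {z | 0 ≤ cr (B - A) (z - A) / c}) := by
        ext z; simp
      rw [e]
      exact (isClosed_le continuous_const cA).inter
        ((isClosed_le continuous_const cB).inter (isClosed_le continuous_const cD))
    have hz3 : 0 ≤ cr (D - B) (z - B) / c ∧ 0 ≤ cr (A - D) (z - D) / c ∧
        0 ≤ cr (B - A) (z - A) / c := by
      refine closure_minimal ?_ hcl hz1
      rintro w ⟨w1, w2, w3⟩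
      exact ⟨w1.le, w2.le, w3.le⟩
    obtain ⟨g1, g2, g3⟩ := hz3
    obtain ⟨e1, e2⟩ := filling_bary A B D hn z
    rw [← hc] at e1 e2
    rcases g1.lt_or_eq with k1 | k1
    · rcases g2.lt_or_eq with k2 | k2
      · rcases g3.lt_or_eq with k3 | k3
        · exact absurd ⟨k1, k2, k3⟩ hz2
        · apply h1
          rw [← k3] at e1 e2
          refine ⟨_, _, g1, g2, by linarith, ?_⟩
          rw [Complex.real_smul, Complex.real_smul]
          conv_rhs => rw [e1]
          push_cast
          ring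
      · apply h3
        rw [← k2] at e1 e2
        refine ⟨_, _, g3, g1, by linarith, ?_⟩
        rw [Complex.real_smul, Complex.real_smul]
        conv_rhs => rw [e1]
        push_cast
        ring
    · apply h2
      rw [← k1] at e1 e2
      refine ⟨_, _, g2, g3, by linarith, ?_⟩
      rw [Complex.real_smul, Complex.real_smul]
      conv_rhs => rw [e1]
      push_cast
      ring
  apply P.F0 Q ho hb hf
  obtain ⟨r1, r2, r3⟩ := filling_real A B D hn α β δ hs
  rw [← hc] at r1 r2 r3
  refine ⟨?_, ?_, ?_⟩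
  · rw [r1]; exact hα
  · rw [r2]; exact hβ
  · rw [r3]; exact hδ

/-- a point of a side sees the opposite vertex -/
theorem tri_vis (A B D : ℂ) (hn : cr (B - A) (D - A) ≠ 0) (h1 : segment ℝ A B ⊆ P.R)
    (h2 : segment ℝ B D ⊆ P.R) (h3 : segment ℝ D A ⊆ P.R) (X : ℂ) (hX : X ∈ openSegment ℝ A B) :
    P.Vis X D := by
  rintro z ⟨t, r, ht, hr, htr, rfl⟩
  obtain ⟨a, b, ha, hb, hab, rfl⟩ := hX
  have := P.tri A B D hn h1 h2 h3 (t * a) (t * b) r (mul_pos ht ha) (mul_pos ht hb) hr
    (by rw [← mul_add, hab, mul_one]; exact htr)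
  convert this using 1
  simp only [Complex.real_smul]
  push_cast
  ring

/-- points of two different sides see each other -/
theorem tri_vis' (A B D : ℂ) (hn : cr (B - A) (D - A) ≠ 0) (h1 : segment ℝ A B ⊆ P.R)
    (h2 : segment ℝ B D ⊆ P.R) (h3 : segment ℝ D A ⊆ P.R) (X Y : ℂ) (hX : X ∈ openSegment ℝ A B)
    (hY : Y ∈ openSegment ℝ A D) : P.Vis X Y := by
  rintro z ⟨t, r, ht, hr, htr, rfl⟩
  obtain ⟨a, b, ha, hb, hab, rfl⟩ := hX
  obtain ⟨a', d, ha', hd, had, rfl⟩ := hY
  have := P.tri A B D hn h1 h2 h3 (t * a + r * a') (t * b) (r * d)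
    (add_pos (mul_pos ht ha) (mul_pos hr ha')) (mul_pos ht hb) (mul_pos hr hd)
    (by
      have e1 : t * a + t * b = t := by rw [← mul_add, hab, mul_one]
      have e2 : r * a' + r * d = r := by rw [← mul_add, had, mul_one]
      linarith)
  convert this using 1
  simp only [Complex.real_smul]
  push_cast
  ring

end Poly

end Pool.Agent.Lib_PL
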