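import Pool.Agent.Lib_PL.RepLemma

/-!
Good items with the same parent; items which are not good are hooked.

`fork_count`: different items are on different edges (`see_absorb`).  If there are more than `2 * Ω.card`, three of them, on
edges `a < b < c` (lifts in `(S.i, S.i + n)`), have the same representative `ω`.  Choose a chord from `s ∈ S` to `y` in the
second item, `y` not a lift of `ω` (`vis_open`).  The side of the chord on which the viewers lie is determined by `ω`, so the viewers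
of the first and the third item are on the same side; this contradicts `Good` of the first or of the third.
-/

open Set Complex
open scoped Topology

namespace Pool.Agent.Lib_PL

namespace Poly

variable {n : ℕ} (P : Poly n)

include P in
private theorem Fork_npos : (0 : ℝ) < n := by
  have := P.three_le
  have h : 0 < n := by omega
  exact_mod_cast h

include P in
/-- a lift in `(k, k + n)` -/
private theorem Fork_lift (k j : ℤ) (h : ∀ m : ℤ, j ≠ k + m * n) :
    ∃ m : ℤ, k < j + m * n ∧ j + m * n < k + n := by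
  have h3 := P.three_le
  have hn : (0 : ℤ) < n := by
    have : 0 < n := by omega
    exact_mod_cast this
  refine ⟨-((j - k) / n), ?_, ?_⟩
  · have h1 := Int.emod_nonneg (j - k) hn.ne'
    have h2 := Int.mul_ediv_add_emod (j - k) n
    have h4 : (j - k) % n ≠ 0 := by
      intro h0
      apply h ((j - k) / n)
      rw [h0] at h2
      linarith
    have h5 : 0 < (j - k) % n := lt_of_le_of_ne h1 (Ne.symm h4)
    nlinarith
  · have h1 := Int.emod_lt_of_pos (j - k) hn
    have h2 := Int.mul_ediv_add_emod (j - k) n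
    nlinarith

/-- two lifts of `ω` in an interval of length `n` coincide -/
private theorem Fork_uniq {ω s y : ℝ} {m m' : ℤ} (hn : (0 : ℝ) < n) (h1 : s < ω + m * n)
    (h2 : ω + m * n < y) (h3 : y ≤ ω + m' * n) (h4 : ω + m' * n < s + n) : False := by
  have h5 : (m : ℝ) * n < m' * n := by linarith
  have h6 : (m' : ℝ) * n < (m + 1) * n := by linarith
  have h7 : (m : ℝ) < m' := lt_of_mul_lt_mul_right h5 hn.le
  have h8 : (m' : ℝ) < m + 1 := lt_of_mul_lt_mul_right h6 hn.le
  have h9 : m < m' := by exact_mod_cast h7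
  have h10 : m' < m + 1 := by exact_mod_cast h8
  omega

/-- three items on edges `a < b < c` with the same representative -/
private theorem Fork_three (hc : P.CCW) {S : Arc} (hS : (S.i : ℝ) ≤ S.a)
    (hS' : S.b ≤ S.i + 1) {ω : ℝ} {Ma Mc : Set ℂ} (hMa : Ma.Nonempty) (hMc : Mc.Nonempty)
    (ra : P.Rep Ma S ω) (rc : P.Rep Mc S ω) {ia ib ic ma mb mc : ℤ}
    (ga : P.Good Ma S ia) (gc : P.Good Mc S ic) (h1 : S.i < ia + ma * n)
    (h2 : ia + ma * n < ib + mb * n) (h3 : ib + mb * n < ic + mc * n) (h4 : ic + mc * n < S.i + n)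
    {s y : ℝ} (hs : s ∈ S.s) (hy : (ib : ℝ) < y) (hy' : y < ib + 1)
    (hv : P.Vis (P.γ y) (P.γ s)) : False := by
  have hn := P.Fork_npos
  obtain ⟨hs1, hs2⟩ := hs
  have r1 : (S.i : ℝ) + 1 ≤ ia + ma * n := by exact_mod_cast h1
  have r2 : (ia : ℝ) + ma * n + 1 ≤ ib + mb * n := by exact_mod_cast h2
  have r3 : (ib : ℝ) + mb * n + 1 ≤ ic + mc * n := by exact_mod_cast h3
  have r4 : (ic : ℝ) + mc * n + 1 ≤ S.i + n := by exact_mod_cast h4
  -- the chord
  have ns : NI s := (NI_of_Ioo (x := s) (i := S.i) (by linarith) (by linarith)).1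
  have hv1 : P.Vis (P.γ s) (P.γ (y + mb * n)) := by
    rw [P.γ_add_mul]
    exact hv.symm
  have cast1 : (((ib + mb * n : ℤ)) : ℝ) = ib + mb * n := by push_cast; ring
  have ny : NI (y + mb * n) :=
    (NI_of_Ioo (x := y + mb * n) (i := ib + mb * n) (by rw [cast1]; linarith)
      (by rw [cast1]; linarith)).1
  obtain ⟨ε, hε, hopen⟩ := P.vis_open hc ns ny hv1
  obtain ⟨g, hg1, hg2, hg3, hg4⟩ : ∃ g : ℝ, (ib : ℝ) + mb * n < g ∧ g < ib + mb * n + 1 ∧
      |g - (y + mb * n)| < ε ∧ ∀ m : ℤ, ω + m * n ≠ g := by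
    by_cases h : ∃ m : ℤ, ω + m * n = y + mb * n
    · obtain ⟨m, hm⟩ := h
      set δ := min (ε / 2) ((ib + 1 - y) / 2) with hδ
      have hδ0 : 0 < δ := lt_min (by linarith) (by linarith)
      have hδ1 : δ ≤ ε / 2 := min_le_left _ _
      have hδ2 : δ ≤ (ib + 1 - y) / 2 := min_le_right _ _
      refine ⟨y + mb * n + δ, by linarith, by linarith, ?_, ?_⟩
      · rw [add_sub_cancel_left, abs_of_pos hδ0]
        linarith
      · intro m' hm'
        have e1 : ((m' - m : ℤ) : ℝ) * n = δ := by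
          push_cast
          linarith
        have hδn : δ < n := by
          have h3 : (3 : ℝ) ≤ n := by exact_mod_cast P.three_le
          linarith
        have e2 : (0 : ℝ) < ((m' - m : ℤ) : ℝ) := by
          by_contra hcon
          rw [not_lt] at hcon
          have := mul_nonpos_of_nonpos_of_nonneg hcon hn.le
          linarith
        have e3 : (1 : ℝ) ≤ ((m' - m : ℤ) : ℝ) := by
          have : (0 : ℤ) < m' - m := by exact_mod_cast e2
          exact_mod_cast this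
        have := mul_le_mul_of_nonneg_right e3 hn.le
        linarith
    · push Not at h
      refine ⟨y + mb * n, by linarith, by linarith, ?_, h⟩
      rw [sub_self, abs_zero]
      exact hε
  have ng : NI g := (NI_of_Ioo (x := g) (i := ib + mb * n) (by rw [cast1]; linarith)
      (by rw [cast1]; linarith)).1
  have hvg : P.Vis (P.γ s) (P.γ g) := hopen s g (by rw [sub_self, abs_zero]; exact hε) hg3
  have hsg : s < g := by linarith
  have hgs : g < s + n := by linarith
  have hdisj := P.side_disj hc hsg hgs hvg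
  have a1 : Ma ⊆ P.Side s g :=
    (ga s g ⟨hs1, hs2⟩ ng hsg hgs hvg ma).1 (by linarith) (by linarith)
  have c1 : Mc ⊆ P.Side g (s + n) :=
    (gc s g ⟨hs1, hs2⟩ ng hsg hgs hvg mc).2 (by linarith) (by linarith)
  have no : ∀ M : Set ℂ, M.Nonempty → M ⊆ P.Side s g → M ⊆ P.Side g (s + n) → False := by
    rintro M ⟨z, hz⟩ h1 h2
    exact (Set.disjoint_left.1 hdisj) (h1 hz) (h2 hz)
  rcases ra.rep s g ⟨hs1, hs2⟩ ng hsg hgs hvg with ⟨_, m, hm1, hm2⟩ | ⟨h5, _⟩
  · rcases rc.rep s g ⟨hs1, hs2⟩ ng hsg hgs hvg with ⟨h6, _⟩ | ⟨_, m', hm3, hm4⟩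
    · exact no Mc hMc h6 c1
    · exact Fork_uniq hn hm1 (lt_of_le_of_ne hm2 (hg4 m)) hm3 hm4
  · exact no Ma hMa a1 h5

theorem fork_count (hc : P.CCW) {p : ℂ} {l : ℕ} {Ω : Finset ℝ} {S : Arc} (hS : P.IsComp p l S)
    (F : Finset Arc)
    (hF : ∀ Y ∈ F, P.IsComp p (l + 1) Y ∧ 0 ≤ Y.i ∧ Y.i < n ∧ P.Sees Y S ∧
      ∃ M : Set ℂ, M.Nonempty ∧ (∃ ω ∈ Ω, P.Rep M S ω) ∧ P.Good M S Y.i) :
    F.card ≤ 2 * Ω.card := by
  classical
  have hn := P.Fork_npos
  have hinj : ∀ Y ∈ F, ∀ Y' ∈ F, Y.i = Y'.i → Y = Y' := by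
    intro Y hY Y' hY' hi
    obtain ⟨c1, -, -, s1, -⟩ := hF Y hY
    obtain ⟨c2, -, -, s2, -⟩ := hF Y' hY'
    obtain ⟨x, hx, z, hz, hv⟩ := s2
    have hx2 := c2.mem_floor hx
    have hx1 : x ∈ Y.s := P.see_absorb hc hS.ia hS.bi hS.sub c1 s1
      (by rw [hi]; exact hx2.1) (by rw [hi]; exact hx2.2.1) ⟨z, hz, hv.symm⟩
    exact P.comp_unique c1 c2 hx1 hx
  by_contra hcard
  rw [not_le] at hcard
  choose! M hM using fun Y hY => (hF Y hY).2.2.2.2
  choose! w hw using fun Y hY => (hM Y hY).2.1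
  obtain ⟨ω, hω, hfib⟩ := Finset.exists_lt_card_fiber_of_mul_lt_card_of_maps_to
    (f := w) (s := F) (t := Ω) (n := 2) (fun Y hY => (hw Y hY).1) (by rw [mul_comm]; exact hcard)
  set G := F.filter (fun Y => w Y = ω) with hG
  have hGF : ∀ Y ∈ G, Y ∈ F ∧ w Y = ω := fun Y hY => by
    rw [hG, Finset.mem_filter] at hY
    exact hY
  have hlift : ∀ Y ∈ G, ∃ m : ℤ, S.i < Y.i + m * n ∧ Y.i + m * n < S.i + n := by
    intro Y hY
    obtain ⟨c1, -, -, s1, -⟩ := hF Y (hGF Y hY).1
    exact P.Fork_lift S.i Y.i (fun m => P.sees_ne c1.ia c1.bi hS.ia hS.bi s1 m)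
  choose! m hm using hlift
  have hinj' : ∀ Y ∈ G, ∀ Y' ∈ G, Y.i + m Y * n = Y'.i + m Y' * n → Y = Y' := by
    intro Y hY Y' hY' h
    obtain ⟨-, a1, a2, -⟩ := hF Y (hGF Y hY).1
    obtain ⟨-, b1, b2, -⟩ := hF Y' (hGF Y' hY').1
    apply hinj Y (hGF Y hY).1 Y' (hGF Y' hY').1
    have hn' : (0 : ℤ) < n := by exact_mod_cast hn
    have h1 : (m Y' - m Y) * n = Y.i - Y'.i := by linarith
    have h2 : m Y' - m Y = 0 := by
      have h3 : (m Y' - m Y) * n < 1 * n := by linarith
      have h4 : (-1) * n < (m Y' - m Y) * (n : ℤ) := by linarith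
      have h5 := lt_of_mul_lt_mul_right h3 hn'.le
      have h6 := lt_of_mul_lt_mul_right h4 hn'.le
      omega
    rw [h2, zero_mul] at h1
    linarith
  have hGne : G.Nonempty := by
    rw [← Finset.card_pos]
    omega
  obtain ⟨Ya, hYa, hmin⟩ := Finset.exists_min_image G (fun Y => Y.i + m Y * n) hGne
  obtain ⟨Yc, hYc, hmax⟩ := Finset.exists_max_image G (fun Y => Y.i + m Y * n) hGne
  obtain ⟨Yb, hYb, hba, hbc⟩ : ∃ Yb ∈ G, Yb ≠ Ya ∧ Yb ≠ Yc := by
    by_contra hcon
    push Not at hcon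
    have hsub : G ⊆ {Ya, Yc} := by
      intro Y hY
      rw [Finset.mem_insert, Finset.mem_singleton]
      by_cases h : Y = Ya
      · exact Or.inl h
      · exact Or.inr (hcon Y hY h)
    have := Finset.card_le_card hsub
    have h2 := Finset.card_le_two (a := Ya) (b := Yc)
    omega
  have hab : Ya.i + m Ya * n < Yb.i + m Yb * n :=
    lt_of_le_of_ne (hmin Yb hYb) fun h => hba (hinj' Yb hYb Ya hYa h.symm)
  have hbc' : Yb.i + m Yb * n < Yc.i + m Yc * n :=
    lt_of_le_of_ne (hmax Yb hYb) fun h => hbc (hinj' Yb hYb Yc hYc h)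
  obtain ⟨cb, -, -, sb, -⟩ := hF Yb (hGF Yb hYb).1
  obtain ⟨y, hy, s, hs, hv⟩ := sb
  have hyb := cb.mem_floor hy
  have ra := (hw Ya (hGF Ya hYa).1).2
  rw [(hGF Ya hYa).2] at ra
  have rc := (hw Yc (hGF Yc hYc).1).2
  rw [(hGF Yc hYc).2] at rc
  exact P.Fork_three hc hS.ia hS.bi (hM Ya (hGF Ya hYa).1).1 (hM Yc (hGF Yc hYc).1).1 ra rc
    (hM Ya (hGF Ya hYa).1).2.2 (hM Yc (hGF Yc hYc).1).2.2 (hm Ya hYa).1 hab hbc' (hm Yc hYc).2
    hs hyb.1 hyb.2.1 hv

theorem not_good (hc : P.CCW) {S X : Arc} {M : Set ℂ} {ω : ℝ} (hS : (S.i : ℝ) ≤ S.a)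
    (hS' : S.b ≤ S.i + 1) (ij : S.i < X.i) (ji : X.i < S.i + n) (hr : P.Rep M S ω)
    (h : ¬ P.Good M S X.i) : P.HookL S X M ∨ P.HookR S X M := by
  have hn := P.Fork_npos
  have hn' : (0 : ℤ) < n := by exact_mod_cast hn
  unfold Good at h
  push Not at h
  obtain ⟨s, g, hs, ng, hsg, hgs, hv, m, hm⟩ := h
  obtain ⟨hs1, hs2⟩ := hs
  have ij' : (S.i : ℝ) + 1 ≤ X.i := by exact_mod_cast ij
  have ji' : (X.i : ℝ) + 1 ≤ S.i + n := by exact_mod_cast ji
  have m0 : ∀ k : ℤ, (s : ℝ) ≤ X.i + k * n → (X.i : ℝ) + k * n + 1 ≤ s + n → k = 0 := by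
    intro k h1 h2
    have h3 : (S.i : ℝ) < X.i + k * n := by linarith
    have h4 : (X.i : ℝ) + k * n < S.i + n := by linarith
    have h3' : S.i < X.i + k * n := by exact_mod_cast h3
    have h4' : X.i + k * n < S.i + n := by exact_mod_cast h4
    have h5 : k * n < 1 * (n : ℤ) := by linarith
    have h6 : (-1) * n < k * (n : ℤ) := by linarith
    have h7 := lt_of_mul_lt_mul_right h5 hn'.le
    have h8 := lt_of_mul_lt_mul_right h6 hn'.le
    omega
  have hrep := hr.rep s g ⟨hs1, hs2⟩ ng hsg hgs hv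
  by_cases hA : s ≤ X.i + m * n ∧ (X.i : ℝ) + m * n + 1 ≤ g ∧ ¬ M ⊆ P.Side s g
  · obtain ⟨h1, h2, h3⟩ := hA
    right
    have hm0 := m0 m h1 (by linarith)
    subst hm0
    rcases hrep with ⟨h4, -⟩ | ⟨h4, -⟩
    · exact absurd h4 h3
    refine ⟨s, ⟨hs1, hs2⟩, g, ?_, ?_, ng, hv, h4⟩
    · refine lt_of_le_of_ne ?_ ?_
      · have := h2
        push_cast at this
        linarith
      · have := ng (X.i + 1)
        push_cast at this
        exact this
    · by_contra hcon
      rw [not_lt] at hcon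
      have hv' : P.Vis (P.γ s) (P.γ (g - n)) := by
        have e := P.γ_add_n (g - n)
        rw [sub_add_cancel] at e
        rw [← e]
        exact hv
      exact P.not_vis_edge S.i (by linarith) (by linarith) (by linarith) (by linarith) hv'
  · left
    push Not at hA
    obtain ⟨h1, h2, h3⟩ := hm hA
    have hm0 := m0 m (by linarith) h2
    subst hm0
    rcases hrep with ⟨h4, -⟩ | ⟨h4, -⟩
    swap
    · exact absurd h4 h3
    refine ⟨s, ⟨hs1, hs2⟩, g, ?_, ?_, ng, hv, h4⟩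
    · by_contra hcon
      rw [not_lt] at hcon
      exact P.not_vis_edge S.i (by linarith) (by linarith) (by linarith) (by linarith) hv
    · refine lt_of_le_of_ne ?_ ?_
      · have := h1
        push_cast at this
        linarith
      · exact fun h => ng X.i h.symm

end Poly

end Pool.Agent.Lib_PL
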