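import Pool.Agent.Lib_PL.Alg

/-!
Basic facts on the parametrisation `γ`.
-/

open Set Complex
open scoped Topology

namespace Pool.Agent.Lib_PL

namespace Poly

variable {n : ℕ} (P : Poly n)

theorem V_add_mul (i m : ℤ) : P.V (i + m * n) = P.V i := by
  induction m using Int.induction_on with
  | zero => simp
  | succ k ih =>
    have : i + ((k : ℤ) + 1) * n = (i + k * n) + n := by ring
    rw [this, P.per, ih]
  | pred k ih =>
    have h := P.per (i + (-(k : ℤ) - 1) * n)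
    have h2 : i + (-(k : ℤ) - 1) * n + n = i + (-(k : ℤ)) * n := by ring
    rw [h2, ih] at h
    exact h.symm

theorem γ_int (m : ℤ) : P.γ m = P.V m := by
  simp [γ]

theorem γ_add_n (x : ℝ) : P.γ (x + n) = P.γ x := by
  have h : x + (n : ℝ) = x + ((n : ℤ) : ℝ) := by push_cast; ring
  rw [γ, h, Int.floor_add_intCast, Int.fract_add_intCast, P.per, γ]
  have h2 : ⌊x⌋ + (n : ℤ) + 1 = ⌊x⌋ + 1 + (n : ℤ) := by ring
  rw [h2, P.per]

theorem γ_add_mul (x : ℝ) (m : ℤ) : P.γ (x + m * n) = P.γ x := by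
  have h : x + (m : ℝ) * n = x + ((m * n : ℤ) : ℝ) := by push_cast; ring
  rw [γ, h, Int.floor_add_intCast, Int.fract_add_intCast, P.V_add_mul, γ]
  have h2 : ⌊x⌋ + m * (n : ℤ) + 1 = ⌊x⌋ + 1 + m * (n : ℤ) := by ring
  rw [h2, P.V_add_mul]

/-- `γ` is affine on `[i,i+1]` -/
theorem γ_lin (i : ℤ) (x : ℝ) (h : (i : ℝ) ≤ x) (h' : x ≤ i + 1) :
    P.γ x = P.V i + ((x - i : ℝ) : ℂ) * (P.V (i + 1) - P.V i) := by
  rcases lt_or_eq_of_le h' with h1 | h1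
  · have h2 : ⌊x⌋ = i := Int.floor_eq_iff.2 ⟨h, h1⟩
    have h3 : Int.fract x = x - i := by rw [Int.fract, h2]
    rw [γ, h2, h3]
  · have h2 : x = ((i + 1 : ℤ) : ℝ) := by rw [h1]; push_cast; ring
    rw [h2, γ_int]
    have h3 : (((i + 1 : ℤ) : ℝ) - (i : ℝ)) = 1 := by push_cast; ring
    rw [h3]
    push_cast
    ring

theorem γ_sub (i : ℤ) (x y : ℝ) (h : (i : ℝ) ≤ x) (h' : x ≤ i + 1) (k : (i : ℝ) ≤ y)
    (k' : y ≤ i + 1) : P.γ y - P.γ x = ((y - x : ℝ) : ℂ) * (P.V (i + 1) - P.V i) := by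
  rw [P.γ_lin i x h h', P.γ_lin i y k k']
  push_cast
  ring

private theorem Gamma_aff (i : ℤ) : ∃ A : ℝ →ᵃ[ℝ] ℂ, Continuous A ∧ ∀ x : ℝ, (i : ℝ) ≤ x →
    x ≤ i + 1 → P.γ x = A x := by
  refine ⟨AffineMap.lineMap (P.V i - (i : ℂ) * (P.V (i + 1) - P.V i))
    (P.V i - (i : ℂ) * (P.V (i + 1) - P.V i) + (P.V (i + 1) - P.V i)), ?_, fun x h h' => ?_⟩
  · exact AffineMap.lineMap_continuous
  · rw [P.γ_lin i x h h', AffineMap.lineMap_apply]
    simp only [vsub_eq_sub, add_sub_cancel_left, vadd_eq_add, Complex.real_smul]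
    push_cast
    ring

theorem γ_cont : Continuous P.γ := by
  rw [continuous_iff_continuousAt]
  intro x
  rw [continuousAt_iff_continuous_left_right]
  constructor
  · obtain ⟨A, hA, hA'⟩ := P.Gamma_aff (⌈x⌉ - 1)
    have h1 : ((⌈x⌉ - 1 : ℤ) : ℝ) < x := by
      push_cast
      linarith [Int.ceil_lt_add_one x]
    have h2 : x ≤ ((⌈x⌉ - 1 : ℤ) : ℝ) + 1 := by
      push_cast
      linarith [Int.le_ceil x]
    have h3 : P.γ =ᶠ[𝓝[≤] x] A := by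
      filter_upwards [Icc_mem_nhdsLE h1] with y hy
      exact hA' y hy.1 (hy.2.trans h2)
    exact (hA.continuousWithinAt).congr_of_eventuallyEq h3 (hA' x h1.le h2)
  · obtain ⟨A, hA, hA'⟩ := P.Gamma_aff ⌊x⌋
    have h1 : (⌊x⌋ : ℝ) ≤ x := Int.floor_le x
    have h2 : x < (⌊x⌋ : ℝ) + 1 := Int.lt_floor_add_one x
    have h3 : P.γ =ᶠ[𝓝[≥] x] A := by
      filter_upwards [Icc_mem_nhdsGE h2] with y hy
      exact hA' y (h1.trans hy.1) hy.2
    exact (hA.continuousWithinAt).congr_of_eventuallyEq h3 (hA' x h1 h2.le)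

theorem V_ne (i : ℤ) : P.V i ≠ P.V (i + 1) := by
  intro h
  have h1 := P.inj _ _ h
  have h2 : (i - (i + 1) : ℤ) = -1 := by ring
  rw [h2, Int.dvd_neg] at h1
  have h3 := Int.le_of_dvd one_pos h1
  have h4 := P.three_le
  omega

private theorem Gamma_segment {i : ℤ} {x y : ℝ} (hx : (i : ℝ) ≤ x) (hx' : x ≤ i + 1) (hy : (i : ℝ) ≤ y)
    (hy' : y ≤ i + 1) : segment ℝ (P.γ x) (P.γ y) = P.γ '' uIcc x y := by
  obtain ⟨A, -, hA⟩ := P.Gamma_aff i
  rw [hA x hx hx', hA y hy hy', ← image_segment, segment_eq_uIcc]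
  refine image_congr fun z hz => (hA z ?_ ?_).symm
  · exact (le_min hx hy).trans hz.1
  · exact hz.2.trans (max_le hx' hy')

theorem γ_image_Icc (i : ℤ) : P.γ '' Icc (i : ℝ) (i + 1) = segment ℝ (P.V i) (P.V (i + 1)) := by
  have h1 : P.γ ((i : ℝ) + 1) = P.V (i + 1) := by
    have := P.γ_int (i + 1)
    push_cast at this
    exact this
  rw [← h1, ← P.γ_int i, P.Gamma_segment (i := i) le_rfl (by linarith) (by linarith) le_rfl,
    uIcc_of_le (by linarith)]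

private theorem Gamma_openSegment {i : ℤ} {x y : ℝ} (hx : (i : ℝ) ≤ x) (hy' : y ≤ i + 1) (hxy : x < y) :
    openSegment ℝ (P.γ x) (P.γ y) = P.γ '' Ioo x y := by
  obtain ⟨A, -, hA⟩ := P.Gamma_aff i
  rw [hA x hx (hxy.le.trans hy'), hA y (hx.trans hxy.le) hy', ← image_openSegment,
    openSegment_eq_Ioo hxy]
  exact image_congr fun z hz => (hA z (hx.trans hz.1.le) (hz.2.le.trans hy')).symm

theorem γ_image_Ioo (i : ℤ) :
    P.γ '' Ioo (i : ℝ) (i + 1) = openSegment ℝ (P.V i) (P.V (i + 1)) := by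
  have h1 : P.γ ((i : ℝ) + 1) = P.V (i + 1) := by
    have := P.γ_int (i + 1)
    push_cast at this
    exact this
  rw [← h1, ← P.γ_int i, P.Gamma_openSegment (i := i) le_rfl le_rfl (by linarith)]

private theorem Gamma_mem (x : ℝ) : P.γ x ∈ segment ℝ (P.V ⌊x⌋) (P.V (⌊x⌋ + 1)) := by
  rw [← P.γ_image_Icc]
  exact ⟨x, ⟨Int.floor_le x, (Int.lt_floor_add_one x).le⟩, rfl⟩

private theorem Gamma_ed_ne (i : ℤ) : P.V (i + 1) - P.V i ≠ 0 := by
  rw [sub_ne_zero]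
  exact (P.V_ne i).symm

private theorem Gamma_vertex (x : ℝ) (h : P.γ x = P.V ⌊x⌋ ∨ P.γ x = P.V (⌊x⌋ + 1)) :
    x = ⌊x⌋ := by
  rcases h with h | h
  · have h1 : ((Int.fract x : ℝ) : ℂ) * (P.V (⌊x⌋ + 1) - P.V ⌊x⌋) = 0 := by
      rw [γ] at h
      simpa using h
    rcases mul_eq_zero.1 h1 with h2 | h2
    · have h3 : Int.fract x = 0 := by exact_mod_cast h2
      have h4 := Int.floor_add_fract x
      rw [h3, add_zero] at h4
      exact h4.symm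
    · exact absurd h2 (P.Gamma_ed_ne _)
  · exfalso
    have h1 : ((Int.fract x - 1 : ℝ) : ℂ) * (P.V (⌊x⌋ + 1) - P.V ⌊x⌋) = 0 := by
      rw [γ] at h
      push_cast
      linear_combination h
    rcases mul_eq_zero.1 h1 with h2 | h2
    · have h3 : Int.fract x - 1 = 0 := by exact_mod_cast h2
      have h4 := Int.fract_lt_one x
      linarith
    · exact absurd h2 (P.Gamma_ed_ne _)

/-- `γ` is injective modulo `n` -/
theorem γ_inj {x y : ℝ} (h : P.γ x = P.γ y) : ∃ m : ℤ, y = x + m * n := by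
  by_cases hd : (n : ℤ) ∣ ⌊x⌋ - ⌊y⌋
  · obtain ⟨k, hk⟩ := hd
    have h1 : ⌊x⌋ = ⌊y⌋ + k * n := by rw [mul_comm k]; omega
    have h2 : ((Int.fract x - Int.fract y : ℝ) : ℂ) * (P.V (⌊y⌋ + 1) - P.V ⌊y⌋) = 0 := by
      rw [γ, γ, h1] at h
      have h3 : ⌊y⌋ + k * (n : ℤ) + 1 = ⌊y⌋ + 1 + k * (n : ℤ) := by ring
      rw [h3, P.V_add_mul, P.V_add_mul] at h
      push_cast
      linear_combination h
    rcases mul_eq_zero.1 h2 with h3 | h3
    · have h4 : Int.fract x - Int.fract y = 0 := by exact_mod_cast h3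
      refine ⟨-k, ?_⟩
      have h5 := Int.floor_add_fract x
      have h6 := Int.floor_add_fract y
      have h7 : (⌊x⌋ : ℝ) = ⌊y⌋ + k * n := by exact_mod_cast h1
      push_cast
      linarith
    · exact absurd h3 (P.Gamma_ed_ne _)
  · obtain ⟨h1, h2⟩ := P.simple _ _ hd (P.γ x) (P.Gamma_mem x) (by rw [h]; exact P.Gamma_mem y)
    rw [h] at h2
    have h3 := P.Gamma_vertex x h1
    have h4 := P.Gamma_vertex y h2
    rw [h3, h4, P.γ_int, P.γ_int] at h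
    exact absurd (P.inj _ _ h) hd

theorem γ_inj' {x y c : ℝ} (h : P.γ x = P.γ y) (hx : c ≤ x) (hx' : x < c + n) (hy : c ≤ y)
    (hy' : y < c + n) : x = y := by
  obtain ⟨m, hm⟩ := P.γ_inj h
  have hn : (0 : ℝ) < n := by
    have := P.three_le
    exact_mod_cast (by omega : 0 < n)
  have h1 : m = 0 := by
    by_contra h0
    rcases lt_or_gt_of_ne h0 with h2 | h2
    · have h3 : (m : ℝ) ≤ -1 := by exact_mod_cast (by omega : m ≤ -1)
      nlinarith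
    · have h3 : (1 : ℝ) ≤ m := by exact_mod_cast (by omega : 1 ≤ m)
      nlinarith
  rw [hm, h1]
  simp

theorem γ_mem_C (x : ℝ) : P.γ x ∈ P.C :=
  mem_iUnion.2 ⟨⌊x⌋, P.Gamma_mem x⟩

theorem mem_C_iff (z : ℂ) : z ∈ P.C ↔ ∃ x, P.γ x = z := by
  constructor
  · intro h
    obtain ⟨i, hi⟩ := mem_iUnion.1 h
    rw [← P.γ_image_Icc] at hi
    obtain ⟨x, -, hx⟩ := hi
    exact ⟨x, hx⟩
  · rintro ⟨x, rfl⟩
    exact P.γ_mem_C x

theorem mem_C_window (c : ℝ) {z : ℂ} (h : z ∈ P.C) : ∃ x, c ≤ x ∧ x < c + n ∧ P.γ x = z := by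
  obtain ⟨x, hx⟩ := (P.mem_C_iff z).1 h
  have hn : (0 : ℝ) < n := by
    have := P.three_le
    exact_mod_cast (by omega : 0 < n)
  obtain ⟨m, hm, -⟩ := existsUnique_add_zsmul_mem_Ico hn x c
  refine ⟨x + m * n, ?_, ?_, ?_⟩
  · simpa using hm.1
  · simpa using hm.2
  · rw [P.γ_add_mul, hx]

theorem mem_C_window' (c : ℝ) {z : ℂ} (h : z ∈ P.C) : ∃ x, c < x ∧ x ≤ c + n ∧ P.γ x = z := by
  obtain ⟨x, hx⟩ := (P.mem_C_iff z).1 h
  have hn : (0 : ℝ) < n := by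
    have := P.three_le
    exact_mod_cast (by omega : 0 < n)
  obtain ⟨m, hm, -⟩ := existsUnique_add_zsmul_mem_Ioc hn x c
  refine ⟨x + m * n, ?_, ?_, ?_⟩
  · simpa using hm.1
  · simpa using hm.2
  · rw [P.γ_add_mul, hx]

theorem C_compact : IsCompact P.C := by
  have h1 : P.C = P.γ '' Icc 0 (0 + n) := by
    ext z
    constructor
    · intro hz
      obtain ⟨x, hx, hx', hxz⟩ := P.mem_C_window 0 hz
      exact ⟨x, ⟨hx, hx'.le⟩, hxz⟩
    · rintro ⟨x, -, rfl⟩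
      exact P.γ_mem_C x
  rw [h1]
  exact isCompact_Icc.image P.γ_cont

theorem C_closed : IsClosed P.C := P.C_compact.isClosed

theorem segment_γ {i : ℤ} {x y : ℝ} (hx : (i : ℝ) ≤ x) (hx' : x ≤ i + 1) (hy : (i : ℝ) ≤ y)
    (hy' : y ≤ i + 1) : segment ℝ (P.γ x) (P.γ y) = P.γ '' uIcc x y :=
  P.Gamma_segment hx hx' hy hy'

theorem openSegment_γ {i : ℤ} {x y : ℝ} (hx : (i : ℝ) ≤ x) (hy' : y ≤ i + 1) (hxy : x < y) :
    openSegment ℝ (P.γ x) (P.γ y) = P.γ '' Ioo x y :=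
  P.Gamma_openSegment hx hy' hxy

theorem NI_floor {x : ℝ} (h : NI x) : (⌊x⌋ : ℝ) < x ∧ x < ⌊x⌋ + 1 ∧ ⌈x⌉ - 1 = ⌊x⌋ := by
  have h1 : (⌊x⌋ : ℝ) < x := lt_of_le_of_ne (Int.floor_le x) (h ⌊x⌋)
  have h2 := Int.lt_floor_add_one x
  refine ⟨h1, h2, ?_⟩
  have h3 : ⌈x⌉ = ⌊x⌋ + 1 := by
    rw [Int.ceil_eq_iff]
    push_cast
    constructor <;> linarith
  rw [h3]
  ring

theorem NI_of_Ioo {x : ℝ} {i : ℤ} (h : (i : ℝ) < x) (h' : x < i + 1) : NI x ∧ ⌊x⌋ = i := by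
  refine ⟨fun m hm => ?_, Int.floor_eq_iff.2 ⟨h.le, h'⟩⟩
  rw [← hm] at h h'
  have h1 : i < m := by exact_mod_cast h
  have h2 : m < i + 1 := by exact_mod_cast h'
  omega

theorem NI_add {x : ℝ} (m : ℤ) (h : NI x) : NI (x + m) := by
  intro k hk
  refine h (k - m) ?_
  push_cast
  linarith

theorem γ_mem_openSegment {x : ℝ} (h : NI x) :
    P.γ x ∈ openSegment ℝ (P.V ⌊x⌋) (P.V (⌊x⌋ + 1)) := by
  rw [← P.γ_image_Ioo]
  exact ⟨x, ⟨(NI_floor h).1, (NI_floor h).2.1⟩, rfl⟩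

theorem ep_int (m : ℤ) : P.ep m = P.V (m + 1) - P.V m := by
  rw [ep, P.γ_int, Int.floor_intCast]

theorem em_int (m : ℤ) : P.em m = P.V (m - 1) - P.V m := by
  rw [em, P.γ_int, Int.ceil_intCast]

theorem ep_NI {x : ℝ} (h : NI x) : ∃ t : ℝ, 0 < t ∧ P.ep x = (t : ℂ) * P.ed x := by
  refine ⟨1 - Int.fract x, by linarith [Int.fract_lt_one x], ?_⟩
  rw [ep, γ, ed]
  push_cast
  ring

theorem em_NI {x : ℝ} (h : NI x) : ∃ t : ℝ, 0 < t ∧ P.em x = -((t : ℂ) * P.ed x) := by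
  refine ⟨Int.fract x, ?_, ?_⟩
  · have h1 := (NI_floor h).1
    rw [Int.fract]
    linarith
  · rw [em, (NI_floor h).2.2, γ, ed]
    ring

theorem InSector_NI {x : ℝ} (h : NI x) (d : ℂ) :
    InSector (P.ep x) (P.em x) d ↔ 0 < cr (P.ed x) d := by
  obtain ⟨t, ht, h1⟩ := P.ep_NI h
  obtain ⟨s, hs, h2⟩ := P.em_NI h
  have h3 : cr (P.ep x) (P.em x) = 0 := by
    rw [h1, h2, cr_neg_right, cr_mul_left, cr_mul_right, cr_self]
    ring
  rw [InSector_flat h3, h1, cr_mul_left, mul_pos_iff_of_pos_left ht]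

end Poly

end Pool.Agent.Lib_PL
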