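import Pool.Agent.Lib_PL.PreQ1

/-!
(p3).  For a chord `s y` of `approx` let `w` be its intersection with `L`; `V q` is strictly between `γ D` and `w`
(`left_strict`); the triangle `γ D, γ y, w` is free, so `V q` sees all points `y' ∈ (D, y]` (`tri_vis`).  For `y'`
close to `D` we have `0 < cr (ep q) (γ y' - V q)` (from `epl`, `epn`, `tE`), so `vis_after` applies.  `y'` sees `S` by
`f2_edge`/`Weak` (or take `y' = y`).
-/

open Set Complex
open scoped Topology

namespace Pool.Agent.Lib_PL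

namespace Poly

variable {n : ℕ} (P : Poly n)

theorem preQ_p3 (hc : P.CCW) {i j : ℤ} {α β D s0 : ℝ} {q : ℤ} (h : P.PreQ i j α β D s0 q) :
    ∀ δ > 0, ∃ y : ℝ, D < y ∧ y < D + δ ∧ y < j + 1 ∧ (∃ s ∈ Ioo α β, P.Vis (P.γ s) (P.γ y)) ∧
      ∃ ε > 0, ∀ x : ℝ, (q : ℝ) < x → x < q + ε → P.Vis (P.γ x) (P.γ y) := by
  intro δ hδ
  have hpre := h.pre
  have hiq : ((i : ℝ) + 1) ≤ q := by exact_mod_cast h.iq
  have hqj : (q : ℝ) ≤ j := by exact_mod_cast h.qj
  have hs0i : (i : ℝ) ≤ s0 := hpre.iα.trans hpre.αs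
  have hs0i' : s0 < i + 1 := lt_of_lt_of_le hpre.sβ hpre.βi
  have hDj := hpre.jD
  have hDj' := hpre.Dj
  obtain ⟨τ, ⟨hτ0, hτ1⟩, hτ⟩ : ∃ τ : ℝ, (0 < τ ∧ τ < 1) ∧
      P.V q = P.γ D + (τ : ℂ) * (P.γ s0 - P.γ D) := by
    have h1 := h.onL
    rw [openSegment_eq_image'] at h1
    obtain ⟨τ, hτ, h2⟩ := h1
    refine ⟨τ, hτ, ?_⟩
    rw [← h2]
    simp
  have hγy : ∀ y : ℝ, D < y → y < j + 1 → P.γ y - P.γ D =
      ((y - D : ℝ) : ℂ) * (P.V (j + 1) - P.V j) := fun y h1 h2 =>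
    P.γ_sub j D y hDj.le hDj'.le (by linarith) h2.le
  have hE := h.tE
  have hF := h.tF
  have hu0 : P.γ s0 - P.γ D ≠ 0 := sub_ne_zero.2 (Ne.symm hpre.ne)
  set u : ℂ := P.γ s0 - P.γ D with hu
  set E : ℂ := P.V (j + 1) - P.V j with hEdef
  set F : ℂ := P.V (i + 1) - P.V i with hFdef
  set e : ℂ := P.V (q + 1) - P.V q with hedef
  have huE : cr u E < 0 := by rw [cr_swap]; linarith
  have hFu : 0 < cr u F := by
    have h1 : P.γ D - P.γ s0 = -u := by rw [hu]; ring
    rw [h1, cr_neg_right] at hF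
    rw [cr_swap]; linarith
  -- the direction of the edge after `q`
  have key : ∃ ε2 > 0, ∀ y : ℝ, D < y → y < D + ε2 → y < j + 1 → 0 < cr e (P.γ y - P.V q) := by
    have hform : ∀ y : ℝ, D < y → y < j + 1 → P.γ y - P.V q =
        ((y - D : ℝ) : ℂ) * E - (τ : ℂ) * u := by
      intro y h1 h2
      rw [← hγy y h1 h2, hτ]
      ring
    have he0 : e ≠ 0 := sub_ne_zero.2 (Ne.symm (P.V_ne q))
    rcases lt_or_eq_of_le h.epl with h1 | h1
    · have hK : 0 < |cr e E| + 1 := by positivity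
      refine ⟨τ * cr u e / (|cr e E| + 1), by positivity, ?_⟩
      intro y hy hy' hyj
      rw [hform y hy hyj, cr_sub_right, cr_mul_right, cr_mul_right, cr_swap e u]
      have h2 : (y - D) * (|cr e E| + 1) < τ * cr u e := by
        rw [← lt_div_iff₀ hK]; linarith
      have h3 : -(y - D) * |cr e E| ≤ (y - D) * cr e E := by
        have h4 := neg_abs_le (cr e E)
        nlinarith
      nlinarith
    · obtain ⟨t, ht'⟩ := cr_eq_zero hu0 h1.symm
      have ht : e = (t : ℂ) * u := ht'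
      have ht0 : t < 0 := by
        rcases lt_trichotomy t 0 with h2 | h2 | h2
        · exact h2
        · exact absurd (by rw [ht, h2]; simp) he0
        · exact absurd ht' (h.epn t h2)
      refine ⟨1, one_pos, ?_⟩
      intro y hy _ hyj
      rw [hform y hy hyj, ht, cr_mul_left, cr_sub_right, cr_mul_right, cr_mul_right, cr_self]
      have h3 : (y - D) * cr u E < 0 := mul_neg_of_pos_of_neg (by linarith) huE
      nlinarith
  obtain ⟨ε2, hε2, hkey⟩ := key
  -- the left contact `q`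
  have hVq : P.γ (q : ℝ) = P.V q := P.γ_int q
  obtain ⟨ε1, hε1, hls⟩ := P.left_strict hc hpre (x := (q : ℝ)) (by linarith) (by linarith)
    (by rw [hVq]; exact openSegment_subset_segment ℝ _ _ h.onL)
  obtain ⟨s, y, hs, hs', hsβ, hy, hy', hyj, hv⟩ :=
    hpre.approx (min ε1 (min ε2 δ)) (lt_min hε1 (lt_min hε2 hδ))
  have hm1 : min ε1 (min ε2 δ) ≤ ε1 := min_le_left _ _
  have hm2 : min ε1 (min ε2 δ) ≤ ε2 := (min_le_right _ _).trans (min_le_left _ _)
  have hm3 : min ε1 (min ε2 δ) ≤ δ := (min_le_right _ _).trans (min_le_right _ _)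
  have hfq := hls s y hs (by linarith) hsβ hy (by linarith) hyj hv
  rw [hVq] at hfq
  have hsi : (i : ℝ) < s := lt_of_le_of_lt hs0i hs
  have hsi' : s < i + 1 := lt_of_lt_of_le hsβ hpre.βi
  have hyl := hv.symm.left' hc (by linarith : (j : ℝ) < y) hyj
  rw [← hEdef] at hyl
  have hys : P.γ y - P.γ D = ((y - D : ℝ) : ℂ) * E := hγy y hy hyj
  have hss : P.γ s - P.γ s0 = ((s - s0 : ℝ) : ℂ) * F :=
    P.γ_sub i s0 s hs0i hs0i'.le hsi.le hsi'.le
  -- values of the two affine functions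
  set d : ℂ := P.γ s - P.γ y with hd
  have ha : 0 < cr d (P.γ D - P.γ y) := by
    have h1 : P.γ D - P.γ y = -(((y - D : ℝ) : ℂ) * E) := by rw [← hys]; ring
    rw [h1, cr_neg_right, cr_mul_right, cr_swap d E]
    have : 0 < (y - D) * cr E d := mul_pos (by linarith) hyl
    linarith
  have hgy : cr (P.γ D - P.γ y) u < 0 := by
    have h1 : P.γ D - P.γ y = -(((y - D : ℝ) : ℂ) * E) := by rw [← hys]; ring
    rw [h1, cr_neg_left, cr_mul_left]
    have : 0 < (y - D) * cr E u := mul_pos (by linarith) hE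
    linarith
  have hgs : 0 < cr u (P.γ s - P.γ D) := by
    have h1 : P.γ s - P.γ D = ((s - s0 : ℝ) : ℂ) * F + u := by rw [← hss, hu]; ring
    rw [h1, cr_add_right, cr_mul_right, cr_self, add_zero]
    exact mul_pos (by linarith) hFu
  have hdu : cr d u = cr (P.γ D - P.γ y) u - cr u (P.γ s - P.γ D) := by
    have h1 : d = (P.γ D - P.γ y) + (P.γ s - P.γ D) := by rw [hd]; ring
    rw [h1, cr_add_left, cr_swap (P.γ s - P.γ D) u]
    ring
  have hdu0 : cr d u < 0 := by rw [hdu]; linarith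
  set lam : ℝ := cr (P.γ D - P.γ y) u / cr d u with hlam
  set mu : ℝ := -(cr d (P.γ D - P.γ y) / cr d u) with hmu
  have hlam0 : 0 < lam := div_pos_of_neg_of_neg hgy hdu0
  have hlam1 : lam < 1 := by
    rw [hlam, div_lt_one_of_neg hdu0, hdu]
    linarith
  have hmu0 : 0 < mu := by
    rw [hmu, ← div_neg]
    exact div_pos ha (by linarith)
  have hτmu : τ < mu := by
    have h1 : P.V q - P.γ y = (P.γ D - P.γ y) + (τ : ℂ) * u := by rw [hτ]; ring
    rw [h1, cr_add_right, cr_mul_right] at hfq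
    rw [hmu, ← div_neg, lt_div_iff₀ (by linarith)]
    linarith
  have hw : P.γ y + (lam : ℂ) * d = P.γ D + (mu : ℂ) * u := by
    have h1 := cr_dec hdu0.ne (P.γ D - P.γ y)
    rw [← hlam] at h1
    have h2 : ((cr d (P.γ D - P.γ y) / cr d u : ℝ) : ℂ) = -(mu : ℂ) := by
      rw [hmu]; push_cast; ring
    rw [h2] at h1
    linear_combination -h1
  set w : ℂ := P.γ D + (mu : ℂ) * u with hwdef
  have hmu1 : mu < 1 := by
    -- `γ s0` is strictly right of the chord
    have hsl := hv.left' hc hsi hsi'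
    rw [← hFdef] at hsl
    have hb : cr d (P.γ s0 - P.γ y) < 0 := by
      have h1 : P.γ s0 - P.γ y = d - ((s - s0 : ℝ) : ℂ) * F := by rw [← hss, hd]; ring
      rw [h1, cr_sub_right, cr_self, cr_mul_right, cr_swap d F]
      have h2 : cr F d = -cr F (P.γ y - P.γ s) := by
        have h3 : d = -(P.γ y - P.γ s) := by rw [hd]; ring
        rw [h3, cr_neg_right]
      rw [h2]
      have : 0 < (s - s0) * cr F (P.γ y - P.γ s) := mul_pos (by linarith) hsl
      linarith
    have h4 : P.γ s0 - P.γ y = (P.γ D - P.γ y) + u := by rw [hu]; ring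
    rw [h4, cr_add_right] at hb
    rw [hmu, ← div_neg, div_lt_one (by linarith)]
    linarith
  have hwL : w ∈ segment ℝ (P.γ D) (P.γ s0) := by
    rw [segment_eq_image']
    refine ⟨mu, ⟨hmu0.le, hmu1.le⟩, ?_⟩
    rw [hwdef, hu]
    simp
  have hwc : w ∈ segment ℝ (P.γ y) (P.γ s) := by
    rw [segment_eq_image', ← hw]
    refine ⟨lam, ⟨hlam0.le, hlam1.le⟩, ?_⟩
    rw [hd]
    simp
  have hqw : P.V q ∈ openSegment ℝ (P.γ D) w := by
    rw [openSegment_eq_image']
    refine ⟨τ / mu, ⟨div_pos hτ0 hmu0, (div_lt_one hmu0).2 hτmu⟩, ?_⟩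
    have h1 : (mu : ℂ) ≠ 0 := by exact_mod_cast hmu0.ne'
    rw [hτ, hwdef]
    simp only [Complex.real_smul]
    push_cast
    field_simp
    ring
  have hvq : P.Vis (P.V q) (P.γ y) := by
    refine P.tri_vis (P.γ D) w (P.γ y) ?_ ?_ ?_ ?_ _ hqw
    · have h1 : w - P.γ D = (mu : ℂ) * u := by rw [hwdef]; ring
      rw [h1, cr_mul_left, hys, cr_mul_right]
      refine (mul_neg_of_pos_of_neg hmu0 ?_).ne
      exact mul_neg_of_pos_of_neg (by linarith) huE
    · exact ((convex_segment _ _).segment_subset (left_mem_segment ℝ _ _) hwL).trans hpre.LR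
    · refine ((convex_segment _ _).segment_subset hwc (left_mem_segment ℝ _ _)).trans hv.symm.seg
    · rw [P.segment_γ (i := j) (by linarith) hyj.le hDj.le hDj'.le]
      rintro _ ⟨t, _, rfl⟩
      exact Or.inl (P.γ_mem_C t)
  refine ⟨y, hy, by linarith, hyj, ⟨s, ⟨lt_of_le_of_lt hpre.αs hs, hsβ⟩, hv⟩, ?_⟩
  have hk := hkey y hy (by linarith) hyj
  have h5 := P.vis_after hc (x0 := (q : ℝ)) (z := P.γ y) (by rw [hVq]; exact hvq)
    (by rw [P.ep_int, hVq]; exact hk)
  exact h5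

end Poly

end Pool.Agent.Lib_PL
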