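import Pool.Agent.Lib_PL.PreQ1

/-!
(p4).  First: `V q` sees `γ s` for all `s > s0` close to `s0`.  Otherwise `s_m → s0` from above and `c_m = γ (t_m) ∈ C` on the
open segment `V q, γ (s_m)`; the limit `c` is on the closed segment `V q, γ s0`.  In the open segment: `c` is not a
left contact (`leftc`), so a right contact, but `c_m` is strictly left of `L`: contradiction with `right_weak`.
`c = γ s0`: `c_m` on the line of edge `i` is impossible; on edge `i - 1` (`s0 = i`): direction to `D` is exterior as in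
`LeftContact`.  `c = V q`: `c_m - V q` is a positive multiple of `ep q` or `em q` and of `γ (s_m) - V q → γ s0 - V q`;
excluded by `epn` and `eml`.  Then `vis_before` with `0 < cr (γ s - V q) (em q)` (from `eml`, `s` close to `s0`).
-/

open Set Complex
open scoped Topology

namespace Pool.Agent.Lib_PL

namespace Poly

variable {n : ℕ} (P : Poly n)

/-- the basic data: directions `e` of `L` and `E` of edge `i` -/
private theorem Piv4_data {i j : ℤ} {α β D s0 : ℝ} {q : ℤ} (h : P.PreQ i j α β D s0 q) :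
    0 < cr (P.γ s0 - P.γ D) (P.V (i + 1) - P.V i) ∧
    (∃ μ : ℝ, 0 < μ ∧ μ < 1 ∧ P.γ s0 - P.V q = ((1 - μ : ℝ) : ℂ) * (P.γ s0 - P.γ D) ∧
      P.V q - P.γ D = (μ : ℂ) * (P.γ s0 - P.γ D)) ∧
    (i : ℝ) ≤ s0 ∧ s0 < i + 1 ∧
    (∀ s : ℝ, s0 ≤ s → s ≤ i + 1 →
      P.γ s - P.γ s0 = ((s - s0 : ℝ) : ℂ) * (P.V (i + 1) - P.V i)) := by
  have hi0 : (i : ℝ) ≤ s0 := h.pre.iα.trans h.pre.αs
  have hi1 : s0 < i + 1 := h.pre.sβ.trans_le h.pre.βi
  refine ⟨?_, ?_, hi0, hi1, ?_⟩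
  · have h1 := h.tF
    have h2 : P.γ D - P.γ s0 = -(P.γ s0 - P.γ D) := by ring
    rw [h2, cr_neg_right, cr_swap] at h1
    linarith
  · have h1 := h.onL
    rw [openSegment_eq_image'] at h1
    obtain ⟨μ, ⟨h0, h1⟩, h2⟩ := h1
    have h3 : P.V q = P.γ D + (μ : ℂ) * (P.γ s0 - P.γ D) := by
      rw [← h2]
      simp only [Complex.real_smul]
    refine ⟨μ, h0, h1, ?_, ?_⟩
    · rw [h3]; push_cast; ring
    · rw [h3]; ring
  · intro s hs hs'
    exact P.γ_sub i s0 s hi0 hi1.le (hi0.trans hs) hs'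

/-- blocking points -/
private theorem Piv4_block (hc : P.CCW) {i j : ℤ} {α β D s0 : ℝ} {q : ℤ}
    (h : P.PreQ i j α β D s0 q) {s : ℝ} (hs : s0 < s) (hs' : s < i + 1)
    (hv : ¬ P.Vis (P.V q) (P.γ s)) : ∃ l t : ℝ, 0 < l ∧ l < 1 ∧ s0 ≤ t ∧ t ≤ s0 + n ∧
      P.γ t = P.V q + (l : ℂ) * (P.γ s - P.V q) := by
  obtain ⟨heE, ⟨μ, hμ0, hμ1, hμ, -⟩, hi0, hi1, hγ⟩ := P.Piv4_data h
  have hni := NI_of_Ioo (i := i) (hi0.trans_lt hs) hs'
  have h1 : InSector (P.ep s) (P.em s) (P.V q - P.γ s) := by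
    rw [P.InSector_NI hni.1, ed, hni.2]
    have h2 : P.V q - P.γ s = -(((1 - μ : ℝ) : ℂ) * (P.γ s0 - P.γ D)) -
        ((s - s0 : ℝ) : ℂ) * (P.V (i + 1) - P.V i) := by
      rw [← hμ, ← hγ s hs.le hs'.le]
      ring
    rw [h2, cr_sub_right, cr_neg_right, cr_mul_right, cr_mul_right, cr_self,
      cr_swap (P.V (i + 1) - P.V i)]
    have : 0 < (1 - μ) * cr (P.γ s0 - P.γ D) (P.V (i + 1) - P.V i) :=
      mul_pos (by linarith) heE
    linarith
  obtain ⟨c, hc1, hc2⟩ := P.block (P.enter hc s (P.V q) h1) (fun hv' => hv hv'.symm)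
  obtain ⟨t, ht, ht', htc⟩ := P.mem_C_window s0 hc2
  rw [openSegment_symm, openSegment_eq_image'] at hc1
  obtain ⟨l, ⟨hl0, hl1⟩, hl⟩ := hc1
  refine ⟨l, t, hl0, hl1, ht, ht'.le, ?_⟩
  rw [htc, ← hl]
  simp only [Complex.real_smul]

/-- near `γ s0` there are no blocking points -/
private theorem Piv4_near_s0 (hc : P.CCW) {i j : ℤ} {α β D s0 : ℝ} {q : ℤ}
    (h : P.PreQ i j α β D s0 q) : ∃ ρ > 0, ∀ s l : ℝ, s0 < s → s < i + 1 → 0 < l → l < 1 →
      P.V q + (l : ℂ) * (P.γ s - P.V q) ∈ P.C →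
      ¬ ‖P.V q + (l : ℂ) * (P.γ s - P.V q) - P.γ s0‖ < ρ := by
  obtain ⟨heE, ⟨μ, hμ0, hμ1, hμ, -⟩, hi0, hi1, hγ⟩ := P.Piv4_data h
  obtain ⟨ρ, hρ, hC⟩ := P.C_local s0
  refine ⟨ρ, hρ, fun s l hs hs' hl0 hl1 hmem hn => ?_⟩
  set e : ℂ := P.γ s0 - P.γ D with he
  set E : ℂ := P.V (i + 1) - P.V i with hE
  set d : ℂ := P.V q + (l : ℂ) * (P.γ s - P.V q) - P.γ s0 with hd
  have hd' : d = -((((1 - l) * (1 - μ) : ℝ) : ℂ) * e) + ((l * (s - s0) : ℝ) : ℂ) * E := by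
    have h1 : P.V q = P.γ s0 - ((1 - μ : ℝ) : ℂ) * e := by rw [← hμ]; ring
    have h2 : P.γ s = P.γ s0 + ((s - s0 : ℝ) : ℂ) * E := by rw [← hγ s hs.le hs'.le]; ring
    rw [hd, h2, h1]
    push_cast
    ring
  have hed : 0 < cr e d := by
    rw [hd', cr_add_right, cr_neg_right, cr_mul_right, cr_mul_right, cr_self]
    have : 0 < l * (s - s0) * cr e E := mul_pos (mul_pos hl0 (by linarith)) heE
    linarith
  have hEd : 0 < cr E d := by
    rw [hd', cr_add_right, cr_neg_right, cr_mul_right, cr_mul_right, cr_self, cr_swap E e]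
    have : 0 < (1 - l) * (1 - μ) * cr e E :=
      mul_pos (mul_pos (by linarith) (by linarith)) heE
    linarith
  have hfl : ⌊s0⌋ = i := Int.floor_eq_iff.2 ⟨hi0, hi1⟩
  have hep : P.ep s0 = ((i + 1 - s0 : ℝ) : ℂ) * E := by
    rw [ep, hfl]
    have h1 := hγ (i + 1) hi1.le le_rfl
    have h2 : P.γ ((i : ℝ) + 1) = P.V (i + 1) := by
      have := P.γ_int (i + 1)
      push_cast at this
      exact this
    rw [h2] at h1
    exact h1
  have h1 : P.γ s0 + d ∈ P.C := by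
    rw [hd]
    convert hmem using 1
    ring
  rcases (hC d hn).1 h1 with h2 | ⟨t, ht, h2⟩ | ⟨t, ht, h2⟩
  · rw [h2, cr_zero_right] at hed
    exact lt_irrefl _ hed
  · rw [h2, cr_mul_right, hep, cr_mul_right, cr_self] at hEd
    simp at hEd
  · by_cases hni : NI s0
    · obtain ⟨r, hr, h3⟩ := P.em_NI hni
      have h4 : P.ed s0 = E := by rw [ed, hfl]
      rw [h2, h3, h4, cr_mul_right, cr_neg_right, cr_mul_right, cr_self] at hEd
      simp at hEd
    · have h3 := P.seg_sector hc (x := s0) (z := P.γ D)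
        (by rw [segment_symm]; exact h.pre.LR)
      apply h3
      have h4 : P.γ D - P.γ s0 = -e := by rw [he]; ring
      rw [h4]
      have h5 : cr (P.em s0) (P.ep s0) < 0 := by
        rw [h2, cr_mul_right] at hEd
        have h6 : 0 < cr E (P.em s0) := (mul_pos_iff_of_pos_left ht).1 hEd
        rw [hep, cr_mul_right, cr_swap (P.em s0) E]
        have : 0 < (i + 1 - s0) * cr E (P.em s0) := mul_pos (by linarith) h6
        linarith
      refine ⟨fun h6 => absurd h6 (not_lt.2 h5.le), fun _ => Or.inl ?_, fun h6 => absurd h6 h5.ne⟩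
      rw [h2, cr_mul_right] at hed
      have h6 : 0 < cr e (P.em s0) := (mul_pos_iff_of_pos_left ht).1 hed
      rw [cr_neg_right, cr_swap (P.em s0) e]
      linarith

/-- near `V q` there are no blocking points -/
private theorem Piv4_near_q {i j : ℤ} {α β D s0 : ℝ} {q : ℤ}
    (h : P.PreQ i j α β D s0 q) : ∃ ρ > 0, ∃ ε > 0, ∀ s l : ℝ, s0 < s → s < i + 1 → s < s0 + ε →
      0 < l → P.V q + (l : ℂ) * (P.γ s - P.V q) ∈ P.C →
      ¬ ‖(l : ℂ) * (P.γ s - P.V q)‖ < ρ := by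
  obtain ⟨heE, ⟨μ, hμ0, hμ1, hμ, -⟩, hi0, hi1, hγ⟩ := P.Piv4_data h
  obtain ⟨ρ, hρ, hC⟩ := P.C_local q
  rw [P.γ_int] at hC
  rw [P.ep_int, P.em_int] at hC
  set e : ℂ := P.γ s0 - P.γ D with he
  set E : ℂ := P.V (i + 1) - P.V i with hE
  -- `cr (γ s - V q) u = (1 - μ) cr e u + (s - s0) cr E u`
  have hcr : ∀ s : ℝ, s0 ≤ s → s ≤ i + 1 → ∀ u : ℂ,
      cr (P.γ s - P.V q) u = (1 - μ) * cr e u + (s - s0) * cr E u := by
    intro s hs hs' u
    have h1 : P.γ s - P.V q = ((1 - μ : ℝ) : ℂ) * e + ((s - s0 : ℝ) : ℂ) * E := by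
      rw [← hμ, ← hγ s hs hs']
      ring
    rw [h1, cr_add_left, cr_mul_left, cr_mul_left]
  have hpos : ∀ u : ℂ, 0 < cr e u → ∃ ε > 0, ∀ s : ℝ, s0 < s → s ≤ i + 1 → s < s0 + ε →
      0 < cr (P.γ s - P.V q) u := by
    intro u hu
    have h1 : 0 < (1 - μ) * cr e u := mul_pos (by linarith) hu
    refine ⟨(1 - μ) * cr e u / (|cr E u| + 1), div_pos h1 (by positivity), ?_⟩
    intro s hs hs' hs2
    rw [hcr s hs.le hs']
    have h2 : (s - s0) * (|cr E u| + 1) < (1 - μ) * cr e u := by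
      rw [← lt_div_iff₀ (by positivity)]
      linarith
    have h3 : -|cr E u| ≤ cr E u := neg_abs_le _
    nlinarith
  obtain ⟨ε1, hε1, h1⟩ := hpos _ h.eml
  have h2 : ∃ ε > 0, ∀ s : ℝ, s0 < s → s < i + 1 → s < s0 + ε → ∀ r : ℝ, 0 < r →
      P.γ s - P.V q ≠ (r : ℂ) * (P.V (q + 1) - P.V q) := by
    rcases lt_or_eq_of_le h.epl with h2 | h2
    · obtain ⟨ε2, hε2, h3⟩ := hpos _ h2
      refine ⟨ε2, hε2, fun s hs hs' hs2 r hr h4 => ?_⟩
      have h5 := h3 s hs hs'.le hs2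
      rw [h4, cr_mul_left, cr_self] at h5
      simp at h5
    · refine ⟨1, one_pos, fun s hs hs' hs2 r hr h4 => ?_⟩
      have h5 : cr e (P.γ s - P.V q) = 0 := by
        rw [h4, cr_mul_right, ← h2, mul_zero]
      have h6 := hcr s hs.le hs'.le e
      rw [cr_self, cr_swap E e, cr_swap (P.γ s - P.V q) e, h5] at h6
      have h7 : 0 < (s - s0) * cr e E := mul_pos (by linarith) heE
      nlinarith
  obtain ⟨ε2, hε2, h2⟩ := h2
  refine ⟨ρ, hρ, min ε1 ε2, lt_min hε1 hε2, fun s l hs hs' hs2 hl hmem hn => ?_⟩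
  have hs3 : s < s0 + ε1 := by linarith [min_le_left ε1 ε2]
  have hs4 : s < s0 + ε2 := by linarith [min_le_right ε1 ε2]
  have hl' : (l : ℂ) ≠ 0 := by exact_mod_cast hl.ne'
  have hdiv : ∀ {t : ℝ} {w : ℂ}, (l : ℂ) * (P.γ s - P.V q) = (t : ℂ) * w →
      P.γ s - P.V q = ((t / l : ℝ) : ℂ) * w := by
    intro t w h3
    push_cast
    field_simp
    linear_combination h3
  rcases (hC _ hn).1 hmem with h3 | ⟨t, ht, h3⟩ | ⟨t, ht, h3⟩
  · rcases mul_eq_zero.1 h3 with h4 | h4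
    · exact hl' h4
    · have h5 := h1 s hs hs'.le hs3
      rw [h4, cr_zero_left] at h5
      exact lt_irrefl _ h5
  · exact h2 s hs hs' hs4 (t / l) (div_pos ht hl) (hdiv h3)
  · have h5 := h1 s hs hs'.le hs3
    rw [hdiv h3, cr_mul_left, cr_self] at h5
    simp at h5

/-- the vertex `q` sees the points of `S` just after `s0` -/
private theorem Piv4_sees (hc : P.CCW) {i j : ℤ} {α β D s0 : ℝ} {q : ℤ}
    (h : P.PreQ i j α β D s0 q) :
    ∃ ε > 0, ∀ s : ℝ, s0 < s → s < s0 + ε → P.Vis (P.V q) (P.γ s) := by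
  by_contra hcon
  push Not at hcon
  obtain ⟨heE, ⟨μ, hμ0, hμ1, hμ, hμ'⟩, hi0, hi1, hγ⟩ := P.Piv4_data h
  have key : ∀ m : ℕ, ∃ s l t : ℝ, s0 < s ∧ s < i + 1 ∧ s < s0 + 1 / ((m : ℝ) + 1) ∧ 0 < l ∧
      l < 1 ∧ s0 ≤ t ∧ t ≤ s0 + n ∧ P.γ t = P.V q + (l : ℂ) * (P.γ s - P.V q) := by
    intro m
    have hm : (0 : ℝ) < 1 / ((m : ℝ) + 1) := by positivity
    obtain ⟨s, hs, hs', hv⟩ := hcon (min (1 / ((m : ℝ) + 1)) (i + 1 - s0))
      (lt_min hm (by linarith))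
    have h1 : s < s0 + 1 / ((m : ℝ) + 1) := by
      linarith [min_le_left (1 / ((m : ℝ) + 1)) (i + 1 - s0)]
    have h2 : s < i + 1 := by
      linarith [min_le_right (1 / ((m : ℝ) + 1)) (i + 1 - s0)]
    obtain ⟨l, t, hl0, hl1, ht, ht', hlt⟩ := P.Piv4_block hc h hs h2 hv
    exact ⟨s, l, t, hs, h2, h1, hl0, hl1, ht, ht', hlt⟩
  choose s l t hs hs' hs2 hl0 hl1 ht ht' hlt using key
  have hcomp : IsCompact (Icc (0 : ℝ) 1 ×ˢ Icc s0 (s0 + n)) := isCompact_Icc.prod isCompact_Icc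
  obtain ⟨⟨L, T⟩, -, φ, hφ, hlim⟩ := hcomp.tendsto_subseq
    (x := fun m => (l m, t m)) (fun m => ⟨⟨(hl0 m).le, (hl1 m).le⟩, ⟨ht m, ht' m⟩⟩)
  have hl : Filter.Tendsto (fun m => l (φ m)) Filter.atTop (𝓝 L) :=
    (continuous_fst.tendsto _).comp hlim
  have htl : Filter.Tendsto (fun m => t (φ m)) Filter.atTop (𝓝 T) :=
    (continuous_snd.tendsto _).comp hlim
  have hsl : Filter.Tendsto s Filter.atTop (𝓝 s0) := by
    have h1 : Filter.Tendsto (fun m : ℕ => s0 + 1 / ((m : ℝ) + 1)) Filter.atTop (𝓝 (s0 + 0)) :=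
      tendsto_const_nhds.add tendsto_one_div_add_atTop_nhds_zero_nat
    rw [add_zero] at h1
    exact tendsto_of_tendsto_of_tendsto_of_le_of_le tendsto_const_nhds h1
      (fun m => (hs m).le) (fun m => (hs2 m).le)
  have hsl' : Filter.Tendsto (fun m => s (φ m)) Filter.atTop (𝓝 s0) := hsl.comp hφ.tendsto_atTop
  have hγs : Filter.Tendsto (fun m => P.γ (s (φ m))) Filter.atTop (𝓝 (P.γ s0)) :=
    (P.γ_cont.tendsto s0).comp hsl'
  have hγt : Filter.Tendsto (fun m => P.γ (t (φ m))) Filter.atTop (𝓝 (P.γ T)) :=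
    (P.γ_cont.tendsto T).comp htl
  have hlC : Filter.Tendsto (fun m => ((l (φ m) : ℝ) : ℂ)) Filter.atTop (𝓝 (L : ℂ)) :=
    (Complex.continuous_ofReal.tendsto L).comp hl
  have hd : Filter.Tendsto (fun m => ((l (φ m) : ℝ) : ℂ) * (P.γ (s (φ m)) - P.V q)) Filter.atTop
      (𝓝 ((L : ℂ) * (P.γ s0 - P.V q))) := hlC.mul (hγs.sub tendsto_const_nhds)
  have hdd : Filter.Tendsto (fun m => P.V q + ((l (φ m) : ℝ) : ℂ) * (P.γ (s (φ m)) - P.V q))
      Filter.atTop (𝓝 (P.V q + (L : ℂ) * (P.γ s0 - P.V q))) := tendsto_const_nhds.add hd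
  have hT : P.γ T = P.V q + (L : ℂ) * (P.γ s0 - P.V q) := by
    refine tendsto_nhds_unique hγt (hdd.congr fun m => ?_)
    exact (hlt (φ m)).symm
  have hL0 : 0 ≤ L := ge_of_tendsto' hl fun m => (hl0 _).le
  have hL1 : L ≤ 1 := le_of_tendsto' hl fun m => (hl1 _).le
  rcases eq_or_lt_of_le hL0 with hL | hL0'
  · -- limit `V q`
    obtain ⟨ρ, hρ, ε, hε, hq⟩ := P.Piv4_near_q h
    have h1 : Filter.Tendsto (fun m => ‖((l (φ m) : ℝ) : ℂ) * (P.γ (s (φ m)) - P.V q)‖)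
        Filter.atTop (𝓝 0) := by
      have := hd.norm
      rw [← hL] at this
      simpa using this
    have h2 := h1.eventually (gt_mem_nhds hρ)
    have h3 := hsl'.eventually (gt_mem_nhds (show s0 < s0 + ε by linarith))
    obtain ⟨m, hm1, hm2⟩ := (h2.and h3).exists
    refine hq (s (φ m)) (l (φ m)) (hs _) (hs' _) hm2 (hl0 _) ?_ hm1
    rw [← hlt]
    exact P.γ_mem_C _
  rcases eq_or_lt_of_le hL1 with hL | hL1'
  · -- limit `γ s0`
    obtain ⟨ρ, hρ, hq⟩ := P.Piv4_near_s0 hc h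
    have h1 : Filter.Tendsto
        (fun m => ‖P.V q + ((l (φ m) : ℝ) : ℂ) * (P.γ (s (φ m)) - P.V q) - P.γ s0‖)
        Filter.atTop (𝓝 0) := by
      have := (hdd.sub (tendsto_const_nhds (x := P.γ s0))).norm
      rw [hL] at this
      simpa using this
    obtain ⟨m, hm⟩ := (h1.eventually (gt_mem_nhds hρ)).exists
    refine hq (s (φ m)) (l (φ m)) (hs _) (hs' _) (hl0 _) (hl1 _) ?_ hm
    rw [← hlt]
    exact P.γ_mem_C _
  -- limit in the open segment
  set e : ℂ := P.γ s0 - P.γ D with he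
  set E : ℂ := P.V (i + 1) - P.V i with hE
  have he0 : e ≠ 0 := by
    intro h0
    rw [h0, cr_zero_left] at heE
    exact lt_irrefl _ heE
  -- parameter of `γ T` on `L`
  have hTD : P.γ T = P.γ D + ((μ + L * (1 - μ) : ℝ) : ℂ) * e := by
    have h1 : P.V q = P.γ D + (μ : ℂ) * e := by rw [← hμ']; ring
    rw [hT, hμ, h1]
    push_cast
    ring
  have hlam0 : μ < μ + L * (1 - μ) := by
    have : 0 < L * (1 - μ) := mul_pos hL0' (by linarith)
    linarith
  have hlam1 : μ + L * (1 - μ) < 1 := by nlinarith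
  have hTseg : P.γ T ∈ segment ℝ (P.γ D) (P.γ s0) := by
    rw [segment_eq_image']
    refine ⟨μ + L * (1 - μ), ⟨by linarith, hlam1.le⟩, ?_⟩
    rw [hTD]
    simp only [Complex.real_smul, he]
  have huniq : ∀ a b : ℝ, P.γ D + (a : ℂ) * e = P.γ D + (b : ℂ) * e → a = b := by
    intro a b hab
    have h1 : (a : ℂ) * e = (b : ℂ) * e := add_left_cancel hab
    have h2 := mul_right_cancel₀ he0 h1
    exact_mod_cast h2
  have hTne : P.γ T ≠ P.γ s0 := by
    intro h0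
    have h1 : P.γ s0 = P.γ D + ((1 : ℝ) : ℂ) * e := by rw [he]; push_cast; ring
    rw [hTD, h1] at h0
    have := huniq _ _ h0
    linarith
  have hTneD : P.γ T ≠ P.γ D := by
    intro h0
    have h1 : P.γ D = P.γ D + ((0 : ℝ) : ℂ) * e := by push_cast; ring
    rw [hTD] at h0
    have := huniq _ _ (h0.trans h1)
    linarith
  have hT0 : s0 ≤ T := ge_of_tendsto' htl fun m => ht _
  have hT1 : T ≤ s0 + n := le_of_tendsto' htl fun m => ht' _
  have hT0' : s0 < T := lt_of_le_of_ne hT0 (fun h0 => hTne (by rw [h0]))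
  have hT1' : T < s0 + n := lt_of_le_of_ne hT1 (fun h0 => hTne (by rw [h0, P.γ_add_n]))
  rcases lt_trichotomy T D with hTD1 | hTD1 | hTD1
  · -- left contact
    have h1 := h.leftc T hT0' hTD1 hTseg
    rw [segment_eq_image'] at h1
    obtain ⟨ν, ⟨hν0, hν1⟩, hν⟩ := h1
    have h2 : P.γ T = P.γ D + ((ν * μ : ℝ) : ℂ) * e := by
      rw [← hν]
      simp only [Complex.real_smul]
      rw [hμ']
      push_cast
      ring
    rw [hTD] at h2
    have h3 := huniq _ _ h2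
    nlinarith
  · exact hTneD (by rw [hTD1])
  · -- right contact
    obtain ⟨ρ, hρ, hr⟩ := P.right_weak hc h.pre hTD1 hT1' hTseg
    have h1 : ∀ᶠ m in Filter.atTop, |t (φ m) - T| < ρ := by
      have := htl.eventually (Metric.ball_mem_nhds T hρ)
      filter_upwards [this] with m hm
      have h2 : dist (t (φ m)) T < ρ := hm
      rwa [Real.dist_eq] at h2
    obtain ⟨m, hm⟩ := h1.exists
    have h2 := hr _ hm
    have h3 : P.γ (t (φ m)) - P.γ D = ((μ + l (φ m) * (1 - μ) : ℝ) : ℂ) * e +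
        ((l (φ m) * (s (φ m) - s0) : ℝ) : ℂ) * E := by
      have h4 : P.V q = P.γ D + (μ : ℂ) * e := by rw [← hμ']; ring
      have h5 : P.γ (s (φ m)) - P.V q = ((1 - μ : ℝ) : ℂ) * e + ((s (φ m) - s0 : ℝ) : ℂ) * E := by
        rw [← hμ, ← hγ _ (hs _).le (hs' _).le]
        ring
      rw [hlt, h5, h4]
      push_cast
      ring
    rw [h3, cr_add_right, cr_mul_right, cr_mul_right, cr_self, mul_zero, zero_add] at h2
    have h4 : 0 < l (φ m) * (s (φ m) - s0) * cr e E :=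
      mul_pos (mul_pos (hl0 _) (by linarith [hs (φ m)])) heE
    linarith

theorem preQ_p4 (hc : P.CCW) {i j : ℤ} {α β D s0 : ℝ} {q : ℤ} (h : P.PreQ i j α β D s0 q) :
    ∃ s ∈ Ioo α β, ∃ ε > 0, ∀ x : ℝ, (q : ℝ) - ε < x → x < q → P.Vis (P.γ x) (P.γ s) := by
  obtain ⟨heE, ⟨μ, hμ0, hμ1, hμ, -⟩, hi0, hi1, hγ⟩ := P.Piv4_data h
  obtain ⟨ε, hε, hv⟩ := P.Piv4_sees hc h
  have hcont : Continuous fun s : ℝ => cr (P.γ s - P.V q) (P.V (q - 1) - P.V q) := by
    have h1 : Continuous fun s : ℝ => ((P.γ s - P.V q, P.V (q - 1) - P.V q) : ℂ × ℂ) :=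
      (P.γ_cont.sub continuous_const).prodMk continuous_const
    exact cr_continuous.comp h1
  have hs0 : 0 < cr (P.γ s0 - P.V q) (P.V (q - 1) - P.V q) := by
    rw [hμ, cr_mul_left]
    exact mul_pos (by linarith) h.eml
  have hev := (hcont.tendsto s0).eventually (lt_mem_nhds hs0)
  obtain ⟨δ, hδ, hb⟩ := Metric.eventually_nhds_iff.1 hev
  set r : ℝ := min (min ε δ) (β - s0) / 2 with hr
  have hr0 : 0 < min (min ε δ) (β - s0) :=
    lt_min (lt_min hε hδ) (by linarith [h.pre.sβ])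
  have hr1 : min (min ε δ) (β - s0) ≤ ε := (min_le_left _ _).trans (min_le_left _ _)
  have hr2 : min (min ε δ) (β - s0) ≤ δ := (min_le_left _ _).trans (min_le_right _ _)
  have hr3 : min (min ε δ) (β - s0) ≤ β - s0 := min_le_right _ _
  have hrp : 0 < r := by rw [hr]; linarith
  have hv1 : P.Vis (P.γ (q : ℝ)) (P.γ (s0 + r)) := by
    rw [P.γ_int]
    exact hv _ (by linarith) (by linarith)
  refine ⟨s0 + r, ⟨by linarith [h.pre.αs], by linarith⟩, ?_⟩
  refine P.vis_before hc hv1 ?_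
  rw [P.γ_int, P.em_int]
  refine hb ?_
  rw [Real.dist_eq, add_sub_cancel_left, abs_of_pos hrp]
  linarith

end Poly

end Pool.Agent.Lib_PL
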