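import Pool.Agent.Lib_PL.TransE
import Pool.Agent.Lib_PL.SideB

/-!
`D` is strictly left of edge `i` (here the hook `(σ, g)` is used).

`0 ≤ cr` by the limit.  If `cr = 0`: (1) `γ D - γ s0` is a negative multiple of the direction of edge `i`: the
points `y` of `approx` are strictly left of edge `i` but (by `tE`) strictly on the other side of the line
through `γ D` and `γ s0`; contradiction.  (2) positive multiple: vertex `i+1` is on the segment.  If `σ = s0` replace
`σ` by a nearby point (`vis_open_end`).  If `σ < s0` the chords `σ g` and `s y` interleave, so they cross; the crossing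
point converges to a point of the closed chord `σ g` on the line of edge `i`, that is to `γ σ` (`Vis.left'`), which is
not on the segment `γ D, γ s0`.  If `s0 < σ` the chord `σ g` is nested in the chords `s y` of `approx` (`s < σ < g < y`),
so they are disjoint (`nest_chords`); but the chord `σ g` leaves the line of edge `i` to the left at the point
`γ σ`, which is strictly between `γ s` and vertex `i+1`, while the chords `s y` converge to the segment `γ s0, γ D` on
this line from the left, so for a good approximation a point of the chord `σ g` is strictly right and `γ σ` strictly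
left of the line directed from `γ y` to `γ s`, and they cross inside the chord `s y`: contradiction.
-/

open Set Complex
open scoped Topology

namespace Pool.Agent.Lib_PL

namespace Poly

variable {n : ℕ} (P : Poly n)

private theorem transF_ej {i j : ℤ} {α β D s0 : ℝ} (h : P.PreP i j α β D s0) (y : ℝ)
    (hy : (j : ℝ) ≤ y) (hy' : y ≤ j + 1) :
    P.γ y = P.γ D + ((y - D : ℝ) : ℂ) * (P.V (j + 1) - P.V j) := by
  have := P.γ_sub j D y h.jD.le h.Dj.le hy hy'
  rw [← this]; ring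

private theorem transF_ei {i j : ℤ} {α β D s0 : ℝ} (h : P.PreP i j α β D s0) (s : ℝ)
    (hs : (i : ℝ) ≤ s) (hs' : s ≤ i + 1) :
    P.γ s = P.γ s0 + ((s - s0 : ℝ) : ℂ) * (P.V (i + 1) - P.V i) := by
  have := P.γ_sub i s0 s (h.iα.trans h.αs) (h.sβ.le.trans h.βi) hs hs'
  rw [← this]; ring

/-- order facts -/
private theorem transF_ord {P : Poly n} {i j : ℤ} {α β D s0 : ℝ} (h : P.PreP i j α β D s0) :
    (i : ℝ) ≤ s0 ∧ s0 < (i : ℝ) + 1 ∧ (i : ℝ) + 1 ≤ j ∧ (j : ℝ) + 1 ≤ i + n := by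
  have h1 : (i : ℝ) + 1 ≤ j := by exact_mod_cast h.ij
  have h2 : (j : ℝ) + 1 ≤ i + n := by exact_mod_cast h.ji
  have h3 := h.iα
  have h4 := h.αs
  have h5 := h.sβ
  have h6 := h.βi
  exact ⟨by linarith, by linarith, h1, h2⟩

/-- the start of the proof: the limit of the approximating chords -/
private theorem transF_start (hc : P.CCW) {i j : ℤ} {α β D s0 : ℝ} (h : P.PreP i j α β D s0)
    (hn : ¬ 0 < cr (P.V (i + 1) - P.V i) (P.γ D - P.γ s0)) :
    0 < cr (P.V (i + 1) - P.V i) (P.V (j + 1) - P.V j) ∧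
      ∃ t : ℝ, (i : ℝ) + 1 - s0 < t ∧ P.γ D - P.γ s0 = (t : ℂ) * (P.V (i + 1) - P.V i) := by
  obtain ⟨o1, o2, o3, o4⟩ := transF_ord h
  have htE := P.preP_tE hc h
  set E : ℂ := P.V (j + 1) - P.V j with hE
  set F : ℂ := P.V (i + 1) - P.V i with hF
  have hF0 : F ≠ 0 := sub_ne_zero.2 (P.V_ne i).symm
  have key : ∀ ε > 0, ∃ y : ℝ, D < y ∧ y < D + ε ∧
      0 < cr F (P.γ D - P.γ s0) + (y - D) * cr F E := by
    intro ε hε
    obtain ⟨s, y, h1, h2, h3, h4, h5, h6, hv⟩ := h.approx ε hε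
    refine ⟨y, h4, h5, ?_⟩
    have h7 := Vis.left' hc (i := i) (lt_of_le_of_lt o1 h1) (lt_of_lt_of_le h3 h.βi) hv
    rw [← hF, P.transF_ej h y (h.jD.trans h4).le h6.le,
      P.transF_ei h s (o1.trans h1.le) (h3.le.trans h.βi), ← hE, ← hF] at h7
    have e : P.γ D + ((y - D : ℝ) : ℂ) * E - (P.γ s0 + ((s - s0 : ℝ) : ℂ) * F) =
        (P.γ D - P.γ s0) + ((y - D : ℝ) : ℂ) * E - ((s - s0 : ℝ) : ℂ) * F := by ring
    rw [e, cr_sub_right, cr_add_right, cr_mul_right, cr_mul_right, cr_self] at h7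
    linarith
  have hA : cr F (P.γ D - P.γ s0) ≤ 0 := not_lt.1 hn
  have hB : 0 < cr F E := by
    obtain ⟨y, h1, _, h3⟩ := key 1 one_pos
    by_contra hb
    push Not at hb
    nlinarith
  refine ⟨hB, ?_⟩
  have hA0 : cr F (P.γ D - P.γ s0) = 0 := by
    by_contra hne
    have hlt : cr F (P.γ D - P.γ s0) < 0 := lt_of_le_of_ne hA hne
    obtain ⟨y, h1, h2, h3⟩ := key (-cr F (P.γ D - P.γ s0) / cr F E) (div_pos (neg_pos.2 hlt) hB)
    have h4 : (y - D) * cr F E < -cr F (P.γ D - P.γ s0) := by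
      rw [← lt_div_iff₀ hB]; linarith
    linarith
  obtain ⟨t, ht⟩ := cr_eq_zero hF0 hA0
  refine ⟨t, ?_, ht⟩
  have ht0 : 0 < t := by
    have e : P.γ s0 - P.γ D = -((t : ℂ) * F) := by rw [← ht]; ring
    rw [e, cr_neg_right, cr_mul_right, cr_swap] at htE
    by_contra hcon
    push Not at hcon
    have := mul_nonneg (neg_nonneg.2 hcon) hB.le
    nlinarith
  by_contra hcon
  push Not at hcon
  have e1 : P.γ (s0 + t) = P.γ D := by
    rw [P.transF_ei h (s0 + t) (by linarith) (by linarith), ← hF]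
    have e2 : ((s0 + t - s0 : ℝ) : ℂ) * F = P.γ D - P.γ s0 := by
      rw [ht]; congr 1; push_cast; ring
    rw [e2]; ring
  have hn3 : (3 : ℝ) ≤ n := by exact_mod_cast P.three_le
  have hjD := h.jD
  have hDj := h.Dj
  have := P.γ_inj' e1 (c := (i : ℝ)) (by linarith) (by linarith) (by linarith) (by linarith)
  linarith

/-- the hook starts before `s0`: the chords interleave -/
private theorem transF_before (hc : P.CCW) {i j : ℤ} {α β D s0 : ℝ} (h : P.PreP i j α β D s0)
    {σ g : ℝ} (hσ : σ ∈ Ioo α β) (hg : (i : ℝ) + 1 < g) (hg' : g < j) (hv : P.Vis (P.γ σ) (P.γ g))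
    {t : ℝ} (ht : (i : ℝ) + 1 - s0 < t) (hB : 0 < cr (P.V (i + 1) - P.V i) (P.V (j + 1) - P.V j))
    (hs : P.γ D - P.γ s0 = (t : ℂ) * (P.V (i + 1) - P.V i)) (hlt : σ < s0) : False := by
  obtain ⟨o1, o2, o3, o4⟩ := transF_ord h
  have hiα := h.iα
  have hβi := h.βi
  have hjD := h.jD
  have hDj := h.Dj
  have hκ := Vis.left' hc (i := i) (by linarith [hσ.1]) (by linarith [hσ.2]) hv
  set E : ℂ := P.V (j + 1) - P.V j with hE
  set F : ℂ := P.V (i + 1) - P.V i with hF
  set G : ℂ := P.γ g - P.γ σ with hG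
  set κ : ℝ := cr F G with hκd
  set e : ℝ := cr F E with hed
  have hK0 : 0 < |cr E G| + 1 := by positivity
  have hs0σ : 0 < s0 - σ := by linarith
  obtain ⟨s, y, h1, h2, h3, h4, h5, h6, hv'⟩ := h.approx ((s0 - σ) * κ / (|cr E G| + 1))
    (by positivity)
  obtain ⟨c, hc1, hc2, -⟩ := P.cross_chords hc (a := σ) (b := g) (x := s) (y := y) (by linarith)
    (by linarith) (by linarith) (by linarith [hσ.1]) hv hv'
  rw [openSegment_eq_image'] at hc1 hc2
  obtain ⟨l, ⟨hl0, hl1⟩, hcl⟩ := hc1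
  obtain ⟨m, ⟨hm0, hm1⟩, hcm⟩ := hc2
  simp only [Complex.real_smul] at hcl hcm
  rw [← hG] at hcl
  have ey : P.γ y = P.γ D + ((y - D : ℝ) : ℂ) * E := P.transF_ej h y (by linarith) (by linarith)
  have es : P.γ s = P.γ s0 + ((s - s0 : ℝ) : ℂ) * F := P.transF_ei h s (by linarith) (by linarith)
  have eσ : P.γ σ = P.γ s0 + ((σ - s0 : ℝ) : ℂ) * F :=
    P.transF_ei h σ (by linarith [hσ.1]) (by linarith [hσ.2])
  have eD : P.γ D = P.γ s0 + (t : ℂ) * F := by rw [← hs]; ring
  have heq : ((σ - s0 : ℝ) : ℂ) * F + (l : ℂ) * G =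
      ((s - s0 : ℝ) : ℂ) * F + (m : ℂ) * (((t - (s - s0) : ℝ) : ℂ) * F + ((y - D : ℝ) : ℂ) * E) := by
    have h7 := hcl.trans hcm.symm
    rw [ey, es, eσ, eD] at h7
    push_cast at h7 ⊢
    linear_combination h7
  have c1 : l * κ = m * ((y - D) * e) := by
    have h7 := congrArg (cr F) heq
    simp only [cr_add_right, cr_mul_right, cr_self] at h7
    rw [← hκd, ← hed] at h7
    linarith
  have c2 : (s0 - σ) * e + l * cr E G = -((s - s0) + m * (t - (s - s0))) * e := by
    have h7 := congrArg (cr E) heq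
    simp only [cr_add_right, cr_mul_right, cr_self] at h7
    have h8 : cr E F = -e := by rw [hed]; exact cr_swap E F
    rw [h8] at h7
    linarith
  have c3 : 0 < (s - s0) + m * (t - (s - s0)) := by
    have : 0 < m * (t - (s - s0)) := mul_pos hm0 (by linarith)
    linarith
  have c4 : (s0 - σ) * e < l * |cr E G| := by
    have h7 : -(l * cr E G) ≤ l * |cr E G| := by
      have := neg_abs_le (cr E G)
      nlinarith
    have h8 := mul_pos c3 hB
    linarith
  have c5 : l * κ ≤ (y - D) * e := by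
    rw [c1]
    have : 0 < (y - D) * e := mul_pos (by linarith) hB
    nlinarith
  have c6 : (y - D) * (|cr E G| + 1) < (s0 - σ) * κ := by
    rw [← lt_div_iff₀ hK0]; linarith
  -- combine
  have c7 : (s0 - σ) * e * κ < (l * κ) * |cr E G| := by nlinarith
  have c8 : (l * κ) * |cr E G| ≤ (y - D) * e * |cr E G| :=
    mul_le_mul_of_nonneg_right c5 (abs_nonneg _)
  have c9 : (y - D) * |cr E G| ≤ (y - D) * (|cr E G| + 1) := by nlinarith
  have c10 : (y - D) * |cr E G| * e < (s0 - σ) * κ * e :=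
    mul_lt_mul_of_pos_right (by linarith) hB
  nlinarith

/-- the hook starts after `s0`: the chords are nested -/
private theorem transF_after (hc : P.CCW) {i j : ℤ} {α β D s0 : ℝ} (h : P.PreP i j α β D s0)
    {σ g : ℝ} (hσ : σ ∈ Ioo α β) (hg : (i : ℝ) + 1 < g) (hg' : g < j) (hv : P.Vis (P.γ σ) (P.γ g))
    {t : ℝ} (ht : (i : ℝ) + 1 - s0 < t) (hB : 0 < cr (P.V (i + 1) - P.V i) (P.V (j + 1) - P.V j))
    (hs : P.γ D - P.γ s0 = (t : ℂ) * (P.V (i + 1) - P.V i)) (hlt : s0 < σ) : False := by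
  obtain ⟨o1, o2, o3, o4⟩ := transF_ord h
  have hiα := h.iα
  have hβi := h.βi
  have hjD := h.jD
  have hDj := h.Dj
  have hκ := Vis.left' hc (i := i) (by linarith [hσ.1]) (by linarith [hσ.2]) hv
  set E : ℂ := P.V (j + 1) - P.V j with hE
  set F : ℂ := P.V (i + 1) - P.V i with hF
  set G : ℂ := P.γ g - P.γ σ with hG
  set κ : ℝ := cr F G with hκd
  set e : ℝ := cr F E with hed
  set r : ℝ := cr G E / κ with hr
  have hη : 0 < t - (σ - s0) := by linarith [hσ.2]
  obtain ⟨s, y, h1, h2, h3, h4, h5, h6, hv'⟩ := h.approx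
    (min (σ - s0) (min ((t - (σ - s0)) / (|r| + 1)) (κ / e)))
    (lt_min (by linarith) (lt_min (by positivity) (div_pos hκ hB)))
  have m1 : min (σ - s0) (min ((t - (σ - s0)) / (|r| + 1)) (κ / e)) ≤ σ - s0 := min_le_left _ _
  have m2 : min (σ - s0) (min ((t - (σ - s0)) / (|r| + 1)) (κ / e)) ≤
      (t - (σ - s0)) / (|r| + 1) := (min_le_right _ _).trans (min_le_left _ _)
  have m3 : min (σ - s0) (min ((t - (σ - s0)) / (|r| + 1)) (κ / e)) ≤ κ / e :=
    (min_le_right _ _).trans (min_le_right _ _)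
  have hsσ : s < σ := by linarith
  have hd := P.nest_chords hc (a := s) (b := y) (x := σ) (y := g) hsσ (by linarith [hσ.2])
    (by linarith) (by linarith) hv' hv
  set δ : ℝ := y - D with hδ
  have hδ0 : 0 < δ := by linarith
  have d1 : δ * (|r| + 1) < t - (σ - s0) := by
    rw [← lt_div_iff₀ (by positivity)]; linarith
  have d2 : δ * e < κ := by
    rw [← lt_div_iff₀ hB]; linarith
  have d3 : δ * r < t - (σ - s0) := by
    have : δ * r ≤ δ * |r| := mul_le_mul_of_nonneg_left (le_abs_self r) hδ0.le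
    nlinarith
  have den : σ - s < t - (s - s0) - δ * r := by linarith
  have den0 : 0 < t - (s - s0) - δ * r := by linarith
  set τ : ℝ := (σ - s) / (t - (s - s0) - δ * r) with hτ
  have hτ0 : 0 < τ := div_pos (by linarith) den0
  have hτ1 : τ < 1 := by rw [hτ, div_lt_one den0]; exact den
  have hτe : τ * (t - (s - s0) - δ * r) = σ - s := by
    rw [hτ, div_mul_cancel₀ _ den0.ne']
  set l : ℝ := τ * δ * e / κ with hl
  have hl0 : 0 < l := by positivity
  have hl1 : l < 1 := by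
    rw [hl, div_lt_one hκ]
    have : τ * (δ * e) < 1 * κ := by
      have h7 : τ * (δ * e) < 1 * (δ * e) := mul_lt_mul_of_pos_right hτ1 (mul_pos hδ0 hB)
      linarith
    linarith
  have ey : P.γ y = P.γ D + ((δ : ℝ) : ℂ) * E := P.transF_ej h y (by linarith) (by linarith)
  have es : P.γ s = P.γ s0 + ((s - s0 : ℝ) : ℂ) * F := P.transF_ei h s (by linarith) (by linarith)
  have eσ : P.γ σ = P.γ s0 + ((σ - s0 : ℝ) : ℂ) * F :=
    P.transF_ei h σ (by linarith [hσ.1]) (by linarith [hσ.2])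
  have eD : P.γ D = P.γ s0 + (t : ℂ) * F := by rw [← hs]; ring
  have eG : P.γ g = P.γ σ + G := by rw [hG]; ring
  have hGd : (e : ℂ) * G = (cr G E : ℂ) * F + (κ : ℂ) * E := by
    have h7 := cr_dep F E G
    have h8 : cr E G = -cr G E := cr_swap E G
    have h9 : cr G F = -κ := by rw [hκd]; exact cr_swap G F
    rw [h8, h9, ← hed] at h7
    push_cast at h7
    linear_combination h7
  have hκc : (κ : ℂ) ≠ 0 := by exact_mod_cast hκ.ne'
  have hcGE : cr G E = r * κ := by rw [hr, div_mul_cancel₀ _ hκ.ne']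
  have hlk : (l : ℂ) * κ = τ * δ * e := by
    have : l * κ = τ * δ * e := by rw [hl, div_mul_cancel₀ _ hκ.ne']
    exact_mod_cast this
  have hlG : (l : ℂ) * G = (τ : ℂ) * δ * (r * F + E) := by
    have h7 : (κ : ℂ) * ((l : ℂ) * G) = (κ : ℂ) * ((τ : ℂ) * δ * (r * F + E)) := by
      rw [hcGE] at hGd
      push_cast at hGd
      linear_combination G * hlk + (τ : ℂ) * δ * hGd
    exact mul_left_cancel₀ hκc h7
  have hτe' : (τ : ℂ) * (t - (s - s0) - δ * r) = σ - s := by exact_mod_cast hτe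
  have hd' := Set.disjoint_left.1 hd
  refine @hd' (P.γ s + (τ : ℂ) * (P.γ y - P.γ s)) ?_ ?_
  · rw [segment_eq_image']
    exact ⟨τ, ⟨hτ0.le, hτ1.le⟩, by simp only [Complex.real_smul]⟩
  · rw [segment_eq_image']
    refine ⟨l, ⟨hl0.le, hl1.le⟩, ?_⟩
    simp only [Complex.real_smul]
    rw [eG, add_sub_cancel_left, hlG, ey, eD, es, eσ]
    push_cast
    linear_combination (-F) * hτe'

theorem preP_tF (hc : P.CCW) {i j : ℤ} {α β D s0 : ℝ} (h : P.PreP i j α β D s0)
    {σ g : ℝ} (hσ : σ ∈ Ioo α β) (hg : (i : ℝ) + 1 < g) (hg' : g < j) (hv : P.Vis (P.γ σ) (P.γ g)) :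
    0 < cr (P.V (i + 1) - P.V i) (P.γ D - P.γ s0) := by
  by_contra hn
  obtain ⟨hB, t, ht, hs⟩ := P.transF_start hc h hn
  rcases lt_trichotomy σ s0 with h1 | h1 | h1
  · exact P.transF_before hc h hσ hg hg' hv ht hB hs h1
  · have hNI : NI σ := (NI_of_Ioo (lt_of_le_of_lt h.iα hσ.1) (lt_of_lt_of_le hσ.2 h.βi)).1
    obtain ⟨ε, hε, hop⟩ := P.vis_open_end hc hNI hv.symm
    have hσβ := hσ.2
    have hm : 0 < min (ε / 2) ((β - σ) / 2) := lt_min (by linarith) (by linarith)
    have e1 : min (ε / 2) ((β - σ) / 2) ≤ ε / 2 := min_le_left _ _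
    have e2 : min (ε / 2) ((β - σ) / 2) ≤ (β - σ) / 2 := min_le_right _ _
    set μ := min (ε / 2) ((β - σ) / 2) with hμ
    have hv2 : P.Vis (P.γ g) (P.γ (σ + μ)) := by
      apply hop
      rw [add_sub_cancel_left, abs_of_pos hm]; linarith
    exact P.transF_after hc h (σ := σ + μ) ⟨by linarith [hσ.1], by linarith⟩ hg hg' hv2.symm ht hB hs
      (by linarith)
  · exact P.transF_after hc h hσ hg hg' hv ht hB hs h1

end Poly

end Pool.Agent.Lib_PL
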