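import Pool.Agent.Lib_PL.Piv1
import Pool.Agent.Lib_PL.Piv3
import Pool.Agent.Lib_PL.Piv4
import Pool.Agent.Lib_PL.TransF

/-!
The pivot lemma (assembly).  `g < q` from (p1): `g` sees `σ ∈ S`, so `g` is not in `(q, D]`.
-/

open Set Complex
open scoped Topology

namespace Pool.Agent.Lib_PL

namespace Poly

variable {n : ℕ} (P : Poly n)

theorem pivot (hc : P.CCW) {i j : ℤ} (ij : i < j) (ji : j < i + n) {α β y0 : ℝ}
    (iα : (i : ℝ) ≤ α) (αβ : α < β) (βi : β ≤ i + 1) (hy0 : (j : ℝ) < y0)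
    (hnear : ∀ y : ℝ, (j : ℝ) < y → y < y0 → ∀ s ∈ Ioo α β, ¬ P.Vis (P.γ s) (P.γ y))
    (hex : ∃ s ∈ Ioo α β, ∃ y ∈ Ioo (j : ℝ) (j + 1), P.Vis (P.γ s) (P.γ y))
    {σ g : ℝ} (hσ : σ ∈ Ioo α β) (hg : (i : ℝ) + 1 < g) (hg' : g < j) (hgN : NI g)
    (hv : P.Vis (P.γ σ) (P.γ g)) :
    ∃ (D s0 : ℝ) (q : ℤ), P.Pivot i j α β D s0 q ∧ y0 ≤ D ∧ g < q := by
  obtain ⟨D, s0, hP, hD⟩ := P.preP_exists hc ij ji iα αβ βi hy0 hnear hex
  have tE := P.preP_tE hc hP
  have tF := P.preP_tF hc hP hσ hg hg' hv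
  obtain ⟨q, hQ⟩ := P.preQ_exists hc hP tF
  have hpiv : P.Pivot i j α β D s0 q :=
    { ij := hP.ij
      ji := hP.ji
      iα := hP.iα
      βi := hP.βi
      jD := hP.jD
      Dj := hP.Dj
      αs := hP.αs
      sβ := hP.sβ
      iq := hQ.iq
      qj := hQ.qj
      Dinf := hP.Dinf
      sinf := hP.sinf
      approx := hP.approx
      LR := hP.LR
      tE := tE
      tF := tF
      onL := hQ.onL
      epl := hQ.epl
      eml := hQ.eml
      p1 := P.preQ_p1 hc hQ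
      p2 := P.preQ_p2 hc hQ
      p3 := P.preQ_p3 hc hQ
      p4 := P.preQ_p4 hc hQ }
  refine ⟨D, s0, q, hpiv, hD, ?_⟩
  by_contra hcon
  have h1 : (q : ℝ) < g := lt_of_le_of_ne (not_lt.1 hcon) (hgN q)
  exact hpiv.p1 σ hσ g h1 ((hg'.trans hP.jD).le) hv

/-- for any pivot the hook is before `q` -/
theorem Pivot.hook_lt {P : Poly n} {i j : ℤ} {α β D s0 : ℝ} {q : ℤ} (h : P.Pivot i j α β D s0 q)
    {σ g : ℝ} (hσ : σ ∈ Ioo α β) (hg' : g < j) (hgN : NI g) (hv : P.Vis (P.γ σ) (P.γ g)) :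
    g < q := by
  by_contra hcon
  have h1 : (q : ℝ) < g := lt_of_le_of_ne (not_lt.1 hcon) (hgN q)
  exact h.p1 σ hσ g h1 ((hg'.trans h.jD).le) hv

/-- shift of a pivot by a multiple of `n` -/
theorem Pivot.shift {P : Poly n} {i j : ℤ} {α β D s0 : ℝ} {q : ℤ} (h : P.Pivot i j α β D s0 q)
    (m : ℤ) : P.Pivot (i + m * n) (j + m * n) (α + m * n) (β + m * n) (D + m * n) (s0 + m * n)
      (q + m * n) := by
  have hγ : ∀ x : ℝ, P.γ x = P.γ (x - m * n) := by
    intro x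
    have h1 := P.γ_add_mul (x - m * n) m
    rw [sub_add_cancel] at h1
    exact h1
  have hγ' : ∀ x : ℝ, P.γ (x + m * n) = P.γ x := fun x => P.γ_add_mul x m
  have hV : ∀ k : ℤ, P.V (k + m * n) = P.V k := fun k => P.V_add_mul k m
  have hV1 : ∀ k : ℤ, P.V (k + m * n + 1) = P.V (k + 1) := by
    intro k
    have h1 := P.V_add_mul (k + 1) m
    have h2 : k + 1 + m * n = k + m * n + 1 := by ring
    rw [h2] at h1
    exact h1
  have hV2 : ∀ k : ℤ, P.V (k + m * n - 1) = P.V (k - 1) := by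
    intro k
    have h1 := P.V_add_mul (k - 1) m
    have h2 : k - 1 + m * n = k + m * n - 1 := by ring
    rw [h2] at h1
    exact h1
  have hc1 : ∀ k : ℤ, ((k + m * n : ℤ) : ℝ) = (k : ℝ) + m * n := by
    intro k
    push_cast
    ring
  have mem : ∀ s : ℝ, s ∈ Ioo (α + m * n) (β + m * n) → s - m * n ∈ Ioo α β := by
    intro s hs
    exact ⟨by linarith [hs.1], by linarith [hs.2]⟩
  have mem' : ∀ s : ℝ, s ∈ Ioo α β → s + m * n ∈ Ioo (α + m * n) (β + m * n) := by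
    intro s hs
    exact ⟨by linarith [hs.1], by linarith [hs.2]⟩
  refine
    { ij := by linarith [h.ij]
      ji := by linarith [h.ji]
      iα := by rw [hc1]; linarith [h.iα]
      βi := by rw [hc1]; linarith [h.βi]
      jD := by rw [hc1]; linarith [h.jD]
      Dj := by rw [hc1]; linarith [h.Dj]
      αs := by linarith [h.αs]
      sβ := by linarith [h.sβ]
      iq := by linarith [h.iq]
      qj := by linarith [h.qj]
      Dinf := ?_
      sinf := ?_
      approx := ?_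
      LR := ?_
      tE := ?_
      tF := ?_
      onL := ?_
      epl := ?_
      eml := ?_
      p1 := ?_
      p2 := ?_
      p3 := ?_
      p4 := ?_ }
  · intro s hs y hy hy'
    rw [hc1] at hy
    rw [hγ s, hγ y]
    exact h.Dinf _ (mem s hs) _ (by linarith) (by linarith)
  · intro s hs hs' y hy
    rw [hc1] at hy
    rw [hγ s, hγ y]
    exact h.sinf _ (by linarith) (by linarith) _ ⟨by linarith [hy.1], by linarith [hy.2]⟩
  · intro ε hε
    obtain ⟨s, y, h1, h2, h3, h4, h5, h6, h7⟩ := h.approx ε hε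
    refine ⟨s + m * n, y + m * n, by linarith, by linarith, by linarith, by linarith, by linarith,
      ?_, ?_⟩
    · rw [hc1]; linarith
    · rw [hγ', hγ']
      exact h7
  · rw [hγ', hγ']
    exact h.LR
  · rw [hV, hV1, hγ', hγ']
    exact h.tE
  · rw [hV, hV1, hγ', hγ']
    exact h.tF
  · rw [hV, hγ', hγ']
    exact h.onL
  · rw [hV, hV1, hγ', hγ']
    exact h.epl
  · rw [hV, hV2, hγ', hγ']
    exact h.eml
  · intro s hs x hx hx'
    rw [hc1] at hx
    rw [hγ s, hγ x]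
    exact h.p1 _ (mem s hs) _ (by linarith) (by linarith)
  · intro a b ha ha' hb hb'
    rw [hc1] at ha' hb
    rw [hγ a, hγ b]
    exact h.p2 _ _ (by linarith) (by linarith) (by linarith) (by linarith)
  · intro δ hδ
    obtain ⟨y, h1, h2, h3, ⟨s, hs, hv⟩, ε, hε, h4⟩ := h.p3 δ hδ
    refine ⟨y + m * n, by linarith, by linarith, by rw [hc1]; linarith,
      ⟨s + m * n, mem' s hs, ?_⟩, ε, hε, ?_⟩
    · rw [hγ', hγ']
      exact hv
    · intro x hx hx'
      rw [hc1] at hx hx'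
      rw [hγ x, hγ']
      exact h4 _ (by linarith) (by linarith)
  · obtain ⟨s, hs, ε, hε, h4⟩ := h.p4
    refine ⟨s + m * n, mem' s hs, ε, hε, ?_⟩
    intro x hx hx'
    rw [hc1] at hx hx'
    rw [hγ x, hγ']
    exact h4 _ (by linarith) (by linarith)

/-- the points of edge `j` just after `D` see `S` -/
theorem Pivot.after {P : Poly n} (hc : P.CCW) {i j : ℤ} {α β D s0 : ℝ} {q : ℤ}
    (h : P.Pivot i j α β D s0 q) {y t : ℝ} (hy : y < j + 1) (hs : ∃ s ∈ Ioo α β, P.Vis (P.γ s) (P.γ y))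
    (ht : D < t) (hty : t ≤ y) : ∃ s ∈ Ioo α β, P.Vis (P.γ s) (P.γ t) := by
  obtain ⟨s, hs, hv⟩ := hs
  obtain ⟨s', y', h1, h2, h3, h4, h5, h6, h7⟩ := h.approx (t - D) (by linarith)
  have hα := h.αs
  have hiα := h.iα
  have hβi := h.βi
  have hjD := h.jD
  obtain ⟨σ, hσ, hσv⟩ := P.f2_edge hc (i := i) (j := j) (s := s') (s' := s) (y := y') (y' := y)
    (by linarith) (by linarith) (by linarith [hs.1]) (by linarith [hs.2]) (by linarith)
    (by linarith) hy h7 hv t ⟨by linarith, hty⟩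
  refine ⟨σ, ?_, hσv⟩
  have hsub : uIcc s' s ⊆ Ioo α β := by
    intro x hx
    rw [mem_uIcc] at hx
    rcases hx with hx | hx
    · exact ⟨by linarith [hx.1], by linarith [hx.2, hs.2]⟩
    · exact ⟨by linarith [hx.1, hs.1], by linarith [hx.2]⟩
  exact hsub hσ

end Poly

end Pool.Agent.Lib_PL
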