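import Pool.Agent.Lib_PL.RepLemma
import Pool.Agent.Lib_PL.PivotMain

/-!
Hooked items: pivot, position of the representative, (a).

`hook_a`: by the hook chord `σ g` the representative `ω` (of `repS`) has a lift in `(σ, g]`, and it is not in `S`, so
the lift is `≥ S.b`; `g < q` (`Pivot.hook_lt`).  For a chord `s y` with `y` on edge `X.i` the second alternative of `Rep`
would give a lift in `[y, s + n)`; the two lifts differ by less than `n` and are different: contradiction.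
-/

open Set Complex
open scoped Topology

namespace Pool.Agent.Lib_PL

namespace Poly

variable {n : ℕ} (P : Poly n)

private theorem HookA_NI {i : ℤ} {y : ℝ} (hy : (i : ℝ) < y) (hy' : y < i + 1) : NI y := by
  intro m hm
  rw [← hm] at hy hy'
  have h1 : i < m := by exact_mod_cast hy
  have h2 : m < i + 1 := by exact_mod_cast hy'
  omega

/-- the lift of the representative which lies between `S` and the hook -/
private theorem HookA_lift (hc : P.CCW) {Ω : Finset ℝ} {S X : Arc} {M : Set ℂ}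
    (h : P.HBase Ω S X M) (hk : P.HookL S X M) : ∃ ω ∈ Ω, P.Rep M S ω ∧ ∃ (t : ℝ) (m : ℤ),
      t = ω + m * n ∧ S.b ≤ t ∧ ∃ g : ℝ, g < X.i ∧ t ≤ g ∧ ∃ σ ∈ S.s, NI g ∧
        P.Vis (P.γ σ) (P.γ g) := by
  obtain ⟨σ, hσ, g, hg, hg', hgN, hv, hM⟩ := hk
  obtain ⟨ω, hωΩ, hω⟩ := h.repS
  have hji : (X.i : ℝ) + 1 ≤ S.i + n := by exact_mod_cast h.ji
  have h1 : σ < g := by linarith [hσ.2, h.Sbi]
  have h2 : g < σ + n := by linarith [hσ.1, h.Sia]
  rcases hω.rep σ g hσ hgN h1 h2 hv with ⟨-, m, h3, h4⟩ | ⟨h3, -⟩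
  · refine ⟨ω, hωΩ, hω, ω + m * n, m, rfl, ?_, g, hg', h4, σ, hσ, hgN, hv⟩
    by_contra hcon
    exact hω.notin m ⟨by linarith [hσ.1], not_le.1 hcon⟩
  · exfalso
    obtain ⟨z, hz⟩ := h.Mne
    exact Set.disjoint_left.1 (P.side_disj hc h1 h2 hv) (hM hz) (h3 hz)

theorem hook_pivot (hc : P.CCW) {Ω : Finset ℝ} {S X : Arc} {M : Set ℂ} (h : P.HBase Ω S X M)
    (hk : P.HookL S X M) : ∃ (D s0 : ℝ) (q : ℤ), P.Pivot S.i X.i S.a S.b D s0 q := by
  obtain ⟨σ, hσ, g, hg, hg', hgN, hv, -⟩ := hk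
  obtain ⟨s, hs, x, hx, hsx⟩ := h.SX
  obtain ⟨D, s0, q, hp, -, -⟩ := P.pivot hc h.ij h.ji h.Sia h.Sab h.Sbi h.Xia
    (by
      intro y hy hy' s hs hvis
      have h1 := h.Z y hy (by linarith [h.Xab, h.Xbi]) ⟨s, hs, hvis⟩
      exact absurd h1.1 (not_lt.2 hy'.le))
    ⟨s, hs, x, ⟨by linarith [hx.1, h.Xia], by linarith [hx.2, h.Xbi]⟩, hsx⟩ hσ hg hg' hgN hv
  exact ⟨D, s0, q, hp⟩

theorem hook_D (hc : P.CCW) {Ω : Finset ℝ} {S X : Arc} {M : Set ℂ} (h : P.HBase Ω S X M)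
    {D s0 : ℝ} {q : ℤ} (hp : P.Pivot S.i X.i S.a S.b D s0 q) : X.a ≤ D ∧ D < X.b := by
  have key : ∀ ε > 0, ∃ y : ℝ, D < y ∧ y < D + ε ∧ X.a < y ∧ y < X.b := by
    intro ε hε
    obtain ⟨s, y, h1, h2, h3, h4, h5, h6, h7⟩ := hp.approx ε hε
    have h8 := h.Z y (by linarith [hp.jD]) h6 ⟨s, ⟨by linarith [hp.αs], h3⟩, h7⟩
    exact ⟨y, h4, h5, h8.1, h8.2⟩
  constructor
  · by_contra hcon
    obtain ⟨y, h1, h2, h3, h4⟩ := key (X.a - D) (by linarith [not_le.1 hcon])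
    linarith
  · obtain ⟨y, h1, h2, h3, h4⟩ := key 1 one_pos
    linarith

theorem hook_a (hc : P.CCW) {Ω : Finset ℝ} {S X : Arc} {M : Set ℂ} (h : P.HBase Ω S X M)
    (hk : P.HookL S X M) {s y : ℝ} (hs : s ∈ S.s) (hy : (X.i : ℝ) < y) (hy' : y < X.i + 1)
    (hv : P.Vis (P.γ s) (P.γ y)) : M ⊆ P.Side s y := by
  obtain ⟨ω, -, hω, t, m, ht, htS, g, hg, htg, -, -, -⟩ := P.HookA_lift hc h hk
  have hS1 : (S.i : ℝ) < s := lt_of_le_of_lt h.Sia hs.1
  have hS2 : s < (S.i : ℝ) + 1 := lt_of_lt_of_le hs.2 h.Sbi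
  have hij : (S.i : ℝ) + 1 ≤ X.i := by exact_mod_cast h.ij
  have hji : (X.i : ℝ) + 1 ≤ S.i + n := by exact_mod_cast h.ji
  have hyN : NI y := HookA_NI hy hy'
  rcases hω.rep s y hs hyN (by linarith) (by linarith) hv with h1 | ⟨-, m', h2, h3⟩
  · exact h1.1
  · exfalso
    have hn : (0 : ℝ) < n := by
      have := P.three_le
      exact_mod_cast (by omega : 0 < n)
    have h4 : t < ω + m' * n := by linarith
    rw [ht] at h4
    have h5 : (m : ℝ) < m' := by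
      by_contra hcon
      have := mul_le_mul_of_nonneg_right (not_lt.1 hcon) hn.le
      linarith
    have h6 : (m : ℝ) + 1 ≤ m' := by exact_mod_cast (by exact_mod_cast h5 : m < m')
    have h7 := mul_le_mul_of_nonneg_right h6 hn.le
    have h8 : ((m : ℝ) + 1) * n = m * n + n := by ring
    have h9 := hs.2
    linarith

theorem hook_ω (hc : P.CCW) {Ω : Finset ℝ} {S X : Arc} {M : Set ℂ} (h : P.HBase Ω S X M)
    (hk : P.HookL S X M) {D s0 : ℝ} {q : ℤ} (hp : P.Pivot S.i X.i S.a S.b D s0 q) :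
    ∃ ω ∈ Ω, P.Rep M S ω ∧ ∃ m : ℤ, S.b ≤ ω + m * n ∧ ω + m * n < q := by
  obtain ⟨ω, hωΩ, hω, t, m, ht, htS, g, hg, htg, σ, hσ, hgN, hv⟩ := P.HookA_lift hc h hk
  have h1 := hp.hook_lt hσ hg hgN hv
  exact ⟨ω, hωΩ, hω, m, by linarith, by linarith⟩

end Poly

end Pool.Agent.Lib_PL
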