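import Pool.Agent.Lib_PL.HookA

/-!
Hooked items of depth at least two: the edge of the predecessor lies between `S` and `q`.

Let `k'` be the lift of `Ym.i` with `S.i < k' < S.i + n` (`ki`; also `k' ≠ X.i` because `Ym` sees `X`).
(b) `X.i < k'`: take `s ∈ S`, `y ∈ X` visible; `Good M X Ym.i` for the chord from `y ∈ X` to `g = s + n` (`y < s + n < y + n`)
gives `M ⊆ Side y (s+n)`, `hook_a` gives `M ⊆ Side s y`: contradiction (`side_disj`, `M` non-empty).
(c) `q ≤ k' < X.i`: take `y` and `ε` from `p3`, `y ∈ X.s`.  If `k' = q`: all points of `(q, q+ε)` see `y ∈ X`, so they are in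
`Ym` (`see_absorb`), which is not cornered: contradiction.  If `q < k'`: take `q' ∈ (q, q+ε)`, not an integer,
`q' < q + 1`; the chord from `y` to `q' + n`: `Good` gives `M ⊆ Side (q'+n) (y+n) = Side q' y`.  `Rep M X ω'` gives a lift `t'`
of `ω'` in `[q', y)`.  `hook_ω` gives `ω` with a lift `t ∈ [S.b, q)`.  If `ω = ω'`: `0 < t' - t < n`, contradiction.  Otherwise
`γ t` sees `γ t'` (`hΩ`); if `t' ≤ D` this contradicts `p2` (`s0 < S.b ≤ t`); if `D < t' < y` then `t' ∈ X.s` (`Pivot.after`,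
`Z`), contradiction with `Rep.notin`.
-/

open Set Complex
open scoped Topology

namespace Pool.Agent.Lib_PL

namespace Poly

variable {n : ℕ} (P : Poly n)

/-- lift of an integer into a window -/
private lemma hookB_lift (hn : 0 < n) (a b : ℤ) : ∃ m : ℤ, b < a + m * n ∧ a + m * n ≤ b + n := by
  have hn' : (0 : ℤ) < n := by exact_mod_cast hn
  refine ⟨(b - a) / n + 1, ?_, ?_⟩
  · have h1 := Int.emod_lt_of_pos (b - a) hn'
    have h2 := Int.emod_add_mul_ediv (b - a) n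
    have h3 : (((b - a) / n + 1 : ℤ) : ℤ) * n = n * ((b - a) / n) + n := by ring
    rw [h3]
    linarith
  · have h1 := Int.emod_nonneg (b - a) hn'.ne'
    have h2 := Int.emod_add_mul_ediv (b - a) n
    have h3 : (((b - a) / n + 1 : ℤ) : ℤ) * n = n * ((b - a) / n) + n := by ring
    rw [h3]
    linarith

/-- (b): the edge of the predecessor is not after `X` -/
private lemma hookB_b (hc : P.CCW) {p : ℂ} {Ω : Finset ℝ} {L : ℕ} {S X Ym : Arc} {M : Set ℂ}
    (h : P.HBase Ω S X M) (hk : P.HookL S X M) (ht : P.T2 p Ω L S X Ym M) {m : ℤ}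
    (h1 : (X.i : ℝ) + 1 ≤ Ym.i + m * n) (h2 : (Ym.i : ℝ) + m * n + 1 ≤ S.i + n) : False := by
  obtain ⟨s, hs, y, hy, hv⟩ := h.SX
  obtain ⟨z0, hz0⟩ := h.Mne
  have hij : (S.i : ℝ) + 1 ≤ X.i := by exact_mod_cast h.ij
  have hji : (X.i : ℝ) + 1 ≤ S.i + n := by exact_mod_cast h.ji
  have hSia := h.Sia
  have hSbi := h.Sbi
  have hXia := h.Xia
  have hXbi := h.Xbi
  have hs1 : S.a < s := hs.1
  have hs2 : s < S.b := hs.2
  have hy1 : X.a < y := hy.1
  have hy2 : y < X.b := hy.2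
  have hsN : NI s := (NI_of_Ioo (i := S.i) (by linarith) (by linarith)).1
  have hsnN : NI (s + n) := by
    have := NI_add (n : ℤ) hsN
    push_cast at this
    exact this
  have hsy : s < y := by linarith
  have hysn : y < s + n := by linarith
  have hvys : P.Vis (P.γ y) (P.γ (s + n)) := by
    rw [P.γ_add_n]
    exact hv.symm
  have hM1 : M ⊆ P.Side y (s + n) :=
    (ht.good y (s + n) hy hsnN hysn (by linarith) hvys m).1 (by linarith) (by linarith)
  have hM2 : M ⊆ P.Side s y := P.hook_a hc h hk hs (by linarith) (by linarith) hv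
  exact Set.disjoint_left.1 (P.side_disj hc hsy hysn hv) (hM2 hz0) (hM1 hz0)

/-- (c), first case: the predecessor does not start at `q` -/
private lemma hookB_c1 (hc : P.CCW) {p : ℂ} {Ω : Finset ℝ} {L : ℕ} {S X Ym : Arc} {M : Set ℂ}
    (h : P.HBase Ω S X M) (ht : P.T2 p Ω L S X Ym M) {m q : ℤ} (hq : Ym.i + m * n = q) {y ε : ℝ}
    (hy : y ∈ X.s) (hε : 0 < ε)
    (hsee : ∀ x : ℝ, (q : ℝ) < x → x < q + ε → P.Vis (P.γ x) (P.γ y)) : False := by
  have hqr : (Ym.i : ℝ) + m * n = q := by exact_mod_cast hq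
  apply ht.Ync
  left
  apply le_antisymm _ ht.Yc.ia
  by_contra hcon
  push Not at hcon
  -- a point of the edge of `Ym` close to the vertex
  have hab := ht.Yc.ab
  have hbi := ht.Yc.bi
  set τ : ℝ := min (Ym.i + ε / 2) ((Ym.i + Ym.a) / 2) with hτ
  have hτ1 : τ ≤ Ym.i + ε / 2 := min_le_left _ _
  have hτ2 : τ ≤ (Ym.i + Ym.a) / 2 := min_le_right _ _
  have hτ0 : (Ym.i : ℝ) < τ := lt_min (by linarith) (by linarith)
  have hγ : P.γ (τ + m * n) = P.γ τ := P.γ_add_mul τ m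
  have hvis : P.Vis (P.γ y) (P.γ τ) := by
    have h1 := hsee (τ + m * n) (by linarith) (by linarith)
    rw [hγ] at h1
    exact h1.symm
  have hmem : τ ∈ Ym.s := by
    refine P.see_absorb hc h.Xia.le h.Xbi.le ht.Xc.sub ht.Yc ht.sees hτ0 (by linarith) ⟨y, hy, hvis⟩
  have := hmem.1
  linarith

/-- (c), second case -/
private lemma hookB_c2 (hc : P.CCW) {p : ℂ} {Ω : Finset ℝ}
    (hΩ : ∀ ω ∈ Ω, ∀ ω' ∈ Ω, ω ≠ ω' → P.Vis (P.γ ω) (P.γ ω')) {L : ℕ} {S X Ym : Arc} {M : Set ℂ}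
    (h : P.HBase Ω S X M) (hk : P.HookL S X M) (ht : P.T2 p Ω L S X Ym M) {D s0 : ℝ} {q : ℤ}
    (hp : P.Pivot S.i X.i S.a S.b D s0 q) {m : ℤ} (hqk : (q : ℝ) + 1 ≤ Ym.i + m * n)
    (hkX : (Ym.i : ℝ) + m * n + 1 ≤ X.i) {y ε : ℝ} (hDy : D < y) (hyj : y < X.i + 1)
    (hys : ∃ s ∈ Ioo S.a S.b, P.Vis (P.γ s) (P.γ y)) (hy : y ∈ X.s) (hε : 0 < ε)
    (hsee : ∀ x : ℝ, (q : ℝ) < x → x < q + ε → P.Vis (P.γ x) (P.γ y)) : False := by
  have hn : (0 : ℝ) < n := by
    have := P.three_le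
    exact_mod_cast (by omega : 0 < n)
  have hij : (S.i : ℝ) + 1 ≤ X.i := by exact_mod_cast h.ij
  have hji : (X.i : ℝ) + 1 ≤ S.i + n := by exact_mod_cast h.ji
  have hqS : (S.i : ℝ) + 1 ≤ q := by exact_mod_cast hp.iq
  have hqX : (q : ℝ) ≤ X.i := by exact_mod_cast hp.qj
  have hSia := h.Sia
  have hSab := h.Sab
  have hSbi := h.Sbi
  have hXia := h.Xia
  have hXbi := h.Xbi
  have hjD := hp.jD
  have hsβ := hp.sβ
  obtain ⟨z0, hz0⟩ := h.Mne
  -- the point `q'`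
  set q' : ℝ := q + min ε 1 / 2 with hq'
  have hm1 : min ε 1 ≤ ε := min_le_left _ _
  have hm2 : min ε 1 ≤ 1 := min_le_right _ _
  have hm0 : 0 < min ε 1 := lt_min hε one_pos
  have hq1 : (q : ℝ) < q' := by rw [hq']; linarith
  have hq2 : q' < q + 1 := by rw [hq']; linarith
  have hq3 : q' < q + ε := by rw [hq']; linarith
  have hqN : NI q' := (NI_of_Ioo (i := q) hq1 hq2).1
  have hqnN : NI (q' + n) := by
    have := NI_add (n : ℤ) hqN
    push_cast at this
    exact this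
  have hvq : P.Vis (P.γ y) (P.γ (q' + n)) := by
    rw [P.γ_add_n]
    exact (hsee q' hq1 hq3).symm
  have hyq : y < q' + n := by linarith
  have hqy : q' + n < y + n := by linarith
  have hM1 : M ⊆ P.Side (q' + n) (y + n) := by
    refine (ht.good y (q' + n) hy hqnN hyq hqy hvq (m + 1)).2 ?_ ?_
    · push_cast
      linarith
    · push_cast
      linarith
  have hdis := P.side_disj hc hyq hqy hvq
  obtain ⟨ω', hω', hrep⟩ := ht.repX
  obtain ⟨m1, hm11, hm12⟩ : ∃ m1 : ℤ, q' + n ≤ ω' + m1 * n ∧ ω' + m1 * n < y + n := by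
    rcases hrep.rep y (q' + n) hy hqnN hyq hqy hvq with ⟨hh, -⟩ | ⟨-, hh⟩
    · exact absurd (hM1 hz0) (Set.disjoint_left.1 hdis (hh hz0))
    · exact hh
  obtain ⟨ω, hω, -, m2, hm21, hm22⟩ := P.hook_ω hc h hk hp
  have ht1 : q' ≤ ω' + ((m1 - 1 : ℤ) : ℝ) * n := by push_cast; linarith
  have ht2 : ω' + ((m1 - 1 : ℤ) : ℝ) * n < y := by push_cast; linarith
  by_cases hωω : ω = ω'
  · -- two lifts of the same number
    subst hωω
    have e1 : ((m1 - 1 - m2 : ℤ) : ℝ) * n < n := by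
      push_cast
      push_cast at ht2
      linarith
    have e2 : 0 < ((m1 - 1 - m2 : ℤ) : ℝ) * n := by
      push_cast
      push_cast at ht1
      linarith
    have e3 : ((m1 - 1 - m2 : ℤ) : ℝ) < 1 := by
      by_contra hcon
      push Not at hcon
      nlinarith
    have e4 : (0 : ℝ) < ((m1 - 1 - m2 : ℤ) : ℝ) := by
      by_contra hcon
      push Not at hcon
      nlinarith
    have e5 : (m1 - 1 - m2 : ℤ) < 1 := by exact_mod_cast e3
    have e6 : (0 : ℤ) < m1 - 1 - m2 := by exact_mod_cast e4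
    omega
  · have hv := hΩ ω hω ω' hω' hωω
    have hγ1 : P.γ (ω + m2 * n) = P.γ ω := P.γ_add_mul ω m2
    have hγ2 : P.γ (ω' + ((m1 - 1 : ℤ) : ℝ) * n) = P.γ ω' := P.γ_add_mul ω' (m1 - 1)
    have hv' : P.Vis (P.γ (ω + m2 * n)) (P.γ (ω' + ((m1 - 1 : ℤ) : ℝ) * n)) := by
      rw [hγ1, hγ2]
      exact hv
    rcases le_or_gt (ω' + ((m1 - 1 : ℤ) : ℝ) * n) D with hD | hD
    · exact hp.p2 _ _ (by linarith) hm22 (by linarith) hD hv'
    · have hs := Pivot.after hc hp hyj hys hD ht2.le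
      have hmem := h.Z (ω' + ((m1 - 1 : ℤ) : ℝ) * n) (by linarith) (by linarith) hs
      exact hrep.notin (m1 - 1) hmem

theorem t2_loc (hc : P.CCW) {p : ℂ} {Ω : Finset ℝ}
    (hΩ : ∀ ω ∈ Ω, ∀ ω' ∈ Ω, ω ≠ ω' → P.Vis (P.γ ω) (P.γ ω')) {L : ℕ} {S X Ym : Arc} {M : Set ℂ}
    (h : P.HBase Ω S X M) (hk : P.HookL S X M) (ht : P.T2 p Ω L S X Ym M) {D s0 : ℝ} {q : ℤ}
    (hp : P.Pivot S.i X.i S.a S.b D s0 q) :
    ∃ m : ℤ, S.i + 1 ≤ Ym.i + m * n ∧ Ym.i + m * n + 1 ≤ q := by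
  have hn : 0 < n := by
    have := P.three_le
    omega
  obtain ⟨m, hm1, hm2⟩ := hookB_lift hn Ym.i S.i
  refine ⟨m, by omega, ?_⟩
  by_contra hcon
  push Not at hcon
  -- the lift is not `S.i + n` and not `X.i`
  have hne : Ym.i + m * n ≠ S.i + n := by
    intro he
    apply ht.ki (1 - m)
    have : (1 - m) * (n : ℤ) = n - m * n := by ring
    rw [this]
    linarith
  have hneX : Ym.i + m * n ≠ X.i := by
    intro he
    have h1 := P.sees_ne ht.Yc.ia ht.Yc.bi h.Xia.le h.Xbi.le ht.sees (-m)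
    apply h1
    rw [neg_mul]
    linarith
  rcases lt_or_gt_of_ne hneX with hlt | hgt
  · -- (c)
    obtain ⟨y, hDy, -, hyj, hys, ε, hε, hsee⟩ := hp.p3 1 one_pos
    have hjD := hp.jD
    have hyX : y ∈ X.s := h.Z y (by linarith) hyj hys
    by_cases hqk : Ym.i + m * n = q
    · exact P.hookB_c1 hc h ht hqk hyX hε hsee
    · have h1 : q + 1 ≤ Ym.i + m * n := by omega
      have h2 : Ym.i + m * n + 1 ≤ X.i := by omega
      exact P.hookB_c2 hc hΩ h hk ht hp (m := m) (by exact_mod_cast h1) (by exact_mod_cast h2) hDy hyj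
        hys hyX hε hsee
  · -- (b)
    have h1 : X.i + 1 ≤ Ym.i + m * n := by omega
    have h2 : Ym.i + m * n + 1 ≤ S.i + n := by omega
    exact P.hookB_b hc h hk ht (m := m) (by exact_mod_cast h1) (by exact_mod_cast h2)

end Poly

end Pool.Agent.Lib_PL
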