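import Pool.Agent.Lib_PL.VisOpen

/-!
Passing lemma: `h`, `γ x`, `γ u` are collinear in this order, both parts are free, the boundary near `γ x` is
strictly left of the line directed from `γ u` to `h`.  Then `h` sees all points near `γ u` which are
strictly to the right of the line.  Same method as in `VisOpen`.
-/

open Set Complex
open scoped Topology

namespace Pool.Agent.Lib_PL

/-- A sector which contains `w` and `-w` and whose sides are on the left of `w` contains the right
half-plane of `w`. -/
private theorem pass_sector {e m w d : ℂ} (h1 : InSector e m w) (he : 0 < cr w e)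
    (hm : 0 < cr w m) (hd : cr w d < 0) : InSector e m d := by
  have hew : cr e w = -cr w e := cr_swap e w
  have hneg : cr e m < 0 := by
    obtain ⟨a1, a2, a3⟩ := h1
    by_contra hc
    rcases (not_lt.1 hc).eq_or_lt with h0 | h0
    · have := a3 h0.symm
      linarith
    · have := (a1 h0).1
      linarith
  refine ⟨fun h => absurd h (not_lt.2 hneg.le), fun _ => ?_, fun h => absurd h hneg.ne⟩
  by_contra hc
  push Not at hc
  have hdec := cr_dec hneg.ne d
  have hα : 0 ≤ cr d m / cr e m := div_nonneg_of_nonpos hc.2 hneg.le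
  have hβ : 0 ≤ cr e d / cr e m := div_nonneg_of_nonpos hc.1 hneg.le
  have h2 : cr w d = cr d m / cr e m * cr w e + cr e d / cr e m * cr w m := by
    conv_lhs => rw [hdec]
    rw [cr_add_right, cr_mul_right, cr_mul_right]
  have h3 := mul_nonneg hα he.le
  have h4 := mul_nonneg hβ hm.le
  linarith

namespace Poly

variable {n : ℕ} (P : Poly n)

private theorem pass_aux (hc : P.CCW) {h : ℂ} {u x : ℝ} (hu : NI u)
    (hx : P.γ x ∈ openSegment ℝ h (P.γ u)) (h1 : P.Vis h (P.γ x)) (h2 : P.Vis (P.γ x) (P.γ u))
    {w : ℂ} {τ : ℝ} (hτ : τ = 1 ∨ τ = -1) (hw : w = (τ : ℂ) * (h - P.γ u))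
    (he : 0 < cr w (P.ep x)) (hm : 0 < cr w (P.em x)) :
    ∃ ε > 0, ∀ u' : ℝ, |u' - u| < ε → cr w (P.γ u' - P.γ u) < 0 → P.Vis h (P.γ u') := by
  obtain ⟨a, b, ha, hb, hab, hγx⟩ := hx
  have hγx' : P.γ x = h + (b : ℂ) * (P.γ u - h) := by
    rw [← hγx, Complex.real_smul, Complex.real_smul]
    have : (a : ℂ) = 1 - b := by
      have : a = 1 - b := by linarith
      rw [this]
      push_cast
      ring
    rw [this]
    ring
  have hb1 : b < 1 := by linarith
  have hcont : Continuous fun z : ℝ × ℝ => h + (z.2 : ℂ) * (P.γ z.1 - h) := by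
    have h1 : Continuous fun z : ℝ × ℝ => P.γ z.1 := P.γ_cont.comp continuous_fst
    have h2 : Continuous fun z : ℝ × ℝ => (z.2 : ℂ) :=
      Complex.continuous_ofReal.comp continuous_snd
    exact continuous_const.add (h2.mul (h1.sub continuous_const))
  -- the cross product along the segments
  have hcr0 : cr w (h - P.γ u) = 0 := by
    rw [hw, cr_mul_left, cr_self, mul_zero]
  have hcr : ∀ (u' s : ℝ) (c : ℂ), cr w (c - h) = 0 →
      cr w (h + (s : ℂ) * (P.γ u' - h) - c) = s * cr w (P.γ u' - P.γ u) := by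
    intro u' s c hc0
    have e1 : h + (s : ℂ) * (P.γ u' - h) - c =
        (s : ℂ) * (P.γ u' - P.γ u) + (((-s : ℝ) : ℂ) * (h - P.γ u) + ((-1 : ℝ) : ℂ) * (c - h)) := by
      push_cast
      ring
    rw [e1, cr_add_right, cr_add_right, cr_mul_right, cr_mul_right, cr_mul_right, hcr0, hc0]
    ring
  have key : ∀ s0 ∈ Icc (0 : ℝ) 1, ∀ᶠ z : ℝ × ℝ in 𝓝 (u, s0),
      (cr w (P.γ z.1 - P.γ u) < 0 → 0 < z.2 → z.2 < 1 →
        h + (z.2 : ℂ) * (P.γ z.1 - h) ∈ P.I) := by
    intro s0 hs0
    -- if the limit point is in the interior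
    have hint : h + (s0 : ℂ) * (P.γ u - h) ∈ P.I → ∀ᶠ z : ℝ × ℝ in 𝓝 (u, s0),
        (cr w (P.γ z.1 - P.γ u) < 0 → 0 < z.2 → z.2 < 1 →
          h + (z.2 : ℂ) * (P.γ z.1 - h) ∈ P.I) := by
      intro hI
      have hn : P.I ∈ 𝓝 ((fun z : ℝ × ℝ => h + (z.2 : ℂ) * (P.γ z.1 - h)) (u, s0)) :=
        P.I_open.mem_nhds hI
      have := hcont.continuousAt.eventually_mem hn
      exact this.mono fun z hz _ _ _ => hz
    rcases hs0.1.eq_or_lt with h0 | h0
    · -- near `h`
      subst h0
      have hhR : h ∈ P.R := h1.seg (left_mem_segment ℝ _ _)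
      rcases hhR with hhC | hhI
      · obtain ⟨y, rfl⟩ := (P.mem_C_iff h).1 hhC
        obtain ⟨ρ, hρ, hloc⟩ := P.sector hc y
        have hs := h1.sector hc
        have hs' : InSector (P.ep y) (P.em y) (P.γ u - P.γ y) := by
          have e1 : P.γ x - P.γ y = (b : ℂ) * (P.γ u - P.γ y) := by
            rw [hγx']
            ring
          rw [e1] at hs
          exact (InSector_smul hb).1 hs
        have ho := sector_open (P.ep_ne y) (P.em_ne y) (P.em_ne_ep y)
        have hc1 : Continuous fun z : ℝ × ℝ => P.γ z.1 - P.γ y :=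
          (P.γ_cont.comp continuous_fst).sub continuous_const
        have ev1 : ∀ᶠ z : ℝ × ℝ in 𝓝 (u, (0 : ℝ)),
            InSector (P.ep y) (P.em y) (P.γ z.1 - P.γ y) := by
          have hn : {d : ℂ | InSector (P.ep y) (P.em y) d} ∈
              𝓝 ((fun z : ℝ × ℝ => P.γ z.1 - P.γ y) (u, (0 : ℝ))) := ho.mem_nhds hs'
          exact hc1.continuousAt.eventually_mem hn
        have hc2 : Continuous fun z : ℝ × ℝ => ‖(z.2 : ℂ) * (P.γ z.1 - P.γ y)‖ :=
          ((Complex.continuous_ofReal.comp continuous_snd).mul hc1).norm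
        have ev2 : ∀ᶠ z : ℝ × ℝ in 𝓝 (u, (0 : ℝ)), ‖(z.2 : ℂ) * (P.γ z.1 - P.γ y)‖ < ρ := by
          have hlt : ‖((u, (0 : ℝ)).2 : ℂ) * (P.γ (u, (0 : ℝ)).1 - P.γ y)‖ < ρ := by
            simpa using hρ
          exact hc2.continuousAt.eventually_lt continuousAt_const hlt
        filter_upwards [ev1, ev2] with z hz1 hz2 _ hz3 _
        exact (hloc _ hz2).1.2 ((InSector_smul hz3).2 hz1)
      · apply hint
        simpa using hhI
    · rcases hs0.2.eq_or_lt with h3 | h3
      · -- near `γ u`
        subst h3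
        obtain ⟨ρ, hρ, hloc⟩ := P.sector hc u
        obtain ⟨hf1, hf2, _⟩ := NI_floor hu
        have hleft : 0 < cr (P.ed u) (h - P.γ u) := by
          have h4 := h2.symm.left hc hu
          have e1 : P.γ x - P.γ u = (a : ℂ) * (h - P.γ u) := by
            rw [hγx']
            have : (a : ℂ) = 1 - b := by
              have : a = 1 - b := by linarith
              rw [this]
              push_cast
              ring
            rw [this]
            ring
          rw [e1, cr_mul_right] at h4
          exact (pos_iff_pos_of_mul_pos h4).1 ha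
        have ev1 : ∀ᶠ z : ℝ × ℝ in 𝓝 (u, (1 : ℝ)), (⌊u⌋ : ℝ) < z.1 ∧ z.1 < ⌊u⌋ + 1 := by
          have hm : Ioo (⌊u⌋ : ℝ) (⌊u⌋ + 1) ∈ 𝓝 (u, (1 : ℝ)).1 :=
            Ioo_mem_nhds hf1 hf2
          exact continuous_fst.continuousAt.eventually_mem hm
        have hc2 : Continuous fun z : ℝ × ℝ =>
            ‖h + (z.2 : ℂ) * (P.γ z.1 - h) - P.γ u‖ := (hcont.sub continuous_const).norm
        have ev2 : ∀ᶠ z : ℝ × ℝ in 𝓝 (u, (1 : ℝ)),
            ‖h + (z.2 : ℂ) * (P.γ z.1 - h) - P.γ u‖ < ρ := by
          have hlt : ‖h + ((u, (1 : ℝ)).2 : ℂ) * (P.γ (u, (1 : ℝ)).1 - h) - P.γ u‖ < ρ := by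
            simpa using hρ
          exact hc2.continuousAt.eventually_lt continuousAt_const hlt
        filter_upwards [ev1, ev2] with z hz1 hz2 _ _ hz4
        have e1 : P.γ z.1 - P.γ u = ((z.1 - u : ℝ) : ℂ) * P.ed u :=
          P.γ_sub ⌊u⌋ u z.1 hf1.le hf2.le hz1.1.le hz1.2.le
        have e2 : h + (z.2 : ℂ) * (P.γ z.1 - h) - P.γ u =
            ((1 - z.2 : ℝ) : ℂ) * (h - P.γ u) + ((z.2 * (z.1 - u) : ℝ) : ℂ) * P.ed u := by
          have e3 : P.γ z.1 = P.γ u + ((z.1 - u : ℝ) : ℂ) * P.ed u := by
            rw [← e1]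
            ring
          rw [e3]
          push_cast
          ring
        have e4 : h + (z.2 : ℂ) * (P.γ z.1 - h) =
            P.γ u + (h + (z.2 : ℂ) * (P.γ z.1 - h) - P.γ u) := by ring
        rw [e4]
        refine (hloc _ hz2).1.2 ((P.InSector_NI hu _).2 ?_)
        rw [e2, cr_add_right, cr_mul_right, cr_mul_right, cr_self, mul_zero, add_zero]
        exact mul_pos (by linarith) hleft
      · rcases lt_trichotomy s0 b with h4 | h4 | h4
        · -- between `h` and `γ x`
          apply hint
          apply h1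
          refine ⟨1 - s0 / b, s0 / b, ?_, div_pos h0 hb, by ring, ?_⟩
          · rw [sub_pos, div_lt_one hb]
            exact h4
          · rw [hγx', Complex.real_smul, Complex.real_smul]
            have hbc : (b : ℂ) ≠ 0 := by exact_mod_cast hb.ne'
            push_cast
            field_simp
            ring
        · -- near `γ x`
          subst h4
          obtain ⟨ρ, hρ, hloc⟩ := P.sector hc x
          have hc2 : Continuous fun z : ℝ × ℝ =>
              ‖h + (z.2 : ℂ) * (P.γ z.1 - h) - P.γ x‖ := (hcont.sub continuous_const).norm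
          have ev2 : ∀ᶠ z : ℝ × ℝ in 𝓝 (u, s0),
              ‖h + (z.2 : ℂ) * (P.γ z.1 - h) - P.γ x‖ < ρ := by
            have hlt : ‖h + ((u, s0).2 : ℂ) * (P.γ (u, s0).1 - h) - P.γ x‖ < ρ := by
              rw [← hγx']
              simpa using hρ
            exact hc2.continuousAt.eventually_lt continuousAt_const hlt
          -- the sector contains the direction `w`
          have hsw : InSector (P.ep x) (P.em x) w := by
            rcases hτ with rfl | rfl
            · have h5 := h1.symm.sector hc
              have e1 : h - P.γ x = (s0 : ℂ) * w := by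
                rw [hγx', hw]
                push_cast
                ring
              rw [e1] at h5
              exact (InSector_smul hb).1 h5
            · have h5 := h2.sector hc
              have e1 : P.γ u - P.γ x = (a : ℂ) * w := by
                rw [hγx', hw]
                have : (a : ℂ) = 1 - s0 := by
                  have : a = 1 - s0 := by linarith
                  rw [this]
                  push_cast
                  ring
                rw [this]
                push_cast
                ring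
              rw [e1] at h5
              exact (InSector_smul ha).1 h5
          filter_upwards [ev2] with z hz2 hz hz3 _
          have e4 : h + (z.2 : ℂ) * (P.γ z.1 - h) =
              P.γ x + (h + (z.2 : ℂ) * (P.γ z.1 - h) - P.γ x) := by ring
          rw [e4]
          refine (hloc _ hz2).1.2 (pass_sector hsw he hm ?_)
          have hx0 : cr w (P.γ x - h) = 0 := by
            have e1 : P.γ x - h = ((-s0 : ℝ) : ℂ) * (h - P.γ u) := by
              rw [hγx']
              push_cast
              ring
            rw [e1, cr_mul_right, hcr0, mul_zero]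
          rw [hcr z.1 z.2 _ hx0]
          exact mul_neg_of_pos_of_neg hz3 hz
        · -- between `γ x` and `γ u`
          apply hint
          apply h2
          refine ⟨(1 - s0) / a, (s0 - b) / a, div_pos (by linarith) ha, div_pos (by linarith) ha, ?_,
            ?_⟩
          · rw [← add_div, div_eq_one_iff_eq ha.ne']
            linarith
          · rw [hγx', Complex.real_smul, Complex.real_smul]
            have hac : (a : ℂ) ≠ 0 := by exact_mod_cast ha.ne'
            have hab' : (b : ℂ) = 1 - a := by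
              have : b = 1 - a := by linarith
              rw [this]
              push_cast
              ring
            push_cast
            rw [hab']
            field_simp
            ring
  have hall := isCompact_Icc.eventually_forall_of_forall_eventually
    (P := fun (u' s : ℝ) => cr w (P.γ u' - P.γ u) < 0 → 0 < s → s < 1 →
        h + (s : ℂ) * (P.γ u' - h) ∈ P.I) key
  obtain ⟨ε, hε, hball⟩ := Metric.eventually_nhds_iff.1 hall
  refine ⟨ε, hε, fun u' hu' hcr' => ?_⟩
  rintro z ⟨p, q, hp, hq, hpq, rfl⟩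
  have := hball (by rwa [Real.dist_eq]) q ⟨hq.le, by linarith⟩ hcr' hq (by linarith)
  have e1 : p • h + q • P.γ u' = h + (q : ℂ) * (P.γ u' - h) := by
    rw [Complex.real_smul, Complex.real_smul]
    have : (p : ℂ) = 1 - q := by
      have : p = 1 - q := by linarith
      rw [this]
      push_cast
      ring
    rw [this]
    ring
  rw [e1]
  exact this

theorem vis_pass (hc : P.CCW) {h : ℂ} {u x : ℝ} (hu : NI u) (hx : P.γ x ∈ openSegment ℝ h (P.γ u))
    (h1 : P.Vis h (P.γ x)) (h2 : P.Vis (P.γ x) (P.γ u)) (he : 0 < cr (h - P.γ u) (P.ep x))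
    (hm : 0 < cr (h - P.γ u) (P.em x)) :
    ∃ ε > 0, ∀ u' : ℝ, |u' - u| < ε → cr (h - P.γ u) (P.γ u' - P.γ u) < 0 → P.Vis h (P.γ u') :=
  P.pass_aux hc hu hx h1 h2 (τ := 1) (Or.inl rfl) (by push_cast; ring) he hm

/-- mirror version -/
theorem vis_pass' (hc : P.CCW) {h : ℂ} {u x : ℝ} (hu : NI u) (hx : P.γ x ∈ openSegment ℝ h (P.γ u))
    (h1 : P.Vis h (P.γ x)) (h2 : P.Vis (P.γ x) (P.γ u)) (he : cr (h - P.γ u) (P.ep x) < 0)
    (hm : cr (h - P.γ u) (P.em x) < 0) :
    ∃ ε > 0, ∀ u' : ℝ, |u' - u| < ε → 0 < cr (h - P.γ u) (P.γ u' - P.γ u) → P.Vis h (P.γ u') := by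
  obtain ⟨ε, hε, hh⟩ := P.pass_aux hc hu hx h1 h2 (w := -(h - P.γ u)) (τ := -1) (Or.inr rfl)
    (by push_cast; ring) (by rw [cr_neg_left]; linarith) (by rw [cr_neg_left]; linarith)
  refine ⟨ε, hε, fun u' hu' h3 => hh u' hu' ?_⟩
  rw [cr_neg_left]
  linarith

end Poly

end Pool.Agent.Lib_PL
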