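import Pool.Agent.Lib_PL.PairRay
import Pool.Agent.Lib_PL.Pass

/-!
The pair lemma.  Move `u` slightly (`vis_open`) so that the line through `γ u` and `V q` contains no vertex other
than `V q`; then `h` of `pair_ray` is not a vertex; `vis_pass` (with `γ u'` slightly right of the line directed
from `γ u` to `γ h`, that is `u'` slightly larger than `u`) gives `h` sees `u'`; `vis_before` with
`0 < cr (γ h - V q) (em q)` gives the last statement.
-/

open Set Complex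
open scoped Topology

namespace Pool.Agent.Lib_PL

namespace Poly

variable {n : ℕ} (P : Poly n)

private theorem PairMain_min {a b c d e : ℝ} (ha : 0 < a) (hb : 0 < b) (hc : 0 < c) (hd : 0 < d)
    (he : 0 < e) : ∃ r > 0, r ≤ a ∧ r ≤ b ∧ r ≤ c ∧ r ≤ d ∧ r ≤ e :=
  ⟨min a (min b (min c (min d e))), lt_min ha (lt_min hb (lt_min hc (lt_min hd he))), by simp⟩

/-- only finitely many points of an edge are on a line through `z` and another vertex -/
private theorem PairMain_finite {j : ℤ} {z : ℂ} {u : ℝ} (hu : (j : ℝ) < u) (hu' : u < j + 1)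
    (hz : 0 < cr (P.V (j + 1) - P.V j) (z - P.γ u)) :
    {t : ℝ | t ∈ Ioo (j : ℝ) (j + 1) ∧ ∃ k : ℤ, P.V k ≠ z ∧ cr (P.V k - z) (P.γ t - z) = 0}.Finite := by
  have hsub : {t : ℝ | t ∈ Ioo (j : ℝ) (j + 1) ∧
      ∃ k : ℤ, P.V k ≠ z ∧ cr (P.V k - z) (P.γ t - z) = 0} ⊆
      ⋃ k ∈ Finset.range n, {t : ℝ | t ∈ Ioo (j : ℝ) (j + 1) ∧
        P.V (k : ℤ) ≠ z ∧ cr (P.V (k : ℤ) - z) (P.γ t - z) = 0} := by
    rintro t ⟨ht, k, hk, hk'⟩
    have hn : (0 : ℤ) < n := by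
      have := P.three_le
      omega
    have h1 : P.V (k % n) = P.V k := by
      have h2 := P.V_add_mul (k % n) (k / n)
      rw [mul_comm (k / (n : ℤ)) (n : ℤ), Int.emod_add_mul_ediv] at h2
      exact h2.symm
    have h3 : ((k % n).toNat : ℤ) = k % n := Int.toNat_of_nonneg (Int.emod_nonneg _ hn.ne')
    rw [mem_iUnion₂]
    refine ⟨(k % n).toNat, ?_, ht, ?_, ?_⟩
    · rw [Finset.mem_range]
      have := Int.emod_lt_of_pos k hn
      omega
    · rw [h3, h1]; exact hk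
    · rw [h3, h1]; exact hk'
  refine Set.Finite.subset ?_ hsub
  refine Set.Finite.biUnion (Finset.finite_toSet _) fun k _ => Set.Subsingleton.finite ?_
  rintro t ⟨ht, hk, h1⟩ t' ⟨ht', _, h2⟩
  by_contra hne
  have e1 := P.γ_sub j t t' ht.1.le ht.2.le ht'.1.le ht'.2.le
  have e2 := P.γ_sub j t u ht.1.le ht.2.le hu.le hu'.le
  have hw : P.V (k : ℤ) - z ≠ 0 := sub_ne_zero.mpr hk
  have h3 : cr (P.V (k : ℤ) - z) (P.V (j + 1) - P.V j) = 0 := by
    have h4 : cr (P.V (k : ℤ) - z) (P.γ t' - P.γ t) = 0 := by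
      have : P.γ t' - P.γ t = (P.γ t' - z) - (P.γ t - z) := by ring
      rw [this, cr_sub_right, h1, h2, sub_zero]
    rw [e1, cr_mul_right] at h4
    rcases mul_eq_zero.1 h4 with h5 | h5
    · exact absurd (by linarith : t = t') hne
    · exact h5
  obtain ⟨a, ha⟩ := cr_eq_zero hw h3
  obtain ⟨b, hb⟩ := cr_eq_zero hw h1
  have h4 : z - P.γ u = ((-b : ℝ) : ℂ) * (P.V (k : ℤ) - z) -
      ((u - t : ℝ) : ℂ) * (P.V (j + 1) - P.V j) := by
    rw [← e2]
    have : ((-b : ℝ) : ℂ) * (P.V (k : ℤ) - z) = -((b : ℂ) * (P.V (k : ℤ) - z)) := by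
      push_cast; ring
    rw [this, ← hb]
    ring
  rw [h4, cr_sub_right, cr_mul_right, cr_mul_right, cr_self, cr_swap, h3] at hz
  simp at hz

theorem pair (hc : P.CCW) {i1 j1 i2 j2 q : ℤ} {α1 β1 D1 s1 α2 β2 D2 s2 : ℝ}
    (h1 : P.Pivot i1 j1 α1 β1 D1 s1 q) (h2 : P.Pivot i2 j2 α2 β2 D2 s2 q) {x u : ℝ}
    (hxN : NI x) (hx : s1 < x) (hxq : x < q) (hu : u < j1 + 1) (hD1 : D1 < u) (hD2 : u < D2)
    (hv : P.Vis (P.γ x) (P.γ u)) : ∀ δ > 0, ∃ h u' : ℝ, x < h ∧ h < s2 ∧ NI h ∧ |u' - u| < δ ∧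
      P.Vis (P.γ h) (P.γ u') ∧ ∃ ε > 0, ∀ t : ℝ, (q : ℝ) - ε < t → t < q → P.Vis (P.γ h) (P.γ t) := by
  intro δ hδ
  have hj1 := h1.jD
  have huj : (j1 : ℝ) < u := by linarith
  have huN : NI u := (NI_of_Ioo huj hu).1
  obtain ⟨ε0, hε0, hopen⟩ := P.vis_open hc hxN huN hv
  obtain ⟨hvq0, _, _⟩ := P.pair_u hc h1 h2 hx hxq hu hD1 hD2 hv
  have hleft0 : 0 < cr (P.V (j1 + 1) - P.V j1) (P.V q - P.γ u) :=
    Vis.left' hc huj hu hvq0.symm
  have hfin := P.PairMain_finite huj hu hleft0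
  -- choice of `u0`
  obtain ⟨r, hr0, hr1, hr2, hr3', hr4', hr5'⟩ := PairMain_min hε0 (show 0 < δ / 2 by linarith)
    (show 0 < (j1 : ℝ) + 1 - u by linarith) (show 0 < u - D1 by linarith)
    (show 0 < D2 - u by linarith)
  have hr3 : u + r ≤ j1 + 1 := by linarith
  have hr4 : D1 ≤ u - r := by linarith
  have hr5 : u + r ≤ D2 := by linarith
  obtain ⟨u0, hu0, hu0'⟩ := (Ioo_infinite (show u < u + r by linarith)).exists_notMem_finite hfin
  have hu0j : (j1 : ℝ) < u0 := by linarith [hu0.1]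
  have hu0j' : u0 < j1 + 1 := by linarith [hu0.2]
  have hu0N : NI u0 := (NI_of_Ioo hu0j hu0j').1
  have hv0 : P.Vis (P.γ x) (P.γ u0) := hopen x u0 (by simpa using hε0)
    (by rw [abs_lt]; constructor <;> linarith [hu0.1, hu0.2])
  have hD10 : D1 < u0 := by linarith [hu0.1]
  have hD20 : u0 < D2 := by linarith [hu0.2]
  obtain ⟨_, _, hDD⟩ := P.pair_order hc h1 h2 (hD10.trans hD20)
  obtain ⟨hvq, hu1, hu2⟩ := P.pair_u hc h1 h2 hx hxq hu0j' hD10 hD20 hv0
  obtain ⟨hep, hem⟩ := P.pair_left hc h1 h2 hu1 hu2 hDD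
  obtain ⟨h, hh1, hh2, hon, hvh⟩ := P.pair_ray hc h1 h2 hx hxq hu0j' hD10 hD20 hv0
  -- positions on the line
  have hne : P.V q ≠ P.γ u0 := by
    intro h5
    rw [h5, sub_self, cr_zero_left] at hep
    exact lt_irrefl _ hep
  obtain ⟨a, b, ha, hb, hab, hon'⟩ := id hon
  have ha' : a = 1 - b := by linarith
  have hb0 : (b : ℂ) ≠ 0 := by exact_mod_cast hb.ne'
  have hl1 : P.γ h - P.γ u0 = ((1 / b : ℝ) : ℂ) * (P.V q - P.γ u0) := by
    rw [← hon', ha']
    simp only [Complex.real_smul]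
    push_cast
    field_simp
    ring
  have hl2 : P.γ h - P.V q = ((a / b : ℝ) : ℂ) * (P.V q - P.γ u0) := by
    have h5 : P.γ h - P.V q = (P.γ h - P.γ u0) - (P.V q - P.γ u0) := by ring
    rw [h5, hl1, ha']
    push_cast
    field_simp
  have hb1 : 0 < 1 / b := by positivity
  have hab' : 0 < a / b := by positivity
  -- `h` is not a vertex
  have hN : NI h := by
    intro m hm
    apply hu0'
    refine ⟨⟨hu0j, hu0j'⟩, m, ?_, ?_⟩
    · rw [← P.γ_int m, hm]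
      intro h5
      have h6 : ((a / b : ℝ) : ℂ) * (P.V q - P.γ u0) = 0 := by rw [← hl2, h5, sub_self]
      rcases mul_eq_zero.1 h6 with h7 | h7
      · exact hab'.ne' (by exact_mod_cast h7)
      · exact hne (sub_eq_zero.mp h7)
    · rw [← P.γ_int m, hm, hl2, cr_mul_left]
      have h5 : P.γ u0 - P.V q = -(P.V q - P.γ u0) := by ring
      rw [h5, cr_neg_right, cr_self, neg_zero, mul_zero]
  -- `h` sees `u'`
  have hqV : P.γ (q : ℝ) = P.V q := P.γ_int q
  have hepq : P.ep (q : ℝ) = P.V (q + 1) - P.V q := P.ep_int q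
  have hemq : P.em (q : ℝ) = P.V (q - 1) - P.V q := P.em_int q
  obtain ⟨ε1, hε1, hpass⟩ := P.vis_pass hc (h := P.γ h) (u := u0) (x := (q : ℝ)) hu0N
    (by rw [hqV, openSegment_symm]; exact hon) (by rw [hqV]; exact hvh.symm)
    (by rw [hqV]; exact hvq)
    (by rw [hl1, hepq, cr_mul_left]; positivity)
    (by rw [hl1, hemq, cr_mul_left]; positivity)
  obtain ⟨r', hr'0, hr'1', hr'2', hr'3', _, _⟩ := PairMain_min (show 0 < ε1 / 2 by linarith)
    (show 0 < δ / 4 by linarith) (show 0 < (j1 : ℝ) + 1 - u0 by linarith) one_pos one_pos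
  have hr'1 : r' < ε1 := by linarith
  have hr'2 : r' < δ / 2 := by linarith
  have hr'3 : u0 + r' ≤ j1 + 1 := by linarith
  have hleft : 0 < cr (P.V (j1 + 1) - P.V j1) (P.V q - P.γ u0) :=
    Vis.left' hc hu0j hu0j' hvq.symm
  have hvu' : P.Vis (P.γ h) (P.γ (u0 + r')) := by
    apply hpass
    · rw [add_sub_cancel_left, abs_of_pos hr'0]
      exact hr'1
    · have e1 := P.γ_sub j1 u0 (u0 + r') hu0j.le hu0j'.le (by linarith) hr'3
      rw [e1, hl1, cr_mul_left, cr_mul_right, cr_swap, add_sub_cancel_left]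
      have h5 : 0 < 1 / b * (r' * cr (P.V (j1 + 1) - P.V j1) (P.V q - P.γ u0)) := by positivity
      linarith
  obtain ⟨ε2, hε2, hbef⟩ := P.vis_before hc (x0 := (q : ℝ)) (z := P.γ h) (by rw [hqV]; exact hvh)
    (by rw [hqV, hemq, hl2, cr_mul_left]; positivity)
  refine ⟨h, u0 + r', hh1, hh2, hN, ?_, hvu', ε2, hε2, fun t ht ht' => (hbef t ht ht').symm⟩
  rw [abs_lt]
  constructor <;> linarith [hu0.1, hu0.2]

end Poly

end Pool.Agent.Lib_PL
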