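import Pool.Agent.Lib_PL.HookB
import Pool.Agent.Lib_PL.PairMain

/-!
Two hooked items of depth at least two with the same pivot vertex, `D1 < D2`: a representative lies strictly
between `s1` and `s2`.

`X1.s` lies in `(q, D2)` (it is disjoint from `X2.s`, which contains the points just after `D2`).  `Ym1` sees `X1`: take
`x` in the lift `(k', k'+1)` of the edge of `Ym1` with `S1.i + 1 ≤ k'`, `k' + 1 ≤ q` (`t2_loc`), `x ∈ Ym1`, `u ∈ X1.s` visible.
`p2` for 1: `D1 < u`.  `p2` for 2: `x < s2` (as `u ≤ D2`).  `pair` gives `h ∈ (x, s2)` not a vertex, `u' ∈ X1.s`, `D1 < u'`, `h`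
sees `u'` and all points just before `q`.  By `p4` for 1 these points see a point of `S1 ⊆ Bp p L`, so they are in `Bp p (L+1)`
(`Bp_of_vis`), in a component `T` with `T.b = q` (cornered).  If `h` is on the edge of `Ym1`: `h ∈ Ym1` (`see_absorb` with
`X1`), and `Ym1` sees `T`: contradiction with `nocorner`.  So `k' + 1 ≤ h`.  `Good` for the chord from `u'` to `h + n` gives
`M1 ⊆ Side u' (h+n)`, `Rep M1 X1 ω` gives a lift `t1 ∈ (u', h+n]`.  Take `y ∈ (D1, u')`, `s ∈ S1` visible (`approx`, `y ∈ X1`): `hook_a`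
gives `M1 ⊆ Side s y = Side (s+n) (y+n)`, and `Rep M1 X1 ω` for the chord from `y` to `s + n` gives a lift `t2 ∈ [s+n, y+n)`
(the other alternative contradicts `side_disj`).  Then `t1 = t2`, so `t1 - n ∈ [s, h]`, inside `(s1, s2)`.
-/

open Set Complex
open scoped Topology

namespace Pool.Agent.Lib_PL

namespace Poly

variable {n : ℕ} (P : Poly n)

theorem t2_pair (hc : P.CCW) {p : ℂ} {Ω : Finset ℝ}
    (hΩ : ∀ ω ∈ Ω, ∀ ω' ∈ Ω, ω ≠ ω' → P.Vis (P.γ ω) (P.γ ω')) {L : ℕ} {S1 X1 Y1 S2 X2 Y2 : Arc}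
    {M1 M2 : Set ℂ} (h1 : P.HBase Ω S1 X1 M1) (hk1 : P.HookL S1 X1 M1) (t1 : P.T2 p Ω L S1 X1 Y1 M1)
    (h2 : P.HBase Ω S2 X2 M2) (hk2 : P.HookL S2 X2 M2) (t2 : P.T2 p Ω L S2 X2 Y2 M2)
    {D1 s1 D2 s2 : ℝ} {q : ℤ} (hp1 : P.Pivot S1.i X1.i S1.a S1.b D1 s1 q)
    (hp2 : P.Pivot S2.i X2.i S2.a S2.b D2 s2 q) (hD : D1 < D2) (hdis : Disjoint X1.s X2.s) :
    ∃ ω ∈ Ω, ∃ m : ℤ, s1 < ω + m * n ∧ ω + m * n < s2 := by
  have hn : (0 : ℝ) < n := by
    have := P.three_le
    exact_mod_cast (by omega : 0 < n)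
  -- integer inequalities
  have hij1 : (S1.i : ℝ) + 1 ≤ X1.i := by exact_mod_cast h1.ij
  have hji1 : (X1.i : ℝ) + 1 ≤ S1.i + n := by exact_mod_cast h1.ji
  have hq1 : (q : ℝ) ≤ X1.i := by exact_mod_cast hp1.qj
  have hqS1 : (S1.i : ℝ) + 1 ≤ q := by exact_mod_cast hp1.iq
  have hSia := h1.Sia
  have hSab := h1.Sab
  have hSbi := h1.Sbi
  have hXia := h1.Xia
  have hXab := h1.Xab
  have hXbi := h1.Xbi
  have hαs := hp1.αs
  have hsβ := hp1.sβ
  have hjD1 := hp1.jD
  have hDj1 := hp1.Dj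
  have hjD2 := hp2.jD
  have hDj2 := hp2.Dj
  obtain ⟨hXD1, hDX1⟩ := P.hook_D hc h1 hp1
  obtain ⟨hXD2, hDX2⟩ := P.hook_D hc h2 hp2
  -- `X1` is before `D2`
  have hX1D2 : X1.b ≤ D2 := by
    rcases lt_trichotomy X1.i X2.i with h | h | h
    · have : (X1.i : ℝ) + 1 ≤ X2.i := by exact_mod_cast h
      linarith
    · by_contra hcon
      push Not at hcon
      obtain ⟨t, ht1, ht2⟩ := exists_between (lt_min hcon hDX2)
      rw [lt_min_iff] at ht2
      exact Set.disjoint_left.1 hdis (show t ∈ X1.s from ⟨by linarith, ht2.1⟩)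
        (show t ∈ X2.s from ⟨by linarith, ht2.2⟩)
    · exfalso
      have : (X2.i : ℝ) + 1 ≤ X1.i := by exact_mod_cast h
      linarith
  -- a point of `Ym1` which sees `X1`
  obtain ⟨m, hm1, hm2⟩ := P.t2_loc hc hΩ h1 hk1 t1 hp1
  have hm1' : (S1.i : ℝ) + 1 ≤ Y1.i + m * n := by exact_mod_cast hm1
  have hm2' : (Y1.i : ℝ) + m * n + 1 ≤ q := by exact_mod_cast hm2
  obtain ⟨x0, hx0, u, hu, hxu⟩ := t1.sees
  obtain ⟨hx0a, hx0b, -, hx0N⟩ := t1.Yc.mem_floor hx0
  set x : ℝ := x0 + m * n with hxdef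
  have hγx : P.γ x = P.γ x0 := P.γ_add_mul x0 m
  have hxN : NI x := by
    have := NI_add (m * n) hx0N
    push_cast at this
    exact this
  have hvxu : P.Vis (P.γ x) (P.γ u) := by rw [hγx]; exact hxu
  have hu1 : X1.a < u := hu.1
  have hu2 : u < X1.b := hu.2
  have hxk : (Y1.i : ℝ) + m * n < x := by rw [hxdef]; linarith
  have hxk' : x < (Y1.i : ℝ) + m * n + 1 := by rw [hxdef]; linarith
  have hxq : x < q := by linarith
  have hs1x : s1 < x := by linarith
  have hD1u : D1 < u := by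
    by_contra hcon
    push Not at hcon
    exact hp1.p2 x u hs1x.le hxq (by linarith) hcon hvxu
  have huD2 : u < D2 := by linarith
  have hxs2 : x < s2 := by
    by_contra hcon
    push Not at hcon
    exact hp2.p2 x u hcon hxq (by linarith) huD2.le hvxu
  -- the pair lemma
  obtain ⟨h, u', hxh, hhs2, hhN, huu', hvh, ε1, hε1, hsee⟩ := P.pair hc hp1 hp2 hxN hs1x hxq
    (by linarith) hD1u huD2 hvxu (min (u - D1) (X1.b - u))
    (lt_min (by linarith) (by linarith))
  rw [lt_min_iff] at huu'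
  have huu1 := abs_lt.1 huu'.1
  have huu2 := abs_lt.1 huu'.2
  have hD1u' : D1 < u' := by linarith [huu1.1]
  have hu'b : u' < X1.b := by linarith [huu2.2]
  have hu'X : u' ∈ X1.s := ⟨by linarith, hu'b⟩
  have hs2q : s2 < q := by
    have e1 : (S2.i : ℝ) + 1 ≤ q := by exact_mod_cast hp2.iq
    have e2 := hp2.sβ
    have e3 := hp2.βi
    linarith
  have hX1B : X1.s ⊆ P.Bp p (L + 1) := t1.Xc.sub
  -- the cornered component before `q`
  obtain ⟨s4, hs4, ε4, hε4, hsee4⟩ := hp1.p4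
  set ε : ℝ := min (min ε1 ε4) 1 with hεdef
  have hε : 0 < ε := lt_min (lt_min hε1 hε4) one_pos
  have hεε1 : ε ≤ ε1 := (min_le_left _ _).trans (min_le_left _ _)
  have hεε4 : ε ≤ ε4 := (min_le_left _ _).trans (min_le_right _ _)
  have hεε : ε ≤ 1 := min_le_right _ _
  have hBpq : ∀ t : ℝ, (q : ℝ) - ε < t → t < q → t ∈ P.Bp p (L + 1) := by
    intro t ht ht'
    have htN : NI t := by
      refine (NI_of_Ioo (i := q - 1) ?_ ?_).1
      · push_cast; linarith
      · push_cast; linarith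
    exact P.Bp_of_vis (t1.SB hs4) (hsee4 t (by linarith) ht').symm htN
  set t0 : ℝ := q - ε / 2 with ht0
  have ht0B : t0 ∈ P.Bp p (L + 1) := hBpq t0 (by rw [ht0]; linarith) (by rw [ht0]; linarith)
  obtain ⟨T, hT, ht0T⟩ := P.exists_comp hc ht0B
  have hTi : T.i = q - 1 := by
    obtain ⟨k1, k2, -, -⟩ := hT.mem_floor ht0T
    have e1 : (T.i : ℝ) < q := by rw [ht0] at k1; linarith
    have e2 : (q : ℝ) < T.i + 2 := by rw [ht0] at k2; linarith
    have e1' : T.i < q := by exact_mod_cast e1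
    have e2' : q < T.i + 2 := by exact_mod_cast e2
    omega
  have hTb : T.b = T.i + 1 := by
    apply le_antisymm hT.bi
    rw [hTi]
    push_cast
    by_contra hcon
    push Not at hcon
    have hcon' : T.b < q := by linarith
    have ht0b : t0 < T.b := ht0T.2
    have hmem : T.b ∈ T.s := by
      refine P.comp_absorb hT ht0T ?_
      intro w hw
      rw [uIcc_of_le ht0b.le] at hw
      exact hBpq w (by rw [ht0] at hw; linarith [hw.1]) (by linarith [hw.2])
    exact lt_irrefl _ hmem.2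
  have hTc : T.Cornered := Or.inr hTb
  -- `h` is beyond the edge of `Ym1`
  have hkh : (Y1.i : ℝ) + m * n + 1 ≤ h := by
    by_contra hcon
    push Not at hcon
    have hγh : P.γ (h - m * n) = P.γ h := by
      have := P.γ_add_mul (h - m * n) m
      rw [sub_add_cancel] at this
      exact this.symm
    have hhY : h - m * n ∈ Y1.s := by
      refine P.see_absorb hc hXia.le hXbi.le hX1B t1.Yc t1.sees (by linarith) (by linarith)
        ⟨u', hu'X, ?_⟩
      rw [hγh]
      exact hvh.symm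
    refine t1.nocorner T hT hTc ⟨h - m * n, hhY, t0, ht0T, ?_⟩
    rw [hγh]
    exact hsee t0 (by rw [ht0]; linarith) (by rw [ht0]; linarith)
  -- first lift
  obtain ⟨ω, hω, hrep⟩ := t1.repX
  obtain ⟨z0, hz0⟩ := h1.Mne
  have hvu'h : P.Vis (P.γ u') (P.γ (h + n)) := by
    rw [P.γ_add_n]
    exact hvh.symm
  have hu'h : u' < h + n := by linarith
  have hhu' : h + n < u' + n := by linarith
  have hhnN : NI (h + n) := by
    have := NI_add (n : ℤ) hhN
    push_cast at this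
    exact this
  have hM1 : M1 ⊆ P.Side u' (h + n) := by
    refine (t1.good u' (h + n) hu'X hhnN hu'h hhu' hvu'h (m + 1)).1 ?_ ?_
    · push_cast
      linarith
    · push_cast
      linarith
  have hdis1 := P.side_disj hc hu'h hhu' hvu'h
  obtain ⟨m1, hm11, hm12⟩ : ∃ m1 : ℤ, u' < ω + m1 * n ∧ ω + m1 * n ≤ h + n := by
    rcases hrep.rep u' (h + n) hu'X hhnN hu'h hhu' hvu'h with ⟨-, hh⟩ | ⟨hh, -⟩
    · exact hh
    · exact absurd (hh hz0) (Set.disjoint_left.1 hdis1 (hM1 hz0))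
  -- second lift
  obtain ⟨s, y, hs1s, -, hsb, hD1y, hyε, hyj, hvsy⟩ := hp1.approx (u' - D1) (by linarith)
  have hsS : s ∈ S1.s := ⟨by linarith, hsb⟩
  have hyu' : y < u' := by linarith
  have hyX : y ∈ X1.s := ⟨by linarith, by linarith⟩
  have hM1' : M1 ⊆ P.Side s y := P.hook_a hc h1 hk1 hsS (by linarith) hyj hvsy
  have hsy : s < y := by linarith
  have hysn : y < s + n := by linarith
  have hsN : NI s := (NI_of_Ioo (i := S1.i) (by linarith) (by linarith)).1
  have hsnN : NI (s + n) := by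
    have := NI_add (n : ℤ) hsN
    push_cast at this
    exact this
  have hvys : P.Vis (P.γ y) (P.γ (s + n)) := by
    rw [P.γ_add_n]
    exact hvsy.symm
  have hdis2 := P.side_disj hc hsy hysn hvsy
  obtain ⟨m2, hm21, hm22⟩ : ∃ m2 : ℤ, s + n ≤ ω + m2 * n ∧ ω + m2 * n < y + n := by
    rcases hrep.rep y (s + n) hyX hsnN hysn (by linarith) hvys with ⟨hh, -⟩ | ⟨-, hh⟩
    · exact absurd (hh hz0) (Set.disjoint_left.1 hdis2 (hM1' hz0))
    · exact hh
  -- the lifts are equal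
  have hmm : m1 = m2 := by
    have e1 : ((m1 : ℝ) - m2) * n < n := by linarith
    have e2 : ((m2 : ℝ) - m1) * n < n := by linarith
    have e3 : (m1 : ℝ) - m2 < 1 := by
      by_contra hcon
      push Not at hcon
      nlinarith
    have e4 : (m2 : ℝ) - m1 < 1 := by
      by_contra hcon
      push Not at hcon
      nlinarith
    have e5 : m1 < m2 + 1 := by exact_mod_cast (by linarith : (m1 : ℝ) < m2 + 1)
    have e6 : m2 < m1 + 1 := by exact_mod_cast (by linarith : (m2 : ℝ) < m1 + 1)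
    omega
  subst hmm
  refine ⟨ω, hω, m1 - 1, ?_, ?_⟩
  · push_cast
    linarith
  · push_cast
    linarith

end Poly

end Pool.Agent.Lib_PL
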