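import Pool.Agent.Lib_PL.PivotMain

/-!
Two pivots with the same vertex `q`, `D1 < D2`.

`L1 = [γ D1, γ s1]`, `L2 = [γ D2, γ s2]` both contain `V q` in the open segment and the curve at `q` is weakly left of both
(`epl`, `eml`).  They are not on one line: the directions would agree (`eml`), so `D1`, `D2` would be on one ray
from `V q`; the nearer one is a non-vertex point of the curve inside the other segment (or they coincide),
but its edge is transversal (`tE`) and the segment is in `R`: contradiction (`seg_sector'`); if `γ D1 = γ D2` then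
`D1 = D2`.  So the segments cross transversally at `V q`, hence so do the approximating chords; two crossing
chords interleave (`nest_chords`, `cross_chords`).  Letting the chords converge: `s1 ≤ s2`, `D2 ≤ s1 + n`, and
equality is impossible (a common end point of `L1` and `L2` besides `V q`).  Sign of `cr (γ D1 - V q) (γ D2 - V q)`: the order
of the four ends is `s1 < s2 < D1 < D2`; `γ D2` is in `Side D1.. ` (use `side_local`/`Side` of the chords of the first pivot:
`D2` is on the right side of `L1`).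
-/

open Set Complex
open scoped Topology

namespace Pool.Agent.Lib_PL

namespace Poly

variable {n : ℕ} (P : Poly n)

private theorem PairOrder_sub_of_open {A B c : ℂ} (h : c ∈ openSegment ℝ A B) :
    ∃ t : ℝ, 0 < t ∧ t < 1 ∧ c = A + (t : ℂ) * (B - A) := by
  obtain ⟨s, t, hs, ht, hst, rfl⟩ := h
  refine ⟨t, ht, by linarith, ?_⟩
  have : s = 1 - t := by linarith
  subst this
  simp only [Complex.real_smul]
  push_cast
  ring

private theorem PairOrder_open_of {A B : ℂ} {t : ℝ} (h0 : 0 < t) (h1 : t < 1) :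
    A + (t : ℂ) * (B - A) ∈ openSegment ℝ A B := by
  refine ⟨1 - t, t, by linarith, h0, by ring, ?_⟩
  simp only [Complex.real_smul]
  push_cast
  ring

private theorem PairOrder_cross {A1 B1 A2 B2 : ℂ}
    (h : cr (B1 - A1) (A2 - A1) * cr (B1 - A1) (B2 - A1) < 0)
    (h' : cr (B2 - A2) (A1 - A2) * cr (B2 - A2) (B1 - A2) < 0) :
    ∃ c, c ∈ openSegment ℝ A1 B1 ∧ c ∈ openSegment ℝ A2 B2 := by
  set p := B1 - A1 with hp
  set q := B2 - A2 with hq
  set r := A2 - A1 with hr
  have e1 : B2 - A1 = r + q := by rw [hr, hq]; ring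
  have e2 : A1 - A2 = -r := by rw [hr]; ring
  have e3 : B1 - A2 = p - r := by rw [hr, hp]; ring
  rw [e1, cr_add_right] at h
  rw [e2, e3, cr_neg_right, cr_sub_right q p r] at h'
  have hswap : cr q p = -cr p q := cr_swap _ _
  rw [hswap] at h'
  -- the two parameters
  have hD : cr p q ≠ 0 := by
    intro h0
    rw [h0] at h
    nlinarith [mul_self_nonneg (cr p r)]
  have hu : 0 < -cr p r / cr p q ∧ -cr p r / cr p q < 1 := by
    rcases lt_or_gt_of_ne hD with h0 | h0
    · constructor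
      · rw [div_pos_iff]
        right
        refine ⟨?_, h0⟩
        by_contra h1
        push Not at h1
        nlinarith
      · rw [div_lt_one_of_neg h0]
        by_contra h1
        push Not at h1
        nlinarith
    · constructor
      · rw [div_pos_iff]
        left
        refine ⟨?_, h0⟩
        by_contra h1
        push Not at h1
        nlinarith
      · rw [div_lt_one h0]
        by_contra h1
        push Not at h1
        nlinarith
  have ht : 0 < -cr q r / cr p q ∧ -cr q r / cr p q < 1 := by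
    rcases lt_or_gt_of_ne hD with h0 | h0
    · constructor
      · rw [div_pos_iff]
        right
        refine ⟨?_, h0⟩
        by_contra h1
        push Not at h1
        nlinarith
      · rw [div_lt_one_of_neg h0]
        by_contra h1
        push Not at h1
        nlinarith
    · constructor
      · rw [div_pos_iff]
        left
        refine ⟨?_, h0⟩
        by_contra h1
        push Not at h1
        nlinarith
      · rw [div_lt_one h0]
        by_contra h1
        push Not at h1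
        nlinarith
  refine ⟨A2 + ((-cr p r / cr p q : ℝ) : ℂ) * q, ?_, PairOrder_open_of hu.1 hu.2⟩
  have hc : A2 + ((-cr p r / cr p q : ℝ) : ℂ) * q = A1 + ((-cr q r / cr p q : ℝ) : ℂ) * (B1 - A1) := by
    have hdep := cr_dep p q r
    have hDc : (cr p q : ℂ) ≠ 0 := by exact_mod_cast hD
    have hrp : cr r p = -cr p r := cr_swap _ _
    rw [hrp] at hdep
    have hA : A2 = A1 + r := by rw [hr]; ring
    rw [← hp, hA]
    push_cast at hdep ⊢
    field_simp
    linear_combination hdep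
  rw [hc]
  exact PairOrder_open_of ht.1 ht.2

variable {P}

private theorem PairOrder_chords (hc : P.CCW) {q a b x y : ℝ} (haq : a < q) (hqb : q < b)
    (hba : b < a + n) (hxq : x < q) (hyx : y < x + n) (hby : b < y)
    (h : P.Vis (P.γ a) (P.γ b)) (h' : P.Vis (P.γ x) (P.γ y)) {c : ℂ}
    (hc1 : c ∈ openSegment ℝ (P.γ a) (P.γ b)) (hc2 : c ∈ openSegment ℝ (P.γ x) (P.γ y))
    (hcr : cr (P.γ b - P.γ a) (P.γ y - P.γ x) ≠ 0) :
    a < x ∧ y < a + n ∧ 0 < cr (P.γ b - P.γ a) (P.γ y - P.γ x) := by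
  obtain ⟨t, ht0, ht1, htc⟩ := PairOrder_sub_of_open hc1
  obtain ⟨u, hu0, hu1, huc⟩ := PairOrder_sub_of_open hc2
  have hdisj : ¬ Disjoint (segment ℝ (P.γ a) (P.γ b)) (segment ℝ (P.γ x) (P.γ y)) := by
    rw [Set.not_disjoint_iff]
    exact ⟨c, openSegment_subset_segment ℝ _ _ hc1, openSegment_subset_segment ℝ _ _ hc2⟩
  have hax : a < x := by
    rcases lt_trichotomy a x with h1 | h1 | h1
    · exact h1
    · exfalso
      subst h1
      apply hcr
      have e1 : cr ((t : ℂ) * (P.γ b - P.γ a)) ((u : ℂ) * (P.γ y - P.γ a)) = 0 := by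
        have e2 : (t : ℂ) * (P.γ b - P.γ a) = (u : ℂ) * (P.γ y - P.γ a) := by
          have : P.γ a + (t : ℂ) * (P.γ b - P.γ a) = P.γ a + (u : ℂ) * (P.γ y - P.γ a) := by
            rw [← htc, ← huc]
          exact add_left_cancel this
        rw [e2]; exact cr_self _
      rw [cr_mul_left, cr_mul_right] at e1
      rcases mul_eq_zero.1 e1 with h2 | h2
      · exact absurd h2 ht0.ne'
      · rcases mul_eq_zero.1 h2 with h3 | h3
        · exact absurd h3 hu0.ne'
        · exact h3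
    · exfalso
      exact hdisj (P.nest_chords hc h1 (haq.trans hqb) hby hyx h' h).symm
  have hya : y < a + n := by
    rcases lt_trichotomy y (a + n) with h1 | h1 | h1
    · exact h1
    · exfalso
      apply hcr
      have hy : P.γ y = P.γ a := by rw [h1, P.γ_add_n]
      rw [hy] at huc ⊢
      have e1 : cr ((t : ℂ) * (P.γ b - P.γ a)) (((1 - u : ℝ) : ℂ) * (P.γ x - P.γ a)) = 0 := by
        have e2 : (t : ℂ) * (P.γ b - P.γ a) = ((1 - u : ℝ) : ℂ) * (P.γ x - P.γ a) := by
          have : P.γ a + (t : ℂ) * (P.γ b - P.γ a) = P.γ x + (u : ℂ) * (P.γ a - P.γ x) := by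
            rw [← htc, ← huc]
          push_cast
          linear_combination this
        rw [e2]; exact cr_self _
      rw [cr_mul_left, cr_mul_right] at e1
      have e3 : P.γ a - P.γ x = -(P.γ x - P.γ a) := by ring
      rw [e3, cr_neg_right, neg_eq_zero]
      rcases mul_eq_zero.1 e1 with h2 | h2
      · exact absurd h2 ht0.ne'
      · rcases mul_eq_zero.1 h2 with h3 | h3
        · linarith
        · exact h3
    · exfalso
      have h2 : P.Vis (P.γ b) (P.γ (a + n)) := by rw [P.γ_add_n]; exact h.symm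
      have h3 := P.nest_chords hc (hxq.trans hqb) hba h1 hyx h' h2
      rw [P.γ_add_n, segment_symm ℝ (P.γ b)] at h3
      exact hdisj h3.symm
  refine ⟨hax, hya, ?_⟩
  have hab : a < b := haq.trans hqb
  rcases lt_or_gt_of_ne hcr with h0 | h0
  · exfalso
    -- the part of the second chord beyond `c`
    have hyc : P.γ y - c = ((1 - u : ℝ) : ℂ) * (P.γ y - P.γ x) := by
      rw [huc]; push_cast; ring
    set M : Set ℂ := (fun τ : ℝ => c + (τ : ℂ) * (P.γ y - c)) '' Ioc 0 1 with hM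
    have hMc : IsPreconnected M := by
      refine isPreconnected_Ioc.image _ ?_
      fun_prop
    have hMR : M ⊆ P.R := by
      rintro _ ⟨τ, hτ, rfl⟩
      apply h'.seg
      refine ⟨1 - (u + τ * (1 - u)), u + τ * (1 - u), ?_, ?_, by ring, ?_⟩
      · nlinarith [hτ.1, hτ.2]
      · nlinarith [hτ.1, hτ.2]
      · simp only [Complex.real_smul]
        rw [hyc, huc]
        push_cast
        ring
    have hMd : Disjoint M (segment ℝ (P.γ a) (P.γ b)) := by
      rw [Set.disjoint_left]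
      rintro _ ⟨τ, hτ, rfl⟩ hm
      obtain ⟨v, w, hv, hw, hvw, he⟩ := hm
      have e1 : (τ : ℂ) * (P.γ y - c) = ((w - t : ℝ) : ℂ) * (P.γ b - P.γ a) := by
        have hv' : v = 1 - w := by linarith
        subst hv'
        simp only [Complex.real_smul] at he
        have he2 : c + (τ : ℂ) * (P.γ y - c) = ((1 - w : ℝ) : ℂ) * P.γ a + (w : ℂ) * P.γ b := he.symm
        have he3 : (τ : ℂ) * (P.γ y - c) = ((1 - w : ℝ) : ℂ) * P.γ a + (w : ℂ) * P.γ b - c := by
          linear_combination he2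
        rw [he3, htc]
        push_cast
        ring
      have e2 : cr (P.γ b - P.γ a) ((τ : ℂ) * (P.γ y - c)) = 0 := by
        rw [e1, cr_mul_right, cr_self, mul_zero]
      rw [hyc, cr_mul_right, cr_mul_right] at e2
      rcases mul_eq_zero.1 e2 with h2 | h2
      · exact absurd h2 hτ.1.ne'
      · rcases mul_eq_zero.1 h2 with h3 | h3
        · linarith
        · exact hcr h3
    have hyM : P.γ y ∈ M := ⟨1, ⟨by norm_num, le_refl _⟩, by simp⟩
    have hyS : P.γ y ∈ P.Side b (a + n) := P.side_arc' hab h ⟨hby, hya⟩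
    have hd := P.side_disj hc hab hba h
    have hMS : M ⊆ P.Side b (a + n) := by
      rcases P.side_conn hc hab hba h hMc hMR hMd with h2 | h2
      · exact absurd hyS (Set.disjoint_left.1 hd (h2 hyM))
      · exact h2
    obtain ⟨ρ, hρ, hloc⟩ := P.side_local hc hab hba h hc1
    have hK : 0 < ‖P.γ y - c‖ + 1 := by positivity
    set τ : ℝ := min 1 (ρ / (2 * (‖P.γ y - c‖ + 1))) with hτ
    have hτ0 : 0 < τ := lt_min one_pos (by positivity)
    have hτ1 : τ ≤ 1 := min_le_left _ _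
    have hτ2 : τ * (‖P.γ y - c‖ + 1) ≤ ρ / 2 := by
      have : τ ≤ ρ / (2 * (‖P.γ y - c‖ + 1)) := min_le_right _ _
      calc τ * (‖P.γ y - c‖ + 1) ≤ ρ / (2 * (‖P.γ y - c‖ + 1)) * (‖P.γ y - c‖ + 1) :=
            mul_le_mul_of_nonneg_right this hK.le
        _ = ρ / 2 := by field_simp
    have hn : ‖(τ : ℂ) * (P.γ y - c)‖ < ρ := by
      rw [norm_mul, Complex.norm_real, Real.norm_eq_abs, abs_of_pos hτ0]
      nlinarith [norm_nonneg (P.γ y - c)]
    have h3 : c + (τ : ℂ) * (P.γ y - c) ∈ P.Side a b := by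
      refine (hloc _ hn).1 ?_
      rw [hyc, cr_mul_right, cr_mul_right]
      have : 0 < τ * (1 - u) := mul_pos hτ0 (by linarith)
      nlinarith
    exact Set.disjoint_left.1 hd h3 (hMS ⟨τ, ⟨hτ0, hτ1⟩, rfl⟩)
  · exact h0

private theorem PairOrder_par (hc : P.CCW) {A B : ℂ} {x : ℝ} (hx : NI x)
    (hR : segment ℝ A B ⊆ P.R) (hm : P.γ x ∈ openSegment ℝ A B) : cr (P.ed x) (B - A) = 0 := by
  obtain ⟨h1, h2⟩ := P.seg_sector' hc hR hm
  obtain ⟨t, ht, hep⟩ := P.ep_NI hx
  obtain ⟨t', ht', hem⟩ := P.em_NI hx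
  have h0 : cr (P.em x) (P.ep x) = 0 := by
    rw [hep, hem, cr_neg_left, cr_mul_left, cr_mul_right, cr_self]; simp
  rw [InSector_flat h0, hem, cr_neg_left, cr_mul_left] at h1 h2
  have e : A - B = -(B - A) := by ring
  rw [e, cr_neg_right] at h1
  have h3 : ¬ cr (P.ed x) (B - A) < 0 := fun h => h2 (by nlinarith)
  have h4 : ¬ 0 < cr (P.ed x) (B - A) := fun h => h1 (by nlinarith)
  linarith [not_lt.1 h3, not_lt.1 h4]

variable (P)

theorem pair_order (hc : P.CCW) {i1 j1 i2 j2 q : ℤ} {α1 β1 D1 s1 α2 β2 D2 s2 : ℝ}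
    (h1 : P.Pivot i1 j1 α1 β1 D1 s1 q) (h2 : P.Pivot i2 j2 α2 β2 D2 s2 q) (hD : D1 < D2) :
    s1 < s2 ∧ D2 < s1 + n ∧ 0 < cr (P.γ D1 - P.V q) (P.γ D2 - P.V q) := by
  have hq1 : (i1 : ℝ) + 1 ≤ q := by exact_mod_cast h1.iq
  have hq1' : (q : ℝ) ≤ j1 := by exact_mod_cast h1.qj
  have hj1 : (j1 : ℝ) + 1 ≤ i1 + n := by exact_mod_cast (by have := h1.ji; omega : j1 + 1 ≤ i1 + n)
  have hq2 : (i2 : ℝ) + 1 ≤ q := by exact_mod_cast h2.iq
  have hq2' : (q : ℝ) ≤ j2 := by exact_mod_cast h2.qj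
  have hj2 : (j2 : ℝ) + 1 ≤ i2 + n := by exact_mod_cast (by have := h2.ji; omega : j2 + 1 ≤ i2 + n)
  have a1 := h1.iα; have b1 := h1.βi; have c1 := h1.jD; have d1 := h1.Dj; have e1 := h1.αs; have f1 := h1.sβ
  have a2 := h2.iα; have b2 := h2.βi; have c2 := h2.jD; have d2 := h2.Dj; have e2 := h2.αs; have f2 := h2.sβ
  have hs1q : s1 < q := by linarith
  have hs2q : s2 < q := by linarith
  have hqD1 : (q : ℝ) < D1 := by linarith
  have hqD2 : (q : ℝ) < D2 := by linarith
  -- coordinates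
  obtain ⟨t1, ht1, ht1', hV1⟩ := PairOrder_sub_of_open h1.onL
  obtain ⟨t2, ht2, ht2', hV2⟩ := PairOrder_sub_of_open h2.onL
  set x1 := P.γ D1 - P.V q with hx1
  set x2 := P.γ D2 - P.V q with hx2
  set w1 := P.γ s1 - P.γ D1 with hw1
  set w2 := P.γ s2 - P.γ D2 with hw2
  have hxw1 : x1 = -((t1 : ℂ) * w1) := by rw [hx1, hV1]; ring
  have hxw2 : x2 = -((t2 : ℂ) * w2) := by rw [hx2, hV2]; ring
  have hy1 : P.γ s1 - P.V q = ((1 - t1 : ℝ) : ℂ) * w1 := by
    rw [hV1]; push_cast; rw [hw1]; ring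
  have hy2 : P.γ s2 - P.V q = ((1 - t2 : ℝ) : ℂ) * w2 := by
    rw [hV2]; push_cast; rw [hw2]; ring
  have hcrx : cr x1 x2 = t1 * t2 * cr w1 w2 := by
    rw [hxw1, hxw2, cr_neg_left, cr_neg_right, cr_mul_left, cr_mul_right]; ring
  -- not collinear
  have hne : cr w1 w2 ≠ 0 := by
    intro h0
    have hem1 := h1.eml
    have hem2 := h2.eml
    rw [← hw1] at hem1
    rw [← hw2] at hem2
    have hw1ne : w1 ≠ 0 := by
      intro h; rw [h, cr_zero_left] at hem1; exact lt_irrefl _ hem1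
    obtain ⟨r, hr⟩ := cr_eq_zero hw1ne h0
    have hrpos : 0 < r := by
      rw [hr, cr_mul_left] at hem2
      by_contra h
      push Not at h
      nlinarith
    -- `γ D1 = V q - t1 w1`, `γ D2 = V q - t2 r w1`
    have hD1 : P.γ D1 = P.V q - ((t1 : ℝ) : ℂ) * w1 := by
      have : P.γ D1 = P.V q + x1 := by rw [hx1]; ring
      rw [this, hxw1]; ring
    have hD2 : P.γ D2 = P.V q - ((t2 * r : ℝ) : ℂ) * w1 := by
      have : P.γ D2 = P.V q + x2 := by rw [hx2]; ring
      rw [this, hxw2, hr]; push_cast; ring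
    rcases lt_trichotomy (t2 * r) t1 with h3 | h3 | h3
    · -- `γ D2` inside `L1`
      have hm : P.γ D2 ∈ openSegment ℝ (P.γ D1) (P.γ s1) := by
        have : P.γ D2 = P.γ D1 + ((t1 - t2 * r : ℝ) : ℂ) * w1 := by
          rw [hD2, hD1]; push_cast; ring
        rw [this]
        refine PairOrder_open_of (by linarith) ?_
        nlinarith [mul_pos ht2 hrpos]
      obtain ⟨hNI, hfl⟩ := NI_of_Ioo c2 d2
      have h4 := PairOrder_par hc hNI h1.LR hm
      unfold Poly.ed at h4
      rw [hfl, ← hw1] at h4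
      have h5 := h2.tE
      rw [← hw2, hr, cr_mul_right, h4] at h5
      simp at h5
    · -- `γ D1 = γ D2`
      have h4 : P.γ D1 = P.γ D2 := by rw [hD1, hD2, h3]
      have h5 : D1 = D2 := P.γ_inj' (c := q) h4 (by linarith) (by linarith) (by linarith) (by linarith)
      linarith
    · have hm : P.γ D1 ∈ openSegment ℝ (P.γ D2) (P.γ s2) := by
        have hrc : (r : ℂ) ≠ 0 := by exact_mod_cast hrpos.ne'
        have hw1' : w1 = ((r⁻¹ : ℝ) : ℂ) * w2 := by rw [hr]; push_cast; field_simp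
        have : P.γ D1 = P.γ D2 + ((t2 - t1 * r⁻¹ : ℝ) : ℂ) * w2 := by
          have hD2' : P.γ D2 = P.V q - ((t2 : ℝ) : ℂ) * w2 := by
            have : P.γ D2 = P.V q + x2 := by rw [hx2]; ring
            rw [this, hxw2]; ring
          rw [hD1, hD2', hw1']; push_cast; ring
        rw [this]
        have h6 : t1 * r⁻¹ < t2 := by
          rw [← div_eq_mul_inv, div_lt_iff₀ hrpos]; exact h3
        refine PairOrder_open_of (by linarith) ?_
        have : 0 < t1 * r⁻¹ := mul_pos ht1 (inv_pos.2 hrpos)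
        linarith
      obtain ⟨hNI, hfl⟩ := NI_of_Ioo c1 d1
      have h4 := PairOrder_par hc hNI h2.LR hm
      unfold Poly.ed at h4
      rw [hfl, ← hw2, hr, cr_mul_right] at h4
      have h5 := h1.tE
      rw [← hw1] at h5
      rcases mul_eq_zero.1 h4 with h6 | h6
      · exact absurd h6 hrpos.ne'
      · linarith
  -- the open condition on the four positions
  set F1 : ℝ × ℝ × ℝ × ℝ → ℝ := fun z => cr (P.γ z.2.1 - P.γ z.1) (P.γ z.2.2.1 - P.γ z.1) *
    cr (P.γ z.2.1 - P.γ z.1) (P.γ z.2.2.2 - P.γ z.1) with hF1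
  set F2 : ℝ × ℝ × ℝ × ℝ → ℝ := fun z => cr (P.γ z.2.2.2 - P.γ z.2.2.1) (P.γ z.1 - P.γ z.2.2.1) *
    cr (P.γ z.2.2.2 - P.γ z.2.2.1) (P.γ z.2.1 - P.γ z.2.2.1) with hF2
  set F3 : ℝ × ℝ × ℝ × ℝ → ℝ := fun z => cr w1 w2 *
    cr (P.γ z.2.1 - P.γ z.1) (P.γ z.2.2.2 - P.γ z.2.2.1) with hF3
  have hγ := P.γ_cont
  have hcrc := cr_continuous
  have hcr2 : ∀ f g : ℝ × ℝ × ℝ × ℝ → ℂ, Continuous f → Continuous g →
      Continuous fun z => cr (f z) (g z) := fun f g hf hg => hcrc.comp (hf.prodMk hg)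
  have k1 : Continuous fun z : ℝ × ℝ × ℝ × ℝ => P.γ z.1 := hγ.comp (by fun_prop)
  have k2 : Continuous fun z : ℝ × ℝ × ℝ × ℝ => P.γ z.2.1 := hγ.comp (by fun_prop)
  have k3 : Continuous fun z : ℝ × ℝ × ℝ × ℝ => P.γ z.2.2.1 := hγ.comp (by fun_prop)
  have k4 : Continuous fun z : ℝ × ℝ × ℝ × ℝ => P.γ z.2.2.2 := hγ.comp (by fun_prop)
  have hF1c : Continuous F1 := (hcr2 _ _ (k2.sub k1) (k3.sub k1)).mul (hcr2 _ _ (k2.sub k1) (k4.sub k1))
  have hF2c : Continuous F2 := (hcr2 _ _ (k4.sub k3) (k1.sub k3)).mul (hcr2 _ _ (k4.sub k3) (k2.sub k3))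
  have hF3c : Continuous F3 := continuous_const.mul (hcr2 _ _ (k2.sub k1) (k4.sub k3))
  set z0 : ℝ × ℝ × ℝ × ℝ := (s1, D1, s2, D2) with hz0
  have g1 : P.γ D1 - P.γ s1 = -w1 := by rw [hw1]; ring
  have g2 : P.γ D2 - P.γ s2 = -w2 := by rw [hw2]; ring
  have g3 : P.γ s2 - P.γ s1 = ((1 - t2 : ℝ) : ℂ) * w2 - ((1 - t1 : ℝ) : ℂ) * w1 := by
    rw [← hy1, ← hy2]; ring
  have g4 : P.γ D2 - P.γ s1 = -((t2 : ℂ) * w2) - ((1 - t1 : ℝ) : ℂ) * w1 := by
    rw [← hy1, ← hxw2, hx2]; ring
  have g5 : P.γ s1 - P.γ s2 = ((1 - t1 : ℝ) : ℂ) * w1 - ((1 - t2 : ℝ) : ℂ) * w2 := by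
    rw [← hy1, ← hy2]; ring
  have g6 : P.γ D1 - P.γ s2 = -((t1 : ℂ) * w1) - ((1 - t2 : ℝ) : ℂ) * w2 := by
    rw [← hy2, ← hxw1, hx1]; ring
  have hsq : 0 < cr w1 w2 * cr w1 w2 := mul_self_pos.2 hne
  have hsw : cr w2 w1 = -cr w1 w2 := cr_swap _ _
  have hF1z : F1 z0 < 0 := by
    simp only [hF1, hz0]
    rw [g1, g3, g4]
    simp only [cr_neg_left, cr_sub_right, cr_neg_right, cr_mul_right, cr_self]
    have : 0 < (1 - t2) * t2 := mul_pos (by linarith) ht2
    nlinarith
  have hF2z : F2 z0 < 0 := by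
    simp only [hF2, hz0]
    rw [g2, g5, g6]
    simp only [cr_neg_left, cr_sub_right, cr_neg_right, cr_mul_right, cr_self, hsw]
    have : 0 < (1 - t1) * t1 := mul_pos (by linarith) ht1
    nlinarith
  have hF3z : 0 < F3 z0 := by
    simp only [hF3, hz0]
    rw [g1, g2]
    simp only [cr_neg_left, cr_neg_right]
    nlinarith
  have hopen : IsOpen {z : ℝ × ℝ × ℝ × ℝ | F1 z < 0 ∧ F2 z < 0 ∧ 0 < F3 z} := by
    exact (isOpen_lt hF1c continuous_const).inter
      ((isOpen_lt hF2c continuous_const).inter (isOpen_lt continuous_const hF3c))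
  obtain ⟨ε, hε, hball⟩ := Metric.isOpen_iff.1 hopen z0 ⟨hF1z, hF2z, hF3z⟩
  have main : ∀ δ : ℝ, 0 < δ → s1 < s2 + δ ∧ D2 < s1 + n + δ ∧ 0 < cr w1 w2 := by
    intro δ hδ
    set η : ℝ := min δ (min ε (D2 - D1)) with hη
    have hη0 : 0 < η := lt_min hδ (lt_min hε (by linarith))
    have hη1 : η ≤ δ := min_le_left _ _
    have hη2 : η ≤ ε := (min_le_right _ _).trans (min_le_left _ _)
    have hη3 : η ≤ D2 - D1 := (min_le_right _ _).trans (min_le_right _ _)
    obtain ⟨a, b, ha, ha', ha'', hb, hb', hb'', hab⟩ := h1.approx η hη0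
    obtain ⟨x, y, hx, hx', hx'', hy, hy', hy'', hxy⟩ := h2.approx η hη0
    have hmem : ((a, b, x, y) : ℝ × ℝ × ℝ × ℝ) ∈ Metric.ball z0 ε := by
      rw [Metric.mem_ball, hz0]
      simp only [Prod.dist_eq, Real.dist_eq]
      refine max_lt ?_ (max_lt ?_ (max_lt ?_ ?_)) <;>
      · rw [abs_lt]; constructor <;> linarith
    obtain ⟨hA, hB, hC⟩ := hball hmem
    simp only [hF1, hF2, hF3] at hA hB hC
    obtain ⟨c, hc1, hc2⟩ := PairOrder_cross hA hB
    have hcr : cr (P.γ b - P.γ a) (P.γ y - P.γ x) ≠ 0 := by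
      intro h; rw [h, mul_zero] at hC; exact lt_irrefl _ hC
    obtain ⟨r1, r2, r3⟩ := PairOrder_chords hc (q := q) (by linarith) (by linarith) (by linarith)
      (by linarith) (by linarith) (by linarith) hab hxy hc1 hc2 hcr
    refine ⟨by linarith, by linarith, ?_⟩
    by_contra h
    push Not at h
    nlinarith
  have hpos := (main 1 one_pos).2.2
  have hs12 : s1 ≤ s2 := le_of_forall_pos_lt_add fun δ hδ => (main δ hδ).1
  have hDs : D2 ≤ s1 + n := le_of_forall_pos_lt_add fun δ hδ => (main δ hδ).2.1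
  refine ⟨lt_of_le_of_ne hs12 ?_, lt_of_le_of_ne hDs ?_, ?_⟩
  · intro he
    apply hne
    have e3 : ((1 - t1 : ℝ) : ℂ) * w1 = ((1 - t2 : ℝ) : ℂ) * w2 := by rw [← hy1, ← hy2, he]
    have e4 : cr (((1 - t1 : ℝ) : ℂ) * w1) (((1 - t2 : ℝ) : ℂ) * w2) = 0 := by rw [e3]; exact cr_self _
    rw [cr_mul_left, cr_mul_right] at e4
    rcases mul_eq_zero.1 e4 with h3 | h3
    · linarith
    · rcases mul_eq_zero.1 h3 with h4 | h4
      · linarith
      · exact h4
  · intro he
    apply hne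
    have e3 : P.γ D2 = P.γ s1 := by rw [he, P.γ_add_n]
    have e4 : x2 = ((1 - t1 : ℝ) : ℂ) * w1 := by rw [hx2, e3, hy1]
    have e5 : cr w1 x2 = 0 := by rw [e4, cr_mul_right, cr_self, mul_zero]
    rw [hxw2, cr_neg_right, cr_mul_right] at e5
    have : t2 * cr w1 w2 = 0 := by linarith
    rcases mul_eq_zero.1 this with h4 | h4
    · linarith
    · exact h4
  · rw [hcrx]
    exact mul_pos (mul_pos ht1 ht2) hpos

end Poly

end Pool.Agent.Lib_PL
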