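import Pool.Agent.Lib_PL.HookA
import Pool.Agent.Lib_PL.PairOrder

/-!
Items of depth one.

1A: `V ν` has a lift in `[S2.b, q)` (`hook_ω` with `Ω = {ν}`), it sees `u ∈ X1.s`, which lies in `(q, D2)`: contradiction
with `p2` of the second pivot.

1B: (`w` = the segment from `γ ω1` to `γ ω2`.)  `w` meets no chord `s y`, `s ∈ S1`, `y ∈ X1` on edge `X1.i` (a common point
sees `y ∈ X1`, so it is in `M1` (`all`), but it also sees `s ∈ S1 ⊆ Bp p L`, so it is in `VV p (L+1)`, contradiction with `MN`), so by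
`hook_a` both ends of `w` are in the closed arc from `s` to `y` for all these chords, in the limit (`approx`) in `[s1, D1]`;
in the same way in `[s2, D2]`.  `s1 < s2 < q < D1 < D2 < s1 + n` (`pair_order`), so both ends of `w` are in `[s2, D1]`.
One in `[s2,q)`, the other in `(q,D1]`: `p2` (second pivot).  Both in `[s2,q]`: `z ∈ M1` sees `u ∈ X1.s ⊆ (q,D2)`; prolong the
segment `u z` beyond `z` (`ray_hit`) to `γ a`; it crosses `w` at `z` (if it were collinear with `w`, `γ u` would be an end of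
`w`), so `a` is strictly between the ends of `w` (`cross_chords`/`Side`), hence in `(s2,q)`, and `a` sees `u ∈ (q,D2)`:
contradiction with `p2`.  Both in `[q,D1]`: the hook chord `σ g` of item 2 (`g < q`) has `M2 ⊆ Side σ g`, but both ends of `w`
are on the other side; a straight segment cannot leave and come back (`side_same_vis'`): contradiction.
-/

open Set Complex
open scoped Topology

namespace Pool.Agent.Lib_PL

namespace Poly

variable {n : ℕ} (P : Poly n)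

private theorem HookD_lift_eq {n : ℕ} {x c : ℝ} {m m' : ℤ} (h1 : c < x + m * n)
    (h2 : x + m * n < c + n) (h1' : c < x + m' * n) (h2' : x + m' * n < c + n) : m = m' := by
  have hn : (0 : ℝ) ≤ n := Nat.cast_nonneg n
  rcases lt_trichotomy m m' with h | h | h
  · exfalso
    have h3 : (m : ℝ) + 1 ≤ m' := by exact_mod_cast h
    have h4 : ((m : ℝ) + 1) * n ≤ m' * n := mul_le_mul_of_nonneg_right h3 hn
    linarith
  · exact h
  · exfalso
    have h3 : (m' : ℝ) + 1 ≤ m := by exact_mod_cast h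
    have h4 : ((m' : ℝ) + 1) * n ≤ m * n := mul_le_mul_of_nonneg_right h3 hn
    linarith

/-- the item `X1` lies between `q` and `D2` -/
private theorem HookD_between {Ω : Finset ℝ} {S1 X1 S2 X2 : Arc} {M1 M2 : Set ℂ} (hc : P.CCW)
    (h1 : P.HBase Ω S1 X1 M1) (h2 : P.HBase Ω S2 X2 M2) {D1 s1 D2 s2 : ℝ} {q : ℤ}
    (hp1 : P.Pivot S1.i X1.i S1.a S1.b D1 s1 q) (hp2 : P.Pivot S2.i X2.i S2.a S2.b D2 s2 q)
    (hD : D1 < D2) (hdis : Disjoint X1.s X2.s) {u : ℝ} (hu : u ∈ X1.s) : (q : ℝ) < u ∧ u < D2 := by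
  obtain ⟨d1, d1'⟩ := P.hook_D hc h1 hp1
  obtain ⟨d2, d2'⟩ := P.hook_D hc h2 hp2
  have hq : (q : ℝ) ≤ X1.i := by exact_mod_cast hp1.qj
  have hX := h1.Xia
  refine ⟨by linarith [hu.1], ?_⟩
  by_contra hcon
  push Not at hcon
  have hu2 : u < X1.b := hu.2
  have h3 : D2 < min X1.b X2.b := lt_min (by linarith) d2'
  have e1 : (D2 + min X1.b X2.b) / 2 < X1.b := by
    have := min_le_left X1.b X2.b
    linarith
  have e2 : (D2 + min X1.b X2.b) / 2 < X2.b := by
    have := min_le_right X1.b X2.b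
    linarith
  have e3 : (D2 + min X1.b X2.b) / 2 ∈ X1.s := ⟨by linarith, e1⟩
  have e4 : (D2 + min X1.b X2.b) / 2 ∈ X2.s := ⟨by linarith, e2⟩
  exact Set.disjoint_left.1 hdis e3 e4

/-- two chords from the same point in the same direction -/
private theorem HookD_same_ray {a b c : ℝ} {z : ℂ} (h : P.Vis (P.γ a) (P.γ b))
    (h' : P.Vis (P.γ a) (P.γ c)) (hz : z ∈ openSegment ℝ (P.γ a) (P.γ b))
    (hz' : z ∈ openSegment ℝ (P.γ a) (P.γ c)) : P.γ b = P.γ c := by
  have key : ∀ {A B : ℂ} {w : ℂ}, w ∈ openSegment ℝ A B →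
      ∃ t : ℝ, 0 < t ∧ t < 1 ∧ w = A + (t : ℂ) * (B - A) := by
    intro A B w hw
    obtain ⟨s, t, hs, ht, hst, rfl⟩ := hw
    refine ⟨t, ht, by linarith, ?_⟩
    have : s = 1 - t := by linarith
    subst this
    simp only [Complex.real_smul]
    push_cast
    ring
  have key' : ∀ {A B : ℂ} {t : ℝ}, 0 < t → t < 1 → A + (t : ℂ) * (B - A) ∈ openSegment ℝ A B := by
    intro A B t h0 h1
    refine ⟨1 - t, t, by linarith, h0, by ring, ?_⟩
    simp only [Complex.real_smul]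
    push_cast
    ring
  obtain ⟨t, ht0, ht1, htz⟩ := key hz
  obtain ⟨u, hu0, hu1, huz⟩ := key hz'
  have he : (t : ℂ) * (P.γ b - P.γ a) = (u : ℂ) * (P.γ c - P.γ a) := by
    have : P.γ a + (t : ℂ) * (P.γ b - P.γ a) = P.γ a + (u : ℂ) * (P.γ c - P.γ a) := by
      rw [← htz, ← huz]
    exact add_left_cancel this
  have htc : (t : ℂ) ≠ 0 := by exact_mod_cast ht0.ne'
  have huc : (u : ℂ) ≠ 0 := by exact_mod_cast hu0.ne'
  rcases lt_trichotomy u t with hlt | heq | hgt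
  · exfalso
    -- `γ b` is closer
    have hb : P.γ b = P.γ a + ((u / t : ℝ) : ℂ) * (P.γ c - P.γ a) := by
      push_cast
      field_simp
      linear_combination he
    have hm : P.γ b ∈ openSegment ℝ (P.γ a) (P.γ c) := by
      rw [hb]
      exact key' (div_pos hu0 ht0) ((div_lt_one ht0).2 hlt)
    exact P.I_disj_C (h'.mem hm) (P.γ_mem_C b)
  · rw [heq] at he
    have := mul_left_cancel₀ htc he
    linear_combination this
  · exfalso
    have hb : P.γ c = P.γ a + ((t / u : ℝ) : ℂ) * (P.γ b - P.γ a) := by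
      push_cast
      field_simp
      linear_combination -he
    have hm : P.γ c ∈ openSegment ℝ (P.γ a) (P.γ b) := by
      rw [hb]
      exact key' (div_pos ht0 hu0) ((div_lt_one hu0).2 hgt)
    exact P.I_disj_C (h.mem hm) (P.γ_mem_C c)

/-- prolonging the segment from `u` to a point `z` of the chord `a1 a2` -/
private theorem HookD_prolong (hc : P.CCW) {a1 a2 u : ℝ} {z : ℂ} (h12 : a1 < a2)
    (h2u : a2 < u) (hu1 : u < a1 + n) (h : P.Vis (P.γ a1) (P.γ a2))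
    (hz : z ∈ openSegment ℝ (P.γ a1) (P.γ a2)) (hv : P.Vis (P.γ u) z) :
    ∃ a : ℝ, a1 < a ∧ a < a2 ∧ P.Vis (P.γ a) (P.γ u) := by
  have hzI : z ∈ P.I := h.mem hz
  have hne : P.γ u ≠ z := hv.ne
  obtain ⟨t, ht, htC, htI⟩ := P.ray_hit z hzI (z - P.γ u) (sub_ne_zero.2 (Ne.symm hne))
  obtain ⟨a, ha, ha', hae⟩ := P.mem_C_window a1 htC
  -- the long chord
  have hlong : P.Vis (P.γ u) (P.γ a) := by
    rintro c ⟨r, s, hr, hs, hrs, rfl⟩
    rw [hae]
    have hr' : r = 1 - s := by linarith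
    subst hr'
    -- `c = γ u + s (1 + t) (z - γ u)`
    have hce : ((1 - s : ℝ) • P.γ u + s • (z + (t : ℂ) * (z - P.γ u)) : ℂ) =
        P.γ u + ((s * (1 + t) : ℝ) : ℂ) * (z - P.γ u) := by
      simp only [Complex.real_smul]
      push_cast
      ring
    rw [hce]
    rcases lt_or_ge (s * (1 + t)) 1 with h1 | h1
    · apply hv
      refine ⟨1 - s * (1 + t), s * (1 + t), by linarith, by positivity, by ring, ?_⟩
      simp only [Complex.real_smul]
      push_cast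
      ring
    · have h3 := htI (s * (1 + t) - 1) (by linarith) (by nlinarith)
      have h4 : z + ((s * (1 + t) - 1 : ℝ) : ℂ) * (z - P.γ u) =
          P.γ u + ((s * (1 + t) : ℝ) : ℂ) * (z - P.γ u) := by
        push_cast
        ring
      rwa [h4] at h3
  have hzl : z ∈ openSegment ℝ (P.γ u) (P.γ a) := by
    refine ⟨t / (1 + t), 1 / (1 + t), by positivity, by positivity, by field_simp; ring, ?_⟩
    rw [hae]
    have h1t : ((1 : ℂ) + (t : ℂ)) ≠ 0 := by
      have : (1 + t : ℝ) ≠ 0 := by positivity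
      exact_mod_cast this
    simp only [Complex.real_smul]
    push_cast
    field_simp
    ring
  rcases eq_or_lt_of_le ha with he | hlt
  · exfalso
    subst he
    have h3 := P.HookD_same_ray h hlong.symm hz (by rw [openSegment_symm]; exact hzl)
    have h4 : a2 = u := P.γ_inj' (c := a1) h3 (by linarith) (by linarith) (by linarith) (by linarith)
    linarith
  · rcases lt_trichotomy a a2 with h3 | h3 | h3
    · exact ⟨a, hlt, h3, hlong.symm⟩
    · exfalso
      subst h3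
      have h3 := P.HookD_same_ray h.symm hlong.symm (by rw [openSegment_symm]; exact hz)
        (by rw [openSegment_symm]; exact hzl)
      have h4 : a1 = u := P.γ_inj' (c := a1) h3 (by linarith) (by linarith) (by linarith)
        (by linarith)
      linarith
    · exfalso
      have hv2 : P.Vis (P.γ a2) (P.γ (a1 + n)) := by
        rw [P.γ_add_n]
        exact h.symm
      have hzs : z ∈ segment ℝ (P.γ a2) (P.γ (a1 + n)) := by
        rw [P.γ_add_n, segment_symm]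
        exact openSegment_subset_segment ℝ _ _ hz
      rcases lt_trichotomy a u with h5 | h5 | h5
      · have h6 := P.nest_chords hc h3 h5 hu1 (by linarith) hv2 hlong.symm
        exact Set.disjoint_left.1 h6 hzs (by
          rw [segment_symm]
          exact openSegment_subset_segment ℝ _ _ hzl)
      · subst h5
        exact hlong.ne rfl
      · have h6 := P.nest_chords hc h2u h5 ha' (by linarith) hv2 hlong
        exact Set.disjoint_left.1 h6 hzs (openSegment_subset_segment ℝ _ _ hzl)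

/-- for a chord from `S` to the edge of `X` the ends of `w` are in the closed arc from `s` to `y` -/
private theorem HookD_end_chord (hc : P.CCW) {p : ℂ} {ω1 ω2 : ℝ} {L : ℕ} {S X : Arc} {M : Set ℂ}
    (h : P.HBase {ω1, ω2} S X M) (hk : P.HookL S X M) (t : P.T1B p ω1 ω2 L S X M)
    {ω : ℝ} (hω : ω = ω1 ∨ ω = ω2) {s y : ℝ} (hs : s ∈ S.s) (hy : (X.i : ℝ) < y)
    (hy' : y < X.i + 1) (hv : P.Vis (P.γ s) (P.γ y)) :
    ∃ m : ℤ, s ≤ ω + m * n ∧ ω + m * n ≤ y := by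
  have hyX : y ∈ X.s := h.Z y hy hy' ⟨s, hs, hv⟩
  have hij : (S.i : ℝ) + 1 ≤ X.i := by exact_mod_cast h.ij
  have hji : (X.i : ℝ) + 1 ≤ S.i + n := by exact_mod_cast h.ji
  have hSa := h.Sia
  have hSb := h.Sbi
  have hs1 : S.a < s := hs.1
  have hs2 : s < S.b := hs.2
  have hsy : s < y := by linarith
  have hys : y < s + n := by linarith
  have hwI : openSegment ℝ (P.γ ω1) (P.γ ω2) ⊆ P.I := t.w
  -- `w` misses the chord
  have hdis : Disjoint (openSegment ℝ (P.γ ω1) (P.γ ω2)) (segment ℝ (P.γ s) (P.γ y)) := by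
    rw [Set.disjoint_left]
    intro c hc1 hc2
    have hcI := hwI hc1
    have hcs : c ≠ P.γ s := by
      rintro rfl
      exact P.I_disj_C hcI (P.γ_mem_C s)
    have hcy : c ≠ P.γ y := by
      rintro rfl
      exact P.I_disj_C hcI (P.γ_mem_C y)
    have hco : c ∈ openSegment ℝ (P.γ s) (P.γ y) :=
      mem_openSegment_of_ne_left_right hcs.symm hcy.symm hc2
    have h3 : c ∈ P.VV p (L + 1) := P.VV_of_seg (t.SB hs) hv hco
    have h4 : P.Vis (P.γ y) c := hv.sub (right_mem_segment ℝ _ _) hc2 hcy.symm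
    exact t.MN c (t.all c hc1 ⟨y, hyX, h4⟩) h3
  have hside : openSegment ℝ (P.γ ω1) (P.γ ω2) ⊆ P.Side s y := by
    rcases P.side_conn hc hsy hys hv (convex_openSegment _ _).isPreconnected
      (hwI.trans P.I_sub_R) hdis with h3 | h3
    · exact h3
    · exfalso
      obtain ⟨z, hz⟩ := h.Mne
      have h4 := P.hook_a hc h hk hs hy hy' hv hz
      exact Set.disjoint_left.1 (P.side_disj hc hsy hys hv) h4 (h3 (t.Mw hz))
  have hcl : P.γ ω ∈ closure (openSegment ℝ (P.γ ω1) (P.γ ω2)) := by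
    refine segment_subset_closure_openSegment ?_
    rcases hω with rfl | rfl
    · exact left_mem_segment ℝ _ _
    · exact right_mem_segment ℝ _ _
  have hno : P.γ ω ∉ P.Side y (s + n) := by
    intro h3
    obtain ⟨ρ, hρ, hloc⟩ := P.side_open' hc hsy hys hv h3
    obtain ⟨b, hb, hb'⟩ := Metric.mem_closure_iff.1 hcl ρ hρ
    have h4 := hloc b (P.I_sub_R (hwI hb)) (by rw [← dist_eq_norm, dist_comm]; exact hb')
    exact Set.disjoint_left.1 (P.side_disj hc hsy hys hv) (hside hb) h4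
  by_cases hseg : P.γ ω ∈ segment ℝ (P.γ s) (P.γ y)
  · rcases hv.end_of_C hseg (P.γ_mem_C ω) with h3 | h3
    · obtain ⟨m, hm⟩ := P.γ_inj h3
      exact ⟨m, hm.le, by rw [← hm]; exact hsy.le⟩
    · obtain ⟨m, hm⟩ := P.γ_inj h3
      exact ⟨m, by rw [← hm]; exact hsy.le, hm.ge⟩
  · rcases P.side_union hc hsy hys hv (P.C_sub_R (P.γ_mem_C ω)) hseg with h3 | h3
    · obtain ⟨m, hm, hm'⟩ := P.side_mem_arc hc hsy hys hv h3
      exact ⟨m, hm.le, hm'.le⟩
    · exact absurd h3 hno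

/-- the ends of `w` have a lift in `(s0, D]` -/
private theorem HookD_ends (hc : P.CCW) {p : ℂ} {ω1 ω2 : ℝ} {L : ℕ} {S X : Arc} {M : Set ℂ}
    (h : P.HBase {ω1, ω2} S X M) (hk : P.HookL S X M) (t : P.T1B p ω1 ω2 L S X M)
    {D s0 : ℝ} {q : ℤ} (hp : P.Pivot S.i X.i S.a S.b D s0 q) {ω : ℝ} (hω : ω = ω1 ∨ ω = ω2) :
    ∃ m : ℤ, s0 < ω + m * n ∧ ω + m * n ≤ D := by
  have hij : (S.i : ℝ) + 1 ≤ X.i := by exact_mod_cast h.ij
  have hji : (X.i : ℝ) + 1 ≤ S.i + n := by exact_mod_cast h.ji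
  have e1 := hp.iα
  have e2 := hp.αs
  have e3 := hp.jD
  have step : ∀ ε : ℝ, 0 < ε → ∃ m : ℤ, s0 < ω + m * n ∧ ω + m * n < s0 + n ∧
      ω + m * n < D + ε := by
    intro ε hε
    obtain ⟨s, y, a1, a2, a3, b1, b2, b3, hv⟩ := hp.approx ε hε
    obtain ⟨m, hm, hm'⟩ := P.HookD_end_chord hc h hk t hω (s := s) (y := y) ⟨by linarith, a3⟩
      (by linarith) b3 hv
    exact ⟨m, by linarith, by linarith, by linarith⟩
  obtain ⟨m, hm1, hm2, -⟩ := step 1 one_pos
  refine ⟨m, hm1, le_of_forall_pos_lt_add fun ε hε => ?_⟩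
  obtain ⟨m', h1', h2', h3'⟩ := step ε hε
  have := HookD_lift_eq hm1 hm2 h1' h2'
  rw [this]
  exact h3'

theorem t1a_pair (hc : P.CCW) {p : ℂ} {ν : ℤ} {K : ℕ} {S1 X1 S2 X2 : Arc}
    {M1 M2 : Set ℂ} (h1 : P.HBase {(ν : ℝ)} S1 X1 M1) (hk1 : P.HookL S1 X1 M1)
    (t1 : P.T1A p ν K S1 X1 M1)
    (h2 : P.HBase {(ν : ℝ)} S2 X2 M2) (hk2 : P.HookL S2 X2 M2) (t2 : P.T1A p ν K S2 X2 M2)
    {D1 s1 D2 s2 : ℝ} {q : ℤ} (hp1 : P.Pivot S1.i X1.i S1.a S1.b D1 s1 q)
    (hp2 : P.Pivot S2.i X2.i S2.a S2.b D2 s2 q) (hD : D1 < D2) (hdis : Disjoint X1.s X2.s) :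
    False := by
  obtain ⟨ω, hω, -, m, hm, hm'⟩ := P.hook_ω hc h2 hk2 hp2
  rw [Finset.mem_singleton] at hω
  subst hω
  obtain ⟨u, hu, hv⟩ := t1.sees
  obtain ⟨h3, h4⟩ := P.HookD_between hc h1 h2 hp1 hp2 hD hdis hu
  have hsb := hp2.sβ
  apply hp2.p2 ((ν : ℝ) + m * n) u (by linarith) hm' h3 h4.le
  rw [P.γ_add_mul, P.γ_int]
  exact hv

/-- both ends of `w` after `q` -/
private theorem HookD_after (hc : P.CCW) {Ω : Finset ℝ} {S X : Arc} {M : Set ℂ}
    (h : P.HBase Ω S X M) (hk : P.HookL S X M) {D s0 : ℝ} {q : ℤ}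
    (hp : P.Pivot S.i X.i S.a S.b D s0 q) {a1 a2 : ℝ} {z : ℂ} (hw : P.Vis (P.γ a1) (P.γ a2))
    (hz : z ∈ openSegment ℝ (P.γ a1) (P.γ a2)) (hzM : z ∈ M) (h1 : (q : ℝ) ≤ a1)
    (h2 : (q : ℝ) ≤ a2) (h3 : a1 < D) (h4 : a2 < D) : False := by
  obtain ⟨σ, hσ, g, hg1, hg2, hgN, hv, hM⟩ := hk
  have hgq : g < q := hp.hook_lt hσ hg2 hgN hv
  have hji : (X.i : ℝ) + 1 ≤ S.i + n := by exact_mod_cast h.ji
  have hSa := h.Sia
  have hSb := h.Sbi
  have hDj := hp.Dj
  have hs1 : S.a < σ := hσ.1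
  have hs2 : σ < S.b := hσ.2
  have hij : (S.i : ℝ) + 1 ≤ X.i := by exact_mod_cast h.ij
  have hσg : σ < g := by linarith
  have hgσ : g < σ + n := by linarith
  have m1 : P.γ a1 ∈ P.Side g (σ + n) := P.side_arc' hσg hv ⟨by linarith, by linarith⟩
  have m2 : P.γ a2 ∈ P.Side g (σ + n) := P.side_arc' hσg hv ⟨by linarith, by linarith⟩
  have h5 := P.side_same_vis' hc hσg hgσ hv hw m1 m2 (openSegment_subset_segment ℝ _ _ hz)
  exact Set.disjoint_left.1 (P.side_disj hc hσg hgσ hv) (hM hzM) h5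

theorem t1b_pair (hc : P.CCW) {p : ℂ} {ω1 ω2 : ℝ} {L : ℕ} {S1 X1 S2 X2 : Arc}
    {M1 M2 : Set ℂ} (h1 : P.HBase {ω1, ω2} S1 X1 M1) (hk1 : P.HookL S1 X1 M1)
    (t1 : P.T1B p ω1 ω2 L S1 X1 M1)
    (h2 : P.HBase {ω1, ω2} S2 X2 M2) (hk2 : P.HookL S2 X2 M2) (t2 : P.T1B p ω1 ω2 L S2 X2 M2)
    {D1 s1 D2 s2 : ℝ} {q : ℤ} (hp1 : P.Pivot S1.i X1.i S1.a S1.b D1 s1 q)
    (hp2 : P.Pivot S2.i X2.i S2.a S2.b D2 s2 q) (hD : D1 < D2) (hdis : Disjoint X1.s X2.s) :
    False := by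
  obtain ⟨hs12, hDs, -⟩ := P.pair_order hc hp1 hp2 hD
  have hq1 : s1 < q := by
    have a1 := hp1.sβ
    have a2 := hp1.βi
    have a3 : (S1.i : ℝ) + 1 ≤ q := by exact_mod_cast hp1.iq
    linarith
  -- lifts of the ends
  have lift : ∀ ω : ℝ, ω = ω1 ∨ ω = ω2 → ∃ m : ℤ, s2 < ω + m * n ∧ ω + m * n ≤ D1 := by
    intro ω hω
    obtain ⟨m, hm, hm'⟩ := P.HookD_ends hc h1 hk1 t1 hp1 hω
    obtain ⟨k, hk, hk'⟩ := P.HookD_ends hc h2 hk2 t2 hp2 hω
    have := HookD_lift_eq (n := n) (x := ω) (c := s1) (m := m) (m' := k) hm (by linarith)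
      (by linarith) (by linarith)
    subst this
    exact ⟨m, hk, hm'⟩
  obtain ⟨m1, l1, r1⟩ := lift ω1 (Or.inl rfl)
  obtain ⟨m2, l2, r2⟩ := lift ω2 (Or.inr rfl)
  have g1 : P.γ (ω1 + m1 * n) = P.γ ω1 := P.γ_add_mul ω1 m1
  have g2 : P.γ (ω2 + m2 * n) = P.γ ω2 := P.γ_add_mul ω2 m2
  have hw : P.Vis (P.γ (ω1 + m1 * n)) (P.γ (ω2 + m2 * n)) := by
    rw [g1, g2]
    exact t1.w
  obtain ⟨z1, hz1, u, hu, hzu⟩ := t1.sees
  have hz1w : z1 ∈ openSegment ℝ (P.γ (ω1 + m1 * n)) (P.γ (ω2 + m2 * n)) := by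
    rw [g1, g2]
    exact t1.Mw hz1
  obtain ⟨z2, hz2⟩ := h2.Mne
  have hz2w : z2 ∈ openSegment ℝ (P.γ (ω1 + m1 * n)) (P.γ (ω2 + m2 * n)) := by
    rw [g1, g2]
    exact t2.Mw hz2
  generalize ω1 + m1 * n = a1 at *
  generalize ω2 + m2 * n = a2 at *
  obtain ⟨hu1, hu2⟩ := P.HookD_between hc h1 h2 hp1 hp2 hD hdis hu
  rcases le_or_gt a1 q with ha1 | ha1
  · rcases le_or_gt a2 q with ha2 | ha2
    · -- both before `q`
      rcases lt_trichotomy a1 a2 with h3 | h3 | h3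
      · obtain ⟨a, b1, b2, hv⟩ := P.HookD_prolong hc h3 (by linarith) (by linarith) hw hz1w hzu
        exact hp2.p2 a u (by linarith) (by linarith) hu1 hu2.le hv
      · subst h3
        exact hw.ne rfl
      · obtain ⟨a, b1, b2, hv⟩ := P.HookD_prolong hc h3 (by linarith) (by linarith) hw.symm
          (by rw [openSegment_symm]; exact hz1w) hzu
        exact hp2.p2 a u (by linarith) (by linarith) hu1 hu2.le hv
    · rcases eq_or_lt_of_le ha1 with h3 | h3
      · exact P.HookD_after hc h2 hk2 hp2 hw hz2w hz2 h3.ge ha2.le (by linarith) (by linarith)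
      · exact hp2.p2 a1 a2 l1.le h3 ha2 (by linarith) hw
  · rcases lt_or_ge a2 q with ha2 | ha2
    · exact hp2.p2 a2 a1 l2.le ha2 ha1 (by linarith) hw.symm
    · exact P.HookD_after hc h2 hk2 hp2 hw hz2w hz2 ha1.le ha2 (by linarith) (by linarith)

end Poly

end Pool.Agent.Lib_PL
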