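import Pool.Agent.Lib_PL.HookC
import Pool.Agent.Lib_PL.HookD

/-!
Counting hooked items.

`hook_count`: suppose `F.card > (Ω.card + 1) * n`.  Choose `S, M, D, s0, q` for every `X ∈ F`; by the pigeonhole principle at
least `Ω.card + 2` of them have the same `q` modulo `n`; shift them (`hsh`, `Pivot.shift`) so that `q` is the same.  The `D` are
different (points just after `D` are in the shifted `X`, `comp_canon`); sort them; consecutive ones give representatives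
with lifts in the disjoint intervals `(s_j, s_(j+1))` inside `(q - n, q)`; two of them are the same element of `Ω`:
contradiction.
-/

open Set Complex
open scoped Topology

namespace Pool.Agent.Lib_PL

namespace Poly

variable {n : ℕ} (P : Poly n)

private theorem HookCount_comb {α : Type} [DecidableEq α] {n : ℕ} (hn : 0 < n) (Ω : Finset ℝ)
    (G : Finset α) (D s : α → ℝ) (r : ℝ)
    (hinj : ∀ X ∈ G, ∀ Y ∈ G, D X = D Y → X = Y)
    (hmono : ∀ X ∈ G, ∀ Y ∈ G, D X < D Y → s X < s Y)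
    (hlow : ∀ X ∈ G, ∀ Y ∈ G, D X < D Y → r - n < s X)
    (hup : ∀ X ∈ G, s X < r)
    (hpair : ∀ X ∈ G, ∀ Y ∈ G, D X < D Y → ∃ ω ∈ Ω, ∃ m : ℤ, s X < ω + m * n ∧
      ω + m * n < s Y) : G.card ≤ Ω.card + 1 := by
  suffices h : ∃ Ω' ⊆ Ω, G.card ≤ Ω'.card + 1 ∧ ∀ ω ∈ Ω', ∃ m : ℤ,
      (∃ X ∈ G, ω + m * n < s X) ∧ (∃ Y ∈ G, s Y < ω + m * n) by
    obtain ⟨Ω', h1, h2, -⟩ := h
    exact h2.trans (Nat.add_le_add_right (Finset.card_le_card h1) 1)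
  revert hinj hmono hlow hup hpair
  refine Finset.induction_on_max_value D G ?_ ?_
  · intros
    exact ⟨∅, Finset.empty_subset _, by simp, by simp⟩
  · intro a G' ha hmax ih hinj hmono hlow hup hpair
    have hi : ∀ X ∈ G', X ∈ insert a G' := fun X hX => Finset.mem_insert_of_mem hX
    have haa : a ∈ insert a G' := Finset.mem_insert_self a G'
    obtain ⟨Ω', h1, h2, h3⟩ := ih (fun X hX Y hY => hinj X (hi X hX) Y (hi Y hY))
      (fun X hX Y hY => hmono X (hi X hX) Y (hi Y hY))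
      (fun X hX Y hY => hlow X (hi X hX) Y (hi Y hY)) (fun X hX => hup X (hi X hX))
      (fun X hX Y hY => hpair X (hi X hX) Y (hi Y hY))
    have hlt : ∀ X ∈ G', D X < D a := by
      intro X hX
      refine lt_of_le_of_ne (hmax X hX) fun he => ha ?_
      rw [← hinj X (hi X hX) a haa he]
      exact hX
    rcases G'.eq_empty_or_nonempty with hne | hne
    · subst hne
      exact ⟨∅, Finset.empty_subset _, by simp, by simp⟩
    · obtain ⟨b, hb, hbm⟩ := G'.exists_max_image D hne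
      obtain ⟨ω0, hω0, m0, hm1, hm2⟩ := hpair b (hi b hb) a haa (hlt b hb)
      have hnot : ω0 ∉ Ω' := by
        intro hmem
        obtain ⟨m, ⟨X, hX, hX1⟩, ⟨Y, hY, hY1⟩⟩ := h3 ω0 hmem
        have e1 : s X ≤ s b := by
          rcases (hbm X hX).lt_or_eq with h | h
          · exact (hmono X (hi X hX) b (hi b hb) h).le
          · rw [hinj X (hi X hX) b (hi b hb) h]
        have e2 := hlow Y (hi Y hY) a haa (hlt Y hY)
        have e3 := hup a haa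
        have hn' : (0 : ℝ) < n := by exact_mod_cast hn
        have e4 : (0 : ℝ) < ((m0 - m : ℤ) : ℝ) * n := by
          push_cast
          linarith
        have e5 : ((m0 - m : ℤ) : ℝ) * n < 1 * n := by
          push_cast
          linarith
        have e6 : (0 : ℝ) < ((m0 - m : ℤ) : ℝ) := pos_of_mul_pos_left e4 hn'.le
        have e7 : ((m0 - m : ℤ) : ℝ) < 1 := lt_of_mul_lt_mul_right e5 hn'.le
        have e8 : 0 < m0 - m := by exact_mod_cast e6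
        have e9 : m0 - m < 1 := by exact_mod_cast e7
        omega
      refine ⟨insert ω0 Ω', ?_, ?_, ?_⟩
      · intro ω hω
        rcases Finset.mem_insert.1 hω with rfl | h
        · exact hω0
        · exact h1 h
      · rw [Finset.card_insert_of_notMem hnot, Finset.card_insert_of_notMem ha]
        omega
      · intro ω hω
        rcases Finset.mem_insert.1 hω with rfl | h
        · exact ⟨m0, ⟨a, haa, hm2⟩, ⟨b, hi b hb, hm1⟩⟩
        · obtain ⟨m, ⟨X, hX, hX1⟩, ⟨Y, hY, hY1⟩⟩ := h3 ω h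
          exact ⟨m, ⟨X, hi X hX, hX1⟩, ⟨Y, hi Y hY, hY1⟩⟩

theorem hook_count (hc : P.CCW) {p : ℂ} {k : ℕ} (Ω : Finset ℝ) (Pr : Arc → Arc → Set ℂ → Prop)
    (hsh : ∀ S X M, ∀ m : ℤ, Pr S X M → Pr (S.sh (m * n)) (X.sh (m * n)) M)
    (hpiv : ∀ S X M, Pr S X M → ∃ (D s0 : ℝ) (q : ℤ), P.Pivot S.i X.i S.a S.b D s0 q)
    (hmem : ∀ S X M, Pr S X M → ∀ (D s0 : ℝ) (q : ℤ), P.Pivot S.i X.i S.a S.b D s0 q →
      X.a ≤ D ∧ D < X.b)
    (hpair : ∀ S1 X1 M1 S2 X2 M2, Pr S1 X1 M1 → Pr S2 X2 M2 → ∀ (D1 s1 D2 s2 : ℝ) (q : ℤ),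
      P.Pivot S1.i X1.i S1.a S1.b D1 s1 q → P.Pivot S2.i X2.i S2.a S2.b D2 s2 q → D1 < D2 →
      Disjoint X1.s X2.s → ∃ ω ∈ Ω, ∃ m : ℤ, s1 < ω + m * n ∧ ω + m * n < s2)
    (F : Finset Arc)
    (hF : ∀ X ∈ F, P.IsComp p k X ∧ 0 ≤ X.i ∧ X.i < n ∧ ∃ S M, Pr S X M) :
    F.card ≤ (Ω.card + 1) * n := by
  classical
  by_contra hcon
  rw [not_le] at hcon
  have hn : 0 < n := by
    have := P.three_le
    omega
  have hn' : (0 : ℤ) < n := by exact_mod_cast hn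
  have h1 : ∀ X : Arc, ∃ (S : Arc) (M : Set ℂ) (D s0 : ℝ) (q : ℤ), X ∈ F →
      Pr S X M ∧ P.Pivot S.i X.i S.a S.b D s0 q := by
    intro X
    by_cases hX : X ∈ F
    · obtain ⟨-, -, -, S, M, h⟩ := hF X hX
      obtain ⟨D, s0, q, h'⟩ := hpiv S X M h
      exact ⟨S, M, D, s0, q, fun _ => ⟨h, h'⟩⟩
    · exact ⟨X, ∅, 0, 0, 0, fun h => absurd h hX⟩
  choose S M D s0 q h1 using h1
  obtain ⟨r, hr, hG⟩ := Finset.exists_lt_card_fiber_of_mul_lt_card_of_maps_to (s := F)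
    (t := Finset.Ico (0 : ℤ) n) (f := fun X => q X % n) (n := Ω.card + 1)
    (by
      intro X hX
      rw [Finset.mem_Ico]
      exact ⟨Int.emod_nonneg _ hn'.ne', Int.emod_lt_of_pos _ hn'⟩)
    (by
      rw [Int.card_Ico, sub_zero, Int.toNat_natCast, mul_comm]
      exact hcon)
  set G : Finset Arc := F.filter fun X => q X % n = r with hGdef
  let m : Arc → ℤ := fun X => -(q X / n)
  have hq : ∀ X ∈ G, q X + m X * n = r := by
    intro X hX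
    rw [← (Finset.mem_filter.1 hX).2, Int.emod_def]
    ring
  have hGF : ∀ X ∈ G, X ∈ F := fun X hX => (Finset.mem_filter.1 hX).1
  have hPr : ∀ X ∈ G, Pr ((S X).sh (m X * n)) (X.sh (m X * n)) (M X) :=
    fun X hX => hsh _ _ _ _ (h1 X (hGF X hX)).1
  have hPv : ∀ X ∈ G, P.Pivot ((S X).sh (m X * n)).i (X.sh (m X * n)).i
      ((S X).sh (m X * n)).a ((S X).sh (m X * n)).b (D X + m X * n) (s0 X + m X * n) r := by
    intro X hX
    have h2 := (h1 X (hGF X hX)).2.shift (m X)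
    rw [hq X hX] at h2
    have ea : ((S X).sh (m X * n)).a = (S X).a + m X * n := by
      show (S X).a + ((m X * n : ℤ) : ℝ) = _
      push_cast
      ring
    have eb : ((S X).sh (m X * n)).b = (S X).b + m X * n := by
      show (S X).b + ((m X * n : ℤ) : ℝ) = _
      push_cast
      ring
    rw [ea, eb]
    exact h2
  have hmem' : ∀ X ∈ G, (X.sh (m X * n)).a ≤ D X + m X * n ∧ D X + m X * n < (X.sh (m X * n)).b :=
    fun X hX => hmem _ _ _ (hPr X hX) _ _ _ (hPv X hX)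
  have huniq : ∀ X ∈ G, ∀ Y ∈ G, ∀ x ∈ (X.sh (m X * n)).s, x ∈ (Y.sh (m Y * n)).s → X = Y := by
    intro X hX Y hY x hx hx'
    obtain ⟨a1, a2, a3, -⟩ := hF X (hGF X hX)
    obtain ⟨b1, b2, b3, -⟩ := hF Y (hGF Y hY)
    exact P.comp_canon a1 b1 a2 a3 b2 b3 hx hx'
  have key : G.card ≤ Ω.card + 1 := by
    refine HookCount_comb hn Ω G (fun X => D X + m X * n) (fun X => s0 X + m X * n) r ?_ ?_ ?_ ?_ ?_
    · intro X hX Y hY he
      have he : D X + m X * n = D Y + m Y * n := he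
      obtain ⟨a1, a2⟩ := hmem' X hX
      obtain ⟨b1, b2⟩ := hmem' Y hY
      rw [← he] at b1 b2
      obtain ⟨x, hx1, hx2⟩ := exists_between (lt_min a2 b2)
      rw [lt_min_iff] at hx2
      exact huniq X hX Y hY x ⟨lt_of_le_of_lt a1 hx1, hx2.1⟩ ⟨lt_of_le_of_lt b1 hx1, hx2.2⟩
    · intro X hX Y hY hD
      exact (P.pair_order hc (hPv X hX) (hPv Y hY) hD).1
    · intro X hX Y hY hD
      have h2 := (P.pair_order hc (hPv X hX) (hPv Y hY) hD).2.1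
      have h3 := (hPv Y hY).qj
      have h3' : (r : ℝ) ≤ ((Y.sh (m Y * n)).i : ℝ) := by exact_mod_cast h3
      have h4 := (hPv Y hY).jD
      show (r : ℝ) - n < s0 X + m X * n
      linarith
    · intro X hX
      have h2 := hPv X hX
      have h3 : (((S X).sh (m X * n)).i : ℝ) + 1 ≤ r := by exact_mod_cast h2.iq
      have h4 := h2.βi
      have h5 := h2.sβ
      show s0 X + m X * n < r
      linarith
    · intro X hX Y hY hD
      refine hpair _ _ _ _ _ _ (hPr X hX) (hPr Y hY) _ _ _ _ _ (hPv X hX) (hPv Y hY) hD ?_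
      rw [Set.disjoint_left]
      intro x hx hx'
      have he := huniq X hX Y hY x hx hx'
      subst he
      exact lt_irrefl _ hD
  exact absurd hG (not_lt.2 key)

theorem t2_count (hc : P.CCW) {p : ℂ} {Ω : Finset ℝ}
    (hΩ : ∀ ω ∈ Ω, ∀ ω' ∈ Ω, ω ≠ ω' → P.Vis (P.γ ω) (P.γ ω')) {L : ℕ} (F : Finset Arc)
    (hF : ∀ X ∈ F, 0 ≤ X.i ∧ X.i < n ∧ ∃ S Ym M, P.HBase Ω S X M ∧ P.HookL S X M ∧
      P.T2 p Ω L S X Ym M) : F.card ≤ (Ω.card + 1) * n := by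
  refine P.hook_count hc (p := p) (k := L + 1) Ω
    (fun S X M => P.HBase Ω S X M ∧ P.HookL S X M ∧ ∃ Ym, P.T2 p Ω L S X Ym M) ?_ ?_ ?_ ?_ F ?_
  · rintro S X M m ⟨h1, h2, Ym, h3⟩
    exact ⟨P.hbase_sh m h1, P.hookL_sh m h2, Ym, P.t2_sh m h3⟩
  · rintro S X M ⟨h1, h2, -⟩
    exact P.hook_pivot hc h1 h2
  · rintro S X M ⟨h1, -⟩ D s0 q hp
    exact P.hook_D hc h1 hp
  · rintro S1 X1 M1 S2 X2 M2 ⟨h1, hk1, Y1, t1⟩ ⟨h2, hk2, Y2, t2⟩ D1 s1 D2 s2 q hp1 hp2 hD hdis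
    exact P.t2_pair hc hΩ h1 hk1 t1 h2 hk2 t2 hp1 hp2 hD hdis
  · intro X hX
    obtain ⟨h1, h2, S, Ym, M, h3, h4, h5⟩ := hF X hX
    exact ⟨h5.Xc, h1, h2, S, M, h3, h4, Ym, h5⟩

theorem t1a_count (hc : P.CCW) {p : ℂ} {ν : ℤ} {K : ℕ} (F : Finset Arc)
    (hF : ∀ X ∈ F, 0 ≤ X.i ∧ X.i < n ∧ ∃ S M, P.HBase {(ν : ℝ)} S X M ∧ P.HookL S X M ∧
      P.T1A p ν K S X M) : F.card ≤ 2 * n := by
  have h := P.hook_count hc (p := p) (k := K) {(ν : ℝ)}
    (fun S X M => P.HBase {(ν : ℝ)} S X M ∧ P.HookL S X M ∧ P.T1A p ν K S X M) ?_ ?_ ?_ ?_ F ?_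
  · rw [Finset.card_singleton] at h
    exact h
  · rintro S X M m ⟨h1, h2, h3⟩
    exact ⟨P.hbase_sh m h1, P.hookL_sh m h2, P.t1a_sh m h3⟩
  · rintro S X M ⟨h1, h2, -⟩
    exact P.hook_pivot hc h1 h2
  · rintro S X M ⟨h1, -⟩ D s0 q hp
    exact P.hook_D hc h1 hp
  · rintro S1 X1 M1 S2 X2 M2 ⟨h1, hk1, t1⟩ ⟨h2, hk2, t2⟩ D1 s1 D2 s2 q hp1 hp2 hD hdis
    exact (P.t1a_pair hc h1 hk1 t1 h2 hk2 t2 hp1 hp2 hD hdis).elim
  · intro X hX
    obtain ⟨h1, h2, S, M, h3, h4, h5⟩ := hF X hX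
    exact ⟨h5.Xc, h1, h2, S, M, h3, h4, h5⟩

theorem t1b_count (hc : P.CCW) {p : ℂ} {ω1 ω2 : ℝ} {L : ℕ} (F : Finset Arc)
    (hF : ∀ X ∈ F, 0 ≤ X.i ∧ X.i < n ∧ ∃ S M, P.HBase {ω1, ω2} S X M ∧ P.HookL S X M ∧
      P.T1B p ω1 ω2 L S X M) : F.card ≤ 3 * n := by
  have h := P.hook_count hc (p := p) (k := L + 1) {ω1, ω2}
    (fun S X M => P.HBase {ω1, ω2} S X M ∧ P.HookL S X M ∧ P.T1B p ω1 ω2 L S X M) ?_ ?_ ?_ ?_ F ?_
  · refine h.trans (Nat.mul_le_mul_right n ?_)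
    have h2 : ({ω1, ω2} : Finset ℝ).card ≤ 2 := Finset.card_le_two
    omega
  · rintro S X M m ⟨h1, h2, h3⟩
    exact ⟨P.hbase_sh m h1, P.hookL_sh m h2, P.t1b_sh m h3⟩
  · rintro S X M ⟨h1, h2, -⟩
    exact P.hook_pivot hc h1 h2
  · rintro S X M ⟨h1, -⟩ D s0 q hp
    exact P.hook_D hc h1 hp
  · rintro S1 X1 M1 S2 X2 M2 ⟨h1, hk1, t1⟩ ⟨h2, hk2, t2⟩ D1 s1 D2 s2 q hp1 hp2 hD hdis
    exact (P.t1b_pair hc h1 hk1 t1 h2 hk2 t2 hp1 hp2 hD hdis).elim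
  · intro X hX
    obtain ⟨h1, h2, S, M, h3, h4, h5⟩ := hF X hX
    exact ⟨h5.Xc, h1, h2, S, M, h3, h4, h5⟩

end Poly

end Pool.Agent.Lib_PL
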