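import Pool.Agent.Lib_PL.Mirror
import Pool.Agent.Lib_PL.HookCount

/-!
Items hooked to the right, by mirror image: `S.mir` and `X.mir.sh n` are normalised.
-/

open Set Complex
open scoped Topology

namespace Pool.Agent.Lib_PL

open scoped ComplexConjugate

namespace Poly

variable {n : ℕ} (P : Poly n)

/-! auxiliary facts -/

private theorem HookR_mm (A : Arc) : A.mir.mir = A := by
  obtain ⟨i, a, b⟩ := A
  simp [Arc.mir]

private theorem HookR_mem (A : Arc) (x : ℝ) : x ∈ (A.mir.sh (n : ℤ)).s ↔ (n : ℝ) - x ∈ A.s := by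
  rw [Arc.mem_sh, mir_mem]
  have e : -(x - (((n : ℤ)) : ℝ)) = (n : ℝ) - x := by push_cast; ring
  rw [e]

private theorem HookR_γ (x : ℝ) : P.mir.γ x = conj (P.γ (n - x)) := by
  rw [P.mir_γ]
  have e : (n : ℝ) - x = -x + n := by ring
  rw [e, P.γ_add_n]

private theorem HookR_γn (x : ℝ) : P.mir.γ (n - x) = conj (P.γ x) := by
  rw [P.HookR_γ]
  congr 2
  ring

private theorem HookR_γm (x : ℝ) : P.mir.γ (-x) = conj (P.γ x) := by
  rw [P.mir_γ, neg_neg]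

private theorem HookR_vis (z w : ℂ) : P.mir.Vis (conj z) (conj w) ↔ P.Vis z w := by
  rw [P.mir_Vis, Complex.conj_conj, Complex.conj_conj]

private theorem HookR_one (A : Arc) : A.sh (n : ℤ) = A.sh (1 * (n : ℤ)) := by rw [one_mul]

private theorem HookR_NI {g : ℝ} (h : NI g) : NI ((n : ℝ) - g) := by
  intro m hm
  apply h ((n : ℤ) - m)
  push_cast
  linarith

private theorem HookR_seg (a b : ℂ) :
    openSegment ℝ (conj a) (conj b) = conj '' openSegment ℝ a b := by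
  ext z
  constructor
  · rintro ⟨s, t, hs, ht, hst, rfl⟩
    refine ⟨s • a + t • b, ⟨s, t, hs, ht, hst, rfl⟩, ?_⟩
    simp
  · rintro ⟨w, ⟨s, t, hs, ht, hst, rfl⟩, rfl⟩
    refine ⟨s, t, hs, ht, hst, ?_⟩
    simp

private theorem HookR_inj : Function.Injective (fun A : Arc => A.mir.sh (n : ℤ)) := by
  intro A B h
  obtain ⟨i, a, b⟩ := A
  obtain ⟨i', a', b'⟩ := B
  simp only [Arc.mir, Arc.sh, Arc.mk.injEq] at h
  obtain ⟨h1, h2, h3⟩ := h
  have e1 : i = i' := by omega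
  have e2 : b = b' := by linarith
  have e3 : a = a' := by linarith
  rw [e1, e2, e3]

private theorem HookR_SB {p : ℂ} {L : ℕ} {S : Arc} (h : S.s ⊆ P.Bp p L) :
    S.mir.s ⊆ P.mir.Bp (conj p) L := by
  intro x hx
  rw [mir_mem] at hx
  rw [P.mir_Bp]
  exact h hx

private theorem HookR_Xc {p : ℂ} {k : ℕ} {X : Arc} (h : P.IsComp p k X) :
    P.mir.IsComp (conj p) k (X.mir.sh (n : ℤ)) := by
  rw [HookR_one]
  exact P.mir.comp_sh 1 (P.mir_IsComp h)

theorem hbase_mir {Ω : Finset ℝ} {S X : Arc} {M : Set ℂ} (h : P.HBase Ω S X M) :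
    P.mir.HBase (Ω.image (fun x => -x)) S.mir (X.mir.sh n) (conj '' M) := by
  refine ⟨?_, ?_, ?_, ?_, ?_, ?_, ?_, ?_, ?_, ?_, ?_, ?_⟩
  · have := h.ji
    simp only [Arc.mir, Arc.sh]
    omega
  · have := h.ij
    simp only [Arc.mir, Arc.sh]
    omega
  · have := h.Sbi
    simp only [Arc.mir]
    push_cast
    linarith
  · have := h.Sab
    simp only [Arc.mir]
    linarith
  · have := h.Sia
    simp only [Arc.mir]
    push_cast
    linarith
  · have := h.Xbi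
    simp only [Arc.mir, Arc.sh]
    push_cast
    linarith
  · have := h.Xab
    simp only [Arc.mir, Arc.sh]
    linarith
  · have := h.Xia
    simp only [Arc.mir, Arc.sh]
    push_cast
    linarith
  · obtain ⟨s, hs, x, hx, hv⟩ := h.SX
    refine ⟨-s, ?_, n - x, ?_, ?_⟩
    · rw [mir_mem, neg_neg]
      exact hs
    · rw [HookR_mem, sub_sub_cancel]
      exact hx
    · rw [P.HookR_γm, P.HookR_γn, P.HookR_vis]
      exact hv
  · rintro x hx1 hx2 ⟨s, hs, hv⟩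
    rw [HookR_mem]
    simp only [Arc.mir, Arc.sh] at hx1 hx2
    push_cast at hx1 hx2
    refine h.Z _ (by linarith) (by linarith) ⟨-s, ?_, ?_⟩
    · rw [mir_mem] at hs
      exact hs
    · rw [P.mir_γ, P.HookR_γ, P.HookR_vis] at hv
      exact hv
  · obtain ⟨ω, hω, hr⟩ := h.repS
    exact ⟨-ω, Finset.mem_image_of_mem _ hω, P.mir_Rep hr⟩
  · exact h.Mne.image _

theorem hookR_mir {S X : Arc} {M : Set ℂ} (h : P.HookR S X M) :
    P.mir.HookL S.mir (X.mir.sh n) (conj '' M) := by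
  obtain ⟨σ, hσ, g, hg1, hg2, hg3, hv, hM⟩ := h
  refine ⟨-σ, ?_, n - g, ?_, ?_, HookR_NI hg3, ?_, ?_⟩
  · rw [mir_mem, neg_neg]
    exact hσ
  · simp only [Arc.mir]
    push_cast
    linarith
  · simp only [Arc.mir, Arc.sh]
    push_cast
    linarith
  · rw [P.HookR_γm, P.HookR_γn, P.HookR_vis]
    exact hv
  · rintro z ⟨w, hw, rfl⟩
    rw [P.mir_Side, Complex.conj_conj]
    have h1 := hM hw
    have h2 := P.side_shift (-(n - g)) (- -σ) 1
    have e1 : -((n : ℝ) - g) + ((1 : ℤ) : ℝ) * n = g := by push_cast; ring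
    have e2 : - -σ + ((1 : ℤ) : ℝ) * n = σ + n := by push_cast; ring
    rw [e1, e2] at h2
    rw [← h2]
    exact h1

theorem t2_mir {p : ℂ} {Ω : Finset ℝ} {L : ℕ} {S X Ym : Arc} {M : Set ℂ}
    (h : P.T2 p Ω L S X Ym M) :
    P.mir.T2 (conj p) (Ω.image (fun x => -x)) L S.mir (X.mir.sh n) Ym.mir (conj '' M) := by
  refine ⟨P.HookR_SB h.SB, P.HookR_Xc h.Xc, P.mir_IsComp h.Yc, ?_, ?_, ?_, ?_, ?_, ?_⟩
  · rw [mir_Cornered]
    exact h.Ync
  · have h1 := (P.mir_Sees (A := Ym) (B := X)).2 h.sees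
    have h2 := (P.mir.sees_sh (A := Ym.mir) (B := X.mir) (m := 0) (m' := 1)).2 h1
    rw [zero_mul, Arc.sh_zero, one_mul] at h2
    exact h2
  · intro T hT hTc hs
    have h1 := P.mir_IsComp' hT
    refine h.nocorner T.mir h1 ((mir_Cornered T).2 hTc) ?_
    rw [← P.mir_Sees, HookR_mm]
    exact hs
  · intro m hm
    simp only [Arc.mir] at hm
    apply h.ki (-m)
    linarith
  · have h1 := P.mir.good_sh 1 0 (P.mir_Good h.good)
    rw [zero_mul, add_zero, one_mul] at h1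
    exact h1
  · obtain ⟨ω, hω, hr⟩ := h.repX
    refine ⟨-ω, Finset.mem_image_of_mem _ hω, ?_⟩
    rw [HookR_one]
    exact P.mir.rep_sh 1 (P.mir_Rep hr)

theorem t1a_mir {p : ℂ} {ν : ℤ} {K : ℕ} {S X : Arc} {M : Set ℂ}
    (h : P.T1A p ν K S X M) :
    P.mir.T1A (conj p) (-ν) K S.mir (X.mir.sh n) (conj '' M) := by
  have hV : P.mir.V (-ν) = conj (P.V ν) := by
    change conj (P.V (- -ν)) = conj (P.V ν)
    rw [neg_neg]
  refine ⟨P.HookR_Xc h.Xc, ?_, ?_⟩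
  · rw [h.M_eq, Set.image_singleton, hV]
  · obtain ⟨x, hx, hv⟩ := h.sees
    refine ⟨n - x, ?_, ?_⟩
    · rw [HookR_mem, sub_sub_cancel]
      exact hx
    · rw [hV, P.HookR_γn, P.HookR_vis]
      exact hv

theorem t1b_mir {p : ℂ} {ω1 ω2 : ℝ} {L : ℕ} {S X : Arc} {M : Set ℂ}
    (h : P.T1B p ω1 ω2 L S X M) :
    P.mir.T1B (conj p) (-ω1) (-ω2) L S.mir (X.mir.sh n) (conj '' M) := by
  refine ⟨?_, P.HookR_SB h.SB, P.HookR_Xc h.Xc, ?_, ?_, ?_, ?_, ?_⟩
  · rw [P.HookR_γm, P.HookR_γm, P.HookR_vis]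
    exact h.w
  · rw [P.HookR_γm, P.HookR_γm, HookR_seg]
    exact Set.image_mono h.Mw
  · exact h.Mc.image _ Complex.continuous_conj.continuousOn
  · rintro z ⟨w, hw, rfl⟩
    rw [P.mir_VV, Complex.conj_conj]
    exact h.MN w hw
  · obtain ⟨z, hz, x, hx, hv⟩ := h.sees
    refine ⟨conj z, Set.mem_image_of_mem _ hz, n - x, ?_, ?_⟩
    · rw [HookR_mem, sub_sub_cancel]
      exact hx
    · rw [P.HookR_γn, P.HookR_vis]
      exact hv
  · rintro z hz ⟨x, hx, hv⟩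
    rw [P.HookR_γm, P.HookR_γm, HookR_seg] at hz
    obtain ⟨w, hw, rfl⟩ := hz
    refine Set.mem_image_of_mem _ (h.all w hw ⟨n - x, (HookR_mem X x).1 hx, ?_⟩)
    rw [P.HookR_γ, P.HookR_vis] at hv
    exact hv

theorem t2_countR (hc : P.CCW) {p : ℂ} {Ω : Finset ℝ}
    (hΩ : ∀ ω ∈ Ω, ∀ ω' ∈ Ω, ω ≠ ω' → P.Vis (P.γ ω) (P.γ ω')) {L : ℕ} (F : Finset Arc)
    (hF : ∀ X ∈ F, 0 ≤ X.i ∧ X.i < n ∧ ∃ S Ym M, P.HBase Ω S X M ∧ P.HookR S X M ∧
      P.T2 p Ω L S X Ym M) : F.card ≤ (Ω.card + 1) * n := by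
  classical
  have hneg : Function.Injective (fun x : ℝ => -x) := neg_injective
  have h1 := P.mir.t2_count (P.mir_CCW hc) (p := conj p) (Ω := Ω.image (fun x => -x)) (by
    intro ω hω ω' hω' hne
    obtain ⟨a, ha, rfl⟩ := Finset.mem_image.1 hω
    obtain ⟨b, hb, rfl⟩ := Finset.mem_image.1 hω'
    rw [P.HookR_γm, P.HookR_γm, P.HookR_vis]
    exact hΩ a ha b hb (fun e => hne (by rw [e]))) (L := L)
    (F.image (fun A : Arc => A.mir.sh (n : ℤ))) (by
    intro X' hX'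
    obtain ⟨X, hX, rfl⟩ := Finset.mem_image.1 hX'
    obtain ⟨h0, hn, S, Ym, M, hb, hh, ht⟩ := hF X hX
    refine ⟨?_, ?_, S.mir, Ym.mir, conj '' M, P.hbase_mir hb, P.hookR_mir hh, P.t2_mir ht⟩
    · simp only [Arc.mir, Arc.sh]
      omega
    · simp only [Arc.mir, Arc.sh]
      omega)
  rw [Finset.card_image_of_injective _ HookR_inj, Finset.card_image_of_injective _ hneg] at h1
  exact h1

theorem t1a_countR (hc : P.CCW) {p : ℂ} {ν : ℤ} {K : ℕ} (F : Finset Arc)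
    (hF : ∀ X ∈ F, 0 ≤ X.i ∧ X.i < n ∧ ∃ S M, P.HBase {(ν : ℝ)} S X M ∧ P.HookR S X M ∧
      P.T1A p ν K S X M) : F.card ≤ 2 * n := by
  classical
  have h1 := P.mir.t1a_count (P.mir_CCW hc) (p := conj p) (ν := -ν) (K := K)
    (F.image (fun A : Arc => A.mir.sh (n : ℤ))) (by
    intro X' hX'
    obtain ⟨X, hX, rfl⟩ := Finset.mem_image.1 hX'
    obtain ⟨h0, hn, S, M, hb, hh, ht⟩ := hF X hX
    have hb' := P.hbase_mir hb
    rw [Finset.image_singleton] at hb'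
    have e : (((-ν : ℤ)) : ℝ) = -(ν : ℝ) := by push_cast; ring
    refine ⟨?_, ?_, S.mir, conj '' M, ?_, P.hookR_mir hh, P.t1a_mir ht⟩
    · simp only [Arc.mir, Arc.sh]
      omega
    · simp only [Arc.mir, Arc.sh]
      omega
    · rw [e]
      exact hb')
  rw [Finset.card_image_of_injective _ HookR_inj] at h1
  exact h1

theorem t1b_countR (hc : P.CCW) {p : ℂ} {ω1 ω2 : ℝ} {L : ℕ} (F : Finset Arc)
    (hF : ∀ X ∈ F, 0 ≤ X.i ∧ X.i < n ∧ ∃ S M, P.HBase {ω1, ω2} S X M ∧ P.HookR S X M ∧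
      P.T1B p ω1 ω2 L S X M) : F.card ≤ 3 * n := by
  classical
  have h1 := P.mir.t1b_count (P.mir_CCW hc) (p := conj p) (ω1 := -ω1) (ω2 := -ω2) (L := L)
    (F.image (fun A : Arc => A.mir.sh (n : ℤ))) (by
    intro X' hX'
    obtain ⟨X, hX, rfl⟩ := Finset.mem_image.1 hX'
    obtain ⟨h0, hn, S, M, hb, hh, ht⟩ := hF X hX
    have hb' := P.hbase_mir hb
    rw [Finset.image_insert, Finset.image_singleton] at hb'
    refine ⟨?_, ?_, S.mir, conj '' M, hb', P.hookR_mir hh, P.t1b_mir ht⟩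
    · simp only [Arc.mir, Arc.sh]
      omega
    · simp only [Arc.mir, Arc.sh]
      omega)
  rw [Finset.card_image_of_injective _ HookR_inj] at h1
  exact h1

end Poly

end Pool.Agent.Lib_PL
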