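import Pool.Agent.Lib_PL.Local

/-!
All germs of points immediately to the left of the curve lie in one component of the complement of `C`;
the same for the right.

Proof: for every position `x` take `ρ` from `C_local`; the open sector of radius `ρ` is connected and misses
`C`.  The component of this sector does not depend on `ρ` and is a locally constant function of `x`
(`sector_near_first`, `sector_near_last`, and for the flat case of a non-vertex), hence constant on `ℝ`.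
-/

open Set Complex
open scoped Topology

namespace Pool.Agent.Lib_PL

namespace Poly

variable {n : ℕ} (P : Poly n)

private theorem cr_I (u : ℂ) (t : ℝ) : cr u ((t : ℂ) * (Complex.I * u)) = t * ‖u‖ ^ 2 := by
  rw [cr_mul_right, ← Complex.normSq_eq_norm_sq, Complex.normSq_apply]
  simp [cr]

private theorem exists_small (u : ℂ) (hu : u ≠ 0) {ρ : ℝ} (hρ : 0 < ρ) :
    ∃ d : ℂ, ‖d‖ < ρ ∧ 0 < cr u d := by
  have hn : 0 < ‖u‖ := norm_pos_iff.2 hu
  refine ⟨((ρ / (2 * ‖u‖) : ℝ) : ℂ) * (Complex.I * u), ?_, ?_⟩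
  · rw [norm_mul, norm_mul, Complex.norm_I, one_mul, Complex.norm_real, Real.norm_eq_abs,
      abs_of_pos (by positivity)]
    have : ρ / (2 * ‖u‖) * ‖u‖ = ρ / 2 := by field_simp
    rw [this]
    linarith
  · rw [cr_I]
    positivity

private theorem exists_small' (u : ℂ) (hu : u ≠ 0) {ρ : ℝ} (hρ : 0 < ρ) :
    ∃ d : ℂ, ‖d‖ < ρ ∧ cr u d < 0 := by
  obtain ⟨d, h1, h2⟩ := exists_small u hu hρ
  exact ⟨-d, by rwa [norm_neg], by rw [cr_neg_right]; linarith⟩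

/-- the two cases (left and right) together -/
private theorem comp_aux (A B : ℝ → ℂ) (hA : ∀ x, A x ≠ 0) (hB : ∀ x, B x ≠ 0)
    (hAB : ∀ x, ∀ t : ℝ, 0 < t → B x ≠ (t : ℂ) * A x)
    (hloc : ∀ x, ∃ ρ > 0, ∀ d : ℂ, ‖d‖ < ρ → InSector (A x) (B x) d → P.γ x + d ∉ P.C)
    (hstep : ∀ x, ∀ ρ > 0, ∀ᶠ y in 𝓝 x, y ≠ x → ∀ ρ' > 0, ∃ d : ℂ, ‖d‖ < ρ' ∧
      InSector (A y) (B y) d ∧ InSector (A x) (B x) (P.γ y + d - P.γ x) ∧
        ‖P.γ y + d - P.γ x‖ < ρ) :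
    ∃ U : Set ℂ, U.Nonempty ∧ (∀ z ∈ U, z ∉ P.C ∧ connectedComponentIn P.Cᶜ z = U) ∧
      ∀ x : ℝ, ∃ ρ > 0, ∀ d : ℂ, ‖d‖ < ρ → InSector (A x) (B x) d → P.γ x + d ∈ U := by
  have key : ∀ x, ∃ z, z ∉ P.C ∧ ∃ ρ > 0, ∀ d : ℂ, ‖d‖ < ρ → InSector (A x) (B x) d →
      P.γ x + d ∈ connectedComponentIn P.Cᶜ z := by
    intro x
    obtain ⟨ρ, hρ, h⟩ := hloc x
    obtain ⟨ρ1, hρ1, h1⟩ := sector_near_first (hA x) (hB x) (hAB x) (one_pos : (0 : ℝ) < 1)
    obtain ⟨d1, hd1, hd1'⟩ := exists_small (A x) (hA x) hρ1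
    have hd2 := h1 d1 hd1 hd1'
    set e : ℂ := ((1 : ℝ) : ℂ) * A x + d1 with he
    have hne : 0 < ‖e‖ := norm_pos_iff.2 hd2.ne_zero
    have hd3 : InSector (A x) (B x) (((ρ / (2 * ‖e‖) : ℝ) : ℂ) * e) :=
      (InSector_smul (by positivity)).2 hd2
    have hd4 : ‖((ρ / (2 * ‖e‖) : ℝ) : ℂ) * e‖ < ρ := by
      rw [norm_mul, Complex.norm_real, Real.norm_eq_abs, abs_of_pos (by positivity)]
      have : ρ / (2 * ‖e‖) * ‖e‖ = ρ / 2 := by field_simp
      rw [this]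
      linarith
    refine ⟨P.γ x + ((ρ / (2 * ‖e‖) : ℝ) : ℂ) * e, h _ hd4 hd3, ρ, hρ, ?_⟩
    have hc : IsPreconnected ((fun d => P.γ x + d) '' {d : ℂ | InSector (A x) (B x) d ∧ ‖d‖ < ρ}) :=
      (sector_conn (hA x) (hB x) (hAB x) ρ).image _ (by fun_prop)
    have hs := hc.subset_connectedComponentIn (x := P.γ x + ((ρ / (2 * ‖e‖) : ℝ) : ℂ) * e)
      (F := P.Cᶜ) ⟨_, ⟨hd3, hd4⟩, rfl⟩ (by
        rintro _ ⟨d, hd, rfl⟩
        exact h d hd.2 hd.1)
    intro d hd hd'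
    exact hs ⟨d, ⟨hd', hd⟩, rfl⟩
  choose g hg ρ hρ hgerm using key
  have hlc : IsLocallyConstant (fun x => connectedComponentIn P.Cᶜ (g x)) := by
    rw [IsLocallyConstant.iff_eventually_eq]
    intro x
    filter_upwards [hstep x (ρ x) (hρ x)] with y hy
    by_cases hyx : y = x
    · rw [hyx]
    · obtain ⟨d, hd1, hd2, hd3, hd4⟩ := hy hyx (ρ y) (hρ y)
      have h1 := hgerm y d hd1 hd2
      have h2 := hgerm x _ hd4 hd3
      have h3 : P.γ x + (P.γ y + d - P.γ x) = P.γ y + d := by ring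
      rw [h3] at h2
      rw [connectedComponentIn_eq h1, connectedComponentIn_eq h2]
  have hconst : ∀ x, connectedComponentIn P.Cᶜ (g x) = connectedComponentIn P.Cᶜ (g 0) :=
    fun x => hlc.apply_eq_of_preconnectedSpace x 0
  refine ⟨connectedComponentIn P.Cᶜ (g 0), ⟨g 0, mem_connectedComponentIn (hg 0)⟩, ?_, ?_⟩
  · intro z hz
    exact ⟨connectedComponentIn_subset _ _ hz, (connectedComponentIn_eq hz).symm⟩
  · intro x
    refine ⟨ρ x, hρ x, ?_⟩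
    intro d hd hd'
    rw [← hconst x]
    exact hgerm x d hd hd'

private theorem right_NI {x : ℝ} (h : NI x) (d : ℂ) :
    InSector (P.em x) (P.ep x) d ↔ cr (P.ed x) d < 0 := by
  obtain ⟨t, ht, h1⟩ := P.ep_NI h
  obtain ⟨t', ht', h2⟩ := P.em_NI h
  have h3 : cr (P.em x) (P.ep x) = 0 := by
    rw [h1, h2, cr_neg_left, cr_mul_left, cr_mul_right, cr_self]
    ring
  rw [InSector_flat h3, h2, cr_neg_left, cr_mul_left]
  constructor
  · intro h4
    by_contra h5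
    push Not at h5
    have := mul_nonneg ht'.le h5
    linarith
  · intro h4
    have := mul_neg_of_pos_of_neg ht' h4
    linarith

/-- close to `x` on the right side (in the order of positions) -/
private theorem near_after (x : ℝ) {δ : ℝ} (hδ : 0 < δ) : ∃ ε > 0, ∀ y, x < y → y < x + ε →
    NI y ∧ P.ed y ≠ 0 ∧ ‖P.γ y - P.γ x‖ < δ ∧ (∃ t : ℝ, 0 < t ∧ P.γ y = P.γ x + (t : ℂ) * P.ep x) ∧
      ∃ c : ℝ, 0 < c ∧ P.ep x = (c : ℂ) * P.ed y := by
  obtain ⟨ε1, hε1, h1⟩ := P.γ_after x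
  have h2 := (P.γ_cont.tendsto x)
  rw [Metric.tendsto_nhds_nhds] at h2
  obtain ⟨ε2, hε2, h2⟩ := h2 δ hδ
  have hfl : (⌊x⌋ : ℝ) ≤ x := Int.floor_le x
  have hfl' : x < ⌊x⌋ + 1 := Int.lt_floor_add_one x
  refine ⟨min ε1 (min ε2 (⌊x⌋ + 1 - x)), by
    refine lt_min hε1 (lt_min hε2 (by linarith)), ?_⟩
  intro y hxy hy
  have hy1 : y < x + ε1 := lt_of_lt_of_le hy (by gcongr; exact min_le_left _ _)
  have hy2 : y < x + ε2 := lt_of_lt_of_le hy (by
    gcongr; exact le_trans (min_le_right _ _) (min_le_left _ _))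
  have hy3 : y < x + (⌊x⌋ + 1 - x) := lt_of_lt_of_le hy (by
    gcongr; exact le_trans (min_le_right _ _) (min_le_right _ _))
  have hy3' : y < ⌊x⌋ + 1 := by linarith
  obtain ⟨hNI, hfy⟩ := NI_of_Ioo (i := ⌊x⌋) (lt_of_le_of_lt hfl hxy) hy3'
  have hed : P.ed y = P.V (⌊x⌋ + 1) - P.V ⌊x⌋ := by
    unfold ed
    rw [hfy]
  refine ⟨hNI, ?_, ?_, h1 y hxy hy1, ⌊x⌋ + 1 - x, by linarith, ?_⟩
  · rw [hed]
    exact sub_ne_zero.2 (P.V_ne _).symm
  · have := h2 (x := y) (by rw [Real.dist_eq, abs_of_pos (by linarith)]; linarith)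
    rwa [dist_eq_norm] at this
  · rw [hed]
    unfold ep
    rw [P.γ_lin ⌊x⌋ x hfl hfl'.le]
    push_cast
    ring

/-- close to `x` on the left side (in the order of positions) -/
private theorem near_before (x : ℝ) {δ : ℝ} (hδ : 0 < δ) : ∃ ε > 0, ∀ y, x - ε < y → y < x →
    NI y ∧ P.ed y ≠ 0 ∧ ‖P.γ y - P.γ x‖ < δ ∧ (∃ t : ℝ, 0 < t ∧ P.γ y = P.γ x + (t : ℂ) * P.em x) ∧
      ∃ c : ℝ, 0 < c ∧ P.em x = -((c : ℂ) * P.ed y) := by
  obtain ⟨ε1, hε1, h1⟩ := P.γ_before x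
  have h2 := (P.γ_cont.tendsto x)
  rw [Metric.tendsto_nhds_nhds] at h2
  obtain ⟨ε2, hε2, h2⟩ := h2 δ hδ
  have hcl : x ≤ ⌈x⌉ := Int.le_ceil x
  have hcl' : (⌈x⌉ : ℝ) < x + 1 := Int.ceil_lt_add_one x
  refine ⟨min ε1 (min ε2 (x - (⌈x⌉ - 1))), by
    refine lt_min hε1 (lt_min hε2 (by linarith)), ?_⟩
  intro y hy hyx
  have e1 := min_le_left ε1 (min ε2 (x - (⌈x⌉ - 1)))
  have e2 := le_trans (min_le_right ε1 (min ε2 (x - (⌈x⌉ - 1)))) (min_le_left _ _)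
  have e3 := le_trans (min_le_right ε1 (min ε2 (x - (⌈x⌉ - 1)))) (min_le_right _ _)
  have hc1 : (((⌈x⌉ - 1 : ℤ)) : ℝ) = ⌈x⌉ - 1 := by push_cast; ring
  obtain ⟨hNI, hfy⟩ := NI_of_Ioo (x := y) (i := ⌈x⌉ - 1) (by rw [hc1]; linarith)
    (by rw [hc1]; linarith)
  have hed : P.ed y = P.V (⌈x⌉ - 1 + 1) - P.V (⌈x⌉ - 1) := by
    unfold ed
    rw [hfy]
  refine ⟨hNI, ?_, ?_, h1 y (by linarith) hyx, x - (⌈x⌉ - 1), by linarith, ?_⟩
  · rw [hed]
    exact sub_ne_zero.2 (P.V_ne _).symm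
  · have := h2 (x := y) (by rw [Real.dist_eq, abs_of_neg (by linarith)]; linarith)
    rwa [dist_eq_norm] at this
  · rw [hed]
    unfold em
    rw [P.γ_lin (⌈x⌉ - 1) x (by rw [hc1]; linarith) (by rw [hc1]; linarith)]
    push_cast
    ring

private theorem em_ne_ep' (x : ℝ) : ∀ t : ℝ, 0 < t → P.ep x ≠ (t : ℂ) * P.em x := by
  intro t ht h
  have ht' : (t : ℂ) ≠ 0 := by exact_mod_cast ht.ne'
  apply P.em_ne_ep x t⁻¹ (by positivity)
  rw [h]
  push_cast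
  field_simp

private theorem step_eventually (x : ℝ) (Q : ℝ → Prop) (h1 : ∃ ε > 0, ∀ y, x < y → y < x + ε → Q y)
    (h2 : ∃ ε > 0, ∀ y, x - ε < y → y < x → Q y) : ∀ᶠ y in 𝓝 x, y ≠ x → Q y := by
  obtain ⟨ε1, hε1, h1⟩ := h1
  obtain ⟨ε2, hε2, h2⟩ := h2
  have : Ioo (x - ε2) (x + ε1) ∈ 𝓝 x := Ioo_mem_nhds (by linarith) (by linarith)
  filter_upwards [this] with y hy hyx
  rcases lt_or_gt_of_ne hyx with h | h
  · exact h2 y hy.1 h
  · exact h1 y h hy.2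

theorem left_comp : ∃ U : Set ℂ, U.Nonempty ∧ (∀ z ∈ U, z ∉ P.C ∧ connectedComponentIn P.Cᶜ z = U) ∧
    ∀ x : ℝ, ∃ ρ > 0, ∀ d : ℂ, ‖d‖ < ρ → InSector (P.ep x) (P.em x) d → P.γ x + d ∈ U := by
  refine P.comp_aux P.ep P.em P.ep_ne P.em_ne P.em_ne_ep ?_ ?_
  · intro x
    obtain ⟨ρ, hρ, h⟩ := P.C_local x
    refine ⟨ρ, hρ, ?_⟩
    intro d hd hs hC
    obtain ⟨-, h1, h2⟩ := sector_disj (P.ep_ne x) (P.em_ne x) (P.em_ne_ep x) hs
    rcases (h d hd).1 hC with h3 | ⟨t, ht, h3⟩ | ⟨t, ht, h3⟩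
    · exact hs.ne_zero h3
    · exact h1 t ht h3
    · exact h2 t ht h3
  · intro x ρ hρ
    apply step_eventually
    · obtain ⟨ε, hε, h⟩ := P.near_after x (half_pos hρ)
      refine ⟨ε, hε, ?_⟩
      intro y hxy hy ρ' hρ'
      obtain ⟨hNI, hed, hn, ⟨t, ht, hγ⟩, c, hc, hep⟩ := h y hxy hy
      obtain ⟨ρ2, hρ2, h2⟩ := sector_near_first (P.ep_ne x) (P.em_ne x) (P.em_ne_ep x) ht
      obtain ⟨d, hd, hd'⟩ := exists_small (P.ed y) hed (ρ := min ρ' (min ρ2 (ρ / 2)))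
        (lt_min hρ' (lt_min hρ2 (half_pos hρ)))
      have hd1 := lt_of_lt_of_le hd (min_le_left _ _)
      have hd2 := lt_of_lt_of_le hd (le_trans (min_le_right _ _) (min_le_left _ _))
      have hd3 := lt_of_lt_of_le hd (le_trans (min_le_right _ _) (min_le_right _ _))
      have e1 : P.γ y + d - P.γ x = (t : ℂ) * P.ep x + d := by rw [hγ]; ring
      refine ⟨d, hd1, (P.InSector_NI hNI d).2 hd', ?_, ?_⟩
      · rw [e1]
        apply h2 d hd2
        rw [hep, cr_mul_left]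
        exact mul_pos hc hd'
      · have e2 : P.γ y + d - P.γ x = (P.γ y - P.γ x) + d := by ring
        rw [e2]
        exact lt_of_le_of_lt (norm_add_le _ _) (by linarith)
    · obtain ⟨ε, hε, h⟩ := P.near_before x (half_pos hρ)
      refine ⟨ε, hε, ?_⟩
      intro y hy hyx ρ' hρ'
      obtain ⟨hNI, hed, hn, ⟨t, ht, hγ⟩, c, hc, hem⟩ := h y hy hyx
      obtain ⟨ρ2, hρ2, h2⟩ := sector_near_last (P.ep_ne x) (P.em_ne x) (P.em_ne_ep x) ht
      obtain ⟨d, hd, hd'⟩ := exists_small (P.ed y) hed (ρ := min ρ' (min ρ2 (ρ / 2)))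
        (lt_min hρ' (lt_min hρ2 (half_pos hρ)))
      have hd1 := lt_of_lt_of_le hd (min_le_left _ _)
      have hd2 := lt_of_lt_of_le hd (le_trans (min_le_right _ _) (min_le_left _ _))
      have hd3 := lt_of_lt_of_le hd (le_trans (min_le_right _ _) (min_le_right _ _))
      have e1 : P.γ y + d - P.γ x = (t : ℂ) * P.em x + d := by rw [hγ]; ring
      refine ⟨d, hd1, (P.InSector_NI hNI d).2 hd', ?_, ?_⟩
      · rw [e1]
        apply h2 d hd2
        rw [hem, cr_neg_right, cr_mul_right, cr_swap d]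
        have := mul_pos hc hd'
        linarith
      · have e2 : P.γ y + d - P.γ x = (P.γ y - P.γ x) + d := by ring
        rw [e2]
        exact lt_of_le_of_lt (norm_add_le _ _) (by linarith)

theorem right_comp : ∃ U : Set ℂ, U.Nonempty ∧ (∀ z ∈ U, z ∉ P.C ∧ connectedComponentIn P.Cᶜ z = U) ∧
    ∀ x : ℝ, ∃ ρ > 0, ∀ d : ℂ, ‖d‖ < ρ → InSector (P.em x) (P.ep x) d → P.γ x + d ∈ U := by
  refine P.comp_aux P.em P.ep P.em_ne P.ep_ne P.em_ne_ep' ?_ ?_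
  · intro x
    obtain ⟨ρ, hρ, h⟩ := P.C_local x
    refine ⟨ρ, hρ, ?_⟩
    intro d hd hs hC
    obtain ⟨-, h1, h2⟩ := sector_disj (P.em_ne x) (P.ep_ne x) (P.em_ne_ep' x) hs
    rcases (h d hd).1 hC with h3 | ⟨t, ht, h3⟩ | ⟨t, ht, h3⟩
    · exact hs.ne_zero h3
    · exact h2 t ht h3
    · exact h1 t ht h3
  · intro x ρ hρ
    apply step_eventually
    · obtain ⟨ε, hε, h⟩ := P.near_after x (half_pos hρ)
      refine ⟨ε, hε, ?_⟩
      intro y hxy hy ρ' hρ'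
      obtain ⟨hNI, hed, hn, ⟨t, ht, hγ⟩, c, hc, hep⟩ := h y hxy hy
      obtain ⟨ρ2, hρ2, h2⟩ := sector_near_last (P.em_ne x) (P.ep_ne x) (P.em_ne_ep' x) ht
      obtain ⟨d, hd, hd'⟩ := exists_small' (P.ed y) hed (ρ := min ρ' (min ρ2 (ρ / 2)))
        (lt_min hρ' (lt_min hρ2 (half_pos hρ)))
      have hd1 := lt_of_lt_of_le hd (min_le_left _ _)
      have hd2 := lt_of_lt_of_le hd (le_trans (min_le_right _ _) (min_le_left _ _))
      have hd3 := lt_of_lt_of_le hd (le_trans (min_le_right _ _) (min_le_right _ _))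
      have e1 : P.γ y + d - P.γ x = (t : ℂ) * P.ep x + d := by rw [hγ]; ring
      refine ⟨d, hd1, (P.right_NI hNI d).2 hd', ?_, ?_⟩
      · rw [e1]
        apply h2 d hd2
        rw [hep, cr_mul_right, cr_swap d]
        have := mul_neg_of_pos_of_neg hc hd'
        linarith
      · have e2 : P.γ y + d - P.γ x = (P.γ y - P.γ x) + d := by ring
        rw [e2]
        exact lt_of_le_of_lt (norm_add_le _ _) (by linarith)
    · obtain ⟨ε, hε, h⟩ := P.near_before x (half_pos hρ)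
      refine ⟨ε, hε, ?_⟩
      intro y hy hyx ρ' hρ'
      obtain ⟨hNI, hed, hn, ⟨t, ht, hγ⟩, c, hc, hem⟩ := h y hy hyx
      obtain ⟨ρ2, hρ2, h2⟩ := sector_near_first (P.em_ne x) (P.ep_ne x) (P.em_ne_ep' x) ht
      obtain ⟨d, hd, hd'⟩ := exists_small' (P.ed y) hed (ρ := min ρ' (min ρ2 (ρ / 2)))
        (lt_min hρ' (lt_min hρ2 (half_pos hρ)))
      have hd1 := lt_of_lt_of_le hd (min_le_left _ _)
      have hd2 := lt_of_lt_of_le hd (le_trans (min_le_right _ _) (min_le_left _ _))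
      have hd3 := lt_of_lt_of_le hd (le_trans (min_le_right _ _) (min_le_right _ _))
      have e1 : P.γ y + d - P.γ x = (t : ℂ) * P.em x + d := by rw [hγ]; ring
      refine ⟨d, hd1, (P.right_NI hNI d).2 hd', ?_, ?_⟩
      · rw [e1]
        apply h2 d hd2
        rw [hem, cr_neg_left, cr_mul_left]
        have := mul_neg_of_pos_of_neg hc hd'
        linarith
      · have e2 : P.γ y + d - P.γ x = (P.γ y - P.γ x) + d := by ring
        rw [e2]
        exact lt_of_le_of_lt (norm_add_le _ _) (by linarith)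

end Poly

end Pool.Agent.Lib_PL
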