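import Pool.Agent.Lib_PL.Jordan1
import Pool.Agent.Lib_PL.Arcs

/-!
Jordan curve theorem for `Poly`.

`U` = left component, `W` = right component (`Jordan1`).  Every component of the complement of `C` has a
frontier point on `C` (it is open and not the whole plane; its frontier is in `C`), hence by `C_local` and
`sector_cover` it is `U` or `W`.  The winding number is constant on both, values `c + 1` on `U` and `c` on `W`
(`wind_jump`).  The complement of a large ball is connected and has winding number `0`, so exactly one of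
the two is unbounded and has winding number `0`.  If it is `W` then `I = U`, winding number `1` (CCW);
otherwise `I = W`, winding number `-1` and the reversed polygon is CCW.
-/

open Set Complex
open scoped Topology

namespace Pool.Agent.Lib_PL

/-- an open sector has points close to `0` -/
private theorem jordan2_sector_exists {u v : ℂ} (hu : u ≠ 0) (hv : v ≠ 0)
    (huv : ∀ t : ℝ, 0 < t → v ≠ (t : ℂ) * u) {δ : ℝ} (hδ : 0 < δ) :
    ∃ d : ℂ, ‖d‖ < δ ∧ InSector u v d := by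
  have hu' : 0 < ‖u‖ := norm_pos_iff.2 hu
  set s : ℝ := δ / (2 * ‖u‖) with hs
  have hs0 : 0 < s := by positivity
  obtain ⟨ρ, hρ, h⟩ := sector_near_first hu hv huv hs0
  set t : ℝ := min ρ δ / (3 * ‖u‖) with ht
  have hm : 0 < min ρ δ := lt_min hρ hδ
  have ht0 : 0 < t := by positivity
  have hnorm : ‖(t : ℂ) * (I * u)‖ = min ρ δ / 3 := by
    rw [norm_mul, norm_mul, Complex.norm_I, Complex.norm_real, Real.norm_of_nonneg ht0.le, ht]
    field_simp
  refine ⟨(s : ℂ) * u + (t : ℂ) * (I * u), ?_, h _ ?_ ?_⟩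
  · calc ‖(s : ℂ) * u + (t : ℂ) * (I * u)‖ ≤ ‖(s : ℂ) * u‖ + ‖(t : ℂ) * (I * u)‖ :=
          norm_add_le _ _
      _ = δ / 2 + min ρ δ / 3 := by
          rw [hnorm, norm_mul, Complex.norm_real, Real.norm_of_nonneg hs0.le, hs]
          field_simp
      _ < δ := by
          have := min_le_right ρ δ
          linarith
  · rw [hnorm]
    have := min_le_left ρ δ
    linarith
  · rw [cr_mul_right]
    have h1 : cr u (I * u) = ‖u‖ ^ 2 := by
      rw [← Complex.normSq_eq_norm_sq, Complex.normSq_apply]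
      simp [cr]
    rw [h1]
    positivity

private theorem jordan2_outer_conn (r : ℝ) : IsPreconnected {z : ℂ | r < ‖z‖} := by
  by_cases hr : r < 0
  · have h : {z : ℂ | r < ‖z‖} = univ := by
      ext z
      simp only [mem_setOf_eq, mem_univ, iff_true]
      exact hr.trans_le (norm_nonneg z)
    rw [h]
    exact isPreconnected_univ
  · push Not at hr
    have h : {z : ℂ | r < ‖z‖} =
        (fun p : ℝ × ℝ => (p.1 : ℂ) * Complex.exp ((p.2 : ℂ) * I)) '' (Ioi r ×ˢ univ) := by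
      ext z
      constructor
      · intro hz
        refine ⟨(‖z‖, z.arg), ⟨hz, mem_univ _⟩, ?_⟩
        exact Complex.norm_mul_exp_arg_mul_I z
      · rintro ⟨⟨a, b⟩, ⟨ha, -⟩, rfl⟩
        have ha' : r < a := ha
        show r < ‖(a : ℂ) * Complex.exp ((b : ℂ) * I)‖
        rw [norm_mul, Complex.norm_exp_ofReal_mul_I, mul_one, Complex.norm_real,
          Real.norm_of_nonneg (hr.trans ha'.le)]
        exact ha'
    rw [h]
    refine IsPreconnected.image (isPreconnected_Ioi.prod isPreconnected_univ) _ ?_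
    exact Continuous.continuousOn (by fun_prop)

private theorem jordan2_outer_unbdd (r : ℝ) : ¬ Bornology.IsBounded {z : ℂ | r < ‖z‖} := by
  intro h
  obtain ⟨R, hR⟩ := (Metric.isBounded_iff_subset_closedBall (0 : ℂ)).1 h
  have h1 : ((|r| + |R| + 1 : ℝ) : ℂ) ∈ {z : ℂ | r < ‖z‖} := by
    show r < ‖((|r| + |R| + 1 : ℝ) : ℂ)‖
    rw [Complex.norm_real, Real.norm_of_nonneg (by positivity)]
    have := le_abs_self r
    have := abs_nonneg R
    linarith
  have h2 := hR h1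
  rw [mem_closedBall_zero_iff, Complex.norm_real, Real.norm_of_nonneg (by positivity)] at h2
  have := le_abs_self R
  have := abs_nonneg r
  linarith

namespace Poly

variable {n : ℕ} (P : Poly n)

theorem rev_C : P.rev.C = P.C := by
  have key : ∀ P : Poly n, P.rev.C ⊆ P.C := by
    intro P z hz
    obtain ⟨i, hi⟩ := mem_iUnion.1 hz
    have hi' : z ∈ segment ℝ (P.V (-i)) (P.V (-(i + 1))) := hi
    refine mem_iUnion.2 ⟨-(i + 1), ?_⟩
    have e : (-(i + 1) + 1 : ℤ) = -i := by ring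
    rw [e, segment_symm]
    exact hi'
  refine Subset.antisymm (key P) ?_
  have h := key P.rev
  have h2 : P.rev.rev.C = P.C := by
    have h3 : ∀ i : ℤ, P.rev.rev.V i = P.V i := by
      intro i
      show P.V (- -i) = P.V i
      rw [neg_neg]
    unfold C
    simp only [h3]
  rwa [h2] at h

theorem rev_I : P.rev.I = P.I := by
  unfold I
  rw [P.rev_C]

/-- the angle of one edge -/
private theorem jordan2_arg_rev (i : ℤ) (z : ℂ) (hz : z ∉ P.C) :
    Complex.arg ((P.V i - z) / (P.V (i + 1) - z)) =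
      - Complex.arg ((P.V (i + 1) - z) / (P.V i - z)) := by
  have h1 : z ∉ segment ℝ (P.V i) (P.V (i + 1)) := fun h => hz (mem_iUnion.2 ⟨i, h⟩)
  have h2 := slit_iff _ _ _ h1
  have h3 : (P.V i - z) / (P.V (i + 1) - z) = ((P.V (i + 1) - z) / (P.V i - z))⁻¹ := by
    rw [inv_div]
  rw [h3, Complex.arg_inv, if_neg (Complex.slitPlane_arg_ne_pi h2)]

theorem rev_wind (z : ℂ) (hz : z ∉ P.C) : P.rev.wind z = - P.wind z := by
  unfold wind
  rw [← neg_div]
  congr 1
  rw [← Finset.sum_neg_distrib]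
  rw [← Finset.sum_range_reflect]
  refine Finset.sum_congr rfl fun j hj => ?_
  have hj' := Finset.mem_range.1 hj
  have hc : ((n - 1 - j : ℕ) : ℤ) = n - 1 - j := by omega
  rw [hc]
  have e1 : P.rev.V ((n : ℤ) - 1 - j + 1) = P.V j := by
    show P.V (-((n : ℤ) - 1 - j + 1)) = P.V j
    have := P.per (-((n : ℤ) - 1 - j + 1))
    rw [← this]
    congr 1
    ring
  have e2 : P.rev.V ((n : ℤ) - 1 - j) = P.V (j + 1) := by
    show P.V (-((n : ℤ) - 1 - j)) = P.V (j + 1)
    have := P.per (-((n : ℤ) - 1 - j))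
    rw [← this]
    congr 1
    ring
  rw [e1, e2]
  exact P.jordan2_arg_rev j z hz

/-- the winding number is constant on connected sets off the curve -/
private theorem jordan2_wind_const {S : Set ℂ} (hS : IsPreconnected S) (hC : ∀ z ∈ S, z ∉ P.C)
    {z w : ℂ} (hz : z ∈ S) (hw : w ∈ S) : P.wind z = P.wind w := by
  refine hS.induction₂' (fun a b => P.wind a = P.wind b) ?_ ?_ hz hw
  · intro x hx
    have h := P.wind_loc x (hC x hx)
    filter_upwards [mem_nhdsWithin_of_mem_nhds h] with y hy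
    exact ⟨hy.symm, hy⟩
  · intro x y z _ _ _ h1 h2
    exact h1.trans h2

private theorem jordan2_compl_open : IsOpen P.Cᶜ := P.C_closed.isOpen_compl

/-- a component of the complement comes close to the curve -/
private theorem jordan2_near {z : ℂ} (hz : z ∉ P.C) :
    ∃ x : ℝ, ∀ ε > 0, ∃ k ∈ connectedComponentIn P.Cᶜ z, ‖k - P.γ x‖ < ε := by
  set K := connectedComponentIn P.Cᶜ z with hK
  have hzK : z ∈ K := mem_connectedComponentIn hz
  have hKo : IsOpen K := P.jordan2_compl_open.connectedComponentIn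
  have hne : K ≠ univ := by
    intro h
    have h1 : P.γ 0 ∈ K := by rw [h]; exact mem_univ _
    exact (connectedComponentIn_subset _ _ h1) (P.γ_mem_C 0)
  obtain ⟨c, hc⟩ := nonempty_frontier_iff.2 ⟨⟨z, hzK⟩, hne⟩
  have hcK : c ∉ K := by
    intro h
    have h1 : c ∉ interior K := hc.2
    rw [hKo.interior_eq] at h1
    exact h1 h
  have hcl : c ∈ closure K := hc.1
  have hcC : c ∈ P.C := by
    by_contra hcC
    have h1 : IsOpen (connectedComponentIn P.Cᶜ c) := P.jordan2_compl_open.connectedComponentIn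
    have h2 : c ∈ connectedComponentIn P.Cᶜ c := mem_connectedComponentIn hcC
    obtain ⟨y, hy1, hy2⟩ := mem_closure_iff.1 hcl _ h1 h2
    have h3 := connectedComponentIn_eq hy1
    have h4 := connectedComponentIn_eq hy2
    apply hcK
    rw [hK, h4, ← h3]
    exact h2
  obtain ⟨x, rfl⟩ := (P.mem_C_iff c).1 hcC
  refine ⟨x, fun ε hε => ?_⟩
  obtain ⟨k, hk, hd⟩ := Metric.mem_closure_iff.1 hcl ε hε
  refine ⟨k, hk, ?_⟩
  rw [← dist_eq_norm, dist_comm]
  exact hd

private theorem jordan2_sec (x : ℝ) (d : ℂ) : d = 0 ∨ (∃ t : ℝ, 0 < t ∧ d = (t : ℂ) * P.ep x) ∨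
    (∃ t : ℝ, 0 < t ∧ d = (t : ℂ) * P.em x) ∨ InSector (P.ep x) (P.em x) d ∨
      InSector (P.em x) (P.ep x) d :=
  sector_cover (P.ep_ne x) (P.em_ne x) (P.em_ne_ep x) d

/-- the two components -/
private structure Jordan2Comps (A B : Set ℂ) : Prop where
  hA : ∀ z ∈ A, z ∉ P.C ∧ connectedComponentIn P.Cᶜ z = A
  hB : ∀ z ∈ B, z ∉ P.C ∧ connectedComponentIn P.Cᶜ z = B
  neA : A.Nonempty
  neB : B.Nonempty
  cov : ∀ z, z ∉ P.C → z ∈ A ∨ z ∈ B
  disj : ∀ z ∈ A, z ∉ B

private theorem jordan2_two : ∃ U W : Set ℂ, P.Jordan2Comps U W ∧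
    (∀ x : ℝ, ∃ ρ > 0, ∀ d : ℂ, ‖d‖ < ρ → (InSector (P.ep x) (P.em x) d → P.γ x + d ∈ U) ∧
      (InSector (P.em x) (P.ep x) d → P.γ x + d ∈ W)) ∧
    ∀ z ∈ U, ∀ w ∈ W, P.wind z = P.wind w + 1 := by
  obtain ⟨U, hUne, hU, hUl⟩ := P.left_comp
  obtain ⟨W, hWne, hW, hWl⟩ := P.right_comp
  have hloc : ∀ x : ℝ, ∃ ρ > 0, ∀ d : ℂ, ‖d‖ < ρ → (InSector (P.ep x) (P.em x) d → P.γ x + d ∈ U) ∧
      (InSector (P.em x) (P.ep x) d → P.γ x + d ∈ W) := by
    intro x
    obtain ⟨ρ, hρ, h⟩ := hUl x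
    obtain ⟨ρ', hρ', h'⟩ := hWl x
    exact ⟨min ρ ρ', lt_min hρ hρ', fun d hd =>
      ⟨h d (hd.trans_le (min_le_left _ _)), h' d (hd.trans_le (min_le_right _ _))⟩⟩
  have hUc : IsPreconnected U := by
    obtain ⟨z, hz⟩ := hUne
    rw [← (hU z hz).2]
    exact isPreconnected_connectedComponentIn
  have hWc : IsPreconnected W := by
    obtain ⟨z, hz⟩ := hWne
    rw [← (hW z hz).2]
    exact isPreconnected_connectedComponentIn
  -- the jump
  have hNI : NI (1 / 2 : ℝ) := (NI_of_Ioo (i := 0) (by norm_num) (by norm_num)).1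
  have hjump : ∀ z ∈ U, ∀ w ∈ W, P.wind z = P.wind w + 1 := by
    obtain ⟨ρ, hρ, hj⟩ := P.wind_jump hNI
    obtain ⟨ρ', hρ', hl⟩ := hloc (1 / 2)
    obtain ⟨t, ht, htep⟩ := P.em_NI hNI
    have hm : 0 < min ρ ρ' := lt_min hρ hρ'
    obtain ⟨d, hd, hds⟩ := jordan2_sector_exists (P.ep_ne (1 / 2)) (P.em_ne (1 / 2))
      (P.em_ne_ep (1 / 2)) hm
    have hd1 : 0 < cr (P.ed (1 / 2)) d := (P.InSector_NI hNI d).1 hds
    have hd2 : cr (P.ed (1 / 2)) (-d) < 0 := by rw [cr_neg_right]; linarith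
    have hnd : ‖-d‖ < min ρ ρ' := by rwa [norm_neg]
    have hflat : cr (P.em (1 / 2)) (P.ep (1 / 2)) = 0 := by
      obtain ⟨s, hs, hsep⟩ := P.ep_NI hNI
      rw [hsep, htep, cr_neg_left, cr_mul_left, cr_mul_right, cr_self]
      ring
    have hw : InSector (P.em (1 / 2)) (P.ep (1 / 2)) (-d) := by
      rw [InSector_flat hflat, htep, cr_neg_left, cr_mul_left]
      nlinarith
    have hjump0 := hj d (-d) (hd.trans_le (min_le_left _ _)) (hnd.trans_le (min_le_left _ _)) hd1 hd2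
    have hu0 := (hl d (hd.trans_le (min_le_right _ _))).1 hds
    have hw0 := (hl (-d) (hnd.trans_le (min_le_right _ _))).2 hw
    intro z hz w hw'
    rw [P.jordan2_wind_const hUc (fun z hz => (hU z hz).1) hz hu0,
      P.jordan2_wind_const hWc (fun z hz => (hW z hz).1) hw' hw0, hjump0]
  refine ⟨U, W, ⟨hU, hW, hUne, hWne, ?_, ?_⟩, hloc, hjump⟩
  · intro z hz
    obtain ⟨x, hx⟩ := P.jordan2_near hz
    obtain ⟨ρ, hρ, hl⟩ := hloc x
    obtain ⟨ρ', hρ', hC⟩ := P.C_local x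
    obtain ⟨k, hk, hkd⟩ := hx (min ρ ρ') (lt_min hρ hρ')
    have hkC : k ∉ P.C := connectedComponentIn_subset _ _ hk
    have hke : P.γ x + (k - P.γ x) = k := by ring
    have hl' := hl (k - P.γ x) (hkd.trans_le (min_le_left _ _))
    have hC' := hC (k - P.γ x) (hkd.trans_le (min_le_right _ _))
    rw [hke] at hl' hC'
    have hzk := connectedComponentIn_eq hk
    have hzz : z ∈ connectedComponentIn P.Cᶜ z := mem_connectedComponentIn hz
    rcases P.jordan2_sec x (k - P.γ x) with h | h | h | h | h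
    · exact absurd (hC'.2 (Or.inl h)) hkC
    · exact absurd (hC'.2 (Or.inr (Or.inl h))) hkC
    · exact absurd (hC'.2 (Or.inr (Or.inr h))) hkC
    · left
      rw [← (hU k (hl'.1 h)).2, ← hzk]
      exact hzz
    · right
      rw [← (hW k (hl'.2 h)).2, ← hzk]
      exact hzz
  · intro z hz hz'
    have := hjump z hz z hz'
    linarith

/-- the set of all points off the curve decomposes -/
private theorem jordan2_fin {A B : Set ℂ} (h : P.Jordan2Comps A B) {r : ℝ}
    (hE : ∀ z : ℂ, r < ‖z‖ → z ∈ B) : P.I = A ∧ P.Rᶜ = B := by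
  have hI : P.I = A := by
    ext z
    constructor
    · rintro ⟨hzC, hb⟩
      rcases h.cov z hzC with h1 | h1
      · exact h1
      · exfalso
        rw [(h.hB z h1).2] at hb
        exact jordan2_outer_unbdd r (hb.subset fun w hw => hE w hw)
    · intro hz
      refine ⟨(h.hA z hz).1, ?_⟩
      rw [(h.hA z hz).2]
      refine (Metric.isBounded_closedBall (x := (0 : ℂ)) (r := r)).subset fun w hw => ?_
      rw [mem_closedBall_zero_iff]
      by_contra hcon
      push Not at hcon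
      exact h.disj w hw (hE w hcon)
  refine ⟨hI, ?_⟩
  ext z
  constructor
  · intro hz
    have h1 : z ∉ P.C := fun h' => hz (Or.inl h')
    rcases h.cov z h1 with h2 | h2
    · exact absurd (Or.inr (by rw [hI]; exact h2)) hz
    · exact h2
  · intro hz hz'
    rcases hz' with h1 | h1
    · exact (h.hB z hz).1 h1
    · rw [hI] at h1
      exact h.disj z h1 hz

private theorem jordan2_symm {A B : Set ℂ} (h : P.Jordan2Comps A B) : P.Jordan2Comps B A :=
  ⟨h.hB, h.hA, h.neB, h.neA, fun z hz => (h.cov z hz).symm, fun z hz hz' => h.disj z hz' hz⟩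

/-- main lemma -/
private theorem jordan2_main : P.Jordan2Comps P.I P.Rᶜ ∧ (∀ z ∈ P.Rᶜ, P.wind z = 0) ∧
    (((∀ z ∈ P.I, P.wind z = 1) ∧ ∀ x : ℝ, ∃ ρ > 0, ∀ d : ℂ, ‖d‖ < ρ →
      (InSector (P.ep x) (P.em x) d → P.γ x + d ∈ P.I) ∧
      (InSector (P.em x) (P.ep x) d → P.γ x + d ∈ P.Rᶜ)) ∨
    ((∀ z ∈ P.I, P.wind z = -1) ∧ ∀ x : ℝ, ∃ ρ > 0, ∀ d : ℂ, ‖d‖ < ρ →
      (InSector (P.ep x) (P.em x) d → P.γ x + d ∈ P.Rᶜ) ∧
      (InSector (P.em x) (P.ep x) d → P.γ x + d ∈ P.I))) := by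
  obtain ⟨U, W, hUW, hloc, hjump⟩ := P.jordan2_two
  obtain ⟨r₀, hr₀⟩ := P.wind_far
  obtain ⟨r₁, hr₁⟩ := (Metric.isBounded_iff_subset_closedBall (0 : ℂ)).1 P.C_compact.isBounded
  set r := max r₀ r₁ with hr
  have hEC : ∀ z : ℂ, r < ‖z‖ → z ∉ P.C := by
    intro z hz hzC
    have h1 := hr₁ hzC
    rw [mem_closedBall_zero_iff] at h1
    exact absurd (h1.trans (le_max_right r₀ r₁)) (not_le.2 hz)
  have hEw : ∀ z : ℂ, r < ‖z‖ → P.wind z = 0 := fun z hz => hr₀ z ((le_max_left _ _).trans_lt hz)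
  -- a point of the outer region
  set e : ℂ := ((|r| + 1 : ℝ) : ℂ) with he
  have hee : r < ‖e‖ := by
    rw [he, Complex.norm_real, Real.norm_of_nonneg (by positivity)]
    have := le_abs_self r
    linarith
  have hEcomp : ∀ z : ℂ, r < ‖z‖ → z ∈ connectedComponentIn P.Cᶜ e := by
    intro z hz
    exact (jordan2_outer_conn r).subset_connectedComponentIn hee (fun w hw => hEC w hw) hz
  rcases hUW.cov e (hEC e hee) with heU | heW
  · -- the left component is unbounded
    have hE : ∀ z : ℂ, r < ‖z‖ → z ∈ U := by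
      intro z hz
      rw [← (hUW.hA e heU).2]
      exact hEcomp z hz
    obtain ⟨hI, hR⟩ := P.jordan2_fin (P.jordan2_symm hUW) hE
    have hw : ∀ z ∈ U, P.wind z = 0 := by
      intro z hz
      obtain ⟨w, hw⟩ := hUW.neB
      rw [hjump z hz w hw, ← hjump e heU w hw, hEw e hee]
    refine ⟨by rw [hI, hR]; exact P.jordan2_symm hUW, by rw [hR]; exact hw, Or.inr ⟨?_, ?_⟩⟩
    · rw [hI]
      intro z hz
      have h1 := hjump e heU z hz
      rw [hEw e hee] at h1
      linarith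
    · intro x
      obtain ⟨ρ, hρ, h⟩ := hloc x
      rw [hI, hR]
      exact ⟨ρ, hρ, h⟩
  · have hE : ∀ z : ℂ, r < ‖z‖ → z ∈ W := by
      intro z hz
      rw [← (hUW.hB e heW).2]
      exact hEcomp z hz
    obtain ⟨hI, hR⟩ := P.jordan2_fin hUW hE
    have hw : ∀ z ∈ W, P.wind z = 0 := by
      intro z hz
      obtain ⟨w, hw⟩ := hUW.neA
      have h1 := hjump w hw z hz
      have h2 := hjump w hw e heW
      rw [hEw e hee] at h2
      linarith
    refine ⟨by rw [hI, hR]; exact hUW, by rw [hR]; exact hw, Or.inl ⟨?_, ?_⟩⟩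
    · rw [hI]
      intro z hz
      have h1 := hjump z hz e heW
      rw [hEw e hee] at h1
      linarith
    · intro x
      obtain ⟨ρ, hρ, h⟩ := hloc x
      rw [hI, hR]
      exact ⟨ρ, hρ, h⟩

/-- one of the two orientations is counterclockwise -/
theorem ccw_or : P.CCW ∨ P.rev.CCW := by
  rcases P.jordan2_main.2.2 with ⟨h, -⟩ | ⟨h, -⟩
  · exact Or.inl h
  · right
    intro z hz
    rw [P.rev_I] at hz
    rw [P.rev_wind z hz.1, h z hz, neg_neg]

theorem I_open : IsOpen P.I := by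
  obtain ⟨z, hz⟩ := P.jordan2_main.1.neA
  rw [← (P.jordan2_main.1.hA z hz).2]
  exact P.jordan2_compl_open.connectedComponentIn

theorem R_closed : IsClosed P.R := by
  obtain ⟨z, hz⟩ := P.jordan2_main.1.neB
  rw [← isOpen_compl_iff, ← (P.jordan2_main.1.hB z hz).2]
  exact P.jordan2_compl_open.connectedComponentIn

theorem R_bounded : Bornology.IsBounded P.R := by
  obtain ⟨z, hz⟩ := P.jordan2_main.1.neA
  refine P.C_compact.isBounded.union ?_
  rw [← (P.jordan2_main.1.hA z hz).2]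
  exact hz.2

theorem I_disj_C {z : ℂ} (h : z ∈ P.I) : z ∉ P.C := h.1

theorem C_sub_R : P.C ⊆ P.R := subset_union_left

theorem I_sub_R : P.I ⊆ P.R := subset_union_right

theorem closure_I_sub_R : closure P.I ⊆ P.R :=
  closure_minimal P.I_sub_R P.R_closed

/-- structure of the polygon near a boundary point -/
theorem sector (hc : P.CCW) (x : ℝ) : ∃ ρ > 0, ∀ d : ℂ, ‖d‖ < ρ →
    (P.γ x + d ∈ P.I ↔ InSector (P.ep x) (P.em x) d) ∧
    (P.γ x + d ∈ P.C ↔
      d = 0 ∨ (∃ t : ℝ, 0 < t ∧ d = (t : ℂ) * P.ep x) ∨ (∃ t : ℝ, 0 < t ∧ d = (t : ℂ) * P.em x)) ∧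
    (P.γ x + d ∉ P.R ↔ InSector (P.em x) (P.ep x) d) := by
  obtain ⟨hcomp, -, h⟩ := P.jordan2_main
  have hloc : ∀ x : ℝ, ∃ ρ > 0, ∀ d : ℂ, ‖d‖ < ρ →
      (InSector (P.ep x) (P.em x) d → P.γ x + d ∈ P.I) ∧
      (InSector (P.em x) (P.ep x) d → P.γ x + d ∈ P.Rᶜ) := by
    rcases h with ⟨-, h⟩ | ⟨h, -⟩
    · exact h
    · exfalso
      obtain ⟨z, hz⟩ := hcomp.neA
      have h1 := h z hz
      have h2 := hc z hz
      rw [h1] at h2
      norm_num at h2
  obtain ⟨ρ, hρ, hl⟩ := hloc x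
  obtain ⟨ρ', hρ', hC⟩ := P.C_local x
  refine ⟨min ρ ρ', lt_min hρ hρ', fun d hd => ?_⟩
  have hl' := hl d (hd.trans_le (min_le_left _ _))
  have hC' := hC d (hd.trans_le (min_le_right _ _))
  refine ⟨⟨fun hI => ?_, hl'.1⟩, hC', ⟨fun hR => ?_, hl'.2⟩⟩
  · have hnC : P.γ x + d ∉ P.C := hI.1
    rcases P.jordan2_sec x d with h1 | h1 | h1 | h1 | h1
    · exact absurd (hC'.2 (Or.inl h1)) hnC
    · exact absurd (hC'.2 (Or.inr (Or.inl h1))) hnC
    · exact absurd (hC'.2 (Or.inr (Or.inr h1))) hnC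
    · exact h1
    · exact absurd (Or.inr hI) (hl'.2 h1)
  · have hnC : P.γ x + d ∉ P.C := fun h' => hR (Or.inl h')
    rcases P.jordan2_sec x d with h1 | h1 | h1 | h1 | h1
    · exact absurd (hC'.2 (Or.inl h1)) hnC
    · exact absurd (hC'.2 (Or.inr (Or.inl h1))) hnC
    · exact absurd (hC'.2 (Or.inr (Or.inr h1))) hnC
    · exact absurd (Or.inr (hl'.1 h1)) hR
    · exact h1

private theorem jordan2_near_ext (x : ℝ) : ∀ ε > 0, (∃ z, z ∉ P.R ∧ ‖z - P.γ x‖ < ε) ∧
    ∃ z, z ∈ P.I ∧ ‖z - P.γ x‖ < ε := by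
  intro ε hε
  have huv := P.em_ne_ep x
  have hvu : ∀ t : ℝ, 0 < t → P.ep x ≠ (t : ℂ) * P.em x := by
    intro t ht h
    apply huv t⁻¹ (inv_pos.2 ht)
    rw [h]
    have : (t : ℂ) ≠ 0 := by exact_mod_cast ht.ne'
    push_cast
    field_simp
  rcases P.jordan2_main.2.2 with ⟨-, h⟩ | ⟨-, h⟩
  · obtain ⟨ρ, hρ, hl⟩ := h x
    obtain ⟨d, hd, hds⟩ := jordan2_sector_exists (P.em_ne x) (P.ep_ne x) hvu (lt_min hρ hε)
    obtain ⟨d', hd', hds'⟩ := jordan2_sector_exists (P.ep_ne x) (P.em_ne x) huv (lt_min hρ hε)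
    refine ⟨⟨P.γ x + d, (hl d (hd.trans_le (min_le_left _ _))).2 hds, ?_⟩,
      ⟨P.γ x + d', (hl d' (hd'.trans_le (min_le_left _ _))).1 hds', ?_⟩⟩
    · rw [add_sub_cancel_left]
      exact hd.trans_le (min_le_right _ _)
    · rw [add_sub_cancel_left]
      exact hd'.trans_le (min_le_right _ _)
  · obtain ⟨ρ, hρ, hl⟩ := h x
    obtain ⟨d, hd, hds⟩ := jordan2_sector_exists (P.em_ne x) (P.ep_ne x) hvu (lt_min hρ hε)
    obtain ⟨d', hd', hds'⟩ := jordan2_sector_exists (P.ep_ne x) (P.em_ne x) huv (lt_min hρ hε)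
    refine ⟨⟨P.γ x + d', (hl d' (hd'.trans_le (min_le_left _ _))).1 hds', ?_⟩,
      ⟨P.γ x + d, (hl d (hd.trans_le (min_le_left _ _))).2 hds, ?_⟩⟩
    · rw [add_sub_cancel_left]
      exact hd'.trans_le (min_le_right _ _)
    · rw [add_sub_cancel_left]
      exact hd.trans_le (min_le_right _ _)

/-- every boundary point is a limit of exterior points -/
theorem ext_near (x : ℝ) {ε : ℝ} (hε : 0 < ε) : ∃ z, z ∉ P.R ∧ ‖z - P.γ x‖ < ε :=
  (P.jordan2_near_ext x ε hε).1

theorem wind_ext (z : ℂ) (hz : z ∉ P.R) : P.wind z = 0 :=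
  P.jordan2_main.2.1 z hz

theorem ext_unbounded (z : ℂ) (hz : z ∉ P.R) :
    ¬ Bornology.IsBounded (connectedComponentIn P.Cᶜ z) := by
  intro h
  exact hz (Or.inr ⟨fun h' => hz (Or.inl h'), h⟩)

theorem ext_connected : IsPreconnected P.Rᶜ := by
  obtain ⟨z, hz⟩ := P.jordan2_main.1.neB
  rw [← (P.jordan2_main.1.hB z hz).2]
  exact isPreconnected_connectedComponentIn

theorem I_connected : IsPreconnected P.I := by
  obtain ⟨z, hz⟩ := P.jordan2_main.1.neA
  rw [← (P.jordan2_main.1.hA z hz).2]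
  exact isPreconnected_connectedComponentIn

theorem frontier_I : frontier P.I = P.C := by
  rw [P.I_open.frontier_eq]
  ext z
  constructor
  · rintro ⟨h1, h2⟩
    rcases P.closure_I_sub_R h1 with h3 | h3
    · exact h3
    · exact absurd h3 h2
  · intro hz
    refine ⟨?_, fun h => h.1 hz⟩
    obtain ⟨x, rfl⟩ := (P.mem_C_iff z).1 hz
    rw [Metric.mem_closure_iff]
    intro ε hε
    obtain ⟨w, hw, hd⟩ := (P.jordan2_near_ext x ε hε).2
    exact ⟨w, hw, by rw [dist_comm, dist_eq_norm]; exact hd⟩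

end Poly

end Pool.Agent.Lib_PL
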