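import Pool.Agent.Lib_PL.Vis1

/-!
Openness of visibility, also at vertices (one-sided), and the passing lemma.

All proofs are by contradiction and compactness: take sequences of end points converging to the given ones
and points `c_m ∈ C` on the open segments (`block`, `enter`); `c_m = γ (t_m)` with `t_m` in a bounded
window; the limit `γ t` lies on the closed limit segment, so it is one of the ends (or the vertex which is
passed).  Near that end the curve consists of two radii (`C_local`, `γ_after`, `γ_before`), which is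
excluded by the sign conditions together with `Vis.sector` (the direction of the limit segment is strictly
inside the sector).
-/

open Set Complex
open scoped Topology

namespace Pool.Agent.Lib_PL

private theorem visOpen_secA {e m u : ℂ} (h : InSector e m u) (hu : 0 < cr e u) {a b : ℝ}
    (ha : 0 ≤ a) (hb : 0 < b) : InSector e m ((a : ℂ) * e + (b : ℂ) * u) := by
  have e1 : cr e ((a : ℂ) * e + (b : ℂ) * u) = b * cr e u := by
    rw [cr_add_right, cr_mul_right, cr_mul_right, cr_self]; ring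
  have h1 : 0 < cr e ((a : ℂ) * e + (b : ℂ) * u) := by rw [e1]; positivity
  refine ⟨fun hem => ⟨h1, ?_⟩, fun _ => Or.inl h1, fun _ => h1⟩
  have h2 := (h.1 hem).2
  rw [cr_add_left, cr_mul_left, cr_mul_left]
  have h3 : 0 ≤ a * cr e m := mul_nonneg ha hem.le
  have h4 : 0 < b * cr u m := mul_pos hb h2
  linarith

private theorem visOpen_secB {e m u : ℂ} (h : InSector e m u) (hu : 0 < cr u m) {a b : ℝ}
    (ha : 0 ≤ a) (hb : 0 < b) : InSector e m ((a : ℂ) * m + (b : ℂ) * u) := by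
  have e1 : cr ((a : ℂ) * m + (b : ℂ) * u) m = b * cr u m := by
    rw [cr_add_left, cr_mul_left, cr_mul_left, cr_self]; ring
  have h1 : 0 < cr ((a : ℂ) * m + (b : ℂ) * u) m := by rw [e1]; positivity
  refine ⟨fun hem => ⟨?_, h1⟩, fun _ => Or.inr h1, fun hem => ?_⟩
  · have h2 := (h.1 hem).1
    rw [cr_add_right, cr_mul_right, cr_mul_right]
    have h3 : 0 ≤ a * cr e m := mul_nonneg ha hem.le
    have h4 : 0 < b * cr e u := mul_pos hb h2
    linarith
  · have h2 := h.2.2 hem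
    rw [cr_add_right, cr_mul_right, cr_mul_right, hem]
    have h4 : 0 < b * cr e u := mul_pos hb h2
    linarith

namespace Poly

variable {n : ℕ} (P : Poly n)

/-- visibility of moving points, given good germs at both ends -/
private theorem visOpen_glue {ι : Type} {F : Filter ι} {z' w' : ι → ℂ} {z w : ℂ}
    (h : P.Vis z w) (hz : Filter.Tendsto z' F (𝓝 z)) (hw : Filter.Tendsto w' F (𝓝 w))
    (h1 : ∃ τ > 0, ∀ᶠ i in F, ∀ t : ℝ, 0 < t → t < τ → z' i + (t : ℂ) * (w' i - z' i) ∈ P.I)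
    (h2 : ∃ τ > 0, ∀ᶠ i in F, ∀ t : ℝ, 0 < t → t < τ → w' i + (t : ℂ) * (z' i - w' i) ∈ P.I) :
    ∀ᶠ i in F, P.Vis (z' i) (w' i) := by
  obtain ⟨τ, hτ, h1⟩ := h1
  obtain ⟨τ', hτ', h2⟩ := h2
  set σ : ℝ := min (min τ τ') (1 / 2) with hσ
  have hσ0 : 0 < σ := lt_min (lt_min hτ hτ') (by norm_num)
  have hσ1 : σ ≤ 1 / 2 := min_le_right _ _
  have hστ : σ ≤ τ := (min_le_left _ _).trans (min_le_left _ _)
  have hστ' : σ ≤ τ' := (min_le_left _ _).trans (min_le_right _ _)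
  -- the middle part
  have hmid : ∀ᶠ p : ℂ × ℂ in 𝓝 (z, w), ∀ t ∈ Icc (σ / 2) (1 - σ / 2),
      p.1 + (t : ℂ) * (p.2 - p.1) ∈ P.I := by
    refine isCompact_Icc.eventually_forall_of_forall_eventually ?_
    intro t ht
    have hcont : Continuous fun q : (ℂ × ℂ) × ℝ => q.1.1 + (q.2 : ℂ) * (q.1.2 - q.1.1) := by
      fun_prop
    refine hcont.continuousAt.eventually_mem (P.I_open.mem_nhds ?_)
    apply h
    rw [openSegment_eq_image']
    refine ⟨t, ⟨by linarith [ht.1], by linarith [ht.2]⟩, ?_⟩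
    simp only [Complex.real_smul]
  have hmid' := (hz.prodMk_nhds hw).eventually hmid
  filter_upwards [h1, h2, hmid'] with i hi1 hi2 hi3
  intro c hc
  rw [openSegment_eq_image'] at hc
  obtain ⟨t, ⟨ht0, ht1⟩, rfl⟩ := hc
  simp only [Complex.real_smul]
  rcases lt_or_ge t σ with hts | hts
  · exact hi1 t ht0 (hts.trans_le hστ)
  · rcases lt_or_ge (1 - σ) t with hts' | hts'
    · have h3 := hi2 (1 - t) (by linarith) (by linarith)
      have e : w' i + ((1 - t : ℝ) : ℂ) * (z' i - w' i) = z' i + (t : ℂ) * (w' i - z' i) := by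
        push_cast; ring
      rwa [e] at h3
    · exact hi3 t ⟨by linarith, by linarith⟩

/-- germ at an interior point -/
private theorem visOpen_germI {ι : Type} {F : Filter ι} {z' w' : ι → ℂ} {z w : ℂ} (hzI : z ∈ P.I)
    (hz : Filter.Tendsto z' F (𝓝 z)) (hw : Filter.Tendsto w' F (𝓝 w)) :
    ∃ τ > 0, ∀ᶠ i in F, ∀ t : ℝ, 0 < t → t < τ → z' i + (t : ℂ) * (w' i - z' i) ∈ P.I := by
  have hcont : Continuous fun q : (ℂ × ℂ) × ℝ => q.1.1 + (q.2 : ℂ) * (q.1.2 - q.1.1) := by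
    fun_prop
  have h1 : ∀ᶠ q : (ℂ × ℂ) × ℝ in 𝓝 ((z, w), (0 : ℝ)),
      q.1.1 + (q.2 : ℂ) * (q.1.2 - q.1.1) ∈ P.I := by
    refine hcont.continuousAt.eventually_mem (P.I_open.mem_nhds ?_)
    simpa using hzI
  rw [nhds_prod_eq] at h1
  obtain ⟨pa, hpa, pb, hpb, hab⟩ := Filter.eventually_prod_iff.1 h1
  obtain ⟨τ, hτ, hτb⟩ := Metric.eventually_nhds_iff.1 hpb
  refine ⟨τ, hτ, ?_⟩
  filter_upwards [(hz.prodMk_nhds hw).eventually hpa] with i hi
  intro t ht0 htτ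
  have h2 : pb t := hτb (by rw [Real.dist_eq, sub_zero, abs_of_pos ht0]; exact htτ)
  exact hab hi h2

/-- germ at a boundary point -/
private theorem visOpen_germC (hc : P.CCW) {ι : Type} {F : Filter ι} {z' w' : ι → ℂ} {x : ℝ} {w : ℂ}
    (hz : Filter.Tendsto z' F (𝓝 (P.γ x))) (hw : Filter.Tendsto w' F (𝓝 w))
    (hs : ∀ᶠ i in F, ∀ t : ℝ, 0 < t → t < 1 →
      InSector (P.ep x) (P.em x) ((z' i - P.γ x) + (t : ℂ) * (w' i - z' i))) :
    ∃ τ > 0, ∀ᶠ i in F, ∀ t : ℝ, 0 < t → t < τ → z' i + (t : ℂ) * (w' i - z' i) ∈ P.I := by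
  obtain ⟨ρ, hρ, hsec⟩ := P.sector hc x
  set M : ℝ := ‖w - P.γ x‖ + 1 with hM
  have hM0 : 0 < M := by positivity
  refine ⟨min 1 (ρ / (2 * M)), lt_min one_pos (by positivity), ?_⟩
  have hz1 : ∀ᶠ i in F, ‖z' i - P.γ x‖ < ρ / 2 := by
    have h1 := (hz.sub_const (P.γ x)).norm
    rw [sub_self, norm_zero] at h1
    exact h1.eventually (gt_mem_nhds (by positivity))
  have hw1 : ∀ᶠ i in F, ‖w' i - z' i‖ < M := by
    have h1 := (hw.sub hz).norm
    exact h1.eventually (gt_mem_nhds (by rw [hM]; linarith))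
  filter_upwards [hs, hz1, hw1] with i hi1 hi2 hi3
  intro t ht0 htτ
  have ht1 : t < 1 := htτ.trans_le (min_le_left _ _)
  have ht2 : t < ρ / (2 * M) := htτ.trans_le (min_le_right _ _)
  have hnorm : ‖(z' i - P.γ x) + (t : ℂ) * (w' i - z' i)‖ < ρ := by
    calc ‖(z' i - P.γ x) + (t : ℂ) * (w' i - z' i)‖ ≤
        ‖z' i - P.γ x‖ + ‖(t : ℂ) * (w' i - z' i)‖ := norm_add_le _ _
      _ = ‖z' i - P.γ x‖ + t * ‖w' i - z' i‖ := by
          rw [norm_mul, Complex.norm_real, Real.norm_of_nonneg ht0.le]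
      _ < ρ / 2 + ρ / 2 := by
          refine add_lt_add hi2 ?_
          calc t * ‖w' i - z' i‖ ≤ t * M := mul_le_mul_of_nonneg_left hi3.le ht0.le
            _ < ρ / (2 * M) * M := mul_lt_mul_of_pos_right ht2 hM0
            _ = ρ / 2 := by field_simp
      _ = ρ := by ring
  have h1 := (hsec _ hnorm).1.2 (hi1 t ht0 ht1)
  have e : P.γ x + ((z' i - P.γ x) + (t : ℂ) * (w' i - z' i)) = z' i + (t : ℂ) * (w' i - z' i) := by
    ring
  rwa [e] at h1

/-- germ at a fixed end -/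
private theorem visOpen_germF (hc : P.CCW) {ι : Type} {F : Filter ι} {w' : ι → ℂ} {z w : ℂ}
    (h : P.Vis z w) (hw : Filter.Tendsto w' F (𝓝 w)) :
    ∃ τ > 0, ∀ᶠ i in F, ∀ t : ℝ, 0 < t → t < τ → z + (t : ℂ) * (w' i - z) ∈ P.I := by
  have hzR : z ∈ P.R := h.seg (left_mem_segment ℝ z w)
  rcases hzR with hzC | hzI
  · obtain ⟨x, rfl⟩ := (P.mem_C_iff z).1 hzC
    refine P.visOpen_germC hc (z' := fun _ => P.γ x) tendsto_const_nhds hw ?_
    have h1 : InSector (P.ep x) (P.em x) (w - P.γ x) := h.sector hc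
    have h2 := (sector_open (P.ep_ne x) (P.em_ne x) (P.em_ne_ep x)).mem_nhds h1
    have h3 : Filter.Tendsto (fun i => w' i - P.γ x) F (𝓝 (w - P.γ x)) := hw.sub_const _
    filter_upwards [h3.eventually h2] with i hi
    intro t ht0 _
    rw [sub_self, zero_add]
    exact (InSector_smul ht0).2 hi
  · exact P.visOpen_germI hzI (z' := fun _ => z) tendsto_const_nhds hw

/-- germ at a moving point inside an edge -/
private theorem visOpen_germN (hc : P.CCW) {ι : Type} {F : Filter ι} {x' : ι → ℝ} {w' : ι → ℂ}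
    {x : ℝ} {w : ℂ} (hx : NI x) (h : P.Vis (P.γ x) w) (hx' : Filter.Tendsto x' F (𝓝 x))
    (hw : Filter.Tendsto w' F (𝓝 w)) :
    ∃ τ > 0, ∀ᶠ i in F, ∀ t : ℝ, 0 < t → t < τ →
      P.γ (x' i) + (t : ℂ) * (w' i - P.γ (x' i)) ∈ P.I := by
  have hγ : Filter.Tendsto (fun i => P.γ (x' i)) F (𝓝 (P.γ x)) :=
    (P.γ_cont.tendsto x).comp hx'
  refine P.visOpen_germC hc hγ hw ?_
  obtain ⟨hf1, hf2, -⟩ := NI_floor hx
  have h1 : 0 < cr (P.ed x) (w - P.γ x) := h.left hc hx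
  have hcont : Continuous fun d : ℂ => cr (P.ed x) d := by
    unfold cr
    fun_prop
  have h2 : Filter.Tendsto (fun i => cr (P.ed x) (w' i - P.γ (x' i))) F
      (𝓝 (cr (P.ed x) (w - P.γ x))) := (hcont.tendsto _).comp (hw.sub hγ)
  filter_upwards [h2.eventually (lt_mem_nhds h1), hx'.eventually (lt_mem_nhds hf1),
    hx'.eventually (gt_mem_nhds hf2)] with i hi1 hi2 hi3
  intro t ht0 _
  rw [P.InSector_NI hx, P.γ_sub ⌊x⌋ x (x' i) hf1.le hf2.le hi2.le hi3.le]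
  have e : P.V (⌊x⌋ + 1) - P.V ⌊x⌋ = P.ed x := rfl
  rw [e, cr_add_right, cr_mul_right, cr_mul_right, cr_self, mul_zero, zero_add]
  exact mul_pos ht0 hi1

theorem vis_open (hc : P.CCW) {x y : ℝ} (hx : NI x) (hy : NI y) (h : P.Vis (P.γ x) (P.γ y)) :
    ∃ ε > 0, ∀ x' y' : ℝ, |x' - x| < ε → |y' - y| < ε → P.Vis (P.γ x') (P.γ y') := by
  have hfst : Filter.Tendsto (fun p : ℝ × ℝ => p.1) (𝓝 (x, y)) (𝓝 x) := continuous_fst.tendsto _
  have hsnd : Filter.Tendsto (fun p : ℝ × ℝ => p.2) (𝓝 (x, y)) (𝓝 y) := continuous_snd.tendsto _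
  have hγ1 : Filter.Tendsto (fun p : ℝ × ℝ => P.γ p.1) (𝓝 (x, y)) (𝓝 (P.γ x)) :=
    (P.γ_cont.tendsto x).comp hfst
  have hγ2 : Filter.Tendsto (fun p : ℝ × ℝ => P.γ p.2) (𝓝 (x, y)) (𝓝 (P.γ y)) :=
    (P.γ_cont.tendsto y).comp hsnd
  have h1 := P.visOpen_germN hc hx h hfst hγ2
  have h2 := P.visOpen_germN hc hy h.symm hsnd hγ1
  obtain ⟨ε, hε, H⟩ := Metric.eventually_nhds_iff.1 (P.visOpen_glue h hγ1 hγ2 h1 h2)
  refine ⟨ε, hε, fun x' y' hx' hy' => ?_⟩
  refine H (y := (x', y')) ?_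
  rw [Prod.dist_eq]
  exact max_lt (by rw [Real.dist_eq]; exact hx') (by rw [Real.dist_eq]; exact hy')

theorem vis_open_end (hc : P.CCW) {z : ℂ} {y : ℝ} (hy : NI y) (h : P.Vis z (P.γ y)) :
    ∃ ε > 0, ∀ y' : ℝ, |y' - y| < ε → P.Vis z (P.γ y') := by
  have hid : Filter.Tendsto (fun p : ℝ => p) (𝓝 y) (𝓝 y) := Filter.tendsto_id
  have hγ : Filter.Tendsto (fun p : ℝ => P.γ p) (𝓝 y) (𝓝 (P.γ y)) := P.γ_cont.tendsto y
  have hz : Filter.Tendsto (fun _ : ℝ => z) (𝓝 y) (𝓝 z) := tendsto_const_nhds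
  have h1 := P.visOpen_germF hc h hγ
  have h2 := P.visOpen_germN hc hy h.symm hid hz
  obtain ⟨ε, hε, H⟩ := Metric.eventually_nhds_iff.1 (P.visOpen_glue h hz hγ h1 h2)
  exact ⟨ε, hε, fun y' hy' => H (by rw [Real.dist_eq]; exact hy')⟩

theorem vis_open_I (hc : P.CCW) {z w : ℂ} (hz : z ∈ P.I) (h : P.Vis w z) :
    ∃ ε > 0, ∀ z' : ℂ, ‖z' - z‖ < ε → P.Vis w z' := by
  have hid : Filter.Tendsto (fun p : ℂ => p) (𝓝 z) (𝓝 z) := Filter.tendsto_id
  have hw : Filter.Tendsto (fun _ : ℂ => w) (𝓝 z) (𝓝 w) := tendsto_const_nhds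
  have h1 := P.visOpen_germF hc h hid
  have h2 := P.visOpen_germI hz hid hw
  obtain ⟨ε, hε, H⟩ := Metric.eventually_nhds_iff.1 (P.visOpen_glue h hw hid h1 h2)
  exact ⟨ε, hε, fun z' hz' => H (by rw [dist_eq_norm]; exact hz')⟩

/-- one-sided openness after a position (may be a vertex) -/
theorem vis_after (hc : P.CCW) {x0 : ℝ} {z : ℂ} (h : P.Vis (P.γ x0) z)
    (hd : 0 < cr (P.ep x0) (z - P.γ x0)) :
    ∃ ε > 0, ∀ x : ℝ, x0 < x → x < x0 + ε → P.Vis (P.γ x) z := by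
  have hid : Filter.Tendsto (fun p : ℝ => p) (𝓝[>] x0) (𝓝 x0) :=
    Filter.tendsto_id.mono_left nhdsWithin_le_nhds
  have hγ : Filter.Tendsto (fun p : ℝ => P.γ p) (𝓝[>] x0) (𝓝 (P.γ x0)) :=
    (P.γ_cont.tendsto x0).comp hid
  have hz : Filter.Tendsto (fun _ : ℝ => z) (𝓝[>] x0) (𝓝 z) := tendsto_const_nhds
  obtain ⟨δ, hδ, hafter⟩ := P.γ_after x0
  have hsec : InSector (P.ep x0) (P.em x0) (z - P.γ x0) := h.sector hc
  have h1 := P.visOpen_germC hc (x := x0) hγ hz (by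
    have hmem : Ioo x0 (x0 + δ) ∈ 𝓝[>] x0 := Ioo_mem_nhdsGT (by linarith)
    filter_upwards [hmem] with x hx
    intro t ht0 ht1
    obtain ⟨s, hs, hγx⟩ := hafter x hx.1 hx.2
    have e : (P.γ x - P.γ x0) + (t : ℂ) * (z - P.γ x) =
        ((s * (1 - t) : ℝ) : ℂ) * P.ep x0 + (t : ℂ) * (z - P.γ x0) := by
      rw [hγx]; push_cast; ring
    rw [e]
    exact visOpen_secA hsec hd (mul_nonneg hs.le (by linarith)) ht0)
  have h2 := P.visOpen_germF hc h.symm hγ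
  have h3 := P.visOpen_glue h hγ hz h1 h2
  rw [eventually_nhdsWithin_iff] at h3
  obtain ⟨ε, hε, H⟩ := Metric.eventually_nhds_iff.1 h3
  refine ⟨ε, hε, fun x hx hx' => H ?_ hx⟩
  rw [Real.dist_eq, abs_of_pos (by linarith)]
  linarith

/-- one-sided openness before a position (may be a vertex) -/
theorem vis_before (hc : P.CCW) {x0 : ℝ} {z : ℂ} (h : P.Vis (P.γ x0) z)
    (hd : 0 < cr (z - P.γ x0) (P.em x0)) :
    ∃ ε > 0, ∀ x : ℝ, x0 - ε < x → x < x0 → P.Vis (P.γ x) z := by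
  have hid : Filter.Tendsto (fun p : ℝ => p) (𝓝[<] x0) (𝓝 x0) :=
    Filter.tendsto_id.mono_left nhdsWithin_le_nhds
  have hγ : Filter.Tendsto (fun p : ℝ => P.γ p) (𝓝[<] x0) (𝓝 (P.γ x0)) :=
    (P.γ_cont.tendsto x0).comp hid
  have hz : Filter.Tendsto (fun _ : ℝ => z) (𝓝[<] x0) (𝓝 z) := tendsto_const_nhds
  obtain ⟨δ, hδ, hbefore⟩ := P.γ_before x0
  have hsec : InSector (P.ep x0) (P.em x0) (z - P.γ x0) := h.sector hc
  have h1 := P.visOpen_germC hc (x := x0) hγ hz (by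
    have hmem : Ioo (x0 - δ) x0 ∈ 𝓝[<] x0 := Ioo_mem_nhdsLT (by linarith)
    filter_upwards [hmem] with x hx
    intro t ht0 ht1
    obtain ⟨s, hs, hγx⟩ := hbefore x hx.1 hx.2
    have e : (P.γ x - P.γ x0) + (t : ℂ) * (z - P.γ x) =
        ((s * (1 - t) : ℝ) : ℂ) * P.em x0 + (t : ℂ) * (z - P.γ x0) := by
      rw [hγx]; push_cast; ring
    rw [e]
    exact visOpen_secB hsec hd (mul_nonneg hs.le (by linarith)) ht0)
  have h2 := P.visOpen_germF hc h.symm hγ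
  have h3 := P.visOpen_glue h hγ hz h1 h2
  rw [eventually_nhdsWithin_iff] at h3
  obtain ⟨ε, hε, H⟩ := Metric.eventually_nhds_iff.1 h3
  refine ⟨ε, hε, fun x hx hx' => H ?_ hx'⟩
  rw [Real.dist_eq, abs_of_neg (by linarith)]
  linarith

end Poly

end Pool.Agent.Lib_PL
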