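import Pool.Agent.Lib_PL.Contact
import Pool.Agent.Lib_PL.VisOpen

/-!
There is a left contact.  Otherwise take `y_m → D` from below and `s_m → s0` from above; by `Dinf` (and
`enter`, `block`) there is `c_m = γ (t_m) ∈ C` on the open segment `γ (y_m), γ (s_m)`; it is strictly left of `L`.  The limit `c`
is on `L`: if it is in the open segment it is a right contact, contradiction with `right_weak`; `c = γ D`:
`c_m` is on the line of edge `j`, impossible; `c = γ s0`: `c_m` on the line of edge `i`, impossible, or `s0 = i` and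
`c_m` on edge `i - 1`, whose direction is then strictly inside the cone spanned by the direction to `D` and
that of edge `i`, so the direction to `D` is exterior, contradiction with `LR` (`seg_sector`).
-/

open Set Complex
open scoped Topology

namespace Pool.Agent.Lib_PL

namespace Poly

variable {n : ℕ} (P : Poly n)

private theorem leftContact_comb {p q c : ℂ} (h : c ∈ openSegment ℝ p q) :
    ∃ a b : ℝ, 0 < a ∧ 0 < b ∧ a + b = 1 ∧
      ∀ u r : ℂ, cr u (c - r) = a * cr u (p - r) + b * cr u (q - r) := by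
  obtain ⟨a, b, ha, hb, hab, rfl⟩ := h
  refine ⟨a, b, ha, hb, hab, fun u r => ?_⟩
  have hb' : b = 1 - a := by linarith
  subst hb'
  simp only [cr, Complex.real_smul, Complex.sub_re, Complex.sub_im, Complex.add_re, Complex.add_im,
    Complex.mul_re, Complex.mul_im, Complex.ofReal_re, Complex.ofReal_im]
  ring

private theorem leftContact_seg {p q c : ℕ → ℂ} {p0 q0 c0 : ℂ}
    (hp : Filter.Tendsto p Filter.atTop (𝓝 p0)) (hq : Filter.Tendsto q Filter.atTop (𝓝 q0))
    (hc : Filter.Tendsto c Filter.atTop (𝓝 c0)) (h : ∀ m, c m ∈ openSegment ℝ (p m) (q m)) :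
    c0 ∈ segment ℝ p0 q0 := by
  have h1 : ∀ m, dist (p m) (c m) + dist (c m) (q m) = dist (p m) (q m) := by
    intro m
    have h2 : c m ∈ segment ℝ (p m) (q m) := openSegment_subset_segment _ _ _ (h m)
    rw [mem_segment_iff_wbtw] at h2
    exact dist_add_dist_eq_iff.2 h2
  rw [mem_segment_iff_wbtw, ← dist_add_dist_eq_iff]
  have h3 : Filter.Tendsto (fun m => dist (p m) (c m) + dist (c m) (q m)) Filter.atTop
      (𝓝 (dist p0 c0 + dist c0 q0)) := (hp.dist hc).add (hc.dist hq)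
  have h4 : Filter.Tendsto (fun m => dist (p m) (q m)) Filter.atTop (𝓝 (dist p0 q0)) := hp.dist hq
  have h5 : (fun m => dist (p m) (c m) + dist (c m) (q m)) = fun m => dist (p m) (q m) :=
    funext h1
  rw [h5] at h3
  exact tendsto_nhds_unique h3 h4

theorem exists_left (hc : P.CCW) {i j : ℤ} {α β D s0 : ℝ} (h : P.PreP i j α β D s0)
    (tF : 0 < cr (P.V (i + 1) - P.V i) (P.γ D - P.γ s0)) :
    ∃ x : ℝ, s0 < x ∧ x < D ∧ P.γ x ∈ segment ℝ (P.γ D) (P.γ s0) := by
  by_contra hno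
  push Not at hno
  have tE := P.preP_tE hc h
  have hi0 : (i : ℝ) ≤ s0 := h.iα.trans h.αs
  have hi1 : s0 < (i : ℝ) + 1 := h.sβ.trans_le h.βi
  have hij : (i : ℝ) + 1 ≤ j := by exact_mod_cast h.ij
  have hji : (j : ℝ) + 1 ≤ i + n := by exact_mod_cast h.ji
  have hjD := h.jD
  have hDj := h.Dj
  set Ei : ℂ := P.V (i + 1) - P.V i with hEi
  set Ej : ℂ := P.V (j + 1) - P.V j with hEj
  -- continuity
  have hγ := P.γ_cont
  have hcont : ∀ u : ℂ, Continuous fun p : ℝ × ℝ => cr u (P.γ p.1 - P.γ p.2) := by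
    intro u
    unfold cr
    have h1 : Continuous fun p : ℝ × ℝ => P.γ p.1 - P.γ p.2 :=
      (hγ.comp continuous_fst).sub (hγ.comp continuous_snd)
    exact (continuous_const.mul (Complex.continuous_im.comp h1)).sub
      (continuous_const.mul (Complex.continuous_re.comp h1))
  have hopen : IsOpen {p : ℝ × ℝ | 0 < cr Ej (P.γ p.1 - P.γ p.2) ∧
      cr Ei (P.γ p.1 - P.γ p.2) < 0} :=
    (isOpen_lt continuous_const (hcont Ej)).inter (isOpen_lt (hcont Ei) continuous_const)
  have hmem : ((s0, D) : ℝ × ℝ) ∈ {p : ℝ × ℝ | 0 < cr Ej (P.γ p.1 - P.γ p.2) ∧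
      cr Ei (P.γ p.1 - P.γ p.2) < 0} := by
    refine ⟨tE, ?_⟩
    show cr Ei (P.γ s0 - P.γ D) < 0
    have : P.γ s0 - P.γ D = -(P.γ D - P.γ s0) := by ring
    rw [this, cr_neg_right]
    linarith
  obtain ⟨ε0, hε0, hball⟩ := Metric.isOpen_iff.1 hopen _ hmem
  set η : ℝ := min ε0 (min (β - s0) (D - j)) with hη
  have hη0 : 0 < η := by
    refine lt_min hε0 (lt_min ?_ ?_)
    · linarith [h.sβ]
    · linarith
  set δ : ℕ → ℝ := fun m => η / (m + 2) with hδ
  have hδ0 : ∀ m, 0 < δ m := fun m => by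
    have : (0 : ℝ) < (m : ℝ) + 2 := by positivity
    exact div_pos hη0 this
  have hδη : ∀ m, δ m < η := fun m => by
    have h1 : (1 : ℝ) < (m : ℝ) + 2 := by
      have : (0 : ℝ) ≤ (m : ℝ) := Nat.cast_nonneg m
      linarith
    exact div_lt_self hη0 h1
  have hδlim : Filter.Tendsto δ Filter.atTop (𝓝 0) := by
    have h1 : Filter.Tendsto (fun m : ℕ => (m : ℝ) + 2) Filter.atTop Filter.atTop :=
      Filter.tendsto_atTop_add_const_right _ _ tendsto_natCast_atTop_atTop
    exact h1.const_div_atTop η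
  have hδε : ∀ m, δ m < ε0 := fun m => (hδη m).trans_le (min_le_left _ _)
  have hδβ : ∀ m, δ m < β - s0 := fun m =>
    (hδη m).trans_le ((min_le_right _ _).trans (min_le_left _ _))
  have hδD : ∀ m, δ m < D - j := fun m =>
    (hδη m).trans_le ((min_le_right _ _).trans (min_le_right _ _))
  have hpos : ∀ m, 0 < cr Ej (P.γ (s0 + δ m) - P.γ (D - δ m)) ∧
      cr Ei (P.γ (s0 + δ m) - P.γ (D - δ m)) < 0 := by
    intro m
    have h1 : ((s0 + δ m, D - δ m) : ℝ × ℝ) ∈ Metric.ball ((s0, D) : ℝ × ℝ) ε0 := by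
      rw [Metric.mem_ball, Prod.dist_eq]
      refine max_lt ?_ ?_
      · show dist (s0 + δ m) s0 < ε0
        rw [Real.dist_eq, add_sub_cancel_left, abs_of_pos (hδ0 m)]
        exact hδε m
      · show dist (D - δ m) D < ε0
        rw [Real.dist_eq, sub_sub_cancel_left, abs_neg, abs_of_pos (hδ0 m)]
        exact hδε m
    exact hball h1
  -- the points `c_m`
  have key : ∀ m, ∃ τ : ℝ, s0 ≤ τ ∧ τ < s0 + n ∧
      P.γ τ ∈ openSegment ℝ (P.γ (D - δ m)) (P.γ (s0 + δ m)) := by
    intro m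
    have hy1 : (j : ℝ) < D - δ m := by linarith [hδD m]
    have hy2 : D - δ m < j + 1 := by linarith [hδ0 m]
    obtain ⟨hNI, hfl⟩ := NI_of_Ioo hy1 hy2
    have hnv : ¬ P.Vis (P.γ (D - δ m)) (P.γ (s0 + δ m)) := by
      intro hv
      refine h.Dinf (s0 + δ m) ⟨?_, ?_⟩ (D - δ m) hy1 (by linarith [hδ0 m]) hv.symm
      · linarith [hδ0 m, h.αs]
      · linarith [hδβ m]
    have hsec : InSector (P.ep (D - δ m)) (P.em (D - δ m)) (P.γ (s0 + δ m) - P.γ (D - δ m)) := by
      rw [P.InSector_NI hNI]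
      have : P.ed (D - δ m) = Ej := by
        unfold ed
        rw [hfl]
      rw [this]
      exact (hpos m).1
    obtain ⟨c, hcs, hcC⟩ := P.block (P.enter hc _ _ hsec) hnv
    obtain ⟨x, hx1, hx2, rfl⟩ := P.mem_C_window s0 hcC
    exact ⟨x, hx1, hx2, hcs⟩
  choose τ hτ1 hτ2 hτ3 using key
  obtain ⟨t, ht, φ, hφ, hlim⟩ := isCompact_Icc.tendsto_subseq
    (fun m => (⟨hτ1 m, (hτ2 m).le⟩ : τ m ∈ Icc s0 (s0 + n)))
  have hlim' : Filter.Tendsto (fun m => τ (φ m)) Filter.atTop (𝓝 t) := hlim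
  have hδφ : Filter.Tendsto (fun m => δ (φ m)) Filter.atTop (𝓝 0) :=
    hδlim.comp hφ.tendsto_atTop
  have hylim : Filter.Tendsto (fun m => P.γ (D - δ (φ m))) Filter.atTop (𝓝 (P.γ D)) := by
    have h1 : Filter.Tendsto (fun m => D - δ (φ m)) Filter.atTop (𝓝 (D - 0)) :=
      tendsto_const_nhds.sub hδφ
    rw [sub_zero] at h1
    exact (hγ.tendsto D).comp h1
  have hslim : Filter.Tendsto (fun m => P.γ (s0 + δ (φ m))) Filter.atTop (𝓝 (P.γ s0)) := by
    have h1 : Filter.Tendsto (fun m => s0 + δ (φ m)) Filter.atTop (𝓝 (s0 + 0)) :=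
      tendsto_const_nhds.add hδφ
    rw [add_zero] at h1
    exact (hγ.tendsto s0).comp h1
  have hseg : P.γ t ∈ segment ℝ (P.γ D) (P.γ s0) :=
    leftContact_seg hylim hslim ((hγ.tendsto t).comp hlim') (fun m => hτ3 (φ m))
  -- `c_m` is strictly left of `L`
  have hyD : ∀ m, P.γ (D - δ m) - P.γ D = ((-δ m : ℝ) : ℂ) * Ej := by
    intro m
    rw [P.γ_sub j D (D - δ m) hjD.le hDj.le (by linarith [hδD m]) (by linarith [hδ0 m])]
    congr 2
    ring
  have hss : ∀ m, P.γ (s0 + δ m) - P.γ s0 = ((δ m : ℝ) : ℂ) * Ei := by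
    intro m
    rw [P.γ_sub i s0 (s0 + δ m) hi0 hi1.le (by linarith [hδ0 m])
      (by linarith [hδβ m, h.βi])]
    congr 2
    ring
  have hleft : ∀ m, 0 < cr (P.γ s0 - P.γ D) (P.γ (τ m) - P.γ D) := by
    intro m
    obtain ⟨a, b, ha, hb, hab, hcomb⟩ := leftContact_comb (hτ3 m)
    rw [hcomb]
    have e1 : cr (P.γ s0 - P.γ D) (P.γ (D - δ m) - P.γ D) = δ m * cr Ej (P.γ s0 - P.γ D) := by
      rw [hyD, cr_mul_right, cr_swap (P.γ s0 - P.γ D) Ej]
      ring
    have e2 : cr (P.γ s0 - P.γ D) (P.γ (s0 + δ m) - P.γ D) =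
        δ m * cr Ei (P.γ D - P.γ s0) := by
      have e3 : P.γ (s0 + δ m) - P.γ D = (P.γ (s0 + δ m) - P.γ s0) + (P.γ s0 - P.γ D) := by ring
      have e4 : P.γ s0 - P.γ D = -(P.γ D - P.γ s0) := by ring
      rw [e3, cr_add_right, cr_self, add_zero, hss, cr_mul_right, cr_swap _ Ei, e4, cr_neg_right]
      ring
    rw [e1, e2]
    have h1 := mul_pos ha (mul_pos (hδ0 m) tE)
    have h2 := mul_pos hb (mul_pos (hδ0 m) tF)
    linarith
  -- the line of edge `i`
  have hlineI : ∀ m, ∀ x : ℝ, (i : ℝ) ≤ x → x ≤ i + 1 → P.γ x ≠ P.γ (τ m) := by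
    intro m x hx hx' heq
    obtain ⟨a, b, ha, hb, hab, hcomb⟩ := leftContact_comb (hτ3 m)
    have h1 := hcomb Ei (P.γ (s0 + δ m))
    rw [sub_self, cr_zero_right, mul_zero, add_zero, ← heq,
      P.γ_sub i (s0 + δ m) x (by linarith [hδ0 m]) (by linarith [hδβ m, h.βi]) hx hx',
      cr_mul_right, cr_self, mul_zero] at h1
    have h2 := (hpos m).2
    have e : P.γ (D - δ m) - P.γ (s0 + δ m) = -(P.γ (s0 + δ m) - P.γ (D - δ m)) := by ring
    rw [e, cr_neg_right] at h1
    have := mul_pos ha (neg_pos.2 h2)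
    linarith
  have hlineJ : ∀ m, ∀ x : ℝ, (j : ℝ) ≤ x → x ≤ j + 1 → P.γ x ≠ P.γ (τ m) := by
    intro m x hx hx' heq
    obtain ⟨a, b, ha, hb, hab, hcomb⟩ := leftContact_comb (hτ3 m)
    have h1 := hcomb Ej (P.γ (D - δ m))
    rw [sub_self, cr_zero_right, mul_zero, zero_add, ← heq,
      P.γ_sub j (D - δ m) x (by linarith [hδD m]) (by linarith [hδ0 m]) hx hx',
      cr_mul_right, cr_self, mul_zero] at h1
    have := mul_pos hb (hpos m).1
    linarith
  obtain ⟨ht0, htn⟩ := ht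
  rcases lt_trichotomy t D with htD | htD | htD
  · rcases ht0.eq_or_lt with h0 | h0
    · -- `t = s0`
      have h1 : ∀ᶠ m in Filter.atTop, τ (φ m) < i + 1 :=
        hlim'.eventually (gt_mem_nhds (by rw [← h0]; exact hi1))
      obtain ⟨m, hm⟩ := h1.exists
      exact hlineI (φ m) (τ (φ m)) (hi0.trans (hτ1 _)) hm.le rfl
    · exact hno t h0 htD hseg
  · -- `t = D`
    have h1 : ∀ᶠ m in Filter.atTop, τ (φ m) < j + 1 :=
      hlim'.eventually (gt_mem_nhds (by rw [htD]; exact hDj))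
    have h2 : ∀ᶠ m in Filter.atTop, (j : ℝ) < τ (φ m) :=
      hlim'.eventually (lt_mem_nhds (by rw [htD]; exact hjD))
    obtain ⟨m, hm1, hm2⟩ := (h1.and h2).exists
    exact hlineJ (φ m) (τ (φ m)) hm2.le hm1.le rfl
  · rcases htn.eq_or_lt with h0 | h0
    · -- `t = s0 + n`
      have hshift : ∀ m, P.γ (τ m - n) = P.γ (τ m) := by
        intro m
        rw [← P.γ_add_n (τ m - n), sub_add_cancel]
      have hlt : ∀ m, τ m - n < s0 := fun m => by linarith [hτ2 m]
      rcases hi0.eq_or_lt with hs | hs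
      · -- `s0 = i`
        obtain ⟨ε, hε, hbef⟩ := P.γ_before s0
        have h1 : ∀ᶠ m in Filter.atTop, s0 + n - ε < τ (φ m) :=
          hlim'.eventually (lt_mem_nhds (by rw [h0]; linarith))
        obtain ⟨m, hm⟩ := h1.exists
        obtain ⟨T, hT, hTe⟩ := hbef (τ (φ m) - n) (by linarith) (hlt _)
        rw [hshift] at hTe
        have hep : P.ep s0 = Ei := by rw [← hs, P.ep_int]
        -- (1)
        have q1 : 0 < cr (P.em s0) (P.γ D - P.γ s0) := by
          have h2 := hleft (φ m)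
          have e1 : P.γ (τ (φ m)) - P.γ D = (T : ℂ) * P.em s0 + (P.γ s0 - P.γ D) := by
            rw [hTe]; ring
          have e2 : P.γ D - P.γ s0 = -(P.γ s0 - P.γ D) := by ring
          rw [e1, cr_add_right, cr_self, add_zero, cr_mul_right] at h2
          rw [e2, cr_neg_right, ← cr_swap]
          exact pos_of_mul_pos_right h2 hT.le
        -- (2)
        have q2 : 0 < cr (P.ep s0) (P.em s0) := by
          rw [hep]
          obtain ⟨a, b, ha, hb, hab, hcomb⟩ := leftContact_comb (hτ3 (φ m))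
          have h2 := hcomb Ei (P.γ s0)
          have e1 : P.γ (τ (φ m)) - P.γ s0 = (T : ℂ) * P.em s0 := by rw [hTe]; ring
          have e2 : P.γ (D - δ (φ m)) - P.γ s0 = -(P.γ (s0 + δ (φ m)) - P.γ (D - δ (φ m))) +
              (P.γ (s0 + δ (φ m)) - P.γ s0) := by ring
          rw [e1, e2, hss, cr_add_right, cr_neg_right, cr_mul_right, cr_mul_right, cr_self,
            mul_zero, mul_zero, add_zero, add_zero] at h2
          have h3 := mul_pos ha (neg_pos.2 (hpos (φ m)).2)
          rw [← h2] at h3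
          exact pos_of_mul_pos_right h3 hT.le
        have q3 : cr (P.em s0) (P.ep s0) < 0 := by
          rw [cr_swap]; linarith
        have hLR : segment ℝ (P.γ s0) (P.γ D) ⊆ P.R := by
          rw [segment_symm]
          exact h.LR
        refine P.seg_sector hc hLR ⟨fun h2 => absurd h2 (not_lt.2 q3.le), fun _ => Or.inl q1,
          fun h2 => absurd h2 q3.ne⟩
      · have h1 : ∀ᶠ m in Filter.atTop, (i : ℝ) + n < τ (φ m) :=
          hlim'.eventually (lt_mem_nhds (by rw [h0]; linarith))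
        obtain ⟨m, hm⟩ := h1.exists
        exact hlineI (φ m) (τ (φ m) - n) (by linarith) (by linarith [hlt (φ m)]) (hshift _)
    · -- a right contact
      obtain ⟨ρ, hρ, hw⟩ := P.right_weak hc h htD h0 hseg
      have h1 : ∀ᶠ m in Filter.atTop, |τ (φ m) - t| < ρ := by
        have := hlim'.eventually (Metric.ball_mem_nhds t hρ)
        filter_upwards [this] with m hm
        rwa [Real.dist_eq] at hm
      obtain ⟨m, hm⟩ := h1.exists
      exact absurd (hleft (φ m)) (not_lt.2 (hw _ hm))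

end Poly

end Pool.Agent.Lib_PL
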