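import Pool.Agent.Lib_PL.Weak
import Pool.Agent.Lib_PL.Defs2

/-!
Levels.
-/

open Set Complex
open scoped Topology

namespace Pool.Agent.Lib_PL

namespace Poly

variable {n : ℕ} (P : Poly n)

theorem VV_zero (p z : ℂ) : z ∈ P.VV p 0 ↔ z ∈ P.R ∧ P.Vis p z := by
  constructor
  · rintro ⟨j, hj, h⟩
    obtain rfl : j = 0 := Nat.le_zero.1 hj
    exact h
  · intro h
    exact ⟨0, le_rfl, h⟩

theorem VV_succ (p z : ℂ) (k : ℕ) : z ∈ P.VV p (k + 1) ↔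
    z ∈ P.VV p 0 ∨ (z ∈ P.R ∧ ∃ x ∈ P.Bp p k, P.Vis (P.γ x) z) := by
  constructor
  · rintro ⟨j, hj, h⟩
    rcases j with _ | j
    · exact Or.inl ⟨0, le_rfl, h⟩
    · obtain ⟨hR, r, hr, ⟨i, hi⟩, hv⟩ := h
      right
      rw [← P.γ_image_Ioo i] at hi
      obtain ⟨x, hx, rfl⟩ := hi
      exact ⟨hR, x, ⟨(NI_of_Ioo hx.1 hx.2).1, j, by omega, hr⟩, hv⟩
  · rintro (⟨j, hj, h⟩ | ⟨hR, x, ⟨hx, j, hj, hxj⟩, hv⟩)
    · exact ⟨j, by omega, h⟩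
    · exact ⟨j + 1, by omega, hR, P.γ x, hxj, ⟨⌊x⌋, P.γ_mem_openSegment hx⟩, hv⟩

theorem VV_mono (p : ℂ) {j k : ℕ} (h : j ≤ k) : P.VV p j ⊆ P.VV p k := by
  rintro z ⟨i, hi, hz⟩
  exact ⟨i, hi.trans h, hz⟩

theorem VV_sub_R (p : ℂ) (k : ℕ) : P.VV p k ⊆ P.R := by
  rintro z ⟨j, -, hz⟩
  rcases j with _ | j
  · exact hz.1
  · exact hz.1

theorem Bp_mono (p : ℂ) {j k : ℕ} (h : j ≤ k) : P.Bp p j ⊆ P.Bp p k := by
  rintro x ⟨hx, h1⟩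
  exact ⟨hx, P.VV_mono p h h1⟩

theorem Bp_add (p : ℂ) (k : ℕ) (x : ℝ) (m : ℤ) : x + m * n ∈ P.Bp p k ↔ x ∈ P.Bp p k := by
  have key : ∀ (y : ℝ) (l : ℤ), NI y → NI (y + l * n) := by
    intro y l hy
    have h := NI_add (l * n) hy
    push_cast at h
    exact h
  constructor
  · rintro ⟨h1, h2⟩
    rw [P.γ_add_mul] at h2
    refine ⟨?_, h2⟩
    have h3 := key (x + m * n) (-m) h1
    have h4 : x + m * n + ((-m : ℤ) : ℝ) * n = x := by push_cast; ring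
    rwa [h4] at h3
  · rintro ⟨h1, h2⟩
    refine ⟨key x m h1, ?_⟩
    rw [P.γ_add_mul]
    exact h2

theorem Bp_succ_iff (p : ℂ) (k : ℕ) (x : ℝ) : x ∈ P.Bp p (k + 1) ↔
    NI x ∧ (P.Vis p (P.γ x) ∨ ∃ y ∈ P.Bp p k, P.Vis (P.γ y) (P.γ x)) := by
  have hR : P.γ x ∈ P.R := P.C_sub_R (P.γ_mem_C x)
  unfold Bp
  simp only [mem_setOf_eq]
  rw [P.VV_succ, P.VV_zero]
  constructor
  · rintro ⟨h1, ⟨-, h2⟩ | ⟨-, y, hy, h2⟩⟩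
    · exact ⟨h1, Or.inl h2⟩
    · exact ⟨h1, Or.inr ⟨y, hy, h2⟩⟩
  · rintro ⟨h1, h2 | ⟨y, hy, h2⟩⟩
    · exact ⟨h1, Or.inl ⟨hR, h2⟩⟩
    · exact ⟨h1, Or.inr ⟨hR, y, hy, h2⟩⟩

theorem Bp_zero_iff (p : ℂ) (x : ℝ) : x ∈ P.Bp p 0 ↔ NI x ∧ P.Vis p (P.γ x) := by
  have hR : P.γ x ∈ P.R := P.C_sub_R (P.γ_mem_C x)
  unfold Bp
  simp only [mem_setOf_eq]
  rw [P.VV_zero]
  exact ⟨fun h => ⟨h.1, h.2.2⟩, fun h => ⟨h.1, hR, h.2⟩⟩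

theorem Bp_of_vis {p : ℂ} {k : ℕ} {x y : ℝ} (hy : y ∈ P.Bp p k) (h : P.Vis (P.γ y) (P.γ x))
    (hx : NI x) : x ∈ P.Bp p (k + 1) := by
  rw [P.Bp_succ_iff]
  exact ⟨hx, Or.inr ⟨y, hy, h⟩⟩

theorem VV_of_vis {p : ℂ} {k : ℕ} {y : ℝ} {z : ℂ} (hy : y ∈ P.Bp p k) (h : P.Vis (P.γ y) z) :
    z ∈ P.VV p (k + 1) := by
  rw [P.VV_succ]
  exact Or.inr ⟨h.seg (right_mem_segment ℝ _ _), y, hy, h⟩

theorem Bp_open (hc : P.CCW) {p : ℂ} {k : ℕ} {x : ℝ} (h : x ∈ P.Bp p k) :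
    ∃ ε > 0, ∀ x' : ℝ, |x' - x| < ε → x' ∈ P.Bp p k := by
  have hx : NI x := h.1
  obtain ⟨hf1, hf2, -⟩ := NI_floor hx
  have key : ∀ z : ℂ, P.Vis z (P.γ x) → ∃ ε > 0, ∀ x' : ℝ, |x' - x| < ε →
      NI x' ∧ P.Vis z (P.γ x') := by
    intro z hz
    obtain ⟨ε, hε, h1⟩ := P.vis_open_end hc hx hz
    refine ⟨min ε (min (x - ⌊x⌋) (⌊x⌋ + 1 - x)), lt_min hε (lt_min (by linarith) (by linarith)), ?_⟩
    intro x' hx'
    have h2 := hx'.trans_le (min_le_left _ _)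
    have h3 := hx'.trans_le ((min_le_right _ _).trans (min_le_left _ _))
    have h4 := hx'.trans_le ((min_le_right _ _).trans (min_le_right _ _))
    rw [abs_lt] at h3 h4
    exact ⟨(NI_of_Ioo (i := ⌊x⌋) (by linarith [h3.1]) (by linarith [h4.2])).1, h1 x' h2⟩
  rcases k with _ | k
  · rw [P.Bp_zero_iff] at h
    obtain ⟨ε, hε, h1⟩ := key p h.2
    exact ⟨ε, hε, fun x' hx' => (P.Bp_zero_iff p x').2 (h1 x' hx')⟩
  · rw [P.Bp_succ_iff] at h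
    rcases h.2 with h2 | ⟨y, hy, h2⟩
    · obtain ⟨ε, hε, h1⟩ := key p h2
      exact ⟨ε, hε, fun x' hx' => (P.Bp_succ_iff p k x').2 ⟨(h1 x' hx').1, Or.inl (h1 x' hx').2⟩⟩
    · obtain ⟨ε, hε, h1⟩ := key (P.γ y) h2
      exact ⟨ε, hε, fun x' hx' =>
        (P.Bp_succ_iff p k x').2 ⟨(h1 x' hx').1, Or.inr ⟨y, hy, (h1 x' hx').2⟩⟩⟩

theorem VV_open (hc : P.CCW) {p : ℂ} {k : ℕ} {z : ℂ} (h : z ∈ P.VV p k) (hz : z ∈ P.I) :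
    ∃ ε > 0, ∀ z' : ℂ, ‖z' - z‖ < ε → z' ∈ P.VV p k := by
  obtain ⟨δ, hδ, hI⟩ := Metric.isOpen_iff.1 P.I_open z hz
  have hI' : ∀ z' : ℂ, ‖z' - z‖ < δ → z' ∈ P.R := fun z' hz' =>
    P.I_sub_R (hI (by rw [Metric.mem_ball, dist_eq_norm]; exact hz'))
  rcases k with _ | k
  · rw [P.VV_zero] at h
    obtain ⟨ε, hε, h1⟩ := P.vis_open_I hc hz h.2
    refine ⟨min ε δ, lt_min hε hδ, fun z' hz' => (P.VV_zero p z').2
      ⟨hI' z' (hz'.trans_le (min_le_right _ _)), h1 z' (hz'.trans_le (min_le_left _ _))⟩⟩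
  · rw [P.VV_succ, P.VV_zero] at h
    rcases h with h | ⟨-, x, hx, h⟩
    · obtain ⟨ε, hε, h1⟩ := P.vis_open_I hc hz h.2
      refine ⟨min ε δ, lt_min hε hδ, fun z' hz' => (P.VV_succ p z' k).2 (Or.inl
        ((P.VV_zero p z').2
          ⟨hI' z' (hz'.trans_le (min_le_right _ _)), h1 z' (hz'.trans_le (min_le_left _ _))⟩))⟩
    · obtain ⟨ε, hε, h1⟩ := P.vis_open_I hc hz h
      refine ⟨min ε δ, lt_min hε hδ, fun z' hz' => (P.VV_succ p z' k).2 (Or.inr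
        ⟨hI' z' (hz'.trans_le (min_le_right _ _)), x, hx, h1 z' (hz'.trans_le (min_le_left _ _))⟩)⟩

/-- points of a segment from a lit boundary point to a point it sees are lit one step later -/
theorem VV_of_seg {p : ℂ} {k : ℕ} {y : ℝ} {z c : ℂ} (hy : y ∈ P.Bp p k) (h : P.Vis (P.γ y) z)
    (hc : c ∈ openSegment ℝ (P.γ y) z) : c ∈ P.VV p (k + 1) := by
  have hI : c ∈ P.I := h hc
  refine P.VV_of_vis hy (h.sub (left_mem_segment ℝ _ _) (openSegment_subset_segment _ _ _ hc) ?_)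
  rintro rfl
  exact P.I_disj_C hI (P.γ_mem_C y)

theorem Bp_zero_int (hc : P.CCW) {p : ℂ} {i : ℤ} {x y : ℝ} (hx : (i : ℝ) < x) (hxy : x ≤ y)
    (hy : y < i + 1) (h : x ∈ P.Bp p 0) (h' : y ∈ P.Bp p 0) : Icc x y ⊆ P.Bp p 0 := by
  rw [P.Bp_zero_iff] at h h'
  intro c hcc
  rw [P.Bp_zero_iff]
  exact ⟨(NI_of_Ioo (i := i) (by linarith [hcc.1]) (by linarith [hcc.2])).1,
    P.f2_pt hc hx hxy hy h.2 h'.2 c hcc⟩

theorem VV_zero_int (hc : P.CCW) {p A B z z' : ℂ} (hw : P.Vis A B) (hz : z ∈ openSegment ℝ A B)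
    (hz' : z' ∈ openSegment ℝ A B) (h : z ∈ P.VV p 0) (h' : z' ∈ P.VV p 0) :
    segment ℝ z z' ⊆ P.VV p 0 := by
  rw [P.VV_zero] at h h'
  intro c hcc
  rw [P.VV_zero]
  refine ⟨P.I_sub_R (hw ((convex_openSegment A B).segment_subset hz hz' hcc)), ?_⟩
  exact P.f2_pt_chord hc hw hz hz' h.2 h'.2 c hcc

/-- a segment which lies in `VV p k` as soon as its ends see one and the same component-like interval -/
theorem VV_succ_int (hc : P.CCW) {p A B z z' : ℂ} {k : ℕ} {i : ℤ} {s s' : ℝ} (hw : P.Vis A B)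
    (hz : z ∈ openSegment ℝ A B) (hz' : z' ∈ openSegment ℝ A B) (hs : (i : ℝ) < s) (hs1 : s < i + 1)
    (hs' : (i : ℝ) < s') (hs1' : s' < i + 1) (hB : uIcc s s' ⊆ P.Bp p k) (h : P.Vis (P.γ s) z)
    (h' : P.Vis (P.γ s') z') : segment ℝ z z' ⊆ P.VV p (k + 1) := by
  intro c hcc
  obtain ⟨σ, hσ, hv⟩ := P.f2_chord hc hw hz hz' hs hs1 hs' hs1' h.symm h'.symm c hcc
  exact P.VV_of_vis (hB hσ) hv.symm

end Poly

end Pool.Agent.Lib_PL
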