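import Pool.Agent.Lib_PL.Alg

/-!
Elementary facts on open sectors (`InSector`).
-/

open Set Complex
open scoped Topology

namespace Pool.Agent.Lib_PL

private theorem sect_pos {u v d : ℂ} (h : 0 < cr u v) :
    InSector u v d ↔ 0 < cr u d ∧ 0 < cr d v := by
  unfold InSector
  constructor
  · intro h'
    exact h'.1 h
  · intro h'
    exact ⟨fun _ => h', fun h2 => absurd h (not_lt.2 h2.le), fun _ => h'.1⟩

private theorem sect_neg {u v d : ℂ} (h : cr u v < 0) :
    InSector u v d ↔ 0 < cr u d ∨ 0 < cr d v := by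
  unfold InSector
  constructor
  · intro h'
    exact h'.2.1 h
  · intro h'
    exact ⟨fun h2 => absurd h (not_lt.2 h2.le), fun _ => h', fun h2 => absurd h2 h.ne⟩

private theorem sect_opp {u v : ℂ} (hu : u ≠ 0) (hv : v ≠ 0)
    (huv : ∀ t : ℝ, 0 < t → v ≠ (t : ℂ) * u) (h : cr u v = 0) :
    ∃ t : ℝ, 0 < t ∧ v = ((-t : ℝ) : ℂ) * u := by
  obtain ⟨t, ht⟩ := cr_eq_zero hu h
  have h1 : ¬ 0 < t := fun h1 => huv t h1 ht
  have h2 : t ≠ 0 := by
    rintro rfl
    apply hv
    rw [ht]
    simp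
  refine ⟨-t, ?_, ?_⟩
  · have := lt_of_le_of_ne (not_lt.1 h1) h2
    linarith
  · rw [neg_neg]
    exact ht

private theorem sect_huv_symm {u v : ℂ} (hv : v ≠ 0)
    (huv : ∀ t : ℝ, 0 < t → v ≠ (t : ℂ) * u) : ∀ t : ℝ, 0 < t → u ≠ (t : ℂ) * v := by
  intro t ht h
  apply huv t⁻¹ (inv_pos.2 ht)
  have h1 : (t : ℂ) ≠ 0 := by exact_mod_cast ht.ne'
  rw [h]
  push_cast
  field_simp

private theorem sect_cover_pos {u v : ℂ} (hu : u ≠ 0) (hv : v ≠ 0) (h : 0 < cr u v)
    (d : ℂ) : d = 0 ∨ (∃ t : ℝ, 0 < t ∧ d = (t : ℂ) * u) ∨ (∃ t : ℝ, 0 < t ∧ d = (t : ℂ) * v) ∨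
      InSector u v d ∨ InSector v u d := by
  have h' : cr v u < 0 := by rw [cr_swap]; linarith
  rw [sect_pos h, sect_neg h']
  have e1 : cr v d = -cr d v := cr_swap v d
  have e2 : cr d u = -cr u d := cr_swap d u
  rcases lt_trichotomy (cr u d) 0 with h1 | h1 | h1
  · right; right; right; right; right
    linarith
  · rcases lt_trichotomy (cr d v) 0 with h2 | h2 | h2
    · right; right; right; right; left
      linarith
    · left
      have := cr_dec h.ne' d
      rw [h1, h2] at this
      simpa using this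
    · right; left
      refine ⟨cr d v / cr u v, div_pos h2 h, ?_⟩
      have := cr_dec h.ne' d
      rw [h1] at this
      simpa using this
  · rcases lt_trichotomy (cr d v) 0 with h2 | h2 | h2
    · right; right; right; right; left
      linarith
    · right; right; left
      refine ⟨cr u d / cr u v, div_pos h1 h, ?_⟩
      have := cr_dec h.ne' d
      rw [h2] at this
      simpa using this
    · right; right; right; left
      exact ⟨h1, h2⟩

/-- every vector is zero, or on one of the two rays, or in exactly one of the two open sectors -/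
theorem sector_cover {u v : ℂ} (hu : u ≠ 0) (hv : v ≠ 0) (huv : ∀ t : ℝ, 0 < t → v ≠ (t : ℂ) * u)
    (d : ℂ) : d = 0 ∨ (∃ t : ℝ, 0 < t ∧ d = (t : ℂ) * u) ∨ (∃ t : ℝ, 0 < t ∧ d = (t : ℂ) * v) ∨
      InSector u v d ∨ InSector v u d := by
  rcases lt_trichotomy (cr u v) 0 with h | h | h
  · have h' : 0 < cr v u := by rw [cr_swap]; linarith
    rcases sect_cover_pos hv hu h' d with h1 | h1 | h1 | h1 | h1
    · exact Or.inl h1
    · exact Or.inr (Or.inr (Or.inl h1))
    · exact Or.inr (Or.inl h1)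
    · exact Or.inr (Or.inr (Or.inr (Or.inr h1)))
    · exact Or.inr (Or.inr (Or.inr (Or.inl h1)))
  · obtain ⟨t, ht, hvt⟩ := sect_opp hu hv huv h
    have h' : cr v u = 0 := by rw [cr_swap, h, neg_zero]
    rw [InSector_flat h, InSector_flat h']
    have e1 : cr v d = -t * cr u d := by rw [hvt, cr_mul_left]
    rcases lt_trichotomy (cr u d) 0 with h1 | h1 | h1
    · right; right; right; right
      rw [e1]
      nlinarith
    · obtain ⟨s, hs⟩ := cr_eq_zero hu h1
      rcases lt_trichotomy s 0 with h2 | h2 | h2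
      · right; right; left
        refine ⟨-s / t, div_pos (by linarith) ht, ?_⟩
        have h3 : (t : ℂ) ≠ 0 := by exact_mod_cast ht.ne'
        rw [hs, hvt]
        push_cast
        field_simp
      · left
        rw [hs, h2]
        simp
      · right; left
        exact ⟨s, h2, hs⟩
    · right; right; right; left
      exact h1
  · exact sect_cover_pos hu hv h d

theorem sector_disj {u v : ℂ} (hu : u ≠ 0) (hv : v ≠ 0)
    (huv : ∀ t : ℝ, 0 < t → v ≠ (t : ℂ) * u) {d : ℂ} (h : InSector u v d) :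
    ¬ InSector v u d ∧ (∀ t : ℝ, 0 < t → d ≠ (t : ℂ) * u) ∧ (∀ t : ℝ, 0 < t → d ≠ (t : ℂ) * v) := by
  have e1 : cr v d = -cr d v := cr_swap v d
  have e2 : cr d u = -cr u d := cr_swap d u
  rcases lt_trichotomy (cr u v) 0 with h0 | h0 | h0
  · have h' : 0 < cr v u := by rw [cr_swap]; linarith
    rw [sect_neg h0] at h
    rw [sect_pos h', e1, e2]
    refine ⟨?_, ?_, ?_⟩
    · rintro ⟨h1, h2⟩
      rcases h with h | h <;> linarith
    · rintro t ht rfl
      rw [cr_mul_right, cr_self, cr_mul_left] at h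
      have := mul_neg_of_pos_of_neg ht h0
      rcases h with h | h <;> linarith
    · rintro t ht rfl
      rw [cr_mul_right, cr_mul_left, cr_self] at h
      have := mul_neg_of_pos_of_neg ht h0
      rcases h with h | h <;> linarith
  · obtain ⟨t, ht, hvt⟩ := sect_opp hu hv huv h0
    have h' : cr v u = 0 := by rw [cr_swap, h0, neg_zero]
    rw [InSector_flat h0] at h
    rw [InSector_flat h']
    refine ⟨?_, ?_, ?_⟩
    · have e3 : cr v d = -t * cr u d := by rw [hvt, cr_mul_left]
      rw [e3]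
      nlinarith
    · rintro s hs rfl
      rw [cr_mul_right, cr_self] at h
      linarith
    · rintro s hs rfl
      rw [cr_mul_right, h0] at h
      linarith
  · have h' : cr v u < 0 := by rw [cr_swap]; linarith
    rw [sect_pos h0] at h
    rw [sect_neg h', e1, e2]
    refine ⟨?_, ?_, ?_⟩
    · rintro (h1 | h1)
      · linarith [h.2]
      · linarith [h.1]
    · rintro t ht rfl
      rw [cr_mul_right, cr_self] at h
      linarith [h.1]
    · rintro t ht rfl
      rw [cr_mul_left, cr_mul_right, cr_self] at h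
      linarith [h.2]

private theorem sect_cont_right (u : ℂ) : Continuous fun d : ℂ => cr u d := by
  unfold cr
  fun_prop

private theorem sect_cont_left (v : ℂ) : Continuous fun d : ℂ => cr d v := by
  unfold cr
  fun_prop

theorem sector_open {u v : ℂ} (hu : u ≠ 0) (hv : v ≠ 0)
    (huv : ∀ t : ℝ, 0 < t → v ≠ (t : ℂ) * u) : IsOpen {d : ℂ | InSector u v d} := by
  have o1 : IsOpen {d : ℂ | 0 < cr u d} := isOpen_lt continuous_const (sect_cont_right u)
  have o2 : IsOpen {d : ℂ | 0 < cr d v} := isOpen_lt continuous_const (sect_cont_left v)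
  rcases lt_trichotomy (cr u v) 0 with h0 | h0 | h0
  · have : {d : ℂ | InSector u v d} = {d : ℂ | 0 < cr u d} ∪ {d : ℂ | 0 < cr d v} := by
      ext d
      exact sect_neg h0
    rw [this]
    exact o1.union o2
  · have : {d : ℂ | InSector u v d} = {d : ℂ | 0 < cr u d} := by
      ext d
      exact InSector_flat h0
    rw [this]
    exact o1
  · have : {d : ℂ | InSector u v d} = {d : ℂ | 0 < cr u d} ∩ {d : ℂ | 0 < cr d v} := by
      ext d
      exact sect_pos h0
    rw [this]
    exact o1.inter o2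

private theorem sect_convex_right (u : ℂ) : Convex ℝ {d : ℂ | 0 < cr u d} := by
  intro x hx y hy a b ha hb hab
  simp only [mem_setOf_eq] at hx hy ⊢
  rw [cr_add_right, cr_smul_right, cr_smul_right]
  rcases ha.eq_or_lt with h | h
  · have : b = 1 := by linarith
    rw [← h, this]
    linarith
  · have := mul_pos h hx
    have := mul_nonneg hb hy.le
    linarith

private theorem sect_convex_left (v : ℂ) : Convex ℝ {d : ℂ | 0 < cr d v} := by
  intro x hx y hy a b ha hb hab
  simp only [mem_setOf_eq] at hx hy ⊢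
  rw [cr_add_left, cr_smul_left, cr_smul_left]
  rcases ha.eq_or_lt with h | h
  · have : b = 1 := by linarith
    rw [← h, this]
    linarith
  · have := mul_pos h hx
    have := mul_nonneg hb hy.le
    linarith

private theorem sect_convex_ball (ρ : ℝ) : Convex ℝ {d : ℂ | ‖d‖ < ρ} := by
  have : {d : ℂ | ‖d‖ < ρ} = Metric.ball (0 : ℂ) ρ := by
    ext d
    simp
  rw [this]
  exact convex_ball 0 ρ

theorem sector_conn {u v : ℂ} (hu : u ≠ 0) (hv : v ≠ 0)
    (huv : ∀ t : ℝ, 0 < t → v ≠ (t : ℂ) * u) (ρ : ℝ) :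
    IsPreconnected {d : ℂ | InSector u v d ∧ ‖d‖ < ρ} := by
  have c1 := sect_convex_right u
  have c2 := sect_convex_left v
  have c3 := sect_convex_ball ρ
  rcases lt_trichotomy (cr u v) 0 with h0 | h0 | h0
  · have : {d : ℂ | InSector u v d ∧ ‖d‖ < ρ} =
        ({d : ℂ | 0 < cr u d} ∩ {d : ℂ | ‖d‖ < ρ}) ∪ ({d : ℂ | 0 < cr d v} ∩ {d : ℂ | ‖d‖ < ρ}) := by
      ext d
      simp only [mem_setOf_eq, mem_union, mem_inter_iff]
      rw [sect_neg h0]
      tauto
    rw [this]
    by_cases hρ : 0 < ρ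
    · have hlim : ∃ ε : ℝ, 0 < ε ∧ ‖((-ε : ℝ) : ℂ) * (u + v)‖ < ρ := by
        refine ⟨ρ / (‖u + v‖ + 1), by positivity, ?_⟩
        rw [norm_mul, Complex.norm_real, Real.norm_eq_abs, abs_neg, abs_of_pos (by positivity)]
        rw [div_mul_eq_mul_div, div_lt_iff₀ (by positivity)]
        nlinarith [norm_nonneg (u + v)]
      obtain ⟨ε, hε, hn⟩ := hlim
      have hneg : cr u v * ε < 0 := mul_neg_of_neg_of_pos h0 hε
      refine IsPreconnected.union (((-ε : ℝ) : ℂ) * (u + v)) ⟨?_, hn⟩ ⟨?_, hn⟩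
        (c1.inter c3).isPreconnected (c2.inter c3).isPreconnected
      · simp only [mem_setOf_eq]
        rw [cr_mul_right, cr_add_right, cr_self]
        linarith
      · simp only [mem_setOf_eq]
        rw [cr_mul_left, cr_add_left, cr_self]
        linarith
    · have : {d : ℂ | ‖d‖ < ρ} = ∅ := by
        ext d
        simp only [mem_setOf_eq, mem_empty_iff_false, iff_false, not_lt]
        exact (not_lt.1 hρ).trans (norm_nonneg d)
      rw [this]
      simp only [inter_empty, union_empty]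
      exact isPreconnected_empty
  · have : {d : ℂ | InSector u v d ∧ ‖d‖ < ρ} = {d : ℂ | 0 < cr u d} ∩ {d : ℂ | ‖d‖ < ρ} := by
      ext d
      simp only [mem_setOf_eq, mem_inter_iff]
      rw [InSector_flat h0]
    rw [this]
    exact (c1.inter c3).isPreconnected
  · have : {d : ℂ | InSector u v d ∧ ‖d‖ < ρ} =
        ({d : ℂ | 0 < cr u d} ∩ {d : ℂ | 0 < cr d v}) ∩ {d : ℂ | ‖d‖ < ρ} := by
      ext d
      simp only [mem_setOf_eq, mem_inter_iff]
      rw [sect_pos h0]
    rw [this]
    exact ((c1.inter c2).inter c3).isPreconnected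

/-- points just to the left of the ray `u` are in the sector from `u` to `v` -/
theorem sector_near_first {u v : ℂ} (hu : u ≠ 0) (hv : v ≠ 0)
    (huv : ∀ t : ℝ, 0 < t → v ≠ (t : ℂ) * u) {s : ℝ} (hs : 0 < s) :
    ∃ ρ > 0, ∀ d : ℂ, ‖d‖ < ρ → 0 < cr u d → InSector u v ((s : ℂ) * u + d) := by
  have e1 : ∀ d : ℂ, cr u ((s : ℂ) * u + d) = cr u d := by
    intro d
    rw [cr_add_right, cr_mul_right, cr_self]
    ring
  rcases lt_trichotomy (cr u v) 0 with h0 | h0 | h0
  · refine ⟨1, one_pos, fun d _ hd => ?_⟩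
    rw [sect_neg h0, e1]
    exact Or.inl hd
  · refine ⟨1, one_pos, fun d _ hd => ?_⟩
    rw [InSector_flat h0, e1]
    exact hd
  · have ho : IsOpen {d : ℂ | 0 < s * cr u v + cr d v} :=
      isOpen_lt continuous_const (continuous_const.add (sect_cont_left v))
    have h1 : (0 : ℂ) ∈ {d : ℂ | 0 < s * cr u v + cr d v} := by
      simp only [mem_setOf_eq, cr_zero_left, add_zero]
      exact mul_pos hs h0
    obtain ⟨ρ, hρ, hb⟩ := Metric.isOpen_iff.1 ho 0 h1
    refine ⟨ρ, hρ, fun d hd hd' => ?_⟩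
    rw [sect_pos h0, e1, cr_add_left, cr_mul_left]
    refine ⟨hd', ?_⟩
    have : d ∈ Metric.ball (0 : ℂ) ρ := by simpa using hd
    exact hb this

/-- points just to the right of the ray `v` are in the sector from `u` to `v` -/
theorem sector_near_last {u v : ℂ} (hu : u ≠ 0) (hv : v ≠ 0)
    (huv : ∀ t : ℝ, 0 < t → v ≠ (t : ℂ) * u) {s : ℝ} (hs : 0 < s) :
    ∃ ρ > 0, ∀ d : ℂ, ‖d‖ < ρ → 0 < cr d v → InSector u v ((s : ℂ) * v + d) := by
  have e1 : ∀ d : ℂ, cr ((s : ℂ) * v + d) v = cr d v := by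
    intro d
    rw [cr_add_left, cr_mul_left, cr_self]
    ring
  rcases lt_trichotomy (cr u v) 0 with h0 | h0 | h0
  · refine ⟨1, one_pos, fun d _ hd => ?_⟩
    rw [sect_neg h0, e1]
    exact Or.inr hd
  · obtain ⟨t, ht, hvt⟩ := sect_opp hu hv huv h0
    refine ⟨1, one_pos, fun d _ hd => ?_⟩
    rw [InSector_flat h0, cr_add_right, cr_mul_right, h0, mul_zero, zero_add]
    rw [hvt, cr_mul_right, cr_swap d u] at hd
    by_contra hc
    push Not at hc
    nlinarith
  · have ho : IsOpen {d : ℂ | 0 < s * cr u v + cr u d} :=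
      isOpen_lt continuous_const (continuous_const.add (sect_cont_right u))
    have h1 : (0 : ℂ) ∈ {d : ℂ | 0 < s * cr u v + cr u d} := by
      simp only [mem_setOf_eq, cr_zero_right, add_zero]
      exact mul_pos hs h0
    obtain ⟨ρ, hρ, hb⟩ := Metric.isOpen_iff.1 ho 0 h1
    refine ⟨ρ, hρ, fun d hd hd' => ?_⟩
    rw [sect_pos h0, e1, cr_add_right, cr_mul_right]
    refine ⟨?_, hd'⟩
    have : d ∈ Metric.ball (0 : ℂ) ρ := by simpa using hd
    exact hb this

end Pool.Agent.Lib_PL
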