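import Pool.Agent.Lib_PL.Gamma
import Pool.Agent.Lib_PL.Sect

/-!
Local structure of the boundary curve near a point.
-/

open Set Complex
open scoped Topology

namespace Pool.Agent.Lib_PL

namespace Poly

variable {n : ℕ} (P : Poly n)

private theorem Local_ed_ne (i : ℤ) : P.V (i + 1) - P.V i ≠ 0 := by
  rw [sub_ne_zero]
  exact (P.V_ne i).symm

private theorem Local_ep (x : ℝ) :
    P.ep x = (((⌊x⌋ : ℝ) + 1 - x : ℝ) : ℂ) * (P.V (⌊x⌋ + 1) - P.V ⌊x⌋) := by
  rw [ep, P.γ_lin ⌊x⌋ x (Int.floor_le x) (Int.lt_floor_add_one x).le]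
  push_cast
  ring

private theorem Local_ceil (x : ℝ) : (((⌈x⌉ - 1 : ℤ)) : ℝ) < x ∧ x ≤ ((⌈x⌉ - 1 : ℤ) : ℝ) + 1 := by
  constructor
  · push_cast
    linarith [Int.ceil_lt_add_one x]
  · push_cast
    linarith [Int.le_ceil x]

private theorem Local_em (x : ℝ) : P.em x =
    -((((x - ((⌈x⌉ - 1 : ℤ) : ℝ) : ℝ)) : ℂ) * (P.V (⌈x⌉ - 1 + 1) - P.V (⌈x⌉ - 1))) := by
  rw [em, P.γ_lin (⌈x⌉ - 1) x (Local_ceil x).1.le (Local_ceil x).2]
  ring

private theorem Local_ep_pos (x : ℝ) : (0 : ℝ) < (⌊x⌋ : ℝ) + 1 - x := by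
  linarith [Int.lt_floor_add_one x]

private theorem Local_em_pos (x : ℝ) : (0 : ℝ) < x - ((⌈x⌉ - 1 : ℤ) : ℝ) := by
  linarith [(Local_ceil x).1]

theorem ep_ne (x : ℝ) : P.ep x ≠ 0 := by
  rw [P.Local_ep]
  refine mul_ne_zero ?_ (P.Local_ed_ne _)
  exact_mod_cast (Local_ep_pos x).ne'

theorem em_ne (x : ℝ) : P.em x ≠ 0 := by
  rw [P.Local_em]
  refine neg_ne_zero.2 (mul_ne_zero ?_ (P.Local_ed_ne _))
  exact_mod_cast (Local_em_pos x).ne'

private theorem Local_nd {m k : ℤ} (h : P.V m = P.V k) (h1 : m < k) (h2 : k < m + 3) : False := by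
  have h3 := P.inj _ _ h.symm
  have h4 := Int.le_of_dvd (by omega) h3
  have h5 := P.three_le
  omega

private theorem Local_vertex (m : ℤ) (t : ℝ) (ht : 0 < t)
    (h : P.V (m - 1) - P.V m = (t : ℂ) * (P.V (m + 1) - P.V m)) : False := by
  have hn : ¬ (n : ℤ) ∣ (m - 1) - m := by
    have h2 : (m - 1 - m : ℤ) = -1 := by ring
    rw [h2, Int.dvd_neg]
    intro h1
    have h3 := Int.le_of_dvd one_pos h1
    have h4 := P.three_le
    omega
  have e1 : m - 1 + 1 = m := by ring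
  rcases le_or_gt t 1 with h1 | h1
  · have hz : P.V (m - 1) ∈ segment ℝ (P.V m) (P.V (m + 1)) := by
      refine ⟨1 - t, t, by linarith, ht.le, by ring, ?_⟩
      simp only [Complex.real_smul]
      push_cast
      linear_combination -h
    have h2 := P.simple (m - 1) m hn (P.V (m - 1)) (left_mem_segment ℝ _ _) hz
    rcases h2.2 with h3 | h3
    · exact P.Local_nd h3 (by omega) (by omega)
    · exact P.Local_nd h3 (by omega) (by omega)
  · have ht0 : (t : ℂ) ≠ 0 := by exact_mod_cast ht.ne'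
    have hz : P.V (m + 1) ∈ segment ℝ (P.V (m - 1)) (P.V m) := by
      refine ⟨1 / t, 1 - 1 / t, by positivity, ?_, by ring, ?_⟩
      · have : 1 / t ≤ 1 := by
          rw [div_le_one ht]
          exact h1.le
        linarith
      · have h3 : P.V (m - 1) = P.V m + (t : ℂ) * (P.V (m + 1) - P.V m) := by
          linear_combination h
        rw [h3]
        simp only [Complex.real_smul]
        push_cast
        field_simp
        ring
    have h2 := P.simple (m - 1) m hn (P.V (m + 1)) (by rw [e1]; exact hz)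
      (right_mem_segment ℝ _ _)
    rcases h2.1 with h3 | h3
    · exact P.Local_nd h3.symm (by omega) (by omega)
    · rw [e1] at h3
      exact P.Local_nd h3.symm (by omega) (by omega)

theorem em_ne_ep (x : ℝ) : ∀ t : ℝ, 0 < t → P.em x ≠ (t : ℂ) * P.ep x := by
  intro t ht h
  by_cases hx : NI x
  · obtain ⟨a, ha, h1⟩ := P.ep_NI hx
    obtain ⟨b, hb, h2⟩ := P.em_NI hx
    have h3 : ((t * a + b : ℝ) : ℂ) * P.ed x = 0 := by
      rw [h1, h2] at h
      push_cast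
      linear_combination -h
    rcases mul_eq_zero.1 h3 with h4 | h4
    · have h5 : t * a + b = 0 := by exact_mod_cast h4
      have := mul_pos ht ha
      linarith
    · exact P.Local_ed_ne _ h4
  · have hx' : ∃ m : ℤ, (m : ℝ) = x := by
      by_contra hc
      exact hx fun m hm => hc ⟨m, hm⟩
    obtain ⟨m, rfl⟩ := hx'
    rw [P.em_int, P.ep_int] at h
    exact P.Local_vertex m t ht h

/-- positions close to `x` are exactly the points of the curve close to `γ x` -/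
theorem C_local' (x : ℝ) {ε : ℝ} (hε : 0 < ε) : ∃ ρ > 0, ∀ z ∈ P.C, ‖z - P.γ x‖ < ρ →
    ∃ y, |y - x| < ε ∧ P.γ y = z := by
  have hn : (0 : ℝ) < n := by
    have := P.three_le
    exact_mod_cast (by omega : 0 < n)
  have hK : IsClosed (P.γ '' Icc (x + ε) (x + n - ε)) :=
    (isCompact_Icc.image P.γ_cont).isClosed
  have hx : P.γ x ∉ P.γ '' Icc (x + ε) (x + n - ε) := by
    rintro ⟨y, hy, hyx⟩
    have := P.γ_inj' (c := x) hyx (by linarith [hy.1]) (by linarith [hy.2]) le_rfl (by linarith)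
    linarith [hy.1]
  obtain ⟨ρ, hρ, hb⟩ := Metric.isOpen_iff.1 hK.isOpen_compl (P.γ x) hx
  refine ⟨ρ, hρ, fun z hz hzx => ?_⟩
  have h1 : z ∉ P.γ '' Icc (x + ε) (x + n - ε) := hb (by rw [Metric.mem_ball, dist_eq_norm]; exact hzx)
  obtain ⟨y, hy, hy', rfl⟩ := P.mem_C_window x hz
  rcases lt_or_ge y (x + ε) with h2 | h2
  · exact ⟨y, by rw [abs_lt]; constructor <;> linarith, rfl⟩
  · rcases le_or_gt y (x + n - ε) with h3 | h3
    · exact absurd ⟨y, ⟨h2, h3⟩, rfl⟩ h1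
    · refine ⟨y - n, by rw [abs_lt]; constructor <;> linarith, ?_⟩
      have := P.γ_add_n (y - n)
      rw [sub_add_cancel] at this
      exact this.symm

private theorem Local_after (x : ℝ) : ∃ ε > 0, ∀ y, x < y → y < x + ε →
    ∃ t : ℝ, 0 < t ∧ P.γ y = P.γ x + (t : ℂ) * P.ep x := by
  have h0 := Local_ep_pos x
  refine ⟨(⌊x⌋ : ℝ) + 1 - x, h0, fun y hy hy' => ?_⟩
  refine ⟨(y - x) / ((⌊x⌋ : ℝ) + 1 - x), div_pos (by linarith) h0, ?_⟩
  have h1 := P.γ_sub ⌊x⌋ x y (Int.floor_le x) (Int.lt_floor_add_one x).le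
    (by linarith [Int.floor_le x]) (by linarith)
  rw [P.Local_ep, ← mul_assoc, ← Complex.ofReal_mul, div_mul_cancel₀ _ h0.ne', ← h1]
  ring

private theorem Local_before (x : ℝ) : ∃ ε > 0, ∀ y, x - ε < y → y < x →
    ∃ t : ℝ, 0 < t ∧ P.γ y = P.γ x + (t : ℂ) * P.em x := by
  have h0 := Local_em_pos x
  have hc := Local_ceil x
  refine ⟨x - ((⌈x⌉ - 1 : ℤ) : ℝ), h0, fun y hy hy' => ?_⟩
  refine ⟨(x - y) / (x - ((⌈x⌉ - 1 : ℤ) : ℝ)), div_pos (by linarith) h0, ?_⟩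
  have h1 := P.γ_sub (⌈x⌉ - 1) x y hc.1.le hc.2 (by linarith) (by linarith)
  have h2 : (((x - y) / (x - ((⌈x⌉ - 1 : ℤ) : ℝ)) : ℝ) : ℂ) * P.em x =
      ((y - x : ℝ) : ℂ) * (P.V (⌈x⌉ - 1 + 1) - P.V (⌈x⌉ - 1)) := by
    rw [P.Local_em, mul_neg, ← mul_assoc, ← Complex.ofReal_mul, div_mul_cancel₀ _ h0.ne']
    push_cast
    ring
  rw [h2, ← h1]
  ring

/-- near `γ x` the curve consists of two radii -/
theorem C_local (x : ℝ) : ∃ ρ > 0, ∀ d : ℂ, ‖d‖ < ρ → (P.γ x + d ∈ P.C ↔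
    d = 0 ∨ (∃ t : ℝ, 0 < t ∧ d = (t : ℂ) * P.ep x) ∨ (∃ t : ℝ, 0 < t ∧ d = (t : ℂ) * P.em x)) := by
  obtain ⟨ε₁, hε₁, ha⟩ := P.Local_after x
  obtain ⟨ε₂, hε₂, hb⟩ := P.Local_before x
  obtain ⟨ρ, hρ, hC⟩ := P.C_local' x (lt_min hε₁ hε₂)
  have hep : 0 < ‖P.ep x‖ := norm_pos_iff.2 (P.ep_ne x)
  have hem : 0 < ‖P.em x‖ := norm_pos_iff.2 (P.em_ne x)
  have h0 := Local_ep_pos x
  have h0' := Local_em_pos x
  have hc := Local_ceil x
  refine ⟨min ρ (min ‖P.ep x‖ ‖P.em x‖), lt_min hρ (lt_min hep hem), fun d hd => ⟨fun h => ?_, ?_⟩⟩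
  · obtain ⟨y, hy, hyd⟩ := hC (P.γ x + d) h (by rw [add_sub_cancel_left]; exact lt_of_lt_of_le hd (min_le_left _ _))
    rw [abs_lt] at hy
    have h1 := min_le_left ε₁ ε₂
    have h2 := min_le_right ε₁ ε₂
    rcases lt_trichotomy y x with h3 | h3 | h3
    · obtain ⟨t, ht, h4⟩ := hb y (by linarith) h3
      right; right
      refine ⟨t, ht, ?_⟩
      rw [hyd] at h4
      exact add_left_cancel h4
    · left
      rw [h3] at hyd
      have : P.γ x + 0 = P.γ x + d := by rw [add_zero]; exact hyd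
      exact (add_left_cancel this).symm
    · obtain ⟨t, ht, h4⟩ := ha y h3 (by linarith)
      right; left
      refine ⟨t, ht, ?_⟩
      rw [hyd] at h4
      exact add_left_cancel h4
  · rintro (rfl | ⟨t, ht, rfl⟩ | ⟨t, ht, rfl⟩)
    · rw [add_zero]
      exact P.γ_mem_C x
    · have h1 : t < 1 := by
        have h2 := lt_of_lt_of_le hd ((min_le_right _ _).trans (min_le_left _ _))
        rw [norm_mul, Complex.norm_real, Real.norm_eq_abs, abs_of_pos ht] at h2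
        by_contra h3
        nlinarith
      refine (P.mem_C_iff _).2 ⟨x + t * ((⌊x⌋ : ℝ) + 1 - x), ?_⟩
      have h2 := P.γ_sub ⌊x⌋ x (x + t * ((⌊x⌋ : ℝ) + 1 - x)) (Int.floor_le x)
        (Int.lt_floor_add_one x).le (by nlinarith [Int.floor_le x]) (by nlinarith)
      rw [P.Local_ep]
      push_cast at h2 ⊢
      linear_combination h2
    · have h1 : t < 1 := by
        have h2 := lt_of_lt_of_le hd ((min_le_right _ _).trans (min_le_right _ _))
        rw [norm_mul, Complex.norm_real, Real.norm_eq_abs, abs_of_pos ht] at h2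
        by_contra h3
        nlinarith
      refine (P.mem_C_iff _).2 ⟨x - t * (x - ((⌈x⌉ - 1 : ℤ) : ℝ)), ?_⟩
      have h2 := P.γ_sub (⌈x⌉ - 1) x (x - t * (x - ((⌈x⌉ - 1 : ℤ) : ℝ))) hc.1.le hc.2
        (by nlinarith) (by nlinarith)
      rw [P.Local_em]
      push_cast at h2 ⊢
      linear_combination h2

theorem γ_after (x : ℝ) : ∃ ε > 0, ∀ y, x < y → y < x + ε →
    ∃ t : ℝ, 0 < t ∧ P.γ y = P.γ x + (t : ℂ) * P.ep x :=
  P.Local_after x

theorem γ_before (x : ℝ) : ∃ ε > 0, ∀ y, x - ε < y → y < x →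
    ∃ t : ℝ, 0 < t ∧ P.γ y = P.γ x + (t : ℂ) * P.em x :=
  P.Local_before x

end Poly

end Pool.Agent.Lib_PL
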