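import Pool.Agent.Lib_PL.Defs2

/-!
Abstract subdivision lemma.  `A` is closed, contained in a finite union of closed segments, and has finitely many points which are
not regular.  `Q` = points of `A` which are not regular or which are ends of segments of `E`; `T` = pairs `(a,b)` of different points of `Q` (one
of `(a,b)`, `(b,a)`) such that the open segment misses `Q` and is contained in `A`.

A point `z ∈ A` not in `Q` is regular; the straight line in which `A` coincides near `z` is covered by finitely many segments, so it is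
collinear with some `e ∈ E` and `z` is in the open segment `e`.  On the interval of `e` minus `Q` containing `z`, the set of points where `A` is
locally equal to the line `e` is open and closed, so the whole interval is in `A`, its ends are in `A` (closed), and they are in `Q`
(otherwise they would be regular and the interval would be longer).  This gives `cover`; disjointness: a common point of two open segments of `T` is
regular, so they are collinear there, and their ends are in `Q`.  Every segment of `T` lies in some `e ∈ E` and its ends are consecutive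
points of `Q` on `e`.
-/

open Set Complex
open scoped Topology

namespace Pool.Agent.Lib_PL

private def SubdivLt (a b : ℂ) : Prop := a.re < b.re ∨ (a.re = b.re ∧ a.im < b.im)

private theorem Subdiv_tot {a b : ℂ} (h : a ≠ b) : SubdivLt a b ∨ SubdivLt b a := by
  unfold SubdivLt
  rcases lt_trichotomy a.re b.re with h1 | h1 | h1
  · exact Or.inl (Or.inl h1)
  · rcases lt_trichotomy a.im b.im with h2 | h2 | h2
    · exact Or.inl (Or.inr ⟨h1, h2⟩)
    · exact absurd (Complex.ext h1 h2) h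
    · exact Or.inr (Or.inr ⟨h1.symm, h2⟩)
  · exact Or.inr (Or.inl h1)

private theorem Subdiv_asymm {a b : ℂ} (h : SubdivLt a b) (h' : SubdivLt b a) : False := by
  unfold SubdivLt at h h'
  rcases h with h | ⟨h, h2⟩ <;> rcases h' with h' | ⟨h', h2'⟩ <;> linarith

private theorem Subdiv_scale {a w : ℂ} {c1 c2 : ℝ} (h1 : SubdivLt a (a + (c1 : ℂ) * w))
    (h2 : SubdivLt a (a + (c2 : ℂ) * w)) : 0 < c1 * c2 := by
  unfold SubdivLt at h1 h2
  simp only [Complex.add_re, Complex.add_im, Complex.re_ofReal_mul, Complex.im_ofReal_mul,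
    lt_add_iff_pos_right, left_eq_add] at h1 h2
  have key : ∀ x : ℝ, 0 < c1 * x → 0 < c2 * x → 0 < c1 * c2 := by
    intro x hx hy
    have h3 : 0 < (c1 * x) * (c2 * x) := mul_pos hx hy
    have h4 : (c1 * x) * (c2 * x) = (c1 * c2) * (x * x) := by ring
    rw [h4] at h3
    by_contra h5
    have h6 := mul_nonneg (by linarith : 0 ≤ -(c1 * c2)) (mul_self_nonneg x)
    linarith
  rcases h1 with h1 | ⟨h1, h1'⟩
  · rcases h2 with h2 | ⟨h2, h2'⟩
    · exact key _ h1 h2
    · exfalso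
      rcases mul_eq_zero.1 h2 with h3 | h3
      · rw [h3] at h2'; simp at h2'
      · rw [h3] at h1; simp at h1
  · rcases h2 with h2 | ⟨h2, h2'⟩
    · exfalso
      rcases mul_eq_zero.1 h1 with h3 | h3
      · rw [h3] at h1'; simp at h1'
      · rw [h3] at h2; simp at h2
    · exact key _ h1' h2'

private theorem Subdiv_seg (a b x : ℂ) : x ∈ openSegment ℝ a b ↔
    ∃ t : ℝ, 0 < t ∧ t < 1 ∧ x = a + (t : ℂ) * (b - a) := by
  rw [openSegment_eq_image']
  constructor
  · rintro ⟨t, ⟨h0, h1⟩, rfl⟩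
    exact ⟨t, h0, h1, by simp⟩
  · rintro ⟨t, h0, h1, rfl⟩
    exact ⟨t, ⟨h0, h1⟩, by simp⟩

private theorem Subdiv_cseg (a b x : ℂ) : x ∈ segment ℝ a b ↔
    ∃ t : ℝ, 0 ≤ t ∧ t ≤ 1 ∧ x = a + (t : ℂ) * (b - a) := by
  rw [segment_eq_image']
  constructor
  · rintro ⟨t, ⟨h0, h1⟩, rfl⟩
    exact ⟨t, h0, h1, by simp⟩
  · rintro ⟨t, h0, h1, rfl⟩
    exact ⟨t, ⟨h0, h1⟩, by simp⟩

/-- a small half-open segment at a regular point contained in `A` gives the direction -/
private theorem Subdiv_dir {A : Set ℂ} {z v : ℂ} (hz : Reg A z) (hv : v ≠ 0) {s0 : ℝ} (hs0 : 0 < s0)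
    (h : ∀ s : ℝ, 0 < s → s < s0 → z + (s : ℂ) * v ∈ A) :
    ∃ ρ > 0, ∀ z' : ℂ, ‖z' - z‖ < ρ → (z' ∈ A ↔ ∃ t : ℝ, z' = z + (t : ℂ) * v) := by
  obtain ⟨d, hd, ρ, hρ, h1⟩ := hz
  refine ⟨ρ, hρ, ?_⟩
  have hnv : 0 < ‖v‖ := norm_pos_iff.2 hv
  obtain ⟨s, hs, hss, hsn⟩ : ∃ s : ℝ, 0 < s ∧ s < s0 ∧ s * ‖v‖ < ρ := by
    refine ⟨min (s0 / 2) (ρ / (2 * ‖v‖)), lt_min (by linarith) (by positivity), ?_, ?_⟩
    · exact lt_of_le_of_lt (min_le_left _ _) (by linarith)
    · calc min (s0 / 2) (ρ / (2 * ‖v‖)) * ‖v‖ ≤ ρ / (2 * ‖v‖) * ‖v‖ :=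
            mul_le_mul_of_nonneg_right (min_le_right _ _) hnv.le
        _ = ρ / 2 := by field_simp
        _ < ρ := by linarith
  obtain ⟨t, ht⟩ := (h1 (z + (s : ℂ) * v) (by
    rw [add_sub_cancel_left, norm_mul, Complex.norm_real, Real.norm_eq_abs, abs_of_pos hs]
    exact hsn)).1 (h s hs hss)
  have ht' : (s : ℂ) * v = (t : ℂ) * d := add_left_cancel ht
  have hsc : (s : ℂ) ≠ 0 := by exact_mod_cast hs.ne'
  have ht0 : (t : ℂ) ≠ 0 := by
    intro h0
    rw [h0, zero_mul] at ht'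
    exact (mul_ne_zero hsc hv) ht'
  intro z' hz'
  rw [h1 z' hz']
  constructor
  · rintro ⟨r, rfl⟩
    refine ⟨r * s / t, ?_⟩
    push_cast
    have : (r : ℂ) * d = (r : ℂ) * s / t * v := by
      field_simp
      linear_combination -(r : ℂ) * ht'
    rw [this]
  · rintro ⟨r, rfl⟩
    refine ⟨r * t / s, ?_⟩
    push_cast
    have : (r : ℂ) * v = (r : ℂ) * t / s * d := by
      field_simp
      linear_combination (r : ℂ) * ht'
    rw [this]

/-- extension of a segment in `A` outside `Q` to the next point of `Q` -/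
private theorem Subdiv_ext {A : Set ℂ} (hA : IsClosed A) (hb : Bornology.IsBounded A) {Q : Set ℂ}
    (hQ : Q.Finite) (hreg : ∀ z ∈ A, z ∉ Q → Reg A z) {z v : ℂ} (hv : v ≠ 0) (hz : z ∈ A)
    (hzQ : z ∉ Q) {s0 : ℝ} (hs0 : 0 < s0) (h : ∀ s : ℝ, 0 < s → s < s0 → z + (s : ℂ) * v ∈ A) :
    ∃ s1 : ℝ, 0 < s1 ∧ z + (s1 : ℂ) * v ∈ Q ∧
      ∀ s : ℝ, 0 ≤ s → s < s1 → z + (s : ℂ) * v ∈ A ∧ z + (s : ℂ) * v ∉ Q := by
  have hnv : 0 < ‖v‖ := norm_pos_iff.2 hv
  have hcont : Continuous fun s : ℝ => z + (s : ℂ) * v := by fun_prop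
  -- points near a point outside `Q` are outside `Q`
  have hQo : ∀ r : ℝ, z + (r : ℂ) * v ∉ Q → ∃ δ > 0, ∀ s : ℝ, |s - r| < δ →
      z + (s : ℂ) * v ∉ Q := by
    intro r hr
    have h1 : IsOpen {s : ℝ | z + (s : ℂ) * v ∉ Q} := by
      have h2 : IsClosed {s : ℝ | z + (s : ℂ) * v ∈ Q} := hQ.isClosed.preimage hcont
      exact h2.isOpen_compl
    obtain ⟨δ, hδ, h2⟩ := Metric.isOpen_iff.1 h1 r hr
    refine ⟨δ, hδ, fun s hs => h2 ?_⟩
    rw [Metric.mem_ball, Real.dist_eq]
    exact hs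
  set G : Set ℝ := {s | 0 ≤ s ∧ ∀ s' : ℝ, 0 ≤ s' → s' ≤ s →
    z + (s' : ℂ) * v ∈ A ∧ z + (s' : ℂ) * v ∉ Q} with hG
  have hbdd : BddAbove G := by
    obtain ⟨R, hR⟩ := hb.subset_closedBall 0
    refine ⟨(R + ‖z‖) / ‖v‖, ?_⟩
    rintro s ⟨hs, hs'⟩
    have h1 := hR (hs' s hs le_rfl).1
    rw [mem_closedBall_zero_iff] at h1
    rw [le_div_iff₀ hnv]
    have h2 : s * ‖v‖ = ‖(z + (s : ℂ) * v) - z‖ := by
      rw [add_sub_cancel_left, norm_mul, Complex.norm_real, Real.norm_eq_abs, abs_of_nonneg hs]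
    rw [h2]
    exact (norm_sub_le _ _).trans (by linarith)
  obtain ⟨δ, hδ, hδ'⟩ := hQo 0 (by simpa using hzQ)
  have hmem : min (s0 / 2) (δ / 2) ∈ G := by
    refine ⟨(lt_min (by linarith) (by linarith)).le, ?_⟩
    intro s' hs' hs''
    have h1 : s' ≤ s0 / 2 := hs''.trans (min_le_left _ _)
    have h2 : s' ≤ δ / 2 := hs''.trans (min_le_right _ _)
    refine ⟨?_, hδ' s' ?_⟩
    · rcases lt_or_eq_of_le hs' with h3 | h3
      · exact h s' h3 (by linarith)
      · rw [← h3]; simpa using hz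
    · rw [sub_zero, abs_of_nonneg hs']
      linarith
  have hne : G.Nonempty := ⟨_, hmem⟩
  set s1 := sSup G with hs1
  have hs1pos : 0 < s1 := lt_of_lt_of_le (lt_min (by linarith) (by linarith)) (le_csSup hbdd hmem)
  have hbelow : ∀ s : ℝ, 0 ≤ s → s < s1 → z + (s : ℂ) * v ∈ A ∧ z + (s : ℂ) * v ∉ Q := by
    intro s hs hs'
    obtain ⟨g, hg, hsg⟩ := exists_lt_of_lt_csSup hne hs'
    exact hg.2 s hs hsg.le
  have hbA : z + (s1 : ℂ) * v ∈ A := by
    have h1 : IsClosed {s : ℝ | z + (s : ℂ) * v ∈ A} := hA.preimage hcont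
    have h2 : closure (Ioo 0 s1) ⊆ {s : ℝ | z + (s : ℂ) * v ∈ A} :=
      h1.closure_subset_iff.2 fun s hs => (hbelow s hs.1.le hs.2).1
    rw [closure_Ioo hs1pos.ne] at h2
    exact h2 ⟨hs1pos.le, le_rfl⟩
  refine ⟨s1, hs1pos, ?_, hbelow⟩
  by_contra hbQ
  obtain ⟨δ1, hδ1, hδ1'⟩ := hQo s1 hbQ
  obtain ⟨ρ, hρ, hline⟩ := Subdiv_dir (hreg _ hbA hbQ) (v := -v) (neg_ne_zero.2 hv) hs1pos (by
    intro s hs hs'
    have h1 := (hbelow (s1 - s) (by linarith) (by linarith)).1
    have h2 : z + (s1 : ℂ) * v + (s : ℂ) * -v = z + ((s1 - s : ℝ) : ℂ) * v := by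
      push_cast; ring
    rw [h2]
    exact h1)
  have hlt : ∃ η > 0, η < δ1 ∧ η * ‖v‖ < ρ := by
    refine ⟨min (δ1 / 2) (ρ / (2 * ‖v‖)), lt_min (by linarith) (by positivity), ?_, ?_⟩
    · exact lt_of_le_of_lt (min_le_left _ _) (by linarith)
    · calc min (δ1 / 2) (ρ / (2 * ‖v‖)) * ‖v‖ ≤ ρ / (2 * ‖v‖) * ‖v‖ :=
            mul_le_mul_of_nonneg_right (min_le_right _ _) hnv.le
        _ = ρ / 2 := by field_simp
        _ < ρ := by linarith
  obtain ⟨η, hη, hη1, hη2⟩ := hlt
  have hin : s1 + η ∈ G := by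
    refine ⟨by linarith, ?_⟩
    intro s' hs' hs''
    rcases lt_or_ge s' s1 with h3 | h3
    · exact hbelow s' hs' h3
    · refine ⟨?_, hδ1' s' ?_⟩
      · refine (hline _ ?_).2 ⟨-(s' - s1), ?_⟩
        · have h4 : z + (s' : ℂ) * v - (z + (s1 : ℂ) * v) = ((s' - s1 : ℝ) : ℂ) * v := by
            push_cast; ring
          rw [h4, norm_mul, Complex.norm_real, Real.norm_eq_abs, abs_of_nonneg (by linarith)]
          refine lt_of_le_of_lt (mul_le_mul_of_nonneg_right ?_ hnv.le) hη2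
          linarith
        · push_cast; ring
      · rw [abs_of_nonneg (by linarith)]
        linarith
  have := le_csSup hbdd hin
  linarith

theorem subdiv (A : Set ℂ) (hA : IsClosed A) (E : Finset (ℂ × ℂ))
    (hE : ∀ e ∈ E, e.1 ≠ e.2) (hcov : ∀ z ∈ A, ∃ e ∈ E, z ∈ segment ℝ e.1 e.2)
    (hfin : {z | z ∈ A ∧ ¬ Reg A z}.Finite) :
    ∃ (Q : Finset ℂ) (T : Finset (ℂ × ℂ)), IsSubdiv A Q T ∧
      (∀ z, z ∈ Q ↔ z ∈ A ∧ (¬ Reg A z ∨ ∃ e ∈ E, z = e.1 ∨ z = e.2)) ∧
      ∀ B : ℂ × ℂ → ℕ, (∀ e ∈ E, ∀ F : Finset ℂ, (∀ z ∈ F, z ∈ Q ∧ z ∈ segment ℝ e.1 e.2) →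
        F.card ≤ B e) → T.card ≤ ∑ e ∈ E, B e := by
  classical
  have hbd : Bornology.IsBounded A := by
    have h1 : Bornology.IsBounded (⋃ e ∈ E, segment ℝ e.1 e.2) := by
      rw [Bornology.isBounded_biUnion_finset]
      intro e _
      rw [segment_eq_image']
      exact (isCompact_Icc.image (by fun_prop)).isBounded
    refine h1.subset fun z hz => ?_
    obtain ⟨e, he, hze⟩ := hcov z hz
    exact mem_biUnion he hze
  -- the finite set `Q`
  have hQfin : {z | z ∈ A ∧ (¬ Reg A z ∨ ∃ e ∈ E, z = e.1 ∨ z = e.2)}.Finite := by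
    refine (hfin.union ((E.image Prod.fst) ∪ (E.image Prod.snd) : Finset ℂ).finite_toSet).subset ?_
    rintro z ⟨hz, h | ⟨e, he, h | h⟩⟩
    · exact Or.inl ⟨hz, h⟩
    · right
      rw [h]
      simp only [Finset.coe_union, Finset.coe_image, mem_union, mem_image, SetLike.mem_coe]
      exact Or.inl ⟨e, he, rfl⟩
    · right
      rw [h]
      simp only [Finset.coe_union, Finset.coe_image, mem_union, mem_image, SetLike.mem_coe]
      exact Or.inr ⟨e, he, rfl⟩
  set Q : Finset ℂ := hQfin.toFinset with hQdef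
  have hQ : ∀ z, z ∈ Q ↔ z ∈ A ∧ (¬ Reg A z ∨ ∃ e ∈ E, z = e.1 ∨ z = e.2) := by
    intro z
    rw [hQdef, Set.Finite.mem_toFinset]
    exact Iff.rfl
  have hreg : ∀ z ∈ A, z ∉ (Q : Set ℂ) → Reg A z := by
    intro z hz hzQ
    by_contra hr
    exact hzQ (by rw [Finset.mem_coe]; exact (hQ z).2 ⟨hz, Or.inl hr⟩)
  set T : Finset (ℂ × ℂ) := (Q ×ˢ Q).filter fun t =>
    SubdivLt t.1 t.2 ∧ ∀ x ∈ openSegment ℝ t.1 t.2, x ∈ A ∧ x ∉ Q with hT
  have hTm : ∀ t, t ∈ T ↔ (t.1 ∈ Q ∧ t.2 ∈ Q) ∧ SubdivLt t.1 t.2 ∧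
      ∀ x ∈ openSegment ℝ t.1 t.2, x ∈ A ∧ x ∉ Q := by
    intro t
    rw [hT, Finset.mem_filter, Finset.mem_product]
  have hTne : ∀ t ∈ T, t.1 ≠ t.2 := by
    intro t ht h
    have h1 := ((hTm t).1 ht).2.1
    rw [h] at h1
    exact Subdiv_asymm h1 h1
  -- disjointness
  have hdisj : ∀ t ∈ T, ∀ t' ∈ T, ∀ z, z ∈ openSegment ℝ t.1 t.2 → z ∈ openSegment ℝ t'.1 t'.2 →
      t = t' := by
    rintro ⟨a, b⟩ ht ⟨a', b'⟩ ht' z hz hz'
    have hab := hTne _ ht
    have hab' := hTne _ ht'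
    obtain ⟨⟨haQ, hbQ⟩, hlt, hseg⟩ := (hTm _).1 ht
    obtain ⟨⟨haQ', hbQ'⟩, hlt', hseg'⟩ := (hTm _).1 ht'
    simp only at hab hab' haQ hbQ hlt hseg haQ' hbQ' hlt' hseg' hz hz'
    have hzA := (hseg z hz).1
    have hzQ := (hseg z hz).2
    obtain ⟨θ, hθ0, hθ1, hθ⟩ := (Subdiv_seg a b z).1 hz
    obtain ⟨θ', hθ0', hθ1', hθ'⟩ := (Subdiv_seg a' b' z).1 hz'
    have hv : b - a ≠ 0 := sub_ne_zero.2 hab.symm
    have hv' : b' - a' ≠ 0 := sub_ne_zero.2 hab'.symm
    obtain ⟨ρ, hρ, hline⟩ := Subdiv_dir (hreg z hzA (by simpa using hzQ)) hv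
      (s0 := 1 - θ) (by linarith) (by
        intro s hs hs'
        refine (hseg _ ((Subdiv_seg a b _).2 ⟨θ + s, by linarith, by linarith, ?_⟩)).1
        rw [hθ]; push_cast; ring)
    have hnv' : 0 < ‖b' - a'‖ := norm_pos_iff.2 hv'
    obtain ⟨s, hs, hs1, hs2⟩ : ∃ s : ℝ, 0 < s ∧ s < 1 - θ' ∧ s * ‖b' - a'‖ < ρ := by
      refine ⟨min ((1 - θ') / 2) (ρ / (2 * ‖b' - a'‖)), lt_min (by linarith) (by positivity), ?_, ?_⟩
      · exact lt_of_le_of_lt (min_le_left _ _) (by linarith)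
      · calc min ((1 - θ') / 2) (ρ / (2 * ‖b' - a'‖)) * ‖b' - a'‖
            ≤ ρ / (2 * ‖b' - a'‖) * ‖b' - a'‖ :=
              mul_le_mul_of_nonneg_right (min_le_right _ _) hnv'.le
          _ = ρ / 2 := by field_simp
          _ < ρ := by linarith
    obtain ⟨r, hr⟩ := (hline (z + (s : ℂ) * (b' - a')) (by
      rw [add_sub_cancel_left, norm_mul, Complex.norm_real, Real.norm_eq_abs, abs_of_pos hs]
      exact hs2)).1 (by
        refine (hseg' _ ((Subdiv_seg a' b' _).2 ⟨θ' + s, by linarith, by linarith, ?_⟩)).1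
        rw [hθ']; push_cast; ring)
    have hr' : (s : ℂ) * (b' - a') = (r : ℂ) * (b - a) := add_left_cancel hr
    have hsc : (s : ℂ) ≠ 0 := by exact_mod_cast hs.ne'
    set c : ℝ := r / s with hc
    have hcv : b' - a' = (c : ℂ) * (b - a) := by
      rw [hc]
      push_cast
      field_simp
      linear_combination hr'
    have hc0 : c ≠ 0 := by
      intro h0
      rw [h0] at hcv
      simp only [Complex.ofReal_zero, zero_mul] at hcv
      exact hv' hcv
    -- parameters along `b - a` measured from `a`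
    have ea' : a' = a + ((θ - θ' * c : ℝ) : ℂ) * (b - a) := by
      have h1 : a' = z - (θ' : ℂ) * (b' - a') := by rw [hθ']; ring
      rw [h1, hcv, hθ]; push_cast; ring
    have eb' : b' = a + ((θ + (1 - θ') * c : ℝ) : ℂ) * (b - a) := by
      have h1 : b' = z + ((1 : ℂ) - θ') * (b' - a') := by rw [hθ']; ring
      rw [h1, hcv, hθ]; push_cast; ring
    have n1 : ¬ (0 < θ - θ' * c ∧ θ - θ' * c < 1) := fun hh =>
      (hseg _ ((Subdiv_seg a b a').2 ⟨_, hh.1, hh.2, ea'⟩)).2 haQ'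
    have n2 : ¬ (0 < θ + (1 - θ') * c ∧ θ + (1 - θ') * c < 1) := fun hh =>
      (hseg _ ((Subdiv_seg a b b').2 ⟨_, hh.1, hh.2, eb'⟩)).2 hbQ'
    have hcc : (c : ℂ) ≠ 0 := by exact_mod_cast hc0
    have ea : a = a' + ((θ' - θ / c : ℝ) : ℂ) * (b' - a') := by
      rw [hcv, ea']
      push_cast
      field_simp
      ring
    have eb : b = a' + ((θ' + (1 - θ) / c : ℝ) : ℂ) * (b' - a') := by
      rw [hcv, ea']
      push_cast
      field_simp
      ring
    have n3 : ¬ (0 < θ' - θ / c ∧ θ' - θ / c < 1) := fun hh =>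
      (hseg' _ ((Subdiv_seg a' b' a).2 ⟨_, hh.1, hh.2, ea⟩)).2 haQ
    have n4 : ¬ (0 < θ' + (1 - θ) / c ∧ θ' + (1 - θ) / c < 1) := fun hh =>
      (hseg' _ ((Subdiv_seg a' b' b).2 ⟨_, hh.1, hh.2, eb⟩)).2 hbQ
    rcases lt_or_gt_of_ne hc0 with hneg | hpos
    · -- opposite directions
      exfalso
      have m1 : 0 < θ' * (-c) := mul_pos hθ0' (by linarith)
      have m2 : 0 < (1 - θ') * (-c) := mul_pos (by linarith) (by linarith)
      have k1 : 1 ≤ θ - θ' * c := by
        by_contra hk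
        exact n1 ⟨by nlinarith, by linarith⟩
      have k2 : θ + (1 - θ') * c ≤ 0 := by
        by_contra hk
        exact n2 ⟨by linarith, by nlinarith⟩
      have d1 : θ / c = -(θ / (-c)) := by rw [div_neg, neg_neg]
      have d2 : (1 - θ) / c = -((1 - θ) / (-c)) := by rw [div_neg, neg_neg]
      have p1 : 0 < θ / (-c) := div_pos hθ0 (by linarith)
      have p2 : 0 < (1 - θ) / (-c) := div_pos (by linarith) (by linarith)
      have k3 : 1 ≤ θ' - θ / c := by
        by_contra hk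
        exact n3 ⟨by rw [d1]; linarith, by linarith⟩
      have k4 : θ' + (1 - θ) / c ≤ 0 := by
        by_contra hk
        exact n4 ⟨by linarith, by rw [d2]; linarith⟩
      have q1 : θ / (-c) * (-c) = θ := div_mul_cancel₀ _ (by linarith : (-c) ≠ 0)
      have q2 : (1 - θ) / (-c) * (-c) = 1 - θ := div_mul_cancel₀ _ (by linarith : (-c) ≠ 0)
      rw [d1] at k3
      rw [d2] at k4
      have k3' : θ + (1 - θ') * c ≥ 0 := by nlinarith
      have k4' : θ - θ' * c ≤ 1 := by nlinarith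
      have e1 : a' = b := by
        rw [ea', show θ - θ' * c = 1 by linarith]; simp
      have e2 : b' = a := by
        rw [eb', show θ + (1 - θ') * c = 0 by linarith]; simp
      rw [e1, e2] at hlt'
      exact Subdiv_asymm hlt hlt'
    · have m1 : 0 < θ' * c := mul_pos hθ0' hpos
      have m2 : 0 < (1 - θ') * c := mul_pos (by linarith) hpos
      have k1 : θ - θ' * c ≤ 0 := by
        by_contra hk
        exact n1 ⟨by linarith, by linarith⟩
      have k2 : 1 ≤ θ + (1 - θ') * c := by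
        by_contra hk
        exact n2 ⟨by linarith, by linarith⟩
      have p1 : 0 < θ / c := div_pos hθ0 hpos
      have p2 : 0 < (1 - θ) / c := div_pos (by linarith) hpos
      have k3 : θ' - θ / c ≤ 0 := by
        by_contra hk
        exact n3 ⟨by linarith, by linarith⟩
      have k4 : 1 ≤ θ' + (1 - θ) / c := by
        by_contra hk
        exact n4 ⟨by linarith, by linarith⟩
      have q1 : θ / c * c = θ := div_mul_cancel₀ _ hc0
      have q2 : (1 - θ) / c * c = 1 - θ := div_mul_cancel₀ _ hc0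
      have k3' : θ - θ' * c ≥ 0 := by nlinarith
      have k4' : θ + (1 - θ') * c ≤ 1 := by nlinarith
      have e1 : a' = a := by
        rw [ea', show θ - θ' * c = 0 by linarith]; simp
      have e2 : b' = b := by
        rw [eb', show θ + (1 - θ') * c = 1 by linarith]; simp
      rw [e1, e2]
  -- the subdivision
  have hsub : IsSubdiv A Q T := by
    refine ⟨?_, ?_, ?_, ?_⟩
    · intro t ht
      exact ⟨((hTm t).1 ht).1.1, ((hTm t).1 ht).1.2, hTne t ht⟩
    · intro t ht t' ht' hne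
      rw [Set.disjoint_left]
      intro z hz hz'
      exact hne (hdisj t ht t' ht' z hz hz')
    · intro t ht q hq hq'
      exact (((hTm t).1 ht).2.2 q hq').2 hq
    · apply Set.Subset.antisymm
      · intro z hz
        by_cases hzQ : z ∈ (Q : Set ℂ)
        · exact Or.inl hzQ
        · right
          obtain ⟨d, hd, ρ, hρ, hline⟩ := hreg z hz hzQ
          have hnd : 0 < ‖d‖ := norm_pos_iff.2 hd
          have hsmall : ∀ s : ℝ, |s| < ρ / ‖d‖ → z + (s : ℂ) * d ∈ A := by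
            intro s hs
            refine (hline _ ?_).2 ⟨s, rfl⟩
            rw [add_sub_cancel_left, norm_mul, Complex.norm_real, Real.norm_eq_abs]
            rwa [lt_div_iff₀ hnd] at hs
          have hρd : 0 < ρ / ‖d‖ := by positivity
          obtain ⟨s1, hs1, hb1, hs1'⟩ := Subdiv_ext hA hbd Q.finite_toSet hreg hd hz hzQ hρd
            (fun s h0 h1 => hsmall s (by rwa [abs_of_pos h0]))
          obtain ⟨s2, hs2, hb2, hs2'⟩ := Subdiv_ext hA hbd Q.finite_toSet hreg
            (neg_ne_zero.2 hd) hz hzQ hρd (fun s h0 h1 => by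
              have h2 := hsmall (-s) (by rwa [abs_neg, abs_of_pos h0])
              have h3 : z + (s : ℂ) * -d = z + ((-s : ℝ) : ℂ) * d := by push_cast; ring
              rw [h3]
              exact h2)
          set b := z + (s1 : ℂ) * d with hb
          set a := z + (s2 : ℂ) * -d with ha
          have hba : b - a = ((s1 + s2 : ℝ) : ℂ) * d := by
            rw [hb, ha]; push_cast; ring
          have hpos : 0 < s1 + s2 := by linarith
          have hab : a ≠ b := by
            intro h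
            have h1 : b - a = 0 := by rw [h, sub_self]
            rw [hba] at h1
            rcases mul_eq_zero.1 h1 with h2 | h2
            · exact hpos.ne' (by exact_mod_cast h2)
            · exact hd h2
          have hseg : ∀ x ∈ openSegment ℝ a b, x ∈ A ∧ x ∉ Q := by
            intro x hx
            obtain ⟨t, ht0, ht1, rfl⟩ := (Subdiv_seg a b x).1 hx
            have e1 : a + (t : ℂ) * (b - a) = z + ((-s2 + t * (s1 + s2) : ℝ) : ℂ) * d := by
              rw [hba, ha]; push_cast; ring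
            rcases le_or_gt 0 (-s2 + t * (s1 + s2)) with h1 | h1
            · have h2 := hs1' _ h1 (by nlinarith)
              rw [← e1] at h2
              exact ⟨h2.1, by simpa using h2.2⟩
            · have h2 := hs2' (-(-s2 + t * (s1 + s2))) (by linarith) (by nlinarith)
              have e2 : z + ((-(-s2 + t * (s1 + s2)) : ℝ) : ℂ) * -d =
                  z + ((-s2 + t * (s1 + s2) : ℝ) : ℂ) * d := by push_cast; ring
              rw [e2, ← e1] at h2
              exact ⟨h2.1, by simpa using h2.2⟩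
          have hzab : z ∈ openSegment ℝ a b := by
            refine (Subdiv_seg a b z).2 ⟨s2 / (s1 + s2), by positivity, ?_, ?_⟩
            · rw [div_lt_one hpos]; linarith
            · have h1 : ((s1 + s2 : ℝ) : ℂ) ≠ 0 := by exact_mod_cast hpos.ne'
              rw [hba, ha]
              push_cast at h1 ⊢
              field_simp
              ring
          rcases Subdiv_tot hab with hlt | hlt
          · refine mem_biUnion (x := (a, b)) ?_ hzab
            exact (hTm (a, b)).2 ⟨⟨by simpa using hb2, by simpa using hb1⟩, hlt, hseg⟩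
          · refine mem_biUnion (x := (b, a)) ?_ (by rw [openSegment_symm]; exact hzab)
            refine (hTm (b, a)).2 ⟨⟨by simpa using hb1, by simpa using hb2⟩, hlt, ?_⟩
            intro x hx
            rw [openSegment_symm] at hx
            exact hseg x hx
      · intro z hz
        rcases hz with hz | hz
        · exact ((hQ z).1 (by simpa using hz)).1
        · obtain ⟨t, ht, hzt⟩ := mem_iUnion₂.1 hz
          exact (((hTm t).1 ht).2.2 z hzt).1
  refine ⟨Q, T, hsub, hQ, ?_⟩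
  -- every segment of `T` lies in some segment of `E`
  have hin : ∀ t ∈ T, ∃ e ∈ E, t.1 ∈ segment ℝ e.1 e.2 ∧ t.2 ∈ segment ℝ e.1 e.2 := by
    rintro ⟨a, b⟩ ht
    have hab := hTne _ ht
    obtain ⟨⟨haQ, hbQ⟩, hlt, hseg⟩ := (hTm _).1 ht
    simp only at hab haQ hbQ hlt hseg ⊢
    have hv : b - a ≠ 0 := sub_ne_zero.2 hab.symm
    have hinf : (openSegment ℝ a b).Infinite := by
      rw [openSegment_eq_image']
      refine (Set.Ioo_infinite (zero_lt_one' ℝ)).image ?_
      intro x _ y _ hxy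
      simp only [add_right_inj, Complex.real_smul] at hxy
      exact_mod_cast mul_right_cancel₀ hv hxy
    have hch : ∀ x : ℂ, ∃ e : ℂ × ℂ, x ∈ openSegment ℝ a b → e ∈ E ∧ x ∈ segment ℝ e.1 e.2 := by
      intro x
      by_cases hx : x ∈ openSegment ℝ a b
      · obtain ⟨e, he, hxe⟩ := hcov x (hseg x hx).1
        exact ⟨e, fun _ => ⟨he, hxe⟩⟩
      · exact ⟨(0, 0), fun h => absurd h hx⟩
    choose g hg using hch
    obtain ⟨x, hx, y, hy, hxy, hgxy⟩ := hinf.exists_ne_map_eq_of_mapsTo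
      (f := g) (t := (E : Set (ℂ × ℂ))) (fun x hx => (hg x hx).1) E.finite_toSet
    obtain ⟨he, hxe⟩ := hg x hx
    have hye := (hg y hy).2
    rw [← hgxy] at hye
    set e := g x with hedef
    obtain ⟨θ1, h10, h11, hx'⟩ := (Subdiv_seg a b x).1 hx
    obtain ⟨θ2, h20, h21, hy'⟩ := (Subdiv_seg a b y).1 hy
    obtain ⟨l1, k10, k11, hxl⟩ := (Subdiv_cseg e.1 e.2 x).1 hxe
    obtain ⟨l2, k20, k21, hyl⟩ := (Subdiv_cseg e.1 e.2 y).1 hye
    have hl : l2 - l1 ≠ 0 := by
      intro h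
      have h1 : l1 = l2 := by linarith
      apply hxy
      rw [hxl, hyl, h1]
    have hlc : ((l2 : ℂ) - l1) ≠ 0 := by
      have : ((l2 - l1 : ℝ) : ℂ) ≠ 0 := by exact_mod_cast hl
      push_cast at this
      exact this
    set c : ℝ := (θ2 - θ1) / (l2 - l1) with hc
    have hcv : e.2 - e.1 = (c : ℂ) * (b - a) := by
      rw [hc]
      push_cast
      field_simp
      linear_combination hy' - hx' + hxl - hyl
    have e1 : e.1 = a + ((θ1 - l1 * c : ℝ) : ℂ) * (b - a) := by
      have h1 : e.1 = x - (l1 : ℂ) * (e.2 - e.1) := by rw [hxl]; ring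
      rw [h1, hcv, hx']; push_cast; ring
    have e2 : e.2 = a + ((θ1 + (1 - l1) * c : ℝ) : ℂ) * (b - a) := by
      have h1 : e.2 = x + ((1 : ℂ) - l1) * (e.2 - e.1) := by rw [hxl]; ring
      rw [h1, hcv, hx']; push_cast; ring
    have n1 : ¬ (0 < θ1 - l1 * c ∧ θ1 - l1 * c < 1) := by
      intro hh
      have h1 := hseg _ ((Subdiv_seg a b e.1).2 ⟨_, hh.1, hh.2, e1⟩)
      exact h1.2 ((hQ _).2 ⟨h1.1, Or.inr ⟨e, he, Or.inl rfl⟩⟩)
    have n2 : ¬ (0 < θ1 + (1 - l1) * c ∧ θ1 + (1 - l1) * c < 1) := by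
      intro hh
      have h1 := hseg _ ((Subdiv_seg a b e.2).2 ⟨_, hh.1, hh.2, e2⟩)
      exact h1.2 ((hQ _).2 ⟨h1.1, Or.inr ⟨e, he, Or.inr rfl⟩⟩)
    have hc0 : c ≠ 0 := by
      intro h0
      rw [h0] at hcv
      simp only [Complex.ofReal_zero, zero_mul] at hcv
      exact hE e he (sub_eq_zero.1 hcv).symm
    have hcc : (c : ℂ) ≠ 0 := by exact_mod_cast hc0
    refine ⟨e, he, ?_⟩
    -- the parameters of `a` and `b` along `e`
    have ea : a = e.1 + ((-(θ1 - l1 * c) / c : ℝ) : ℂ) * (e.2 - e.1) := by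
      rw [hcv]
      nth_rewrite 1 [e1]
      push_cast
      field_simp
      ring
    have eb : b = e.1 + (((1 - (θ1 - l1 * c)) / c : ℝ) : ℂ) * (e.2 - e.1) := by
      rw [hcv]
      nth_rewrite 1 [e1]
      push_cast
      field_simp
      ring
    rcases lt_or_gt_of_ne hc0 with hneg | hpos
    · have m1 : 0 ≤ l1 * (-c) := mul_nonneg k10 (by linarith)
      have m2 : 0 ≤ (1 - l1) * (-c) := mul_nonneg (by linarith) (by linarith)
      have q1 : 1 ≤ θ1 - l1 * c := by
        by_contra hk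
        exact n1 ⟨by nlinarith, by linarith⟩
      have q2 : θ1 + (1 - l1) * c ≤ 0 := by
        by_contra hk
        exact n2 ⟨by linarith, by nlinarith⟩
      constructor
      · refine (Subdiv_cseg _ _ _).2 ⟨_, ?_, ?_, ea⟩
        · exact div_nonneg_of_nonpos (by linarith) hneg.le
        · rw [div_le_one_of_neg hneg]; nlinarith
      · refine (Subdiv_cseg _ _ _).2 ⟨_, ?_, ?_, eb⟩
        · exact div_nonneg_of_nonpos (by linarith) hneg.le
        · rw [div_le_one_of_neg hneg]; nlinarith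
    · have m1 : 0 ≤ l1 * c := mul_nonneg k10 hpos.le
      have m2 : 0 ≤ (1 - l1) * c := mul_nonneg (by linarith) hpos.le
      have q1 : θ1 - l1 * c ≤ 0 := by
        by_contra hk
        exact n1 ⟨by linarith, by linarith⟩
      have q2 : 1 ≤ θ1 + (1 - l1) * c := by
        by_contra hk
        exact n2 ⟨by linarith, by linarith⟩
      constructor
      · refine (Subdiv_cseg _ _ _).2 ⟨_, ?_, ?_, ea⟩
        · exact div_nonneg (by linarith) hpos.le
        · rw [div_le_one hpos]; nlinarith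
      · refine (Subdiv_cseg _ _ _).2 ⟨_, ?_, ?_, eb⟩
        · exact div_nonneg (by linarith) hpos.le
        · rw [div_le_one hpos]; nlinarith
  intro B hB
  have hcover : T ⊆ E.biUnion fun e => T.filter fun t =>
      t.1 ∈ segment ℝ e.1 e.2 ∧ t.2 ∈ segment ℝ e.1 e.2 := by
    intro t ht
    obtain ⟨e, he, h1⟩ := hin t ht
    exact Finset.mem_biUnion.2 ⟨e, he, Finset.mem_filter.2 ⟨ht, h1⟩⟩
  refine (Finset.card_le_card hcover).trans (Finset.card_biUnion_le.trans (Finset.sum_le_sum ?_))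
  intro e he
  have hinj : Set.InjOn Prod.fst ((T.filter fun t =>
      t.1 ∈ segment ℝ e.1 e.2 ∧ t.2 ∈ segment ℝ e.1 e.2 : Finset (ℂ × ℂ)) : Set (ℂ × ℂ)) := by
    rintro ⟨a, b⟩ ht ⟨a', b'⟩ ht' haa
    simp only at haa
    subst haa
    rw [Finset.mem_coe, Finset.mem_filter] at ht ht'
    obtain ⟨ht, hta, htb⟩ := ht
    obtain ⟨ht', -, htb'⟩ := ht'
    simp only at hta htb htb'
    obtain ⟨l0, -, -, h0⟩ := (Subdiv_cseg _ _ _).1 hta
    obtain ⟨l1, -, -, h1⟩ := (Subdiv_cseg _ _ _).1 htb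
    obtain ⟨l2, -, -, h2⟩ := (Subdiv_cseg _ _ _).1 htb'
    have e1 : b = a + ((l1 - l0 : ℝ) : ℂ) * (e.2 - e.1) := by
      rw [h1]; nth_rewrite 1 [h0]; push_cast; ring
    have e2 : b' = a + ((l2 - l0 : ℝ) : ℂ) * (e.2 - e.1) := by
      rw [h2]; nth_rewrite 1 [h0]; push_cast; ring
    have hlt := ((hTm _).1 ht).2.1
    have hlt' := ((hTm _).1 ht').2.1
    simp only at hlt hlt'
    rw [e1] at hlt
    rw [e2] at hlt'
    have hpos := Subdiv_scale hlt hlt'
    set c1 := l1 - l0 with hc1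
    set c2 := l2 - l0 with hc2
    have hc1' : c1 ≠ 0 := by rintro h; rw [h] at hpos; simp at hpos
    have hc2' : c2 ≠ 0 := by rintro h; rw [h] at hpos; simp at hpos
    have hs : 0 < |c1| + |c2| := by
      have := abs_pos.2 hc1'
      have := abs_nonneg c2
      linarith
    have hkey : |c2| * c1 = |c1| * c2 := by
      rcases lt_or_gt_of_ne hc1' with h3 | h3
      · have h4 : c2 < 0 := by nlinarith
        rw [abs_of_neg h3, abs_of_neg h4]; ring
      · have h4 : 0 < c2 := by nlinarith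
        rw [abs_of_pos h3, abs_of_pos h4]; ring
    have z1 : a + (((|c2| / (|c1| + |c2|)) * c1 : ℝ) : ℂ) * (e.2 - e.1) ∈ openSegment ℝ a b := by
      refine (Subdiv_seg _ _ _).2 ⟨|c2| / (|c1| + |c2|), div_pos (abs_pos.2 hc2') hs, ?_, ?_⟩
      · rw [div_lt_one hs]
        have := abs_pos.2 hc1'
        linarith
      · rw [e1]; push_cast; ring
    have z2 : a + (((|c2| / (|c1| + |c2|)) * c1 : ℝ) : ℂ) * (e.2 - e.1) ∈ openSegment ℝ a b' := by
      refine (Subdiv_seg _ _ _).2 ⟨|c1| / (|c1| + |c2|), div_pos (abs_pos.2 hc1') hs, ?_, ?_⟩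
      · rw [div_lt_one hs]
        have := abs_pos.2 hc2'
        linarith
      · have h5 : (|c2| / (|c1| + |c2|)) * c1 = (|c1| / (|c1| + |c2|)) * c2 := by
          rw [div_mul_eq_mul_div, div_mul_eq_mul_div, hkey]
        rw [h5, e2]; push_cast; ring
    exact hdisj _ ht _ ht' _ z1 z2
  rw [← Finset.card_image_of_injOn hinj]
  refine hB e he _ ?_
  intro z hz
  obtain ⟨t, ht, rfl⟩ := Finset.mem_image.1 hz
  rw [Finset.mem_filter] at ht
  exact ⟨((hTm t).1 ht.1).1.1, ht.2.1⟩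

end Pool.Agent.Lib_PL
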