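import Pool.Agent.Lib_PL.RecBase

/-!
Theorem B: on a free segment the lit part has at most `cB K * n` components.

Induction on `K`.  `K = 0`: `VV_zero_int`.  `K + 1`: let `M_t` be the component of the lit part containing the point `t`: the points `z`
of the open segment `w` such that the segment from `z_t` to `z` is in `VV p (K+1)`.  (i) the `t` such that `M_t` meets `VV p K`: replace `t` by
a point of `M_t ∩ VV p K`; induction.  (ii) the others: `z_t` sees a component `X` of `Bp p K` (`VV_succ`; take it with `0 ≤ X.i < n`);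
all points of `w` which see `X` are in `M_t` (`VV_succ_int`), so `t ↦ X` is injective; cornered `X`: at most `2 n`; otherwise
`Y = core K X`, `rec_step` with `Ω = {ω1, ω2}`, `MM` = the sets `M_t`, `rep_chord`, `K' = K`, `L = K`, `N = c2 K 2 K * n`, `a = 3 n` (`t1b_count`
with `K = L + 1`; for `K = 0` all levels are `0`, so nothing is hooked).
-/

open Set Complex
open scoped Topology

namespace Pool.Agent.Lib_PL

/-- constant of Theorem B -/
def cB : ℕ → ℕ
  | 0 => 1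
  | K + 1 => cB K + (2 + 1 + 6 + (K + 1) * 4 * (2 + c2 K 2 K))

private theorem TypeB_seg (A B : ℂ) {a b c : ℝ} (h : c ∈ uIcc a b) :
    A + (c : ℂ) * (B - A) ∈ segment ℝ (A + (a : ℂ) * (B - A)) (A + (b : ℂ) * (B - A)) := by
  have hL : ∀ t : ℝ, AffineMap.lineMap (k := ℝ) A B t = A + (t : ℂ) * (B - A) := by
    intro t
    rw [AffineMap.lineMap_apply]
    simp only [vsub_eq_sub, vadd_eq_add, Complex.real_smul]
    ring
  rw [← hL, ← hL, ← hL, ← image_segment, segment_eq_uIcc]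
  exact ⟨c, h, rfl⟩

private theorem TypeB_open (A B z : ℂ) : z ∈ openSegment ℝ A B ↔
    ∃ t : ℝ, 0 < t ∧ t < 1 ∧ A + (t : ℂ) * (B - A) = z := by
  rw [openSegment_eq_image']
  constructor
  · rintro ⟨t, ht, rfl⟩
    exact ⟨t, ht.1, ht.2, by simp only [Complex.real_smul]⟩
  · rintro ⟨t, h0, h1, rfl⟩
    exact ⟨t, ⟨h0, h1⟩, by simp only [Complex.real_smul]⟩

namespace Poly

variable {n : ℕ} (P : Poly n)

/-- component of the lit part of an open segment -/
private def TypeB_M (p : ℂ) (k : ℕ) (A B c : ℂ) : Set ℂ :=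
  {z | z ∈ openSegment ℝ A B ∧ segment ℝ c z ⊆ P.VV p k}

private theorem TypeB_M_con {p : ℂ} {k : ℕ} {A B c : ℂ} (hc : c ∈ openSegment ℝ A B) :
    IsPreconnected (P.TypeB_M p k A B c) := by
  refine isPreconnected_of_forall c fun z hz => ⟨segment ℝ c z, ?_, left_mem_segment ℝ _ _,
    right_mem_segment ℝ _ _, (convex_segment c z).isPreconnected⟩
  intro z' hz'
  refine ⟨(convex_openSegment A B).segment_subset hc hz.1 hz', fun u hu => hz.2 ?_⟩
  exact (convex_segment c z).segment_subset (left_mem_segment ℝ _ _) hz' hu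

private theorem TypeB_zero (hc : P.CCW) (p : ℂ) {A B : ℂ} (hw : P.Vis A B)
    (T : Finset ℝ) (hT : ∀ t ∈ T, 0 < t ∧ t < 1 ∧ A + (t : ℂ) * (B - A) ∈ P.VV p 0)
    (hsep : ∀ t ∈ T, ∀ t' ∈ T, t < t' → ∃ τ, t < τ ∧ τ < t' ∧
      A + (τ : ℂ) * (B - A) ∉ P.VV p 0) : T.card ≤ 1 := by
  rw [Finset.card_le_one]
  have key : ∀ t ∈ T, ∀ t' ∈ T, ¬ t < t' := by
    intro t ht t' ht' hlt
    obtain ⟨τ, h1, h2, h3⟩ := hsep t ht t' ht' hlt
    obtain ⟨a1, a2, a3⟩ := hT t ht
    obtain ⟨b1, b2, b3⟩ := hT t' ht'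
    refine h3 (P.VV_zero_int hc hw ((TypeB_open _ _ _).2 ⟨t, a1, a2, rfl⟩)
      ((TypeB_open _ _ _).2 ⟨t', b1, b2, rfl⟩) a3 b3 (TypeB_seg A B ?_))
    exact mem_uIcc_of_le h1.le h2.le
  intro t ht t' ht'
  rcases lt_trichotomy t t' with h | h | h
  · exact absurd h (key t ht t' ht')
  · exact h
  · exact absurd h (key t' ht' t ht)

theorem thmB (hc : P.CCW) (p : ℂ) (K : ℕ) {ω1 ω2 : ℝ} (hw : P.Vis (P.γ ω1) (P.γ ω2))
    (T : Finset ℝ)
    (hT : ∀ t ∈ T, 0 < t ∧ t < 1 ∧ P.γ ω1 + (t : ℂ) * (P.γ ω2 - P.γ ω1) ∈ P.VV p K)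
    (hsep : ∀ t ∈ T, ∀ t' ∈ T, t < t' → ∃ τ, t < τ ∧ τ < t' ∧
      P.γ ω1 + (τ : ℂ) * (P.γ ω2 - P.γ ω1) ∉ P.VV p K) : T.card ≤ cB K * n := by
  classical
  induction K generalizing T with
  | zero =>
    have h1 := P.TypeB_zero hc p hw T hT hsep
    have h2 := P.three_le
    simp only [cB, one_mul]
    omega
  | succ K ih =>
    set A := P.γ ω1 with hA
    set B := P.γ ω2 with hB
    set pt : ℝ → ℂ := fun t => A + (t : ℂ) * (B - A) with hpt
    set M : ℝ → Set ℂ := fun t => P.TypeB_M p (K + 1) A B (pt t) with hM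
    have hopen : ∀ t : ℝ, 0 < t → t < 1 → pt t ∈ openSegment ℝ A B := fun t h0 h1 =>
      (TypeB_open _ _ _).2 ⟨t, h0, h1, rfl⟩
    have hself : ∀ t ∈ T, pt t ∈ M t := by
      intro t ht
      refine ⟨hopen t (hT t ht).1 (hT t ht).2.1, ?_⟩
      rw [segment_same]
      rintro z rfl
      exact (hT t ht).2.2
    -- separation
    have hnosee : ∀ t ∈ T, ∀ t' ∈ T, t < t' → pt t' ∉ M t := by
      intro t ht t' ht' hlt hmem
      obtain ⟨τ, h1, h2, h3⟩ := hsep t ht t' ht' hlt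
      exact h3 (hmem.2 (TypeB_seg A B (mem_uIcc_of_le h1.le h2.le)))
    -- (i)
    set T1 := T.filter (fun t => ∃ z ∈ M t, z ∈ P.VV p K) with hT1
    set T2 := T.filter (fun t => ¬ ∃ z ∈ M t, z ∈ P.VV p K) with hT2
    have hcard : T1.card + T2.card = T.card := Finset.card_filter_add_card_filter_not _
    have hi : T1.card ≤ cB K * n := by
      have hex : ∀ t ∈ T1, ∃ τ : ℝ, 0 < τ ∧ τ < 1 ∧ pt τ ∈ M t ∧ pt τ ∈ P.VV p K := by
        intro t ht
        obtain ⟨z, hz, hz'⟩ := (Finset.mem_filter.1 ht).2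
        obtain ⟨τ, h0, h1, rfl⟩ := (TypeB_open _ _ _).1 hz.1
        exact ⟨τ, h0, h1, hz, hz'⟩
      choose! f hf using hex
      have hmono : ∀ t ∈ T1, ∀ t' ∈ T1, t < t' → ∃ τ, f t < τ ∧ τ < f t' ∧
          pt τ ∉ P.VV p (K + 1) := by
        intro t ht t' ht' hlt
        obtain ⟨τ, h1, h2, h3⟩ := hsep t (Finset.mem_filter.1 ht).1 t' (Finset.mem_filter.1 ht').1 hlt
        refine ⟨τ, ?_, ?_, h3⟩
        · by_contra h
          exact h3 ((hf t ht).2.2.1.2 (TypeB_seg A B (mem_uIcc_of_le h1.le (not_lt.1 h))))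
        · by_contra h
          exact h3 ((hf t' ht').2.2.1.2 (TypeB_seg A B (mem_uIcc_of_ge (not_lt.1 h) h2.le)))
      have hinj : Set.InjOn f (T1 : Set ℝ) := by
        intro t ht t' ht' he
        rcases lt_trichotomy t t' with h | h | h
        · obtain ⟨τ, h1, h2, -⟩ := hmono t ht t' ht' h
          rw [he] at h1
          exact absurd (h1.trans h2) (lt_irrefl _)
        · exact h
        · obtain ⟨τ, h1, h2, -⟩ := hmono t' ht' t ht h
          rw [he] at h2
          exact absurd (h1.trans h2) (lt_irrefl _)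
      rw [← Finset.card_image_of_injOn hinj]
      refine ih _ ?_ ?_
      · intro u hu
        obtain ⟨t, ht, rfl⟩ := Finset.mem_image.1 hu
        exact ⟨(hf t ht).1, (hf t ht).2.1, (hf t ht).2.2.2⟩
      · intro u hu u' hu' hlt
        obtain ⟨t, ht, rfl⟩ := Finset.mem_image.1 hu
        obtain ⟨t', ht', rfl⟩ := Finset.mem_image.1 hu'
        rcases lt_trichotomy t t' with h | h | h
        · obtain ⟨τ, h1, h2, h3⟩ := hmono t ht t' ht' h
          exact ⟨τ, h1, h2, fun h4 => h3 (P.VV_mono p (Nat.le_succ K) h4)⟩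
        · rw [h] at hlt
          exact absurd hlt (lt_irrefl _)
        · obtain ⟨τ, h1, h2, -⟩ := hmono t' ht' t ht h
          exact absurd (h1.trans h2) (not_lt.2 hlt.le)
    -- (ii)
    have hT2T : ∀ t ∈ T2, t ∈ T := fun t ht => (Finset.mem_filter.1 ht).1
    have hT2n : ∀ t ∈ T2, ∀ z ∈ M t, z ∉ P.VV p K := fun t ht z hz hz' =>
      (Finset.mem_filter.1 ht).2 ⟨z, hz, hz'⟩
    have hex : ∀ t ∈ T2, ∃ X : Arc, P.IsComp p K X ∧ 0 ≤ X.i ∧ X.i < n ∧
        ∃ x ∈ X.s, P.Vis (P.γ x) (pt t) := by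
      intro t ht
      have h1 := (hT t (hT2T t ht)).2.2
      rcases (P.VV_succ p _ K).1 h1 with h2 | ⟨-, x, hx, hv⟩
      · exact absurd (P.VV_mono p (Nat.zero_le K) h2) (hT2n t ht _ (hself t (hT2T t ht)))
      · obtain ⟨X, hX, hxX⟩ := P.exists_comp hc hx
        obtain ⟨m, hm0, hmn⟩ := P.canon X
        refine ⟨X.sh (m * n), P.comp_sh m hX, hm0, hmn, x + m * n, ?_, ?_⟩
        · rw [Arc.mem_sh]
          push_cast
          rw [add_sub_cancel_right]
          exact hxX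
        · rw [P.γ_add_mul]
          exact hv
    haveI : Nonempty Arc := ⟨⟨0, 0, 0⟩⟩
    choose! X hX using hex
    have hall : ∀ t ∈ T2, ∀ z ∈ openSegment ℝ A B, (∃ x ∈ (X t).s, P.Vis (P.γ x) z) → z ∈ M t := by
      rintro t ht z hz ⟨x', hx', hv'⟩
      obtain ⟨hXc, -, -, x, hx, hv⟩ := hX t ht
      have e1 := hXc.mem_floor hx
      have e2 := hXc.mem_floor hx'
      refine ⟨hz, P.VV_succ_int hc hw (hopen t (hT t (hT2T t ht)).1 (hT t (hT2T t ht)).2.1) hz
        e1.1 e1.2.1 e2.1 e2.2.1 ?_ hv hv'⟩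
      intro y hy
      refine hXc.sub ⟨lt_of_lt_of_le (lt_min hx.1 hx'.1) hy.1, lt_of_le_of_lt hy.2 (max_lt hx.2 hx'.2)⟩
    have hXinj : Set.InjOn X (T2 : Set ℝ) := by
      have key : ∀ t ∈ T2, ∀ t' ∈ T2, t < t' → X t ≠ X t' := by
        intro t ht t' ht' hlt he
        refine hnosee t (hT2T t ht) t' (hT2T t' ht') hlt (hall t ht _
          (hopen t' (hT t' (hT2T t' ht')).1 (hT t' (hT2T t' ht')).2.1) ?_)
        rw [he]
        exact (hX t' ht').2.2.2
      intro t ht t' ht' he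
      rcases lt_trichotomy t t' with h | h | h
      · exact absurd he (key t ht t' ht' h)
      · exact h
      · exact absurd he.symm (key t' ht' t ht h)
    set T2c := T2.filter (fun t => (X t).Cornered) with hT2c
    set T3 := T2.filter (fun t => ¬ (X t).Cornered) with hT3
    have hcard2 : T2c.card + T3.card = T2.card := Finset.card_filter_add_card_filter_not _
    have hT3T : ∀ t ∈ T3, t ∈ T2 := fun t ht => (Finset.mem_filter.1 ht).1
    have hcor : T2c.card ≤ 2 * n := by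
      have hinj : Set.InjOn X (T2c : Set ℝ) := fun t ht t' ht' he =>
        hXinj (Finset.mem_filter.1 ht).1 (Finset.mem_filter.1 ht').1 he
      rw [← Finset.card_image_of_injOn hinj]
      refine P.cornered_count (p := p) (k := K) _ ?_
      intro Z hZ
      obtain ⟨t, ht, rfl⟩ := Finset.mem_image.1 hZ
      obtain ⟨h1, h2⟩ := Finset.mem_filter.1 ht
      exact ⟨(hX t h1).1, h2, (hX t h1).2.1, (hX t h1).2.2.1⟩
    obtain ⟨par, hpar⟩ := P.exists_par hc p
    obtain ⟨core, lev, hcore⟩ := P.exists_core hc p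
    set Ω : Finset ℝ := {ω1, ω2} with hΩdef
    have hne : ω1 ≠ ω2 := by
      intro h
      exact hw.ne (by rw [h])
    have hΩc : Ω.card = 2 := Finset.card_pair hne
    have hΩ : ∀ ω ∈ Ω, ∀ ω' ∈ Ω, ω ≠ ω' → P.Vis (P.γ ω) (P.γ ω') := by
      intro ω h ω' h' hn
      rw [hΩdef, Finset.mem_insert, Finset.mem_singleton] at h h'
      rcases h with rfl | rfl <;> rcases h' with rfl | rfl
      · exact absurd rfl hn
      · exact hw
      · exact hw.symm
      · exact absurd rfl hn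
    set MM : Set (Set ℂ) := {S | ∃ t ∈ T2, S = M t} with hMM
    have hMM' : ∀ N ∈ MM, N.Nonempty ∧ ∀ l, l + 1 ≤ K → ∀ S, P.IsComp p l S →
        ∃ ω ∈ Ω, P.Rep N S ω := by
      rintro N ⟨t, ht, rfl⟩
      refine ⟨⟨_, hself t (hT2T t ht)⟩, fun l hl S hS => ?_⟩
      have h1 := P.rep_chord hc (M := M t) hw (fun z hz => hz.1) ⟨_, hself t (hT2T t ht)⟩
        (P.TypeB_M_con (hopen t (hT t (hT2T t ht)).1 (hT t (hT2T t ht)).2.1)) hS.ia hS.bi ?_
      · rcases h1 with h1 | h1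
        · exact ⟨ω1, by simp [hΩdef], h1⟩
        · exact ⟨ω2, by simp [hΩdef], h1⟩
      · intro z hz s hs hv
        exact hT2n t ht z hz (P.VV_mono p hl (P.VV_of_vis (hS.sub hs) hv))
    have hcx : ∀ t ∈ T3, lev K (X t) ≤ K ∧ P.Exact p (lev K (X t)) (core K (X t)) ∧
        (core K (X t)).s ⊆ (X t).s ∧ (core K (X t)).i = (X t).i ∧ ¬ (core K (X t)).Cornered := by
      intro t ht
      obtain ⟨h1, h2, h3, h4, h5⟩ := hcore.ex K (X t) (hX t (hT3T t ht)).1
      exact ⟨h1, h2, h3, h4, h5 (Finset.mem_filter.1 ht).2⟩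
    have hYinj : Set.InjOn (fun t => core K (X t)) (T3 : Set ℝ) := by
      intro t ht t' ht' he
      have he' : core K (X t) = core K (X t') := he
      obtain ⟨-, h2, h3, -, -⟩ := hcx t ht
      obtain ⟨-, -, h3', -, -⟩ := hcx t' ht'
      have hmid : ((core K (X t)).a + (core K (X t)).b) / 2 ∈ (core K (X t)).s := by
        have := h2.1.ab
        constructor <;> linarith
      have h4 := h3 hmid
      rw [he'] at hmid h4
      exact hXinj (hT3T t ht) (hT3T t' ht')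
        (P.comp_unique (hX t (hT3T t ht)).1 (hX t' (hT3T t' ht')).1 h4 (h3' hmid))
    set F := T3.image (fun t => core K (X t)) with hFdef
    have hFcard : F.card = T3.card := Finset.card_image_of_injOn hYinj
    have hg : ∀ Y ∈ F, ∃ t ∈ T3, core K (X t) = Y := fun Y hY => Finset.mem_image.1 hY
    choose! g hg using hg
    have hginj : Set.InjOn (fun Y => X (g Y)) (F : Set Arc) := by
      intro Y hY Y' hY' he
      have h1 := hXinj (hT3T _ (hg Y hY).1) (hT3T _ (hg Y' hY').1) he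
      rw [← (hg Y hY).2, h1, (hg Y' hY').2]
    -- the data of a hooked item
    have hdata : ∀ Y ∈ F, ∀ l, lev K (X (g Y)) = l + 1 → ∀ m : ℤ,
        ((par l Y).sh (m * n)).i < Y.i → Y.i < ((par l Y).sh (m * n)).i + n →
        Y.i = (X (g Y)).i ∧ P.HBase Ω ((par l Y).sh (m * n)) (X (g Y)) (M (g Y)) ∧
        P.T1B p ω1 ω2 (K - 1) ((par l Y).sh (m * n)) (X (g Y)) (M (g Y)) := by
      intro Y hY l hl m ij ji
      obtain ⟨h3, hYe⟩ := hg Y hY
      have hg2 := hT3T _ h3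
      obtain ⟨c1, c2', c3, c4, c5⟩ := hcx _ h3
      rw [hYe] at c2' c3 c4 c5
      rw [hl] at c1 c2'
      have hK : K - 1 + 1 = K := by omega
      refine ⟨c4, ?_, ?_⟩
      · refine P.hbase_of hc hpar (hX _ hg2).1 (Finset.mem_filter.1 h3).2 c2' c3 c4
          ⟨_, hself _ (hT2T _ hg2)⟩ ?_ (by rw [← c4]; exact ij) (by rw [← c4]; exact ji)
        exact (hMM' _ ⟨_, hg2, rfl⟩).2 l c1 _ (hpar.comp l Y c2')
      · refine ⟨hw, ?_, ?_, fun z hz => hz.1,
          P.TypeB_M_con (hopen _ (hT _ (hT2T _ hg2)).1 (hT _ (hT2T _ hg2)).2.1), ?_, ?_,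
          hall _ hg2⟩
        · exact ((P.comp_sh m (hpar.comp l Y c2')).sub).trans (P.Bp_mono p (by omega))
        · rw [hK]
          exact (hX _ hg2).1
        · rw [hK]
          exact hT2n _ hg2
        · exact ⟨_, hself _ (hT2T _ hg2), (hX _ hg2).2.2.2⟩
    have hrec := P.rec_step hc hpar hcore Ω MM K K hMM' (c2 K 2 K * n) (3 * n) ?_ F
      (fun Y => lev K (X (g Y))) (fun Y => M (g Y)) ?_ ?_ ?_
    · rw [hΩc] at hrec
      have e : cB (K + 1) = cB K + (2 + 1 + 6 + (K + 1) * 4 * (2 + c2 K 2 K)) := rfl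
      have e2 : n + 2 * (3 * n) + (K + 1) * (2 * 2) * (2 * n + c2 K 2 K * n) =
          (1 + 6 + (K + 1) * 4 * (2 + c2 K 2 K)) * n := by ring
      rw [e2, hFcard] at hrec
      have e3 : cB (K + 1) * n = cB K * n + 2 * n + (1 + 6 + (K + 1) * 4 * (2 + c2 K 2 K)) * n := by
        rw [e]
        ring
      rw [e3]
      omega
    · intro G hG
      have h1 := P.rec2 hc hpar hcore Ω hΩ MM K hMM' K G hG
      rw [hΩc] at h1
      exact h1
    · intro Y hY
      obtain ⟨h3, hYe⟩ := hg Y hY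
      have hg2 := hT3T _ h3
      obtain ⟨c1, c2', c3, c4, c5⟩ := hcx _ h3
      rw [hYe] at c2' c3 c4 c5
      refine ⟨?_, ?_, c5, c2', by show lev K (X (g Y)) ≤ K + 1; omega, c1, ⟨_, hg2, rfl⟩⟩
      · rw [c4]
        exact (hX _ hg2).2.1
      · rw [c4]
        exact (hX _ hg2).2.2.1
    · intro G hG hGh
      rw [← Finset.card_image_of_injOn (f := fun Y => X (g Y)) (s := G) (hginj.mono (by exact_mod_cast hG))]
      refine P.t1b_count hc (p := p) (ω1 := ω1) (ω2 := ω2) (L := K - 1) _ ?_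
      intro Z hZ
      obtain ⟨Y, hY, rfl⟩ := Finset.mem_image.1 hZ
      have hg2 := hT3T _ (hg Y (hG hY)).1
      obtain ⟨l, hl, m, ij, ji, hk⟩ := hGh Y hY
      obtain ⟨d1, d2, d3⟩ := hdata Y (hG hY) l hl m ij ji
      refine ⟨(hX _ hg2).2.1, (hX _ hg2).2.2.1, _, _, d2, ?_, d3⟩
      obtain ⟨σ, hσ, y, y1, y2, y3, y4, y5⟩ := hk
      exact ⟨σ, hσ, y, y1, by rw [← d1]; exact y2, y3, y4, y5⟩
    · intro G hG hGh
      rw [← Finset.card_image_of_injOn (f := fun Y => X (g Y)) (s := G) (hginj.mono (by exact_mod_cast hG))]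
      refine P.t1b_countR hc (p := p) (ω1 := ω1) (ω2 := ω2) (L := K - 1) _ ?_
      intro Z hZ
      obtain ⟨Y, hY, rfl⟩ := Finset.mem_image.1 hZ
      have hg2 := hT3T _ (hg Y (hG hY)).1
      obtain ⟨l, hl, m, ij, ji, hk⟩ := hGh Y hY
      obtain ⟨d1, d2, d3⟩ := hdata Y (hG hY) l hl m ij ji
      refine ⟨(hX _ hg2).2.1, (hX _ hg2).2.2.1, _, _, d2, ?_, d3⟩
      obtain ⟨σ, hσ, y, y1, y2, y3, y4, y5⟩ := hk
      exact ⟨σ, hσ, y, by rw [← d1]; exact y1, y2, y3, y4, y5⟩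

end Poly

end Pool.Agent.Lib_PL
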