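import Pool.Agent.Lib_PL.WinA
import Pool.Agent.Lib_PL.Comp

/-!
Finitely many windows.

`seeset_bd`: half of the points `e ∈ F` are limits of `SeeSet` from the right (or from the left); between consecutive ones choose
points `x_i ∈ SeeSet` close to them; they are separated by points not in `Bp p j` (otherwise `f2_pt` would put the boundary point between
into `SeeSet`), so `hA` applies.
`windows`: for `0 ≤ ν < n` and `r` in the finite set `{p} ∪ {V m} ∪ {γ e}` take the free segment from `V ν` in direction `V ν - r` (if it exists)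
up to its first boundary point (`ray_hit`).
-/

open Set Complex
open scoped Topology

namespace Pool.Agent.Lib_PL

namespace Poly

variable {n : ℕ} (P : Poly n)

/-- two points of the see-set with a boundary point between them that is not in it are separated -/
private theorem winB_sep (hc : P.CCW) {p : ℂ} {j : ℕ} {ν : ℤ} {x y e : ℝ}
    (hx : x ∈ P.SeeSet p j ν) (hy : y ∈ P.SeeSet p j ν) (h1 : x < e) (h2 : e < y)
    (he : e ∉ P.SeeSet p j ν) : ∃ t, x < t ∧ t < y ∧ t ∉ P.Bp p j := by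
  by_contra hcon
  push Not at hcon
  apply he
  refine ⟨hcon e h1 h2, ?_⟩
  have hxN : NI x := hx.1.1
  obtain ⟨h3, h4, -⟩ := NI_floor hxN
  have h5 : y < ⌊x⌋ + 1 := by
    by_contra h6
    push Not at h6
    rcases h6.lt_or_eq with h7 | h7
    · have h8 := (hcon (⌊x⌋ + 1) h4 h7).1
      apply h8 (⌊x⌋ + 1)
      push_cast
      rfl
    · have h8 := hy.1.1
      apply h8 (⌊x⌋ + 1)
      push_cast
      exact h7
  exact P.f2_pt hc h3 (h1.trans h2).le h5 hx.2 hy.2 e ⟨h1.le, h2.le⟩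

/-- a bound which separates a point from the later points of a finite set -/
private theorem winB_next (F : Finset ℝ) {e b : ℝ} (hb : e < b) :
    ∃ u, e < u ∧ u ≤ b ∧ ∀ f ∈ F, e < f → u ≤ f := by
  induction F using Finset.induction_on with
  | empty => exact ⟨b, hb, le_rfl, by simp⟩
  | insert a F _ ih =>
    obtain ⟨u, h1, h2, h3⟩ := ih
    by_cases ha : e < a
    · refine ⟨min u a, lt_min h1 ha, (min_le_left _ _).trans h2, ?_⟩
      intro f hf hef
      rcases Finset.mem_insert.1 hf with rfl | hf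
      · exact min_le_right _ _
      · exact (min_le_left _ _).trans (h3 f hf hef)
    · refine ⟨u, h1, h2, ?_⟩
      intro f hf hef
      rcases Finset.mem_insert.1 hf with rfl | hf
      · exact absurd hef ha
      · exact h3 f hf hef

/-- a bound which separates a point from the earlier points of a finite set -/
private theorem winB_prev (F : Finset ℝ) {e b : ℝ} (hb : b < e) :
    ∃ u, u < e ∧ b ≤ u ∧ ∀ f ∈ F, f < e → f ≤ u := by
  induction F using Finset.induction_on with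
  | empty => exact ⟨b, hb, le_rfl, by simp⟩
  | insert a F _ ih =>
    obtain ⟨u, h1, h2, h3⟩ := ih
    by_cases ha : a < e
    · refine ⟨max u a, max_lt h1 ha, h2.trans (le_max_left _ _), ?_⟩
      intro f hf hef
      rcases Finset.mem_insert.1 hf with rfl | hf
      · exact le_max_right _ _
      · exact (h3 f hf hef).trans (le_max_left _ _)
    · refine ⟨u, h1, h2, ?_⟩
      intro f hf hef
      rcases Finset.mem_insert.1 hf with rfl | hf
      · exact absurd hef ha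
      · exact h3 f hf hef

private theorem winB_right (hc : P.CCW) {p : ℂ} {j : ℕ} {ν : ℤ} {A : ℕ}
    (hA : ∀ T : Finset ℝ, (∀ x ∈ T, x ∈ P.Bp p j ∧ P.Vis (P.V ν) (P.γ x) ∧ 0 ≤ x ∧ x < n) →
      (∀ x ∈ T, ∀ y ∈ T, x < y → ∃ t, x < t ∧ t < y ∧ t ∉ P.Bp p j) → T.card ≤ A)
    (F : Finset ℝ) (hF : ∀ e ∈ F, 0 ≤ e ∧ e < n ∧ e ∉ P.SeeSet p j ν ∧
      e ∈ closure (P.SeeSet p j ν ∩ Ioi e)) : F.card ≤ A := by
  have h1 : ∀ e ∈ F, ∃ x, x ∈ P.SeeSet p j ν ∧ e < x ∧ x < n ∧ ∀ f ∈ F, e < f → x < f := by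
    intro e he
    obtain ⟨h0, hn, -, hcl⟩ := hF e he
    obtain ⟨u, hu1, hu2, hu3⟩ := winB_next F hn
    obtain ⟨x, hx1, hx2⟩ := mem_closure_iff.1 hcl (Iio u) isOpen_Iio hu1
    exact ⟨x, hx2.1, hx2.2, lt_of_lt_of_le hx1 hu2, fun f hf hef => lt_of_lt_of_le hx1 (hu3 f hf hef)⟩
  choose! x hx1 hx2 hx3 hx4 using h1
  have hmono : ∀ e ∈ F, ∀ f ∈ F, e < f → x e < x f := fun e he f hf hef =>
    (hx4 e he f hf hef).trans (hx2 f hf)
  have hinj : Set.InjOn x F := by
    intro e he f hf hef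
    rcases lt_trichotomy e f with h | h | h
    · exact absurd hef (hmono e he f hf h).ne
    · exact h
    · exact absurd hef (hmono f hf e he h).ne'
  rw [← Finset.card_image_of_injOn hinj]
  refine hA _ ?_ ?_
  · intro y hy
    obtain ⟨e, he, rfl⟩ := Finset.mem_image.1 hy
    exact ⟨(hx1 e he).1, (hx1 e he).2, (hF e he).1.trans (hx2 e he).le, hx3 e he⟩
  · intro y hy y' hy' hyy
    obtain ⟨e, he, rfl⟩ := Finset.mem_image.1 hy
    obtain ⟨f, hf, rfl⟩ := Finset.mem_image.1 hy'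
    have hef : e < f := by
      rcases lt_trichotomy e f with h | h | h
      · exact h
      · rw [h] at hyy
        exact absurd hyy (lt_irrefl _)
      · exact absurd hyy (not_lt.2 (hmono f hf e he h).le)
    exact P.winB_sep hc (hx1 e he) (hx1 f hf) (hx4 e he f hf hef) (hx2 f hf) (hF f hf).2.2.1

private theorem winB_left (hc : P.CCW) {p : ℂ} {j : ℕ} {ν : ℤ} {A : ℕ}
    (hA : ∀ T : Finset ℝ, (∀ x ∈ T, x ∈ P.Bp p j ∧ P.Vis (P.V ν) (P.γ x) ∧ 0 ≤ x ∧ x < n) →
      (∀ x ∈ T, ∀ y ∈ T, x < y → ∃ t, x < t ∧ t < y ∧ t ∉ P.Bp p j) → T.card ≤ A)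
    (F : Finset ℝ) (hF : ∀ e ∈ F, 0 < e ∧ e < n ∧ e ∉ P.SeeSet p j ν ∧
      e ∈ closure (P.SeeSet p j ν ∩ Iio e)) : F.card ≤ A := by
  have h1 : ∀ e ∈ F, ∃ x, x ∈ P.SeeSet p j ν ∧ x < e ∧ 0 ≤ x ∧ ∀ f ∈ F, f < e → f < x := by
    intro e he
    obtain ⟨h0, hn, -, hcl⟩ := hF e he
    obtain ⟨u, hu1, hu2, hu3⟩ := winB_prev F h0
    obtain ⟨x, hx1, hx2⟩ := mem_closure_iff.1 hcl (Ioi u) isOpen_Ioi hu1
    exact ⟨x, hx2.1, hx2.2, hu2.trans (le_of_lt hx1),
      fun f hf hef => lt_of_le_of_lt (hu3 f hf hef) hx1⟩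
  choose! x hx1 hx2 hx3 hx4 using h1
  have hmono : ∀ e ∈ F, ∀ f ∈ F, e < f → x e < x f := fun e he f hf hef =>
    (hx2 e he).trans (hx4 f hf e he hef)
  have hinj : Set.InjOn x F := by
    intro e he f hf hef
    rcases lt_trichotomy e f with h | h | h
    · exact absurd hef (hmono e he f hf h).ne
    · exact h
    · exact absurd hef (hmono f hf e he h).ne'
  rw [← Finset.card_image_of_injOn hinj]
  refine hA _ ?_ ?_
  · intro y hy
    obtain ⟨e, he, rfl⟩ := Finset.mem_image.1 hy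
    exact ⟨(hx1 e he).1, (hx1 e he).2, hx3 e he, (hx2 e he).trans (hF e he).2.1⟩
  · intro y hy y' hy' hyy
    obtain ⟨e, he, rfl⟩ := Finset.mem_image.1 hy
    obtain ⟨f, hf, rfl⟩ := Finset.mem_image.1 hy'
    have hef : e < f := by
      rcases lt_trichotomy e f with h | h | h
      · exact h
      · rw [h] at hyy
        exact absurd hyy (lt_irrefl _)
      · exact absurd hyy (not_lt.2 (hmono f hf e he h).le)
    exact P.winB_sep hc (hx1 e he) (hx1 f hf) (hx2 e he) (hx4 f hf e he hef) (hF e he).2.2.1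

/-- the see-set is periodic -/
private theorem winB_see_add (p : ℂ) (j : ℕ) (ν : ℤ) (x : ℝ) (m : ℤ) :
    x + m * n ∈ P.SeeSet p j ν ↔ x ∈ P.SeeSet p j ν := by
  constructor
  · rintro ⟨h1, h2⟩
    rw [P.γ_add_mul] at h2
    exact ⟨(P.Bp_add p j x m).1 h1, h2⟩
  · rintro ⟨h1, h2⟩
    refine ⟨(P.Bp_add p j x m).2 h1, ?_⟩
    rw [P.γ_add_mul]
    exact h2

private theorem winB_see_V (p : ℂ) (j : ℕ) (ν m : ℤ) :
    P.SeeSet p j (ν + m * n) = P.SeeSet p j ν := by
  unfold SeeSet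
  rw [P.V_add_mul]

private theorem winB_closure_add (p : ℂ) (j : ℕ) (ν : ℤ) (x : ℝ) (m : ℤ)
    (h : x ∈ closure (P.SeeSet p j ν)) : x + m * n ∈ closure (P.SeeSet p j ν) := by
  have hcont : Continuous fun y : ℝ => y + m * n := by fun_prop
  exact map_mem_closure (f := fun y : ℝ => y + m * n) hcont h
    fun y hy => (P.winB_see_add p j ν y m).2 hy

include P in
private theorem winB_n_pos : (0 : ℤ) < n := by
  have := P.three_le
  omega

include P in
/-- reduction of a vertex index -/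
private theorem winB_modV (ν : ℤ) : ∃ (a : ℕ) (m : ℤ), a < n ∧ ν = (a : ℤ) + m * n := by
  have hn := P.winB_n_pos
  have h1 := Int.emod_nonneg ν hn.ne'
  have h2 := Int.emod_lt_of_pos ν hn
  refine ⟨(ν % n).toNat, ν / n, by omega, ?_⟩
  rw [Int.toNat_of_nonneg h1]
  have h3 := Int.emod_add_mul_ediv ν n
  linarith

include P in
/-- reduction of a position -/
private theorem winB_modR (e : ℝ) : ∃ (e' : ℝ) (m : ℤ), 0 ≤ e' ∧ e' < n ∧ e = e' + m * n := by
  have hn : (0 : ℝ) < n := by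
    have := P.winB_n_pos
    exact_mod_cast this
  refine ⟨Int.fract (e / n) * n, ⌊e / n⌋, mul_nonneg (Int.fract_nonneg _) hn.le, ?_, ?_⟩
  · have := Int.fract_lt_one (e / n)
    nlinarith
  · have h1 := Int.fract_add_floor (e / n)
    have h2 : e = (e / n) * n := by field_simp
    calc e = (e / n) * n := h2
      _ = (Int.fract (e / n) + ⌊e / n⌋) * n := by rw [h1]
      _ = _ := by ring

/-- `w` is the free segment from `V ν` in direction `V ν - r` -/
private def WinBQ (ν : ℤ) (r : ℂ) (w : ℂ × ℂ) : Prop :=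
  w.1 = P.V ν ∧ ∃ ω : ℝ, w.2 = P.γ ω ∧ P.Vis w.1 w.2 ∧
    ∃ t : ℝ, 0 < t ∧ w.2 - w.1 = (t : ℂ) * (w.1 - r)

private theorem winB_exists (hc : P.CCW) {ν : ℤ} {r z : ℂ} (hv : P.Vis (P.V ν) z) {t : ℝ}
    (ht : 0 < t) (hz : z - P.V ν = (t : ℂ) * (P.V ν - r)) : ∃ w, P.WinBQ ν r w := by
  have h1 : P.Vis (P.γ ν) z := by rwa [P.γ_int]
  have h2 := h1.sector hc
  rw [P.γ_int, hz, InSector_smul ht] at h2
  obtain ⟨t0, ht0, h3, h4⟩ := P.ray_hit' hc ν _ h2
  rw [P.γ_int] at h3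
  obtain ⟨ω, hω⟩ := (P.mem_C_iff _).1 h3
  refine ⟨(P.V ν, P.γ ω), rfl, ω, rfl, ?_, t0, ht0, ?_⟩
  · intro c hcc
    have hcc' : c ∈ openSegment ℝ (P.V ν) (P.γ ω) := hcc
    rw [openSegment_eq_image'] at hcc'
    obtain ⟨s, hs, rfl⟩ := hcc'
    have h5 := h4 (s * t0) (mul_pos hs.1 ht0) (by nlinarith [hs.2])
    rw [P.γ_int] at h5
    have e1 : P.V ν + ((s * t0 : ℝ) : ℂ) * (P.V ν - r) =
        P.V ν + s • (P.γ ω - P.V ν) := by
      rw [hω, Complex.real_smul]
      push_cast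
      ring
    change P.V ν + s • (P.γ ω - P.V ν) ∈ P.I
    rw [← e1]
    exact h5
  · change P.γ ω - P.V ν = _
    rw [hω]
    ring

private theorem winB_on {ν : ℤ} {r z : ℂ} (hI : z ∈ P.I) (hv : P.Vis (P.V ν) z) {t : ℝ}
    (ht : 0 < t) (hz : z - P.V ν = (t : ℂ) * (P.V ν - r)) {w : ℂ × ℂ} (hw : P.WinBQ ν r w) :
    z ∈ openSegment ℝ w.1 w.2 := by
  obtain ⟨w1, w2⟩ := w
  obtain ⟨h1, ω, h2, h3, t', ht', h4⟩ := hw
  change w1 = P.V ν at h1
  change w2 = P.γ ω at h2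
  change w2 - w1 = _ at h4
  change z ∈ openSegment ℝ w1 w2
  subst h1 h2
  have h4' : P.γ ω - P.V ν = (t' : ℂ) * (P.V ν - r) := h4
  have hlt : t < t' := by
    by_contra hcon
    push Not at hcon
    rcases hcon.lt_or_eq with h | h
    · have h5 : P.γ ω ∈ openSegment ℝ (P.V ν) z := by
        rw [openSegment_eq_image']
        refine ⟨t' / t, ⟨by positivity, (div_lt_one ht).2 h⟩, ?_⟩
        have htC : (t : ℂ) ≠ 0 := by exact_mod_cast ht.ne'
        change P.V ν + (t' / t : ℝ) • (z - P.V ν) = P.γ ω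
        rw [Complex.real_smul, hz, eq_comm, ← sub_eq_iff_eq_add', h4']
        push_cast
        field_simp
      exact P.I_disj_C (hv h5) (P.γ_mem_C ω)
    · have h5 : z = P.γ ω := by
        have : z - P.V ν = P.γ ω - P.V ν := by rw [hz, h4', h]
        exact sub_left_injective this
      rw [h5] at hI
      exact P.I_disj_C hI (P.γ_mem_C ω)
  rw [openSegment_eq_image']
  refine ⟨t / t', ⟨by positivity, (div_lt_one ht').2 hlt⟩, ?_⟩
  have htC : (t' : ℂ) ≠ 0 := by exact_mod_cast ht'.ne'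
  change P.V ν + (t / t' : ℝ) • (P.γ ω - P.V ν) = z
  rw [Complex.real_smul, h4', eq_comm, ← sub_eq_iff_eq_add', hz]
  push_cast
  field_simp

theorem seeset_bd (hc : P.CCW) {p : ℂ} {j : ℕ} {ν : ℤ} {A : ℕ}
    (hA : ∀ T : Finset ℝ, (∀ x ∈ T, x ∈ P.Bp p j ∧ P.Vis (P.V ν) (P.γ x) ∧ 0 ≤ x ∧ x < n) →
      (∀ x ∈ T, ∀ y ∈ T, x < y → ∃ t, x < t ∧ t < y ∧ t ∉ P.Bp p j) → T.card ≤ A)
    (F : Finset ℝ) (hF : ∀ e ∈ F, 0 ≤ e ∧ e < n ∧ NI e ∧ e ∉ P.SeeSet p j ν ∧
      e ∈ closure (P.SeeSet p j ν)) : F.card ≤ 2 * A := by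
  classical
  set S := P.SeeSet p j ν with hS
  have hsplit : ∀ e ∈ F, e ∈ closure (S ∩ Ioi e) ∨ e ∈ closure (S ∩ Iio e) := by
    intro e he
    obtain ⟨-, -, -, h1, h2⟩ := hF e he
    have h3 : S = (S ∩ Ioi e) ∪ (S ∩ Iio e) := by
      ext x
      constructor
      · intro hx
        rcases lt_trichotomy x e with h | h | h
        · exact Or.inr ⟨hx, h⟩
        · rw [h] at hx
          exact absurd hx h1
        · exact Or.inl ⟨hx, h⟩
      · rintro (hx | hx)
        · exact hx.1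
        · exact hx.1
    rw [h3, closure_union] at h2
    exact h2
  have h1 : F ⊆ F.filter (fun e => e ∈ closure (S ∩ Ioi e)) ∪
      F.filter (fun e => e ∈ closure (S ∩ Iio e)) := by
    intro e he
    rw [Finset.mem_union, Finset.mem_filter, Finset.mem_filter]
    exact (hsplit e he).imp (fun h => ⟨he, h⟩) (fun h => ⟨he, h⟩)
  have h2 : (F.filter (fun e => e ∈ closure (S ∩ Ioi e))).card ≤ A := by
    refine P.winB_right hc hA _ ?_
    intro e he
    obtain ⟨he1, he2⟩ := Finset.mem_filter.1 he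
    obtain ⟨h3, h4, -, h5, -⟩ := hF e he1
    exact ⟨h3, h4, h5, he2⟩
  have h3 : (F.filter (fun e => e ∈ closure (S ∩ Iio e))).card ≤ A := by
    refine P.winB_left hc hA _ ?_
    intro e he
    obtain ⟨he1, he2⟩ := Finset.mem_filter.1 he
    obtain ⟨h3, h4, h4', h5, -⟩ := hF e he1
    refine ⟨lt_of_le_of_ne h3 ?_, h4, h5, he2⟩
    intro h6
    apply h4' 0
    push_cast
    exact h6
  calc F.card ≤ _ := Finset.card_le_card h1
    _ ≤ _ := Finset.card_union_le _ _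
    _ ≤ A + A := Nat.add_le_add h2 h3
    _ = 2 * A := by ring

theorem windows (hc : P.CCW) {p : ℂ} (hp : p ∈ P.R) {k : ℕ} {A : ℕ}
    (hA : ∀ (j : ℕ) (ν : ℤ) (T : Finset ℝ), j < k →
      (∀ x ∈ T, x ∈ P.Bp p j ∧ P.Vis (P.V ν) (P.γ x) ∧ 0 ≤ x ∧ x < n) →
      (∀ x ∈ T, ∀ y ∈ T, x < y → ∃ t, x < t ∧ t < y ∧ t ∉ P.Bp p j) → T.card ≤ A) :
    ∃ W : Finset (ℂ × ℂ), W.card ≤ n * (1 + n + 2 * A) ∧
      (∀ w ∈ W, ∃ (ν : ℤ) (ω : ℝ), w.1 = P.V ν ∧ w.2 = P.γ ω ∧ P.Vis w.1 w.2) ∧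
      ∀ z ∈ frontier (P.VV p k), z ∈ P.I → ∃ w ∈ W, z ∈ openSegment ℝ w.1 w.2 := by
  classical
  have hG : ∀ ν : ℕ, ∃ G : Finset ℂ, G.card ≤ 1 + n + 2 * A ∧ p ∈ G ∧
      (∀ m : ℕ, m < n → P.V m ∈ G) ∧ ∀ j : ℕ, j + 1 = k → ∀ e : ℝ, 0 ≤ e → e < n → NI e →
        e ∉ P.SeeSet p j ν → e ∈ closure (P.SeeSet p j ν) → P.γ e ∈ G := by
    intro ν
    have hE : ∃ E : Finset ℝ, E.card ≤ 2 * A ∧ ∀ j : ℕ, j + 1 = k → ∀ e : ℝ, 0 ≤ e → e < n →
        NI e → e ∉ P.SeeSet p j ν → e ∈ closure (P.SeeSet p j ν) → e ∈ E := by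
      rcases k with _ | j
      · refine ⟨∅, by simp, ?_⟩
        intro j hj
        omega
      · set E : Set ℝ := {e | 0 ≤ e ∧ e < n ∧ NI e ∧ e ∉ P.SeeSet p j ν ∧
          e ∈ closure (P.SeeSet p j ν)} with hEdef
        have hbd : ∀ F : Finset ℝ, (F : Set ℝ) ⊆ E → F.card ≤ 2 * A := fun F hF =>
          P.seeset_bd hc (hA j ν · (Nat.lt_succ_self j)) F fun e he => hF he
        have hfin : E.Finite := by
          by_contra hcon
          obtain ⟨F, hF1, hF2⟩ := Set.Infinite.exists_subset_card_eq hcon (2 * A + 1)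
          have := hbd F hF1
          omega
        refine ⟨hfin.toFinset, hbd _ (by simp), ?_⟩
        intro j' hj' e h1 h2 h3 h4 h5
        obtain rfl : j' = j := by omega
        rw [Set.Finite.mem_toFinset]
        exact ⟨h1, h2, h3, h4, h5⟩
    obtain ⟨E, hE1, hE2⟩ := hE
    refine ⟨({p} ∪ (Finset.range n).image (fun m : ℕ => P.V m)) ∪ E.image P.γ, ?_, ?_, ?_, ?_⟩
    · have h1 := Finset.card_union_le ({p} ∪ (Finset.range n).image (fun m : ℕ => P.V m))
        (E.image P.γ)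
      have h2 := Finset.card_union_le {p} ((Finset.range n).image (fun m : ℕ => P.V m))
      have h3 : ((Finset.range n).image (fun m : ℕ => P.V m)).card ≤ n :=
        Finset.card_image_le.trans (Finset.card_range n).le
      have h4 : (E.image P.γ).card ≤ 2 * A := Finset.card_image_le.trans hE1
      rw [Finset.card_singleton] at h2
      omega
    · simp
    · intro m hm
      rw [Finset.mem_union, Finset.mem_union]
      exact Or.inl (Or.inr (Finset.mem_image.2 ⟨m, Finset.mem_range.2 hm, rfl⟩))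
    · intro j hj e h1 h2 h3 h4 h5
      rw [Finset.mem_union]
      exact Or.inr (Finset.mem_image.2 ⟨e, hE2 j hj e h1 h2 h3 h4 h5, rfl⟩)
  choose G hG1 hG2 hG3 hG4 using hG
  set f : ℕ → ℂ → ℂ × ℂ := fun ν r => if h : ∃ w, P.WinBQ ν r w then h.choose else (0, 0)
  have hf : ∀ (ν : ℕ) (r : ℂ), (∃ w, P.WinBQ ν r w) → P.WinBQ ν r (f ν r) := by
    intro ν r h
    have : f ν r = h.choose := dif_pos h
    rw [this]
    exact h.choose_spec
  refine ⟨(Finset.range n).biUnion fun ν =>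
    ((G ν).filter fun r => ∃ w, P.WinBQ ν r w).image (f ν), ?_, ?_, ?_⟩
  · have h1 := Finset.card_biUnion_le_card_mul (Finset.range n) (fun ν =>
      ((G ν).filter fun r => ∃ w, P.WinBQ ν r w).image (f ν)) (1 + n + 2 * A) (fun ν _ =>
        (Finset.card_image_le.trans (Finset.card_filter_le _ _)).trans (hG1 ν))
    rwa [Finset.card_range] at h1
  · intro w hw
    obtain ⟨ν, -, hw⟩ := Finset.mem_biUnion.1 hw
    obtain ⟨r, hr, rfl⟩ := Finset.mem_image.1 hw
    obtain ⟨-, hr⟩ := Finset.mem_filter.1 hr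
    obtain ⟨h1, ω, h2, h3, -⟩ := hf ν r hr
    exact ⟨ν, ω, h1, h2, h3⟩
  · intro z hz hI
    obtain ⟨ν, r, -, hv, ⟨t, ht, hzt⟩, hr⟩ := P.frontier_window hc hp hz hI
    obtain ⟨a, m, ha, rfl⟩ := P.winB_modV ν
    rw [P.V_add_mul] at hv hzt
    have hrG : r ∈ G a := by
      rcases hr with rfl | ⟨m', rfl⟩ | ⟨j, hj, e, rfl, he1, he2, he3⟩
      · exact hG2 a
      · obtain ⟨b, l, hb, rfl⟩ := P.winB_modV m'
        rw [P.V_add_mul]
        exact hG3 a b hb
      · rw [P.winB_see_V] at he2 he3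
        obtain ⟨e', l, h0, h1, rfl⟩ := P.winB_modR e
        rw [P.γ_add_mul]
        refine hG4 a j hj e' h0 h1 ?_ ?_ ?_
        · have h2 := NI_add (-l * n) he1
          have h3 : e' + l * n + ((-l * n : ℤ) : ℝ) = e' := by
            push_cast
            ring
          rwa [h3] at h2
        · intro h2
          exact he2 ((P.winB_see_add p j a e' l).2 h2)
        · have h2 := P.winB_closure_add p j a _ (-l) he3
          have h3 : e' + l * n + ((-l : ℤ) : ℝ) * n = e' := by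
            push_cast
            ring
          rwa [h3] at h2
    have hex := P.winB_exists hc hv ht hzt
    refine ⟨f a r, Finset.mem_biUnion.2 ⟨a, Finset.mem_range.2 ha, Finset.mem_image.2
      ⟨r, Finset.mem_filter.2 ⟨hrG, hex⟩, rfl⟩⟩, P.winB_on hI hv ht hzt (hf a r hex)⟩

end Poly

end Pool.Agent.Lib_PL
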