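import Pool.Agent.Lib_PL.Levels

/-!
Events on a free segment.  `W` is a finite set of free segments with ends on `C` which covers the frontier in `I`; on every free segment
the lit part has at most `N` components.  Then a free segment contains at most `6 N` points where the frontier is not locally a
straight line.

Let `z ∈ F`.  (i) `z` is a boundary point (relative to `w`) of the lit part of `w`: `z ∉ VV` (`VV_open`) and `z` is a limit of lit points of `w`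
from the right or from the left: at most `2 N` such points.
(ii) otherwise `z` is a limit of frontier points not on `w`, on the `+` side or on the `-` side.  Near `z` (ball of radius `ρ`) only
the segments of `W` through `z` matter; they cut the ball into open sectors, each lit or unlit; a radius `σ` (on a segment of `W` not collinear
with `w`) containing frontier points arbitrarily near `z` is unlit for small `ρ` (finitely many components on this segment of `W`) and one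
of the two adjacent sectors is lit.  Take the parallel chord `w'` at small distance `δ` on this side (maximal free segment, both ends on `C`,
it contains the points at distance `δ` from all `z ∈ F`, because the segment between the first and the last `z` has a
neighbourhood in `I`): it meets `σ` in an unlit point which is a limit of lit points of `w'`; so at most `2 N` such `z`.
The same for the other side.
(iii) if neither (i) nor (ii): near `z` the frontier is contained in `w`, the two half discs are lit or unlit and `w` near `z` is lit or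
unlit, so the frontier near `z` is empty or a diameter: `Reg`.
-/

open Set Complex
open scoped Topology

namespace Pool.Agent.Lib_PL

/-- `c ∉ A` is a limit of points of `A` in direction `e` -/
private def WinC_RR (A : Set ℂ) (e c : ℂ) : Prop :=
  c ∉ A ∧ ∀ η : ℝ, 0 < η → ∃ t : ℝ, 0 < t ∧ t < η ∧ c + (t : ℂ) * e ∈ A

/-- `c ∉ A` is a limit of points of `A` in direction `e` or `-e` -/
private def WinC_RB (A : Set ℂ) (e c : ℂ) : Prop := WinC_RR A e c ∨ WinC_RR A (-e) c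

/-- every segment in `J` contains at most `N` points of `A` which are separated by points not in `A` -/
private def WinC_LB (J A : Set ℂ) (N : ℕ) : Prop :=
  ∀ (b e : ℂ), e ≠ 0 → ∀ s1 s2 : ℝ, s1 ≤ s2 →
    (∀ s : ℝ, s1 ≤ s → s ≤ s2 → b + (s : ℂ) * e ∈ J) →
    ∀ T : Finset ℝ, (∀ t ∈ T, s1 ≤ t ∧ t ≤ s2 ∧ b + (t : ℂ) * e ∈ A) →
      (∀ t ∈ T, ∀ t' ∈ T, t < t' → ∃ τ : ℝ, t < τ ∧ τ < t' ∧ b + (τ : ℂ) * e ∉ A) → T.card ≤ N

private theorem WinC_small {c : ℝ} (hc : 0 < c) : ∀ᶠ η : ℝ in 𝓝[>] (0 : ℝ), 0 < η ∧ η < c := by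
  filter_upwards [Ioo_mem_nhdsGT hc] with η hη
  exact hη

private theorem WinC_countR {J A : Set ℂ} {N : ℕ} (h : WinC_LB J A N) {b e : ℂ} (he : e ≠ 0)
    {s1 s2 : ℝ} (hs : s1 ≤ s2) (hJ : ∀ s : ℝ, s1 ≤ s → s ≤ s2 → b + (s : ℂ) * e ∈ J)
    (G : Finset ℝ) (hG : ∀ g ∈ G, s1 < g ∧ g < s2 ∧ WinC_RR A e (b + (g : ℂ) * e)) :
    G.card ≤ N := by
  classical
  have hη : ∀ᶠ η : ℝ in 𝓝[>] (0 : ℝ), ∀ g ∈ G, g + η < s2 ∧ ∀ g' ∈ G, g < g' → g + η < g' := by
    rw [Filter.eventually_all_finset]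
    intro g hg
    refine Filter.Eventually.and ?_ ?_
    · filter_upwards [WinC_small (show (0 : ℝ) < s2 - g by linarith [(hG g hg).2.1])] with η hη
      linarith [hη.2]
    · rw [Filter.eventually_all_finset]
      intro g' hg'
      by_cases hgg : g < g'
      · filter_upwards [WinC_small (show (0 : ℝ) < g' - g by linarith)] with η hη _
        linarith [hη.2]
      · exact Filter.Eventually.of_forall fun η h' => absurd h' hgg
  obtain ⟨η, ⟨hη0, -⟩, hη⟩ := ((WinC_small one_pos).and hη).exists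
  have hu : ∀ g ∈ G, ∃ u : ℝ, g < u ∧ u < g + η ∧ b + (u : ℂ) * e ∈ A := by
    intro g hg
    obtain ⟨t, ht0, ht1, ht2⟩ := (hG g hg).2.2.2 η hη0
    refine ⟨g + t, by linarith, by linarith, ?_⟩
    have : b + ((g + t : ℝ) : ℂ) * e = b + (g : ℂ) * e + (t : ℂ) * e := by push_cast; ring
    rw [this]
    exact ht2
  choose! u hu using hu
  have hlt : ∀ g ∈ G, ∀ g' ∈ G, g < g' → u g < g' := by
    intro g hg g' hg' hgg
    linarith [(hu g hg).2.1, (hη g hg).2 g' hg' hgg]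
  have hmono : ∀ g ∈ G, ∀ g' ∈ G, g < g' → u g < u g' := by
    intro g hg g' hg' hgg
    linarith [hlt g hg g' hg' hgg, (hu g' hg').1]
  have hinj : Set.InjOn u G := by
    intro g hg g' hg' hgg
    by_contra hne
    rcases lt_or_gt_of_ne hne with h1 | h1
    · exact absurd hgg (hmono g hg g' hg' h1).ne
    · exact absurd hgg (hmono g' hg' g hg h1).ne'
  rw [← Finset.card_image_of_injOn hinj]
  refine h b e he s1 s2 hs hJ _ ?_ ?_
  · intro t ht
    obtain ⟨g, hg, rfl⟩ := Finset.mem_image.1 ht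
    have h1 := hG g hg
    have h2 := hu g hg
    exact ⟨by linarith, by linarith [(hη g hg).1], h2.2.2⟩
  · intro t ht t' ht' htt
    obtain ⟨g, hg, rfl⟩ := Finset.mem_image.1 ht
    obtain ⟨g', hg', rfl⟩ := Finset.mem_image.1 ht'
    have hgg : g < g' := by
      by_contra hcon
      rcases lt_or_eq_of_le (not_lt.1 hcon) with h1 | h1
      · linarith [hmono g' hg' g hg h1]
      · rw [h1] at htt
        exact lt_irrefl _ htt
    exact ⟨g', hlt g hg g' hg' hgg, (hu g' hg').1, (hG g' hg').2.2.1⟩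

private theorem WinC_count {J A : Set ℂ} {N : ℕ} (h : WinC_LB J A N) {b e : ℂ} (he : e ≠ 0)
    {s1 s2 : ℝ} (hs : s1 ≤ s2) (hJ : ∀ s : ℝ, s1 ≤ s → s ≤ s2 → b + (s : ℂ) * e ∈ J)
    (G : Finset ℝ) (hG : ∀ g ∈ G, s1 < g ∧ g < s2 ∧ WinC_RB A e (b + (g : ℂ) * e)) :
    G.card ≤ 2 * N := by
  classical
  have h1 : (G.filter fun g : ℝ => WinC_RR A e (b + (g : ℂ) * e)).card ≤ N := by
    refine WinC_countR h he hs hJ _ fun g hg => ?_
    obtain ⟨hg1, hg2⟩ := Finset.mem_filter.1 hg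
    exact ⟨(hG g hg1).1, (hG g hg1).2.1, hg2⟩
  have h2 : ((G.filter fun g : ℝ => WinC_RR A (-e) (b + (g : ℂ) * e)).image fun g => -g).card
      ≤ N := by
    refine WinC_countR h (neg_ne_zero.2 he) (neg_le_neg hs) (b := b) (s1 := -s2) (s2 := -s1)
      ?_ _ ?_
    · intro s hs1 hs2
      have := hJ (-s) (by linarith) (by linarith)
      have h3 : b + (s : ℂ) * -e = b + ((-s : ℝ) : ℂ) * e := by push_cast; ring
      rw [h3]
      exact this
    · intro g' hg'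
      obtain ⟨g, hg, rfl⟩ := Finset.mem_image.1 hg'
      obtain ⟨hg1, hg2⟩ := Finset.mem_filter.1 hg
      have h3 := hG g hg1
      refine ⟨by linarith, by linarith, ?_⟩
      have h4 : b + ((-g : ℝ) : ℂ) * -e = b + (g : ℂ) * e := by push_cast; ring
      rw [h4]
      exact hg2
  rw [Finset.card_image_of_injective _ neg_injective] at h2
  have h3 : G ⊆ (G.filter fun g : ℝ => WinC_RR A e (b + (g : ℂ) * e)) ∪
      (G.filter fun g : ℝ => WinC_RR A (-e) (b + (g : ℂ) * e)) := by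
    intro g hg
    rcases (hG g hg).2.2 with h4 | h4
    · exact Finset.mem_union_left _ (Finset.mem_filter.2 ⟨hg, h4⟩)
    · exact Finset.mem_union_right _ (Finset.mem_filter.2 ⟨hg, h4⟩)
  have h4 := (Finset.card_le_card h3).trans (Finset.card_union_le _ _)
  omega

/-- finitely many alternations near a point -/
private theorem WinC_alt {J A : Set ℂ} {N : ℕ} (h : WinC_LB J A N) (hJo : IsOpen J) {z d : ℂ}
    (hz : z ∈ J) (hd : d ≠ 0) (hf : ∃ᶠ t : ℝ in 𝓝[>] (0 : ℝ), z + (t : ℂ) * d ∉ A) :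
    ∀ᶠ t : ℝ in 𝓝[>] (0 : ℝ), z + (t : ℂ) * d ∉ A := by
  classical
  by_contra hcon
  have hf' : ∃ᶠ t : ℝ in 𝓝[>] (0 : ℝ), z + (t : ℂ) * d ∈ A := by
    rw [Filter.Frequently]
    exact hcon
  obtain ⟨s2, hs2, hJ⟩ : ∃ s2 : ℝ, 0 < s2 ∧ ∀ s : ℝ, 0 ≤ s → s ≤ s2 → z + (s : ℂ) * d ∈ J := by
    have hcont : Continuous fun s : ℝ => z + (s : ℂ) * d := by fun_prop
    have h1 : (fun s : ℝ => z + (s : ℂ) * d) ⁻¹' J ∈ 𝓝 (0 : ℝ) :=
      hcont.continuousAt.preimage_mem_nhds (hJo.mem_nhds (by simpa using hz))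
    obtain ⟨ε, hε, hb⟩ := Metric.mem_nhds_iff.1 h1
    refine ⟨ε / 2, by linarith, fun s hs0 hs1 => ?_⟩
    apply hb
    rw [Metric.mem_ball, Real.dist_eq, sub_zero, abs_of_nonneg hs0]
    linarith
  have key : ∀ m : ℕ, ∀ ε : ℝ, 0 < ε → ∃ T : Finset ℝ, T.card = m ∧
      (∀ t ∈ T, 0 < t ∧ t < ε ∧ z + (t : ℂ) * d ∈ A) ∧
      (∀ t ∈ T, ∀ t' ∈ T, t < t' → ∃ τ : ℝ, t < τ ∧ τ < t' ∧ z + (τ : ℂ) * d ∉ A) := by
    intro m
    induction m with
    | zero =>
      intro ε hε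
      exact ⟨∅, rfl, by simp, by simp⟩
    | succ m ih =>
      intro ε hε
      obtain ⟨t, ht1, ⟨ht0, htε⟩⟩ := (hf'.and_eventually (WinC_small hε)).exists
      obtain ⟨u, hu1, ⟨hu0, hut⟩⟩ := (hf.and_eventually (WinC_small ht0)).exists
      obtain ⟨T, hT1, hT2, hT3⟩ := ih u hu0
      have htT : t ∉ T := fun h' => by linarith [(hT2 t h').2.1]
      refine ⟨insert t T, by rw [Finset.card_insert_of_notMem htT, hT1], ?_, ?_⟩
      · intro t' ht'
        rcases Finset.mem_insert.1 ht' with rfl | h'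
        · exact ⟨ht0, htε, ht1⟩
        · exact ⟨(hT2 t' h').1, by linarith [(hT2 t' h').2.1], (hT2 t' h').2.2⟩
      · intro a ha a' ha' haa
        rcases Finset.mem_insert.1 ha with rfl | h1
        · rcases Finset.mem_insert.1 ha' with rfl | h2
          · exact absurd haa (lt_irrefl _)
          · linarith [(hT2 a' h2).2.1]
        · rcases Finset.mem_insert.1 ha' with rfl | h2
          · exact ⟨u, (hT2 a h1).2.1, hut, hu1⟩
          · exact hT3 a h1 a' h2 haa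
  obtain ⟨T, hT1, hT2, hT3⟩ := key (N + 1) s2 hs2
  have h1 := h z d hd 0 s2 hs2.le hJ T
    (fun t ht => ⟨(hT2 t ht).1.le, (hT2 t ht).2.1.le, (hT2 t ht).2.2⟩) hT3
  omega

/-- connected sets without frontier points -/
private theorem WinC_conn {A S : Set ℂ} (hS : IsPreconnected S) (hf : ∀ c ∈ S, c ∉ frontier A)
    (hne : ∃ c ∈ S, c ∈ A) : S ⊆ A := by
  have h1 : S ⊆ interior A ∪ (closure A)ᶜ := by
    intro c hc
    by_cases h2 : c ∈ closure A
    · left
      by_contra h3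
      exact hf c hc ⟨h2, h3⟩
    · exact Or.inr h2
  have h2 : Disjoint (interior A) (closure A)ᶜ :=
    disjoint_left.2 fun c hc hc' => hc' (subset_closure (interior_subset hc))
  have h3 : (S ∩ interior A).Nonempty := by
    obtain ⟨c, hc, hcA⟩ := hne
    refine ⟨c, hc, ?_⟩
    rcases h1 hc with h4 | h4
    · exact h4
    · exact absurd (subset_closure hcA) h4
  exact (hS.subset_left_of_subset_union isOpen_interior isClosed_closure.isOpen_compl h2 h1
    h3).trans interior_subset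

/-- local structure near `z` -/
private structure WinC_Loc (J A : Set ℂ) (N : ℕ) (Dd : Finset ℂ) (z : ℂ) (ρ : ℝ) : Prop where
  lb : WinC_LB J A N
  hJ : IsOpen J
  hA : ∀ c ∈ A, c ∈ J → A ∈ 𝓝 c
  pos : 0 < ρ
  ball : ∀ c : ℂ, ‖c - z‖ < ρ → c ∈ J
  ne : ∀ d ∈ Dd, d ≠ 0
  dir : ∀ c ∈ frontier A, ‖c - z‖ < ρ → ∃ d ∈ Dd, cr d (c - z) = 0

private theorem WinC_Loc.unlit {J A : Set ℂ} {N : ℕ} {Dd : Finset ℂ} {z : ℂ} {ρ : ℝ}
    (h : WinC_Loc J A N Dd z ρ) {c : ℂ} (hc : c ∈ frontier A) (hJ : c ∈ J) : c ∉ A := by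
  intro hcA
  exact hc.2 (mem_interior_iff_mem_nhds.2 (h.hA c hcA hJ))

/-- frontier points on one side accumulating at `z` -/
private theorem WinC_side {J A : Set ℂ} {N : ℕ} {Dd : Finset ℂ} {z : ℂ} {ρ : ℝ}
    (h : WinC_Loc J A N Dd z ρ) {e ν : ℂ} (heν : cr e ν ≠ 0)
    (hf : ∀ ε : ℝ, 0 < ε → ∃ x y : ℝ, 0 < y ∧ ‖(x : ℂ) * e + (y : ℂ) * ν‖ < ε ∧
      z + ((x : ℂ) * e + (y : ℂ) * ν) ∈ frontier A) :
    ∃ a τ : ℝ, 0 < τ ∧ ∀ δ : ℝ, 0 < δ → δ < τ →
      WinC_RB A e (z + (δ : ℂ) * ((a : ℂ) * e + ν)) := by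
  classical
  -- one direction
  obtain ⟨d', hd', hfd⟩ : ∃ d' ∈ Dd, ∀ ε : ℝ, 0 < ε → ∃ x y : ℝ, 0 < y ∧
      ‖(x : ℂ) * e + (y : ℂ) * ν‖ < ε ∧ z + ((x : ℂ) * e + (y : ℂ) * ν) ∈ frontier A ∧
        cr d' ((x : ℂ) * e + (y : ℂ) * ν) = 0 := by
    by_contra hcon
    push Not at hcon
    have h1 : ∀ᶠ ε : ℝ in 𝓝[>] (0 : ℝ), ∀ d' ∈ Dd, ∀ x y : ℝ, 0 < y →
        ‖(x : ℂ) * e + (y : ℂ) * ν‖ < ε → z + ((x : ℂ) * e + (y : ℂ) * ν) ∈ frontier A →
        cr d' ((x : ℂ) * e + (y : ℂ) * ν) ≠ 0 := by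
      rw [Filter.eventually_all_finset]
      intro d' hd'
      obtain ⟨ε0, hε0, h2⟩ := hcon d' hd'
      filter_upwards [WinC_small hε0] with ε hε x y hy hn
      exact h2 x y hy (hn.trans hε.2)
    obtain ⟨ε, ⟨hε0, hερ⟩, h2⟩ := ((WinC_small h.pos).and h1).exists
    obtain ⟨x, y, hy, hn, hfr⟩ := hf ε hε0
    obtain ⟨d', hd', h3⟩ := h.dir _ hfr (by rw [add_sub_cancel_left]; exact hn.trans hερ)
    rw [add_sub_cancel_left] at h3
    exact h2 d' hd' x y hy hn hfr h3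
  have hd0 : d' ≠ 0 := h.ne d' hd'
  have he0 : e ≠ 0 := by
    rintro rfl
    rw [cr_zero_left] at heν
    exact heν rfl
  have hde : cr d' e ≠ 0 := by
    intro h0
    obtain ⟨x, y, hy, -, -, h1⟩ := hfd 1 one_pos
    rw [cr_add_right, cr_mul_right, cr_mul_right, h0, mul_zero, zero_add] at h1
    have h2 : cr d' ν = 0 := by
      rcases mul_eq_zero.1 h1 with h3 | h3
      · exact absurd h3 hy.ne'
      · exact h3
    have h3 := cr_dec heν d'
    rw [h2, show cr e d' = 0 by rw [cr_swap, h0, neg_zero]] at h3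
    simp at h3
    exact hd0 h3
  set a : ℝ := -(cr d' ν / cr d' e) with ha
  set d : ℂ := (a : ℂ) * e + ν with hd
  have hed : cr e d = cr e ν := by
    rw [hd, cr_add_right, cr_mul_right, cr_self]
    ring
  have hdne : d ≠ 0 := by
    intro h0
    rw [h0, cr_zero_right] at hed
    exact heν hed.symm
  have hdn : 0 < ‖d‖ := norm_pos_iff.2 hdne
  -- frontier points on the ray
  have hfr : ∃ᶠ t : ℝ in 𝓝[>] (0 : ℝ), z + (t : ℂ) * d ∈ frontier A := by
    rw [Filter.frequently_iff]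
    intro U hU
    obtain ⟨u, hu, hUu⟩ := mem_nhdsGT_iff_exists_Ioo_subset.1 hU
    obtain ⟨x, y, hy, hn, hfr, h1⟩ := hfd (u * ‖d‖) (mul_pos hu hdn)
    have h2 : x = y * a := by
      rw [cr_add_right, cr_mul_right, cr_mul_right] at h1
      rw [ha]
      field_simp
      linarith
    have h3 : (x : ℂ) * e + (y : ℂ) * ν = (y : ℂ) * d := by
      rw [h2, hd]
      push_cast
      ring
    rw [h3] at hn hfr
    rw [norm_mul, Complex.norm_real, Real.norm_of_nonneg hy.le] at hn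
    exact ⟨y, hUu ⟨hy, lt_of_mul_lt_mul_right hn hdn.le⟩, hfr⟩
  have hJray : ∀ᶠ t : ℝ in 𝓝[>] (0 : ℝ), z + (t : ℂ) * d ∈ J := by
    filter_upwards [WinC_small (div_pos h.pos hdn)] with t ht
    apply h.ball
    rw [add_sub_cancel_left, norm_mul, Complex.norm_real, Real.norm_of_nonneg ht.1.le]
    rw [← lt_div_iff₀ hdn]
    exact ht.2
  have hunlit : ∀ᶠ t : ℝ in 𝓝[>] (0 : ℝ), z + (t : ℂ) * d ∉ A := by
    refine WinC_alt h.lb h.hJ (h.ball z (by simpa using h.pos)) hdne ?_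
    exact (hfr.and_eventually hJray).mono fun t ht => h.unlit ht.1 ht.2
  -- narrow sectors
  obtain ⟨κ, hκ0, hκ⟩ : ∃ κ : ℝ, 0 < κ ∧ ∀ d'' ∈ Dd, ∀ t x : ℝ, 0 < t → x ≠ 0 → |x| < κ * t →
      cr d'' ((t : ℂ) * d + (x : ℂ) * e) ≠ 0 := by
    have h1 : ∀ᶠ κ : ℝ in 𝓝[>] (0 : ℝ), ∀ d'' ∈ Dd, ∀ t x : ℝ, 0 < t → x ≠ 0 → |x| < κ * t →
        cr d'' ((t : ℂ) * d + (x : ℂ) * e) ≠ 0 := by
      rw [Filter.eventually_all_finset]
      intro d'' hd''
      have e1 : ∀ t x : ℝ, cr d'' ((t : ℂ) * d + (x : ℂ) * e) = t * cr d'' d + x * cr d'' e := by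
        intro t x
        rw [cr_add_right, cr_mul_right, cr_mul_right]
      by_cases h2 : cr d'' e = 0
      · have h3 : cr d'' d ≠ 0 := by
          intro h3
          have h4 := cr_dec (show cr e d ≠ 0 by rw [hed]; exact heν) d''
          rw [h3, show cr e d'' = 0 by rw [cr_swap, h2, neg_zero]] at h4
          simp at h4
          exact h.ne d'' hd'' h4
        refine Filter.Eventually.of_forall fun κ t x ht hx hxt h4 => ?_
        rw [e1, h2, mul_zero, add_zero] at h4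
        exact (mul_ne_zero ht.ne' h3) h4
      · by_cases h3 : cr d'' d = 0
        · refine Filter.Eventually.of_forall fun κ t x ht hx hxt h4 => ?_
          rw [e1, h3, mul_zero, zero_add] at h4
          exact (mul_ne_zero hx h2) h4
        · filter_upwards [WinC_small (abs_pos.2 (div_ne_zero h3 h2))] with κ hκ t x ht hx hxt h4
          rw [e1] at h4
          have h5 : x = -(t * (cr d'' d / cr d'' e)) := by
            field_simp
            linarith
          rw [h5, abs_neg, abs_mul, abs_of_pos ht, mul_comm] at hxt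
          have := lt_of_mul_lt_mul_right hxt ht.le
          linarith [hκ.2]
    obtain ⟨κ, ⟨hκ0, -⟩, hκ⟩ := ((WinC_small one_pos).and h1).exists
    exact ⟨κ, hκ0, hκ⟩
  -- size of the sectors
  obtain ⟨τ, hτ0, hτ1, hτ2⟩ : ∃ τ : ℝ, 0 < τ ∧ (∀ t : ℝ, 0 < t → t < τ → z + (t : ℂ) * d ∉ A) ∧
      ∀ t x : ℝ, 0 < t → t < τ → |x| < κ * t → ‖(t : ℂ) * d + (x : ℂ) * e‖ < ρ := by
    obtain ⟨u, hu, hUu⟩ := mem_nhdsGT_iff_exists_Ioo_subset.1 hunlit
    have hu' : 0 < u := hu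
    have hM : 0 < ‖d‖ + κ * ‖e‖ := by positivity
    refine ⟨min u (ρ / (‖d‖ + κ * ‖e‖)), lt_min hu' (div_pos h.pos hM),
      fun t ht0 ht1 => hUu ⟨ht0, ht1.trans_le (min_le_left _ _)⟩, fun t x ht0 ht1 hx => ?_⟩
    have h1 : t * (‖d‖ + κ * ‖e‖) < ρ := by
      rw [← lt_div_iff₀ hM]
      exact ht1.trans_le (min_le_right _ _)
    have h2 : ‖(t : ℂ) * d + (x : ℂ) * e‖ ≤ t * ‖d‖ + |x| * ‖e‖ := by
      refine (norm_add_le _ _).trans ?_
      rw [norm_mul, norm_mul, Complex.norm_real, Complex.norm_real, Real.norm_of_nonneg ht0.le,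
        Real.norm_eq_abs]
    have h3 : |x| * ‖e‖ ≤ κ * t * ‖e‖ := mul_le_mul_of_nonneg_right hx.le (norm_nonneg e)
    nlinarith
  have hnofr : ∀ t x : ℝ, 0 < t → t < τ → x ≠ 0 → |x| < κ * t →
      z + ((t : ℂ) * d + (x : ℂ) * e) ∉ frontier A := by
    intro t x ht0 ht1 hx hxt hfr'
    obtain ⟨d'', hd'', h3⟩ := h.dir _ hfr' (by rw [add_sub_cancel_left]; exact hτ2 t x ht0 ht1 hxt)
    rw [add_sub_cancel_left] at h3
    exact hκ d'' hd'' t x ht0 hx hxt h3
  -- a lit sector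
  obtain ⟨s, hs1, hsec⟩ : ∃ s : ℝ, |s| = 1 ∧ ∀ t x : ℝ, 0 < t → t < τ → 0 < x → x < κ * t →
      z + ((t : ℂ) * d + ((s * x : ℝ) : ℂ) * e) ∈ A := by
    -- a frontier point and a lit point close to it
    obtain ⟨y, hyfr, hy0, hyτ⟩ := (hfr.and_eventually (WinC_small hτ0)).exists
    have hedne : cr e d ≠ 0 := by rw [hed]; exact heν
    obtain ⟨t, x, ht0, htτ, hxt, hlit⟩ : ∃ t x : ℝ, 0 < t ∧ t < τ ∧ |x| < κ * t ∧
        z + ((t : ℂ) * d + (x : ℂ) * e) ∈ A := by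
      -- coordinates
      have hct : Continuous fun c : ℂ => cr e (c - z) / cr e d := by
        have h1 : Continuous fun c : ℂ => ((e, c - z) : ℂ × ℂ) := by fun_prop
        exact (cr_continuous.comp h1).div_const _
      have hcx : Continuous fun c : ℂ => cr (c - z) d / cr e d := by
        have h1 : Continuous fun c : ℂ => ((c - z, d) : ℂ × ℂ) := by fun_prop
        exact (cr_continuous.comp h1).div_const _
      have ht : cr e ((z + (y : ℂ) * d) - z) / cr e d = y := by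
        rw [add_sub_cancel_left, cr_mul_right]
        field_simp
      have hx : cr ((z + (y : ℂ) * d) - z) d / cr e d = 0 := by
        rw [add_sub_cancel_left, cr_mul_left, cr_self]
        simp
      have hopen : IsOpen {c : ℂ | 0 < cr e (c - z) / cr e d ∧ cr e (c - z) / cr e d < τ ∧
          |cr (c - z) d / cr e d| < κ * (cr e (c - z) / cr e d)} :=
        (isOpen_lt continuous_const hct).inter ((isOpen_lt hct continuous_const).inter
          (isOpen_lt hcx.abs (continuous_const.mul hct)))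
      have hmem : z + (y : ℂ) * d ∈ {c : ℂ | 0 < cr e (c - z) / cr e d ∧
          cr e (c - z) / cr e d < τ ∧
          |cr (c - z) d / cr e d| < κ * (cr e (c - z) / cr e d)} := by
        show 0 < cr e ((z + (y : ℂ) * d) - z) / cr e d ∧
          cr e ((z + (y : ℂ) * d) - z) / cr e d < τ ∧
          |cr ((z + (y : ℂ) * d) - z) d / cr e d| < κ * (cr e ((z + (y : ℂ) * d) - z) / cr e d)
        rw [ht, hx, abs_zero]
        exact ⟨hy0, hyτ, mul_pos hκ0 hy0⟩
      obtain ⟨c, hc, hcA⟩ := mem_closure_iff.1 hyfr.1 _ hopen hmem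
      refine ⟨cr e (c - z) / cr e d, cr (c - z) d / cr e d, hc.1, hc.2.1, hc.2.2, ?_⟩
      have h1 := cr_dec hedne (c - z)
      have h2 : z + (((cr e (c - z) / cr e d : ℝ) : ℂ) * d +
          ((cr (c - z) d / cr e d : ℝ) : ℂ) * e) = c := by
        rw [add_comm (((cr e (c - z) / cr e d : ℝ) : ℂ) * d), ← h1]
        ring
      rw [h2]
      exact hcA
    have hx0 : x ≠ 0 := by
      rintro rfl
      apply hτ1 t ht0 htτ
      simpa using hlit
    -- the sector of `x`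
    have hsect : ∀ s : ℝ, |s| = 1 → 0 < s * x → ∀ t' x' : ℝ, 0 < t' → t' < τ → 0 < x' →
        x' < κ * t' → z + ((t' : ℂ) * d + ((s * x' : ℝ) : ℂ) * e) ∈ A := by
      intro s hs hsx t' x' ht' htt' hx' hxt'
      have hss : s * s = 1 := by
        have := abs_mul_abs_self s
        rw [hs] at this
        linarith
      set f : ℝ × ℝ → ℂ := fun v => z + ((v.1 : ℂ) * d + ((s * v.2 : ℝ) : ℂ) * e) with hf'
      set S : Set (ℝ × ℝ) := {v | 0 < v.1 ∧ v.1 < τ ∧ 0 < v.2 ∧ v.2 < κ * v.1} with hS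
      have hScv : Convex ℝ S := by
        have c1 : Convex ℝ {v : ℝ × ℝ | 0 < v.1} :=
          convex_halfSpace_gt (LinearMap.isLinear (LinearMap.fst ℝ ℝ ℝ)) 0
        have c2 : Convex ℝ {v : ℝ × ℝ | v.1 < τ} :=
          convex_halfSpace_lt (LinearMap.isLinear (LinearMap.fst ℝ ℝ ℝ)) τ
        have c3 : Convex ℝ {v : ℝ × ℝ | 0 < v.2} :=
          convex_halfSpace_gt (LinearMap.isLinear (LinearMap.snd ℝ ℝ ℝ)) 0
        have c4 : Convex ℝ {v : ℝ × ℝ | v.2 < κ * v.1} := by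
          have c5 := convex_halfSpace_lt
            (LinearMap.isLinear (LinearMap.snd ℝ ℝ ℝ - κ • LinearMap.fst ℝ ℝ ℝ)) 0
          have c6 : {v : ℝ × ℝ | v.2 < κ * v.1} =
              {w | (LinearMap.snd ℝ ℝ ℝ - κ • LinearMap.fst ℝ ℝ ℝ) w < 0} := by
            ext v
            show v.2 < κ * v.1 ↔ v.2 - κ • v.1 < 0
            rw [smul_eq_mul, sub_neg]
          rw [c6]
          exact c5
        exact (c1.inter (c2.inter (c3.inter c4)))
      have hfc : Continuous f := by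
        rw [hf']
        fun_prop
      have hpre : IsPreconnected (f '' S) := hScv.isPreconnected.image f hfc.continuousOn
      have h1 : f '' S ⊆ A := by
        refine WinC_conn hpre ?_ ?_
        · rintro c ⟨v, hv, rfl⟩
          have hsv : |s * v.2| = v.2 := by rw [abs_mul, hs, one_mul, abs_of_pos hv.2.2.1]
          exact hnofr v.1 (s * v.2) hv.1 hv.2.1
            (fun h0 => by rw [h0, abs_zero] at hsv; linarith [hv.2.2.1]) (by rw [hsv]; exact hv.2.2.2)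
        · refine ⟨f (t, s * x), ⟨(t, s * x), ⟨ht0, htτ, hsx, ?_⟩, rfl⟩, ?_⟩
          · have : |s * x| = |x| := by rw [abs_mul, hs, one_mul]
            rw [abs_of_pos hsx] at this
            show s * x < κ * t
            rw [this]
            exact hxt
          · have : s * (s * x) = x := by rw [← mul_assoc, hss, one_mul]
            show z + ((t : ℂ) * d + ((s * (s * x) : ℝ) : ℂ) * e) ∈ A
            rw [this]
            exact hlit
      exact h1 ⟨(t', x'), ⟨ht', htt', hx', hxt'⟩, rfl⟩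
    rcases lt_or_gt_of_ne hx0 with h1 | h1
    · exact ⟨-1, by simp, hsect (-1) (by simp) (by linarith)⟩
    · exact ⟨1, by simp, hsect 1 (by simp) (by linarith)⟩
  refine ⟨a, τ, hτ0, fun δ hδ0 hδτ => ?_⟩
  have hun := hτ1 δ hδ0 hδτ
  have hkey : ∀ η : ℝ, 0 < η → ∃ t : ℝ, 0 < t ∧ t < η ∧
      z + (δ : ℂ) * d + ((s * t : ℝ) : ℂ) * e ∈ A := by
    intro η hη
    have h1 : 0 < κ * δ := mul_pos hκ0 hδ0
    refine ⟨min η (κ * δ) / 2, by have := lt_min hη h1; linarith,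
      by have := lt_min hη h1; linarith [min_le_left η (κ * δ)], ?_⟩
    have h2 := hsec δ (min η (κ * δ) / 2) hδ0 hδτ (by have := lt_min hη h1; linarith)
      (by have := lt_min hη h1; linarith [min_le_right η (κ * δ)])
    rwa [← add_assoc] at h2
  rcases (abs_eq one_pos.le).1 hs1 with h1 | h1
  · left
    refine ⟨hun, fun η hη => ?_⟩
    obtain ⟨t, ht0, ht1, ht2⟩ := hkey η hη
    refine ⟨t, ht0, ht1, ?_⟩
    rw [h1, one_mul] at ht2
    exact ht2
  · right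
    refine ⟨hun, fun η hη => ?_⟩
    obtain ⟨t, ht0, ht1, ht2⟩ := hkey η hη
    refine ⟨t, ht0, ht1, ?_⟩
    rw [h1] at ht2
    have h3 : (t : ℂ) * -e = ((-1 * t : ℝ) : ℂ) * e := by push_cast; ring
    rw [h3]
    exact ht2

/-- no frontier points off the line through `z` -/
private theorem WinC_reg {J A : Set ℂ} {N : ℕ} {Dd : Finset ℂ} {z : ℂ} {ρ : ℝ}
    (h : WinC_Loc J A N Dd z ρ) {e ν : ℂ} (heν : cr e ν ≠ 0) (hz : z ∈ frontier A)
    (hRB : ¬ WinC_RB A e z) {ρ1 : ℝ} (hρ1 : 0 < ρ1)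
    (hf : ∀ x y : ℝ, y ≠ 0 → ‖(x : ℂ) * e + (y : ℂ) * ν‖ < ρ1 →
      z + ((x : ℂ) * e + (y : ℂ) * ν) ∉ frontier A) : Reg (frontier A) z := by
  have he0 : e ≠ 0 := by
    rintro rfl
    rw [cr_zero_left] at heν
    exact heν rfl
  have hen : 0 < ‖e‖ := norm_pos_iff.2 he0
  have hzJ : z ∈ J := h.ball z (by simpa using h.pos)
  have hzA : z ∉ A := h.unlit hz hzJ
  -- the line is unlit near `z`
  obtain ⟨η, hη0, hη⟩ : ∃ η : ℝ, 0 < η ∧ ∀ t : ℝ, |t| < η → z + (t : ℂ) * e ∉ A := by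
    unfold WinC_RB WinC_RR at hRB
    push Not at hRB
    obtain ⟨η1, hη1, h1⟩ := hRB.1 hzA
    obtain ⟨η2, hη2, h2⟩ := hRB.2 hzA
    refine ⟨min η1 η2, lt_min hη1 hη2, fun t ht => ?_⟩
    rcases lt_trichotomy t 0 with h3 | h3 | h3
    · rw [abs_of_neg h3] at ht
      have := h2 (-t) (by linarith) (ht.trans_le (min_le_right _ _))
      have h4 : ((-t : ℝ) : ℂ) * -e = (t : ℂ) * e := by push_cast; ring
      rwa [h4] at this
    · rw [h3]
      simpa using hzA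
    · rw [abs_of_pos h3] at ht
      exact h1 t h3 (ht.trans_le (min_le_left _ _))
  set r : ℝ := min (min ρ ρ1) (η * ‖e‖) with hr
  have hr0 : 0 < r := lt_min (lt_min h.pos hρ1) (mul_pos hη0 hen)
  have hr1 : r ≤ ρ := (min_le_left _ _).trans (min_le_left _ _)
  have hr2 : r ≤ ρ1 := (min_le_left _ _).trans (min_le_right _ _)
  have hr3 : r ≤ η * ‖e‖ := min_le_right _ _
  have hline : ∀ t : ℝ, ‖(t : ℂ) * e‖ < r → z + (t : ℂ) * e ∉ A := by
    intro t ht
    apply hη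
    rw [norm_mul, Complex.norm_real, Real.norm_eq_abs] at ht
    exact lt_of_mul_lt_mul_right (ht.trans_le hr3) hen.le
  -- a lit half disc
  obtain ⟨s, hs, hhalf⟩ : ∃ s : ℝ, s ≠ 0 ∧ ∀ x y : ℝ, 0 < y →
      ‖(x : ℂ) * e + ((s * y : ℝ) : ℂ) * ν‖ < r →
      z + ((x : ℂ) * e + ((s * y : ℝ) : ℂ) * ν) ∈ A := by
    obtain ⟨c, hcA, hc⟩ := Metric.mem_closure_iff.1 hz.1 r hr0
    have hdec := cr_dec heν (c - z)
    set x0 : ℝ := cr (c - z) ν / cr e ν with hx0
    set y0 : ℝ := cr e (c - z) / cr e ν with hy0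
    have hcz : c = z + ((x0 : ℂ) * e + (y0 : ℂ) * ν) := by rw [← hdec]; ring
    have hn0 : ‖(x0 : ℂ) * e + (y0 : ℂ) * ν‖ < r := by
      rw [← hdec, ← dist_eq_norm, dist_comm]
      exact hc
    have hy0' : y0 ≠ 0 := by
      intro h0
      rw [h0] at hcz hn0
      simp only [Complex.ofReal_zero, zero_mul, add_zero] at hcz hn0
      rw [hcz] at hcA
      exact hline x0 hn0 hcA
    refine ⟨y0, hy0', fun x y hy hn => ?_⟩
    set f : ℝ × ℝ → ℂ := fun v => (v.1 : ℂ) * e + ((y0 * v.2 : ℝ) : ℂ) * ν with hf'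
    set S : Set (ℝ × ℝ) := {v | 0 < v.2 ∧ ‖f v‖ < r} with hS
    have hScv : Convex ℝ S := by
      have c1 : Convex ℝ {v : ℝ × ℝ | 0 < v.2} :=
        convex_halfSpace_gt (LinearMap.isLinear (LinearMap.snd ℝ ℝ ℝ)) 0
      have c2 : Convex ℝ {v : ℝ × ℝ | ‖f v‖ < r} := by
        intro v hv w hw a b ha hb hab
        change ‖f v‖ < r at hv
        change ‖f w‖ < r at hw
        show ‖f (a • v + b • w)‖ < r
        have h1 : f (a • v + b • w) = (a : ℂ) * f v + (b : ℂ) * f w := by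
          simp only [hf', Prod.fst_add, Prod.smul_fst, smul_eq_mul, Prod.snd_add, Prod.smul_snd]
          push_cast
          ring
        rw [h1]
        calc ‖(a : ℂ) * f v + (b : ℂ) * f w‖ ≤ a * ‖f v‖ + b * ‖f w‖ := by
              refine (norm_add_le _ _).trans ?_
              rw [norm_mul, norm_mul, Complex.norm_real, Complex.norm_real,
                Real.norm_of_nonneg ha, Real.norm_of_nonneg hb]
          _ < r := by
              rcases lt_or_eq_of_le ha with h2 | h2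
              · nlinarith
              · have h3 : b = 1 := by linarith
                rw [← h2, h3]
                linarith
      exact c1.inter c2
    have hfc : Continuous fun v => z + f v := by
      rw [hf']
      fun_prop
    have hpre : IsPreconnected ((fun v => z + f v) '' S) :=
      hScv.isPreconnected.image _ hfc.continuousOn
    have h1 : (fun v => z + f v) '' S ⊆ A := by
      refine WinC_conn hpre ?_ ?_
      · rintro c' ⟨v, hv, rfl⟩
        exact hf v.1 (y0 * v.2) (mul_ne_zero hy0' hv.1.ne') (hv.2.trans_le hr2)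
      · refine ⟨z + f (x0, 1), ⟨(x0, 1), ⟨one_pos, ?_⟩, rfl⟩, ?_⟩
        · show ‖(x0 : ℂ) * e + ((y0 * 1 : ℝ) : ℂ) * ν‖ < r
          rw [mul_one]
          exact hn0
        · show z + ((x0 : ℂ) * e + ((y0 * 1 : ℝ) : ℂ) * ν) ∈ A
          rw [mul_one, ← hcz]
          exact hcA
    exact h1 ⟨(x, y), ⟨hy, hn⟩, rfl⟩
  refine ⟨e, he0, r, hr0, fun z' hz' => ?_⟩
  have hdec := cr_dec heν (z' - z)
  constructor
  · intro hfr
    by_cases hy : cr e (z' - z) / cr e ν = 0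
    · refine ⟨cr (z' - z) ν / cr e ν, ?_⟩
      rw [hy] at hdec
      simp only [Complex.ofReal_zero, zero_mul, add_zero] at hdec
      rw [← hdec]
      ring
    · exfalso
      refine hf _ _ hy (by rw [← hdec]; exact hz'.trans_le hr2) ?_
      rw [← hdec, add_sub_cancel]
      exact hfr
  · rintro ⟨t, rfl⟩
    rw [add_sub_cancel_left] at hz'
    have h1 : z + (t : ℂ) * e ∉ A := hline t hz'
    refine ⟨?_, fun h2 => h1 (interior_subset h2)⟩
    have hcont : Continuous fun y : ℝ => (t : ℂ) * e + ((s * y : ℝ) : ℂ) * ν := by fun_prop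
    have h2 : ∀ᶠ y : ℝ in 𝓝[>] (0 : ℝ), z + ((t : ℂ) * e + ((s * y : ℝ) : ℂ) * ν) ∈ A := by
      have h3 : ∀ᶠ y : ℝ in 𝓝 (0 : ℝ), ‖(t : ℂ) * e + ((s * y : ℝ) : ℂ) * ν‖ < r := by
        refine hcont.norm.continuousAt.eventually_lt continuousAt_const ?_
        simpa using hz'
      filter_upwards [mem_nhdsWithin_of_mem_nhds h3, self_mem_nhdsWithin] with y hy1 hy2
      exact hhalf t y hy2 hy1
    have h3 : Filter.Tendsto (fun y : ℝ => z + ((t : ℂ) * e + ((s * y : ℝ) : ℂ) * ν))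
        (𝓝[>] (0 : ℝ)) (𝓝 (z + (t : ℂ) * e)) := by
      have h4 : Continuous fun y : ℝ => z + ((t : ℂ) * e + ((s * y : ℝ) : ℂ) * ν) :=
        continuous_const.add hcont
      have h5 := h4.tendsto 0
      simp only [mul_zero, Complex.ofReal_zero, zero_mul, add_zero] at h5
      exact h5.mono_left nhdsWithin_le_nhds
    exact mem_closure_of_tendsto h3 h2

/-- counting the points with a given type -/
private theorem WinC_cnt {J A : Set ℂ} {N : ℕ} (h : WinC_LB J A N) (hJ : IsOpen J) {b e ν : ℂ}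
    (he : e ≠ 0) (hseg : ∀ s : ℝ, 0 < s → s < 1 → b + (s : ℂ) * e ∈ J) (F : Finset ℝ)
    (hF : ∀ t ∈ F, 0 < t ∧ t < 1 ∧ ∃ a τ : ℝ, 0 < τ ∧ ∀ δ : ℝ, 0 < δ → δ < τ →
      WinC_RB A e (b + (t : ℂ) * e + (δ : ℂ) * ((a : ℂ) * e + ν))) : F.card ≤ 2 * N := by
  classical
  have hF' : ∀ t ∈ F, ∃ a τ : ℝ, 0 < τ ∧ ∀ δ : ℝ, 0 < δ → δ < τ →
      WinC_RB A e (b + (t : ℂ) * e + (δ : ℂ) * ((a : ℂ) * e + ν)) := fun t ht => (hF t ht).2.2
  choose! a τ hτ using hF'
  -- `s1`, `s2`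
  obtain ⟨σ, hσ0, hσ1, hσ⟩ : ∃ σ : ℝ, 0 < σ ∧ σ < 1 / 2 ∧ ∀ t ∈ F, σ < t ∧ t < 1 - σ := by
    have h1 : ∀ᶠ σ : ℝ in 𝓝[>] (0 : ℝ), ∀ t ∈ F, σ < t ∧ t < 1 - σ := by
      rw [Filter.eventually_all_finset]
      intro t ht
      filter_upwards [WinC_small (hF t ht).1,
        WinC_small (show (0 : ℝ) < 1 - t by linarith [(hF t ht).2.1])] with σ h1 h2
      exact ⟨h1.2, by linarith [h2.2]⟩
    obtain ⟨σ, h2, h3⟩ := ((WinC_small (show (0 : ℝ) < 1 / 2 by norm_num)).and h1).exists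
    exact ⟨σ, h2.1, h2.2, h3⟩
  -- the parallel segment is in `J`
  have hpar : ∀ᶠ δ : ℝ in 𝓝[>] (0 : ℝ), ∀ s ∈ Icc σ (1 - σ), b + (δ : ℂ) * ν + (s : ℂ) * e ∈ J := by
    apply mem_nhdsWithin_of_mem_nhds
    refine isCompact_Icc.eventually_forall_of_forall_eventually
      (P := fun (δ : ℝ) (s : ℝ) => b + (δ : ℂ) * ν + (s : ℂ) * e ∈ J) fun s hs => ?_
    have hcont : Continuous fun v : ℝ × ℝ => b + (v.1 : ℂ) * ν + (v.2 : ℂ) * e := by fun_prop
    refine hcont.continuousAt.preimage_mem_nhds (hJ.mem_nhds ?_)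
    have := hseg s (by linarith [hs.1]) (by linarith [hs.2])
    simpa using this
  -- the parameters
  have hpt : ∀ᶠ δ : ℝ in 𝓝[>] (0 : ℝ), ∀ t ∈ F, δ < τ t ∧ σ < t + δ * a t ∧ t + δ * a t < 1 - σ := by
    rw [Filter.eventually_all_finset]
    intro t ht
    have hcont : Continuous fun δ : ℝ => t + δ * a t := by fun_prop
    have h1 : ∀ᶠ δ : ℝ in 𝓝 (0 : ℝ), σ < t + δ * a t :=
      continuousAt_const.eventually_lt hcont.continuousAt (by simpa using (hσ t ht).1)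
    have h2 : ∀ᶠ δ : ℝ in 𝓝 (0 : ℝ), t + δ * a t < 1 - σ :=
      hcont.continuousAt.eventually_lt continuousAt_const (by simpa using (hσ t ht).2)
    filter_upwards [WinC_small (hτ t ht).1, mem_nhdsWithin_of_mem_nhds h1,
      mem_nhdsWithin_of_mem_nhds h2] with δ h3 h4 h5
    exact ⟨h3.2, h4, h5⟩
  have hinj : ∀ᶠ δ : ℝ in 𝓝[>] (0 : ℝ), ∀ t ∈ F, ∀ t' ∈ F, t < t' → t + δ * a t < t' + δ * a t' := by
    rw [Filter.eventually_all_finset]
    intro t ht
    rw [Filter.eventually_all_finset]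
    intro t' ht'
    by_cases htt : t < t'
    · have h1 : ∀ᶠ δ : ℝ in 𝓝 (0 : ℝ), t + δ * a t < t' + δ * a t' :=
        (show Continuous fun δ : ℝ => t + δ * a t by fun_prop).continuousAt.eventually_lt
          (show Continuous fun δ : ℝ => t' + δ * a t' by fun_prop).continuousAt (by simpa using htt)
      filter_upwards [mem_nhdsWithin_of_mem_nhds h1] with δ h2 _
      exact h2
    · exact Filter.Eventually.of_forall fun δ h' => absurd h' htt
  obtain ⟨δ, ⟨hδ0, -⟩, hδ1, hδ2, hδ3⟩ :=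
    ((WinC_small one_pos).and (hpar.and (hpt.and hinj))).exists
  have hio : Set.InjOn (fun t => t + δ * a t) F := by
    intro t ht t' ht' htt
    by_contra hne
    rcases lt_or_gt_of_ne hne with h1 | h1
    · exact absurd htt (hδ3 t ht t' ht' h1).ne
    · exact absurd htt (hδ3 t' ht' t ht h1).ne'
  rw [← Finset.card_image_of_injOn hio]
  refine WinC_count h he (b := b + (δ : ℂ) * ν) (s1 := σ) (s2 := 1 - σ) (by linarith)
    (fun s hs1 hs2 => hδ1 s ⟨hs1, hs2⟩) _ fun g hg => ?_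
  obtain ⟨t, ht, rfl⟩ := Finset.mem_image.1 hg
  refine ⟨(hδ2 t ht).2.1, (hδ2 t ht).2.2, ?_⟩
  have h1 := (hτ t ht).2 δ hδ0 (hδ2 t ht).1
  have h2 : b + (δ : ℂ) * ν + ((t + δ * a t : ℝ) : ℂ) * e =
      b + (t : ℂ) * e + (δ : ℂ) * ((a t : ℂ) * e + ν) := by
    push_cast
    ring
  show WinC_RB A e (b + (δ : ℂ) * ν + ((t + δ * a t : ℝ) : ℂ) * e)
  rw [h2]
  exact h1

namespace Poly

variable {n : ℕ} (P : Poly n)

/-- from chords to segments in `I` -/
private theorem WinC_chord {A : Set ℂ} {N : ℕ}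
    (hB : ∀ (ω1 ω2 : ℝ) (T : Finset ℝ), P.Vis (P.γ ω1) (P.γ ω2) →
      (∀ t ∈ T, 0 < t ∧ t < 1 ∧ P.γ ω1 + (t : ℂ) * (P.γ ω2 - P.γ ω1) ∈ A) →
      (∀ t ∈ T, ∀ t' ∈ T, t < t' → ∃ τ, t < τ ∧ τ < t' ∧
        P.γ ω1 + (τ : ℂ) * (P.γ ω2 - P.γ ω1) ∉ A) → T.card ≤ N) : WinC_LB P.I A N := by
  classical
  intro b e he s1 s2 hs hI T hT hT'
  set c0 : ℂ := b + (s1 : ℂ) * e with hc0
  have hc0I : c0 ∈ P.I := hI s1 le_rfl hs
  obtain ⟨t1, ht1, ht1C, ht1I⟩ := P.ray_hit c0 hc0I e he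
  obtain ⟨t2, ht2, ht2C, ht2I⟩ := P.ray_hit c0 hc0I (-e) (neg_ne_zero.2 he)
  obtain ⟨ω1, hω1⟩ := (P.mem_C_iff _).1 ht2C
  obtain ⟨ω2, hω2⟩ := (P.mem_C_iff _).1 ht1C
  have hs2 : s2 - s1 < t1 := by
    by_contra hcon
    push Not at hcon
    have h1 := hI (s1 + t1) (by linarith) (by linarith)
    have h2 : b + ((s1 + t1 : ℝ) : ℂ) * e = c0 + (t1 : ℂ) * e := by
      rw [hc0]; push_cast; ring
    rw [h2] at h1
    exact P.I_disj_C h1 ht1C
  have hL : 0 < t1 + t2 := by linarith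
  have hdiff : P.γ ω2 - P.γ ω1 = ((t1 + t2 : ℝ) : ℂ) * e := by
    rw [hω1, hω2]
    push_cast
    ring
  have hpt : ∀ u : ℝ, P.γ ω1 + (u : ℂ) * (P.γ ω2 - P.γ ω1) =
      c0 + ((u * (t1 + t2) - t2 : ℝ) : ℂ) * e := by
    intro u
    rw [hdiff, hω1]
    push_cast
    ring
  have hvis : P.Vis (P.γ ω1) (P.γ ω2) := by
    intro c hc
    rw [openSegment_eq_image'] at hc
    obtain ⟨u, ⟨hu0, hu1⟩, rfl⟩ := hc
    simp only [Complex.real_smul]
    rw [hpt]
    have h1 : 0 < u * (t1 + t2) := mul_pos hu0 hL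
    have h2 : u * (t1 + t2) < t1 + t2 := by nlinarith
    by_cases h3 : 0 ≤ u * (t1 + t2) - t2
    · exact ht1I _ h3 (by linarith)
    · push Not at h3
      have h4 := ht2I (-(u * (t1 + t2) - t2)) (by linarith) (by linarith)
      have h5 : c0 + ((-(u * (t1 + t2) - t2) : ℝ) : ℂ) * -e =
          c0 + ((u * (t1 + t2) - t2 : ℝ) : ℂ) * e := by push_cast; ring
      rwa [h5] at h4
  set φ : ℝ → ℝ := fun t => (t - s1 + t2) / (t1 + t2) with hφ
  have hφlt : ∀ t t' : ℝ, t < t' ↔ φ t < φ t' := by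
    intro t t'
    simp only [hφ]
    rw [div_lt_div_iff_of_pos_right hL]
    constructor <;> intro h <;> linarith
  have hφpt : ∀ t : ℝ, P.γ ω1 + (φ t : ℂ) * (P.γ ω2 - P.γ ω1) = b + (t : ℂ) * e := by
    intro t
    rw [hpt]
    have h1 : φ t * (t1 + t2) - t2 = t - s1 := by
      simp only [hφ]
      field_simp
      ring
    rw [h1, hc0]
    push_cast
    ring
  have hφinj : Function.Injective φ := by
    intro t t' htt
    by_contra hne
    rcases lt_or_gt_of_ne hne with h1 | h1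
    · exact absurd htt ((hφlt _ _).1 h1).ne
    · exact absurd htt ((hφlt _ _).1 h1).ne'
  rw [← Finset.card_image_of_injective T hφinj]
  refine hB ω1 ω2 _ hvis ?_ ?_
  · intro u hu
    obtain ⟨t, ht, rfl⟩ := Finset.mem_image.1 hu
    obtain ⟨h1, h2, h3⟩ := hT t ht
    refine ⟨div_pos (by linarith) hL, ?_, ?_⟩
    · simp only [hφ]
      rw [div_lt_one hL]
      linarith
    · rw [hφpt]
      exact h3
  · intro u hu u' hu' huu
    obtain ⟨t, ht, rfl⟩ := Finset.mem_image.1 hu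
    obtain ⟨t', ht', rfl⟩ := Finset.mem_image.1 hu'
    obtain ⟨τ, h1, h2, h3⟩ := hT' t ht t' ht' ((hφlt _ _).2 huu)
    exact ⟨φ τ, (hφlt _ _).1 h1, (hφlt _ _).1 h2, by rw [hφpt]; exact h3⟩

/-- local structure -/
private theorem WinC_loc (hc : P.CCW) {p : ℂ} {k : ℕ} {N : ℕ}
    (hLB : WinC_LB P.I (P.VV p k) N)
    (W : Finset (ℂ × ℂ)) (hW : ∀ w ∈ W, w.1 ∈ P.C ∧ w.2 ∈ P.C ∧ P.Vis w.1 w.2)
    (hcov : ∀ z ∈ frontier (P.VV p k), z ∈ P.I → ∃ w ∈ W, z ∈ openSegment ℝ w.1 w.2)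
    {z : ℂ} (hz : z ∈ P.I) :
    ∃ (Dd : Finset ℂ) (ρ : ℝ), WinC_Loc P.I (P.VV p k) N Dd z ρ := by
  classical
  have hball : ∀ᶠ ρ : ℝ in 𝓝[>] (0 : ℝ), ∀ c : ℂ, ‖c - z‖ < ρ → c ∈ P.I := by
    obtain ⟨ε, hε, hb⟩ := Metric.isOpen_iff.1 P.I_open z hz
    filter_upwards [WinC_small hε] with ρ hρ c hcρ
    apply hb
    rw [Metric.mem_ball, dist_eq_norm]
    exact hcρ.trans hρ.2
  have hdir : ∀ᶠ ρ : ℝ in 𝓝[>] (0 : ℝ), ∀ w ∈ W, ∀ c ∈ openSegment ℝ w.1 w.2, ‖c - z‖ < ρ →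
      cr (w.2 - w.1) (c - z) = 0 := by
    rw [Filter.eventually_all_finset]
    intro w hw
    by_cases hzw : z ∈ segment ℝ w.1 w.2
    · refine Filter.Eventually.of_forall fun ρ c hcw _ => ?_
      have hcw' := openSegment_subset_segment ℝ _ _ hcw
      rw [segment_eq_image'] at hzw hcw'
      obtain ⟨s, -, hs⟩ := hzw
      obtain ⟨t, -, ht⟩ := hcw'
      have h1 : c - z = ((t - s : ℝ) : ℂ) * (w.2 - w.1) := by
        rw [← hs, ← ht]
        simp only [Complex.real_smul]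
        push_cast
        ring
      rw [h1, cr_mul_right, cr_self, mul_zero]
    · have hcl : IsClosed (segment ℝ w.1 w.2) := by
        rw [segment_eq_image']
        refine (isCompact_Icc.image ?_).isClosed
        fun_prop
      have ho : (segment ℝ w.1 w.2)ᶜ ∈ 𝓝 z := hcl.isOpen_compl.mem_nhds hzw
      obtain ⟨ε, hε, hb⟩ := Metric.mem_nhds_iff.1 ho
      filter_upwards [WinC_small hε] with ρ hρ c hcw hcρ
      exfalso
      have h1 : c ∈ Metric.ball z ε := by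
        rw [Metric.mem_ball, dist_eq_norm]
        exact hcρ.trans hρ.2
      exact hb h1 (openSegment_subset_segment ℝ _ _ hcw)
  obtain ⟨ρ, ⟨hρ0, -⟩, h1, h2⟩ := ((WinC_small one_pos).and (hball.and hdir)).exists
  refine ⟨W.image fun w => w.2 - w.1, ρ, hLB, P.I_open, ?_, hρ0, h1, ?_, ?_⟩
  · intro c hcV hcI
    obtain ⟨ε, hε, h3⟩ := P.VV_open hc hcV hcI
    refine Metric.mem_nhds_iff.2 ⟨ε, hε, fun c' hc' => h3 c' ?_⟩
    rw [Metric.mem_ball, dist_eq_norm] at hc'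
    exact hc'
  · intro d hd
    obtain ⟨w, hw, rfl⟩ := Finset.mem_image.1 hd
    obtain ⟨x, hx⟩ := (P.mem_C_iff _).1 (hW w hw).1
    have h3 := (hW w hw).2.2
    rw [← hx] at h3
    have h4 := h3.ne
    rw [hx] at h4
    exact sub_ne_zero.2 h4.symm
  · intro c hcf hcρ
    obtain ⟨w, hw, hcw⟩ := hcov c hcf (h1 c hcρ)
    exact ⟨w.2 - w.1, Finset.mem_image_of_mem _ hw, h2 w hw c hcw hcρ⟩

/-- the three types -/
private theorem WinC_types (hc : P.CCW) {p : ℂ} {k : ℕ} {N : ℕ}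
    (hLB : WinC_LB P.I (P.VV p k) N)
    (W : Finset (ℂ × ℂ)) (hW : ∀ w ∈ W, w.1 ∈ P.C ∧ w.2 ∈ P.C ∧ P.Vis w.1 w.2)
    (hcov : ∀ z ∈ frontier (P.VV p k), z ∈ P.I → ∃ w ∈ W, z ∈ openSegment ℝ w.1 w.2)
    {z e ν : ℂ} (heν : cr e ν ≠ 0) (hz : z ∈ P.I) (hzf : z ∈ frontier (P.VV p k))
    (hreg : ¬ Reg (frontier (P.VV p k)) z) :
    ∃ μ ∈ ({0, ν, -ν} : Finset ℂ), ∃ a τ : ℝ, 0 < τ ∧ ∀ δ : ℝ, 0 < δ → δ < τ →
      WinC_RB (P.VV p k) e (z + (δ : ℂ) * ((a : ℂ) * e + μ)) := by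
  obtain ⟨Dd, ρ, hl⟩ := P.WinC_loc hc hLB W hW hcov hz
  by_cases hRB : WinC_RB (P.VV p k) e z
  · refine ⟨0, by simp, 0, 1, one_pos, fun δ _ _ => ?_⟩
    simpa using hRB
  by_cases hp : ∀ ε : ℝ, 0 < ε → ∃ x y : ℝ, 0 < y ∧ ‖(x : ℂ) * e + (y : ℂ) * ν‖ < ε ∧
      z + ((x : ℂ) * e + (y : ℂ) * ν) ∈ frontier (P.VV p k)
  · exact ⟨ν, by simp, WinC_side hl heν hp⟩
  by_cases hm : ∀ ε : ℝ, 0 < ε → ∃ x y : ℝ, 0 < y ∧ ‖(x : ℂ) * e + (y : ℂ) * -ν‖ < ε ∧
      z + ((x : ℂ) * e + (y : ℂ) * -ν) ∈ frontier (P.VV p k)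
  · exact ⟨-ν, by simp, WinC_side hl (by rw [cr_neg_right]; exact neg_ne_zero.2 heν) hm⟩
  exfalso
  push Not at hp hm
  obtain ⟨ε1, hε1, h1⟩ := hp
  obtain ⟨ε2, hε2, h2⟩ := hm
  refine hreg (WinC_reg hl heν hzf hRB (lt_min hε1 hε2) fun x y hy hn => ?_)
  rcases lt_or_gt_of_ne hy with h3 | h3
  · have h4 := h2 x (-y) (by linarith)
    have h5 : (x : ℂ) * e + ((-y : ℝ) : ℂ) * -ν = (x : ℂ) * e + (y : ℂ) * ν := by push_cast; ring
    rw [h5] at h4
    exact h4 (hn.trans_le (min_le_right _ _))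
  · exact h1 x y h3 (hn.trans_le (min_le_left _ _))

theorem events (hc : P.CCW) {p : ℂ} {k : ℕ} {N : ℕ}
    (hB : ∀ (ω1 ω2 : ℝ) (T : Finset ℝ), P.Vis (P.γ ω1) (P.γ ω2) →
      (∀ t ∈ T, 0 < t ∧ t < 1 ∧ P.γ ω1 + (t : ℂ) * (P.γ ω2 - P.γ ω1) ∈ P.VV p k) →
      (∀ t ∈ T, ∀ t' ∈ T, t < t' → ∃ τ, t < τ ∧ τ < t' ∧
        P.γ ω1 + (τ : ℂ) * (P.γ ω2 - P.γ ω1) ∉ P.VV p k) → T.card ≤ N)
    (W : Finset (ℂ × ℂ)) (hW : ∀ w ∈ W, w.1 ∈ P.C ∧ w.2 ∈ P.C ∧ P.Vis w.1 w.2)
    (hcov : ∀ z ∈ frontier (P.VV p k), z ∈ P.I → ∃ w ∈ W, z ∈ openSegment ℝ w.1 w.2)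
    {w : ℂ × ℂ} (hw : w ∈ W) (F : Finset ℂ)
    (hF : ∀ z ∈ F, z ∈ openSegment ℝ w.1 w.2 ∧ z ∈ frontier (P.VV p k) ∧
      ¬ Reg (frontier (P.VV p k)) z) : F.card ≤ 6 * N := by
  classical
  have hLB : WinC_LB P.I (P.VV p k) N := P.WinC_chord hB
  have hvis := (hW w hw).2.2
  set e : ℂ := w.2 - w.1 with he
  have he0 : e ≠ 0 := by
    obtain ⟨x, hx⟩ := (P.mem_C_iff _).1 (hW w hw).1
    have h3 := hvis
    rw [← hx] at h3
    have h4 := h3.ne
    rw [hx] at h4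
    exact sub_ne_zero.2 h4.symm
  set ν : ℂ := Complex.I * e with hν
  have heν : cr e ν ≠ 0 := by
    have h1 : cr e ν = ‖e‖ ^ 2 := by
      rw [hν, ← Complex.normSq_eq_norm_sq, Complex.normSq_apply]
      simp [cr]
    rw [h1]
    have := norm_pos_iff.2 he0
    positivity
  have hseg : ∀ s : ℝ, 0 < s → s < 1 → w.1 + (s : ℂ) * e ∈ P.I := by
    intro s hs0 hs1
    apply hvis
    rw [openSegment_eq_image']
    exact ⟨s, ⟨hs0, hs1⟩, by simp only [Complex.real_smul, he]⟩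
  -- parameters
  have hpar : ∀ z ∈ F, ∃ t : ℝ, 0 < t ∧ t < 1 ∧ z = w.1 + (t : ℂ) * e := by
    intro z hz
    have h1 := (hF z hz).1
    rw [openSegment_eq_image'] at h1
    obtain ⟨t, ⟨ht0, ht1⟩, ht⟩ := h1
    refine ⟨t, ht0, ht1, ?_⟩
    rw [← ht]
    simp only [Complex.real_smul, he]
  choose! t ht using hpar
  have htinj : Set.InjOn t F := by
    intro z hz z' hz' hzz
    rw [(ht z hz).2.2, (ht z' hz').2.2, hzz]
  have htypes : ∀ z ∈ F, ∃ μ ∈ ({0, ν, -ν} : Finset ℂ), ∃ a τ : ℝ, 0 < τ ∧ ∀ δ : ℝ, 0 < δ →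
      δ < τ → WinC_RB (P.VV p k) e (z + (δ : ℂ) * ((a : ℂ) * e + μ)) := by
    intro z hz
    refine P.WinC_types hc hLB W hW hcov heν (hvis (hF z hz).1) (hF z hz).2.1 (hF z hz).2.2
  choose! μ hμ using htypes
  have hfib : ∀ μ0 ∈ ({0, ν, -ν} : Finset ℂ), (F.filter fun z => μ z = μ0).card ≤ 2 * N := by
    intro μ0 _
    rw [← Finset.card_image_of_injOn (f := t) (s := F.filter fun z => μ z = μ0)
      (htinj.mono (by intro z hz; exact (Finset.mem_filter.1 hz).1))]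
    refine WinC_cnt hLB P.I_open (b := w.1) (e := e) (ν := μ0) he0 hseg _ fun t' ht' => ?_
    obtain ⟨z, hz, rfl⟩ := Finset.mem_image.1 ht'
    obtain ⟨hzF, hzμ⟩ := Finset.mem_filter.1 hz
    refine ⟨(ht z hzF).1, (ht z hzF).2.1, ?_⟩
    have h1 := (hμ z hzF).2
    rw [← (ht z hzF).2.2, ← hzμ]
    exact h1
  have hcard : F.card = ∑ μ0 ∈ ({0, ν, -ν} : Finset ℂ), (F.filter fun z => μ z = μ0).card :=
    Finset.card_eq_sum_card_fiberwise fun z hz => (hμ z hz).1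
  rw [hcard]
  calc ∑ μ0 ∈ ({0, ν, -ν} : Finset ℂ), (F.filter fun z => μ z = μ0).card
      ≤ ({0, ν, -ν} : Finset ℂ).card • (2 * N) := Finset.sum_le_card_nsmul _ _ _ hfib
    _ ≤ 3 * (2 * N) := by
        rw [smul_eq_mul]
        exact Nat.mul_le_mul_right _ Finset.card_le_three
    _ = 6 * N := by ring

end Poly

end Pool.Agent.Lib_PL
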