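import Pool.Agent.Lib_PL.Levels

/-!
The frontier near a boundary point which is not a vertex and not an end of a window: near it there are no windows (finitely many
closed segments), so the half disc inside is lit or unlit.  If it is lit the frontier is locally the edge.  If it is unlit
then no point of the edge nearby is lit (points of the free segment from a lit point `γ x'` to the point lighting it are lit too), so
`γ x` is not in the frontier.
-/

open Set Complex
open scoped Topology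

namespace Pool.Agent.Lib_PL

namespace Poly

variable {n : ℕ} (P : Poly n)

private theorem WinD_seg {p z : ℂ} {k : ℕ} (h : z ∈ P.VV p k) :
    ∃ r : ℂ, openSegment ℝ r z ⊆ P.I ∩ P.VV p k := by
  have h0 : z ∈ P.VV p 0 → ∃ r : ℂ, openSegment ℝ r z ⊆ P.I ∩ P.VV p k := by
    intro h0
    obtain ⟨-, hv⟩ := (P.VV_zero p z).1 h0
    refine ⟨p, fun c hc => ⟨hv hc, ?_⟩⟩
    refine P.VV_mono p (Nat.zero_le k) ((P.VV_zero p c).2 ⟨P.I_sub_R (hv hc), ?_⟩)
    rcases eq_or_ne p c with rfl | hne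
    · intro y hy
      rw [openSegment_same, mem_singleton_iff] at hy
      rw [hy]
      exact hv hc
    · exact Vis.sub hv (left_mem_segment ℝ p z) (openSegment_subset_segment ℝ p z hc) hne
  cases k with
  | zero => exact h0 h
  | succ k =>
    rcases (P.VV_succ p z k).1 h with h | ⟨-, x, hx, hv⟩
    · exact h0 h
    · exact ⟨P.γ x, fun c hc => ⟨hv hc, P.VV_of_seg hx hv hc⟩⟩

private theorem WinD_far (z : ℂ) (W : Finset (ℂ × ℂ)) (h : ∀ w ∈ W, z ∉ segment ℝ w.1 w.2) :
    ∃ ρ > 0, ∀ w ∈ W, ∀ z' : ℂ, ‖z' - z‖ < ρ → z' ∉ segment ℝ w.1 w.2 := by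
  have hcl : IsClosed (⋃ w ∈ (W : Set (ℂ × ℂ)), segment ℝ w.1 w.2) := by
    refine W.finite_toSet.isClosed_biUnion fun w _ => ?_
    rw [← closure_openSegment]
    exact isClosed_closure
  have hz : z ∈ (⋃ w ∈ (W : Set (ℂ × ℂ)), segment ℝ w.1 w.2)ᶜ := by
    simp only [mem_compl_iff, mem_iUnion, not_exists]
    exact h
  obtain ⟨ρ, hρ, hb⟩ := Metric.isOpen_iff.1 hcl.isOpen_compl z hz
  refine ⟨ρ, hρ, fun w hw z' hz' hm => ?_⟩
  have := hb (show z' ∈ Metric.ball z ρ by rw [mem_ball_iff_norm]; exact hz')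
  simp only [mem_compl_iff, mem_iUnion, not_exists] at this
  exact this w hw hm

private theorem WinD_half (g e : ℂ) (ρ : ℝ) :
    IsPreconnected {z' : ℂ | ‖z' - g‖ < ρ ∧ 0 < cr e (z' - g)} := by
  apply Convex.isPreconnected
  intro a ha b hb s t hs ht hst
  have e1 : s • a + t • b - g = (s : ℂ) * (a - g) + (t : ℂ) * (b - g) := by
    have : (s : ℂ) + (t : ℂ) = 1 := by exact_mod_cast hst
    simp only [real_smul]
    linear_combination g * this
  refine ⟨?_, ?_⟩
  · have : s • a + t • b ∈ Metric.ball g ρ := by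
      refine (convex_ball g ρ) ?_ ?_ hs ht hst
      · rw [mem_ball_iff_norm]; exact ha.1
      · rw [mem_ball_iff_norm]; exact hb.1
    rw [mem_ball_iff_norm] at this
    exact this
  · rw [e1, cr_add_right, cr_mul_right, cr_mul_right]
    rcases hs.lt_or_eq with h | h
    · have := mul_pos h ha.2
      have := mul_nonneg ht hb.2.le
      linarith
    · have : t = 1 := by linarith
      rw [← h, this]
      have := hb.2
      linarith

theorem edge_reg (hc : P.CCW) {p : ℂ} {k : ℕ} (W : Finset (ℂ × ℂ))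
    (hW : ∀ w ∈ W, w.1 ∈ P.C ∧ w.2 ∈ P.C ∧ P.Vis w.1 w.2)
    (hcov : ∀ z ∈ frontier (P.VV p k), z ∈ P.I → ∃ w ∈ W, z ∈ openSegment ℝ w.1 w.2) {x : ℝ}
    (hx : NI x) (hz : P.γ x ∈ frontier (P.VV p k)) (hE : ∀ w ∈ W, P.γ x ≠ w.1 ∧ P.γ x ≠ w.2) :
    Reg (frontier (P.VV p k)) (P.γ x) := by
  obtain ⟨t1, ht1, hep⟩ := P.ep_NI hx
  obtain ⟨t2, ht2, hem⟩ := P.em_NI hx
  have hed : P.ed x ≠ 0 := by
    intro h0
    exact P.ep_ne x (by rw [hep, h0, mul_zero])
  -- far from the windows
  obtain ⟨ρ1, hρ1, hfar⟩ := WinD_far (P.γ x) W (by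
    intro w hw hs
    obtain ⟨-, -, hv⟩ := hW w hw
    rcases Vis.end_of_C hv hs (P.γ_mem_C x) with h | h
    · exact (hE w hw).1 h
    · exact (hE w hw).2 h)
  obtain ⟨ρ2, hρ2, hsec⟩ := P.sector hc x
  obtain ⟨ρ, hρ⟩ : ∃ ρ, ρ = min ρ1 ρ2 := ⟨_, rfl⟩
  have hρ0 : 0 < ρ := by rw [hρ]; exact lt_min hρ1 hρ2
  have hle1 : ρ ≤ ρ1 := by rw [hρ]; exact min_le_left _ _
  have hle2 : ρ ≤ ρ2 := by rw [hρ]; exact min_le_right _ _
  -- description of the ball
  have hI : ∀ z' : ℂ, ‖z' - P.γ x‖ < ρ → (z' ∈ P.I ↔ 0 < cr (P.ed x) (z' - P.γ x)) := by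
    intro z' hz'
    have := (hsec (z' - P.γ x) (lt_of_lt_of_le hz' hle2)).1
    rw [add_sub_cancel, P.InSector_NI hx] at this
    exact this
  have hC : ∀ z' : ℂ, ‖z' - P.γ x‖ < ρ → (z' ∈ P.C ↔ cr (P.ed x) (z' - P.γ x) = 0) := by
    intro z' hz'
    have := (hsec (z' - P.γ x) (lt_of_lt_of_le hz' hle2)).2.1
    rw [add_sub_cancel] at this
    rw [this]
    constructor
    · rintro (h | ⟨t, -, h⟩ | ⟨t, -, h⟩)
      · rw [h, cr_zero_right]
      · rw [h, hep, cr_mul_right, cr_mul_right, cr_self]; ring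
      · rw [h, hem, cr_mul_right, cr_neg_right, cr_mul_right, cr_self]; ring
    · intro h
      obtain ⟨t, ht⟩ := cr_eq_zero hed h
      rcases lt_trichotomy t 0 with h0 | h0 | h0
      · right; right
        refine ⟨-t / t2, div_pos (neg_pos.2 h0) ht2, ?_⟩
        rw [hem, ht]
        have : (t2 : ℂ) ≠ 0 := by exact_mod_cast ht2.ne'
        push_cast
        field_simp
      · left
        rw [ht, h0]
        simp
      · right; left
        refine ⟨t / t1, div_pos h0 ht1, ?_⟩
        rw [hep, ht]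
        have : (t1 : ℂ) ≠ 0 := by exact_mod_cast ht1.ne'
        push_cast
        field_simp
  have hR : ∀ z' : ℂ, ‖z' - P.γ x‖ < ρ → cr (P.ed x) (z' - P.γ x) < 0 → z' ∉ P.R := by
    intro z' hz' h hm
    rcases hm with hm | hm
    · have := (hC z' hz').1 hm
      linarith
    · have := (hI z' hz').1 hm
      linarith
  -- the half disc
  obtain ⟨H, hH⟩ : ∃ H : Set ℂ, H = {z' : ℂ | ‖z' - P.γ x‖ < ρ ∧ 0 < cr (P.ed x) (z' - P.γ x)} :=
    ⟨_, rfl⟩
  have hconn : IsPreconnected H := by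
    rw [hH]
    exact WinD_half _ _ _
  have hnof : ∀ z' ∈ H, z' ∉ frontier (P.VV p k) := by
    intro z' hz' hf
    rw [hH] at hz'
    obtain ⟨w, hw, hs⟩ := hcov z' hf ((hI z' hz'.1).2 hz'.2)
    exact hfar w hw z' (lt_of_lt_of_le hz'.1 hle1) (openSegment_subset_segment ℝ _ _ hs)
  have hcases : H ⊆ interior (P.VV p k) ∨ H ⊆ (closure (P.VV p k))ᶜ := by
    refine IsPreconnected.subset_or_subset isOpen_interior isClosed_closure.isOpen_compl ?_ ?_ hconn
    · rw [Set.disjoint_left]
      intro a ha hb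
      exact hb (interior_subset_closure ha)
    · intro a ha
      by_cases h1 : a ∈ interior (P.VV p k)
      · exact Or.inl h1
      · right
        intro h2
        exact hnof a ha ⟨h2, h1⟩
  have hballo : IsOpen (Metric.ball (P.γ x) ρ) := Metric.isOpen_ball
  rcases hcases with hcase | hcase
  · -- lit
    refine ⟨P.ed x, hed, ρ, hρ0, fun z' hz' => ?_⟩
    constructor
    · intro hf
      have h0 : cr (P.ed x) (z' - P.γ x) = 0 := by
        rcases lt_trichotomy (cr (P.ed x) (z' - P.γ x)) 0 with h | h | h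
        · exfalso
          apply hR z' hz' h
          have := closure_mono (P.VV_sub_R p k) hf.1
          rwa [P.R_closed.closure_eq] at this
        · exact h
        · exfalso
          refine hnof z' ?_ hf
          rw [hH]
          exact ⟨hz', h⟩
      obtain ⟨t, ht⟩ := cr_eq_zero hed h0
      exact ⟨t, by rw [← ht]; ring⟩
    · rintro ⟨t, ht⟩
      have h0 : cr (P.ed x) (z' - P.γ x) = 0 := by
        rw [ht, add_sub_cancel_left, cr_mul_right, cr_self, mul_zero]
      -- points on both sides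
      have hpt : ∀ δ : ℝ, δ ≠ 0 → ∀ U : Set ℂ, IsOpen U → z' ∈ U → ∃ c ∈ U, ‖c - P.γ x‖ < ρ ∧
          0 < δ * cr (P.ed x) (c - P.γ x) := by
        intro δ hδ U hU hzU
        have hop : IsOpen (U ∩ Metric.ball (P.γ x) ρ) := hU.inter hballo
        obtain ⟨η, hη, hb⟩ := Metric.isOpen_iff.1 hop z'
          ⟨hzU, by rw [mem_ball_iff_norm]; exact hz'⟩
        obtain ⟨e, he⟩ : ∃ e : ℂ, e = (δ : ℂ) * (Complex.I * P.ed x) := ⟨_, rfl⟩
        have hne : 0 < ‖e‖ := by
          rw [norm_pos_iff, he]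
          exact mul_ne_zero (by exact_mod_cast hδ) (mul_ne_zero Complex.I_ne_zero hed)
        have hs : 0 < η / (2 * ‖e‖) := by positivity
        have hc' : z' + ((η / (2 * ‖e‖) : ℝ) : ℂ) * e ∈ Metric.ball z' η := by
          rw [mem_ball_iff_norm, add_sub_cancel_left, norm_mul, norm_real, Real.norm_eq_abs,
            abs_of_pos hs]
          have : η / (2 * ‖e‖) * ‖e‖ = η / 2 := by field_simp
          rw [this]
          linarith
        have := hb hc'
        refine ⟨_, this.1, by have := this.2; rwa [mem_ball_iff_norm] at this, ?_⟩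
        have e2 : z' + ((η / (2 * ‖e‖) : ℝ) : ℂ) * e - P.γ x =
            (z' - P.γ x) + ((η / (2 * ‖e‖) : ℝ) : ℂ) * e := by ring
        have e3 : 0 < cr (P.ed x) (Complex.I * P.ed x) := by
          have hne2 : 0 < normSq (P.ed x) := normSq_pos.2 hed
          rw [normSq_apply] at hne2
          simp only [cr, mul_re, mul_im, I_re, I_im]
          linarith
        rw [e2, cr_add_right, h0, cr_mul_right, he, cr_mul_right, zero_add]
        have e4 : δ * (η / (2 * ‖(δ : ℂ) * (Complex.I * P.ed x)‖) * (δ * cr (P.ed x) (Complex.I * P.ed x))) =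
            (δ * δ) * (η / (2 * ‖(δ : ℂ) * (Complex.I * P.ed x)‖)) * cr (P.ed x) (Complex.I * P.ed x) := by ring
        rw [e4]
        rw [he] at hs
        exact mul_pos (mul_pos (mul_self_pos.2 hδ) hs) e3
      constructor
      · rw [mem_closure_iff]
        intro U hU hzU
        obtain ⟨c, hcU, hcn, hcc⟩ := hpt 1 one_ne_zero U hU hzU
        rw [one_mul] at hcc
        refine ⟨c, hcU, interior_subset (hcase ?_)⟩
        rw [hH]
        exact ⟨hcn, hcc⟩
      · intro hint
        obtain ⟨c, hcU, hcn, hcc⟩ := hpt (-1) (by norm_num) _ isOpen_interior hint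
        refine hR c hcn (by linarith) (P.VV_sub_R p k (interior_subset hcU))
  · -- unlit
    exfalso
    have h1 := mem_closure_iff.1 hz.1 _ hballo (Metric.mem_ball_self hρ0)
    obtain ⟨z', hzb, hzV⟩ := h1
    obtain ⟨r, hr⟩ := P.WinD_seg hzV
    have h2 : z' ∈ closure (openSegment ℝ r z') := by
      rw [closure_openSegment]
      exact right_mem_segment ℝ r z'
    obtain ⟨c, hcb, hcs⟩ := mem_closure_iff.1 h2 _ hballo hzb
    have h3 := hr hcs
    rw [mem_ball_iff_norm] at hcb
    have h4 : c ∈ H := by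
      rw [hH]
      exact ⟨hcb, (hI c hcb).1 h3.1⟩
    exact hcase h4 (subset_closure h3.2)

end Poly

end Pool.Agent.Lib_PL
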