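import Pool.Agent.Lib_PL.TypeA
import Pool.Agent.Lib_PL.TypeB
import Pool.Agent.Lib_PL.WinB
import Pool.Agent.Lib_PL.WinC
import Pool.Agent.Lib_PL.WinD
import Pool.Agent.Lib_PL.Subdiv

/-!
Assembly for counterclockwise polygons.

`A = a * n` from `thmA` (all `j < k`), windows `W`, at most `n (1 + n + 2 A)`.  `E = W` together with the `n` edges.  Non-regular points: on a
window at most `6 N`, `N = cB k * n` (`events`); on an open edge only ends of windows (`edge_reg`); vertices.  `subdiv` with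
`B e = 2 + 6 N` for windows (other ends are in `C`, the open window is in `I`) and `B e = 2 * E.card` + (number of vertices) for edges.  Total `O(n^3)`
(use `1 ≤ n`).
-/

open Set Complex
open scoped Topology

namespace Pool.Agent.Lib_PL

namespace Poly

variable {n : ℕ} (P : Poly n)

private theorem MainCCW_closure {p : ℂ} {k : ℕ} : P.VV p k ⊆ P.R := by
  rintro z ⟨j, -, hz⟩
  cases j with
  | zero => exact hz.1
  | succ j => exact hz.1

private theorem MainCCW_frontier {p : ℂ} {k : ℕ} {z : ℂ} (hz : z ∈ frontier (P.VV p k)) :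
    z ∈ P.R :=
  closure_minimal (P.MainCCW_closure) P.R_closed (frontier_subset_closure hz)

/-- a set of complex numbers all of whose finite subsets have at most `N` elements is finite -/
private theorem MainCCW_finite {S : Set ℂ} {N : ℕ} (h : ∀ F : Finset ℂ, (∀ z ∈ F, z ∈ S) → F.card ≤ N) :
    ∃ G : Finset ℂ, (∀ z, z ∈ G ↔ z ∈ S) ∧ G.card ≤ N := by
  have hfin : S.Finite := by
    by_contra hcon
    obtain ⟨F, hF1, hF2⟩ := Set.Infinite.exists_subset_card_eq hcon (N + 1)
    have := h F fun z hz => hF1 hz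
    omega
  refine ⟨hfin.toFinset, fun z => hfin.mem_toFinset, h _ fun z hz => hfin.mem_toFinset.1 hz⟩

private theorem MainCCW_vertex (i : ℤ) : ∃ m : ℕ, m < n ∧ P.V i = P.V m ∧ P.V (i + 1) = P.V (m + 1) := by
  have hn : (0 : ℤ) < n := by
    have := P.three_le
    omega
  have h1 := Int.emod_nonneg i hn.ne'
  have h2 := Int.emod_lt_of_pos i hn
  have h3 : i = i % n + (i / n) * n := by
    have := Int.emod_add_mul_ediv i n
    linarith
  obtain ⟨m, hm⟩ := Int.eq_ofNat_of_zero_le h1
  have hm' : i % n = (m : ℤ) := hm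
  refine ⟨m, ?_, ?_, ?_⟩
  · rw [hm'] at h2
    exact_mod_cast h2
  · rw [← hm', ← P.V_add_mul (i % n) (i / n), ← h3]
  · rw [← hm', ← P.V_add_mul (i % n + 1) (i / n)]
    congr 1
    linarith

theorem main_ccw (k : ℕ) : ∃ c : ℕ, ∀ (n : ℕ) (P : Poly n), P.CCW → ∀ p ∈ P.R,
    ∃ (Q : Finset ℂ) (T : Finset (ℂ × ℂ)), Q.card + T.card ≤ c * n ^ 3 ∧
      IsSubdiv (frontier (P.VV p k)) Q T := by
  classical
  obtain ⟨a, ha⟩ : ∃ a : ℕ, ∀ j < k, cA j ≤ a :=
    ⟨∑ j ∈ Finset.range k, cA j, fun j hj =>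
      Finset.single_le_sum (f := cA) (fun _ _ => Nat.zero_le _) (Finset.mem_range.2 hj)⟩
  refine ⟨(2 + 2 * a) * (12 * cB k + 6) + 2, ?_⟩
  intro n P hc p hp
  have hn : 1 ≤ n := le_trans (by norm_num) P.three_le
  obtain ⟨W, hW1, hW2, hW3⟩ := P.windows hc hp (k := k) (A := a * n) (by
    intro j ν T hj hT hsep
    exact (P.thmA hc p j ν T hT hsep).trans (Nat.mul_le_mul_right _ (ha j hj)))
  have hWC : ∀ w ∈ W, w.1 ∈ P.C ∧ w.2 ∈ P.C ∧ P.Vis w.1 w.2 := by
    intro w hw
    obtain ⟨ν, ω, h1, h2, h3⟩ := hW2 w hw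
    refine ⟨?_, ?_, h3⟩
    · rw [h1, ← P.γ_int]
      exact P.γ_mem_C _
    · rw [h2]
      exact P.γ_mem_C _
  obtain ⟨N, hN⟩ : ∃ N, N = cB k * n := ⟨_, rfl⟩
  set A : Set ℂ := frontier (P.VV p k) with hAdef
  have hev : ∀ w ∈ W, ∀ F : Finset ℂ, (∀ z ∈ F, z ∈ openSegment ℝ w.1 w.2 ∧ z ∈ A ∧ ¬ Reg A z) →
      F.card ≤ 6 * N := by
    intro w hw F hF
    refine P.events hc (p := p) (k := k) (N := N) ?_ W hWC hW3 hw F hF
    intro ω1 ω2 T hv hT hsep
    rw [hN]
    exact P.thmB hc p k hv T hT hsep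
  -- the irregular points on the windows
  have hS : ∀ w : ℂ × ℂ, ∃ G : Finset ℂ, w ∈ W →
      (∀ z, z ∈ G ↔ z ∈ {z | z ∈ openSegment ℝ w.1 w.2 ∧ z ∈ A ∧ ¬ Reg A z}) ∧ G.card ≤ 6 * N := by
    intro w
    by_cases hw : w ∈ W
    · obtain ⟨G, hG⟩ := MainCCW_finite (S := {z | z ∈ openSegment ℝ w.1 w.2 ∧ z ∈ A ∧ ¬ Reg A z})
        (N := 6 * N) (fun F hF => hev w hw F hF)
      exact ⟨G, fun _ => hG⟩
    · exact ⟨∅, fun h => absurd h hw⟩
  choose G hG using hS
  -- the points of `Q` in `C`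
  set D : Finset ℂ := (W.image Prod.fst ∪ W.image Prod.snd) ∪
    (Finset.range n).image (fun i : ℕ => P.V i) with hDdef
  have hD : D.card ≤ 2 * W.card + n := by
    have h1 : (W.image Prod.fst).card ≤ W.card := Finset.card_image_le
    have h2 : (W.image Prod.snd).card ≤ W.card := Finset.card_image_le
    have h3 : ((Finset.range n).image (fun i : ℕ => P.V i)).card ≤ n :=
      Finset.card_image_le.trans (by simp)
    have h4 := Finset.card_union_le (W.image Prod.fst) (W.image Prod.snd)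
    have h5 := Finset.card_union_le (W.image Prod.fst ∪ W.image Prod.snd)
      ((Finset.range n).image (fun i : ℕ => P.V i))
    rw [hDdef]
    omega
  have hDW : ∀ w ∈ W, w.1 ∈ D ∧ w.2 ∈ D := by
    intro w hw
    constructor
    · exact Finset.mem_union_left _ (Finset.mem_union_left _ (Finset.mem_image_of_mem _ hw))
    · exact Finset.mem_union_left _ (Finset.mem_union_right _ (Finset.mem_image_of_mem _ hw))
  have hDV : ∀ i : ℤ, P.V i ∈ D := by
    intro i
    obtain ⟨m, hm, h1, -⟩ := P.MainCCW_vertex i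
    rw [h1]
    exact Finset.mem_union_right _ (Finset.mem_image.2 ⟨m, Finset.mem_range.2 hm, rfl⟩)
  -- irregular points of `A`
  have hirr : ∀ z ∈ A, ¬ Reg A z → z ∈ D ∨ ∃ w ∈ W, z ∈ G w := by
    intro z hz hreg
    rcases P.MainCCW_frontier hz with hC | hI
    · left
      obtain ⟨x, rfl⟩ := (P.mem_C_iff z).1 hC
      by_cases hx : NI x
      · by_contra hcon
        refine hreg (P.edge_reg hc W hWC hW3 hx hz ?_)
        intro w hw
        constructor
        · intro h
          exact hcon (h ▸ (hDW w hw).1)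
        · intro h
          exact hcon (h ▸ (hDW w hw).2)
      · unfold NI at hx
        push Not at hx
        obtain ⟨m, rfl⟩ := hx
        rw [P.γ_int]
        exact hDV m
    · right
      obtain ⟨w, hw, hzw⟩ := hW3 z hz hI
      exact ⟨w, hw, ((hG w hw).1 z).2 ⟨hzw, hz, hreg⟩⟩
  set Ed : Finset (ℂ × ℂ) := (Finset.range n).image (fun i : ℕ => (P.V i, P.V ((i : ℤ) + 1)))
    with hEd
  have hEdc : Ed.card ≤ n := Finset.card_image_le.trans (by simp)
  have hE1 : ∀ e ∈ W ∪ Ed, e.1 ≠ e.2 := by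
    intro e he
    rcases Finset.mem_union.1 he with h | h
    · obtain ⟨x, hx⟩ := (P.mem_C_iff _).1 (hWC e h).1
      have hv := (hWC e h).2.2
      rw [← hx] at hv ⊢
      exact hv.ne
    · obtain ⟨i, -, rfl⟩ := Finset.mem_image.1 h
      exact P.V_ne i
  have hE2 : ∀ z ∈ A, ∃ e ∈ W ∪ Ed, z ∈ segment ℝ e.1 e.2 := by
    intro z hz
    rcases P.MainCCW_frontier hz with hC | hI
    · obtain ⟨i, hi⟩ := mem_iUnion.1 hC
      obtain ⟨m, hm, h1, h2⟩ := P.MainCCW_vertex i
      rw [h1, h2] at hi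
      exact ⟨_, Finset.mem_union_right _ (Finset.mem_image.2 ⟨m, Finset.mem_range.2 hm, rfl⟩), hi⟩
    · obtain ⟨w, hw, h⟩ := hW3 z hz hI
      exact ⟨w, Finset.mem_union_left _ hw, openSegment_subset_segment _ _ _ h⟩
  have hE3 : {z | z ∈ A ∧ ¬ Reg A z}.Finite := by
    refine Set.Finite.subset (D ∪ W.biUnion G : Finset ℂ).finite_toSet ?_
    rintro z ⟨hz, hreg⟩
    rcases hirr z hz hreg with h | ⟨w, hw, h⟩
    · exact Finset.mem_coe.2 (Finset.mem_union_left _ h)
    · exact Finset.mem_coe.2 (Finset.mem_union_right _ (Finset.mem_biUnion.2 ⟨w, hw, h⟩))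
  obtain ⟨Q, T, hsub, hQ, hT⟩ := subdiv A isClosed_frontier (W ∪ Ed) hE1 hE2 hE3
  have hends : ∀ e ∈ W ∪ Ed, e.1 ∈ D ∧ e.2 ∈ D := by
    intro e he
    rcases Finset.mem_union.1 he with h | h
    · exact hDW e h
    · obtain ⟨i, -, rfl⟩ := Finset.mem_image.1 h
      exact ⟨hDV i, hDV (i + 1)⟩
  have hQD : ∀ z ∈ Q, z ∈ D ∨ ∃ w ∈ W, z ∈ G w := by
    intro z hz
    obtain ⟨h1, h2 | ⟨e, he, h2 | h2⟩⟩ := (hQ z).1 hz
    · exact hirr z h1 h2
    · left
      rw [h2]
      exact (hends e he).1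
    · left
      rw [h2]
      exact (hends e he).2
  have hDC : ∀ z ∈ D, z ∈ P.C := by
    intro z hz
    rcases Finset.mem_union.1 hz with h | h
    · rcases Finset.mem_union.1 h with h | h
      · obtain ⟨w, hw, rfl⟩ := Finset.mem_image.1 h
        exact (hWC w hw).1
      · obtain ⟨w, hw, rfl⟩ := Finset.mem_image.1 h
        exact (hWC w hw).2.1
    · obtain ⟨i, -, rfl⟩ := Finset.mem_image.1 h
      rw [← P.γ_int]
      exact P.γ_mem_C _
  have hQc : Q.card ≤ D.card + W.card * (6 * N) := by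
    have h1 : Q ⊆ D ∪ W.biUnion G := by
      intro z hz
      rcases hQD z hz with h | ⟨w, hw, h⟩
      · exact Finset.mem_union_left _ h
      · exact Finset.mem_union_right _ (Finset.mem_biUnion.2 ⟨w, hw, h⟩)
    refine (Finset.card_le_card h1).trans ((Finset.card_union_le _ _).trans ?_)
    refine Nat.add_le_add_left ?_ _
    exact Finset.card_biUnion_le_card_mul _ _ _ fun w hw => (hG w hw).2
  have hTc : T.card ≤ W.card * (2 + 6 * N) + n * (2 * W.card + n) := by
    refine (hT (fun e => if e ∈ W then 2 + 6 * N else 2 * W.card + n) ?_).trans ?_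
    · intro e he F hF
      by_cases hw : e ∈ W
      · simp only [hw, if_true]
        have h1 : F ⊆ {e.1, e.2} ∪ G e := by
          intro z hz
          obtain ⟨h2, h3⟩ := hF z hz
          by_cases hzC : z ∈ P.C
          · refine Finset.mem_union_left _ ?_
            rcases Vis.end_of_C (hWC e hw).2.2 h3 hzC with h | h
            · simp [h]
            · simp [h]
          · refine Finset.mem_union_right _ (((hG e hw).1 z).2 ⟨?_, ((hQ z).1 h2).1, ?_⟩)
            · refine mem_openSegment_of_ne_left_right ?_ ?_ h3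
              · intro h
                exact hzC (h ▸ (hWC e hw).1)
              · intro h
                exact hzC (h ▸ (hWC e hw).2.1)
            · rcases ((hQ z).1 h2).2 with h | ⟨e', he', h | h⟩
              · exact h
              · exact absurd (hDC _ (h ▸ (hends e' he').1)) hzC
              · exact absurd (hDC _ (h ▸ (hends e' he').2)) hzC
        refine (Finset.card_le_card h1).trans ((Finset.card_union_le _ _).trans ?_)
        exact Nat.add_le_add Finset.card_le_two (hG e hw).2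
      · simp only [hw, if_false]
        have he' : e ∈ Ed := (Finset.mem_union.1 he).resolve_left hw
        refine (Finset.card_le_card (t := D) ?_).trans hD
        intro z hz
        obtain ⟨h2, h3⟩ := hF z hz
        have hzC : z ∈ P.C := by
          obtain ⟨i, -, rfl⟩ := Finset.mem_image.1 he'
          exact mem_iUnion.2 ⟨i, h3⟩
        rcases hQD z h2 with h | ⟨w, hw', h⟩
        · exact h
        · exact absurd hzC (P.I_disj_C ((hWC w hw').2.2 (((hG w hw').1 z).1 h).1))
    · have h1 : ∑ e ∈ W ∪ Ed, (if e ∈ W then 2 + 6 * N else 2 * W.card + n) ≤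
          ∑ e ∈ W, (if e ∈ W then 2 + 6 * N else 2 * W.card + n) +
          ∑ e ∈ Ed \ W, (if e ∈ W then 2 + 6 * N else 2 * W.card + n) := by
        rw [← Finset.union_sdiff_self_eq_union, Finset.sum_union Finset.disjoint_sdiff]
      refine h1.trans (Nat.add_le_add ?_ ?_)
      · rw [Finset.sum_congr rfl fun e he => if_pos he, Finset.sum_const, smul_eq_mul]
      · rw [Finset.sum_congr rfl fun e he => if_neg (Finset.mem_sdiff.1 he).2,
          Finset.sum_const, smul_eq_mul]
        refine Nat.mul_le_mul_right _ ((Finset.card_le_card Finset.sdiff_subset).trans hEdc)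
  refine ⟨Q, T, ?_, hsub⟩
  have hWn : W.card ≤ (2 + 2 * a) * n ^ 2 := by
    refine hW1.trans ?_
    have : n * (1 + n + 2 * (a * n)) ≤ n * (n + n + 2 * (a * n)) :=
      Nat.mul_le_mul_left _ (by omega)
    refine this.trans (le_of_eq (by ring))
  have h2 : Q.card + T.card ≤ W.card * (12 * N + 4 + 2 * n) + (n + n * n) := by
    refine (Nat.add_le_add (hQc.trans (Nat.add_le_add_right hD _)) hTc).trans (le_of_eq (by ring))
  have h3 : 12 * N + 4 + 2 * n ≤ (12 * cB k + 6) * n := by
    rw [hN]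
    nlinarith
  have h4 : n + n * n ≤ 2 * n ^ 3 := by
    have h5 : n ≤ n ^ 3 := Nat.le_self_pow (by norm_num) n
    have h6 : n * n ≤ n ^ 3 := by
      rw [← pow_two]
      exact Nat.pow_le_pow_right hn (by norm_num)
    omega
  calc Q.card + T.card ≤ W.card * (12 * N + 4 + 2 * n) + (n + n * n) := h2
    _ ≤ ((2 + 2 * a) * n ^ 2) * ((12 * cB k + 6) * n) + 2 * n ^ 3 :=
      Nat.add_le_add (Nat.mul_le_mul hWn h3) h4
    _ = ((2 + 2 * a) * (12 * cB k + 6) + 2) * n ^ 3 := by ring

end Poly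

end Pool.Agent.Lib_PL
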