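import Pool.Agent.Lib_PL.RepLemma

/-!
Mirror image: `P.mir.γ x = conj (P.γ (-x))`.
-/

open Set Complex
open scoped Topology

namespace Pool.Agent.Lib_PL

open scoped ComplexConjugate

/-- complex conjugation as a homeomorphism -/
private noncomputable def Mirror_h : ℂ ≃ₜ ℂ := Complex.conjLIE.toHomeomorph

private theorem Mirror_h_apply (z : ℂ) : Mirror_h z = conj z := rfl

private theorem Mirror_preimage (F : Set ℂ) : Mirror_h '' (conj ⁻¹' F) = F := by
  ext z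
  constructor
  · rintro ⟨w, hw, rfl⟩
    exact hw
  · intro hz
    refine ⟨conj z, ?_, ?_⟩
    · show conj (conj z) ∈ F
      rwa [Complex.conj_conj]
    · rw [Mirror_h_apply, Complex.conj_conj]

private theorem Mirror_comp (F : Set ℂ) (x z : ℂ) :
    z ∈ connectedComponentIn (conj ⁻¹' F) x ↔ conj z ∈ connectedComponentIn F (conj x) := by
  by_cases hx : conj x ∈ F
  · have h := Mirror_h.image_connectedComponentIn (s := conj ⁻¹' F) (x := x) hx
    rw [Mirror_preimage, Mirror_h_apply] at h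
    rw [← h]
    constructor
    · intro hz
      exact ⟨z, hz, rfl⟩
    · rintro ⟨w, hw, e⟩
      have : w = z := (starRingEnd ℂ).injective e
      rwa [← this]
  · rw [connectedComponentIn_eq_empty hx, connectedComponentIn_eq_empty (by exact hx)]
    simp

private theorem Mirror_seg (a b z : ℂ) :
    z ∈ segment ℝ (conj a) (conj b) ↔ conj z ∈ segment ℝ a b := by
  constructor
  · rintro ⟨s, t, hs, ht, hst, rfl⟩
    exact ⟨s, t, hs, ht, hst, by simp⟩
  · rintro ⟨s, t, hs, ht, hst, h⟩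
    refine ⟨s, t, hs, ht, hst, ?_⟩
    have := congrArg conj h
    rw [Complex.conj_conj] at this
    rw [← this]
    simp

private theorem Mirror_oseg (a b z : ℂ) :
    z ∈ openSegment ℝ (conj a) (conj b) ↔ conj z ∈ openSegment ℝ a b := by
  constructor
  · rintro ⟨s, t, hs, ht, hst, rfl⟩
    exact ⟨s, t, hs, ht, hst, by simp⟩
  · rintro ⟨s, t, hs, ht, hst, h⟩
    refine ⟨s, t, hs, ht, hst, ?_⟩
    have := congrArg conj h
    rw [Complex.conj_conj] at this
    rw [← this]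
    simp

private theorem Mirror_NI {x : ℝ} : NI (-x) ↔ NI x := by
  constructor
  · intro h m hm
    apply h (-m)
    push_cast
    rw [hm]
  · intro h m hm
    apply h (-m)
    push_cast
    rw [hm, neg_neg]

namespace Poly

variable {n : ℕ} (P : Poly n)

private theorem Mirror_V (i : ℤ) : P.mir.V i = conj (P.V (-i)) := rfl

theorem mir_γ (x : ℝ) : P.mir.γ x = conj (P.γ (-x)) := by
  have h1 : ((-⌊x⌋ - 1 : ℤ) : ℝ) ≤ -x := by
    push_cast
    linarith [Int.lt_floor_add_one x]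
  have h2 : -x ≤ ((-⌊x⌋ - 1 : ℤ) : ℝ) + 1 := by
    push_cast
    linarith [Int.floor_le x]
  rw [P.γ_lin (-⌊x⌋ - 1) (-x) h1 h2, Poly.γ, Mirror_V, Mirror_V]
  have e1 : (-⌊x⌋ - 1 + 1 : ℤ) = -⌊x⌋ := by ring
  have e2 : (-(⌊x⌋ + 1) : ℤ) = -⌊x⌋ - 1 := by ring
  rw [e1, e2]
  have e3 : (Int.fract x : ℝ) = x - ⌊x⌋ := rfl
  rw [e3]
  simp only [map_add, map_mul, map_sub, Complex.conj_ofReal]
  push_cast
  ring

private theorem Mirror_γ' (x : ℝ) : conj (P.mir.γ x) = P.γ (-x) := by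
  rw [mir_γ, Complex.conj_conj]

theorem mir_C (z : ℂ) : z ∈ P.mir.C ↔ conj z ∈ P.C := by
  rw [mem_C_iff, mem_C_iff]
  constructor
  · rintro ⟨x, rfl⟩
    exact ⟨-x, (P.Mirror_γ' x).symm⟩
  · rintro ⟨x, hx⟩
    refine ⟨-x, ?_⟩
    rw [mir_γ, neg_neg, hx, Complex.conj_conj]

private theorem Mirror_C_set : P.mir.Cᶜ = conj ⁻¹' P.Cᶜ := by
  ext z
  simp only [mem_compl_iff, mem_preimage]
  rw [mir_C]

private theorem Mirror_bdd {s : Set ℂ} :
    Bornology.IsBounded (conj ⁻¹' s) ↔ Bornology.IsBounded s := by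
  rw [isBounded_iff_forall_norm_le, isBounded_iff_forall_norm_le]
  constructor
  · rintro ⟨C, hC⟩
    refine ⟨C, fun z hz => ?_⟩
    have := hC (conj z) (by show conj (conj z) ∈ s; rwa [Complex.conj_conj])
    rwa [Complex.norm_conj] at this
  · rintro ⟨C, hC⟩
    refine ⟨C, fun z hz => ?_⟩
    have := hC (conj z) hz
    rwa [Complex.norm_conj] at this

theorem mir_I (z : ℂ) : z ∈ P.mir.I ↔ conj z ∈ P.I := by
  have h : connectedComponentIn P.mir.Cᶜ z = conj ⁻¹' connectedComponentIn P.Cᶜ (conj z) := by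
    ext w
    rw [Mirror_C_set]
    exact Mirror_comp _ _ _
  show (z ∉ P.mir.C ∧ Bornology.IsBounded (connectedComponentIn P.mir.Cᶜ z)) ↔
    (conj z ∉ P.C ∧ Bornology.IsBounded (connectedComponentIn P.Cᶜ (conj z)))
  rw [h, Mirror_bdd, mir_C]

theorem mir_R (z : ℂ) : z ∈ P.mir.R ↔ conj z ∈ P.R := by
  show (z ∈ P.mir.C ∨ z ∈ P.mir.I) ↔ (conj z ∈ P.C ∨ conj z ∈ P.I)
  rw [mir_C, mir_I]

theorem mir_CCW (hc : P.CCW) : P.mir.CCW := by
  intro z hz
  rw [mir_I] at hz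
  have hzC : conj z ∉ P.C := P.I_disj_C hz
  have h1 : P.mir.wind z = - P.rev.wind (conj z) := by
    rw [wind, wind, ← neg_div, ← Finset.sum_neg_distrib]
    congr 1
    apply Finset.sum_congr rfl
    intro i _
    have e : (P.mir.V ((i : ℤ) + 1) - z) / (P.mir.V (i : ℤ) - z) =
        conj ((P.rev.V ((i : ℤ) + 1) - conj z) / (P.rev.V (i : ℤ) - conj z)) := by
      rw [map_div₀, map_sub, map_sub, Complex.conj_conj]
      rfl
    rw [e, Complex.arg_conj, if_neg]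
    refine (Complex.mem_slitPlane_iff_arg.1 (slit_iff _ _ _ ?_)).1
    intro hs
    apply hzC
    rw [← P.rev_C]
    exact mem_iUnion.2 ⟨(i : ℤ), hs⟩
  rw [h1, P.rev_wind _ hzC, neg_neg]
  exact hc _ hz

theorem mir_Vis (z w : ℂ) : P.mir.Vis z w ↔ P.Vis (conj z) (conj w) := by
  constructor
  · intro h c hc
    have h1 : conj c ∈ openSegment ℝ z w := by
      have := (Mirror_oseg (conj z) (conj w) (conj c)).2 (by rwa [Complex.conj_conj])
      rwa [Complex.conj_conj, Complex.conj_conj] at this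
    have h2 := h h1
    rw [mir_I, Complex.conj_conj] at h2
    exact h2
  · intro h c hc
    rw [mir_I]
    apply h
    rw [Mirror_oseg, Complex.conj_conj]
    exact hc

theorem mir_Side (a b : ℝ) (z : ℂ) : z ∈ P.mir.Side a b ↔ conj z ∈ P.Side (-b) (-a) := by
  have hset : P.mir.R \ segment ℝ (P.mir.γ a) (P.mir.γ b) =
      conj ⁻¹' (P.R \ segment ℝ (P.γ (-b)) (P.γ (-a))) := by
    ext w
    simp only [mem_diff, mem_preimage]
    rw [mir_R, mir_γ, mir_γ, Mirror_seg, segment_symm]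
  constructor
  · rintro ⟨x, hx, hz⟩
    refine ⟨-x, ⟨by linarith [hx.2], by linarith [hx.1]⟩, ?_⟩
    rw [hset, Mirror_comp, Mirror_γ'] at hz
    exact hz
  · rintro ⟨x, hx, hz⟩
    refine ⟨-x, ⟨by linarith [hx.2], by linarith [hx.1]⟩, ?_⟩
    rw [hset, Mirror_comp, Mirror_γ', neg_neg]
    exact hz

private theorem Mirror_edge (r : ℂ) :
    (∃ i : ℤ, r ∈ openSegment ℝ (P.mir.V i) (P.mir.V (i + 1))) ↔
      ∃ i : ℤ, conj r ∈ openSegment ℝ (P.V i) (P.V (i + 1)) := by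
  constructor
  · rintro ⟨i, hi⟩
    rw [Mirror_V, Mirror_V, Mirror_oseg, openSegment_symm] at hi
    refine ⟨-(i + 1), ?_⟩
    have e : (-(i + 1) + 1 : ℤ) = -i := by ring
    rwa [e]
  · rintro ⟨i, hi⟩
    refine ⟨-(i + 1), ?_⟩
    have e : (-(i + 1) + 1 : ℤ) = -i := by ring
    rw [e, Mirror_V, Mirror_V, Mirror_oseg, openSegment_symm, neg_neg, neg_neg]
    exact hi

private theorem Mirror_Lt (p : ℂ) (j : ℕ) : ∀ z : ℂ, z ∈ P.mir.Lt (conj p) j ↔ conj z ∈ P.Lt p j := by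
  induction j with
  | zero =>
    intro z
    show (z ∈ P.mir.R ∧ P.mir.Vis (conj p) z) ↔ (conj z ∈ P.R ∧ P.Vis p (conj z))
    rw [mir_R, mir_Vis, Complex.conj_conj]
  | succ j ih =>
    intro z
    show (z ∈ P.mir.R ∧ ∃ r ∈ P.mir.Lt (conj p) j,
      (∃ i : ℤ, r ∈ openSegment ℝ (P.mir.V i) (P.mir.V (i + 1))) ∧ P.mir.Vis r z) ↔
      (conj z ∈ P.R ∧ ∃ r ∈ P.Lt p j, (∃ i : ℤ, r ∈ openSegment ℝ (P.V i) (P.V (i + 1))) ∧
        P.Vis r (conj z))
    rw [mir_R]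
    constructor
    · rintro ⟨h1, r, h2, h3, h4⟩
      exact ⟨h1, conj r, (ih r).1 h2, (P.Mirror_edge r).1 h3, (P.mir_Vis r z).1 h4⟩
    · rintro ⟨h1, r, h2, h3, h4⟩
      refine ⟨h1, conj r, (ih _).2 (by rwa [Complex.conj_conj]),
        (P.Mirror_edge _).2 (by rwa [Complex.conj_conj]), (P.mir_Vis _ z).2 ?_⟩
      rwa [Complex.conj_conj]

theorem mir_VV (p : ℂ) (k : ℕ) (z : ℂ) : z ∈ P.mir.VV (conj p) k ↔ conj z ∈ P.VV p k := by
  constructor
  · rintro ⟨j, hj, h⟩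
    exact ⟨j, hj, (P.Mirror_Lt p j z).1 h⟩
  · rintro ⟨j, hj, h⟩
    exact ⟨j, hj, (P.Mirror_Lt p j z).2 h⟩

theorem mir_Bp (p : ℂ) (k : ℕ) (x : ℝ) : x ∈ P.mir.Bp (conj p) k ↔ -x ∈ P.Bp p k := by
  show (NI x ∧ P.mir.γ x ∈ P.mir.VV (conj p) k) ↔ (NI (-x) ∧ P.γ (-x) ∈ P.VV p k)
  rw [mir_VV, Mirror_γ', Mirror_NI]

theorem mir_mem (A : Arc) (x : ℝ) : x ∈ A.mir.s ↔ -x ∈ A.s := by
  show (-A.b < x ∧ x < -A.a) ↔ (A.a < -x ∧ -x < A.b)
  constructor
  · rintro ⟨h1, h2⟩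
    exact ⟨by linarith, by linarith⟩
  · rintro ⟨h1, h2⟩
    exact ⟨by linarith, by linarith⟩

private theorem Mirror_i (A : Arc) : (A.mir.i : ℝ) = -(A.i : ℝ) - 1 := by
  show ((-A.i - 1 : ℤ) : ℝ) = -(A.i : ℝ) - 1
  push_cast
  ring

private theorem Mirror_a (A : Arc) : A.mir.a = -A.b := rfl

private theorem Mirror_b (A : Arc) : A.mir.b = -A.a := rfl

theorem mir_Cornered (A : Arc) : A.mir.Cornered ↔ A.Cornered := by
  show (A.mir.a = A.mir.i ∨ A.mir.b = A.mir.i + 1) ↔ (A.a = A.i ∨ A.b = A.i + 1)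
  rw [Mirror_i, Mirror_a, Mirror_b]
  constructor
  · rintro (h | h)
    · right; linarith
    · left; linarith
  · rintro (h | h)
    · right; linarith
    · left; linarith

theorem mir_IsComp {p : ℂ} {k : ℕ} {A : Arc} (h : P.IsComp p k A) :
    P.mir.IsComp (conj p) k A.mir := by
  refine ⟨?_, ?_, ?_, ?_, ?_, ?_⟩
  · rw [Mirror_i, Mirror_a]; linarith [h.bi]
  · rw [Mirror_a, Mirror_b]; linarith [h.ab]
  · rw [Mirror_i, Mirror_b]; linarith [h.ia]
  · intro x hx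
    rw [mir_mem] at hx
    rw [mir_Bp]
    exact h.sub hx
  · rw [Mirror_i, Mirror_a, mir_Bp, neg_neg]
    rcases h.right with h1 | h1
    · left; linarith
    · exact Or.inr h1
  · rw [Mirror_i, Mirror_b, mir_Bp, neg_neg]
    rcases h.left with h1 | h1
    · left; linarith
    · exact Or.inr h1

theorem mir_IsComp' {p : ℂ} {k : ℕ} {A : Arc} (h : P.mir.IsComp (conj p) k A) :
    P.IsComp p k A.mir := by
  refine ⟨?_, ?_, ?_, ?_, ?_, ?_⟩
  · rw [Mirror_i, Mirror_a]; linarith [h.bi]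
  · rw [Mirror_a, Mirror_b]; linarith [h.ab]
  · rw [Mirror_i, Mirror_b]; linarith [h.ia]
  · intro x hx
    rw [mir_mem] at hx
    have := h.sub hx
    rw [mir_Bp, neg_neg] at this
    exact this
  · rw [Mirror_i, Mirror_a, ← mir_Bp]
    rcases h.right with h1 | h1
    · left; linarith
    · exact Or.inr h1
  · rw [Mirror_i, Mirror_b, ← mir_Bp]
    rcases h.left with h1 | h1
    · left; linarith
    · exact Or.inr h1

theorem mir_Sees {A B : Arc} : P.mir.Sees A.mir B.mir ↔ P.Sees A B := by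
  constructor
  · rintro ⟨x, hx, y, hy, h⟩
    rw [mir_mem] at hx hy
    rw [mir_Vis, Mirror_γ', Mirror_γ'] at h
    exact ⟨-x, hx, -y, hy, h⟩
  · rintro ⟨x, hx, y, hy, h⟩
    refine ⟨-x, ?_, -y, ?_, ?_⟩
    · rw [mir_mem, neg_neg]; exact hx
    · rw [mir_mem, neg_neg]; exact hy
    · rw [mir_Vis, Mirror_γ', Mirror_γ', neg_neg, neg_neg]; exact h

/-- the side of a chord of the mirror image, first form -/
private theorem Mirror_sub1 {M : Set ℂ} {s g : ℝ} (h : M ⊆ P.Side (-g + n) (-s + n)) :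
    conj '' M ⊆ P.mir.Side s g := by
  rintro _ ⟨z, hz, rfl⟩
  rw [mir_Side, Complex.conj_conj]
  have e := P.side_shift (-g) (-s) 1
  rw [Int.cast_one, one_mul] at e
  rw [← e]
  exact h hz

/-- second form -/
private theorem Mirror_sub2 {M : Set ℂ} {s g : ℝ} (h : M ⊆ P.Side (-s) (-g + n)) :
    conj '' M ⊆ P.mir.Side g (s + n) := by
  rintro _ ⟨z, hz, rfl⟩
  rw [mir_Side, Complex.conj_conj]
  have e := P.side_shift (-(s + n)) (-g) 1
  rw [Int.cast_one, one_mul] at e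
  rw [← e]
  have e2 : -(s + (n : ℝ)) + n = -s := by ring
  rw [e2]
  exact h hz

private theorem Mirror_vis {s g : ℝ} (h : P.mir.Vis (P.mir.γ s) (P.mir.γ g)) :
    P.Vis (P.γ (-s)) (P.γ (-g + n)) := by
  rw [mir_Vis, Mirror_γ', Mirror_γ'] at h
  rw [P.γ_add_n]
  exact h

private theorem Mirror_NI' {g : ℝ} (h : NI g) : NI (-g + n) := by
  have := NI_add (n : ℤ) (Mirror_NI.2 h)
  rwa [Int.cast_natCast] at this

theorem mir_Rep {M : Set ℂ} {S : Arc} {ω : ℝ} (h : P.Rep M S ω) :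
    P.mir.Rep (conj '' M) S.mir (-ω) := by
  refine ⟨?_, ?_⟩
  · intro m hm
    rw [mir_mem] at hm
    apply h.notin (-m)
    have e : ω + ((-m : ℤ) : ℝ) * n = -(-ω + m * n) := by
      push_cast
      ring
    rw [e]
    exact hm
  · intro s g hs hg hsg hgs hv
    rw [mir_mem] at hs
    rcases h.rep (-s) (-g + n) hs (Mirror_NI' hg) (by linarith) (by linarith)
      (P.Mirror_vis hv) with ⟨h1, m, h2, h3⟩ | ⟨h1, m, h2, h3⟩
    · right
      refine ⟨P.Mirror_sub2 h1, 1 - m, ?_, ?_⟩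
      · push_cast
        linarith
      · push_cast
        linarith
    · left
      refine ⟨P.Mirror_sub1 h1, 1 - m, ?_, ?_⟩
      · push_cast
        linarith
      · push_cast
        linarith

theorem mir_Good {M : Set ℂ} {S : Arc} {j : ℤ} (h : P.Good M S j) :
    P.mir.Good (conj '' M) S.mir (-j - 1) := by
  intro s g hs hg hsg hgs hv m
  rw [mir_mem] at hs
  obtain ⟨h1, h2⟩ := h (-s) (-g + n) hs (Mirror_NI' hg) (by linarith) (by linarith)
    (P.Mirror_vis hv) (1 - m)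
  push_cast at h1 h2 ⊢
  refine ⟨fun h3 h4 => P.Mirror_sub1 (h2 (by linarith) (by linarith)),
    fun h3 h4 => P.Mirror_sub2 (h1 (by linarith) (by linarith))⟩

end Poly

end Pool.Agent.Lib_PL
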