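import Pool.Agent.Lib_PL.PairU

/-!
The ray from `γ u` through `V q` continues in `I` beyond `V q` until `γ h`, `x < h < s2`.

Direction beyond `V q`: by `epl`, `eml` of both pivots and `pair_u`, `ep q` and `em q` are strictly left of the line
directed from `γ u` to `V q` (write `γ u - V q = a (γ D1 - V q) + b (γ D2 - V q)` with `a, b > 0`), so this direction is in the
sector (use `Vis.sector` for the opposite direction `γ u - V q`), `ray_hit'` gives the end point.
Location: `V q ∈ Side x u` and the ray does not meet the chord `x u` again (only at `γ u`), so the end point is in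
`Side x u` (or its closure; it is not `γ x` since ...) and it is on the right side of `L2`: it is in
`Side y (s+n)` for all good chords `s y` of the second pivot because the ray crosses them near `V q`.
-/

open Set Complex
open scoped Topology

namespace Pool.Agent.Lib_PL

namespace Poly

variable {n : ℕ} (P : Poly n)

/-- two crossing segments -/
private theorem PairRay_cross {A B Z W : ℂ} (h1 : 0 < cr (W - Z) (B - Z)) (h2 : cr (W - Z) (A - Z) < 0)
    (h3 : 0 < cr (B - A) (Z - A)) (h4 : cr (B - A) (W - A) < 0) :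
    ∃ p ∈ segment ℝ Z W, p ∈ segment ℝ A B := by
  have hD1 : cr (W - Z) (B - A) = cr (W - Z) (B - Z) - cr (W - Z) (A - Z) := by
    rw [← cr_sub_right]; congr 1; ring
  have hD2 : cr (W - Z) (B - A) = cr (B - A) (Z - A) - cr (B - A) (W - A) := by
    rw [← cr_sub_right, cr_swap (W - Z), ← cr_neg_right]; congr 1; ring
  have hD : 0 < cr (W - Z) (B - A) := by linarith
  have hDc : (cr (W - Z) (B - A) : ℂ) ≠ 0 := by exact_mod_cast hD.ne'
  set τ : ℝ := cr (B - A) (Z - A) / cr (W - Z) (B - A) with hτ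
  set σ : ℝ := -cr (W - Z) (A - Z) / cr (W - Z) (B - A) with hσ
  have hτ0 : 0 ≤ τ := div_nonneg h3.le hD.le
  have hτ1 : τ ≤ 1 := by rw [hτ, div_le_one hD]; linarith
  have hσ0 : 0 ≤ σ := div_nonneg (by linarith) hD.le
  have hσ1 : σ ≤ 1 := by rw [hσ, div_le_one hD]; linarith
  have key : Z + (τ : ℂ) * (W - Z) = A + (σ : ℂ) * (B - A) := by
    have h5 := cr_dep (B - A) (W - Z) (Z - A)
    have h6 : cr (B - A) (W - Z) = -cr (W - Z) (B - A) := cr_swap _ _
    have h7 : cr (W - Z) (Z - A) = -cr (W - Z) (A - Z) := by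
      rw [← cr_neg_right]; congr 1; ring
    have h8 : cr (Z - A) (B - A) = -cr (B - A) (Z - A) := cr_swap _ _
    rw [h6, h7, h8] at h5
    rw [hτ, hσ]
    push_cast at h5 ⊢
    field_simp
    linear_combination -h5
  refine ⟨Z + (τ : ℂ) * (W - Z), ⟨1 - τ, τ, by linarith, hτ0, by ring, ?_⟩,
    ⟨1 - σ, σ, by linarith, hσ0, by ring, ?_⟩⟩
  · simp only [Complex.real_smul]
    push_cast
    ring
  · rw [key]
    simp only [Complex.real_smul]
    push_cast
    ring

/-- `V q` is between `γ D` and `γ s` -/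
private theorem PairRay_between {z a b : ℂ} (h : z ∈ openSegment ℝ a b) :
    ∃ t : ℝ, 0 < t ∧ b - a = (-(t : ℂ)) * (a - z) ∧ ∃ t' : ℝ, 0 < t' ∧ b - z = (-(t' : ℂ)) * (a - z) := by
  obtain ⟨s, t, hs, ht, hst, rfl⟩ := h
  have hs' : s = 1 - t := by linarith
  have htc : (t : ℂ) ≠ 0 := by exact_mod_cast ht.ne'
  refine ⟨1 / t, by positivity, ?_, (1 - t) / t, by rw [← hs']; positivity, ?_⟩
  · rw [hs']
    simp only [Complex.real_smul]
    push_cast
    field_simp
    ring
  · rw [hs']
    simp only [Complex.real_smul]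
    push_cast
    field_simp
    ring

/-- the boundary at `q` is strictly left of the line directed from `γ u` to `V q` -/
theorem pair_left (hc : P.CCW) {i1 j1 i2 j2 q : ℤ} {α1 β1 D1 s1 α2 β2 D2 s2 : ℝ}
    (h1 : P.Pivot i1 j1 α1 β1 D1 s1 q) (h2 : P.Pivot i2 j2 α2 β2 D2 s2 q) {u : ℝ}
    (hu1 : 0 < cr (P.γ D1 - P.V q) (P.γ u - P.V q)) (hu2 : 0 < cr (P.γ u - P.V q) (P.γ D2 - P.V q))
    (hD : 0 < cr (P.γ D1 - P.V q) (P.γ D2 - P.V q)) :
    0 < cr (P.V q - P.γ u) (P.V (q + 1) - P.V q) ∧ 0 < cr (P.V q - P.γ u) (P.V (q - 1) - P.V q) := by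
  obtain ⟨t1, ht1, e1, _⟩ := PairRay_between h1.onL
  obtain ⟨t2, ht2, e2, _⟩ := PairRay_between h2.onL
  have k1 : cr (P.γ D1 - P.V q) (P.V (q + 1) - P.V q) ≤ 0 := by
    have h := h1.epl
    rw [e1, show (-(t1 : ℂ)) = ((-t1 : ℝ) : ℂ) by push_cast; ring, cr_mul_left] at h
    nlinarith
  have k2 : cr (P.γ D2 - P.V q) (P.V (q + 1) - P.V q) ≤ 0 := by
    have h := h2.epl
    rw [e2, show (-(t2 : ℂ)) = ((-t2 : ℝ) : ℂ) by push_cast; ring, cr_mul_left] at h
    nlinarith
  have k3 : cr (P.γ D1 - P.V q) (P.V (q - 1) - P.V q) < 0 := by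
    have h := h1.eml
    rw [e1, show (-(t1 : ℂ)) = ((-t1 : ℝ) : ℂ) by push_cast; ring, cr_mul_left] at h
    nlinarith
  have k4 : cr (P.γ D2 - P.V q) (P.V (q - 1) - P.V q) < 0 := by
    have h := h2.eml
    rw [e2, show (-(t2 : ℂ)) = ((-t2 : ℝ) : ℂ) by push_cast; ring, cr_mul_left] at h
    nlinarith
  have hdec := cr_dec hD.ne' (P.γ u - P.V q)
  set a : ℝ := cr (P.γ u - P.V q) (P.γ D2 - P.V q) / cr (P.γ D1 - P.V q) (P.γ D2 - P.V q) with ha
  set b : ℝ := cr (P.γ D1 - P.V q) (P.γ u - P.V q) / cr (P.γ D1 - P.V q) (P.γ D2 - P.V q) with hb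
  have ha0 : 0 < a := div_pos hu2 hD
  have hb0 : 0 < b := div_pos hu1 hD
  have hw : ∀ e : ℂ, cr (P.V q - P.γ u) e =
      -(a * cr (P.γ D1 - P.V q) e + b * cr (P.γ D2 - P.V q) e) := by
    intro e
    have h5 : P.V q - P.γ u = -(P.γ u - P.V q) := by ring
    rw [h5, cr_neg_left]
    conv_lhs => rw [hdec]
    rw [cr_add_left, cr_mul_left, cr_mul_left]
  constructor
  · rw [hw]
    have hne : ¬ (cr (P.γ D1 - P.V q) (P.V (q + 1) - P.V q) = 0 ∧
        cr (P.γ D2 - P.V q) (P.V (q + 1) - P.V q) = 0) := by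
      rintro ⟨h5, h6⟩
      have h7 := cr_dec hD.ne' (P.V (q + 1) - P.V q)
      have h8 : cr (P.V (q + 1) - P.V q) (P.γ D2 - P.V q) = 0 := by rw [cr_swap, h6, neg_zero]
      rw [h5, h8] at h7
      simp only [zero_div, Complex.ofReal_zero, zero_mul, add_zero] at h7
      exact P.V_ne q (sub_eq_zero.mp h7).symm
    rcases lt_or_eq_of_le k1 with h5 | h5
    · nlinarith
    · rcases lt_or_eq_of_le k2 with h6 | h6
      · nlinarith
      · exact absurd ⟨h5, h6⟩ hne
  · rw [hw]
    nlinarith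

theorem pair_ray (hc : P.CCW) {i1 j1 i2 j2 q : ℤ} {α1 β1 D1 s1 α2 β2 D2 s2 : ℝ}
    (h1 : P.Pivot i1 j1 α1 β1 D1 s1 q) (h2 : P.Pivot i2 j2 α2 β2 D2 s2 q) {x u : ℝ}
    (hx : s1 < x) (hxq : x < q) (hu : u < j1 + 1) (hD1 : D1 < u) (hD2 : u < D2)
    (hv : P.Vis (P.γ x) (P.γ u)) :
    ∃ h : ℝ, x < h ∧ h < s2 ∧ P.V q ∈ openSegment ℝ (P.γ u) (P.γ h) ∧ P.Vis (P.V q) (P.γ h) := by
  obtain ⟨hs12, hDn, hDD⟩ := P.pair_order hc h1 h2 (hD1.trans hD2)
  obtain ⟨hvq, hu1, hu2⟩ := P.pair_u hc h1 h2 hx hxq hu hD1 hD2 hv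
  obtain ⟨hep, hem⟩ := P.pair_left hc h1 h2 hu1 hu2 hDD
  have hqV : P.γ (q : ℝ) = P.V q := P.γ_int q
  have hepq : P.ep (q : ℝ) = P.V (q + 1) - P.V q := P.ep_int q
  have hemq : P.em (q : ℝ) = P.V (q - 1) - P.V q := P.em_int q
  set d : ℂ := P.V q - P.γ u with hd
  have hne : P.V q ≠ P.γ u := by
    intro h
    rw [hd, h, sub_self, cr_zero_left] at hep
    exact lt_irrefl _ hep
  have hd0 : d ≠ 0 := sub_ne_zero.mpr hne
  -- the direction beyond `V q` is interior
  have hsec : InSector (P.ep (q : ℝ)) (P.em (q : ℝ)) d := by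
    have h5 : InSector (P.ep (q : ℝ)) (P.em (q : ℝ)) (P.γ u - P.γ (q : ℝ)) :=
      Vis.sector hc (by rw [hqV]; exact hvq)
    rw [hqV, hepq, hemq] at h5
    rw [hepq, hemq]
    have hneg : P.γ u - P.V q = -d := by rw [hd]; ring
    rw [hneg] at h5
    obtain ⟨h6, h7, h8⟩ := h5
    have k1 : cr (-d) (P.V (q - 1) - P.V q) < 0 := by rw [cr_neg_left]; linarith
    refine ⟨fun h => ?_, fun h => Or.inr hem, fun h => ?_⟩
    · exact absurd (h6 h).2 (not_lt.mpr k1.le)
    · exfalso
      have h9 : P.V (q + 1) - P.V q ≠ 0 := sub_ne_zero.mpr (P.V_ne q).symm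
      obtain ⟨t, ht⟩ := cr_eq_zero h9 h
      have h10 : 0 < t * cr d (P.V (q + 1) - P.V q) := by rw [← cr_mul_right, ← ht]; exact hem
      have ht0 : 0 < t := by
        by_contra hcon
        rw [not_lt] at hcon
        nlinarith
      have h11 := P.em_ne_ep (q : ℝ) t ht0
      rw [hepq, hemq] at h11
      exact h11 ht
  obtain ⟨t, ht, htC, htI⟩ := P.ray_hit' hc (q : ℝ) d hsec
  rw [hqV] at htC htI
  set c : ℂ := P.V q + (t : ℂ) * d with hcdef
  have htc : (t : ℂ) ≠ 0 := by exact_mod_cast ht.ne'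
  have hVqC : P.V q ∈ P.C := by rw [← hqV]; exact P.γ_mem_C _
  have hVqI : P.V q ∉ P.I := fun h => P.I_disj_C h hVqC
  have hvc : P.Vis (P.V q) c := by
    rintro z ⟨a, b, ha, hb, hab, rfl⟩
    have h5 := htI (b * t) (by positivity) (by
      have hb1 : b < 1 := by linarith
      nlinarith)
    have h6 : a • P.V q + b • c = P.V q + ((b * t : ℝ) : ℂ) * d := by
      have ha' : a = 1 - b := by linarith
      rw [ha', hcdef]
      simp only [Complex.real_smul]
      push_cast
      ring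
    rw [h6]
    exact h5
  -- `V q` is between `γ u` and any point beyond
  have hbet : ∀ r : ℝ, 0 < r → P.V q ∈ openSegment ℝ (P.γ u) (P.V q + (r : ℂ) * d) := by
    intro r hr
    have hr1 : (1 + r : ℝ) ≠ 0 := by positivity
    have hr1c : (1 + r : ℂ) ≠ 0 := by exact_mod_cast hr1
    refine ⟨r / (1 + r), 1 / (1 + r), by positivity, by positivity, by field_simp; ring, ?_⟩
    rw [hd]
    simp only [Complex.real_smul]
    push_cast
    field_simp
    ring
  have hcu : c ≠ P.γ u := by
    intro h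
    have h5 := hbet t ht
    rw [← hcdef, h, openSegment_same] at h5
    exact hne h5
  -- order of the positions
  have hj1 := h1.jD
  have hj2 := h2.jD
  have hqj1 : (q : ℝ) ≤ j1 := by exact_mod_cast h1.qj
  have hqj2 : (q : ℝ) ≤ j2 := by exact_mod_cast h2.qj
  have hiq2 : (i2 : ℝ) + 1 ≤ q := by exact_mod_cast h2.iq
  have hji2 : (j2 : ℝ) + 1 ≤ i2 + n := by
    have := h2.ji
    have h5 : j2 + 1 ≤ i2 + (n : ℤ) := by omega
    exact_mod_cast h5
  have hxu : x < u := by linarith
  have hun : u < x + n := by linarith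
  have hqu : (q : ℝ) < u := by linarith
  -- the end point is on the side of `x u`
  have hVside : P.V q ∈ P.Side x u := by
    rw [← hqV]
    exact P.side_arc hun hv ⟨hxq, hqu⟩
  have hcR : c ∈ P.R := Or.inl htC
  have hcside : c ∈ P.Side x u := by
    have hcn : c ∉ segment ℝ (P.γ x) (P.γ u) := by
      intro h
      rcases hv.end_of_C h htC with h5 | h5
      · have h6 := hbet t ht
        rw [← hcdef, h5, openSegment_symm] at h6
        exact hVqI (hv h6)
      · exact hcu h5
    rcases P.side_union hc hxu hun hv hcR hcn with h | h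
    · exact h
    · exfalso
      obtain ⟨p, hp, hp'⟩ := P.side_cross hc hxu hun hv hvc.seg hVside h
      have hpI : p ∈ P.I := hvc hp
      have hpx : p ≠ P.γ x := fun h5 => P.I_disj_C hpI (h5 ▸ P.γ_mem_C x)
      have hpu : p ≠ P.γ u := fun h5 => P.I_disj_C hpI (h5 ▸ P.γ_mem_C u)
      obtain ⟨a, b, ha, hb, hab, hpe⟩ := hp
      have h6 : p = P.V q + ((b * t : ℝ) : ℂ) * d := by
        have ha' : a = 1 - b := by linarith
        rw [← hpe, ha', hcdef]
        simp only [Complex.real_smul]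
        push_cast
        ring
      have h7 := hbet (b * t) (by positivity)
      rw [← h6] at h7
      -- `V q` is in the open segment `γ x`, `γ u`
      have h8 : openSegment ℝ (P.γ u) p ⊆ openSegment ℝ (P.γ x) (P.γ u) := by
        have h9 : p ∈ openSegment ℝ (P.γ x) (P.γ u) := by
          rw [← insert_endpoints_openSegment] at hp'
          rcases hp' with h10 | h10 | h10
          · exact absurd h10 hpx
          · exact absurd h10 hpu
          · exact h10
        obtain ⟨a', b', ha', hb', hab', he'⟩ := h9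
        rintro z ⟨a'', b'', ha'', hb'', hab'', rfl⟩
        refine ⟨b'' * a', a'' + b'' * b', by positivity, by positivity, ?_, ?_⟩
        · have : b'' * a' + (a'' + b'' * b') = a'' + b'' * (a' + b') := by ring
          rw [this, hab', mul_one, hab'']
        · rw [← he']
          simp only [Complex.real_smul]
          push_cast
          ring
      exact hVqI (hv (h8 h7))
  obtain ⟨h', hh'⟩ := (P.mem_C_iff c).1 htC
  obtain ⟨m, hm1, hm2⟩ := P.side_mem_arc hc hxu hun hv (x := h') (by rw [hh']; exact hcside)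
  set h : ℝ := h' + m * n with hhdef
  have hγh : P.γ h = c := by rw [hhdef, P.γ_add_mul, hh']
  -- signs with respect to the second pivot
  obtain ⟨t2, ht2, e2, t3, ht3, e3⟩ := PairRay_between h2.onL
  have g1 : cr d (P.γ D2 - P.V q) < 0 := by
    have : d = -(P.γ u - P.V q) := by rw [hd]; ring
    rw [this, cr_neg_left]
    linarith
  have g2 : 0 < cr d (P.γ s2 - P.V q) := by
    rw [e3, show (-(t3 : ℂ)) = ((-t3 : ℝ) : ℂ) by push_cast; ring, cr_mul_right]
    nlinarith
  have hcd : c - P.γ u = ((1 + t : ℝ) : ℂ) * d := by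
    rw [hcdef, hd]; push_cast; ring
  have ht1 : 0 < 1 + t := by linarith
  have f1 : 0 < cr (c - P.γ u) (P.γ s2 - P.γ u) := by
    rw [hcd, cr_mul_left]
    have h5 : P.γ s2 - P.γ u = (P.γ s2 - P.V q) + d := by rw [hd]; ring
    rw [h5, cr_add_right, cr_self, add_zero]
    positivity
  have f2 : cr (c - P.γ u) (P.γ D2 - P.γ u) < 0 := by
    rw [hcd, cr_mul_left]
    have h5 : P.γ D2 - P.γ u = (P.γ D2 - P.V q) + d := by rw [hd]; ring
    rw [h5, cr_add_right, cr_self, add_zero]
    nlinarith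
  have e2' : P.γ s2 - P.γ D2 = ((-t2 : ℝ) : ℂ) * (P.γ D2 - P.V q) := by rw [e2]; push_cast; ring
  have f3 : 0 < cr (P.γ s2 - P.γ D2) (P.γ u - P.γ D2) := by
    have h5 : P.γ u - P.γ D2 = (P.γ u - P.V q) - (P.γ D2 - P.V q) := by ring
    rw [e2', cr_mul_left, h5, cr_sub_right, cr_self, cr_swap (P.γ D2 - P.V q)]
    nlinarith
  have f4 : cr (P.γ s2 - P.γ D2) (c - P.γ D2) < 0 := by
    have h5 : c - P.γ D2 = (t : ℂ) * d - (P.γ D2 - P.V q) := by rw [hcdef]; ring
    rw [e2', cr_mul_left, h5, cr_sub_right, cr_self, cr_mul_right, cr_swap (P.γ D2 - P.V q)]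
    have : 0 < t * -cr d (P.γ D2 - P.V q) := mul_pos ht (by linarith)
    nlinarith
  -- good approximations
  have hev : ∃ ε > 0, ∀ s y : ℝ, |s - s2| < ε → |y - D2| < ε →
      0 < cr (c - P.γ u) (P.γ s - P.γ u) ∧ cr (c - P.γ u) (P.γ y - P.γ u) < 0 ∧
      0 < cr (P.γ s - P.γ y) (P.γ u - P.γ y) ∧ cr (P.γ s - P.γ y) (c - P.γ y) < 0 := by
    have hcont := P.γ_cont
    have c1 : Continuous fun z : ℝ × ℝ => cr (c - P.γ u) (P.γ z.1 - P.γ u) :=
      cr_continuous.comp (by fun_prop : Continuous fun z : ℝ × ℝ => (c - P.γ u, P.γ z.1 - P.γ u))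
    have c2 : Continuous fun z : ℝ × ℝ => cr (c - P.γ u) (P.γ z.2 - P.γ u) :=
      cr_continuous.comp (by fun_prop : Continuous fun z : ℝ × ℝ => (c - P.γ u, P.γ z.2 - P.γ u))
    have c3 : Continuous fun z : ℝ × ℝ => cr (P.γ z.1 - P.γ z.2) (P.γ u - P.γ z.2) :=
      cr_continuous.comp (by fun_prop : Continuous fun z : ℝ × ℝ =>
        (P.γ z.1 - P.γ z.2, P.γ u - P.γ z.2))
    have c4 : Continuous fun z : ℝ × ℝ => cr (P.γ z.1 - P.γ z.2) (c - P.γ z.2) :=
      cr_continuous.comp (by fun_prop : Continuous fun z : ℝ × ℝ =>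
        (P.γ z.1 - P.γ z.2, c - P.γ z.2))
    have e : ∀ᶠ z : ℝ × ℝ in 𝓝 (s2, D2), 0 < cr (c - P.γ u) (P.γ z.1 - P.γ u) ∧
        cr (c - P.γ u) (P.γ z.2 - P.γ u) < 0 ∧
        0 < cr (P.γ z.1 - P.γ z.2) (P.γ u - P.γ z.2) ∧
        cr (P.γ z.1 - P.γ z.2) (c - P.γ z.2) < 0 :=
      (c1.continuousAt.eventually (lt_mem_nhds f1)).and
        ((c2.continuousAt.eventually (gt_mem_nhds f2)).and
          ((c3.continuousAt.eventually (lt_mem_nhds f3)).and
            (c4.continuousAt.eventually (gt_mem_nhds f4))))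
    obtain ⟨ε, hε, hb⟩ := Metric.eventually_nhds_iff.1 e
    refine ⟨ε, hε, fun s y hs hy => ?_⟩
    exact @hb (s, y) (by
      rw [Prod.dist_eq]
      exact max_lt (by rw [Real.dist_eq]; exact hs) (by rw [Real.dist_eq]; exact hy))
  obtain ⟨ε, hε, hgood⟩ := hev
  -- `h < s` for all good chords
  have hlt : ∀ δ > 0, h < s2 + δ := by
    intro δ hδ
    obtain ⟨s, y, hs1, hs2, hs3, hy1, hy2, hy3, hvsy⟩ := h2.approx (min ε δ) (lt_min hε hδ)
    have hsε : s < s2 + ε := lt_of_lt_of_le hs2 (by linarith [min_le_left ε δ])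
    have hsδ : s < s2 + δ := lt_of_lt_of_le hs2 (by linarith [min_le_right ε δ])
    have hyε : y < D2 + ε := lt_of_lt_of_le hy2 (by linarith [min_le_left ε δ])
    obtain ⟨k1, k2, k3, k4⟩ := hgood s y (by rw [abs_lt]; constructor <;> linarith)
      (by rw [abs_lt]; constructor <;> linarith)
    have hα := h2.αs
    have hβ := h2.βi
    have hiα := h2.iα
    have hsq : s < q := by linarith
    have hsy : s < y := by linarith
    have hyn : y < s + n := by linarith
    obtain ⟨p, hp, hp'⟩ := PairRay_cross (A := P.γ y) (B := P.γ s) (Z := P.γ u) (W := c) k1 k2 k3 k4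
    rw [segment_symm] at hp'
    have hVs : P.V q ∈ P.Side s y := by
      rw [← hqV]
      exact P.side_arc hyn hvsy ⟨hsq, by linarith⟩
    have hus : P.γ u ∈ P.Side s y := P.side_arc hyn hvsy ⟨by linarith, by linarith⟩
    have hnc : c ∉ P.Side s y := by
      intro hcs
      -- the segment `γ u`, `c` is the union of two segments on the same side
      have m1 := P.side_same_vis hc hsy hyn hvsy hvq.symm hus hVs
      have m2 := P.side_same_vis hc hsy hyn hvsy hvc hVs hcs
      have hsub : segment ℝ (P.γ u) c ⊆ segment ℝ (P.γ u) (P.V q) ∪ segment ℝ (P.V q) c := by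
        rintro z ⟨a, b, ha, hb, hab, rfl⟩
        have ha' : a = 1 - b := by linarith
        by_cases hb1 : b * (1 + t) ≤ 1
        · left
          refine ⟨1 - b * (1 + t), b * (1 + t), by linarith, by positivity, by ring, ?_⟩
          rw [ha', hcdef, hd]
          simp only [Complex.real_smul]
          push_cast
          ring
        · right
          rw [not_le] at hb1
          refine ⟨1 - (b * (1 + t) - 1) / t, (b * (1 + t) - 1) / t, ?_, ?_, by ring, ?_⟩
          · rw [sub_nonneg, div_le_one ht]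
            nlinarith
          · exact div_nonneg (by linarith) ht.le
          · rw [ha', hcdef, hd]
            simp only [Complex.real_smul]
            push_cast
            field_simp
            ring
      rcases hsub hp with h5 | h5
      · exact (P.side_sub (m1 h5)).2 hp'
      · exact (P.side_sub (m2 h5)).2 hp'
    have hcn : c ∉ segment ℝ (P.γ s) (P.γ y) := by
      intro h5
      rcases hvsy.end_of_C h5 htC with h6 | h6
      · rw [← h6, cr_self] at k1
        exact lt_irrefl _ k1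
      · rw [← h6, cr_self] at k2
        exact lt_irrefl _ k2
    rcases P.side_union hc hsy hyn hvsy hcR hcn with h5 | h5
    · exact absurd h5 hnc
    · have hv' : P.Vis (P.γ y) (P.γ (s + n)) := by
        rw [P.γ_add_n]
        exact hvsy.symm
      obtain ⟨m', hm3, hm4⟩ := P.side_mem_arc hc (a := y) (b := s + n) hyn (by linarith) hv' (x := h)
        (by rw [hγh]; exact h5)
      have hn0 : (0 : ℝ) < n := by
        have := P.three_le
        exact_mod_cast (by omega : 0 < n)
      have hm0 : 0 < (m' : ℝ) * n := by linarith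
      have hm0' : 0 < (m' : ℝ) := by
        by_contra hcon
        rw [not_lt] at hcon
        nlinarith
      have hm1' : (1 : ℝ) ≤ m' := by
        have : 0 < m' := by exact_mod_cast hm0'
        exact_mod_cast this
      nlinarith
  have hle : h ≤ s2 := le_of_forall_pos_lt_add hlt
  have hne2 : h ≠ s2 := by
    intro h5
    rw [← h5, hγh, cr_self] at f1
    exact lt_irrefl _ f1
  refine ⟨h, hm1, lt_of_le_of_ne hle hne2, ?_, ?_⟩
  · rw [hγh]
    exact hbet t ht
  · rw [hγh]
    exact hvc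

end Poly

end Pool.Agent.Lib_PL
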