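import Pool.Agent.Lib_PL.PairOrder

/-!
The chord `x u` crosses `L1` beyond `V q` (at a point `c` strictly between `V q` and `γ s1`: `γ D1, V q ∈ Side x u`,
`γ s1 ∈ Side u (x+n)`), the triangle `γ D1, γ u, c` is free and `V q` is on its side, so `V q` sees `γ u`.
`γ u` is strictly right of `L1` (`tE`), i.e. `0 < cr (γ D1 - V q) (γ u - V q)`.  Strictly left of `L2`: if it were
strictly right, the segment from `V q` to `γ u` would cross the approximating chords of the second pivot, but
both ends are on the same side (`q, u ∈ (s2', D2')`); on the line of `L2`: `V q` sees `γ u` and `u ≠ D2` and `L2 ⊆ R`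
with `γ D2, γ s2 ∈ C` gives that `γ u` is a non-vertex point inside the open segment between `V q` and `γ D2` (or `γ s2`),
then edge `j1` is on this line and `V q` does not see `γ u`.
-/

open Set Complex
open scoped Topology

namespace Pool.Agent.Lib_PL

namespace Poly

variable {n : ℕ} (P : Poly n)

/-- two segments whose ends are strictly separated by the line of the other one meet -/
private theorem PairU_cross {A B E F : ℂ} (h1 : 0 < cr (B - A) (E - A)) (h2 : cr (B - A) (F - A) < 0)
    (h3 : cr (F - E) (A - E) < 0) (h4 : 0 < cr (F - E) (B - E)) :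
    ∃ z : ℂ, z ∈ segment ℝ A B ∧ z ∈ segment ℝ E F := by
  set a := cr (B - A) (E - A) with ha
  set b := cr (B - A) (F - A) with hb
  set p := cr (F - E) (A - E) with hp
  set r := cr (F - E) (B - E) with hr
  have hab : 0 < a - b := by linarith
  have hpr : 0 < r - p := by linarith
  have key : a - b = r - p := by
    rw [ha, hb, hp, hr]
    simp [cr]
    ring
  have e1 : ((a - b : ℝ) : ℂ) ≠ 0 := by exact_mod_cast hab.ne'
  have hz : ((r / (r - p) : ℝ) : ℂ) * A + ((-p / (r - p) : ℝ) : ℂ) * B =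
      ((-b / (a - b) : ℝ) : ℂ) * E + ((a / (a - b) : ℝ) : ℂ) * F := by
    rw [← key]
    have h5 : ((a - b : ℝ) : ℂ) * (((r / (a - b) : ℝ) : ℂ) * A + ((-p / (a - b) : ℝ) : ℂ) * B) =
        ((a - b : ℝ) : ℂ) * (((-b / (a - b) : ℝ) : ℂ) * E + ((a / (a - b) : ℝ) : ℂ) * F) := by
      have h6 : ((a - b : ℝ) : ℂ) * (((r / (a - b) : ℝ) : ℂ) * A + ((-p / (a - b) : ℝ) : ℂ) * B) =
          (r : ℂ) * A - (p : ℂ) * B := by
        push_cast at e1 ⊢
        field_simp
        ring
      have h7 : ((a - b : ℝ) : ℂ) * (((-b / (a - b) : ℝ) : ℂ) * E + ((a / (a - b) : ℝ) : ℂ) * F) =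
          -(b : ℂ) * E + (a : ℂ) * F := by
        push_cast at e1 ⊢
        field_simp
      rw [h6, h7, ha, hb, hp, hr]
      apply Complex.ext <;> simp [cr] <;> ring
    exact mul_left_cancel₀ e1 h5
  refine ⟨((r / (r - p) : ℝ) : ℂ) * A + ((-p / (r - p) : ℝ) : ℂ) * B, ?_, ?_⟩
  · refine ⟨r / (r - p), -p / (r - p), by positivity, by
      apply div_nonneg _ hpr.le; linarith, by
      rw [← add_div, ← sub_eq_add_neg, div_self hpr.ne'], ?_⟩
    rw [Complex.real_smul, Complex.real_smul]
  · rw [hz]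
    refine ⟨-b / (a - b), a / (a - b), by
      apply div_nonneg _ hab.le; linarith, by positivity, by
      rw [← add_div, neg_add_eq_sub, div_self hab.ne'], ?_⟩
    rw [Complex.real_smul, Complex.real_smul]

private theorem PairU_preP {P : Poly n} {i j : ℤ} {α β D s0 : ℝ} {q : ℤ}
    (h : P.Pivot i j α β D s0 q) : P.PreP i j α β D s0 :=
  ⟨h.ij, h.ji, h.iα, h.βi, h.jD, h.Dj, h.αs, h.sβ, h.Dinf, h.sinf, h.approx⟩

/-- `V q` as a point of `L` -/
private theorem PairU_onL {P : Poly n} {i j : ℤ} {α β D s0 : ℝ} {q : ℤ}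
    (h : P.Pivot i j α β D s0 q) : ∃ t : ℝ, 0 < t ∧ t < 1 ∧
      P.V q = P.γ D + (t : ℂ) * (P.γ s0 - P.γ D) := by
  obtain ⟨a, b, ha, hb, hab, h1⟩ := h.onL
  refine ⟨b, hb, by linarith, ?_⟩
  rw [← h1, Complex.real_smul, Complex.real_smul]
  have : a = 1 - b := by linarith
  rw [this]
  push_cast
  ring

theorem pair_u (hc : P.CCW) {i1 j1 i2 j2 q : ℤ} {α1 β1 D1 s1 α2 β2 D2 s2 : ℝ}
    (h1 : P.Pivot i1 j1 α1 β1 D1 s1 q) (h2 : P.Pivot i2 j2 α2 β2 D2 s2 q) {x u : ℝ}
    (hx : s1 < x) (hxq : x < q) (hu : u < j1 + 1) (hD1 : D1 < u) (hD2 : u < D2)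
    (hv : P.Vis (P.γ x) (P.γ u)) : P.Vis (P.V q) (P.γ u) ∧
      0 < cr (P.γ D1 - P.V q) (P.γ u - P.V q) ∧ 0 < cr (P.γ u - P.V q) (P.γ D2 - P.V q) := by
  obtain ⟨hs12, hDs, hDD⟩ := P.pair_order hc h1 h2 (hD1.trans hD2)
  have hq1 : (q : ℝ) ≤ j1 := by exact_mod_cast h1.qj
  have hq2 : (q : ℝ) ≤ j2 := by exact_mod_cast h2.qj
  have hq2' : (i2 : ℝ) + 1 ≤ q := by exact_mod_cast h2.iq
  have hq1' : (i1 : ℝ) + 1 ≤ q := by exact_mod_cast h1.iq
  have hj1 := h1.jD
  have hj2 := h2.jD
  have hqu : (q : ℝ) < u := by linarith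
  have hxu : x < u := hxq.trans hqu
  have hux : u < x + n := by linarith
  -- points of edge `j1`
  have hED : P.γ u - P.γ D1 = ((u - D1 : ℝ) : ℂ) * (P.V (j1 + 1) - P.V j1) :=
    P.γ_sub j1 D1 u hj1.le (by linarith) (by linarith) hu.le
  obtain ⟨t1, ht1, ht1', hV1⟩ := PairU_onL h1
  obtain ⟨t2, ht2, ht2', hV2⟩ := PairU_onL h2
  have hE1 : 0 < cr (P.V (j1 + 1) - P.V j1) (P.V q - P.γ D1) := by
    rw [hV1, add_sub_cancel_left, cr_mul_right]
    exact mul_pos ht1 h1.tE
  have hb : 0 < cr (P.γ D1 - P.V q) (P.γ u - P.V q) := by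
    have e1 : P.γ u - P.V q = ((u - D1 : ℝ) : ℂ) * (P.V (j1 + 1) - P.V j1) + (P.γ D1 - P.V q) := by
      rw [← hED]; ring
    rw [e1, cr_add_right, cr_self, add_zero, cr_mul_right, cr_swap]
    have e2 : cr (P.V (j1 + 1) - P.V j1) (P.γ D1 - P.V q) =
        -cr (P.V (j1 + 1) - P.V j1) (P.V q - P.γ D1) := by
      rw [← cr_neg_right]; congr 1; ring
    rw [e2, neg_neg]
    exact mul_pos (by linarith) hE1
  -- visibility
  have hvis : P.Vis (P.V q) (P.γ u) := by
    have hqS : P.V q ∈ P.Side x u := by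
      rw [← P.γ_int q]
      exact P.side_arc hux hv ⟨hxq, hqu⟩
    have hsS : P.γ s1 ∈ P.Side u (x + n) := by
      rw [← P.γ_add_n s1]
      exact P.side_arc' hxu hv ⟨by linarith, by linarith⟩
    have hsub : segment ℝ (P.V q) (P.γ s1) ⊆ P.R := by
      refine Subset.trans ?_ h1.LR
      exact (convex_segment _ _).segment_subset (openSegment_subset_segment ℝ _ _ h1.onL)
        (right_mem_segment ℝ _ _)
    obtain ⟨c, hc1, hc2⟩ := P.side_cross hc hxu hux hv hsub hqS hsS
    obtain ⟨a, b, ha, hb', hab, hcc⟩ := hc1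
    have hcD : c = P.γ D1 + ((t1 + b * (1 - t1) : ℝ) : ℂ) * (P.γ s1 - P.γ D1) := by
      rw [← hcc, Complex.real_smul, Complex.real_smul, hV1]
      have : a = 1 - b := by linarith
      rw [this]
      push_cast
      ring
    set t' := t1 + b * (1 - t1) with ht'
    have hbt : 0 < b * (1 - t1) := mul_pos hb' (by linarith)
    have ht1t : t1 < t' := by linarith
    have ht'1 : t' < 1 := by
      have : b < 1 := by linarith
      nlinarith
    have ht'0 : 0 < t' := by linarith
    have hn : cr (c - P.γ D1) (P.γ u - P.γ D1) ≠ 0 := by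
      rw [hcD, add_sub_cancel_left, hED, cr_mul_left, cr_mul_right, cr_swap]
      have : 0 < u - D1 := by linarith
      have := mul_pos ht'0 (mul_pos this h1.tE)
      linarith
    refine P.tri_vis (P.γ D1) c (P.γ u) hn ?_ ?_ ?_ (P.V q) ?_
    · refine Subset.trans ?_ h1.LR
      refine (convex_segment _ _).segment_subset (left_mem_segment ℝ _ _) ?_
      refine ⟨1 - t', t', by linarith, ht'0.le, by ring, ?_⟩
      rw [hcD, Complex.real_smul, Complex.real_smul]
      push_cast
      ring
    · refine Subset.trans ?_ hv.seg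
      exact (convex_segment _ _).segment_subset hc2 (right_mem_segment ℝ _ _)
    · rw [P.segment_γ (i := j1) (by linarith) hu.le hj1.le (by linarith)]
      rintro _ ⟨τ, -, rfl⟩
      exact P.C_sub_R (P.γ_mem_C τ)
    · refine ⟨1 - t1 / t', t1 / t', ?_, by positivity, by ring, ?_⟩
      · have : t1 / t' < 1 := (div_lt_one ht'0).2 ht1t
        linarith
      · rw [hcD, hV1, Complex.real_smul, Complex.real_smul]
        have : (t' : ℂ) ≠ 0 := by exact_mod_cast ht'0.ne'
        push_cast
        field_simp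
        ring
  refine ⟨hvis, hb, ?_⟩
  -- `γ D2 - V q` and `γ s2 - V q`
  have hbD : P.γ D2 - P.V q = ((t2 : ℝ) : ℂ) * (P.γ D2 - P.γ s2) := by
    rw [hV2]; ring
  have hbs : P.γ s2 - P.V q = ((-(1 - t2) : ℝ) : ℂ) * (P.γ D2 - P.γ s2) := by
    rw [hV2]; push_cast; ring
  by_contra hcon
  push Not at hcon
  rcases hcon.lt_or_eq with hlt | heq
  · -- strictly right of `L2`
    have hd : cr (P.γ u - P.V q) (P.γ D2 - P.γ s2) < 0 := by
      rw [hbD, cr_mul_right] at hlt
      by_contra h
      push Not at h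
      have := mul_nonneg ht2.le h
      linarith
    obtain ⟨ε0, hε0, hleft⟩ := P.left_strict hc (PairU_preP h2) (x := q) (by
        have := h2.sβ; have := h2.βi; linarith) (by linarith) (by
        rw [P.γ_int]; exact openSegment_subset_segment ℝ _ _ h2.onL)
    -- continuity
    have hcont : Continuous fun z : ℝ × ℝ => cr (P.γ z.1 - P.γ z.2) (P.γ u - P.γ z.2) := by
      have hγ := P.γ_cont
      exact cr_continuous.comp (((hγ.comp continuous_fst).sub (hγ.comp continuous_snd)).prodMk
        (continuous_const.sub (hγ.comp continuous_snd)))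
    have hcont1 : Continuous fun z : ℝ => cr (P.γ u - P.V q) (P.γ z - P.V q) :=
      cr_continuous.comp (continuous_const.prodMk (P.γ_cont.sub continuous_const))
    have hf0 : cr (P.γ s2 - P.γ D2) (P.γ u - P.γ D2) < 0 := by
      have e1 : P.γ u - P.γ D2 = (P.γ u - P.V q) + ((-t2 : ℝ) : ℂ) * (P.γ D2 - P.γ s2) := by
        rw [hV2]; push_cast; ring
      have e2 : P.γ s2 - P.γ D2 = -(P.γ D2 - P.γ s2) := by ring
      rw [e1, e2, cr_add_right, cr_mul_right, cr_neg_left, cr_neg_left, cr_self, neg_zero, mul_zero,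
        add_zero, cr_swap, neg_neg]
      exact hd
    have hg0 : cr (P.γ u - P.V q) (P.γ D2 - P.V q) < 0 := hlt
    have hk0 : 0 < cr (P.γ u - P.V q) (P.γ s2 - P.V q) := by
      rw [hbs, cr_mul_right]
      have : 0 < 1 - t2 := by linarith
      nlinarith
    have hev1 : ∀ᶠ z in 𝓝 ((s2, D2) : ℝ × ℝ), cr (P.γ z.1 - P.γ z.2) (P.γ u - P.γ z.2) < 0 :=
      hcont.continuousAt.eventually_lt continuousAt_const hf0
    have hev2 : ∀ᶠ z in 𝓝 D2, cr (P.γ u - P.V q) (P.γ z - P.V q) < 0 :=
      hcont1.continuousAt.eventually_lt continuousAt_const hg0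
    have hev3 : ∀ᶠ z in 𝓝 s2, 0 < cr (P.γ u - P.V q) (P.γ z - P.V q) :=
      continuousAt_const.eventually_lt hcont1.continuousAt hk0
    obtain ⟨ε1, hε1, hb1⟩ := Metric.eventually_nhds_iff.1 hev1
    obtain ⟨ε2, hε2, hb2⟩ := Metric.eventually_nhds_iff.1 hev2
    obtain ⟨ε3, hε3, hb3⟩ := Metric.eventually_nhds_iff.1 hev3
    obtain ⟨s, y, hs, hs', hsβ, hy, hy', hyj, hsy⟩ := h2.approx (min (min ε0 ε1) (min ε2 ε3))
      (lt_min (lt_min hε0 hε1) (lt_min hε2 hε3))
    have m0 : min (min ε0 ε1) (min ε2 ε3) ≤ ε0 := (min_le_left _ _).trans (min_le_left _ _)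
    have m1 : min (min ε0 ε1) (min ε2 ε3) ≤ ε1 := (min_le_left _ _).trans (min_le_right _ _)
    have m2 : min (min ε0 ε1) (min ε2 ε3) ≤ ε2 := (min_le_right _ _).trans (min_le_left _ _)
    have m3 : min (min ε0 ε1) (min ε2 ε3) ≤ ε3 := (min_le_right _ _).trans (min_le_right _ _)
    have c1 := hleft s y hs (by linarith) hsβ hy (by linarith) hyj hsy
    rw [P.γ_int] at c1
    have c2 := @hb1 (s, y) (by
      rw [Prod.dist_eq]
      refine max_lt ?_ ?_
      · rw [Real.dist_eq, abs_of_pos (by linarith)]; linarith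
      · rw [Real.dist_eq, abs_of_pos (by linarith)]; linarith)
    have c3 := @hb2 y (by rw [Real.dist_eq, abs_of_pos (by linarith)]; linarith)
    have c4 := @hb3 s (by rw [Real.dist_eq, abs_of_pos (by linarith)]; linarith)
    obtain ⟨z, hz1, hz2⟩ := PairU_cross c1 c2 c3 c4
    have hβ2 := h2.βi
    have hα2 := h2.iα
    have hαs2 := h2.αs
    have hji2 : (j2 : ℝ) + 1 ≤ i2 + n := by exact_mod_cast h2.ji
    have hys : y < s + n := by linarith
    have hsq : s < q := by linarith
    have hqy : (q : ℝ) < y := by linarith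
    have k1 : P.V q ∈ P.Side s y := by
      rw [← P.γ_int q]
      exact P.side_arc hys hsy ⟨hsq, hqy⟩
    have k2 : P.γ u ∈ P.Side s y := P.side_arc hys hsy ⟨by linarith, by linarith⟩
    have k3 := P.side_same_vis hc (by linarith) hys hsy hvis k1 k2 hz2
    apply (P.side_sub k3).2
    rw [segment_symm]
    exact hz1
  · -- on the line of `L2`
    have hE1u : 0 < cr (P.V (j1 + 1) - P.V j1) (P.V q - P.γ u) :=
      hvis.symm.left' hc (by linarith) hu
    have hDne : P.γ D2 - P.V q ≠ 0 := by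
      intro h0
      rw [h0, cr_zero_right] at hDD
      exact lt_irrefl _ hDD
    obtain ⟨l, hl⟩ := cr_eq_zero hDne (v := P.γ u - P.V q) (by rw [cr_swap, heq, neg_zero])
    have hlpos : 0 < l := by
      rw [hl, cr_mul_right] at hb
      exact (pos_iff_pos_of_mul_pos hb).2 hDD
    rcases lt_trichotomy l 1 with hl1 | hl1 | hl1
    · -- `γ u` inside `L2`
      have hmem : P.γ u ∈ openSegment ℝ (P.γ D2) (P.V q) := by
        refine ⟨l, 1 - l, hlpos, by linarith, by ring, ?_⟩
        rw [Complex.real_smul, Complex.real_smul]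
        push_cast
        linear_combination -hl
      have hsub : segment ℝ (P.γ D2) (P.V q) ⊆ P.R := by
        refine Subset.trans ?_ h2.LR
        exact (convex_segment _ _).segment_subset (left_mem_segment ℝ _ _)
          (openSegment_subset_segment ℝ _ _ h2.onL)
      have hNI := (NI_of_Ioo (x := u) (i := j1) (by linarith) hu)
      have hNIn : NI u := hNI.1
      obtain ⟨g1, g2⟩ := P.seg_sector' hc hsub hmem
      obtain ⟨te, hte, he⟩ := P.ep_NI hNIn
      obtain ⟨tm, htm, hm⟩ := P.em_NI hNIn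
      have hflat : cr (P.em u) (P.ep u) = 0 := by
        rw [he, hm, cr_neg_left, cr_mul_left, cr_mul_right, cr_self]; ring
      rw [InSector_flat hflat, hm, cr_neg_left, cr_mul_left, not_lt] at g1 g2
      have hed : P.ed u = P.V (j1 + 1) - P.V j1 := by
        unfold ed
        rw [hNI.2]
      rw [hed] at g1 g2
      have g3 : cr (P.V (j1 + 1) - P.V j1) (P.V q - P.γ D2) =
          -cr (P.V (j1 + 1) - P.V j1) (P.γ D2 - P.V q) := by
        rw [← cr_neg_right]; congr 1; ring
      rw [g3] at g2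
      have g4 : cr (P.V (j1 + 1) - P.V j1) (P.γ D2 - P.V q) = 0 := by
        apply le_antisymm
        · by_contra h
          push Not at h
          have := mul_pos htm h
          nlinarith
        · by_contra h
          push Not at h
          have := mul_neg_of_pos_of_neg htm h
          nlinarith
      have g5 : P.V q - P.γ u = ((-l : ℝ) : ℂ) * (P.γ D2 - P.V q) := by
        push_cast
        linear_combination -hl
      rw [g5, cr_mul_right, g4, mul_zero] at hE1u
      exact lt_irrefl _ hE1u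
    · -- `γ u = γ D2`
      have h3 : P.γ u = P.γ D2 := by
        rw [hl1] at hl
        push_cast at hl
        linear_combination hl
      have := P.γ_inj' h3 (c := s1) (by linarith) (by linarith) (by linarith) hDs
      linarith
    · -- `γ D2` inside the free segment
      have hmem : P.γ D2 ∈ openSegment ℝ (P.V q) (P.γ u) := by
        refine ⟨1 - 1 / l, 1 / l, ?_, by positivity, by ring, ?_⟩
        · have : 1 / l < 1 := (div_lt_one hlpos).2 hl1
          linarith
        · rw [Complex.real_smul, Complex.real_smul]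
          have h4 : P.γ u = P.V q + (l : ℂ) * (P.γ D2 - P.V q) := by linear_combination hl
          have : (l : ℂ) ≠ 0 := by exact_mod_cast hlpos.ne'
          rw [h4]
          push_cast
          field_simp
          ring
      exact P.I_disj_C (hvis.mem hmem) (P.γ_mem_C D2)

end Poly

end Pool.Agent.Lib_PL
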