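import Pool.Agent.Lib_PL.Piv2

/-!
(p1) the pocket `(q,D]` does not see `S`.  Let `x ∈ (q,D]`, `s ∈ S` visible.  `s ≥ s0`: (p2).  `s < s0`: `V q, γ s0 ∈ Side s x`
and `γ D ∈ Side x (s+n)` or `x = D`; so `L` meets the closed segment `γ x, γ s` in a point `c` between `γ D` and `V q`
(`c ≠ V q`).  The triangle `c, γ s, γ s0` is free.  Take `y_m → D` from above, `s_m → s0` from below (`s < s_m`); by `sinf` there
are `c_m = γ (t_m) ∈ C` on the open segments `γ (y_m), γ (s_m)`, strictly right of `L`.  The limit is on `L`: not `γ D`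
(line of edge `j`), not `γ s0` (`s0` is not a vertex because `s < s0`; line of edge `i`), not a left contact
(`left_weak`), so a right contact, hence between `V q` and `γ s0` (`rightc`), hence strictly between `c` and `γ s0`,
where the right side of `L` is inside the free triangle: contradiction.
-/

open Set Complex
open scoped Topology

namespace Pool.Agent.Lib_PL

namespace Poly

variable {n : ℕ} (P : Poly n)

private theorem Piv1_tri (A B E : ℂ) (h1 : segment ℝ A B ⊆ P.R) (h2 : segment ℝ B E ⊆ P.R)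
    (h3 : segment ℝ E A ⊆ P.R) (hn : 0 < cr (B - A) (E - A)) (z : ℂ)
    (k1 : 0 < cr (B - A) (z - A)) (k2 : 0 < cr (E - B) (z - B)) (k3 : 0 < cr (A - E) (z - E)) :
    z ∈ P.I := by
  have hs : cr (E - B) (z - B) + cr (A - E) (z - E) + cr (B - A) (z - A) =
      cr (B - A) (E - A) := by
    simp [cr]; ring
  have hz : (cr (B - A) (E - A) : ℂ) * z = (cr (E - B) (z - B) : ℂ) * A +
      (cr (A - E) (z - E) : ℂ) * B + (cr (B - A) (z - A) : ℂ) * E := by
    apply Complex.ext <;> simp [cr] <;> ring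
  have hn' : (cr (B - A) (E - A) : ℂ) ≠ 0 := by exact_mod_cast hn.ne'
  have h4 := P.tri A B E hn.ne' h1 h2 h3 (cr (E - B) (z - B) / cr (B - A) (E - A))
    (cr (A - E) (z - E) / cr (B - A) (E - A)) (cr (B - A) (z - A) / cr (B - A) (E - A))
    (div_pos k2 hn) (div_pos k3 hn) (div_pos k1 hn) (by field_simp; exact hs)
  convert h4 using 1
  push_cast
  field_simp
  linear_combination hz

private theorem Piv1_seg {a b z : ℂ} (h : z ∈ openSegment ℝ a b) :
    ∃ t : ℝ, 0 < t ∧ t < 1 ∧ z = b + (t : ℂ) * (a - b) := by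
  obtain ⟨t, r, ht, hr, htr, rfl⟩ := h
  refine ⟨t, ht, by linarith, ?_⟩
  have : r = 1 - t := by linarith
  subst this
  simp only [Complex.real_smul]
  push_cast
  ring

theorem preQ_p1 (hc : P.CCW) {i j : ℤ} {α β D s0 : ℝ} {q : ℤ} (h : P.PreQ i j α β D s0 q) :
    ∀ s ∈ Ioo α β, ∀ x : ℝ, (q : ℝ) < x → x ≤ D → ¬ P.Vis (P.γ s) (P.γ x) := by
  intro s hs x hqx hxD hv
  have hp := h.pre
  have hiq : (i : ℝ) + 1 ≤ q := by exact_mod_cast h.iq
  have hqj : (q : ℝ) ≤ j := by exact_mod_cast h.qj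
  have hji : (j : ℝ) + 1 ≤ i + n := by exact_mod_cast hp.ji
  have hiα := hp.iα
  have hβi := hp.βi
  have hjD := hp.jD
  have hDj := hp.Dj
  have hαs := hp.αs
  have hsβ := hp.sβ
  obtain ⟨hs1, hs2⟩ := hs
  rcases le_or_gt s0 s with h1 | h1
  · exact P.preQ_p2 hc h s x h1 (by linarith) hqx hxD hv
  by_cases hxj : (j : ℝ) < x
  · exact hp.Dinf s ⟨hs1, hs2⟩ x hxj hxD hv
  rw [not_lt] at hxj
  -- the edges
  have gi : ∀ y z : ℝ, (i : ℝ) ≤ y → y ≤ i + 1 → (i : ℝ) ≤ z → z ≤ i + 1 →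
      P.γ z - P.γ y = ((z - y : ℝ) : ℂ) * (P.V (i + 1) - P.V i) :=
    fun y z a b c d => P.γ_sub i y z a b c d
  have gj : ∀ y z : ℝ, (j : ℝ) ≤ y → y ≤ j + 1 → (j : ℝ) ≤ z → z ≤ j + 1 →
      P.γ z - P.γ y = ((z - y : ℝ) : ℂ) * (P.V (j + 1) - P.V j) :=
    fun y z a b c d => P.γ_sub j y z a b c d
  have tE := h.tE
  have tF := h.tF
  -- the crossing point `c`
  obtain ⟨ν, hν0, hν1, hν⟩ := Piv1_seg h.onL
  have hVq : P.V q ∈ P.Side s x := by
    rw [← P.γ_int q]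
    exact P.side_arc (by linarith) hv ⟨by linarith, hqx⟩
  have hD : P.γ D ∈ P.Side x (s + n) := P.side_arc' (by linarith) hv ⟨by linarith, by linarith⟩
  have hLR : segment ℝ (P.γ D) (P.γ s0) ⊆ P.R := hp.LR
  have hqD : segment ℝ (P.V q) (P.γ D) ⊆ P.R :=
    ((convex_segment _ _).segment_subset (openSegment_subset_segment _ _ _ h.onL)
      (left_mem_segment _ _ _)).trans hLR
  obtain ⟨c, hc1, hc2⟩ := P.side_cross hc (by linarith) (by linarith) hv hqD hVq hD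
  obtain ⟨κ0, hκ0, hκ1, hκ⟩ := Piv1_seg hc1
  -- `c = γ s0 + κ (γ D - γ s0)`
  obtain ⟨κ, hκν, hκ1', hcκ⟩ : ∃ κ : ℝ, ν < κ ∧ κ < 1 ∧
      c = P.γ s0 + (κ : ℂ) * (P.γ D - P.γ s0) := by
    refine ⟨1 - κ0 * (1 - ν), ?_, ?_, ?_⟩
    · nlinarith
    · nlinarith
    · rw [hκ, hν]
      push_cast
      ring
  -- the triangle
  have hcL : c ∈ segment ℝ (P.γ D) (P.γ s0) := by
    refine ⟨κ, 1 - κ, by linarith, by linarith, by ring, ?_⟩
    rw [hcκ]
    simp only [Complex.real_smul]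
    push_cast
    ring
  have t1 : segment ℝ (P.γ s) (P.γ s0) ⊆ P.R := by
    rw [P.segment_γ (i := i) (by linarith) (by linarith) (by linarith) (by linarith)]
    rintro _ ⟨y, _, rfl⟩
    exact Or.inl (P.γ_mem_C y)
  have t2 : segment ℝ (P.γ s0) c ⊆ P.R :=
    ((convex_segment _ _).segment_subset (right_mem_segment _ _ _) hcL).trans hLR
  have t3 : segment ℝ c (P.γ s) ⊆ P.R :=
    ((convex_segment _ _).segment_subset hc2 (left_mem_segment _ _ _)).trans hv.seg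
  have es : P.γ s0 - P.γ s = ((s0 - s : ℝ) : ℂ) * (P.V (i + 1) - P.V i) :=
    gi s s0 (by linarith) (by linarith) (by linarith) (by linarith)
  have hpos : 0 < s0 - s := by linarith
  have tn : 0 < cr (P.γ s0 - P.γ s) (c - P.γ s) := by
    have e : c - P.γ s = (P.γ s0 - P.γ s) + (κ : ℂ) * (P.γ D - P.γ s0) := by rw [hcκ]; ring
    rw [e, cr_add_right, cr_self, cr_mul_right, es, cr_mul_left, zero_add]
    have : 0 < κ := by linarith
    positivity
  -- the filter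
  set f : Filter (ℝ × ℝ) := 𝓝[<] s0 ×ˢ 𝓝[>] D with hf
  have fst_lim : Filter.Tendsto Prod.fst f (𝓝 s0) :=
    Filter.tendsto_fst.mono_right nhdsWithin_le_nhds
  have snd_lim : Filter.Tendsto Prod.snd f (𝓝 D) :=
    Filter.tendsto_snd.mono_right nhdsWithin_le_nhds
  have F1 : ∀ᶠ p in f, s < p.1 ∧ p.1 < s0 := by
    have h2 : ∀ᶠ a in 𝓝[<] s0, s < a ∧ a < s0 :=
      Filter.Eventually.and (nhdsWithin_le_nhds (lt_mem_nhds h1)) self_mem_nhdsWithin
    exact Filter.tendsto_fst.eventually h2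
  have F2 : ∀ᶠ p in f, D < p.2 ∧ p.2 < (j : ℝ) + 1 := by
    have h2 : ∀ᶠ a in 𝓝[>] D, D < a ∧ a < (j : ℝ) + 1 :=
      Filter.Eventually.and self_mem_nhdsWithin (nhdsWithin_le_nhds (gt_mem_nhds hDj))
    exact Filter.tendsto_snd.eventually h2
  have crc : ∀ u v : ℂ, Continuous fun z : ℂ => cr u (z - v) := by
    intro u v
    unfold cr
    fun_prop
  have F3 : ∀ᶠ p in f, 0 < cr (P.V (i + 1) - P.V i) (P.γ p.2 - P.γ s0) := by
    have h2 : Filter.Tendsto (fun p : ℝ × ℝ => cr (P.V (i + 1) - P.V i) (P.γ p.2 - P.γ s0)) f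
        (𝓝 (cr (P.V (i + 1) - P.V i) (P.γ D - P.γ s0))) :=
      ((crc _ _).tendsto _).comp ((P.γ_cont.tendsto D).comp snd_lim)
    exact h2.eventually (lt_mem_nhds tF)
  have F4 : ∀ᶠ p in f, 0 < cr (P.V (j + 1) - P.V j) (P.γ p.1 - P.γ D) := by
    have h2 : Filter.Tendsto (fun p : ℝ × ℝ => cr (P.V (j + 1) - P.V j) (P.γ p.1 - P.γ D)) f
        (𝓝 (cr (P.V (j + 1) - P.V j) (P.γ s0 - P.γ D))) :=
      ((crc _ _).tendsto _).comp ((P.γ_cont.tendsto s0).comp fst_lim)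
    exact h2.eventually (lt_mem_nhds tE)
  have hev : ∀ᶠ p in f, ∃ T : ℝ × ℝ, T ∈ Icc s0 (s0 + n) ×ˢ Icc (0 : ℝ) 1 ∧ 0 < T.2 ∧ T.2 < 1 ∧
      P.γ T.1 = (1 - (T.2 : ℂ)) * P.γ p.2 + (T.2 : ℂ) * P.γ p.1 := by
    filter_upwards [F1, F2, F3] with p p1 p2 p3
    have hnv := hp.sinf p.1 (by linarith) p1.2.le p.2 ⟨by linarith, p2.2⟩
    obtain ⟨ni, fl⟩ := NI_of_Ioo (x := p.1) (i := i) (by linarith) (by linarith)
    have e1 : P.γ p.1 - P.γ s0 = ((p.1 - s0 : ℝ) : ℂ) * (P.V (i + 1) - P.V i) :=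
      gi s0 p.1 (by linarith) (by linarith) (by linarith) (by linarith)
    have hin : InSector (P.ep p.1) (P.em p.1) (P.γ p.2 - P.γ p.1) := by
      rw [P.InSector_NI ni]
      unfold ed
      rw [fl]
      have e2 : P.γ p.2 - P.γ p.1 = (P.γ p.2 - P.γ s0) - (P.γ p.1 - P.γ s0) := by ring
      rw [e2, cr_sub_right, e1, cr_mul_right, cr_self, mul_zero, sub_zero]
      exact p3
    obtain ⟨c', hc', hcC⟩ := P.block (P.enter hc p.1 (P.γ p.2) hin) hnv
    obtain ⟨t, ht1, ht2, ht3⟩ := P.mem_C_window s0 hcC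
    obtain ⟨a, b, ha, hb, hab, hcc⟩ := hc'
    refine ⟨(t, a), ⟨⟨ht1, ht2.le⟩, ⟨ha.le, by linarith⟩⟩, ha, by show a < 1; linarith, ?_⟩
    show P.γ t = _
    have hb' : b = 1 - a := by linarith
    rw [ht3, ← hcc, hb']
    simp only [Complex.real_smul]
    push_cast
    ring
  obtain ⟨T, hT⟩ := hev.choice
  have hne : f.NeBot := by
    rw [hf]
    infer_instance
  set U : Ultrafilter (ℝ × ℝ) := Ultrafilter.of f with hU
  have hUf : (U : Filter (ℝ × ℝ)) ≤ f := Ultrafilter.of_le f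
  have hK : IsCompact (Icc s0 (s0 + n) ×ˢ Icc (0 : ℝ) 1) := isCompact_Icc.prod isCompact_Icc
  have hmem : Icc s0 (s0 + n) ×ˢ Icc (0 : ℝ) 1 ∈ U.map T := by
    rw [Ultrafilter.mem_map]
    exact hUf (hT.mono fun p hp => hp.1)
  obtain ⟨⟨t, l⟩, hz, hlim⟩ := hK.ultrafilter_le_nhds' (U.map T) hmem
  have hlim' : Filter.Tendsto T U (𝓝 (t, l)) := hlim
  have ht : Filter.Tendsto (fun p => (T p).1) U (𝓝 t) :=
    (continuous_fst.tendsto (t, l)).comp hlim'
  have hl : Filter.Tendsto (fun p => (T p).2) U (𝓝 l) :=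
    (continuous_snd.tendsto (t, l)).comp hlim'
  have hγt : Filter.Tendsto (fun p => P.γ (T p).1) U (𝓝 (P.γ t)) :=
    (P.γ_cont.tendsto t).comp ht
  -- the limit is on `L`
  have hlimL : P.γ t = (1 - (l : ℂ)) * P.γ D + (l : ℂ) * P.γ s0 := by
    have r1 : Filter.Tendsto (fun p : ℝ × ℝ => (1 - ((T p).2 : ℂ)) * P.γ p.2 +
        ((T p).2 : ℂ) * P.γ p.1) U (𝓝 ((1 - (l : ℂ)) * P.γ D + (l : ℂ) * P.γ s0)) := by
      have hl' : Filter.Tendsto (fun p => ((T p).2 : ℂ)) U (𝓝 (l : ℂ)) :=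
        (Complex.continuous_ofReal.tendsto l).comp hl
      exact ((tendsto_const_nhds.sub hl').mul ((P.γ_cont.tendsto D).comp (snd_lim.mono_left hUf))).add
        (hl'.mul ((P.γ_cont.tendsto s0).comp (fst_lim.mono_left hUf)))
    have r2 : (fun p : ℝ × ℝ => P.γ (T p).1) =ᶠ[(U : Filter (ℝ × ℝ))]
        fun p : ℝ × ℝ => (1 - ((T p).2 : ℂ)) * P.γ p.2 + ((T p).2 : ℂ) * P.γ p.1 :=
      Filter.Eventually.mono (hUf hT) fun p hp => hp.2.2.2
    exact tendsto_nhds_unique hγt (r1.congr' r2.symm)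
  have htL : P.γ t ∈ segment ℝ (P.γ D) (P.γ s0) := by
    refine ⟨1 - l, l, by linarith [hz.2.2], hz.2.1, by ring, ?_⟩
    rw [hlimL]
    simp only [Complex.real_smul]
    push_cast
    ring
  -- sign conditions
  have G : ∀ᶠ p in (U : Filter (ℝ × ℝ)), 0 < cr (P.V (i + 1) - P.V i) (P.γ (T p).1 - P.γ s0) ∧
      0 < cr (P.V (j + 1) - P.V j) (P.γ (T p).1 - P.γ D) ∧
      cr (P.γ s0 - P.γ D) (P.γ (T p).1 - P.γ D) < 0 ∧ (T p).1 ∈ Icc s0 (s0 + n) := by
    filter_upwards [hUf F1, hUf F2, hUf F3, hUf F4, hUf hT] with p p1 p2 p3 p4 p5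
    obtain ⟨q1, q2, q3, q4⟩ := p5
    have e1 : P.γ p.1 - P.γ s0 = ((p.1 - s0 : ℝ) : ℂ) * (P.V (i + 1) - P.V i) :=
      gi s0 p.1 (by linarith) (by linarith) (by linarith [p1.1]) (by linarith [p1.2])
    have e2 : P.γ p.2 - P.γ D = ((p.2 - D : ℝ) : ℂ) * (P.V (j + 1) - P.V j) :=
      gj D p.2 (by linarith) (by linarith) (by linarith [p2.1]) (by linarith [p2.2])
    have hl1 : 0 < 1 - (T p).2 := by linarith
    refine ⟨?_, ?_, ?_, q1.1⟩
    · have e : P.γ (T p).1 - P.γ s0 = ((1 - (T p).2 : ℝ) : ℂ) * (P.γ p.2 - P.γ s0) +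
          ((T p).2 : ℂ) * (P.γ p.1 - P.γ s0) := by
        rw [q4]; push_cast; ring
      rw [e, cr_add_right, cr_mul_right, cr_mul_right, e1, cr_mul_right, cr_self]
      have := mul_pos hl1 p3
      linarith
    · have e : P.γ (T p).1 - P.γ D = ((1 - (T p).2 : ℝ) : ℂ) * (P.γ p.2 - P.γ D) +
          ((T p).2 : ℂ) * (P.γ p.1 - P.γ D) := by
        rw [q4]; push_cast; ring
      rw [e, cr_add_right, cr_mul_right, cr_mul_right, e2, cr_mul_right, cr_self]
      have := mul_pos q2 p4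
      linarith
    · have e : P.γ (T p).1 - P.γ D = ((1 - (T p).2 : ℝ) : ℂ) * (P.γ p.2 - P.γ D) +
          ((T p).2 : ℂ) * ((P.γ p.1 - P.γ s0) + (P.γ s0 - P.γ D)) := by
        rw [q4]; push_cast; ring
      rw [e, cr_add_right, cr_mul_right, cr_mul_right, e2, e1, cr_add_right, cr_mul_right,
        cr_mul_right, cr_self, cr_swap (P.γ s0 - P.γ D) (P.V (j + 1) - P.V j),
        cr_swap (P.γ s0 - P.γ D) (P.V (i + 1) - P.V i)]
      have e3 : cr (P.V (i + 1) - P.V i) (P.γ s0 - P.γ D) =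
          - cr (P.V (i + 1) - P.V i) (P.γ D - P.γ s0) := by
        rw [← cr_neg_right, neg_sub]
      rw [e3]
      have m1 := mul_pos hl1 (mul_pos (sub_pos.2 p2.1) tE)
      have m2 := mul_pos q2 (mul_pos (sub_pos.2 p1.2) tF)
      nlinarith
  obtain ⟨⟨ht0, htn⟩, hl0⟩ := hz
  have ht0 : s0 ≤ t := ht0
  have htn : t ≤ s0 + n := htn
  rcases ht0.eq_or_lt with h2 | h2
  · -- `t = s0`
    have h3 : ∀ᶠ p in (U : Filter (ℝ × ℝ)), (T p).1 < i + 1 :=
      ht.eventually (gt_mem_nhds (by rw [← h2]; linarith))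
    obtain ⟨p, p1, p2, -, -, p3⟩ := (h3.and G).exists
    have e1 := gi s0 (T p).1 (by linarith) (by linarith) (by linarith [p3.1]) (by linarith)
    rw [e1, cr_mul_right, cr_self, mul_zero] at p2
    exact lt_irrefl _ p2
  rcases htn.eq_or_lt with h3 | h3
  · -- `t = s0 + n`
    have h4 : ∀ᶠ p in (U : Filter (ℝ × ℝ)), s + n < (T p).1 :=
      ht.eventually (lt_mem_nhds (by rw [h3]; linarith))
    obtain ⟨p, p1, p2, -, -, p3⟩ := (h4.and G).exists
    have e0 : P.γ (T p).1 = P.γ ((T p).1 - n) := by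
      rw [← P.γ_add_n ((T p).1 - n), sub_add_cancel]
    have e1 := gi s0 ((T p).1 - n) (by linarith) (by linarith) (by linarith)
      (by linarith [p3.2])
    rw [e0, e1, cr_mul_right, cr_self, mul_zero] at p2
    exact lt_irrefl _ p2
  rcases lt_trichotomy t D with h4 | h4 | h4
  · -- left contact
    obtain ⟨ρ, hρ, hw⟩ := P.left_weak hc hp h2 h4 htL
    have h5 : ∀ᶠ p in (U : Filter (ℝ × ℝ)), |(T p).1 - t| < ρ :=
      ht.eventually (Metric.ball_mem_nhds t hρ)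
    obtain ⟨p, p1, -, -, p2, -⟩ := (h5.and G).exists
    exact absurd (hw _ p1) (not_le.2 p2)
  · -- `t = D`
    have h5 : ∀ᶠ p in (U : Filter (ℝ × ℝ)), (j : ℝ) < (T p).1 :=
      ht.eventually (lt_mem_nhds (by rw [h4]; linarith))
    have h6 : ∀ᶠ p in (U : Filter (ℝ × ℝ)), (T p).1 < j + 1 :=
      ht.eventually (gt_mem_nhds (by rw [h4]; linarith))
    obtain ⟨p, ⟨p1, p1'⟩, -, p2, -, -⟩ := ((h5.and h6).and G).exists
    have e1 := gj D (T p).1 (by linarith) (by linarith) (by linarith) (by linarith)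
    rw [e1, cr_mul_right, cr_self, mul_zero] at p2
    exact lt_irrefl _ p2
  · -- right contact
    obtain ⟨θ0, hθ0, hθ1, hθ⟩ := Piv1_seg (h.rightc t h4 h3 htL)
    have hθ' : P.γ t = P.γ s0 + ((θ0 * ν : ℝ) : ℂ) * (P.γ D - P.γ s0) := by
      rw [hθ, hν]
      push_cast
      ring
    have hθκ : θ0 * ν < κ := by nlinarith
    have k3 : 0 < cr (P.γ s - c) (P.γ t - c) := by
      have e1 : P.γ t - c = ((θ0 * ν - κ : ℝ) : ℂ) * (P.γ D - P.γ s0) := by
        rw [hθ', hcκ]; push_cast; ring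
      have e2 : P.γ s - c = -(P.γ s0 - P.γ s) - (κ : ℂ) * (P.γ D - P.γ s0) := by
        rw [hcκ]; ring
      rw [e1, e2, cr_mul_right, cr_sub_left, cr_neg_left, cr_mul_left, cr_self, es, cr_mul_left]
      have := mul_pos (sub_pos.2 hθκ) (mul_pos hpos tF)
      nlinarith
    have h5 : ∀ᶠ p in (U : Filter (ℝ × ℝ)), 0 < cr (P.γ s - c) (P.γ (T p).1 - c) := by
      have h6 : Filter.Tendsto (fun p : ℝ × ℝ => cr (P.γ s - c) (P.γ (T p).1 - c)) U
          (𝓝 (cr (P.γ s - c) (P.γ t - c))) := ((crc _ _).tendsto _).comp hγt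
      exact h6.eventually (lt_mem_nhds k3)
    obtain ⟨p, p1, p2, -, p3, -⟩ := (h5.and G).exists
    have hI : P.γ (T p).1 ∈ P.I := by
      refine P.Piv1_tri (P.γ s) (P.γ s0) c t1 t2 t3 tn _ ?_ ?_ p1
      · have e1 : P.γ (T p).1 - P.γ s = (P.γ (T p).1 - P.γ s0) + (P.γ s0 - P.γ s) := by ring
        rw [e1, cr_add_right, cr_self, es, cr_mul_left, add_zero]
        exact mul_pos hpos p2
      · have e1 : c - P.γ s0 = (κ : ℂ) * (P.γ D - P.γ s0) := by rw [hcκ]; ring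
        have e2 : P.γ (T p).1 - P.γ s0 = (P.γ (T p).1 - P.γ D) + (P.γ D - P.γ s0) := by ring
        rw [e1, e2, cr_mul_left, cr_add_right, cr_self, add_zero]
        have e3 : cr (P.γ D - P.γ s0) (P.γ (T p).1 - P.γ D) =
            - cr (P.γ s0 - P.γ D) (P.γ (T p).1 - P.γ D) := by
          rw [← cr_neg_left, neg_sub]
        rw [e3]
        exact mul_pos (by linarith) (by linarith)
    exact hI.1 (P.γ_mem_C _)

end Poly

end Pool.Agent.Lib_PL
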