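import Pool.Agent.Lib_PL.PreQ1

/-!
(p2) the pinch property.

Case `s0 < a`: for good approximations `s < a`, `b < y`, both ends of the chord `s y` are in `Side b (a+n)`, but the
chord comes arbitrarily close to `V q ∈ Side a b` (`side_open`, `side_same_vis'`).
Case `s0 = a`: if `γ b` is not on the ray from `γ s0` through `γ D`, then `L` minus `γ s0` is connected and misses the
chord `s0 b`, but `V q ∈ Side s0 b`, `γ D ∈ Side b (s0+n)` (or `b = D`, excluded since then `V q ∈ C` is on the free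
segment).  On the ray: `γ b` strictly closer to `γ s0` than `V q`: it is a left contact, contradiction with
`leftc`; otherwise `V q` or `γ D` is on the free open segment.
-/

open Set Complex
open scoped Topology

namespace Pool.Agent.Lib_PL

namespace Poly

variable {n : ℕ} (P : Poly n)

private theorem Piv2_mem_seg (A B z : ℂ) :
    z ∈ segment ℝ A B ↔ ∃ t : ℝ, 0 ≤ t ∧ t ≤ 1 ∧ z = A + (t : ℂ) * (B - A) := by
  rw [segment_eq_image']
  constructor
  · rintro ⟨t, ht, rfl⟩
    exact ⟨t, ht.1, ht.2, by simp [Complex.real_smul]⟩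
  · rintro ⟨t, h0, h1, rfl⟩
    exact ⟨t, ⟨h0, h1⟩, by simp [Complex.real_smul]⟩

private theorem Piv2_mem_oseg (A B z : ℂ) :
    z ∈ openSegment ℝ A B ↔ ∃ t : ℝ, 0 < t ∧ t < 1 ∧ z = A + (t : ℂ) * (B - A) := by
  rw [openSegment_eq_image']
  constructor
  · rintro ⟨t, ht, rfl⟩
    exact ⟨t, ht.1, ht.2, by simp [Complex.real_smul]⟩
  · rintro ⟨t, h0, h1, rfl⟩
    exact ⟨t, ⟨h0, h1⟩, by simp [Complex.real_smul]⟩

/-- order facts -/
private theorem Piv2_ord {P : Poly n} {i j : ℤ} {α β D s0 : ℝ} (h : P.PreP i j α β D s0) :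
    (i : ℝ) ≤ s0 ∧ s0 < (i : ℝ) + 1 ∧ (i : ℝ) + 1 ≤ j ∧ (j : ℝ) + 1 ≤ i + n := by
  have h1 : (i : ℝ) + 1 ≤ j := by exact_mod_cast h.ij
  have h2 : (j : ℝ) + 1 ≤ i + n := by exact_mod_cast h.ji
  have h3 := h.iα
  have h4 := h.αs
  have h5 := h.sβ
  have h6 := h.βi
  exact ⟨by linarith, by linarith, h1, h2⟩

/-- good approximations, with a bound on positions and on points -/
private theorem Piv2_approx {P : Poly n} {i j : ℤ} {α β D s0 : ℝ} (h : P.PreP i j α β D s0)
    {ε δ : ℝ} (hε : 0 < ε) (hδ : 0 < δ) :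
    ∃ s y : ℝ, s0 < s ∧ s < s0 + δ ∧ s < β ∧ D < y ∧ y < D + δ ∧ y < j + 1 ∧ P.Vis (P.γ s) (P.γ y) ∧
      ‖P.γ y - P.γ D‖ < ε ∧ ‖P.γ s - P.γ s0‖ < ε := by
  obtain ⟨δ1, hδ1, h1⟩ := Metric.continuousAt_iff.1 (P.γ_cont.continuousAt (x := D)) ε hε
  obtain ⟨δ2, hδ2, h2⟩ := Metric.continuousAt_iff.1 (P.γ_cont.continuousAt (x := s0)) ε hε
  obtain ⟨s, y, a1, a2, a3, a4, a5, a6, a7⟩ := h.approx (min δ (min δ1 δ2)) (by positivity)
  have m1 : min δ (min δ1 δ2) ≤ δ := min_le_left _ _
  have m2 : min δ (min δ1 δ2) ≤ δ1 := (min_le_right _ _).trans (min_le_left _ _)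
  have m3 : min δ (min δ1 δ2) ≤ δ2 := (min_le_right _ _).trans (min_le_right _ _)
  refine ⟨s, y, a1, by linarith, a3, a4, by linarith, a6, a7, ?_, ?_⟩
  · rw [← dist_eq_norm]
    apply h1
    rw [Real.dist_eq, abs_of_pos (by linarith)]
    linarith
  · rw [← dist_eq_norm]
    apply h2
    rw [Real.dist_eq, abs_of_pos (by linarith)]
    linarith

theorem preQ_p2 (hc : P.CCW) {i j : ℤ} {α β D s0 : ℝ} {q : ℤ} (h : P.PreQ i j α β D s0 q) (a b : ℝ)
    (ha : s0 ≤ a) (ha' : a < q) (hb : (q : ℝ) < b) (hb' : b ≤ D) : ¬ P.Vis (P.γ a) (P.γ b) := by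
  intro hv
  obtain ⟨o1, o2, o3, o4⟩ := Piv2_ord h.pre
  have hjD := h.pre.jD
  have hDj := h.pre.Dj
  have hab : a < b := ha'.trans hb
  have hba : b < a + n := by linarith
  have hsub := h.pre.LR
  obtain ⟨t, ht0, ht1, ht⟩ := (Piv2_mem_oseg _ _ _).1 h.onL
  rcases eq_or_lt_of_le ha with rfl | hsa
  · -- the chord starts at `γ s0`
    have hqside : P.γ q ∈ P.Side s0 b := P.side_arc hba hv ⟨ha', hb⟩
    rw [P.γ_int] at hqside
    have hqC : P.V q ∈ P.C := by
      have := P.γ_mem_C (q : ℝ)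
      rwa [P.γ_int] at this
    rcases eq_or_lt_of_le hb' with rfl | hbD
    · exact P.I_disj_C (hv.symm h.onL) hqC
    · have hDside : P.γ D ∈ P.Side b (s0 + n) := P.side_arc' hab hv ⟨hbD, by linarith⟩
      have hqL : P.V q ∈ segment ℝ (P.γ D) (P.γ s0) := openSegment_subset_segment ℝ _ _ h.onL
      have hsR : segment ℝ (P.γ D) (P.V q) ⊆ P.R :=
        ((convex_segment (𝕜 := ℝ) (P.γ D) (P.γ s0)).segment_subset (left_mem_segment ℝ _ _) hqL).trans
          hsub
      by_cases hdis : Disjoint (segment ℝ (P.γ D) (P.V q)) (segment ℝ (P.γ s0) (P.γ b))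
      · rcases P.side_conn hc hab hba hv (convex_segment (𝕜 := ℝ) _ _).isPreconnected hsR hdis with
          h1 | h1
        · exact Set.disjoint_left.1 (P.side_disj hc hab hba hv) (h1 (left_mem_segment ℝ _ _)) hDside
        · exact Set.disjoint_left.1 (P.side_disj hc hab hba hv) hqside (h1 (right_mem_segment ℝ _ _))
      · rw [Set.not_disjoint_iff] at hdis
        obtain ⟨c, hc1, hc2⟩ := hdis
        obtain ⟨u, hu0, hu1, hu⟩ := (Piv2_mem_seg _ _ _).1 hc1
        obtain ⟨w, hw0, hw1, hw⟩ := (Piv2_mem_seg _ _ _).1 hc2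
        have hne : P.γ D - P.γ s0 ≠ 0 := sub_ne_zero.2 h.pre.ne
        -- `c = γ s0 + (1 - u t) (γ D - γ s0)`
        have hc3 : c - P.γ s0 = ((1 - u * t : ℝ) : ℂ) * (P.γ D - P.γ s0) := by
          rw [hu, ht]
          push_cast
          ring
        have hut : u * t ≤ t := by nlinarith
        have hpos : 0 < 1 - u * t := by linarith
        have hposC : ((1 - u * t : ℝ) : ℂ) ≠ 0 := by exact_mod_cast hpos.ne'
        have hc4 : c - P.γ s0 = (w : ℂ) * (P.γ b - P.γ s0) := by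
          rw [hw]
          ring
        have hqb : P.V q ∈ segment ℝ (P.γ s0) (P.γ b) := by
          refine (Piv2_mem_seg _ _ _).2 ⟨(1 - t) / (1 - u * t) * w, ?_, ?_, ?_⟩
          · have h1 : 0 ≤ (1 - t) / (1 - u * t) := div_nonneg (by linarith) hpos.le
            exact mul_nonneg h1 hw0
          · have h1 : (1 - t) / (1 - u * t) ≤ 1 := (div_le_one hpos).2 (by linarith)
            have h2 : 0 ≤ (1 - t) / (1 - u * t) := div_nonneg (by linarith) hpos.le
            nlinarith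
          · have h1 : P.V q - P.γ s0 = ((1 - t : ℝ) : ℂ) * (P.γ D - P.γ s0) := by
              rw [ht]
              push_cast
              ring
            have h2 : P.γ D - P.γ s0 = (w : ℂ) * (P.γ b - P.γ s0) / ((1 - u * t : ℝ) : ℂ) := by
              rw [← hc4, hc3, mul_div_cancel_left₀ _ hposC]
            have h3 : P.V q = P.γ s0 + (P.V q - P.γ s0) := by ring
            rw [h3, h1, h2]
            push_cast
            ring
        rcases hv.end_of_C hqb hqC with h1 | h1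
        · rw [← P.γ_int] at h1
          have := P.γ_inj' (c := s0) h1 ha'.le (by linarith) le_rfl (by linarith)
          linarith
        · rw [← P.γ_int] at h1
          have := P.γ_inj' (c := s0) h1 ha'.le (by linarith) (by linarith) (by linarith)
          linarith
  · -- the chord starts after `s0`
    have hqside : P.γ q ∈ P.Side a b := P.side_arc hba hv ⟨ha', hb⟩
    rw [P.γ_int] at hqside
    obtain ⟨ρ, hρ, hopen⟩ := P.side_open hc hab hba hv hqside
    obtain ⟨s, y, a1, a2, a3, a4, a5, a6, a7, a8, a9⟩ :=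
      Piv2_approx h.pre hρ (δ := min (a - s0) (s0 + n - D)) (lt_min (by linarith) (by linarith))
    have m1 : min (a - s0) (s0 + n - D) ≤ a - s0 := min_le_left _ _
    have m2 : min (a - s0) (s0 + n - D) ≤ s0 + n - D := min_le_right _ _
    have hs' : P.γ s ∈ P.Side b (a + n) := by
      have h1 := P.side_arc' hab hv (x := s + n) ⟨by linarith, by linarith⟩
      rwa [P.γ_add_n] at h1
    have hy' : P.γ y ∈ P.Side b (a + n) := P.side_arc' hab hv ⟨by linarith, by linarith⟩
    have hseg := P.side_same_vis' hc hab hba hv a7 hs' hy'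
    have hz : P.γ y + (t : ℂ) * (P.γ s - P.γ y) ∈ segment ℝ (P.γ s) (P.γ y) := by
      rw [segment_symm]
      exact (Piv2_mem_seg _ _ _).2 ⟨t, ht0.le, ht1.le, rfl⟩
    have hzR : P.γ y + (t : ℂ) * (P.γ s - P.γ y) ∈ P.R := (P.side_sub (hseg hz)).1
    refine Set.disjoint_left.1 (P.side_disj hc hab hba hv) (hopen _ hzR ?_) (hseg hz)
    have h1 : P.γ y + (t : ℂ) * (P.γ s - P.γ y) - P.V q =
        ((1 - t : ℝ) : ℂ) * (P.γ y - P.γ D) + (t : ℂ) * (P.γ s - P.γ s0) := by
      rw [ht]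
      push_cast
      ring
    rw [h1]
    refine (norm_add_le _ _).trans_lt ?_
    rw [norm_mul, norm_mul, Complex.norm_real, Complex.norm_real, Real.norm_of_nonneg ht0.le,
      Real.norm_of_nonneg (by linarith : (0 : ℝ) ≤ 1 - t)]
    nlinarith [mul_lt_mul_of_pos_left a8 (by linarith : (0 : ℝ) < 1 - t),
      mul_lt_mul_of_pos_left a9 ht0]

end Poly

end Pool.Agent.Lib_PL
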