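import Pool.Agent.Lib_PL.Weak

/-!
Existence of `D` and `s0`.  `D` = infimum of the points `y` of edge `j` which see `S`, `s0` = infimum of the
points of `S` which see edge `j`; by openness (`vis_open`) both are not attained; `approx` from `rect` and the
definition of the infima.
-/

open Set Complex
open scoped Topology

namespace Pool.Agent.Lib_PL

namespace Poly

variable {n : ℕ} (P : Poly n)

theorem preP_exists (hc : P.CCW) {i j : ℤ} (ij : i < j) (ji : j < i + n) {α β y0 : ℝ}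
    (iα : (i : ℝ) ≤ α) (αβ : α < β) (βi : β ≤ i + 1) (hy0 : (j : ℝ) < y0)
    (hnear : ∀ y : ℝ, (j : ℝ) < y → y < y0 → ∀ s ∈ Ioo α β, ¬ P.Vis (P.γ s) (P.γ y))
    (hex : ∃ s ∈ Ioo α β, ∃ y ∈ Ioo (j : ℝ) (j + 1), P.Vis (P.γ s) (P.γ y)) :
    ∃ D s0 : ℝ, P.PreP i j α β D s0 ∧ y0 ≤ D := by
  set T : Set ℝ := {y | y ∈ Ioo (j : ℝ) (j + 1) ∧ ∃ s ∈ Ioo α β, P.Vis (P.γ s) (P.γ y)} with hT
  set U : Set ℝ := {s | s ∈ Ioo α β ∧ ∃ y ∈ Ioo (j : ℝ) (j + 1), P.Vis (P.γ s) (P.γ y)} with hU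
  obtain ⟨s1, hs1, y1, hy1, hv1⟩ := hex
  have hTne : T.Nonempty := ⟨y1, hy1, s1, hs1, hv1⟩
  have hUne : U.Nonempty := ⟨s1, hs1, y1, hy1, hv1⟩
  have hTy0 : ∀ y ∈ T, y0 ≤ y := by
    intro y hy
    by_contra hlt
    obtain ⟨s, hs, hv⟩ := hy.2
    exact hnear y hy.1.1 (not_le.1 hlt) s hs hv
  have hTb : BddBelow T := ⟨y0, fun y hy => hTy0 y hy⟩
  have hUb : BddBelow U := ⟨α, fun s hs => hs.1.1.le⟩
  have hy0D : y0 ≤ sInf T := le_csInf hTne hTy0
  have hjD : (j : ℝ) < sInf T := lt_of_lt_of_le hy0 hy0D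
  have hDj : sInf T < j + 1 := lt_of_le_of_lt (csInf_le hTb ⟨hy1, s1, hs1, hv1⟩) hy1.2
  have hαs : α ≤ sInf U := le_csInf hUne fun s hs => hs.1.1.le
  have hsβ : sInf U < β := lt_of_le_of_lt (csInf_le hUb ⟨hs1, y1, hy1, hv1⟩) hs1.2
  have hNIs : ∀ s ∈ Ioo α β, NI s := fun s hs =>
    (NI_of_Ioo (lt_of_le_of_lt iα hs.1) (lt_of_lt_of_le hs.2 βi)).1
  have hNIy : ∀ y ∈ Ioo (j : ℝ) (j + 1), NI y := fun y hy => (NI_of_Ioo hy.1 hy.2).1
  have hDinf : ∀ s ∈ Ioo α β, ∀ y : ℝ, (j : ℝ) < y → y ≤ sInf T → ¬ P.Vis (P.γ s) (P.γ y) := by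
    intro s hs y hjy hyD hv
    have hyI : y ∈ Ioo (j : ℝ) (j + 1) := ⟨hjy, lt_of_le_of_lt hyD hDj⟩
    obtain ⟨ε, hε, hop⟩ := P.vis_open hc (hNIs s hs) (hNIy y hyI) hv
    have hm : 0 < min (ε / 2) ((y - j) / 2) := lt_min (by linarith) (by linarith)
    have h1 : min (ε / 2) ((y - j) / 2) ≤ ε / 2 := min_le_left _ _
    have h2 : min (ε / 2) ((y - j) / 2) ≤ (y - j) / 2 := min_le_right _ _
    set μ := min (ε / 2) ((y - j) / 2) with hμ
    have hv2 : P.Vis (P.γ s) (P.γ (y - μ)) := by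
      apply hop
      · rw [sub_self, abs_zero]; exact hε
      · rw [sub_sub_cancel_left, abs_neg, abs_of_pos hm]; linarith
    have hmem : y - μ ∈ T := ⟨⟨by linarith, by linarith [hyI.2]⟩, s, hs, hv2⟩
    have := csInf_le hTb hmem
    linarith
  have hsinf : ∀ s : ℝ, α < s → s ≤ sInf U → ∀ y ∈ Ioo (j : ℝ) (j + 1),
      ¬ P.Vis (P.γ s) (P.γ y) := by
    intro s hαs' hsU y hy hv
    have hsI : s ∈ Ioo α β := ⟨hαs', lt_of_le_of_lt hsU hsβ⟩
    obtain ⟨ε, hε, hop⟩ := P.vis_open hc (hNIs s hsI) (hNIy y hy) hv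
    have hm : 0 < min (ε / 2) ((s - α) / 2) := lt_min (by linarith) (by linarith)
    have h1 : min (ε / 2) ((s - α) / 2) ≤ ε / 2 := min_le_left _ _
    have h2 : min (ε / 2) ((s - α) / 2) ≤ (s - α) / 2 := min_le_right _ _
    set μ := min (ε / 2) ((s - α) / 2) with hμ
    have hv2 : P.Vis (P.γ (s - μ)) (P.γ y) := by
      apply hop
      · rw [sub_sub_cancel_left, abs_neg, abs_of_pos hm]; linarith
      · rw [sub_self, abs_zero]; exact hε
    have hmem : s - μ ∈ U := ⟨⟨by linarith, by linarith [hsI.2]⟩, y, hy, hv2⟩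
    have := csInf_le hUb hmem
    linarith
  refine ⟨sInf T, sInf U, ⟨ij, ji, iα, βi, hjD, hDj, hαs, hsβ, hDinf, hsinf, ?_⟩, hy0D⟩
  intro ε hε
  obtain ⟨ya, hya, hyaε⟩ := exists_lt_of_csInf_lt hTne (show sInf T < sInf T + ε by linarith)
  obtain ⟨sb, hsb, hsbε⟩ := exists_lt_of_csInf_lt hUne (show sInf U < sInf U + ε by linarith)
  obtain ⟨hyaI, sa, hsa, hva⟩ := hya
  obtain ⟨hsbI, yb, hyb, hvb⟩ := hsb
  have hDya : sInf T < ya := by
    by_contra h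
    exact hDinf sa hsa ya hyaI.1 (not_lt.1 h) hva
  have hDyb : sInf T < yb := by
    by_contra h
    exact hDinf sb hsbI yb hyb.1 (not_lt.1 h) hvb
  have hsa0 : sInf U < sa := by
    by_contra h
    exact hsinf sa hsa.1 (not_lt.1 h) ya hyaI hva
  have hsb0 : sInf U < sb := by
    by_contra h
    exact hsinf sb hsbI.1 (not_lt.1 h) yb hyb hvb
  rcases le_total sa sb with h1 | h1
  · exact ⟨sa, ya, hsa0, by linarith, hsa.2, hDya, hyaε, hyaI.2, hva⟩
  · rcases le_total yb ya with h2 | h2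
    · exact ⟨sb, yb, hsb0, hsbε, hsbI.2, hDyb, by linarith, hyb.2, hvb⟩
    · refine ⟨sb, ya, hsb0, hsbε, hsbI.2, hDya, hyaε, hyaI.2, ?_⟩
      exact P.rect hc (lt_of_le_of_lt iα hsbI.1) h1 (lt_of_lt_of_le hsa.2 βi) hyaI.1 h2 hyb.2 hvb hva
        sb ⟨le_refl _, h1⟩ ya ⟨le_refl _, h2⟩

variable {P} {i j : ℤ} {α β D s0 : ℝ}

theorem PreP.LR (h : P.PreP i j α β D s0) : segment ℝ (P.γ D) (P.γ s0) ⊆ P.R := by
  have hk : ∀ k : ℕ, ∃ s y : ℝ, |s - s0| < 1 / ((k : ℝ) + 1) ∧ |y - D| < 1 / ((k : ℝ) + 1) ∧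
      P.Vis (P.γ s) (P.γ y) := by
    intro k
    obtain ⟨s, y, h1, h2, -, h4, h5, -, h7⟩ := h.approx (1 / ((k : ℝ) + 1)) (by positivity)
    refine ⟨s, y, ?_, ?_, h7⟩
    · rw [abs_of_pos (by linarith)]; linarith
    · rw [abs_of_pos (by linarith)]; linarith
  choose s y hs hy hv using hk
  have hst : Filter.Tendsto s Filter.atTop (𝓝 s0) := by
    rw [tendsto_iff_dist_tendsto_zero]
    refine squeeze_zero (fun k => dist_nonneg) (fun k => ?_) tendsto_one_div_add_atTop_nhds_zero_nat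
    rw [Real.dist_eq]
    exact (hs k).le
  have hyt : Filter.Tendsto y Filter.atTop (𝓝 D) := by
    rw [tendsto_iff_dist_tendsto_zero]
    refine squeeze_zero (fun k => dist_nonneg) (fun k => ?_) tendsto_one_div_add_atTop_nhds_zero_nat
    rw [Real.dist_eq]
    exact (hy k).le
  rintro z ⟨a, b, ha, hb, hab, rfl⟩
  have h1 : Filter.Tendsto (fun k => a • P.γ (y k) + b • P.γ (s k)) Filter.atTop
      (𝓝 (a • P.γ D + b • P.γ s0)) :=
    (((P.γ_cont.tendsto D).comp hyt).const_smul a).add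
      (((P.γ_cont.tendsto s0).comp hst).const_smul b)
  refine P.R_closed.mem_of_tendsto h1 (Filter.Eventually.of_forall fun k => ?_)
  exact (hv k).symm.seg ⟨a, b, ha, hb, hab, rfl⟩

theorem PreP.ne (h : P.PreP i j α β D s0) : P.γ D ≠ P.γ s0 := by
  intro heq
  obtain ⟨m, hm⟩ := P.γ_inj heq
  have h1 : (i : ℝ) + 1 ≤ j := by exact_mod_cast h.ij
  have h2 : (j : ℝ) + 1 ≤ i + n := by exact_mod_cast h.ji
  have h3 := h.iα
  have h4 := h.βi
  have h5 := h.jD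
  have h6 := h.Dj
  have h7 := h.αs
  have h8 := h.sβ
  have hn : (0 : ℝ) < n := by
    have := P.three_le
    exact_mod_cast (by omega : 0 < n)
  have h9 : (m : ℝ) * n < 0 := by linarith
  have h10 : -(n : ℝ) < (m : ℝ) * n := by linarith
  have h11 : (m : ℝ) < 0 := by
    by_contra hcon
    have := mul_nonneg (not_lt.1 hcon) hn.le
    linarith
  have h12 : (-1 : ℝ) < m := by
    by_contra hcon
    have h13 : (m : ℝ) ≤ -1 := not_lt.1 hcon
    have := mul_le_mul_of_nonneg_right h13 hn.le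
    linarith
  have h14 : m < 0 := by exact_mod_cast h11
  have h15 : -1 < m := by exact_mod_cast h12
  omega

end Poly

end Pool.Agent.Lib_PL
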