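import Pool.Agent.Lib_PL.LeftContact

/-!
Existence of the pivot vertex `q`: among the left contacts (a compact set of positions: `γ x` is not on `L` for
`x` slightly larger than `s0` (`tF`) or slightly smaller than `D` (`tE`)) take the one closest to `γ s0`.  It is a
vertex: the edge through a non-vertex contact would be collinear with `L` (as `L ⊆ R` and the curve near
the contact is weakly left, `left_weak`), then the end of this edge towards `γ s0` is a closer left contact.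
`epl`, weak `eml`: `left_weak`.  `eml` strict: if the direction of edge `q - 1` is along `L`: towards `s0` is
impossible (closer left contact); towards `D`: then the exterior sector at `q` (from `em` counterclockwise to
`ep`) contains the direction to the right of `L` and (as `ep` does not point to `s0`) the direction of `s0`,
contradiction with `LR` (`seg_sector'`).  `rightc` is `left_right`.
-/

open Set Complex
open scoped Topology

namespace Pool.Agent.Lib_PL

namespace Poly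

variable {n : ℕ} (P : Poly n)

private theorem preQ1_mem_seg (A B z : ℂ) :
    z ∈ segment ℝ A B ↔ ∃ t : ℝ, 0 ≤ t ∧ t ≤ 1 ∧ z = A + (t : ℂ) * (B - A) := by
  rw [segment_eq_image']
  constructor
  · rintro ⟨t, ht, rfl⟩
    exact ⟨t, ht.1, ht.2, by simp [Complex.real_smul]⟩
  · rintro ⟨t, h0, h1, rfl⟩
    exact ⟨t, ⟨h0, h1⟩, by simp [Complex.real_smul]⟩

private theorem preQ1_mem_oseg (A B z : ℂ) :
    z ∈ openSegment ℝ A B ↔ ∃ t : ℝ, 0 < t ∧ t < 1 ∧ z = A + (t : ℂ) * (B - A) := by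
  rw [openSegment_eq_image']
  constructor
  · rintro ⟨t, ht, rfl⟩
    exact ⟨t, ht.1, ht.2, by simp [Complex.real_smul]⟩
  · rintro ⟨t, h0, h1, rfl⟩
    exact ⟨t, ⟨h0, h1⟩, by simp [Complex.real_smul]⟩

private theorem preQ1_seg_closed (A B : ℂ) : IsClosed (segment ℝ A B) := by
  rw [segment_eq_image']
  refine (isCompact_Icc.image ?_).isClosed
  fun_prop

theorem preQ_exists (hc : P.CCW) {i j : ℤ} {α β D s0 : ℝ} (h : P.PreP i j α β D s0)
    (tF : 0 < cr (P.V (i + 1) - P.V i) (P.γ D - P.γ s0)) : ∃ q : ℤ, P.PreQ i j α β D s0 q := by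
  have tE := P.preP_tE hc h
  have hne : P.γ D ≠ P.γ s0 := h.ne
  have hu0 : P.γ s0 - P.γ D ≠ 0 := sub_ne_zero.2 hne.symm
  have hij : (i : ℝ) + 1 ≤ j := by
    have := h.ij
    exact_mod_cast this
  have hji : (j : ℝ) + 1 ≤ i + n := by
    have := h.ji
    exact_mod_cast this
  have his : (i : ℝ) ≤ s0 := h.iα.trans h.αs
  have hsi : s0 < (i : ℝ) + 1 := h.sβ.trans_le h.βi
  have hjD := h.jD
  have hDj := h.Dj
  -- contacts are far from the ends
  have hfar : ∀ x : ℝ, s0 < x → x < D → P.γ x ∈ segment ℝ (P.γ D) (P.γ s0) →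
      (i : ℝ) + 1 < x ∧ x < j := by
    intro x hx hx' hL
    obtain ⟨t, -, -, ht⟩ := (preQ1_mem_seg _ _ _).1 hL
    have h0 : cr (P.γ s0 - P.γ D) (P.γ x - P.γ D) = 0 := by
      rw [ht, add_sub_cancel_left, cr_mul_right, cr_self, mul_zero]
    constructor
    · by_contra hcon
      push Not at hcon
      have h1 := P.γ_sub i s0 x his hsi.le (his.trans hx.le) hcon
      have h2 : P.γ x - P.γ D = (P.γ s0 - P.γ D) + ((x - s0 : ℝ) : ℂ) * (P.V (i + 1) - P.V i) := by
        rw [← h1]; ring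
      rw [h2, cr_add_right, cr_self, cr_mul_right, zero_add] at h0
      have h3 : cr (P.γ s0 - P.γ D) (P.V (i + 1) - P.V i) =
          cr (P.V (i + 1) - P.V i) (P.γ D - P.γ s0) := by
        simp [cr]; ring
      rw [h3] at h0
      have h4 : 0 < x - s0 := by linarith
      exact (mul_pos h4 tF).ne' h0
    · by_contra hcon
      push Not at hcon
      have h1 := P.γ_sub j D x hjD.le hDj.le hcon (by linarith)
      rw [h1, cr_mul_right] at h0
      have h3 : cr (P.γ s0 - P.γ D) (P.V (j + 1) - P.V j) =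
          - cr (P.V (j + 1) - P.V j) (P.γ s0 - P.γ D) := cr_swap _ _
      rw [h3] at h0
      have h4 : 0 < D - x := by linarith
      have h5 := mul_pos h4 tE
      nlinarith
  -- the projection
  set f : ℝ → ℝ := fun x => ((P.γ x - P.γ D) / (P.γ s0 - P.γ D)).re with hf
  have hfc : Continuous f := by
    have := P.γ_cont
    rw [hf]
    fun_prop
  have hfv : ∀ (x t : ℝ), P.γ x = P.γ D + (t : ℂ) * (P.γ s0 - P.γ D) → f x = t := by
    intro x t ht
    simp only [hf]
    rw [ht, add_sub_cancel_left, mul_div_cancel_right₀ _ hu0, Complex.ofReal_re]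
  set K : Set ℝ := Icc ((i : ℝ) + 1) j ∩ P.γ ⁻¹' (segment ℝ (P.γ D) (P.γ s0)) with hK
  have hKc : IsCompact K :=
    isCompact_Icc.inter_right ((preQ1_seg_closed _ _).preimage P.γ_cont)
  have hKin : ∀ x : ℝ, s0 < x → x < D → P.γ x ∈ segment ℝ (P.γ D) (P.γ s0) → x ∈ K := by
    intro x hx hx' hL
    obtain ⟨h1, h2⟩ := hfar x hx hx' hL
    exact ⟨⟨h1.le, h2.le⟩, hL⟩
  obtain ⟨x1, hx1, hx1', hx1L⟩ := P.exists_left hc h tF
  obtain ⟨x0, hx0K, hmax⟩ := hKc.exists_isMaxOn ⟨x1, hKin x1 hx1 hx1' hx1L⟩ hfc.continuousOn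
  have hL0 : P.γ x0 ∈ segment ℝ (P.γ D) (P.γ s0) := hx0K.2
  have hsx : s0 < x0 := hsi.trans_le hx0K.1.1
  have hxD : x0 < D := lt_of_le_of_lt hx0K.1.2 hjD
  obtain ⟨hix, hxj⟩ := hfar x0 hsx hxD hL0
  have hmax' : ∀ x : ℝ, s0 < x → x < D → P.γ x ∈ segment ℝ (P.γ D) (P.γ s0) → f x ≤ f x0 :=
    fun x hx hx' hL => hmax (hKin x hx hx' hL)
  obtain ⟨t0, ht0, ht1, hγ0⟩ := (preQ1_mem_seg _ _ _).1 hL0
  have hf0 : f x0 = t0 := hfv x0 t0 hγ0
  have hDn : D < s0 + n := by linarith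
  have ht0' : 0 < t0 := by
    refine lt_of_le_of_ne ht0 fun h0 => ?_
    rw [← h0, Complex.ofReal_zero, zero_mul, add_zero] at hγ0
    have := P.γ_inj' hγ0 hsx.le (hxD.trans hDn) (hsx.trans hxD).le hDn
    exact hxD.ne this
  have ht1' : t0 < 1 := by
    refine lt_of_le_of_ne ht1 fun h0 => ?_
    rw [h0, Complex.ofReal_one, one_mul, add_sub_cancel] at hγ0
    have := P.γ_inj' hγ0 hsx.le (hxD.trans hDn) le_rfl (by linarith)
    exact hsx.ne' this
  -- no point of the curve near `x0` is closer to `γ s0` on `L`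
  have key : ∃ ρ > 0, ∀ y : ℝ, |y - x0| < ρ → ∀ r : ℝ, 0 < r →
      P.γ y ≠ P.γ x0 + (r : ℂ) * (P.γ s0 - P.γ D) := by
    have h1 : ∀ᶠ y in 𝓝 x0, f y < 1 := by
      apply hfc.continuousAt.eventually_lt continuousAt_const
      rw [hf0]; exact ht1'
    have h2 : ∀ᶠ y in 𝓝 x0, s0 < y := eventually_gt_nhds hsx
    have h3 : ∀ᶠ y in 𝓝 x0, y < D := eventually_lt_nhds hxD
    obtain ⟨ρ, hρ, h4⟩ := Metric.eventually_nhds_iff.1 (h1.and (h2.and h3))
    refine ⟨ρ, hρ, fun y hy r hr hγ => ?_⟩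
    obtain ⟨h5, h6, h7⟩ := h4 (by rwa [Real.dist_eq])
    have h8 : P.γ y = P.γ D + ((t0 + r : ℝ) : ℂ) * (P.γ s0 - P.γ D) := by
      rw [hγ, hγ0]
      push_cast
      ring
    have h9 := hfv y _ h8
    have h10 : P.γ y ∈ segment ℝ (P.γ D) (P.γ s0) :=
      (preQ1_mem_seg _ _ _).2 ⟨t0 + r, by linarith, by linarith, h8⟩
    have h11 := hmax' y h6 h7 h10
    linarith
  obtain ⟨ρ0, hρ0, hkey⟩ := key
  obtain ⟨ρ1, hρ1, hweak⟩ := P.left_weak hc h hsx hxD hL0
  have hsub0 : P.γ x0 - P.γ D = (t0 : ℂ) * (P.γ s0 - P.γ D) := by rw [hγ0]; ring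
  have hcr0 : ∀ d : ℂ, cr (P.γ s0 - P.γ D) (P.γ x0 + d - P.γ D) = cr (P.γ s0 - P.γ D) d := by
    intro d
    have h1 : P.γ x0 + d - P.γ D = (t0 : ℂ) * (P.γ s0 - P.γ D) + d := by
      rw [← hsub0]; ring
    rw [h1, cr_add_right, cr_mul_right, cr_self, mul_zero, zero_add]
  -- `x0` is an integer
  have hint : ∃ q : ℤ, (q : ℝ) = x0 := by
    by_contra hcon
    push Not at hcon
    have hNI : NI x0 := hcon
    obtain ⟨hk1, hk2, -⟩ := NI_floor hNI
    set k : ℤ := ⌊x0⌋ with hk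
    have hexδ : ∃ δ > 0, δ < ρ0 ∧ δ < ρ1 ∧ δ < x0 - k ∧ δ < k + 1 - x0 := by
      refine ⟨min (min ρ0 ρ1) (min (x0 - k) (k + 1 - x0)) / 2, ?_, ?_, ?_, ?_, ?_⟩
      · have h1 : 0 < x0 - k := by linarith
        have h2 : 0 < (k : ℝ) + 1 - x0 := by linarith
        positivity
      all_goals
        have h1 : 0 < x0 - k := by linarith
        have h2 : 0 < (k : ℝ) + 1 - x0 := by linarith
        have h3 : 0 < min (min ρ0 ρ1) (min (x0 - k) (k + 1 - x0)) := by positivity
        have h4 := min_le_left (min ρ0 ρ1) (min (x0 - k) (k + 1 - x0))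
        have h5 := min_le_right (min ρ0 ρ1) (min (x0 - k) (k + 1 - x0))
        have h6 := min_le_left ρ0 ρ1
        have h7 := min_le_right ρ0 ρ1
        have h8 := min_le_left (x0 - k) (k + 1 - x0)
        have h9 := min_le_right (x0 - k) (k + 1 - x0)
        linarith
    obtain ⟨δ, hδ, hδ0, hδ1, hδk, hδk'⟩ := hexδ
    have hp : P.γ (x0 + δ) = P.γ x0 + ((δ : ℝ) : ℂ) * (P.V (k + 1) - P.V k) := by
      have h1 := P.γ_sub k x0 (x0 + δ) hk1.le hk2.le (by linarith) (by linarith)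
      rw [add_sub_cancel_left] at h1
      rw [← h1]; ring
    have hm : P.γ (x0 - δ) = P.γ x0 + ((-δ : ℝ) : ℂ) * (P.V (k + 1) - P.V k) := by
      have h1 := P.γ_sub k x0 (x0 - δ) hk1.le hk2.le (by linarith) (by linarith)
      have h2 : x0 - δ - x0 = -δ := by ring
      rw [h2] at h1
      rw [← h1]; ring
    have hw1 := hweak (x0 + δ) (by rw [add_sub_cancel_left, abs_of_pos hδ]; exact hδ1)
    have hw2 := hweak (x0 - δ) (by
      have h2 : x0 - δ - x0 = -δ := by ring
      rw [h2, abs_neg, abs_of_pos hδ]; exact hδ1)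
    rw [hp, hcr0, cr_mul_right] at hw1
    rw [hm, hcr0, cr_mul_right] at hw2
    have hcr : cr (P.γ s0 - P.γ D) (P.V (k + 1) - P.V k) = 0 := by nlinarith
    obtain ⟨r, hr⟩ := cr_eq_zero hu0 hcr
    rcases lt_trichotomy r 0 with hr0 | hr0 | hr0
    · refine hkey (x0 - δ) (by
        have h2 : x0 - δ - x0 = -δ := by ring
        rw [h2, abs_neg, abs_of_pos hδ]; exact hδ0) (-δ * r) (by nlinarith) ?_
      rw [hm, hr]
      push_cast
      ring
    · rw [hr0, Complex.ofReal_zero, zero_mul] at hr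
      exact P.V_ne k (sub_eq_zero.1 hr).symm
    · refine hkey (x0 + δ) (by rw [add_sub_cancel_left, abs_of_pos hδ]; exact hδ0) (δ * r)
        (mul_pos hδ hr0) ?_
      rw [hp, hr]
      push_cast
      ring
  obtain ⟨q, rfl⟩ := hint
  rw [P.γ_int] at hγ0 hsub0 hcr0 hkey hL0
  have hexδ : ∃ δ > 0, δ < ρ0 ∧ δ < ρ1 ∧ δ < 1 := by
    refine ⟨min (min ρ0 ρ1) 1 / 2, by positivity, ?_, ?_, ?_⟩
    all_goals
      have h3 : 0 < min (min ρ0 ρ1) 1 := by positivity
      have h4 := min_le_left (min ρ0 ρ1) 1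
      have h5 := min_le_right (min ρ0 ρ1) 1
      have h6 := min_le_left ρ0 ρ1
      have h7 := min_le_right ρ0 ρ1
      linarith
  obtain ⟨δ, hδ, hδ0, hδ1, hδ2⟩ := hexδ
  have hp : P.γ (q + δ) = P.V q + (δ : ℂ) * (P.V (q + 1) - P.V q) := by
    have h1 := P.γ_lin q (q + δ) (by linarith) (by linarith)
    rw [add_sub_cancel_left] at h1
    exact h1
  have hm : P.γ (q - δ) = P.V q + (δ : ℂ) * (P.V (q - 1) - P.V q) := by
    have h1 := P.γ_sub (q - 1) q (q - δ) (by push_cast; linarith) (by push_cast; linarith)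
      (by push_cast; linarith) (by push_cast; linarith)
    have h2 : (q : ℝ) - δ - q = -δ := by ring
    rw [h2, P.γ_int, sub_add_cancel] at h1
    have h3 : P.γ (q - δ) = P.V q + (P.γ (q - δ) - P.V q) := by ring
    rw [h3, h1]
    push_cast
    ring
  have habs1 : ∀ ρ : ℝ, δ < ρ → |(q : ℝ) + δ - q| < ρ := by
    intro ρ h1
    rw [add_sub_cancel_left, abs_of_pos hδ]; exact h1
  have habs2 : ∀ ρ : ℝ, δ < ρ → |(q : ℝ) - δ - q| < ρ := by
    intro ρ h1
    have h2 : (q : ℝ) - δ - q = -δ := by ring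
    rw [h2, abs_neg, abs_of_pos hδ]; exact h1
  have hepl : 0 ≤ cr (P.γ s0 - P.γ D) (P.V (q + 1) - P.V q) := by
    have h1 := hweak (q + δ) (habs1 _ hδ1)
    rw [hp, hcr0, cr_mul_right] at h1
    exact nonneg_of_mul_nonneg_right h1 hδ
  have hemw : 0 ≤ cr (P.γ s0 - P.γ D) (P.V (q - 1) - P.V q) := by
    have h1 := hweak (q - δ) (habs2 _ hδ1)
    rw [hm, hcr0, cr_mul_right] at h1
    exact nonneg_of_mul_nonneg_right h1 hδ
  have hepn : ∀ t : ℝ, 0 < t → P.V (q + 1) - P.V q ≠ (t : ℂ) * (P.γ s0 - P.γ D) := by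
    intro t ht heq
    refine hkey (q + δ) (habs1 _ hδ0) (δ * t) (mul_pos hδ ht) ?_
    rw [hp, heq]
    push_cast
    ring
  have honL : P.V q ∈ openSegment ℝ (P.γ D) (P.γ s0) :=
    (preQ1_mem_oseg _ _ _).2 ⟨t0, ht0', ht1', hγ0⟩
  have heml : 0 < cr (P.γ s0 - P.γ D) (P.V (q - 1) - P.V q) := by
    refine lt_of_le_of_ne hemw fun h0 => ?_
    obtain ⟨r, hr⟩ := cr_eq_zero hu0 h0.symm
    rcases lt_trichotomy r 0 with hr0 | hr0 | hr0
    · have hsec := (P.seg_sector' hc (x := q) h.LR (by rw [P.γ_int]; exact honL)).2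
      rw [P.em_int, P.ep_int] at hsec
      apply hsec
      rcases eq_or_lt_of_le hepl with h1 | h1
      · exfalso
        obtain ⟨r', hr'⟩ := cr_eq_zero hu0 h1.symm
        have hr1 : r' < 0 := by
          rcases lt_trichotomy r' 0 with h2 | h2 | h2
          · exact h2
          · exfalso
            rw [h2, Complex.ofReal_zero, zero_mul] at hr'
            exact P.V_ne q (sub_eq_zero.1 hr').symm
          · exact absurd hr' (hepn r' h2)
        refine P.em_ne_ep q (r / r') (div_pos_of_neg_of_neg hr0 hr1) ?_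
        rw [P.em_int, P.ep_int, hr, hr']
        have h3 : (r' : ℂ) ≠ 0 := by exact_mod_cast hr1.ne
        push_cast
        field_simp
      · have h2 : cr (P.V (q - 1) - P.V q) (P.V (q + 1) - P.V q) < 0 := by
          rw [hr, cr_mul_left]
          exact mul_neg_of_neg_of_pos hr0 h1
        exact ⟨fun h3 => absurd h3 (not_lt.2 h2.le), fun _ => Or.inr h1, fun h3 => absurd h3 h2.ne⟩
    · rw [hr0, Complex.ofReal_zero, zero_mul] at hr
      have h1 := P.V_ne (q - 1)
      rw [sub_add_cancel] at h1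
      exact h1 (sub_eq_zero.1 hr)
    · refine hkey (q - δ) (habs2 _ hδ0) (δ * r) (mul_pos hδ hr0) ?_
      rw [hm, hr]
      push_cast
      ring
  have hiq : i + 1 ≤ q := by
    have h1 : ((i + 1 : ℤ) : ℝ) < (q : ℝ) := by push_cast; exact hix
    exact (by exact_mod_cast h1 : i + 1 < q).le
  have hqj : q ≤ j := by
    exact (by exact_mod_cast hxj : q < j).le
  refine ⟨q, h, tE, tF, hiq, hqj, honL, hepl, heml, hepn, ?_, ?_⟩
  · intro x hx hx' hL
    obtain ⟨t, h0, h1, h2⟩ := (preQ1_mem_seg _ _ _).1 hL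
    have h3 := hmax' x hx hx' hL
    rw [hfv x t h2, hf0] at h3
    refine (preQ1_mem_seg _ _ _).2 ⟨t / t0, by positivity, (div_le_one ht0').2 h3, ?_⟩
    have h4 : (t0 : ℂ) ≠ 0 := by exact_mod_cast ht0'.ne'
    rw [hsub0, h2]
    push_cast
    field_simp
  · intro x hx hx' hL
    have h1 := P.left_right hc h hsx hxD (by rw [P.γ_int]; exact hL0) hx hx' hL
    rw [P.γ_int] at h1
    exact h1

end Poly

end Pool.Agent.Lib_PL
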