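import Pool.Agent.Lib_PL.Filling

/-!
Quadrilaterals with sides in `R` (via `F0`, `tri`, `tri_vis`).
-/

open Set Complex
open scoped Topology

namespace Pool.Agent.Lib_PL

/-- twice the signed area of the triangle `u v z` -/
private noncomputable def Quad_L (u v z : ℂ) : ℝ := cr (v - u) (z - u)

private theorem Quad_L_eq (u v z : ℂ) : cr (v - u) (z - v) = Quad_L u v z := by
  simp [Quad_L, cr]; ring

private theorem Quad_aff (u v X Y : ℂ) (a b : ℝ) (h : a + b = 1) :
    Quad_L u v (a • X + b • Y) = a * Quad_L u v X + b * Quad_L u v Y := by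
  obtain rfl : a = 1 - b := by linarith
  simp [Quad_L, cr]; ring

private theorem Quad_rot (u v w : ℂ) : Quad_L u v w = Quad_L v w u := by
  simp [Quad_L, cr]; ring

private theorem Quad_rot' (u v w : ℂ) : Quad_L u v w = Quad_L w u v := by
  simp [Quad_L, cr]; ring

private theorem Quad_swap (u v w : ℂ) : Quad_L u v w = -Quad_L v u w := by
  simp [Quad_L, cr]; ring

private theorem Quad_left (u v : ℂ) : Quad_L u v u = 0 := by
  simp [Quad_L, cr]

private theorem Quad_right (u v : ℂ) : Quad_L u v v = 0 := by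
  simp [Quad_L, cr]; ring

private theorem Quad_cont (u v : ℂ) : Continuous (Quad_L u v) := by
  unfold Quad_L cr
  fun_prop

private theorem Quad_bary (A B D z : ℂ) : (Quad_L A B D : ℂ) * z =
    (Quad_L B D z : ℂ) * A + (Quad_L D A z : ℂ) * B + (Quad_L A B z : ℂ) * D := by
  apply Complex.ext <;> simp [Quad_L, cr] <;> ring

private theorem Quad_sum (A B D z : ℂ) :
    Quad_L A B D = Quad_L B D z + Quad_L D A z + Quad_L A B z := by
  simp [Quad_L, cr]; ring

private theorem Quad_lin (A B D u v z : ℂ) : Quad_L A B D * Quad_L u v z =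
    Quad_L B D z * Quad_L u v A + Quad_L D A z * Quad_L u v B + Quad_L A B z * Quad_L u v D := by
  simp [Quad_L, cr]; ring

/-- the standard identity of a quadrilateral -/
private theorem Quad_four (A B D E : ℂ) : (Quad_L A B D : ℂ) * E + (Quad_L D E A : ℂ) * B =
    (Quad_L B D E : ℂ) * A + (Quad_L E A B : ℂ) * D := by
  apply Complex.ext <;> simp [Quad_L, cr] <;> ring

private theorem Quad_foursum (A B D E : ℂ) :
    Quad_L A B D + Quad_L D E A = Quad_L B D E + Quad_L E A B := by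
  simp [Quad_L, cr]; ring

private theorem Quad_line {u v z : ℂ} (huv : u ≠ v) (h : Quad_L u v z = 0) :
    ∃ s : ℝ, z = (1 - s) • u + s • v := by
  obtain ⟨t, ht⟩ := cr_eq_zero (sub_ne_zero.2 huv.symm) h
  refine ⟨t, ?_⟩
  rw [Complex.real_smul, Complex.real_smul]
  push_cast
  linear_combination ht

private theorem Quad_mem {u v z : ℂ} {s : ℝ} (hz : z = (1 - s) • u + s • v) (h0 : 0 ≤ s)
    (h1 : s ≤ 1) : z ∈ segment ℝ u v :=
  ⟨1 - s, s, by linarith, h0, by ring, hz.symm⟩

private theorem Quad_bdd {A B D z : ℂ} (h : 0 < Quad_L A B D) (h1 : 0 ≤ Quad_L B D z)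
    (h2 : 0 ≤ Quad_L D A z) (h3 : 0 ≤ Quad_L A B z) : ‖z‖ ≤ ‖A‖ + ‖B‖ + ‖D‖ := by
  have e := Quad_bary A B D z
  have s := Quad_sum A B D z
  have hn : Quad_L A B D * ‖z‖ ≤
      Quad_L B D z * ‖A‖ + Quad_L D A z * ‖B‖ + Quad_L A B z * ‖D‖ := by
    have h4 : ‖(Quad_L A B D : ℂ) * z‖ = Quad_L A B D * ‖z‖ := by
      rw [norm_mul, Complex.norm_real, Real.norm_eq_abs, abs_of_pos h]
    have h5 : ∀ (r : ℝ) (w : ℂ), 0 ≤ r → ‖(r : ℂ) * w‖ = r * ‖w‖ := by
      intro r w hr
      rw [norm_mul, Complex.norm_real, Real.norm_eq_abs, abs_of_nonneg hr]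
    rw [← h4, e, ← h5 _ A h1, ← h5 _ B h2, ← h5 _ D h3]
    exact norm_add₃_le
  have ha := norm_nonneg A
  have hb := norm_nonneg B
  have hd := norm_nonneg D
  by_contra hc
  push Not at hc
  have h6 : Quad_L A B D * (‖A‖ + ‖B‖ + ‖D‖) < Quad_L A B D * ‖z‖ := mul_lt_mul_of_pos_left hc h
  have h7 : Quad_L B D z * ‖A‖ ≤ Quad_L A B D * ‖A‖ :=
    mul_le_mul_of_nonneg_right (by linarith) ha
  have h8 : Quad_L D A z * ‖B‖ ≤ Quad_L A B D * ‖B‖ :=
    mul_le_mul_of_nonneg_right (by linarith) hb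
  have h9 : Quad_L A B z * ‖D‖ ≤ Quad_L A B D * ‖D‖ :=
    mul_le_mul_of_nonneg_right (by linarith) hd
  linarith

private theorem Quad_bounded {Q : Set ℂ} {r : ℝ} (h : ∀ z ∈ Q, ‖z‖ ≤ r) :
    Bornology.IsBounded Q :=
  (Metric.isBounded_closedBall (x := (0 : ℂ)) (r := r)).subset
    fun z hz => by rw [mem_closedBall_zero_iff]; exact h z hz

private theorem Quad_pos_of_mul {a b : ℝ} (ha : 0 < a) (h : 0 < a * b) : 0 < b :=
  (pos_iff_pos_of_mul_pos h).1 ha

private theorem Quad_nonneg_of_mul {a b : ℝ} (ha : 0 < a) (h : 0 ≤ a * b) : 0 ≤ b :=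
  nonneg_of_mul_nonneg_right h ha

/-- crossing of the sides `A B` and `D E` -/
private theorem Quad_cross {A B D E : ℂ} (h1 : Quad_L B D E * Quad_L D E A < 0)
    (h2 : Quad_L A B D * Quad_L E A B < 0) (hd : Disjoint (segment ℝ A B) (segment ℝ D E)) :
    False := by
  have e := Quad_four A B D E
  have s := Quad_foursum A B D E
  set a1 := Quad_L A B D
  set a2 := Quad_L B D E
  set a3 := Quad_L D E A
  set a4 := Quad_L E A B
  have hne : a3 - a2 ≠ 0 := by
    intro h0
    have h3 : a3 = a2 := by linarith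
    rw [h3] at h1
    nlinarith [mul_self_nonneg a2]
  have hne' : a4 - a1 = a3 - a2 := by linarith
  have hneC : (a3 : ℂ) - a2 ≠ 0 := by exact_mod_cast hne
  have key : ∀ x y : ℝ, x * y < 0 → 0 ≤ y / (y - x) := by
    intro x y hxy
    rcases lt_trichotomy y 0 with hy | hy | hy
    · have hx : 0 < x := by
        by_contra hx
        push Not at hx
        nlinarith [mul_nonneg_of_nonpos_of_nonpos hx hy.le]
      exact div_nonneg_of_nonpos hy.le (by linarith)
    · rw [hy] at hxy; simp at hxy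
    · have hx : x < 0 := by
        by_contra hx
        push Not at hx
        nlinarith [mul_nonneg hx hy.le]
      exact div_nonneg hy.le (by linarith)
  have k1 := key a2 a3 h1
  have k2 : 0 ≤ -a2 / (a3 - a2) := by
    have := key a3 a2 (by linarith)
    rw [show -a2 / (a3 - a2) = a2 / (a2 - a3) by
      rw [← neg_sub a2 a3, neg_div_neg_eq]]
    exact this
  have k3 := key a1 a4 h2
  have k4 : 0 ≤ -a1 / (a4 - a1) := by
    have := key a4 a1 (by linarith)
    rw [show -a1 / (a4 - a1) = a1 / (a1 - a4) by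
      rw [← neg_sub a1 a4, neg_div_neg_eq]]
    exact this
  have hd' : ∀ w : ℂ, w ∈ segment ℝ A B → w ∉ segment ℝ D E :=
    fun w hw => Set.disjoint_left.1 hd hw
  refine hd' ((-a2 / (a3 - a2)) • A + (a3 / (a3 - a2)) • B) ?_ ?_
  · exact ⟨_, _, k2, k1, by field_simp; ring, rfl⟩
  · refine ⟨_, _, k3, k4, by rw [hne']; field_simp; linarith, ?_⟩
    rw [hne']
    simp only [Complex.real_smul]
    push_cast
    field_simp
    linear_combination -e

/-- collinear points -/
private theorem Quad_between {u v w : ℂ} (h : Quad_L u v w = 0) (h1 : u ∉ segment ℝ v w)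
    (h2 : w ∉ segment ℝ u v) : v ∈ segment ℝ u w := by
  have huv : u ≠ v := by
    rintro rfl
    exact h1 (left_mem_segment ℝ _ _)
  obtain ⟨s, hs⟩ := Quad_line huv h
  rcases le_total s 1 with h3 | h3
  · rcases le_total 0 s with h4 | h4
    · exact absurd (Quad_mem hs h4 h3) h2
    · exfalso
      apply h1
      have h5 : (1 : ℝ) - s ≠ 0 := by linarith
      refine ⟨-s / (1 - s), 1 / (1 - s), div_nonneg (by linarith) (by linarith),
        div_nonneg zero_le_one (by linarith), by field_simp; ring, ?_⟩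
      rw [hs]
      simp only [Complex.real_smul]
      have h6 : (1 : ℂ) - s ≠ 0 := by exact_mod_cast h5
      push_cast
      field_simp
      ring
  · have h5 : s ≠ 0 := by linarith
    refine ⟨1 - 1 / s, 1 / s, ?_, by positivity, by ring, ?_⟩
    · rw [sub_nonneg, div_le_one (by linarith)]
      exact h3
    · rw [hs]
      simp only [Complex.real_smul]
      have h6 : (s : ℂ) ≠ 0 := by exact_mod_cast h5
      push_cast
      field_simp
      ring

private theorem Quad_split {u v w z : ℂ} (h : v ∈ segment ℝ u w) (hz : z ∈ segment ℝ u w) :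
    z ∈ segment ℝ u v ∨ z ∈ segment ℝ v w := by
  obtain ⟨a, b, ha, hb, hab, rfl⟩ := h
  obtain ⟨c, d, hc, hd, hcd, rfl⟩ := hz
  obtain rfl : a = 1 - b := by linarith
  obtain rfl : c = 1 - d := by linarith
  rcases le_total d b with hdb | hdb
  · left
    rcases eq_or_lt_of_le hb with hb0 | hb0
    · have : d = 0 := by linarith
      subst this
      rw [← hb0]
      simp
    · refine ⟨1 - d / b, d / b, ?_, by positivity, by ring, ?_⟩
      · rw [sub_nonneg, div_le_one hb0]; exact hdb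
      · simp only [Complex.real_smul]
        have : (b : ℂ) ≠ 0 := by exact_mod_cast hb0.ne'
        push_cast
        field_simp
        ring
  · right
    rcases eq_or_lt_of_le (show b ≤ 1 by linarith) with hb1 | hb1
    · have : d = 1 := by linarith
      subst this
      rw [hb1]
      simp
    · have h1 : (1 : ℝ) - b ≠ 0 := by linarith
      refine ⟨(1 - d) / (1 - b), (d - b) / (1 - b), div_nonneg hc (by linarith),
        div_nonneg (by linarith) (by linarith), by field_simp; ring, ?_⟩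
      simp only [Complex.real_smul]
      have h2 : (1 : ℂ) - b ≠ 0 := by exact_mod_cast h1
      push_cast
      field_simp
      ring

private theorem Quad_sub {u v w : ℂ} {R : Set ℂ} (h : v ∈ segment ℝ u w) (h1 : segment ℝ u v ⊆ R)
    (h2 : segment ℝ v w ⊆ R) : segment ℝ u w ⊆ R := fun _ hz =>
  (Quad_split h hz).elim (fun h3 => h1 h3) fun h3 => h2 h3

private theorem Quad_ne_of_pos {u v w : ℂ} (h : Quad_L u v w ≠ 0) : u ≠ v := by
  rintro rfl
  apply h
  simp [Quad_L, cr]

namespace Poly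

variable {n : ℕ} (P : Poly n)

/-- interior of a convex quadrilateral -/
private theorem Quad_conv (A B D E : ℂ) (h1 : 0 < Quad_L A B D) (h2 : 0 < Quad_L B D E)
    (h3 : 0 < Quad_L D E A) (h4 : 0 < Quad_L E A B) (s1 : segment ℝ A B ⊆ P.R)
    (s2 : segment ℝ B D ⊆ P.R) (s3 : segment ℝ D E ⊆ P.R) (s4 : segment ℝ E A ⊆ P.R) (z : ℂ)
    (z1 : 0 < Quad_L A B z) (z2 : 0 < Quad_L B D z) (z3 : 0 < Quad_L D E z)
    (z4 : 0 < Quad_L E A z) : z ∈ P.I := by
  have side : ∀ u v w x y : ℂ, 0 < Quad_L u v w → 0 < Quad_L x u v → Quad_L u v y = 0 →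
      0 ≤ Quad_L v w y → 0 ≤ Quad_L x u y → y ∈ segment ℝ u v := by
    intro u v w x y g1 g2 g3 g4 g5
    obtain ⟨s, rfl⟩ := Quad_line (Quad_ne_of_pos g1.ne') g3
    rw [Quad_aff _ _ _ _ _ _ (by ring), Quad_left, ← Quad_rot u v w] at g4
    rw [Quad_aff _ _ _ _ _ _ (by ring), Quad_right] at g5
    refine Quad_mem rfl ?_ ?_
    · by_contra hs
      push Not at hs
      nlinarith
    · by_contra hs
      push Not at hs
      nlinarith
  refine P.F0 {y | 0 < Quad_L A B y ∧ 0 < Quad_L B D y ∧ 0 < Quad_L D E y ∧ 0 < Quad_L E A y}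
    ?_ ?_ ?_ ⟨z1, z2, z3, z4⟩
  · exact (isOpen_lt continuous_const (Quad_cont _ _)).inter
      ((isOpen_lt continuous_const (Quad_cont _ _)).inter
      ((isOpen_lt continuous_const (Quad_cont _ _)).inter
      (isOpen_lt continuous_const (Quad_cont _ _))))
  · refine Quad_bounded (r := ‖A‖ + ‖B‖ + ‖D‖ + ‖E‖) ?_
    rintro y ⟨y1, y2, y3, y4⟩
    have hA := norm_nonneg A
    have hB := norm_nonneg B
    have hD := norm_nonneg D
    have hE := norm_nonneg E
    rcases le_total 0 (Quad_L D A y) with h5 | h5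
    · have := Quad_bdd h1 y2.le h5 y1.le
      linarith
    · have h6 : 0 ≤ Quad_L A D y := by rw [Quad_swap]; linarith
      have h7 : 0 < Quad_L A D E := by rw [Quad_rot]; exact h3
      have := Quad_bdd h7 y3.le y4.le h6
      linarith
  · have hopen : IsOpen {y | 0 < Quad_L A B y ∧ 0 < Quad_L B D y ∧ 0 < Quad_L D E y ∧
        0 < Quad_L E A y} := (isOpen_lt continuous_const (Quad_cont _ _)).inter
      ((isOpen_lt continuous_const (Quad_cont _ _)).inter
      ((isOpen_lt continuous_const (Quad_cont _ _)).inter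
      (isOpen_lt continuous_const (Quad_cont _ _))))
    intro y hy
    rw [hopen.frontier_eq] at hy
    obtain ⟨hy1, hy2⟩ := hy
    have hcl : y ∈ {y | 0 ≤ Quad_L A B y ∧ 0 ≤ Quad_L B D y ∧ 0 ≤ Quad_L D E y ∧
        0 ≤ Quad_L E A y} := by
      refine closure_minimal ?_ ?_ hy1
      · rintro x ⟨x1, x2, x3, x4⟩
        exact ⟨x1.le, x2.le, x3.le, x4.le⟩
      · exact (isClosed_le continuous_const (Quad_cont _ _)).inter
          ((isClosed_le continuous_const (Quad_cont _ _)).inter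
          ((isClosed_le continuous_const (Quad_cont _ _)).inter
          (isClosed_le continuous_const (Quad_cont _ _))))
    obtain ⟨c1, c2, c3, c4⟩ := hcl
    rcases eq_or_lt_of_le c1 with e1 | e1
    · exact s1 (side A B D E y h1 h4 e1.symm c2 c4)
    rcases eq_or_lt_of_le c2 with e2 | e2
    · exact s2 (side B D E A y h2 h1 e2.symm c3 c1)
    rcases eq_or_lt_of_le c3 with e3 | e3
    · exact s3 (side D E A B y h3 h2 e3.symm c4 c2)
    rcases eq_or_lt_of_le c4 with e4 | e4
    · exact s4 (side E A B D y h4 h3 e4.symm c1 c3)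
    exact absurd ⟨e1, e2, e3, e4⟩ hy2

/-- interior of a quadrilateral with reflex vertex `B` -/
private theorem Quad_refl (A B D E : ℂ) (h1 : Quad_L A B D < 0) (h2 : 0 < Quad_L B D E)
    (h3 : 0 < Quad_L D E A) (h4 : 0 < Quad_L E A B) (s1 : segment ℝ A B ⊆ P.R)
    (s2 : segment ℝ B D ⊆ P.R) (s3 : segment ℝ D E ⊆ P.R) (s4 : segment ℝ E A ⊆ P.R) (z : ℂ)
    (z3 : 0 < Quad_L D E z) (z4 : 0 < Quad_L E A z)
    (z12 : 0 < Quad_L A B z ∨ 0 < Quad_L B D z) : z ∈ P.I := by
  have hopen : IsOpen {y | 0 < Quad_L D E y ∧ 0 < Quad_L E A y ∧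
      (0 < Quad_L A B y ∨ 0 < Quad_L B D y)} := (isOpen_lt continuous_const (Quad_cont _ _)).inter
    ((isOpen_lt continuous_const (Quad_cont _ _)).inter
    ((isOpen_lt continuous_const (Quad_cont _ _)).union
    (isOpen_lt continuous_const (Quad_cont _ _))))
  have e1 : ∀ y, Quad_L D E A * Quad_L A B y =
      Quad_L A D y * Quad_L E A B + Quad_L E A y * Quad_L A B D := by
    intro y
    have := Quad_lin D E A A B y
    rw [Quad_left, Quad_rot A B E, Quad_rot B E A] at this
    linarith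
  have e2 : ∀ y, Quad_L D E A * Quad_L B D y =
      Quad_L A D y * Quad_L B D E + Quad_L D E y * Quad_L A B D := by
    intro y
    have := Quad_lin D E A B D y
    rw [Quad_right, ← Quad_rot A B D] at this
    linarith
  refine P.F0 _ hopen ?_ ?_ ⟨z3, z4, z12⟩
  · refine Quad_bounded (r := ‖D‖ + ‖E‖ + ‖A‖) ?_
    rintro y ⟨y3, y4, y12⟩
    refine Quad_bdd h3 y4.le ?_ y3.le
    by_contra hc
    push Not at hc
    rcases y12 with y1 | y2
    · have := e1 y
      nlinarith [mul_pos h3 y1, mul_pos y4 (neg_pos.2 h1), mul_pos (neg_pos.2 hc) h4]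
    · have := e2 y
      nlinarith [mul_pos h3 y2, mul_pos y3 (neg_pos.2 h1), mul_pos (neg_pos.2 hc) h2]
  · intro y hy
    rw [hopen.frontier_eq] at hy
    obtain ⟨hy1, hy2⟩ := hy
    have hcl : y ∈ {y | 0 ≤ Quad_L D E y ∧ 0 ≤ Quad_L E A y ∧
        (0 ≤ Quad_L A B y ∨ 0 ≤ Quad_L B D y)} := by
      refine closure_minimal ?_ ?_ hy1
      · rintro x ⟨x1, x2, x3⟩
        exact ⟨x1.le, x2.le, x3.imp le_of_lt le_of_lt⟩
      · exact (isClosed_le continuous_const (Quad_cont _ _)).inter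
          ((isClosed_le continuous_const (Quad_cont _ _)).inter
          ((isClosed_le continuous_const (Quad_cont _ _)).union
          (isClosed_le continuous_const (Quad_cont _ _))))
    obtain ⟨c3, c4, c12⟩ := hcl
    rcases eq_or_lt_of_le c3 with g3 | g3
    · -- on the line D E
      obtain ⟨s, rfl⟩ := Quad_line (Quad_ne_of_pos h3.ne') g3.symm
      have q4 : Quad_L E A ((1 - s) • D + s • E) = (1 - s) * Quad_L D E A := by
        rw [Quad_aff _ _ _ _ _ _ (by ring), Quad_left, ← Quad_rot D E A]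
        ring
      have q1 : Quad_L A B ((1 - s) • D + s • E) =
          (1 - s) * Quad_L A B D + s * Quad_L E A B := by
        rw [Quad_aff _ _ _ _ _ _ (by ring), Quad_rot' A B E]
      have q2 : Quad_L B D ((1 - s) • D + s • E) = s * Quad_L B D E := by
        rw [Quad_aff _ _ _ _ _ _ (by ring), Quad_right]
        ring
      rw [q4] at c4
      rw [q1, q2] at c12
      refine s3 (Quad_mem rfl ?_ ?_)
      · by_contra hs
        push Not at hs
        rcases c12 with c1 | c2
        · nlinarith [mul_pos (neg_pos.2 hs) h4, mul_pos (neg_pos.2 h1) (by linarith : 0 < 1 - s)]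
        · nlinarith [mul_pos (neg_pos.2 hs) h2]
      · by_contra hs
        push Not at hs
        nlinarith
    rcases eq_or_lt_of_le c4 with g4 | g4
    · obtain ⟨s, rfl⟩ := Quad_line (Quad_ne_of_pos h4.ne') g4.symm
      have q3 : Quad_L D E ((1 - s) • E + s • A) = s * Quad_L D E A := by
        rw [Quad_aff _ _ _ _ _ _ (by ring), Quad_right]
        ring
      have q1 : Quad_L A B ((1 - s) • E + s • A) = (1 - s) * Quad_L E A B := by
        rw [Quad_aff _ _ _ _ _ _ (by ring), Quad_left, Quad_rot' A B E]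
        ring
      have q2 : Quad_L B D ((1 - s) • E + s • A) =
          (1 - s) * Quad_L B D E + s * Quad_L A B D := by
        rw [Quad_aff _ _ _ _ _ _ (by ring), ← Quad_rot A B D]
      rw [q3] at c3
      rw [q1, q2] at c12
      refine s4 (Quad_mem rfl ?_ ?_)
      · by_contra hs
        push Not at hs
        nlinarith
      · by_contra hs
        push Not at hs
        rcases c12 with c1 | c2
        · nlinarith
        · nlinarith [mul_pos (by linarith : 0 < s - 1) h2,
            mul_pos (neg_pos.2 h1) (by linarith : 0 < s)]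
    have hnot : ¬ (0 < Quad_L A B y ∨ 0 < Quad_L B D y) := fun h => hy2 ⟨g3, g4, h⟩
    push Not at hnot
    obtain ⟨n1, n2⟩ := hnot
    have hAB : A ≠ B := by
      rintro rfl
      rw [Quad_right] at h4
      exact lt_irrefl _ h4
    have hBD : B ≠ D := Quad_ne_of_pos h2.ne'
    rcases c12 with c1 | c2
    · have k1 : Quad_L A B y = 0 := le_antisymm n1 c1
      obtain ⟨s, rfl⟩ := Quad_line hAB k1
      rw [Quad_aff _ _ _ _ _ _ (by ring), Quad_left, ← Quad_rot A B D] at n2
      rw [Quad_aff _ _ _ _ _ _ (by ring), Quad_right] at g4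
      refine s1 (Quad_mem rfl ?_ ?_)
      · by_contra hs
        push Not at hs
        nlinarith [mul_pos (neg_pos.2 hs) h4]
      · by_contra hs
        push Not at hs
        nlinarith [mul_pos (by linarith : 0 < s - 1) (neg_pos.2 h1)]
    · have k2 : Quad_L B D y = 0 := le_antisymm n2 c2
      obtain ⟨s, rfl⟩ := Quad_line hBD k2
      rw [Quad_aff _ _ _ _ _ _ (by ring), Quad_right] at n1
      rw [Quad_aff _ _ _ _ _ _ (by ring), Quad_left, Quad_rot' D E B, ] at g3
      refine s2 (Quad_mem rfl ?_ ?_)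
      · by_contra hs
        push Not at hs
        nlinarith [mul_pos (neg_pos.2 hs) (neg_pos.2 h1)]
      · by_contra hs
        push Not at hs
        nlinarith [mul_pos (by linarith : 0 < s - 1) h2]

/-- diagonals of a convex quadrilateral `A B D E` (counterclockwise) with sides in `R` -/
theorem quad (A B D E : ℂ) (h1 : 0 < cr (B - A) (D - B)) (h2 : 0 < cr (D - B) (E - D))
    (h3 : 0 < cr (E - D) (A - E)) (h4 : 0 < cr (A - E) (B - A)) (s1 : segment ℝ A B ⊆ P.R)
    (s2 : segment ℝ B D ⊆ P.R) (s3 : segment ℝ D E ⊆ P.R) (s4 : segment ℝ E A ⊆ P.R) :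
    P.Vis A D ∧ P.Vis B E := by
  rw [Quad_L_eq] at h1 h2 h3 h4
  have key : ∀ A B D E : ℂ, 0 < Quad_L A B D → 0 < Quad_L B D E → 0 < Quad_L D E A →
      0 < Quad_L E A B → segment ℝ A B ⊆ P.R → segment ℝ B D ⊆ P.R → segment ℝ D E ⊆ P.R →
      segment ℝ E A ⊆ P.R → P.Vis A D := by
    rintro A B D E h1 h2 h3 h4 s1 s2 s3 s4 z ⟨a, b, ha, hb, hab, rfl⟩
    apply P.Quad_conv A B D E h1 h2 h3 h4 s1 s2 s3 s4
    · rw [Quad_aff _ _ _ _ _ _ hab, Quad_left]
      nlinarith [mul_pos hb h1]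
    · rw [Quad_aff _ _ _ _ _ _ hab, Quad_right, ← Quad_rot A B D]
      nlinarith [mul_pos ha h1]
    · rw [Quad_aff _ _ _ _ _ _ hab, Quad_left]
      nlinarith [mul_pos ha h3]
    · rw [Quad_aff _ _ _ _ _ _ hab, Quad_right, ← Quad_rot D E A]
      nlinarith [mul_pos hb h3]
  exact ⟨key A B D E h1 h2 h3 h4 s1 s2 s3 s4, key B D E A h2 h3 h4 h1 s2 s3 s4 s1⟩

/-- the case of positive orientation -/
private theorem Quad_ccw (A B D E : ℂ) (s1 : segment ℝ A B ⊆ P.R)
    (s2 : segment ℝ B D ⊆ P.R) (s3 : segment ℝ D E ⊆ P.R) (s4 : segment ℝ E A ⊆ P.R)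
    (h : (0 < Quad_L A B D ∧ 0 < Quad_L B D E ∧ 0 < Quad_L D E A ∧ 0 < Quad_L E A B) ∨
      (Quad_L A B D < 0 ∧ 0 < Quad_L B D E ∧ 0 < Quad_L D E A ∧ 0 < Quad_L E A B) ∨
      (0 < Quad_L A B D ∧ Quad_L B D E < 0 ∧ 0 < Quad_L D E A ∧ 0 < Quad_L E A B) ∨
      (0 < Quad_L A B D ∧ 0 < Quad_L B D E ∧ Quad_L D E A < 0 ∧ 0 < Quad_L E A B) ∨
      (0 < Quad_L A B D ∧ 0 < Quad_L B D E ∧ 0 < Quad_L D E A ∧ Quad_L E A B < 0)) :
    (∀ X ∈ openSegment ℝ E A, P.Vis X B) ∨ (∀ X ∈ openSegment ℝ E A, P.Vis X D) := by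
  have vAB : Quad_L A B E = Quad_L E A B := Quad_rot' A B E
  have vBD : Quad_L B D A = Quad_L A B D := (Quad_rot A B D).symm
  have vDE : Quad_L D E B = Quad_L B D E := (Quad_rot B D E).symm
  have vEA : Quad_L E A D = Quad_L D E A := (Quad_rot D E A).symm
  -- values on the chord from a point of `E A` to `B`
  have fAB : ∀ a b c d : ℝ, a + b = 1 → c + d = 1 →
      Quad_L A B (a • (c • E + d • A) + b • B) = a * c * Quad_L E A B := by
    intro a b c d hab hcd
    rw [Quad_aff _ _ _ _ _ _ hab, Quad_aff _ _ _ _ _ _ hcd, Quad_left, Quad_right, vAB]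
    ring
  have fBD : ∀ a b c d : ℝ, a + b = 1 → c + d = 1 →
      Quad_L B D (a • (c • E + d • A) + b • B) =
        a * (c * Quad_L B D E + d * Quad_L A B D) := by
    intro a b c d hab hcd
    rw [Quad_aff _ _ _ _ _ _ hab, Quad_aff _ _ _ _ _ _ hcd, Quad_left, vBD]
    ring
  have fDE : ∀ a b c d : ℝ, a + b = 1 → c + d = 1 →
      Quad_L D E (a • (c • E + d • A) + b • B) =
        a * d * Quad_L D E A + b * Quad_L B D E := by
    intro a b c d hab hcd
    rw [Quad_aff _ _ _ _ _ _ hab, Quad_aff _ _ _ _ _ _ hcd, Quad_right, vDE]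
    ring
  have fEA : ∀ a b c d : ℝ, a + b = 1 → c + d = 1 →
      Quad_L E A (a • (c • E + d • A) + b • B) = b * Quad_L E A B := by
    intro a b c d hab hcd
    rw [Quad_aff _ _ _ _ _ _ hab, Quad_aff _ _ _ _ _ _ hcd, Quad_left, Quad_right]
    ring
  -- values on the chord to `D`
  have gAB : ∀ a b c d : ℝ, a + b = 1 → c + d = 1 →
      Quad_L A B (a • (c • E + d • A) + b • D) =
        a * c * Quad_L E A B + b * Quad_L A B D := by
    intro a b c d hab hcd
    rw [Quad_aff _ _ _ _ _ _ hab, Quad_aff _ _ _ _ _ _ hcd, Quad_left, vAB]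
    ring
  have gBD : ∀ a b c d : ℝ, a + b = 1 → c + d = 1 →
      Quad_L B D (a • (c • E + d • A) + b • D) =
        a * (c * Quad_L B D E + d * Quad_L A B D) := by
    intro a b c d hab hcd
    rw [Quad_aff _ _ _ _ _ _ hab, Quad_aff _ _ _ _ _ _ hcd, Quad_right, vBD]
    ring
  have gDE : ∀ a b c d : ℝ, a + b = 1 → c + d = 1 →
      Quad_L D E (a • (c • E + d • A) + b • D) = a * d * Quad_L D E A := by
    intro a b c d hab hcd
    rw [Quad_aff _ _ _ _ _ _ hab, Quad_aff _ _ _ _ _ _ hcd, Quad_right, Quad_left]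
    ring
  have gEA : ∀ a b c d : ℝ, a + b = 1 → c + d = 1 →
      Quad_L E A (a • (c • E + d • A) + b • D) = b * Quad_L D E A := by
    intro a b c d hab hcd
    rw [Quad_aff _ _ _ _ _ _ hab, Quad_aff _ _ _ _ _ _ hcd, Quad_left, Quad_right, vEA]
    ring
  rcases h with ⟨h1, h2, h3, h4⟩ | ⟨h1, h2, h3, h4⟩ | ⟨h1, h2, h3, h4⟩ | ⟨h1, h2, h3, h4⟩ |
    ⟨h1, h2, h3, h4⟩
  · left
    rintro _ ⟨c, d, hc, hd, hcd, rfl⟩ _ ⟨a, b, ha, hb, hab, rfl⟩
    apply P.Quad_conv A B D E h1 h2 h3 h4 s1 s2 s3 s4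
    · rw [fAB a b c d hab hcd]; positivity
    · rw [fBD a b c d hab hcd]; positivity
    · rw [fDE a b c d hab hcd]; positivity
    · rw [fEA a b c d hab hcd]; positivity
  · left
    rintro _ ⟨c, d, hc, hd, hcd, rfl⟩ _ ⟨a, b, ha, hb, hab, rfl⟩
    apply P.Quad_refl A B D E h1 h2 h3 h4 s1 s2 s3 s4
    · rw [fDE a b c d hab hcd]; positivity
    · rw [fEA a b c d hab hcd]; positivity
    · left; rw [fAB a b c d hab hcd]; positivity
  · right
    rintro _ ⟨c, d, hc, hd, hcd, rfl⟩ _ ⟨a, b, ha, hb, hab, rfl⟩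
    apply P.Quad_refl B D E A h2 h3 h4 h1 s2 s3 s4 s1
    · rw [gEA a b c d hab hcd]; positivity
    · rw [gAB a b c d hab hcd]; positivity
    · right; rw [gDE a b c d hab hcd]; positivity
  · left
    rintro _ ⟨c, d, hc, hd, hcd, rfl⟩ _ ⟨a, b, ha, hb, hab, rfl⟩
    apply P.Quad_refl D E A B h3 h4 h1 h2 s3 s4 s1 s2
    · rw [fAB a b c d hab hcd]; positivity
    · rw [fBD a b c d hab hcd]; positivity
    · right; rw [fEA a b c d hab hcd]; positivity
  · right
    rintro _ ⟨c, d, hc, hd, hcd, rfl⟩ _ ⟨a, b, ha, hb, hab, rfl⟩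
    apply P.Quad_refl E A B D h4 h1 h2 h3 s4 s1 s2 s3
    · rw [gBD a b c d hab hcd]; positivity
    · rw [gDE a b c d hab hcd]; positivity
    · left; rw [gEA a b c d hab hcd]; positivity

/-- A (possibly non-convex) simple quadrilateral `A B D E` with sides in `R`: all points of the side
`E A` see `B`, or all see `D`. -/
theorem quad' (A B D E : ℂ) (hAE : A ≠ E) (hBD : B ≠ D) (s1 : segment ℝ A B ⊆ P.R)
    (s2 : segment ℝ B D ⊆ P.R) (s3 : segment ℝ D E ⊆ P.R) (s4 : segment ℝ E A ⊆ P.R)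
    (d1 : Disjoint (segment ℝ A B) (segment ℝ D E)) (d2 : Disjoint (segment ℝ B D) (segment ℝ E A)) :
    (∀ X ∈ openSegment ℝ E A, P.Vis X B) ∨ (∀ X ∈ openSegment ℝ E A, P.Vis X D) := by
  have eA1 : A ∉ segment ℝ D E := Set.disjoint_left.1 d1 (left_mem_segment ℝ _ _)
  have eB1 : B ∉ segment ℝ D E := Set.disjoint_left.1 d1 (right_mem_segment ℝ _ _)
  have eD1 : D ∉ segment ℝ A B := Set.disjoint_right.1 d1 (left_mem_segment ℝ _ _)
  have eE1 : E ∉ segment ℝ A B := Set.disjoint_right.1 d1 (right_mem_segment ℝ _ _)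
  have eB2 : B ∉ segment ℝ E A := Set.disjoint_left.1 d2 (left_mem_segment ℝ _ _)
  have eD2 : D ∉ segment ℝ E A := Set.disjoint_left.1 d2 (right_mem_segment ℝ _ _)
  have eE2 : E ∉ segment ℝ B D := Set.disjoint_right.1 d2 (left_mem_segment ℝ _ _)
  have eA2 : A ∉ segment ℝ B D := Set.disjoint_right.1 d2 (right_mem_segment ℝ _ _)
  have hnn : ∀ u v w : ℂ, Quad_L u v w ≠ 0 → cr (v - u) (w - u) ≠ 0 := fun _ _ _ h => h
  by_cases k4 : Quad_L E A B = 0
  · have hA : A ∈ segment ℝ E B := Quad_between k4 eE1 eB2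
    have k2 : Quad_L B D E ≠ 0 := by
      intro k2
      have hD : D ∈ segment ℝ E B := by
        rw [segment_symm]
        exact Quad_between k2 eB1 eE2
      rcases Quad_split hA hD with h | h
      · exact eD2 h
      · exact eD1 h
    right
    intro X hX
    refine P.tri_vis E B D (hnn _ _ _ ?_) (Quad_sub hA s4 s1) s2 s3 X ?_
    · rw [Quad_rot]; exact k2
    · obtain ⟨a, b, ha, hb, hab, hAe⟩ := hA
      obtain ⟨c, d, hc, hd, hcd, rfl⟩ := hX
      have hb0 : b ≠ 0 := by
        rintro rfl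
        have ha1 : a = 1 := by linarith
        rw [ha1] at hAe
        simp at hAe
        exact hAE hAe.symm
      have hb' : 0 < b := lt_of_le_of_ne hb (Ne.symm hb0)
      refine ⟨c + d * a, d * b, by positivity, by positivity, ?_, ?_⟩
      · have : a = 1 - b := by linarith
        rw [this]
        linarith
      · rw [← hAe]
        simp only [Complex.real_smul]
        push_cast
        ring
  by_cases k3 : Quad_L D E A = 0
  · have hE : E ∈ segment ℝ D A := Quad_between k3 eD2 eA1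
    have k1 : Quad_L A B D ≠ 0 := by
      intro k1
      have hB : B ∈ segment ℝ D A := by
        rw [segment_symm]
        exact Quad_between k1 eA2 eD1
      rcases Quad_split hE hB with h | h
      · exact eB1 h
      · exact eB2 h
    left
    intro X hX
    refine P.tri_vis D A B (hnn _ _ _ ?_) (Quad_sub hE s3 s4) s1 s2 X ?_
    · rw [Quad_rot]; exact k1
    · obtain ⟨a, b, ha, hb, hab, hEe⟩ := hE
      obtain ⟨c, d, hc, hd, hcd, rfl⟩ := hX
      have ha0 : a ≠ 0 := by
        rintro rfl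
        have hb1 : b = 1 := by linarith
        rw [hb1] at hEe
        simp at hEe
        exact hAE hEe
      have ha' : 0 < a := lt_of_le_of_ne ha (Ne.symm ha0)
      refine ⟨c * a, c * b + d, by positivity, by positivity, ?_, ?_⟩
      · have : b = 1 - a := by linarith
        rw [this]
        linarith
      · rw [← hEe]
        simp only [Complex.real_smul]
        push_cast
        ring
  by_cases k1 : Quad_L A B D = 0
  · have hB : B ∈ segment ℝ A D := Quad_between k1 eA2 eD1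
    right
    intro X hX
    refine P.tri_vis E A D (hnn _ _ _ ?_) s4 (Quad_sub hB s1 s2) s3 X hX
    rw [← Quad_rot D E A]; exact k3
  by_cases k2 : Quad_L B D E = 0
  · have hD : D ∈ segment ℝ B E := Quad_between k2 eB1 eE2
    left
    intro X hX
    exact P.tri_vis E A B (hnn _ _ _ k4) s4 s1 (Quad_sub hD s2 s3) X hX
  -- general position
  have c1 : ¬ (Quad_L B D E * Quad_L D E A < 0 ∧ Quad_L A B D * Quad_L E A B < 0) :=
    fun h => Quad_cross h.1 h.2 d1
  have c2 : ¬ (Quad_L D E A * Quad_L E A B < 0 ∧ Quad_L B D E * Quad_L A B D < 0) :=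
    fun h => Quad_cross h.1 h.2 d2
  have c3 := Quad_foursum A B D E
  have rev : ((0 < Quad_L E D B ∧ 0 < Quad_L D B A ∧ 0 < Quad_L B A E ∧ 0 < Quad_L A E D) ∨
      (Quad_L E D B < 0 ∧ 0 < Quad_L D B A ∧ 0 < Quad_L B A E ∧ 0 < Quad_L A E D) ∨
      (0 < Quad_L E D B ∧ Quad_L D B A < 0 ∧ 0 < Quad_L B A E ∧ 0 < Quad_L A E D) ∨
      (0 < Quad_L E D B ∧ 0 < Quad_L D B A ∧ Quad_L B A E < 0 ∧ 0 < Quad_L A E D) ∨
      (0 < Quad_L E D B ∧ 0 < Quad_L D B A ∧ 0 < Quad_L B A E ∧ Quad_L A E D < 0)) →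
      (∀ X ∈ openSegment ℝ E A, P.Vis X B) ∨ (∀ X ∈ openSegment ℝ E A, P.Vis X D) := by
    intro h
    rw [openSegment_symm]
    exact (P.Quad_ccw E D B A (by rw [segment_symm]; exact s3) (by rw [segment_symm]; exact s2)
      (by rw [segment_symm]; exact s1) (by rw [segment_symm]; exact s4) h).symm
  have r1 : Quad_L E D B = -Quad_L B D E := by rw [Quad_swap, Quad_rot D E B, Quad_rot E B D]
  have r2 : Quad_L D B A = -Quad_L A B D := by rw [Quad_swap, ← Quad_rot A B D]
  have r3 : Quad_L B A E = -Quad_L E A B := by rw [Quad_swap, Quad_rot' A B E]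
  have r4 : Quad_L A E D = -Quad_L D E A := by rw [Quad_swap, ← Quad_rot D E A]
  rw [r1, r2, r3, r4] at rev
  have ccw := P.Quad_ccw A B D E s1 s2 s3 s4
  set a1 := Quad_L A B D
  set a2 := Quad_L B D E
  set a3 := Quad_L D E A
  set a4 := Quad_L E A B
  rcases lt_or_gt_of_ne k1 with p1 | p1 <;> rcases lt_or_gt_of_ne k2 with p2 | p2 <;>
    rcases lt_or_gt_of_ne k3 with p3 | p3 <;> rcases lt_or_gt_of_ne k4 with p4 | p4
  · exact rev (Or.inl ⟨by linarith, by linarith, by linarith, by linarith⟩)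
  · exact rev (Or.inr (Or.inr (Or.inr (Or.inl
      ⟨by linarith, by linarith, by linarith, by linarith⟩))))
  · exact rev (Or.inr (Or.inr (Or.inr (Or.inr
      ⟨by linarith, by linarith, by linarith, by linarith⟩))))
  · exact absurd ⟨mul_neg_of_neg_of_pos p2 p3, mul_neg_of_neg_of_pos p1 p4⟩ c1
  · exact rev (Or.inr (Or.inl ⟨by linarith, by linarith, by linarith, by linarith⟩))
  · exact absurd ⟨mul_neg_of_neg_of_pos p3 p4, mul_neg_of_pos_of_neg p2 p1⟩ c2
  · exact absurd ⟨mul_neg_of_pos_of_neg p3 p4, mul_neg_of_pos_of_neg p2 p1⟩ c2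
  · exact ccw (Or.inr (Or.inl ⟨p1, p2, p3, p4⟩))
  · exact rev (Or.inr (Or.inr (Or.inl ⟨by linarith, by linarith, by linarith, by linarith⟩)))
  · exact absurd ⟨mul_neg_of_neg_of_pos p3 p4, mul_neg_of_neg_of_pos p2 p1⟩ c2
  · exact absurd ⟨mul_neg_of_pos_of_neg p3 p4, mul_neg_of_neg_of_pos p2 p1⟩ c2
  · exact ccw (Or.inr (Or.inr (Or.inl ⟨p1, p2, p3, p4⟩)))
  · exact absurd ⟨mul_neg_of_pos_of_neg p2 p3, mul_neg_of_pos_of_neg p1 p4⟩ c1
  · exact ccw (Or.inr (Or.inr (Or.inr (Or.inl ⟨p1, p2, p3, p4⟩))))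
  · exact ccw (Or.inr (Or.inr (Or.inr (Or.inr ⟨p1, p2, p3, p4⟩))))
  · exact ccw (Or.inl ⟨p1, p2, p3, p4⟩)

end Poly

end Pool.Agent.Lib_PL
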