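import Pool.Agent.Lib_PL.Jordan2

/-!
Ray shooting.
-/

open Set Complex
open scoped Topology

namespace Pool.Agent.Lib_PL

namespace Poly

variable {n : ℕ} (P : Poly n)

theorem ray_hit (z : ℂ) (hz : z ∈ P.I) (d : ℂ) (hd : d ≠ 0) :
    ∃ t : ℝ, 0 < t ∧ z + (t : ℂ) * d ∈ P.C ∧ ∀ s : ℝ, 0 ≤ s → s < t → z + (s : ℂ) * d ∈ P.I := by
  have hcont : Continuous fun t : ℝ => z + (t : ℂ) * d := by fun_prop
  set S : Set ℝ := {t | 0 ≤ t ∧ z + (t : ℂ) * d ∉ P.I} with hS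
  have hSc : IsClosed S := by
    have h1 : S = Ici 0 ∩ (fun t : ℝ => z + (t : ℂ) * d) ⁻¹' P.Iᶜ := by
      ext t
      simp [hS]
    rw [h1]
    exact isClosed_Ici.inter (P.I_open.isClosed_compl.preimage hcont)
  have hd' : 0 < ‖d‖ := norm_pos_iff.2 hd
  have hSne : S.Nonempty := by
    obtain ⟨B, hB⟩ := (Metric.isBounded_iff_subset_closedBall (0 : ℂ)).1 P.R_bounded
    refine ⟨(|B| + ‖z‖ + 1) / ‖d‖, by positivity, fun h => ?_⟩
    have h1 := hB (P.I_sub_R h)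
    rw [mem_closedBall_zero_iff] at h1
    have h2 : ‖((((|B| + ‖z‖ + 1) / ‖d‖ : ℝ) : ℂ)) * d‖ = |B| + ‖z‖ + 1 := by
      rw [norm_mul, Complex.norm_real, Real.norm_of_nonneg (by positivity)]
      field_simp
    have h3 : ‖((((|B| + ‖z‖ + 1) / ‖d‖ : ℝ) : ℂ)) * d‖ ≤
        ‖z + ((((|B| + ‖z‖ + 1) / ‖d‖ : ℝ) : ℂ)) * d‖ + ‖z‖ := by
      have h4 := norm_sub_le (z + ((((|B| + ‖z‖ + 1) / ‖d‖ : ℝ) : ℂ)) * d) z
      rwa [add_sub_cancel_left] at h4
    have := le_abs_self B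
    linarith
  have hSb : BddBelow S := ⟨0, fun t ht => ht.1⟩
  have hmem : sInf S ∈ S := hSc.csInf_mem hSne hSb
  have hlt : ∀ s : ℝ, 0 ≤ s → s < sInf S → z + (s : ℂ) * d ∈ P.I := by
    intro s hs hs'
    by_contra h
    exact absurd (csInf_le hSb (show s ∈ S from ⟨hs, h⟩)) (not_le.2 hs')
  have hpos : 0 < sInf S := by
    rcases hmem.1.lt_or_eq with h | h
    · exact h
    · exfalso
      apply hmem.2
      rw [← h]
      simpa using hz
  refine ⟨sInf S, hpos, ?_, hlt⟩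
  have hcl : z + ((sInf S : ℝ) : ℂ) * d ∈ closure P.I := by
    have h1 : sInf S ∈ closure (Ico 0 (sInf S)) := by
      rw [closure_Ico hpos.ne]
      exact ⟨hpos.le, le_rfl⟩
    have h2 : MapsTo (fun t : ℝ => z + (t : ℂ) * d) (Ico 0 (sInf S)) P.I :=
      fun s hs => hlt s hs.1 hs.2
    exact h2.closure hcont h1
  rcases P.closure_I_sub_R hcl with h | h
  · exact h
  · exact absurd h hmem.2

theorem ray_hit' (hc : P.CCW) (x : ℝ) (d : ℂ) (hd : InSector (P.ep x) (P.em x) d) :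
    ∃ t : ℝ, 0 < t ∧ P.γ x + (t : ℂ) * d ∈ P.C ∧
      ∀ s : ℝ, 0 < s → s < t → P.γ x + (s : ℂ) * d ∈ P.I := by
  obtain ⟨ρ, hρ, h⟩ := P.sector hc x
  have hd' : 0 < ‖d‖ := norm_pos_iff.2 hd.ne_zero
  set r : ℝ := ρ / (2 * ‖d‖) with hr
  have hr0 : 0 < r := by positivity
  have hsm : ∀ s : ℝ, 0 < s → s ≤ r → P.γ x + (s : ℂ) * d ∈ P.I := by
    intro s hs hs'
    refine ((h ((s : ℂ) * d) ?_).1).2 ((InSector_smul hs).2 hd)
    rw [norm_mul, Complex.norm_real, Real.norm_of_nonneg hs.le]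
    calc s * ‖d‖ ≤ r * ‖d‖ := by gcongr
      _ = ρ / 2 := by rw [hr]; field_simp
      _ < ρ := by linarith
  obtain ⟨t, ht, h1, h2⟩ := P.ray_hit _ (hsm r hr0 le_rfl) d hd.ne_zero
  refine ⟨r + t, by positivity, ?_, fun s hs hs' => ?_⟩
  · have e : P.γ x + ((r + t : ℝ) : ℂ) * d = P.γ x + (r : ℂ) * d + (t : ℂ) * d := by
      push_cast; ring
    rw [e]
    exact h1
  · rcases le_or_gt s r with h3 | h3
    · exact hsm s hs h3
    · have e : P.γ x + (s : ℂ) * d = P.γ x + (r : ℂ) * d + ((s - r : ℝ) : ℂ) * d := by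
        push_cast; ring
      rw [e]
      exact h2 _ (by linarith) (by linarith)

/-- a segment which meets `I` but is not contained in `I` meets `C` -/
theorem block {z w : ℂ} (h : ∃ c ∈ openSegment ℝ z w, c ∈ P.I) (h' : ¬ P.Vis z w) :
    ∃ c ∈ openSegment ℝ z w, c ∈ P.C := by
  obtain ⟨c, hc, hcI⟩ := h
  obtain ⟨e, he, heI⟩ := not_subset.1 h'
  by_contra hcon
  push Not at hcon
  have hpre : IsPreconnected (openSegment ℝ z w) := (convex_openSegment z w).isPreconnected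
  have hsub : openSegment ℝ z w ⊆ P.I ∪ P.Rᶜ := by
    intro y hy
    by_cases hyI : y ∈ P.I
    · exact Or.inl hyI
    · right
      rintro (h1 | h1)
      · exact hcon y hy h1
      · exact hyI h1
  have heR : e ∈ P.Rᶜ := by
    rcases hsub he with h1 | h1
    · exact absurd h1 heI
    · exact h1
  obtain ⟨y, -, hy1, hy2⟩ := hpre _ _ P.I_open P.R_closed.isOpen_compl hsub ⟨c, hc, hcI⟩ ⟨e, he, heR⟩
  exact hy2 (P.I_sub_R hy1)

/-- a segment starting at `γ x` in an interior direction meets `I` near `γ x` -/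
theorem enter (hc : P.CCW) (x : ℝ) (z : ℂ) (h : InSector (P.ep x) (P.em x) (z - P.γ x)) :
    ∃ c ∈ openSegment ℝ (P.γ x) z, c ∈ P.I := by
  obtain ⟨t, ht, -, h2⟩ := P.ray_hit' hc x (z - P.γ x) h
  have hm : 0 < min t 1 / 2 := by
    have : 0 < min t 1 := lt_min ht one_pos
    linarith
  have hm1 : min t 1 / 2 < 1 := by
    have := min_le_right t 1
    linarith
  have hmt : min t 1 / 2 < t := by
    have := min_le_left t 1
    linarith
  refine ⟨P.γ x + ((min t 1 / 2 : ℝ) : ℂ) * (z - P.γ x), ?_, h2 _ hm hmt⟩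
  refine ⟨1 - min t 1 / 2, min t 1 / 2, by linarith, hm, by ring, ?_⟩
  simp only [Complex.real_smul]
  push_cast
  ring

end Poly

end Pool.Agent.Lib_PL
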