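import Pool.Agent.Lib_PL.Fork

/-!
One step of the recursion.

Level `0` items: at most `n` (`level0_count`).  Let `lv Y = l + 1`, `S = par l Y` (shifted so that `S.i < Y.i < S.i + n`; the edges
are different by `sees_ne`).  If `Good (Mf Y) S Y.i` fails then `not_good` gives a hook (`hL`, `hR`).  Good ones: for every `l ≤ L` and
every `S` at most `2 * Ω.card` (`fork_count`); cornered `S`: at most `2 * n`; the non-cornered `S` inject via `core l S` into
items (`Item2` with `Ym = Y`, `lm = l`), at most `N`.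
-/

open Set Complex
open scoped Topology

namespace Pool.Agent.Lib_PL

namespace Poly

variable {n : ℕ} (P : Poly n)

theorem rec_step (hc : P.CCW) {p : ℂ} {par core : ℕ → Arc → Arc} {lev : ℕ → Arc → ℕ}
    (hpar : P.PRule p par) (hcore : P.CRule p core lev) (Ω : Finset ℝ) (MM : Set (Set ℂ)) (K' L : ℕ)
    (hM : ∀ M ∈ MM, M.Nonempty ∧ ∀ l, l + 1 ≤ K' → ∀ S, P.IsComp p l S → ∃ ω ∈ Ω, P.Rep M S ω)
    (N a : ℕ) (hN : ∀ G : Finset Arc, (∀ Y ∈ G, P.Item2 p par core lev MM K' L Y) → G.card ≤ N)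
    (F : Finset Arc) (lv : Arc → ℕ) (Mf : Arc → Set ℂ)
    (hF : ∀ Y ∈ F, 0 ≤ Y.i ∧ Y.i < n ∧ ¬ Y.Cornered ∧ P.Exact p (lv Y) Y ∧ lv Y ≤ L + 1 ∧
      lv Y ≤ K' ∧ Mf Y ∈ MM)
    (hL : ∀ G ⊆ F, (∀ Y ∈ G, ∃ l, lv Y = l + 1 ∧ ∃ m : ℤ, ((par l Y).sh (m * n)).i < Y.i ∧
      Y.i < ((par l Y).sh (m * n)).i + n ∧ P.HookL ((par l Y).sh (m * n)) Y (Mf Y)) → G.card ≤ a)
    (hR : ∀ G ⊆ F, (∀ Y ∈ G, ∃ l, lv Y = l + 1 ∧ ∃ m : ℤ, ((par l Y).sh (m * n)).i < Y.i ∧
      Y.i < ((par l Y).sh (m * n)).i + n ∧ P.HookR ((par l Y).sh (m * n)) Y (Mf Y)) → G.card ≤ a) :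
    F.card ≤ n + 2 * a + (L + 1) * (2 * Ω.card) * (2 * n + N) := by
  classical
  -- normal position of the parent
  have hpos : ∀ Y ∈ F, ∀ l, lv Y = l + 1 → ∃ m : ℤ, ((par l Y).sh (m * n)).i < Y.i ∧
      Y.i < ((par l Y).sh (m * n)).i + n := by
    intro Y hY l hl
    obtain ⟨y0, yn, -, hE, -, -, -⟩ := hF Y hY
    rw [hl] at hE
    obtain ⟨s0, sn⟩ := hpar.can l Y hE
    have hS := hpar.comp l Y hE
    have hs := hpar.sees l Y hE
    have hne := P.sees_ne hE.1.ia hE.1.bi hS.ia hS.bi hs 0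
    rw [zero_mul, add_zero] at hne
    rcases lt_or_gt_of_ne hne with h | h
    · refine ⟨-1, ?_, ?_⟩
      · simp only [Arc.sh]; omega
      · simp only [Arc.sh]; omega
    · refine ⟨0, ?_, ?_⟩
      · simp only [Arc.sh]; omega
      · simp only [Arc.sh]; omega
  set F0 : Finset Arc := F.filter fun Y => lv Y = 0 with hF0
  set GLf : Finset Arc := F.filter fun Y => ∃ l, lv Y = l + 1 ∧ ∃ m : ℤ,
    ((par l Y).sh (m * n)).i < Y.i ∧ Y.i < ((par l Y).sh (m * n)).i + n ∧
      P.HookL ((par l Y).sh (m * n)) Y (Mf Y) with hGLf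
  set GRf : Finset Arc := F.filter fun Y => ∃ l, lv Y = l + 1 ∧ ∃ m : ℤ,
    ((par l Y).sh (m * n)).i < Y.i ∧ Y.i < ((par l Y).sh (m * n)).i + n ∧
      P.HookR ((par l Y).sh (m * n)) Y (Mf Y) with hGRf
  set FG : ℕ → Finset Arc := fun l => F.filter fun Y => lv Y = l + 1 ∧
    P.Good (Mf Y) (par l Y) Y.i with hFG
  have hcov : F ⊆ F0 ∪ (GLf ∪ GRf) ∪ (Finset.range (L + 1)).biUnion FG := by
    intro Y hY
    obtain ⟨y0, yn, -, hE, hlL, hlK, hMM⟩ := hF Y hY
    simp only [Finset.mem_union, Finset.mem_biUnion, Finset.mem_range, hF0, hGLf, hGRf, hFG,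
      Finset.mem_filter]
    rcases Nat.eq_zero_or_pos (lv Y) with h0 | h0
    · exact Or.inl (Or.inl ⟨hY, h0⟩)
    · obtain ⟨l, hl⟩ : ∃ l, lv Y = l + 1 := ⟨lv Y - 1, by omega⟩
      rw [hl] at hE
      have hS := hpar.comp l Y hE
      by_cases hg : P.Good (Mf Y) (par l Y) Y.i
      · exact Or.inr ⟨l, by omega, hY, hl, hg⟩
      · obtain ⟨m, hm1, hm2⟩ := hpos Y hY l hl
        obtain ⟨ω, -, hω⟩ := (hM (Mf Y) hMM).2 l (by omega) (par l Y) hS
        have hS' := P.comp_sh m hS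
        have hg' : ¬ P.Good (Mf Y) ((par l Y).sh (m * n)) Y.i := by
          intro h
          apply hg
          have h2 := P.good_sh (-m) 0 h
          rw [Arc.sh_sh] at h2
          have e1 : (m * n + -m * n : ℤ) = 0 := by ring
          have e2 : (Y.i + 0 * n : ℤ) = Y.i := by ring
          rw [e1, e2, Arc.sh_zero] at h2
          exact h2
        rcases P.not_good hc hS'.ia hS'.bi hm1 hm2 (P.rep_sh m hω) hg' with h | h
        · exact Or.inl (Or.inr (Or.inl ⟨hY, l, hl, m, hm1, hm2, h⟩))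
        · exact Or.inl (Or.inr (Or.inr ⟨hY, l, hl, m, hm1, hm2, h⟩))
  have c0 : F0.card ≤ n := by
    refine P.level0_count (p := p) hc F0 fun A hA => ?_
    rw [hF0, Finset.mem_filter] at hA
    obtain ⟨y0, yn, -, hE, -, -, -⟩ := hF A hA.1
    rw [hA.2] at hE
    exact ⟨hE.1, y0, yn⟩
  have cL : GLf.card ≤ a := hL GLf (Finset.filter_subset _ _) fun Y hY => by
    rw [hGLf, Finset.mem_filter] at hY
    exact hY.2
  have cR : GRf.card ≤ a := hR GRf (Finset.filter_subset _ _) fun Y hY => by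
    rw [hGRf, Finset.mem_filter] at hY
    exact hY.2
  have cG : ∀ l ∈ Finset.range (L + 1), (FG l).card ≤ 2 * Ω.card * (2 * n + N) := by
    intro l hl
    have hl' : l < L + 1 := Finset.mem_range.1 hl
    have hmem : ∀ Y ∈ FG l, Y ∈ F ∧ lv Y = l + 1 ∧ P.Good (Mf Y) (par l Y) Y.i := by
      intro Y hY
      simpa only [hFG, Finset.mem_filter] using hY
    have himg : ((FG l).image (par l)).card ≤ 2 * n + N := by
      set T := (FG l).image (par l) with hT
      have hTc : ∀ S ∈ T, P.IsComp p l S ∧ 0 ≤ S.i ∧ S.i < n := by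
        intro S hS
        obtain ⟨Y, hY, rfl⟩ := Finset.mem_image.1 hS
        obtain ⟨hYF, hlv, -⟩ := hmem Y hY
        obtain ⟨-, -, -, hE, -, -, -⟩ := hF Y hYF
        rw [hlv] at hE
        exact ⟨hpar.comp l Y hE, hpar.can l Y hE⟩
      have h1 : (T.filter fun S => S.Cornered).card ≤ 2 * n :=
        P.cornered_count (p := p) (k := l) _ fun A hA => by
          rw [Finset.mem_filter] at hA
          obtain ⟨q1, q2, q3⟩ := hTc A hA.1
          exact ⟨q1, hA.2, q2, q3⟩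
      have h2 : (T.filter fun S => ¬ S.Cornered).card ≤ N := by
        have hinj : Set.InjOn (core l) (T.filter fun S => ¬ S.Cornered : Finset Arc) := by
          intro S hS S' hS' he
          rw [Finset.mem_coe, Finset.mem_filter] at hS hS'
          obtain ⟨q1, -, -⟩ := hTc S hS.1
          obtain ⟨q1', -, -⟩ := hTc S' hS'.1
          obtain ⟨-, hE, hsub, -, -⟩ := hcore.ex l S q1
          obtain ⟨-, -, hsub', -, -⟩ := hcore.ex l S' q1'
          obtain ⟨x, hx⟩ : (core l S).s.Nonempty := Set.nonempty_Ioo.2 hE.1.ab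
          have hx' : x ∈ (core l S').s := by rw [← he]; exact hx
          exact P.comp_unique q1 q1' (hsub hx) (hsub' hx')
        rw [← Finset.card_image_of_injOn hinj]
        refine hN _ fun Z hZ => ?_
        obtain ⟨S, hS, rfl⟩ := Finset.mem_image.1 hZ
        rw [Finset.mem_filter] at hS
        obtain ⟨hST, hSc⟩ := hS
        obtain ⟨q1, -, -⟩ := hTc S hST
        obtain ⟨Y, hY, rfl⟩ := Finset.mem_image.1 hST
        obtain ⟨hYF, hlv, hg⟩ := hmem Y hY
        obtain ⟨y0, yn, hYc, hE, -, hlK, hMM⟩ := hF Y hYF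
        rw [hlv] at hE hlK
        exact ⟨l, Y, Mf Y, hMM, hlK, hE, y0, yn, hYc, hSc, rfl,
          ((hcore.ex l _ q1).1).trans (by omega), hg⟩
      have h3 := Finset.card_filter_add_card_filter_not (s := T) (fun S => S.Cornered)
      omega
    calc (FG l).card ≤ 2 * Ω.card * ((FG l).image (par l)).card := by
          refine Finset.card_le_mul_card_image _ _ fun S hS => ?_
          obtain ⟨Y0, hY0, rfl⟩ := Finset.mem_image.1 hS
          have hScomp : P.IsComp p l (par l Y0) := by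
            obtain ⟨hYF, hlv, -⟩ := hmem Y0 hY0
            obtain ⟨-, -, -, hE, -, -, -⟩ := hF Y0 hYF
            rw [hlv] at hE
            exact hpar.comp l Y0 hE
          refine P.fork_count (Ω := Ω) hc hScomp _ fun Y hY => ?_
          rw [Finset.mem_filter] at hY
          obtain ⟨hYG, hYp⟩ := hY
          obtain ⟨hYF, hlv, hg⟩ := hmem Y hYG
          obtain ⟨y0, yn, hYc, hE, -, hlK, hMM⟩ := hF Y hYF
          rw [hlv] at hE hlK
          have hsee := hpar.sees l Y hE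
          rw [hYp] at hsee hg
          exact ⟨hE.1, y0, yn, hsee, Mf Y, (hM _ hMM).1, (hM _ hMM).2 l hlK _ hScomp, hg⟩
      _ ≤ 2 * Ω.card * (2 * n + N) := Nat.mul_le_mul_left _ himg
  have cU : ((Finset.range (L + 1)).biUnion FG).card ≤ (L + 1) * (2 * Ω.card * (2 * n + N)) := by
    have := Finset.card_biUnion_le_card_mul (Finset.range (L + 1)) FG _ cG
    rwa [Finset.card_range] at this
  have h1 := Finset.card_le_card hcov
  have h2 := Finset.card_union_le (F0 ∪ (GLf ∪ GRf)) ((Finset.range (L + 1)).biUnion FG)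
  have h3 := Finset.card_union_le F0 (GLf ∪ GRf)
  have h4 := Finset.card_union_le GLf GRf
  have e : (L + 1) * (2 * Ω.card) * (2 * n + N) = (L + 1) * (2 * Ω.card * (2 * n + N)) := by ring
  rw [e]
  omega

end Poly

end Pool.Agent.Lib_PL
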