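import Pool.Agent.Lib_PL.HookR
import Pool.Agent.Lib_PL.RecStep

/-!
The data `HBase`, `T2` of an item, and the bound for items of depth at least two.

`hbase_of`: `X ⊇ Y`, `Y` exact of level `l + 1`, `S = par l Y` shifted.  `Z` is `see_absorb`.
`t2_of`: `ki`: if `Ym` and `S` are on the same edge then the points of `S` which see `Y ⊆ X` are in `Ym` (`see_absorb`), but they
are in `Bp p l` with `l < lm + 1`: contradiction with exactness of `Ym`.  `nocorner`: parent rule.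
`rec2`: induction on `L` with `rec_step`; `hL`: choose `lm < K'` for every `Y`, at most `(Ω.card + 1) * n` for each value
(`t2_count` for the arcs `par lm Ym`; `Y = core lm (par lm Ym)` so different `Y` have different `par lm Ym`).  Level `L = 0`: all items
have level `0`.
-/

open Set Complex
open scoped Topology

namespace Pool.Agent.Lib_PL

namespace Poly

variable {n : ℕ} (P : Poly n)

private theorem recBase_mem_sh {A : Arc} {m : ℤ} {x : ℝ} (hx : x ∈ A.s) :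
    x + m * n ∈ (A.sh (m * n)).s := by
  rw [Arc.mem_sh]
  push_cast
  rw [add_sub_cancel_right]
  exact hx

theorem hbase_of (hc : P.CCW) {p : ℂ} {par : ℕ → Arc → Arc} (hpar : P.PRule p par) {Ω : Finset ℝ}
    {l k : ℕ} {Y X : Arc} {M : Set ℂ} (hX : P.IsComp p k X) (hXc : ¬ X.Cornered)
    (hY : P.Exact p (l + 1) Y) (hYX : Y.s ⊆ X.s) (hi : Y.i = X.i) (hM : M.Nonempty)
    (hr : ∃ ω ∈ Ω, P.Rep M (par l Y) ω) {m : ℤ} (ij : ((par l Y).sh (m * n)).i < X.i)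
    (ji : X.i < ((par l Y).sh (m * n)).i + n) : P.HBase Ω ((par l Y).sh (m * n)) X M := by
  have hS : P.IsComp p l ((par l Y).sh (m * n)) := P.comp_sh m (hpar.comp l Y hY)
  obtain ⟨y, hy, z, hz, hv⟩ := hpar.sees l Y hY
  have hz' : z + m * n ∈ ((par l Y).sh (m * n)).s := recBase_mem_sh hz
  have hγ : P.γ (z + m * n) = P.γ z := P.γ_add_mul z m
  refine ⟨ij, ji, hS.ia, hS.ab, hS.bi, ?_, hX.ab, ?_, ?_, ?_, ?_, hM⟩
  · exact lt_of_le_of_ne hX.ia fun h => hXc (Or.inl h.symm)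
  · exact lt_of_le_of_ne hX.bi fun h => hXc (Or.inr h)
  · exact ⟨z + m * n, hz', y, hYX hy, by rw [hγ]; exact hv.symm⟩
  · intro x hx hx' hs
    apply hYX
    exact P.see_absorb hc hS.ia hS.bi hS.sub hY.1
      ⟨y, hy, z + m * n, hz', by rw [hγ]; exact hv⟩ (by rw [hi]; exact hx) (by rw [hi]; exact hx')
      hs
  · obtain ⟨ω, hω, h⟩ := hr
    exact ⟨ω, hω, P.rep_sh m h⟩

theorem t2_of (hc : P.CCW) {p : ℂ} {par : ℕ → Arc → Arc} (hpar : P.PRule p par) {Ω : Finset ℝ}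
    {l L : ℕ} {Y Ym : Arc} {M : Set ℂ} (hlL : l ≤ L) (hYm : P.Exact p (L + 2) Ym)
    (hYmc : ¬ Ym.Cornered) (hXc : ¬ (par (L + 1) Ym).Cornered) (hY : P.Exact p (l + 1) Y)
    (hYX : Y.s ⊆ (par (L + 1) Ym).s) (hg : P.Good M (par (L + 1) Ym) Ym.i)
    (hr : ∃ ω ∈ Ω, P.Rep M (par (L + 1) Ym) ω) (m : ℤ) :
    P.T2 p Ω L ((par l Y).sh (m * n)) (par (L + 1) Ym) Ym M := by
  have hS : P.IsComp p l ((par l Y).sh (m * n)) := P.comp_sh m (hpar.comp l Y hY)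
  have hX : P.IsComp p (L + 1) (par (L + 1) Ym) := hpar.comp (L + 1) Ym hYm
  have hsees := hpar.sees (L + 1) Ym hYm
  refine ⟨hS.sub.trans (P.Bp_mono p hlL), hX, hYm.1, hYmc, hsees, ?_, ?_, hg, hr⟩
  · intro T hT hTc hs
    exact hXc (hpar.corner (L + 1) Ym hYm ⟨T, hT, hTc, hs⟩)
  · intro m' hm'
    obtain ⟨y, hy, z, hz, hv⟩ := hpar.sees l Y hY
    have hfl := IsComp.mem_floor (hpar.comp l Y hY) hz
    have hi : ((par l Y).sh (m * n)).i = (par l Y).i + m * n := rfl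
    have hmem : z + ((m + m' : ℤ) : ℝ) * n ∈ Ym.s := by
      have e : (Ym.i : ℝ) = (par l Y).i + ((m + m' : ℤ) : ℝ) * n := by
        rw [hm', hi]; push_cast; ring
      refine P.see_absorb hc hX.ia hX.bi hX.sub hYm.1 hsees ?_ ?_ ⟨y, hYX hy, ?_⟩
      · rw [e]; linarith [hfl.1]
      · rw [e]; linarith [hfl.2.1]
      · rw [P.γ_add_mul]; exact hv
    have hB : z + ((m + m' : ℤ) : ℝ) * n ∈ P.Bp p l :=
      (P.Bp_add p l z (m + m')).2 ((hpar.comp l Y hY).sub hz)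
    exact hYm.2 _ hmem l (by omega) hB

/-- bound for the hooked items of depth at least two -/
private theorem recBase_hooks (hc : P.CCW) {p : ℂ} {par core : ℕ → Arc → Arc}
    {lev : ℕ → Arc → ℕ} (hpar : P.PRule p par) (hcore : P.CRule p core lev) (Ω : Finset ℝ)
    (MM : Set (Set ℂ)) (K' : ℕ)
    (hM : ∀ M ∈ MM, M.Nonempty ∧ ∀ l, l + 1 ≤ K' → ∀ S, P.IsComp p l S → ∃ ω ∈ Ω, P.Rep M S ω)
    (Hk : Arc → Arc → Set ℂ → Prop) (hHk : ∀ S X Y M, Y.i = X.i → Hk S Y M → Hk S X M)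
    (hcount : ∀ (L : ℕ) (F : Finset Arc), (∀ X ∈ F, 0 ≤ X.i ∧ X.i < n ∧ ∃ S Ym M,
      P.HBase Ω S X M ∧ Hk S X M ∧ P.T2 p Ω L S X Ym M) → F.card ≤ (Ω.card + 1) * n)
    (G : Finset Arc) (lmf : Arc → ℕ) (Ymf : Arc → Arc) (Mf : Arc → Set ℂ)
    (hG : ∀ Y ∈ G, Mf Y ∈ MM ∧ lmf Y + 1 ≤ K' ∧ P.Exact p (lmf Y + 1) (Ymf Y) ∧
      ¬ (Ymf Y).Cornered ∧ ¬ (par (lmf Y) (Ymf Y)).Cornered ∧ Y = core (lmf Y) (par (lmf Y) (Ymf Y)) ∧
      P.Good (Mf Y) (par (lmf Y) (Ymf Y)) (Ymf Y).i)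
    (hk : ∀ Y ∈ G, ∃ l, lev (lmf Y) (par (lmf Y) (Ymf Y)) = l + 1 ∧ ∃ m : ℤ,
      ((par l Y).sh (m * n)).i < Y.i ∧ Y.i < ((par l Y).sh (m * n)).i + n ∧
      Hk ((par l Y).sh (m * n)) Y (Mf Y)) : G.card ≤ K' * (Ω.card + 1) * n := by
  classical
  have h1 : G.card ≤ (Ω.card + 1) * n * (G.image lmf).card := by
    refine Finset.card_le_mul_card_image G _ fun v hv => ?_
    -- the items with `lm = v`
    set Gv := G.filter fun Y => lmf Y = v with hGv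
    have hGvm : ∀ Y ∈ Gv, Y ∈ G ∧ lmf Y = v := fun Y hY => Finset.mem_filter.1 hY
    have hinj : Set.InjOn (fun Y => par v (Ymf Y)) Gv := by
      intro Y1 hY1 Y2 hY2 h
      obtain ⟨a1, b1⟩ := hGvm Y1 hY1
      obtain ⟨a2, b2⟩ := hGvm Y2 hY2
      have e1 := (hG Y1 a1).2.2.2.2.2.1
      have e2 := (hG Y2 a2).2.2.2.2.2.1
      rw [b1] at e1
      rw [b2] at e2
      rw [e1, e2]
      exact congrArg (core v) h
    rw [← Finset.card_image_of_injOn hinj]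
    apply hcount (v - 1)
    intro X hX
    obtain ⟨Y, hY, rfl⟩ := Finset.mem_image.1 hX
    obtain ⟨hYG, hYv⟩ := hGvm Y hY
    obtain ⟨d1, d2, d3, d4, d5, d6, d7⟩ := hG Y hYG
    obtain ⟨l, hl, m, k1, k2, k3⟩ := hk Y hYG
    rw [hYv] at d2 d3 d5 d6 d7 hl
    have hXcomp : P.IsComp p v (par v (Ymf Y)) := hpar.comp v (Ymf Y) d3
    obtain ⟨c1, c2, c3, c4, c5⟩ := hcore.ex v _ hXcomp
    rw [← d6] at c2 c3 c4 c5
    rw [hl] at c1 c2
    obtain ⟨L', rfl⟩ : ∃ L', v = L' + 1 := ⟨v - 1, by omega⟩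
    have hcan := hpar.can (L' + 1) (Ymf Y) d3
    have hMM := hM (Mf Y) d1
    refine ⟨hcan.1, hcan.2, (par l Y).sh (m * n), Ymf Y, Mf Y, ?_, ?_, ?_⟩
    · refine P.hbase_of hc hpar hXcomp d5 c2 c3 c4 hMM.1 (hMM.2 l (by omega) _ (hpar.comp l Y c2))
        ?_ ?_
      · show _ < (par (L' + 1) (Ymf Y)).i
        rw [← c4]; exact k1
      · show (par (L' + 1) (Ymf Y)).i < _
        rw [← c4]; exact k2
    · exact hHk _ _ Y _ c4 k3
    · exact P.t2_of hc hpar (by omega) d3 d4 d5 c2 c3 d7 (hMM.2 (L' + 1) (by omega) _ hXcomp) m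
  have h2 : (G.image lmf).card ≤ K' := by
    have h3 : G.image lmf ⊆ Finset.range K' := by
      intro v hv
      obtain ⟨Y, hY, rfl⟩ := Finset.mem_image.1 hv
      have := (hG Y hY).2.1
      exact Finset.mem_range.2 (by omega)
    simpa using Finset.card_le_card h3
  calc G.card ≤ (Ω.card + 1) * n * (G.image lmf).card := h1
    _ ≤ (Ω.card + 1) * n * K' := Nat.mul_le_mul_left _ h2
    _ = K' * (Ω.card + 1) * n := by ring

theorem rec2 (hc : P.CCW) {p : ℂ} {par core : ℕ → Arc → Arc} {lev : ℕ → Arc → ℕ}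
    (hpar : P.PRule p par) (hcore : P.CRule p core lev) (Ω : Finset ℝ)
    (hΩ : ∀ ω ∈ Ω, ∀ ω' ∈ Ω, ω ≠ ω' → P.Vis (P.γ ω) (P.γ ω')) (MM : Set (Set ℂ)) (K' : ℕ)
    (hM : ∀ M ∈ MM, M.Nonempty ∧ ∀ l, l + 1 ≤ K' → ∀ S, P.IsComp p l S → ∃ ω ∈ Ω, P.Rep M S ω) :
    ∀ L : ℕ, ∀ F : Finset Arc, (∀ Y ∈ F, P.Item2 p par core lev MM K' L Y) →
      F.card ≤ c2 K' Ω.card L * n := by
  classical
  intro L
  induction L with
  | zero =>
    intro F hF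
    have h1 : c2 K' Ω.card 0 = 1 := rfl
    rw [h1, one_mul]
    refine P.level0_count hc (p := p) F fun Y hY => ?_
    obtain ⟨lm, Ym, M, d1, d2, d3, d4, d5, d6, d7, d8, d9, d10⟩ := hF Y hY
    obtain ⟨c1, c2, c3, c4, c5⟩ := hcore.ex lm _ (hpar.comp lm Ym d3)
    have hcan := hpar.can lm Ym d3
    have h0 : lev lm (par lm Ym) = 0 := Nat.le_zero.1 d9
    rw [← d8] at c2 c4
    rw [h0] at c2
    rw [c4]
    exact ⟨c2.1, hcan.1, hcan.2⟩
  | succ L ih =>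
    intro F hF
    have hch : ∀ Y : Arc, ∃ (lm : ℕ) (Ym : Arc) (M : Set ℂ), Y ∈ F → (M ∈ MM ∧ lm + 1 ≤ K' ∧
        P.Exact p (lm + 1) Ym ∧ 0 ≤ Ym.i ∧ Ym.i < n ∧ ¬ Ym.Cornered ∧ ¬ (par lm Ym).Cornered ∧
        Y = core lm (par lm Ym) ∧ lev lm (par lm Ym) ≤ L + 1 ∧ P.Good M (par lm Ym) Ym.i) := by
      intro Y
      by_cases hY : Y ∈ F
      · obtain ⟨lm, Ym, M, h⟩ := hF Y hY
        exact ⟨lm, Ym, M, fun _ => h⟩
      · exact ⟨0, Y, ∅, fun h => absurd h hY⟩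
    choose lmf Ymf Mf hdat using hch
    have hGen : ∀ (Hk : Arc → Arc → Set ℂ → Prop) (_ : ∀ S X Y M, Y.i = X.i → Hk S Y M → Hk S X M)
        (_ : ∀ (L : ℕ) (F : Finset Arc), (∀ X ∈ F, 0 ≤ X.i ∧ X.i < n ∧ ∃ S Ym M,
          P.HBase Ω S X M ∧ Hk S X M ∧ P.T2 p Ω L S X Ym M) → F.card ≤ (Ω.card + 1) * n),
        ∀ G ⊆ F, (∀ Y ∈ G, ∃ l, lev (lmf Y) (par (lmf Y) (Ymf Y)) = l + 1 ∧ ∃ m : ℤ,
          ((par l Y).sh (m * n)).i < Y.i ∧ Y.i < ((par l Y).sh (m * n)).i + n ∧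
          Hk ((par l Y).sh (m * n)) Y (Mf Y)) → G.card ≤ K' * (Ω.card + 1) * n := by
      intro Hk h1 h2 G hGF hk
      refine P.recBase_hooks hc hpar hcore Ω MM K' hM Hk h1 h2 G lmf Ymf Mf (fun Y hY => ?_) hk
      obtain ⟨d1, d2, d3, d4, d5, d6, d7, d8, d9, d10⟩ := hdat Y (hGF hY)
      exact ⟨d1, d2, d3, d6, d7, d8, d10⟩
    have hstep := P.rec_step hc hpar hcore Ω MM K' L hM (c2 K' Ω.card L * n)
      (K' * (Ω.card + 1) * n) ih F (fun Y => lev (lmf Y) (par (lmf Y) (Ymf Y))) Mf (fun Y hY => by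
        obtain ⟨d1, d2, d3, d4, d5, d6, d7, d8, d9, d10⟩ := hdat Y hY
        obtain ⟨c1, c2, c3, c4, c5⟩ := hcore.ex (lmf Y) _ (hpar.comp (lmf Y) (Ymf Y) d3)
        have hcan := hpar.can (lmf Y) (Ymf Y) d3
        rw [← d8] at c2 c4 c5
        refine ⟨?_, ?_, c5 d7, c2, d9, ?_, d1⟩
        · rw [c4]; exact hcan.1
        · rw [c4]; exact hcan.2
        · show lev (lmf Y) (par (lmf Y) (Ymf Y)) ≤ K'
          omega)
      (hGen P.HookL (fun S X Y M hXY h => by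
        obtain ⟨σ, hσ, g, h1, h2, h3⟩ := h
        exact ⟨σ, hσ, g, h1, by rw [← hXY]; exact h2, h3⟩)
        (fun L F hF => P.t2_count hc hΩ F hF))
      (hGen P.HookR (fun S X Y M hXY h => by
        obtain ⟨σ, hσ, g, h1, h2, h3⟩ := h
        exact ⟨σ, hσ, g, by rw [← hXY]; exact h1, h2, h3⟩)
        (fun L F hF => P.t2_countR hc hΩ F hF))
    have hc2 : c2 K' Ω.card (L + 1) = 1 + 2 * (K' * (Ω.card + 1)) +
        (L + 1) * (2 * Ω.card) * (2 + c2 K' Ω.card L) := rfl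
    rw [hc2]
    refine hstep.trans (le_of_eq ?_)
    ring

end Poly

end Pool.Agent.Lib_PL
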