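import Pool.Agent.Lib_PL.Comp
import Pool.Agent.Lib_PL.SideB

/-!
Representation of the viewer.

`rep_vertex`: `s` and `g` are not vertices, so `V ν` is on one of the two open arcs.
`rep_chord`: `see(S) ∩ w` is an interval (`f2_chord`) and misses the connected set `M`, so there is an end of `w` such
that the part of `w` from `M` to this end (together with `M`) misses `see(S)`; it is connected and misses all
chords `s g` with `s ∈ S` (points of such a chord see `γ s`), so it is on one side (`side_conn`); the end is a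
limit of points of this side; it is not in `S`, because all points of `w` see both ends of `w`.
-/

open Set Complex
open scoped Topology

namespace Pool.Agent.Lib_PL

namespace Poly

variable {n : ℕ} (P : Poly n)

private theorem repLemma_window (Q : Poly n) (ω s : ℝ) :
    ∃ m : ℤ, s ≤ ω + m * n ∧ ω + m * n < s + n := by
  have hn : 0 < (n : ℝ) := by
    have := Q.three_le
    positivity
  refine ⟨⌈(s - ω) / n⌉, ?_, ?_⟩
  · have h := Int.le_ceil ((s - ω) / n)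
    rw [div_le_iff₀ hn] at h
    linarith
  · have h := Int.ceil_lt_add_one ((s - ω) / n)
    have h2 : (⌈(s - ω) / n⌉ : ℝ) * n < ((s - ω) / n + 1) * n := mul_lt_mul_of_pos_right h hn
    have h3 : ((s - ω) / n + 1) * n = s - ω + n := by
      field_simp
    linarith

private theorem repLemma_no_int {S : Arc} (hS : (S.i : ℝ) ≤ S.a) (hS' : S.b ≤ S.i + 1) (k : ℤ) :
    (k : ℝ) ∉ S.s := by
  intro h
  have h1 : (S.i : ℝ) < k := lt_of_le_of_lt hS h.1
  have h2 : (k : ℝ) < S.i + 1 := lt_of_lt_of_le h.2 hS'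
  have h3 : S.i < k := by exact_mod_cast h1
  have h4 : k < S.i + 1 := by exact_mod_cast h2
  omega

theorem rep_vertex (hc : P.CCW) (ν : ℤ) {S : Arc} (hS : (S.i : ℝ) ≤ S.a) (hS' : S.b ≤ S.i + 1) :
    P.Rep {P.V ν} S (ν : ℝ) := by
  refine ⟨?_, ?_⟩
  · intro m h
    apply repLemma_no_int hS hS' (ν + m * n)
    push_cast
    exact h
  · intro s g hs hg hsg hgs hv
    obtain ⟨m, hm1, hm2⟩ := P.repLemma_window (ν : ℝ) s
    have hγ : P.γ ((ν : ℝ) + m * n) = P.V ν := by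
      rw [P.γ_add_mul, P.γ_int]
    have hms : s ≠ (ν : ℝ) + m * n := by
      intro h
      apply repLemma_no_int hS hS' (ν + m * n)
      push_cast
      rw [← h]
      exact hs
    have hmg : (ν : ℝ) + m * n ≠ g := by
      intro h
      apply hg (ν + m * n)
      push_cast
      exact h
    have hm1' := lt_of_le_of_ne hm1 hms
    rcases lt_or_gt_of_ne hmg with h | h
    · left
      refine ⟨?_, m, hm1', h.le⟩
      rw [singleton_subset_iff, ← hγ]
      exact P.side_arc hgs hv ⟨hm1', h⟩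
    · right
      refine ⟨?_, m, h.le, hm2⟩
      rw [singleton_subset_iff, ← hγ]
      exact P.side_arc' hsg hv ⟨h, hm2⟩

/-- The point with parameter `t` on the segment. -/
private noncomputable def repLemma_pt (A B : ℂ) (t : ℝ) : ℂ := A + (t : ℂ) * (B - A)

private theorem repLemma_pt_cont (A B : ℂ) : Continuous (repLemma_pt A B) := by
  unfold repLemma_pt
  fun_prop

private theorem repLemma_pt_open {A B z : ℂ} (h : z ∈ openSegment ℝ A B) :
    ∃ t : ℝ, 0 < t ∧ t < 1 ∧ repLemma_pt A B t = z := by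
  obtain ⟨a, b, ha, hb, hab, rfl⟩ := h
  refine ⟨b, hb, by linarith, ?_⟩
  unfold repLemma_pt
  rw [Complex.real_smul, Complex.real_smul]
  have : (a : ℂ) = 1 - b := by
    have : a = 1 - b := by linarith
    rw [this]
    push_cast
    ring
  rw [this]
  ring

private theorem repLemma_open_pt (A B : ℂ) {t : ℝ} (h0 : 0 < t) (h1 : t < 1) :
    repLemma_pt A B t ∈ openSegment ℝ A B := by
  refine ⟨1 - t, t, by linarith, h0, by ring, ?_⟩
  unfold repLemma_pt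
  rw [Complex.real_smul, Complex.real_smul]
  push_cast
  ring

private theorem repLemma_seg_pt (A B : ℂ) {a b t : ℝ} (h0 : a ≤ t) (h1 : t ≤ b) :
    repLemma_pt A B t ∈ segment ℝ (repLemma_pt A B a) (repLemma_pt A B b) := by
  rcases eq_or_lt_of_le (h0.trans h1) with h | h
  · have : t = a := by linarith
    rw [this]
    exact left_mem_segment ℝ _ _
  · have hba : 0 < b - a := by linarith
    refine ⟨(b - t) / (b - a), (t - a) / (b - a), div_nonneg (by linarith) hba.le,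
      div_nonneg (by linarith) hba.le, ?_, ?_⟩
    · field_simp
      ring
    · unfold repLemma_pt
      rw [Complex.real_smul, Complex.real_smul]
      have h2 : ((b : ℂ) - a) ≠ 0 := by
        have : ((b - a : ℝ) : ℂ) ≠ 0 := by exact_mod_cast hba.ne'
        push_cast at this
        exact this
      push_cast
      field_simp
      ring

private theorem repLemma_pt_inj {A B : ℂ} (hAB : A ≠ B) : Function.Injective (repLemma_pt A B) := by
  intro s t h
  unfold repLemma_pt at h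
  have h1 : ((s : ℂ) - t) * (B - A) = 0 := by linear_combination h
  rcases mul_eq_zero.1 h1 with h2 | h2
  · have h3 : (s : ℂ) = t := by linear_combination h2
    exact_mod_cast h3
  · exact absurd (by linear_combination -h2) hAB

private theorem repLemma_pt_zero (A B : ℂ) : repLemma_pt A B 0 = A := by
  unfold repLemma_pt
  simp

private theorem repLemma_pt_swap (A B : ℂ) (t : ℝ) : repLemma_pt B A (1 - t) = repLemma_pt A B t := by
  unfold repLemma_pt
  push_cast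
  ring

/-- A connected subset of a line contains the segment between two of its points. -/
private theorem repLemma_conn {A B : ℂ} (hAB : A ≠ B) {M : Set ℂ} (hM : M ⊆ openSegment ℝ A B)
    (hcon : IsPreconnected M) {a b t : ℝ} (ha : repLemma_pt A B a ∈ M) (hb : repLemma_pt A B b ∈ M)
    (h0 : a ≤ t) (h1 : t ≤ b) : repLemma_pt A B t ∈ M := by
  -- a continuous left inverse of the parametrisation
  let φ : ℂ → ℝ := fun z => ((z - A) / (B - A)).re
  have hφc : Continuous φ := by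
    refine Complex.continuous_re.comp ?_
    exact (continuous_id.sub continuous_const).div_const _
  have hBA : B - A ≠ 0 := sub_ne_zero.2 (Ne.symm hAB)
  have hφ : ∀ s : ℝ, φ (repLemma_pt A B s) = s := by
    intro s
    have : (repLemma_pt A B s - A) / (B - A) = (s : ℂ) := by
      unfold repLemma_pt
      field_simp
      ring
    show ((repLemma_pt A B s - A) / (B - A)).re = s
    rw [this, Complex.ofReal_re]
  have him : IsPreconnected (φ '' M) := hcon.image φ hφc.continuousOn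
  have ho := him.ordConnected
  have hmem : t ∈ φ '' M :=
    ho.out ⟨_, ha, hφ a⟩ ⟨_, hb, hφ b⟩ ⟨h0, h1⟩
  obtain ⟨z, hz, hzt⟩ := hmem
  obtain ⟨s, _, _, rfl⟩ := repLemma_pt_open (hM hz)
  rw [hφ] at hzt
  rw [← hzt]
  exact hz

/-- One end. -/
private theorem repLemma_end (hc : P.CCW) {ω1 ω2 : ℝ} (hw : P.Vis (P.γ ω1) (P.γ ω2)) {M : Set ℂ}
    (hM : M ⊆ openSegment ℝ (P.γ ω1) (P.γ ω2)) (hne : M.Nonempty)
    {S : Arc} (hno : ∀ z ∈ M, ∀ s ∈ S.s, ¬ P.Vis (P.γ s) z)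
    (hfree : ∀ a b : ℝ, 0 < a → a < b → b < 1 → repLemma_pt (P.γ ω1) (P.γ ω2) b ∈ M →
      ∀ s ∈ S.s, ¬ P.Vis (P.γ s) (repLemma_pt (P.γ ω1) (P.γ ω2) a)) : P.Rep M S ω1 := by
  have hAB : P.γ ω1 ≠ P.γ ω2 := hw.ne
  have hsub : ∀ z ∈ openSegment ℝ (P.γ ω1) (P.γ ω2), P.Vis (P.γ ω1) z := by
    intro z hz
    refine hw.sub (left_mem_segment ℝ _ _) (openSegment_subset_segment ℝ _ _ hz) ?_
    intro h
    exact (P.I_disj_C (hw hz)) (h ▸ P.γ_mem_C ω1)
  have hnotin : ∀ m : ℤ, ω1 + m * n ∉ S.s := by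
    intro m hm
    obtain ⟨z, hz⟩ := hne
    apply hno z hz _ hm
    rw [P.γ_add_mul]
    exact hsub z (hM hz)
  refine ⟨hnotin, ?_⟩
  intro s g hs hg hsg hgs hv
  -- the part of the chord between `M` and the end, together with `M`
  set J : Set ℝ := {a | 0 < a ∧ a < 1 ∧ ∃ b, a ≤ b ∧ b < 1 ∧ repLemma_pt (P.γ ω1) (P.γ ω2) b ∈ M}
    with hJ
  have hJo : J.OrdConnected := by
    refine ⟨?_⟩
    rintro x ⟨hx0, hx1, _⟩ y ⟨hy0, hy1, b, hyb, hb1, hb⟩ z ⟨hz1, hz2⟩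
    exact ⟨lt_of_lt_of_le hx0 hz1, lt_of_le_of_lt hz2 hy1, b, hz2.trans hyb, hb1, hb⟩
  set T : Set ℂ := repLemma_pt (P.γ ω1) (P.γ ω2) '' J with hT
  have hTc : IsPreconnected T :=
    hJo.isPreconnected.image _ (repLemma_pt_cont _ _).continuousOn
  have hTI : T ⊆ P.I := by
    rintro _ ⟨a, ⟨ha0, ha1, _⟩, rfl⟩
    exact hw (repLemma_open_pt _ _ ha0 ha1)
  have hTR : T ⊆ P.R := hTI.trans P.I_sub_R
  have hMT : M ⊆ T := by
    intro z hz
    obtain ⟨t, ht0, ht1, rfl⟩ := repLemma_pt_open (hM hz)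
    exact ⟨t, ⟨ht0, ht1, t, le_refl _, ht1, hz⟩, rfl⟩
  have hTsee : ∀ z ∈ T, ¬ P.Vis (P.γ s) z := by
    rintro _ ⟨a, ⟨ha0, ha1, b, hab, hb1, hb⟩, rfl⟩
    rcases hab.eq_or_lt with h | h
    · rw [h]
      exact hno _ hb s hs
    · exact hfree a b ha0 h hb1 hb s hs
  have hTd : Disjoint T (segment ℝ (P.γ s) (P.γ g)) := by
    rw [Set.disjoint_left]
    intro z hz hz'
    have hzC : z ∉ P.C := P.I_disj_C (hTI hz)
    refine hTsee z hz (hv.sub (left_mem_segment ℝ _ _) hz' ?_)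
    intro h
    exact hzC (h ▸ P.γ_mem_C s)
  have hnear : ∀ ρ > 0, ∃ z ∈ T, ‖z - P.γ ω1‖ < ρ := by
    intro ρ hρ
    obtain ⟨z0, hz0⟩ := hne
    obtain ⟨t, ht0, ht1, rfl⟩ := repLemma_pt_open (hM hz0)
    have hcont : Continuous fun a : ℝ => ‖repLemma_pt (P.γ ω1) (P.γ ω2) a - P.γ ω1‖ :=
      ((repLemma_pt_cont _ _).sub continuous_const).norm
    have hev : ∀ᶠ a in 𝓝 (0 : ℝ), ‖repLemma_pt (P.γ ω1) (P.γ ω2) a - P.γ ω1‖ < ρ := by
      have hlt : ‖repLemma_pt (P.γ ω1) (P.γ ω2) 0 - P.γ ω1‖ < ρ := by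
        rw [repLemma_pt_zero]
        simpa using hρ
      exact hcont.continuousAt.eventually_lt continuousAt_const hlt
    obtain ⟨ε, hε, hball⟩ := Metric.eventually_nhds_iff.1 hev
    have hmin : 0 < min (ε / 2) t := lt_min (by linarith) ht0
    refine ⟨_, ⟨min (ε / 2) t, ⟨hmin, lt_of_le_of_lt (min_le_right _ _) ht1, t, min_le_right _ _,
      ht1, hz0⟩, rfl⟩, ?_⟩
    apply hball
    rw [Real.dist_eq, sub_zero, abs_of_pos hmin]
    exact lt_of_le_of_lt (min_le_left _ _) (by linarith)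
  obtain ⟨m, hm1, hm2⟩ := P.repLemma_window ω1 s
  have hγ : P.γ (ω1 + m * n) = P.γ ω1 := P.γ_add_mul _ _
  have hms : s ≠ ω1 + m * n := fun h => hnotin m (h ▸ hs)
  have hm1' := lt_of_le_of_ne hm1 hms
  have hdisj := P.side_disj hc hsg hgs hv
  rcases P.side_conn hc hsg hgs hv hTc hTR hTd with h | h
  · left
    refine ⟨hMT.trans h, m, hm1', ?_⟩
    by_contra hcon
    push Not at hcon
    have hend : P.γ ω1 ∈ P.Side g (s + n) := by
      rw [← hγ]
      exact P.side_arc' hsg hv ⟨hcon, hm2⟩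
    obtain ⟨ρ, hρ, hop⟩ := P.side_open' hc hsg hgs hv hend
    obtain ⟨z, hz, hzn⟩ := hnear ρ hρ
    exact (Set.disjoint_left.1 hdisj (h hz)) (hop z (hTR hz) hzn)
  · right
    refine ⟨hMT.trans h, m, ?_, hm2⟩
    by_contra hcon
    push Not at hcon
    have hend : P.γ ω1 ∈ P.Side s g := by
      rw [← hγ]
      exact P.side_arc hgs hv ⟨hm1', hcon⟩
    obtain ⟨ρ, hρ, hop⟩ := P.side_open hc hsg hgs hv hend
    obtain ⟨z, hz, hzn⟩ := hnear ρ hρ
    exact (Set.disjoint_left.1 hdisj (hop z (hTR hz) hzn)) (h hz)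

theorem rep_chord (hc : P.CCW) {ω1 ω2 : ℝ} (hw : P.Vis (P.γ ω1) (P.γ ω2)) {M : Set ℂ}
    (hM : M ⊆ openSegment ℝ (P.γ ω1) (P.γ ω2)) (hne : M.Nonempty) (hcon : IsPreconnected M)
    {S : Arc} (hS : (S.i : ℝ) ≤ S.a) (hS' : S.b ≤ S.i + 1)
    (hno : ∀ z ∈ M, ∀ s ∈ S.s, ¬ P.Vis (P.γ s) z) : P.Rep M S ω1 ∨ P.Rep M S ω2 := by
  have hAB : P.γ ω1 ≠ P.γ ω2 := hw.ne
  by_cases h1 : ∀ a b : ℝ, 0 < a → a < b → b < 1 → repLemma_pt (P.γ ω1) (P.γ ω2) b ∈ M →
      ∀ s ∈ S.s, ¬ P.Vis (P.γ s) (repLemma_pt (P.γ ω1) (P.γ ω2) a)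
  · exact Or.inl (P.repLemma_end hc hw hM hne hno h1)
  by_cases h2 : ∀ a b : ℝ, 0 < a → a < b → b < 1 → repLemma_pt (P.γ ω2) (P.γ ω1) b ∈ M →
      ∀ s ∈ S.s, ¬ P.Vis (P.γ s) (repLemma_pt (P.γ ω2) (P.γ ω1) a)
  · right
    refine P.repLemma_end hc hw.symm ?_ hne hno h2
    rw [openSegment_symm]
    exact hM
  exfalso
  push Not at h1 h2
  obtain ⟨μ1, l1, hμ1, hμl1, hl1, hM1, s, hs, hv⟩ := h1
  obtain ⟨μ2', l2', hμ2', hμl2', hl2', hM2, s', hs', hv'⟩ := h2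
  -- change the second parametrisation
  obtain ⟨μ2, hμ2⟩ : ∃ μ2, μ2' = 1 - μ2 := ⟨1 - μ2', by ring⟩
  obtain ⟨l2, hl2⟩ : ∃ l2, l2' = 1 - l2 := ⟨1 - l2', by ring⟩
  subst hμ2
  subst hl2
  rw [repLemma_pt_swap] at hM2 hv'
  have hi1 : (S.i : ℝ) < s := lt_of_le_of_lt hS hs.1
  have hi2 : s < S.i + 1 := lt_of_lt_of_le hs.2 hS'
  have hi3 : (S.i : ℝ) < s' := lt_of_le_of_lt hS hs'.1
  have hi4 : s' < S.i + 1 := lt_of_lt_of_le hs'.2 hS'
  have hsub : ∀ σ ∈ uIcc s s', σ ∈ S.s := by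
    intro σ hσ
    exact (Set.ordConnected_Ioo (a := S.a) (b := S.b)).uIcc_subset hs hs' hσ
  have hbet : ∀ c ∈ segment ℝ (repLemma_pt (P.γ ω1) (P.γ ω2) μ1)
      (repLemma_pt (P.γ ω1) (P.γ ω2) μ2), c ∉ M := by
    intro c hcs hcM
    obtain ⟨σ, hσ, hσv⟩ := P.f2_chord hc hw
      (repLemma_open_pt _ _ hμ1 (by linarith)) (repLemma_open_pt _ _ (by linarith) (by linarith))
      hi1 hi2 hi3 hi4 hv.symm hv'.symm c hcs
    exact hno c hcM σ (hsub σ hσ) hσv.symm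
  have hbet' : ∀ t : ℝ, (μ1 ≤ t ∧ t ≤ μ2 ∨ μ2 ≤ t ∧ t ≤ μ1) →
      repLemma_pt (P.γ ω1) (P.γ ω2) t ∉ M := by
    rintro t (⟨h3, h4⟩ | ⟨h3, h4⟩)
    · exact hbet _ (repLemma_seg_pt _ _ h3 h4)
    · apply hbet
      rw [segment_symm]
      exact repLemma_seg_pt _ _ h3 h4
  -- `l2 < μ1 < l1`
  have hA : μ2 < l1 := by
    by_contra h
    push Not at h
    exact hbet' l1 (Or.inl ⟨hμl1.le, h⟩) hM1
  have hB : l2 < μ1 := by
    by_contra h
    push Not at h
    exact hbet' l2 (Or.inl ⟨h, by linarith⟩) hM2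
  have h5 := repLemma_conn hAB hM hcon hM2 hM1 hB.le hμl1.le
  exact hbet' μ1 (by
    rcases le_total μ1 μ2 with h | h
    · exact Or.inl ⟨le_refl _, h⟩
    · exact Or.inr ⟨h, le_refl _⟩) h5

private theorem repLemma_γ_sub (x : ℝ) (m : ℤ) : P.γ (x - ((m * n : ℤ) : ℝ)) = P.γ x := by
  have h := P.γ_add_mul x (-m)
  rw [← h]
  congr 1
  push_cast
  ring

private theorem repLemma_γ_add (x : ℝ) (m : ℤ) : P.γ (x + ((m * n : ℤ) : ℝ)) = P.γ x := by
  have h := P.γ_add_mul x m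
  rw [← h]
  congr 1
  push_cast
  ring

private theorem repLemma_side (a b : ℝ) (m : ℤ) :
    P.Side (a - ((m * n : ℤ) : ℝ)) (b - ((m * n : ℤ) : ℝ)) = P.Side a b := by
  have h := P.side_shift a b (-m)
  rw [← h]
  congr 1
  · push_cast
    ring
  · push_cast
    ring

private theorem repLemma_side' (a b : ℝ) (m : ℤ) :
    P.Side (a - ((m * n : ℤ) : ℝ)) (b - ((m * n : ℤ) : ℝ) + n) = P.Side a (b + n) := by
  rw [← P.repLemma_side a (b + n) m]
  congr 1
  ring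

private theorem repLemma_NI {x : ℝ} (t : ℤ) (h : NI x) : NI (x - (t : ℝ)) := by
  have := NI_add (-t) h
  push_cast at this
  rwa [← sub_eq_add_neg] at this

theorem rep_sh {M : Set ℂ} {S : Arc} {ω : ℝ} (m : ℤ) (h : P.Rep M S ω) :
    P.Rep M (S.sh (m * n)) ω := by
  refine ⟨?_, ?_⟩
  · intro k hk
    rw [Arc.mem_sh] at hk
    apply h.notin (k - m)
    convert hk using 1
    push_cast
    ring
  · intro s g hs hg hsg hgs hv
    rw [Arc.mem_sh] at hs
    have h1 := h.rep (s - ((m * n : ℤ) : ℝ)) (g - ((m * n : ℤ) : ℝ)) hs (repLemma_NI _ hg)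
      (by linarith) (by linarith) (by rw [P.repLemma_γ_sub, P.repLemma_γ_sub]; exact hv)
    rcases h1 with ⟨h2, k, h3, h4⟩ | ⟨h2, k, h3, h4⟩
    · left
      rw [P.repLemma_side] at h2
      refine ⟨h2, k + m, ?_, ?_⟩
      · push_cast at h3 ⊢
        linarith
      · push_cast at h4 ⊢
        linarith
    · right
      rw [P.repLemma_side'] at h2
      refine ⟨h2, k + m, ?_, ?_⟩
      · push_cast at h3 ⊢
        linarith
      · push_cast at h4 ⊢
        linarith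

theorem good_sh {M : Set ℂ} {S : Arc} {j : ℤ} (m m' : ℤ) (h : P.Good M S j) :
    P.Good M (S.sh (m * n)) (j + m' * n) := by
  intro s g hs hg hsg hgs hv k
  rw [Arc.mem_sh] at hs
  obtain ⟨h1, h2⟩ := h (s - ((m * n : ℤ) : ℝ)) (g - ((m * n : ℤ) : ℝ)) hs (repLemma_NI _ hg)
    (by linarith) (by linarith) (by rw [P.repLemma_γ_sub, P.repLemma_γ_sub]; exact hv) (k + m' - m)
  rw [P.repLemma_side] at h1
  rw [P.repLemma_side'] at h2
  refine ⟨fun h3 h4 => h1 ?_ ?_, fun h3 h4 => h2 ?_ ?_⟩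
  · push_cast at h3 ⊢
    linarith
  · push_cast at h4 ⊢
    linarith
  · push_cast at h3 ⊢
    linarith
  · push_cast at h4 ⊢
    linarith

private theorem repLemma_mem_add {A : Arc} {x : ℝ} (t : ℤ) (h : x ∈ A.s) :
    x + (t : ℝ) ∈ (A.sh t).s := by
  rw [Arc.mem_sh]
  convert h using 1
  ring

private theorem repLemma_NI' {x : ℝ} (t : ℤ) (h : NI x) : NI (x + (t : ℝ)) := NI_add t h

theorem hbase_sh {Ω : Finset ℝ} {S X : Arc} {M : Set ℂ} (m : ℤ) (h : P.HBase Ω S X M) :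
    P.HBase Ω (S.sh (m * n)) (X.sh (m * n)) M := by
  have e1 : ∀ (A : Arc) (t : ℤ), (A.sh t).i = A.i + t := fun A t => rfl
  have e2 : ∀ (A : Arc) (t : ℤ), (A.sh t).a = A.a + t := fun A t => rfl
  have e3 : ∀ (A : Arc) (t : ℤ), (A.sh t).b = A.b + t := fun A t => rfl
  refine ⟨?_, ?_, ?_, ?_, ?_, ?_, ?_, ?_, ?_, ?_, ?_, h.Mne⟩
  · rw [e1, e1]
    have := h.ij
    omega
  · rw [e1, e1]
    have := h.ji
    omega
  · rw [e1, e2, Int.cast_add]
    have := h.Sia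
    linarith
  · rw [e2, e3]
    have := h.Sab
    linarith
  · rw [e1, e3, Int.cast_add]
    have := h.Sbi
    linarith
  · rw [e1, e2, Int.cast_add]
    have := h.Xia
    linarith
  · rw [e2, e3]
    have := h.Xab
    linarith
  · rw [e1, e3, Int.cast_add]
    have := h.Xbi
    linarith
  · obtain ⟨s, hs, x, hx, hv⟩ := h.SX
    exact ⟨_, repLemma_mem_add _ hs, _, repLemma_mem_add _ hx,
      by rw [P.repLemma_γ_add, P.repLemma_γ_add]; exact hv⟩
  · intro x hx hx' hs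
    rw [e1, Int.cast_add] at hx hx'
    obtain ⟨s, hs, hv⟩ := hs
    rw [Arc.mem_sh] at hs ⊢
    refine h.Z _ (by linarith) (by linarith) ⟨_, hs, ?_⟩
    rw [P.repLemma_γ_sub, P.repLemma_γ_sub]
    exact hv
  · obtain ⟨ω, hω, hr⟩ := h.repS
    exact ⟨ω, hω, P.rep_sh m hr⟩

theorem hookL_sh {S X : Arc} {M : Set ℂ} (m : ℤ) (h : P.HookL S X M) :
    P.HookL (S.sh (m * n)) (X.sh (m * n)) M := by
  have e1 : ∀ (A : Arc) (t : ℤ), (A.sh t).i = A.i + t := fun A t => rfl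
  obtain ⟨σ, hσ, g, h1, h2, h3, h4, h5⟩ := h
  refine ⟨_, repLemma_mem_add _ hσ, g + ((m * n : ℤ) : ℝ), ?_, ?_, repLemma_NI' _ h3, ?_, ?_⟩
  · rw [e1, Int.cast_add]
    linarith
  · rw [e1, Int.cast_add]
    linarith
  · rw [P.repLemma_γ_add, P.repLemma_γ_add]
    exact h4
  · have h6 := P.repLemma_side (σ + ((m * n : ℤ) : ℝ)) (g + ((m * n : ℤ) : ℝ)) m
    rw [add_sub_cancel_right, add_sub_cancel_right] at h6
    rw [← h6]
    exact h5

private theorem repLemma_Bp {p : ℂ} {L : ℕ} {S : Arc} (m : ℤ) (h : S.s ⊆ P.Bp p L) :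
    (S.sh (m * n)).s ⊆ P.Bp p L := by
  intro x hx
  rw [Arc.mem_sh] at hx
  have h1 := h hx
  have h2 := (P.Bp_add p L (x - ((m * n : ℤ) : ℝ)) m).2 h1
  have e : x - ((m * n : ℤ) : ℝ) + (m : ℝ) * n = x := by
    push_cast
    ring
  rwa [e] at h2

theorem t2_sh {p : ℂ} {Ω : Finset ℝ} {L : ℕ} {S X Ym : Arc} {M : Set ℂ} (m : ℤ)
    (h : P.T2 p Ω L S X Ym M) : P.T2 p Ω L (S.sh (m * n)) (X.sh (m * n)) Ym M := by
  have e1 : ∀ (A : Arc) (t : ℤ), (A.sh t).i = A.i + t := fun A t => rfl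
  refine ⟨P.repLemma_Bp m h.SB, P.comp_sh m h.Xc, h.Yc, h.Ync, ?_, h.nocorner, ?_, ?_, ?_⟩
  · have h1 := (P.sees_sh (A := Ym) (B := X) (m := 0) (m' := m)).2 h.sees
    rwa [zero_mul, Arc.sh_zero] at h1
  · intro k hk
    rw [e1] at hk
    apply h.ki (m + k)
    rw [hk]
    ring
  · have h1 := P.good_sh m 0 h.good
    rwa [zero_mul, add_zero] at h1
  · obtain ⟨ω, hω, hr⟩ := h.repX
    exact ⟨ω, hω, P.rep_sh m hr⟩

theorem t1a_sh {p : ℂ} {ν : ℤ} {K : ℕ} {S X : Arc} {M : Set ℂ} (m : ℤ)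
    (h : P.T1A p ν K S X M) : P.T1A p ν K (S.sh (m * n)) (X.sh (m * n)) M := by
  refine ⟨P.comp_sh m h.Xc, h.M_eq, ?_⟩
  obtain ⟨x, hx, hv⟩ := h.sees
  exact ⟨_, repLemma_mem_add _ hx, by rw [P.repLemma_γ_add]; exact hv⟩

theorem t1b_sh {p : ℂ} {ω1 ω2 : ℝ} {L : ℕ} {S X : Arc} {M : Set ℂ} (m : ℤ)
    (h : P.T1B p ω1 ω2 L S X M) : P.T1B p ω1 ω2 L (S.sh (m * n)) (X.sh (m * n)) M := by
  refine ⟨h.w, P.repLemma_Bp m h.SB, P.comp_sh m h.Xc, h.Mw, h.Mc, h.MN, ?_, ?_⟩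
  · obtain ⟨z, hz, x, hx, hv⟩ := h.sees
    exact ⟨z, hz, _, repLemma_mem_add _ hx, by rw [P.repLemma_γ_add]; exact hv⟩
  · rintro z hz ⟨x, hx, hv⟩
    rw [Arc.mem_sh] at hx
    exact h.all z hz ⟨_, hx, by rw [P.repLemma_γ_sub]; exact hv⟩

end Poly

end Pool.Agent.Lib_PL
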