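import Pool.Agent.Lib_PL.SideW

/-!
The side lemma (theta curve).  Let `a < b < a + n` and let the open segment `γ a, γ b` be in `I`.

Proof.  `w1 = cw a b`, `w2 = cw b (a+n)` (file `SideW`).  `R` minus the chord is the disjoint union of two relatively open sets `{w2 = 0}` (off the second
curve), `{w1 = 0}` (off the first curve); together with (2) this identifies `Side a b` and
`Side b (a+n)`.  The jump of `w1` across the chord gives `side_local`.
-/

open Set Complex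
open scoped Topology

namespace Pool.Agent.Lib_PL

namespace Poly

variable {n : ℕ} (P : Poly n)

/-- the open set which cuts out `Side a b` -/
private def SideA_O (a b : ℝ) : Set ℂ :=
  {z | z ∉ P.γ '' Icc b (a + n) ∧ z ∉ segment ℝ (P.γ a) (P.γ b) ∧ P.cw b (a + n) z = 0}

/-- the other open set -/
private def SideA_O' (a b : ℝ) : Set ℂ :=
  {z | z ∉ P.γ '' Icc a b ∧ z ∉ segment ℝ (P.γ a) (P.γ b) ∧ P.cw a b z = 0}

private theorem SideA_image_shift (a b : ℝ) : P.γ '' Icc (a + n) (b + n) = P.γ '' Icc a b := by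
  ext z
  constructor
  · rintro ⟨x, hx, rfl⟩
    refine ⟨x - n, ⟨by linarith [hx.1], by linarith [hx.2]⟩, ?_⟩
    rw [← P.γ_add_n (x - n), sub_add_cancel]
  · rintro ⟨x, hx, rfl⟩
    exact ⟨x + n, ⟨by linarith [hx.1], by linarith [hx.2]⟩, P.γ_add_n x⟩

private theorem SideA_cw_shift (a b : ℝ) (z : ℂ) : P.cw (a + n) (b + n) z = P.cw a b z := by
  rw [cw, cw, P.arcAng_shift, P.γ_add_n, P.γ_add_n]

private theorem SideA_O_swap (a b : ℝ) : P.SideA_O b (a + n) = P.SideA_O' a b := by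
  ext z
  simp only [SideA_O, SideA_O', mem_setOf_eq]
  rw [P.SideA_image_shift, P.SideA_cw_shift, P.γ_add_n, segment_symm]

private theorem SideA_Icc_closed (a b : ℝ) : IsClosed (P.γ '' Icc a b) :=
  (isCompact_Icc.image P.γ_cont).isClosed

private theorem SideA_seg_closed (z w : ℂ) : IsClosed (segment ℝ z w) := by
  rw [← convexHull_pair (𝕜 := ℝ) z w]
  exact ((Set.toFinite {z, w}).isCompact_convexHull ℝ).isClosed

private theorem SideA_O'_open {a b : ℝ} (hab : a < b) : IsOpen (P.SideA_O' a b) := by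
  rw [isOpen_iff_mem_nhds]
  rintro z ⟨h1, h2, h3⟩
  have e1 := (P.SideA_Icc_closed a b).isOpen_compl.mem_nhds h1
  have e2 := (SideA_seg_closed (P.γ a) (P.γ b)).isOpen_compl.mem_nhds h2
  have e3 := P.cw_loc hab z h1 (by rwa [segment_symm])
  filter_upwards [e1, e2, e3] with w k1 k2 k3
  exact ⟨k1, k2, by rw [k3, h3]⟩

private theorem SideA_O_open {a b : ℝ} (hba : b < a + n) : IsOpen (P.SideA_O a b) := by
  have h := P.SideA_O'_open hba
  have e : P.SideA_O' b (a + n) = P.SideA_O a b := by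
    ext z
    simp only [SideA_O, SideA_O', mem_setOf_eq]
    rw [P.γ_add_n, segment_symm]
  rwa [e] at h

/-- the boundary is the union of the two arcs -/
private theorem SideA_C {a b : ℝ} {z : ℂ} (h : z ∈ P.C)
    (hz : z ∉ segment ℝ (P.γ a) (P.γ b)) :
    (∃ x ∈ Ioo a b, P.γ x = z) ∨ ∃ x ∈ Ioo b (a + n), P.γ x = z := by
  obtain ⟨x, h1, h2, rfl⟩ := P.mem_C_window a h
  have hxa : x ≠ a := by
    rintro rfl
    exact hz (left_mem_segment ℝ _ _)
  have hxb : x ≠ b := by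
    rintro rfl
    exact hz (right_mem_segment ℝ _ _)
  rcases lt_or_gt_of_ne hxb with h3 | h3
  · exact Or.inl ⟨x, ⟨lt_of_le_of_ne h1 hxa.symm, h3⟩, rfl⟩
  · exact Or.inr ⟨x, ⟨h3, h2⟩, rfl⟩

private theorem SideA_arc_not_seg {a b : ℝ} (hba : b < a + n) (h : P.Vis (P.γ a) (P.γ b)) {x : ℝ}
    (hx : x ∈ Ioo a b) : P.γ x ∉ segment ℝ (P.γ a) (P.γ b) := by
  intro hs
  have hx1 := hx.1
  have hx2 := hx.2
  rcases h.end_of_C hs (P.γ_mem_C x) with e | e
  · have := P.γ_inj' (c := a) e hx1.le (by linarith) le_rfl (by linarith)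
    linarith
  · have := P.γ_inj' (c := a) e hx1.le (by linarith) (by linarith) (by linarith)
    linarith

private theorem SideA_arc_O (hc : P.CCW) {a b : ℝ} (hba : b < a + n)
    (h : P.Vis (P.γ a) (P.γ b)) {x : ℝ} (hx : x ∈ Ioo a b) : P.γ x ∈ P.SideA_O a b := by
  have hx1 := hx.1
  have hx2 := hx.2
  refine ⟨?_, P.SideA_arc_not_seg hba h hx, P.cw_arc1 hc (hx1.trans hx2) hba h hx⟩
  rintro ⟨y, hy, e⟩
  rcases eq_or_lt_of_le hy.2 with k | k
  · rw [k, P.γ_add_n] at e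
    have := P.γ_inj' (c := a) e le_rfl (by linarith) hx1.le (by linarith)
    linarith
  · have := P.γ_inj' (c := a) e (by linarith [hy.1]) k hx1.le (by linarith)
    linarith [hy.1]

private theorem SideA_arc_O' (hc : P.CCW) {a b : ℝ} (hab : a < b)
    (h : P.Vis (P.γ a) (P.γ b)) {x : ℝ} (hx : x ∈ Ioo b (a + n)) : P.γ x ∈ P.SideA_O' a b := by
  rw [← P.SideA_O_swap]
  refine P.SideA_arc_O hc (by linarith) ?_ hx
  rw [P.γ_add_n]
  exact h.symm

private theorem SideA_cover (hc : P.CCW) {a b : ℝ} (hab : a < b) (hba : b < a + n)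
    (h : P.Vis (P.γ a) (P.γ b)) {z : ℂ} (hz : z ∈ P.R) (hz' : z ∉ segment ℝ (P.γ a) (P.γ b)) :
    z ∈ P.SideA_O a b ∨ z ∈ P.SideA_O' a b := by
  rcases hz with hC | hI
  · rcases P.SideA_C hC hz' with ⟨x, hx, rfl⟩ | ⟨x, hx, rfl⟩
    · exact Or.inl (P.SideA_arc_O hc hba h hx)
    · exact Or.inr (P.SideA_arc_O' hc hab h hx)
  · have hn : z ∉ P.C := P.I_disj_C hI
    have hn' : ∀ s : Set ℝ, z ∉ P.γ '' s := by
      rintro s ⟨x, -, rfl⟩
      exact hn (P.γ_mem_C x)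
    rcases P.cw_dich hc hab hba h hI hz' with ⟨h1, -⟩ | ⟨-, h1⟩
    · exact Or.inl ⟨hn' _, hz', h1⟩
    · exact Or.inr ⟨hn' _, hz', h1⟩

private theorem SideA_disj (hc : P.CCW) {a b : ℝ} (hab : a < b) (hba : b < a + n)
    (h : P.Vis (P.γ a) (P.γ b)) {z : ℂ} (hz : z ∈ P.R) (h1 : z ∈ P.SideA_O a b)
    (h2 : z ∈ P.SideA_O' a b) : False := by
  rcases hz with hC | hI
  · rcases P.SideA_C hC h1.2.1 with ⟨x, hx, rfl⟩ | ⟨x, hx, rfl⟩
    · exact h2.1 ⟨x, ⟨hx.1.le, hx.2.le⟩, rfl⟩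
    · exact h1.1 ⟨x, ⟨hx.1.le, hx.2.le⟩, rfl⟩
  · rcases P.cw_dich hc hab hba h hI h1.2.1 with ⟨-, k⟩ | ⟨k, -⟩
    · rw [h2.2.2] at k
      exact zero_ne_one k
    · rw [h1.2.2] at k
      exact zero_ne_one k

private theorem SideA_key (hc : P.CCW) {a b : ℝ} (hab : a < b) (hba : b < a + n)
    (h : P.Vis (P.γ a) (P.γ b)) {K : Set ℂ} (hK : IsPreconnected K)
    (hKR : K ⊆ P.R \ segment ℝ (P.γ a) (P.γ b)) {p : ℂ} (hp : p ∈ K) (hpO : p ∈ P.SideA_O a b) :
    K ⊆ P.SideA_O a b := by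
  intro q hq
  by_contra hqO
  have hcov : K ⊆ P.SideA_O a b ∪ P.SideA_O' a b := fun w hw =>
    P.SideA_cover hc hab hba h (hKR hw).1 (hKR hw).2
  have hq' : q ∈ P.SideA_O' a b := (hcov hq).resolve_left hqO
  obtain ⟨w, hw, hw1, hw2⟩ := hK _ _ (P.SideA_O_open hba) (P.SideA_O'_open hab) hcov ⟨p, hp, hpO⟩
    ⟨q, hq, hq'⟩
  exact P.SideA_disj hc hab hba h (hKR hw).1 hw1 hw2

/-- a point off the line of the chord is off the chord -/
private theorem SideA_off {A B z : ℂ} (h : cr (B - A) (z - A) ≠ 0) : z ∉ segment ℝ A B := by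
  intro hz
  rw [segment_eq_image'] at hz
  obtain ⟨t, -, rfl⟩ := hz
  apply h
  rw [add_sub_cancel_left, cr_smul_right, cr_self, mul_zero]

private theorem SideA_eq (hc : P.CCW) {a b : ℝ} (hab : a < b) (hba : b < a + n)
    (h : P.Vis (P.γ a) (P.γ b)) (z : ℂ) : z ∈ P.Side a b ↔ z ∈ P.R ∧ z ∈ P.SideA_O a b := by
  constructor
  · rintro ⟨x, hx, hz⟩
    have hsub := connectedComponentIn_subset (P.R \ segment ℝ (P.γ a) (P.γ b)) (P.γ x)
    refine ⟨(hsub hz).1, ?_⟩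
    refine P.SideA_key hc hab hba h isPreconnected_connectedComponentIn hsub
      (mem_connectedComponentIn ⟨P.C_sub_R (P.γ_mem_C x), P.SideA_arc_not_seg hba h hx⟩)
      (P.SideA_arc_O hc hba h hx) hz
  · rintro ⟨hR, hO⟩
    rcases hR with hC | hI
    · rcases P.SideA_C hC hO.2.1 with ⟨x, hx, rfl⟩ | ⟨x, hx, rfl⟩
      · exact ⟨x, hx, mem_connectedComponentIn ⟨P.C_sub_R hC, hO.2.1⟩⟩
      · exact absurd ⟨x, ⟨hx.1.le, hx.2.le⟩, rfl⟩ hO.1
    · -- shoot a ray away from the chord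
      have hne : P.γ b - P.γ a ≠ 0 := sub_ne_zero.2 h.ne.symm
      set u := P.γ b - P.γ a with hu
      have hnu : 0 < ‖u‖ := norm_pos_iff.2 hne
      have hcrI : cr u (Complex.I * u) = ‖u‖ ^ 2 := by
        rw [← Complex.normSq_eq_norm_sq, Complex.normSq_apply]
        simp [cr]
      obtain ⟨σ, hσ, hσ'⟩ : ∃ σ : ℝ, σ ≠ 0 ∧ ∀ t : ℝ, 0 < t →
          cr u (z - P.γ a) + t * (σ * ‖u‖ ^ 2) ≠ 0 := by
        rcases le_or_gt 0 (cr u (z - P.γ a)) with k | k
        · refine ⟨1, one_ne_zero, fun t ht => ?_⟩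
          have : 0 < t * (1 * ‖u‖ ^ 2) := by positivity
          linarith
        · refine ⟨-1, by norm_num, fun t ht => ?_⟩
          have : 0 < t * (1 * ‖u‖ ^ 2) := by positivity
          linarith
      have hd : (σ : ℂ) * (Complex.I * u) ≠ 0 :=
        mul_ne_zero (by exact_mod_cast hσ) (mul_ne_zero Complex.I_ne_zero hne)
      obtain ⟨t, ht, htC, htI⟩ := P.ray_hit z hI _ hd
      set d := (σ : ℂ) * (Complex.I * u) with hdd
      have hoff : ∀ s : ℝ, 0 < s → z + (s : ℂ) * d ∉ segment ℝ (P.γ a) (P.γ b) := by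
        intro s hs
        apply SideA_off
        rw [← hu]
        have e : z + (s : ℂ) * d - P.γ a = (z - P.γ a) + (s : ℂ) * d := by ring
        rw [e, cr_add_right, cr_mul_right, hdd, cr_mul_right, hcrI]
        exact hσ' s hs
      set K := segment ℝ z (z + (t : ℂ) * d) with hK
      have hKR : K ⊆ P.R \ segment ℝ (P.γ a) (P.γ b) := by
        intro w hw
        rw [hK, segment_eq_image'] at hw
        obtain ⟨s, hs, rfl⟩ := hw
        have e : z + s • (z + (t : ℂ) * d - z) = z + ((s * t : ℝ) : ℂ) * d := by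
          rw [add_sub_cancel_left, Complex.real_smul]
          push_cast
          ring
        simp only
        rw [e]
        rcases eq_or_lt_of_le hs.1 with h0 | h0
        · rw [← h0]
          simp only [zero_mul, Complex.ofReal_zero, add_zero]
          exact ⟨P.I_sub_R hI, hO.2.1⟩
        · refine ⟨?_, hoff _ (by positivity)⟩
          rcases eq_or_lt_of_le hs.2 with h1 | h1
          · rw [h1, one_mul]
            exact P.C_sub_R htC
          · exact P.I_sub_R (htI _ (by positivity) (by nlinarith))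
      have hKc : IsPreconnected K := (convex_segment _ _).isPreconnected
      have hKO := P.SideA_key hc hab hba h hKc hKR (left_mem_segment ℝ _ _) hO
      have hp := hKO (right_mem_segment ℝ _ _)
      have hpR := hKR (right_mem_segment ℝ _ _)
      rcases P.SideA_C htC hpR.2 with ⟨x, hx, e⟩ | ⟨x, hx, e⟩
      · refine ⟨x, hx, ?_⟩
        rw [e]
        exact hKc.subset_connectedComponentIn (right_mem_segment ℝ _ _) hKR
          (left_mem_segment ℝ _ _)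
      · exact absurd ⟨x, ⟨hx.1.le, hx.2.le⟩, e⟩ hp.1

private theorem SideA_eq' (hc : P.CCW) {a b : ℝ} (hab : a < b) (hba : b < a + n)
    (h : P.Vis (P.γ a) (P.γ b)) (z : ℂ) :
    z ∈ P.Side b (a + n) ↔ z ∈ P.R ∧ z ∈ P.SideA_O' a b := by
  rw [← P.SideA_O_swap]
  refine P.SideA_eq hc hba (by linarith) ?_ z
  rw [P.γ_add_n]
  exact h.symm

theorem side_shift (a b : ℝ) (m : ℤ) : P.Side (a + m * n) (b + m * n) = P.Side a b := by
  ext z
  simp only [Side, mem_setOf_eq]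
  rw [P.γ_add_mul, P.γ_add_mul]
  constructor
  · rintro ⟨x, hx, hz⟩
    refine ⟨x - m * n, ⟨by linarith [hx.1], by linarith [hx.2]⟩, ?_⟩
    rw [← P.γ_add_mul (x - m * n) m, sub_add_cancel]
    exact hz
  · rintro ⟨x, hx, hz⟩
    refine ⟨x + m * n, ⟨by linarith [hx.1], by linarith [hx.2]⟩, ?_⟩
    rw [P.γ_add_mul]
    exact hz

theorem side_sub {a b : ℝ} {z : ℂ} (h : z ∈ P.Side a b) :
    z ∈ P.R ∧ z ∉ segment ℝ (P.γ a) (P.γ b) := by
  obtain ⟨x, hx, hz⟩ := h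
  exact connectedComponentIn_subset (P.R \ segment ℝ (P.γ a) (P.γ b)) (P.γ x) hz

theorem side_arc {a b : ℝ} (hba : b < a + n) (h : P.Vis (P.γ a) (P.γ b)) {x : ℝ}
    (hx : x ∈ Ioo a b) : P.γ x ∈ P.Side a b :=
  ⟨x, hx, mem_connectedComponentIn ⟨P.C_sub_R (P.γ_mem_C x), P.SideA_arc_not_seg hba h hx⟩⟩

theorem side_disj (hc : P.CCW) {a b : ℝ} (hab : a < b) (hba : b < a + n)
    (h : P.Vis (P.γ a) (P.γ b)) : Disjoint (P.Side a b) (P.Side b (a + n)) := by
  rw [Set.disjoint_left]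
  intro z h1 h2
  rw [P.SideA_eq hc hab hba h] at h1
  rw [P.SideA_eq' hc hab hba h] at h2
  exact P.SideA_disj hc hab hba h h1.1 h1.2 h2.2

theorem side_union (hc : P.CCW) {a b : ℝ} (hab : a < b) (hba : b < a + n)
    (h : P.Vis (P.γ a) (P.γ b)) {z : ℂ} (hz : z ∈ P.R) (hz' : z ∉ segment ℝ (P.γ a) (P.γ b)) :
    z ∈ P.Side a b ∨ z ∈ P.Side b (a + n) := by
  rw [P.SideA_eq hc hab hba h, P.SideA_eq' hc hab hba h]
  exact (P.SideA_cover hc hab hba h hz hz').imp (fun k => ⟨hz, k⟩) (fun k => ⟨hz, k⟩)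

theorem side_open (hc : P.CCW) {a b : ℝ} (hab : a < b) (hba : b < a + n)
    (h : P.Vis (P.γ a) (P.γ b)) {z : ℂ} (hz : z ∈ P.Side a b) :
    ∃ ρ > 0, ∀ z' ∈ P.R, ‖z' - z‖ < ρ → z' ∈ P.Side a b := by
  rw [P.SideA_eq hc hab hba h] at hz
  obtain ⟨ρ, hρ, hb⟩ := Metric.isOpen_iff.1 (P.SideA_O_open hba) z hz.2
  refine ⟨ρ, hρ, fun z' hz' hd => ?_⟩
  rw [P.SideA_eq hc hab hba h]
  exact ⟨hz', hb (by rwa [Metric.mem_ball, dist_eq_norm])⟩

/-- `Side a b` is on the right of the chord directed from `γ a` to `γ b` -/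
theorem side_local (hc : P.CCW) {a b : ℝ} (hab : a < b) (hba : b < a + n)
    (h : P.Vis (P.γ a) (P.γ b)) {c : ℂ} (hcc : c ∈ openSegment ℝ (P.γ a) (P.γ b)) :
    ∃ ρ > 0, ∀ d : ℂ, ‖d‖ < ρ → (cr (P.γ b - P.γ a) d < 0 → c + d ∈ P.Side a b) ∧
      (0 < cr (P.γ b - P.γ a) d → c + d ∈ P.Side b (a + n)) := by
  have hcI : c ∈ P.I := h.mem hcc
  have hcC : c ∉ P.C := P.I_disj_C hcI
  obtain ⟨ρ1, hρ1, hb⟩ := Metric.isOpen_iff.1 P.I_open c hcI
  obtain ⟨ρ2, hρ2, hj⟩ := P.cw_jump hab c hcc h.ne (by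
    rintro ⟨x, -, rfl⟩
    exact hcC (P.γ_mem_C x))
  have hI : ∀ d : ℂ, ‖d‖ < ρ1 → c + d ∈ P.I := by
    intro d hd
    apply hb
    rwa [Metric.mem_ball, dist_eq_norm, add_sub_cancel_left]
  have hoff : ∀ d : ℂ, cr (P.γ b - P.γ a) d ≠ 0 → c + d ∉ segment ℝ (P.γ a) (P.γ b) := by
    intro d hd
    apply SideA_off
    have hcs : cr (P.γ b - P.γ a) (c - P.γ a) = 0 := by
      rw [openSegment_eq_image'] at hcc
      obtain ⟨t, -, rfl⟩ := hcc
      rw [add_sub_cancel_left, cr_smul_right, cr_self, mul_zero]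
    have e : c + d - P.γ a = (c - P.γ a) + d := by ring
    rwa [e, cr_add_right, hcs, zero_add]
  have hn' : ∀ w ∈ P.I, ∀ s : Set ℝ, w ∉ P.γ '' s := by
    rintro w hw s ⟨x, -, rfl⟩
    exact P.I_disj_C hw (P.γ_mem_C x)
  refine ⟨min ρ1 ρ2, lt_min hρ1 hρ2, fun d hd => ?_⟩
  have hd1 : ‖d‖ < ρ1 := hd.trans_le (min_le_left _ _)
  have hd2 : ‖d‖ < ρ2 := hd.trans_le (min_le_right _ _)
  have hd1' : ‖-d‖ < ρ1 := by rwa [norm_neg]
  have hd2' : ‖-d‖ < ρ2 := by rwa [norm_neg]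
  constructor
  · intro hcr
    have hcr' : 0 < cr (P.γ b - P.γ a) (-d) := by rw [cr_neg_right]; linarith
    have hjj := hj (-d) d hd2' hd2 hcr' hcr
    have k1 := P.cw_dich hc hab hba h (hI d hd1) (hoff d hcr.ne)
    have k2 := P.cw_dich hc hab hba h (hI (-d) hd1') (hoff (-d) hcr'.ne')
    rw [P.SideA_eq hc hab hba h]
    refine ⟨P.I_sub_R (hI d hd1), hn' _ (hI d hd1) _, hoff d hcr.ne, ?_⟩
    rcases k1 with k1 | k1
    · exact k1.1
    · rw [k1.2] at hjj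
      rcases k2 with k2 | k2 <;> rw [k2.2] at hjj <;> norm_num at hjj
  · intro hcr
    have hcr' : cr (P.γ b - P.γ a) (-d) < 0 := by rw [cr_neg_right]; linarith
    have hjj := hj d (-d) hd2 hd2' hcr hcr'
    have k1 := P.cw_dich hc hab hba h (hI d hd1) (hoff d hcr.ne')
    have k2 := P.cw_dich hc hab hba h (hI (-d) hd1') (hoff (-d) hcr'.ne)
    rw [P.SideA_eq' hc hab hba h]
    refine ⟨P.I_sub_R (hI d hd1), hn' _ (hI d hd1) _, hoff d hcr.ne', ?_⟩
    rcases k1 with k1 | k1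
    · rw [k1.2] at hjj
      rcases k2 with k2 | k2 <;> rw [k2.2] at hjj <;> norm_num at hjj
    · exact k1.2

end Poly

end Pool.Agent.Lib_PL
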