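import Pool.Agent.Lib_PL.Ray

/-!
Basic visibility lemmas.
-/

open Set Complex
open scoped Topology

namespace Pool.Agent.Lib_PL

/-- a small positive multiple -/
private theorem Vis1_small (v : ℂ) {ρ : ℝ} (hρ : 0 < ρ) :
    ∃ t : ℝ, 0 < t ∧ t < 1 ∧ ‖(t : ℂ) * v‖ < ρ := by
  have hv : 0 < ‖v‖ + 1 := by positivity
  refine ⟨min (1 / 2) (ρ / (2 * (‖v‖ + 1))), lt_min (by norm_num) (by positivity),
    lt_of_le_of_lt (min_le_left _ _) (by norm_num), ?_⟩
  have ht0 : 0 < min (1 / 2) (ρ / (2 * (‖v‖ + 1))) := lt_min (by norm_num) (by positivity)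
  rw [norm_mul, Complex.norm_real, Real.norm_of_nonneg ht0.le]
  have h1 : min (1 / 2) (ρ / (2 * (‖v‖ + 1))) * ‖v‖ ≤ ρ / (2 * (‖v‖ + 1)) * ‖v‖ :=
    mul_le_mul_of_nonneg_right (min_le_right _ _) (norm_nonneg v)
  refine lt_of_le_of_lt h1 ?_
  rw [div_mul_eq_mul_div, div_lt_iff₀ (by positivity)]
  nlinarith [norm_nonneg v]

private theorem Vis1_mem_open (z w : ℂ) {t : ℝ} (h0 : 0 < t) (h1 : t < 1) :
    z + (t : ℂ) * (w - z) ∈ openSegment ℝ z w := by
  rw [openSegment_eq_image']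
  exact ⟨t, ⟨h0, h1⟩, by simp only [Complex.real_smul]⟩

namespace Poly

variable {n : ℕ} (P : Poly n)

theorem Vis.symm {P : Poly n} {z w : ℂ} (h : P.Vis z w) : P.Vis w z := by
  unfold Poly.Vis at h ⊢
  rwa [openSegment_symm]

theorem Vis.ne {P : Poly n} {a : ℝ} {w : ℂ} (h : P.Vis (P.γ a) w) : P.γ a ≠ w := by
  rintro rfl
  have h1 : P.γ a ∈ P.I := h (by rw [openSegment_same]; exact rfl)
  exact P.I_disj_C h1 (P.γ_mem_C a)

theorem Vis.seg {P : Poly n} {z w : ℂ} (h : P.Vis z w) : segment ℝ z w ⊆ P.R :=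
  (segment_subset_closure_openSegment.trans (closure_mono h)).trans P.closure_I_sub_R

/-- sub-segments of a free segment are free -/
theorem Vis.sub {P : Poly n} {z w z' w' : ℂ} (h : P.Vis z w) (hz : z' ∈ segment ℝ z w)
    (hw : w' ∈ segment ℝ z w) (hne : z' ≠ w') : P.Vis z' w' := by
  intro c hc
  apply h
  rw [segment_eq_image'] at hz hw
  obtain ⟨s, ⟨hs0, hs1⟩, rfl⟩ := hz
  obtain ⟨t, ⟨ht0, ht1⟩, rfl⟩ := hw
  rw [openSegment_eq_image'] at hc ⊢
  obtain ⟨u, ⟨hu0, hu1⟩, rfl⟩ := hc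
  have hst : s ≠ t := by
    rintro rfl
    exact hne rfl
  refine ⟨s + u * (t - s), ⟨?_, ?_⟩, ?_⟩
  · rcases lt_or_gt_of_ne hst with h1 | h1
    · have : 0 < u * (t - s) := mul_pos hu0 (by linarith)
      linarith
    · nlinarith
  · rcases lt_or_gt_of_ne hst with h1 | h1
    · nlinarith
    · have : 0 < u * (s - t) := mul_pos hu0 (by linarith)
      nlinarith
  · simp only [Complex.real_smul]
    push_cast
    ring

/-- interior points of a free segment are interior points of the polygon -/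
theorem Vis.mem {P : Poly n} {z w c : ℂ} (h : P.Vis z w) (hc : c ∈ openSegment ℝ z w) : c ∈ P.I :=
  h hc

/-- a boundary point of a free segment is one of its ends -/
theorem Vis.end_of_C {P : Poly n} {z w c : ℂ} (h : P.Vis z w) (hc : c ∈ segment ℝ z w)
    (hC : c ∈ P.C) : c = z ∨ c = w := by
  by_contra hne
  push Not at hne
  have h1 : c ∈ openSegment ℝ z w :=
    mem_openSegment_of_ne_left_right (Ne.symm hne.1) (Ne.symm hne.2) hc
  exact P.I_disj_C (h h1) hC

theorem not_vis_edge (i : ℤ) {x y : ℝ} (hx : (i : ℝ) ≤ x) (hx' : x ≤ i + 1) (hy : (i : ℝ) ≤ y)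
    (hy' : y ≤ i + 1) : ¬ P.Vis (P.γ x) (P.γ y) := by
  have key : ∀ {x y : ℝ}, (i : ℝ) ≤ x → y ≤ i + 1 → x < y → ¬ P.Vis (P.γ x) (P.γ y) := by
    intro x y hx hy' hxy h
    have h1 : P.γ ((x + y) / 2) ∈ openSegment ℝ (P.γ x) (P.γ y) := by
      rw [P.openSegment_γ hx hy' hxy]
      exact ⟨(x + y) / 2, ⟨by linarith, by linarith⟩, rfl⟩
    exact P.I_disj_C (h h1) (P.γ_mem_C _)
  rcases lt_trichotomy x y with h | h | h
  · exact key hx hy' h
  · intro hv
    exact hv.ne (by rw [h])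
  · intro hv
    exact key hy hx' h hv.symm

theorem Vis.sector {P : Poly n} (hc : P.CCW) {x : ℝ} {z : ℂ} (h : P.Vis (P.γ x) z) :
    InSector (P.ep x) (P.em x) (z - P.γ x) := by
  obtain ⟨ρ, hρ, hs⟩ := P.sector hc x
  obtain ⟨t, ht0, ht1, htn⟩ := Vis1_small (z - P.γ x) hρ
  rw [← InSector_smul ht0, ← (hs _ htn).1]
  exact h (Vis1_mem_open _ _ ht0 ht1)

theorem Vis.left {P : Poly n} (hc : P.CCW) {x : ℝ} {z : ℂ} (hx : NI x) (h : P.Vis (P.γ x) z) :
    0 < cr (P.ed x) (z - P.γ x) :=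
  (P.InSector_NI hx _).1 (h.sector hc)

/-- version with explicit edge index -/
theorem Vis.left' {P : Poly n} (hc : P.CCW) {i : ℤ} {x : ℝ} {z : ℂ} (hx : (i : ℝ) < x)
    (hx' : x < i + 1) (h : P.Vis (P.γ x) z) : 0 < cr (P.V (i + 1) - P.V i) (z - P.γ x) := by
  obtain ⟨h1, h2⟩ := NI_of_Ioo hx hx'
  have h3 := h.left hc h1
  unfold ed at h3
  rwa [h2] at h3

/-- a segment in `R` starting at `γ x` is in the closed sector: its direction is not in the exterior
sector -/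
theorem seg_sector (hc : P.CCW) {x : ℝ} {z : ℂ} (h : segment ℝ (P.γ x) z ⊆ P.R) :
    ¬ InSector (P.em x) (P.ep x) (z - P.γ x) := by
  obtain ⟨ρ, hρ, hs⟩ := P.sector hc x
  obtain ⟨t, ht0, ht1, htn⟩ := Vis1_small (z - P.γ x) hρ
  rw [← InSector_smul ht0, ← (hs _ htn).2.2, not_not]
  exact h (openSegment_subset_segment ℝ _ _ (Vis1_mem_open _ _ ht0 ht1))

/-- a segment in `R` through a vertex (or any boundary point): neither direction is exterior -/
theorem seg_sector' (hc : P.CCW) {x : ℝ} {z w : ℂ} (h : segment ℝ z w ⊆ P.R)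
    (hx : P.γ x ∈ openSegment ℝ z w) :
    ¬ InSector (P.em x) (P.ep x) (z - w) ∧ ¬ InSector (P.em x) (P.ep x) (w - z) := by
  have hx1 : P.γ x ∈ segment ℝ z w := openSegment_subset_segment ℝ _ _ hx
  rw [openSegment_eq_image'] at hx
  obtain ⟨t, ⟨ht0, ht1⟩, ht⟩ := hx
  have ht' : P.γ x = z + (t : ℂ) * (w - z) := by
    rw [← ht]
    simp only [Complex.real_smul]
  constructor
  · have h1 : segment ℝ (P.γ x) z ⊆ P.R :=
      ((convex_segment z w).segment_subset hx1 (left_mem_segment ℝ z w)).trans h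
    have h2 := P.seg_sector hc h1
    have h3 : z - P.γ x = (t : ℂ) * (z - w) := by rw [ht']; ring
    rwa [h3, InSector_smul ht0] at h2
  · have h1 : segment ℝ (P.γ x) w ⊆ P.R :=
      ((convex_segment z w).segment_subset hx1 (right_mem_segment ℝ z w)).trans h
    have h2 := P.seg_sector hc h1
    have h3 : w - P.γ x = ((1 - t : ℝ) : ℂ) * (w - z) := by rw [ht']; push_cast; ring
    rwa [h3, InSector_smul (by linarith)] at h2

end Poly

end Pool.Agent.Lib_PL
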