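import Pool.Agent.Lib_PL.Ray
import Pool.Agent.Lib_PL.Vis1

/-!
The two partial winding numbers of a chord.  `w1 = cw a b`, `w2 = cw b (a+n)`; `w1 + w2 = wind` off
`C` and the chord (`cw_add`).
(1) `w2 = 0` on the open arc `(a,b)`: `w2` is locally constant there, and arbitrarily close to `γ x` there are
exterior points (`ext_near`), where `w2 = 0` because `Rᶜ` is connected (`ext_connected`), unbounded and misses
the second curve.  In the same way `w1 = 0` on the arc `(b,a+n)`.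
(2) for `z ∈ I` not on the chord shoot a ray from `z` which misses the chord (`ray_hit`); it ends at a point of
one of the two open arcs, so `w2 z = 0` or `w1 z = 0`; the sum is `1`.
-/

open Set Complex
open scoped Topology

namespace Pool.Agent.Lib_PL

namespace Poly

variable {n : ℕ} (P : Poly n)

private theorem SideW_path {a b : ℝ} (hab : a < b) {S : Set ℂ} (hS : IsPreconnected S)
    (h1 : ∀ z ∈ S, z ∉ P.γ '' Icc a b) (h2 : ∀ z ∈ S, z ∉ segment ℝ (P.γ b) (P.γ a)) {z w : ℂ}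
    (hz : z ∈ S) (hw : w ∈ S) : P.cw a b z = P.cw a b w := by
  refine hS.induction₂' (fun u v => P.cw a b u = P.cw a b v) ?_ ?_ hz hw
  · intro x hx
    have h := P.cw_loc hab x (h1 x hx) (h2 x hx)
    filter_upwards [mem_nhdsWithin_of_mem_nhds h] with y hy
    exact ⟨hy.symm, hy⟩
  · intro x y z _ _ _ h1 h2
    exact h1.trans h2

private theorem SideW_ext {a b : ℝ} (hab : a < b) (hs : segment ℝ (P.γ b) (P.γ a) ⊆ P.R)
    {z : ℂ} (hz : z ∉ P.R) : P.cw a b z = 0 := by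
  obtain ⟨r, hr⟩ := P.cw_far hab
  obtain ⟨r', hr'⟩ := (Metric.isBounded_iff_subset_closedBall (0 : ℂ)).1 P.R_bounded
  set w : ℂ := ((|r| + |r'| + 1 : ℝ) : ℂ) with hw
  have hwn : ‖w‖ = |r| + |r'| + 1 := by
    rw [hw, Complex.norm_real, Real.norm_of_nonneg (by positivity)]
  have hwR : w ∈ P.Rᶜ := by
    intro h
    have h1 := hr' h
    rw [mem_closedBall_zero_iff, hwn] at h1
    have := le_abs_self r'
    have := abs_nonneg r
    linarith
  have hrw : r < ‖w‖ := by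
    rw [hwn]
    have := le_abs_self r
    have := abs_nonneg r'
    linarith
  rw [← hr w hrw]
  refine P.SideW_path hab P.ext_connected ?_ ?_ hz hwR
  · rintro x hx ⟨t, -, rfl⟩
    exact hx (P.C_sub_R (P.γ_mem_C t))
  · intro x hx h
    exact hx (hs h)

private theorem SideW_arc {a b : ℝ} (hab : a < b) (hs : segment ℝ (P.γ b) (P.γ a) ⊆ P.R)
    {x : ℝ} (hx : P.γ x ∉ P.γ '' Icc a b) (hx' : P.γ x ∉ segment ℝ (P.γ b) (P.γ a)) :
    P.cw a b (P.γ x) = 0 := by
  obtain ⟨ρ, hρ, h⟩ := Metric.eventually_nhds_iff.1 (P.cw_loc hab (P.γ x) hx hx')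
  obtain ⟨z, hz, hzn⟩ := P.ext_near x hρ
  rw [← h (by rw [dist_eq_norm]; exact hzn)]
  exact P.SideW_ext hab hs hz

private theorem SideW_not1 {a b x : ℝ} (hab : a < b) (hba : b < a + n) (hx : x ∈ Ioo a b) :
    P.γ x ∉ P.γ '' Icc b (a + n) := by
  rintro ⟨y, ⟨hy1, hy2⟩, hy⟩
  rcases hy2.lt_or_eq with h | h
  · have := P.γ_inj' (c := a) hy (by linarith) h (by linarith [hx.1]) (by linarith [hx.2])
    linarith [hx.2]
  · rw [h, P.γ_add_n] at hy
    have := P.γ_inj' (c := a) hy le_rfl (by linarith) (by linarith [hx.1]) (by linarith [hx.2])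
    linarith [hx.1]

private theorem SideW_not2 {a b x : ℝ} (hab : a < b) (hx : x ∈ Ioo b (a + n)) :
    P.γ x ∉ P.γ '' Icc a b := by
  rintro ⟨y, ⟨hy1, hy2⟩, hy⟩
  have := P.γ_inj' (c := a) hy hy1 (by linarith [hx.1, hx.2]) (by linarith [hx.1]) hx.2
  linarith [hx.1]

private theorem SideW_chord {a b x : ℝ} (hab : a < b) (hba : b < a + n)
    (h : P.Vis (P.γ a) (P.γ b)) (hx : a < x) (hx' : x < a + n) (hne : x ≠ b) :
    P.γ x ∉ segment ℝ (P.γ a) (P.γ b) := by
  intro hm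
  rcases h.end_of_C hm (P.γ_mem_C x) with h1 | h1
  · have := P.γ_inj' (c := a) h1 hx.le hx' le_rfl (by linarith)
    linarith
  · exact hne (P.γ_inj' (c := a) h1 hx.le hx' hab.le hba)

theorem cw_arc1 (hc : P.CCW) {a b : ℝ} (hab : a < b) (hba : b < a + n)
    (h : P.Vis (P.γ a) (P.γ b)) {x : ℝ} (hx : x ∈ Ioo a b) : P.cw b (a + n) (P.γ x) = 0 := by
  have e : P.γ (a + n) = P.γ a := P.γ_add_n a
  have hs : segment ℝ (P.γ (a + n)) (P.γ b) ⊆ P.R := by rw [e]; exact h.seg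
  refine P.SideW_arc hba hs (P.SideW_not1 hab hba hx) ?_
  rw [e]
  exact P.SideW_chord hab hba h hx.1 (hx.2.trans hba) hx.2.ne

theorem cw_arc2 (hc : P.CCW) {a b : ℝ} (hab : a < b) (hba : b < a + n)
    (h : P.Vis (P.γ a) (P.γ b)) {x : ℝ} (hx : x ∈ Ioo b (a + n)) : P.cw a b (P.γ x) = 0 := by
  have hs : segment ℝ (P.γ b) (P.γ a) ⊆ P.R := by rw [segment_symm]; exact h.seg
  refine P.SideW_arc hab hs (P.SideW_not2 hab hx) ?_
  rw [segment_symm]
  exact P.SideW_chord hab hba h (hab.trans hx.1) hx.2 hx.1.ne'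

theorem cw_dich (hc : P.CCW) {a b : ℝ} (hab : a < b) (hba : b < a + n)
    (h : P.Vis (P.γ a) (P.γ b)) {z : ℂ} (hz : z ∈ P.I) (hz' : z ∉ segment ℝ (P.γ a) (P.γ b)) :
    (P.cw b (a + n) z = 0 ∧ P.cw a b z = 1) ∨ (P.cw b (a + n) z = 1 ∧ P.cw a b z = 0) := by
  have e : P.γ (a + n) = P.γ a := P.γ_add_n a
  have hd : z - P.γ a ≠ 0 := by
    intro h0
    exact hz' (by rw [sub_eq_zero.1 h0]; exact left_mem_segment ℝ _ _)
  obtain ⟨t, ht, htC, hI⟩ := P.ray_hit z hz (z - P.γ a) hd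
  -- the ray misses the chord
  have hmiss : ∀ s : ℝ, 0 ≤ s → z + (s : ℂ) * (z - P.γ a) ∉ segment ℝ (P.γ a) (P.γ b) := by
    intro s hs hmem
    apply hz'
    refine (convex_segment (P.γ a) (P.γ b)).segment_subset (left_mem_segment ℝ _ _) hmem ?_
    have h1 : (0 : ℝ) < 1 + s := by linarith
    refine ⟨s / (1 + s), 1 / (1 + s), by positivity, by positivity, by field_simp; ring, ?_⟩
    have hc : ((1 + s : ℝ) : ℂ) ≠ 0 := by exact_mod_cast h1.ne'
    rw [Complex.real_smul, Complex.real_smul]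
    push_cast at hc ⊢
    field_simp
    ring
  set S : Set ℂ := (fun s : ℝ => z + (s : ℂ) * (z - P.γ a)) '' Icc 0 t with hSdef
  have hS : IsPreconnected S := isPreconnected_Icc.image _ (by fun_prop)
  have hzS : z ∈ S := ⟨0, ⟨le_rfl, ht.le⟩, by simp⟩
  have hcS : z + (t : ℂ) * (z - P.γ a) ∈ S := ⟨t, ⟨ht.le, le_rfl⟩, rfl⟩
  have hSm : ∀ w ∈ S, w ∉ segment ℝ (P.γ a) (P.γ b) := by
    rintro _ ⟨s, hs, rfl⟩
    exact hmiss s hs.1
  obtain ⟨x, hx1, hx2, hx⟩ := P.mem_C_window a htC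
  have hS2 : ∀ w ∈ S, w ∉ P.C ∨ w = P.γ x := by
    rintro _ ⟨s, hs, rfl⟩
    rcases hs.2.lt_or_eq with h1 | h1
    · exact Or.inl (P.I_disj_C (hI s hs.1 h1))
    · right
      rw [hx, h1]
  have hcm := hmiss t ht.le
  rw [← hx] at hcm hcS
  have hxa : a < x := by
    rcases hx1.lt_or_eq with h1 | h1
    · exact h1
    · exact absurd (by rw [← h1]; exact left_mem_segment ℝ _ _) hcm
  have hxb : x ≠ b := by
    rintro rfl
    exact hcm (right_mem_segment ℝ _ _)
  have hadd := P.cw_add hab hba z (P.I_disj_C hz) hz'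
  rw [hc z hz] at hadd
  rcases lt_or_gt_of_ne hxb with h1 | h1
  · left
    have h2 : P.cw b (a + n) z = 0 := by
      rw [P.SideW_path hba hS ?_ ?_ hzS hcS]
      · exact P.cw_arc1 hc hab hba h ⟨hxa, h1⟩
      · intro w hw hw'
        rcases hS2 w hw with h3 | h3
        · obtain ⟨y, -, rfl⟩ := hw'
          exact h3 (P.γ_mem_C y)
        · rw [h3] at hw'
          exact P.SideW_not1 hab hba ⟨hxa, h1⟩ hw'
      · rw [e]
        exact hSm
    exact ⟨h2, by linarith⟩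
  · right
    have h2 : P.cw a b z = 0 := by
      rw [P.SideW_path hab hS ?_ ?_ hzS hcS]
      · exact P.cw_arc2 hc hab hba h ⟨h1, hx2⟩
      · intro w hw hw'
        rcases hS2 w hw with h3 | h3
        · obtain ⟨y, -, rfl⟩ := hw'
          exact h3 (P.γ_mem_C y)
        · rw [h3] at hw'
          exact P.SideW_not2 hab ⟨h1, hx2⟩ hw'
      · rw [segment_symm]
        exact hSm
    exact ⟨by linarith, h2⟩

end Poly

end Pool.Agent.Lib_PL
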