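import Pool.Agent.Lib_PL.PreP1
import Pool.Agent.Lib_PL.Squeeze

/-!
`s0` is strictly left of edge `j`.

`0 ≤ cr` by the limit.  If `cr = 0` the point `s0` is on the line of edge `j`.
(1) `γ s0` is behind vertex `j`: the triangle `γ y, γ s, γ s0` (chord `s y` from `approx`; its side `γ y, γ s0` is
contained in the edge and `LR`) is free, so points of edge `j` slightly before `D` see `γ s`; contradiction
with `Dinf`.
(2) `γ s0` is beyond vertex `j+1`: take `y_m → D` from below, `s_m → s0` from above.  By `Dinf` there is `c_m ∈ C`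
on the open segment `γ (y_m), γ (s_m)` (`enter`, `block`), `c_m = γ (t_m)`, limit `c = γ t` on the closed segment
`γ D, γ s0`; `c_m` is strictly left of the line.  If `c` is in the open segment, then `c` is strictly right of
all chords of `approx` (directed from `y` to `s`), contradiction with `squeeze_right`.  If `c = γ D`: `c_m` would be
on the line of edge `j`.  If `c = γ s0`: `c_m` would be on the line of edge `i` (impossible, the open segment
meets this line only at `γ (s_m)`), or `s0 = i` and `c_m` on edge `i - 1`: then the direction of edge `i - 1` at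
vertex `i` is strictly inside the cone spanned by the direction to `D` and the direction of edge `i`, so the
direction to `D` is exterior (`seg_sector`), contradiction with `LR`.
-/

open Set Complex
open scoped Topology

namespace Pool.Agent.Lib_PL

namespace Poly

variable {n : ℕ} (P : Poly n)

private theorem transE_ej {i j : ℤ} {α β D s0 : ℝ} (h : P.PreP i j α β D s0) (y : ℝ)
    (hy : (j : ℝ) ≤ y) (hy' : y ≤ j + 1) :
    P.γ y = P.γ D + ((y - D : ℝ) : ℂ) * (P.V (j + 1) - P.V j) := by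
  have := P.γ_sub j D y h.jD.le h.Dj.le hy hy'
  rw [← this]; ring

private theorem transE_ei {i j : ℤ} {α β D s0 : ℝ} (h : P.PreP i j α β D s0) (s : ℝ)
    (hs : (i : ℝ) ≤ s) (hs' : s ≤ i + 1) :
    P.γ s = P.γ s0 + ((s - s0 : ℝ) : ℂ) * (P.V (i + 1) - P.V i) := by
  have := P.γ_sub i s0 s (h.iα.trans h.αs) (h.sβ.le.trans h.βi) hs hs'
  rw [← this]; ring

/-- the start of the proof: the limit of the approximating chords -/
private theorem transE_start (hc : P.CCW) {i j : ℤ} {α β D s0 : ℝ} (h : P.PreP i j α β D s0)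
    (hn : ¬ 0 < cr (P.V (j + 1) - P.V j) (P.γ s0 - P.γ D)) :
    0 < cr (P.V (j + 1) - P.V j) (P.V (i + 1) - P.V i) ∧
      ∃ t : ℝ, t ≠ 0 ∧ P.γ s0 - P.γ D = (t : ℂ) * (P.V (j + 1) - P.V j) := by
  set E : ℂ := P.V (j + 1) - P.V j with hE
  set F : ℂ := P.V (i + 1) - P.V i with hF
  have hE0 : E ≠ 0 := sub_ne_zero.2 (P.V_ne j).symm
  have key : ∀ ε > 0, ∃ s : ℝ, s0 < s ∧ s < s0 + ε ∧
      0 < cr E (P.γ s0 - P.γ D) + (s - s0) * cr E F := by
    intro ε hε
    obtain ⟨s, y, h1, h2, h3, h4, h5, h6, hv⟩ := h.approx ε hε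
    refine ⟨s, h1, h2, ?_⟩
    have h7 := Vis.left' hc (i := j) (h.jD.trans h4) h6 hv.symm
    rw [← hE, P.transE_ej h y (h.jD.trans h4).le h6.le,
      P.transE_ei h s ((h.iα.trans h.αs).trans h1.le) (h3.le.trans h.βi), ← hE, ← hF] at h7
    have e : P.γ s0 + ((s - s0 : ℝ) : ℂ) * F - (P.γ D + ((y - D : ℝ) : ℂ) * E) =
        (P.γ s0 - P.γ D) + ((s - s0 : ℝ) : ℂ) * F - ((y - D : ℝ) : ℂ) * E := by ring
    rw [e, cr_sub_right, cr_add_right, cr_mul_right, cr_mul_right, cr_self] at h7
    linarith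
  have hA : cr E (P.γ s0 - P.γ D) ≤ 0 := not_lt.1 hn
  have hB : 0 < cr E F := by
    obtain ⟨s, h1, _, h3⟩ := key 1 one_pos
    by_contra hb
    push Not at hb
    nlinarith
  refine ⟨hB, ?_⟩
  have hA0 : cr E (P.γ s0 - P.γ D) = 0 := by
    by_contra hne
    have hlt : cr E (P.γ s0 - P.γ D) < 0 := lt_of_le_of_ne hA hne
    obtain ⟨s, h1, h2, h3⟩ := key (-cr E (P.γ s0 - P.γ D) / cr E F) (div_pos (neg_pos.2 hlt) hB)
    have h4 : (s - s0) * cr E F < -cr E (P.γ s0 - P.γ D) := by
      rw [← lt_div_iff₀ hB]; linarith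
    linarith
  obtain ⟨t, ht⟩ := cr_eq_zero hE0 hA0
  refine ⟨t, ?_, ht⟩
  rintro rfl
  apply h.ne
  have : P.γ s0 - P.γ D = 0 := by rw [ht]; simp
  exact (sub_eq_zero.1 this).symm

/-- first case: `γ s0` is behind -/
private theorem transE_neg (hc : P.CCW) {i j : ℤ} {α β D s0 : ℝ} (h : P.PreP i j α β D s0)
    {t : ℝ} (ht : t < 0) (hs : P.γ s0 - P.γ D = (t : ℂ) * (P.V (j + 1) - P.V j)) : False := by
  set E : ℂ := P.V (j + 1) - P.V j with hE
  obtain ⟨s, y, h1, h2, h3, h4, h5, h6, hv⟩ := h.approx 1 one_pos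
  have hy : P.γ y = P.γ D + ((y - D : ℝ) : ℂ) * E := P.transE_ej h y (h.jD.trans h4).le h6.le
  have hs0 : P.γ s0 = P.γ D + (t : ℂ) * E := by rw [← hs]; ring
  have hl := Vis.left' hc (i := j) (h.jD.trans h4) h6 hv.symm
  rw [← hE] at hl
  have hyD : 0 < y - D := sub_pos.2 h4
  have hden : 0 < y - D - t := by linarith
  -- `D` is between `s0` and `y`
  have hDmem : P.γ D ∈ openSegment ℝ (P.γ s0) (P.γ y) := by
    refine ⟨(y - D) / (y - D - t), -t / (y - D - t), div_pos hyD hden,
      div_pos (neg_pos.2 ht) hden, ?_, ?_⟩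
    · rw [← add_div, div_eq_one_iff_eq hden.ne']; ring
    · rw [hy, hs0, Complex.real_smul, Complex.real_smul]
      have hd : ((y - D - t : ℝ) : ℂ) ≠ 0 := by exact_mod_cast hden.ne'
      push_cast at hd ⊢
      field_simp
      ring
  have hsub : segment ℝ (P.γ s0) (P.γ y) ⊆ P.R := by
    intro z hz
    have h7 : segment ℝ (P.γ s0) (P.γ y) ⊆
        segment ℝ (P.γ s0) (P.γ D) ∪ segment ℝ (P.γ D) (P.γ y) := by
      obtain ⟨a, b, ha, hb, hab, hz1⟩ := hDmem
      rintro w ⟨a', b', ha', hb', hab', rfl⟩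
      have hb1 : b = 1 - a := by linarith
      have ha1 : a' = 1 - b' := by linarith
      by_cases hbb : b' ≤ b
      · left
        refine ⟨1 - b' / b, b' / b, ?_, by positivity, by ring, ?_⟩
        · rw [sub_nonneg, div_le_one hb]; exact hbb
        · rw [← hz1, ha1, hb1]
          have hbc : (1 - a : ℂ) ≠ 0 := by
            have h8 : (b : ℂ) ≠ 0 := by exact_mod_cast hb.ne'
            rw [hb1] at h8; push_cast at h8; exact h8
          simp only [Complex.real_smul]
          push_cast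
          field_simp
          ring
      · right
        push Not at hbb
        have ha2 : 0 < a := ha
        refine ⟨(1 - b') / a, 1 - (1 - b') / a, ?_, ?_, by ring, ?_⟩
        · apply div_nonneg _ ha.le
          linarith
        · rw [sub_nonneg, div_le_one ha]; linarith
        · rw [← hz1, ha1, hb1]
          have hac : (a : ℂ) ≠ 0 := by exact_mod_cast ha.ne'
          simp only [Complex.real_smul]
          push_cast
          field_simp
          ring
    rcases h7 hz with h8 | h8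
    · rw [segment_symm] at h8
      exact h.LR h8
    · rw [P.segment_γ (i := j) h.jD.le h.Dj.le (h.jD.trans h4).le h6.le] at h8
      obtain ⟨w, _, rfl⟩ := h8
      exact Or.inl (P.γ_mem_C w)
  have hsub2 : segment ℝ (P.γ s) (P.γ s0) ⊆ P.R := by
    rw [P.segment_γ (i := i) ((h.iα.trans h.αs).trans h1.le) (h3.le.trans h.βi)
      (h.iα.trans h.αs) (h.sβ.le.trans h.βi)]
    rintro _ ⟨w, _, rfl⟩
    exact Or.inl (P.γ_mem_C w)
  have hnz : cr (P.γ y - P.γ s0) (P.γ s - P.γ s0) ≠ 0 := by
    have e1 : P.γ y - P.γ s0 = ((y - D - t : ℝ) : ℂ) * E := by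
      rw [hy, hs0]; push_cast; ring
    have e2 : P.γ s - P.γ s0 = (P.γ s - P.γ y) + ((y - D - t : ℝ) : ℂ) * E := by
      rw [← e1]; ring
    rw [e2, e1, cr_add_right, cr_self, cr_mul_left, add_zero]
    exact (mul_pos hden hl).ne'
  have hvis := P.tri_vis (P.γ s0) (P.γ y) (P.γ s) hnz hsub
    (Vis.seg hv.symm) hsub2 (P.γ D) hDmem
  exact h.Dinf s ⟨lt_of_le_of_lt h.αs h1, h3⟩ D h.jD le_rfl hvis.symm

/-- second case: a sequence of blocking points -/
private theorem transE_seq (hc : P.CCW) {i j : ℤ} {α β D s0 : ℝ} (h : P.PreP i j α β D s0)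
    {t : ℝ} (ht : 0 < t) (hB : 0 < cr (P.V (j + 1) - P.V j) (P.V (i + 1) - P.V i))
    (hs : P.γ s0 - P.γ D = (t : ℂ) * (P.V (j + 1) - P.V j)) :
    ∃ (u a b : ℕ → ℝ) (u' a' : ℝ), Filter.Tendsto u Filter.atTop (𝓝 u') ∧
      Filter.Tendsto a Filter.atTop (𝓝 a') ∧ (∀ m, 0 < a m) ∧ (∀ m, 0 < b m) ∧ 0 ≤ a' ∧ a' ≤ t ∧
      P.γ u' = P.γ s0 - (a' : ℂ) * (P.V (j + 1) - P.V j) ∧
      ∀ m, P.γ (u m) = P.γ s0 - (a m : ℂ) * (P.V (j + 1) - P.V j) +
        (b m : ℂ) * (P.V (i + 1) - P.V i) := by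
  set E : ℂ := P.V (j + 1) - P.V j with hE
  set F : ℂ := P.V (i + 1) - P.V i with hF
  have hDs : P.γ D = P.γ s0 - (t : ℂ) * E := by rw [← hs]; ring
  -- one blocking point
  have one : ∀ ε : ℝ, 0 < ε → D - ε > j → ∃ (v l s : ℝ), v ∈ Icc (0 : ℝ) (0 + n) ∧ l ∈ Ioo (0 : ℝ) 1 ∧
      s0 < s ∧ s < s0 + ε ∧ P.γ v = P.γ s0 - (((1 - l) * (t + ε) : ℝ) : ℂ) * E +
        ((l * (s - s0) : ℝ) : ℂ) * F := by
    intro ε hε hεD
    obtain ⟨s, y, h1, h2, h3, h4, h5, h6, hv⟩ := h.approx ε hε
    have hy1 : (j : ℝ) < D - ε := hεD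
    have hy2 : D - ε < j + 1 := by have := h.Dj; linarith
    have hnv : ¬ P.Vis (P.γ (D - ε)) (P.γ s) := fun hh =>
      h.Dinf s ⟨lt_of_le_of_lt h.αs h1, h3⟩ (D - ε) hy1 (by linarith) hh.symm
    have hNI := NI_of_Ioo hy1 hy2
    have ey : P.γ (D - ε) = P.γ s0 - ((t + ε : ℝ) : ℂ) * E := by
      rw [P.transE_ej h (D - ε) hy1.le hy2.le, hDs]; push_cast; ring
    have es : P.γ s = P.γ s0 + ((s - s0 : ℝ) : ℂ) * F :=
      P.transE_ei h s ((h.iα.trans h.αs).trans h1.le) (h3.le.trans h.βi)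
    have hed : P.ed (D - ε) = E := by unfold ed; rw [hNI.2]
    have hin : InSector (P.ep (D - ε)) (P.em (D - ε)) (P.γ s - P.γ (D - ε)) := by
      rw [P.InSector_NI hNI.1, hed, ey, es]
      have e : P.γ s0 + ((s - s0 : ℝ) : ℂ) * F - (P.γ s0 - ((t + ε : ℝ) : ℂ) * E) =
          ((s - s0 : ℝ) : ℂ) * F + ((t + ε : ℝ) : ℂ) * E := by ring
      rw [e, cr_add_right, cr_mul_right, cr_mul_right, cr_self, mul_zero, add_zero]
      exact mul_pos (sub_pos.2 h1) hB
    obtain ⟨c, hc1, hc2⟩ := P.block (P.enter hc (D - ε) (P.γ s) hin) hnv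
    obtain ⟨v, hv1, hv2, hv3⟩ := P.mem_C_window 0 hc2
    obtain ⟨p, l, hp, hl, hpl, hc3⟩ := hc1
    refine ⟨v, l, s, ⟨hv1, hv2.le⟩, ⟨hl, by linarith⟩, h1, h2, ?_⟩
    rw [hv3, ← hc3, ey, es]
    have hp1 : p = 1 - l := by linarith
    rw [hp1]
    simp only [Complex.real_smul]
    push_cast
    ring
  have hDj : 0 < D - j := sub_pos.2 h.jD
  have hpos : ∀ m : ℕ, 0 < (D - j) / ((m : ℝ) + 2) := fun m => by positivity
  have hlt : ∀ m : ℕ, D - (D - j) / ((m : ℝ) + 2) > j := by
    intro m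
    have h1 : (D - j) / ((m : ℝ) + 2) < D - j := by
      rw [div_lt_iff₀ (by positivity)]
      have : (0 : ℝ) ≤ m := Nat.cast_nonneg m
      nlinarith
    linarith
  choose v l s hvI hlI hs1 hs2 hvv using fun m : ℕ => one _ (hpos m) (hlt m)
  -- convergent subsequence
  have hcomp : IsCompact (Icc (0 : ℝ) (0 + n) ×ˢ Icc (0 : ℝ) 1) := isCompact_Icc.prod isCompact_Icc
  obtain ⟨⟨v', l'⟩, hvl, φ, hφ, hlim⟩ := hcomp.tendsto_subseq (x := fun m => (v m, l m))
    (fun m => ⟨hvI m, ⟨(hlI m).1.le, (hlI m).2.le⟩⟩)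
  have hl' : l' ∈ Icc (0 : ℝ) 1 := hvl.2
  have hlimv : Filter.Tendsto (fun m => v (φ m)) Filter.atTop (𝓝 v') := by
    have := (continuous_fst.tendsto (v', l')).comp hlim
    simpa [Function.comp_def] using this
  have hliml : Filter.Tendsto (fun m => l (φ m)) Filter.atTop (𝓝 l') := by
    have := (continuous_snd.tendsto (v', l')).comp hlim
    simpa [Function.comp_def] using this
  have heps : Filter.Tendsto (fun m : ℕ => (D - j) / ((m : ℝ) + 2)) Filter.atTop (𝓝 0) := by
    apply Filter.Tendsto.div_atTop tendsto_const_nhds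
    exact Filter.tendsto_atTop_add_const_right _ _ tendsto_natCast_atTop_atTop
  have hepsφ : Filter.Tendsto (fun m : ℕ => (D - j) / ((φ m : ℝ) + 2)) Filter.atTop (𝓝 0) :=
    heps.comp hφ.tendsto_atTop
  have hsφ : Filter.Tendsto (fun m : ℕ => s (φ m) - s0) Filter.atTop (𝓝 0) := by
    refine squeeze_zero (fun m => (sub_pos.2 (hs1 (φ m))).le) (fun m => ?_) hepsφ
    have := hs2 (φ m)
    linarith
  have ha : Filter.Tendsto (fun m : ℕ => (1 - l (φ m)) * (t + (D - j) / ((φ m : ℝ) + 2)))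
      Filter.atTop (𝓝 ((1 - l') * (t + 0))) :=
    (tendsto_const_nhds.sub hliml).mul (tendsto_const_nhds.add hepsφ)
  have hb : Filter.Tendsto (fun m : ℕ => l (φ m) * (s (φ m) - s0))
      Filter.atTop (𝓝 (l' * 0)) := hliml.mul hsφ
  rw [mul_zero] at hb
  rw [add_zero] at ha
  refine ⟨fun m => v (φ m), fun m => (1 - l (φ m)) * (t + (D - j) / ((φ m : ℝ) + 2)),
    fun m => l (φ m) * (s (φ m) - s0), v', (1 - l') * t, hlimv, ha, ?_, ?_, ?_, ?_, ?_, ?_⟩
  · intro m
    exact mul_pos (by linarith [(hlI (φ m)).2]) (by linarith [hpos (φ m)])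
  · intro m
    exact mul_pos (hlI (φ m)).1 (sub_pos.2 (hs1 (φ m)))
  · exact mul_nonneg (by linarith [hl'.2]) ht.le
  · nlinarith [hl'.1, hl'.2]
  · have h1 : Filter.Tendsto (fun m => P.γ (v (φ m))) Filter.atTop (𝓝 (P.γ v')) :=
      (P.γ_cont.tendsto v').comp hlimv
    have h2 : Filter.Tendsto (fun m => P.γ s0 -
        (((1 - l (φ m)) * (t + (D - j) / ((φ m : ℝ) + 2)) : ℝ) : ℂ) * E +
        ((l (φ m) * (s (φ m) - s0) : ℝ) : ℂ) * F) Filter.atTop
        (𝓝 (P.γ s0 - (((1 - l') * t : ℝ) : ℂ) * E + ((0 : ℝ) : ℂ) * F)) := by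
      refine Filter.Tendsto.add (tendsto_const_nhds.sub (Filter.Tendsto.mul ?_ tendsto_const_nhds))
        (Filter.Tendsto.mul ?_ tendsto_const_nhds)
      · exact (Complex.continuous_ofReal.tendsto _).comp ha
      · exact (Complex.continuous_ofReal.tendsto _).comp hb
    have h3 : (fun m => P.γ (v (φ m))) = fun m => P.γ s0 -
        (((1 - l (φ m)) * (t + (D - j) / ((φ m : ℝ) + 2)) : ℝ) : ℂ) * E +
        ((l (φ m) * (s (φ m) - s0) : ℝ) : ℂ) * F := by
      funext m
      exact hvv (φ m)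
    rw [h3] at h1
    have h4 := tendsto_nhds_unique h1 h2
    rw [h4]
    simp
  · intro m
    exact hvv (φ m)

/-- second case: `γ s0` is beyond `D` on the line of edge `j` -/
private theorem transE_pos (hc : P.CCW) {i j : ℤ} {α β D s0 : ℝ} (h : P.PreP i j α β D s0)
    {t : ℝ} (ht : 0 < t) (hB : 0 < cr (P.V (j + 1) - P.V j) (P.V (i + 1) - P.V i))
    (hs : P.γ s0 - P.γ D = (t : ℂ) * (P.V (j + 1) - P.V j)) : False := by
  obtain ⟨u, a, b, u', a', hu, ha, ha0, hb0, ha1, ha2, hu', hum⟩ := P.transE_seq hc h ht hB hs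
  set E : ℂ := P.V (j + 1) - P.V j with hE
  set F : ℂ := P.V (i + 1) - P.V i with hF
  have hDs : P.γ D = P.γ s0 - (t : ℂ) * E := by rw [← hs]; ring
  rcases ha2.lt_or_eq with ha3 | ha3
  · rcases ha1.lt_or_eq with ha4 | ha4
    · -- the limit is in the open segment
      have hopen : P.γ u' ∈ openSegment ℝ (P.γ D) (P.γ s0) := by
        refine ⟨a' / t, 1 - a' / t, by positivity, ?_, by ring, ?_⟩
        · rw [sub_pos, div_lt_one ht]; exact ha3
        · rw [hu', hDs]
          have htc : (t : ℂ) ≠ 0 := by exact_mod_cast ht.ne'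
          simp only [Complex.real_smul]
          push_cast
          field_simp
          ring
      obtain ⟨ρ, hρ, hsq⟩ := P.squeeze_right (P.γ D) (P.γ s0) h.ne u' hopen (by
        intro ε hε
        set K : ℝ := ‖E‖ + ‖F‖ + 1 with hK
        have hK0 : 0 < K := by positivity
        obtain ⟨s, y, h1, h2, h3, h4, h5, h6, hv⟩ := h.approx (min (ε / K) (t - a'))
          (lt_min (by positivity) (sub_pos.2 ha3))
        have ey : P.γ y = P.γ D + ((y - D : ℝ) : ℂ) * E :=
          P.transE_ej h y (h.jD.trans h4).le h6.le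
        have es : P.γ s = P.γ s0 + ((s - s0 : ℝ) : ℂ) * F :=
          P.transE_ei h s ((h.iα.trans h.αs).trans h1.le) (h3.le.trans h.βi)
        have hm1 := min_le_left (ε / K) (t - a')
        have hm2 := min_le_right (ε / K) (t - a')
        refine ⟨P.γ y, P.γ s, ?_, ?_, hv.symm, ?_⟩
        · have e : P.γ y - P.γ D = ((y - D : ℝ) : ℂ) * E := by rw [ey]; ring
          rw [e, norm_mul, Complex.norm_real, Real.norm_of_nonneg (sub_pos.2 h4).le]
          have h7 : y - D < ε / K := by linarith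
          have h8 : (y - D) * K < ε := by rwa [lt_div_iff₀ hK0] at h7
          have h9 : (y - D) * ‖E‖ ≤ (y - D) * K :=
            mul_le_mul_of_nonneg_left (by rw [hK]; linarith [norm_nonneg F]) (sub_pos.2 h4).le
          linarith
        · have e : P.γ s - P.γ s0 = ((s - s0 : ℝ) : ℂ) * F := by rw [es]; ring
          rw [e, norm_mul, Complex.norm_real, Real.norm_of_nonneg (sub_pos.2 h1).le]
          have h7 : s - s0 < ε / K := by linarith
          have h8 : (s - s0) * K < ε := by rwa [lt_div_iff₀ hK0] at h7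
          have h9 : (s - s0) * ‖F‖ ≤ (s - s0) * K :=
            mul_le_mul_of_nonneg_left (by rw [hK]; linarith [norm_nonneg E]) (sub_pos.2 h1).le
          linarith
        · have hl := Vis.left' hc (i := j) (h.jD.trans h4) h6 hv.symm
          rw [← hE] at hl
          have e : P.γ u' - P.γ y = ((t - a' - (y - D) : ℝ) : ℂ) * E := by
            rw [hu', ey, hDs]; push_cast; ring
          rw [e, cr_mul_right, cr_swap]
          have h7 : 0 < t - a' - (y - D) := by linarith
          nlinarith [mul_pos h7 hl])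
      have hev : ∀ᶠ m in Filter.atTop, |u m - u'| < ρ := by
        have := Metric.tendsto_nhds.1 hu ρ hρ
        simpa [Real.dist_eq] using this
      obtain ⟨m, hm⟩ := hev.exists
      have h1 := hsq (u m) hm
      rw [hs, hum m, hDs] at h1
      have e : P.γ s0 - (a m : ℂ) * E + (b m : ℂ) * F - (P.γ s0 - (t : ℂ) * E) =
          ((t - a m : ℝ) : ℂ) * E + (b m : ℂ) * F := by push_cast; ring
      rw [e, cr_mul_left, cr_add_right, cr_mul_right, cr_mul_right, cr_self, mul_zero,
        zero_add] at h1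
      have h2 := mul_pos ht (mul_pos (hb0 m) hB)
      linarith
    · -- the limit is `γ s0`
      rw [← ha4] at hu'
      have h1 : P.γ u' = P.γ s0 := by rw [hu']; simp
      obtain ⟨k, hk⟩ := P.γ_inj h1
      have hlim : Filter.Tendsto (fun m => u m + k * n) Filter.atTop (𝓝 s0) := by
        rw [hk]
        exact hu.add tendsto_const_nhds
      have hγ : ∀ m, P.γ (u m + k * n) = P.γ s0 - (a m : ℂ) * E + (b m : ℂ) * F := by
        intro m
        rw [P.γ_add_mul]
        exact hum m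
      have hi0 : (i : ℝ) ≤ s0 := h.iα.trans h.αs
      have hi1 : s0 < i + 1 := lt_of_lt_of_le h.sβ h.βi
      have hev1 : ∀ᶠ m in Filter.atTop, u m + k * n < i + 1 := hlim.eventually_lt_const hi1
      -- not on edge `i`
      have hno : ∀ m, u m + k * n < i + 1 → ¬ (i : ℝ) ≤ u m + k * n := by
        intro m hm hm'
        have h2 := P.transE_ei h _ hm' hm.le
        rw [hγ m, ← hF] at h2
        have h3 : (a m : ℂ) * E = ((b m - (u m + k * n - s0) : ℝ) : ℂ) * F := by
          push_cast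
          push_cast at h2
          linear_combination -h2
        have h4 : cr ((a m : ℂ) * E) F = 0 := by
          rw [h3, cr_mul_left, cr_self, mul_zero]
        rw [cr_mul_left] at h4
        have := mul_pos (ha0 m) hB
        linarith
      rcases hi0.lt_or_eq with hi2 | hi2
      · have hev2 : ∀ᶠ m in Filter.atTop, (i : ℝ) < u m + k * n := hlim.eventually_const_lt hi2
        obtain ⟨m, hm1, hm2⟩ := (hev1.and hev2).exists
        exact hno m hm1 hm2.le
      · obtain ⟨ε, hε, hbef⟩ := P.γ_before (i : ℝ)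
        have hev2 : ∀ᶠ m in Filter.atTop, (i : ℝ) - ε < u m + k * n :=
          hlim.eventually_const_lt (by rw [← hi2]; linarith)
        obtain ⟨m, hm1, hm2⟩ := (hev1.and hev2).exists
        have hm3 : u m + k * n < i := not_le.1 (hno m hm1)
        obtain ⟨κ, hκ, hκe⟩ := hbef _ hm2 hm3
        rw [hγ m, hi2] at hκe
        have hem : (κ : ℂ) * P.em s0 = -((a m : ℂ) * E) + (b m : ℂ) * F := by
          linear_combination -hκe
        have hep : P.ep s0 = F := by rw [← hi2, P.ep_int]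
        have hDs' : P.γ D - P.γ s0 = -((t : ℂ) * E) := by rw [← hs]; ring
        have hLR : segment ℝ (P.γ s0) (P.γ D) ⊆ P.R := by
          rw [segment_symm]; exact h.LR
        apply P.seg_sector hc hLR
        have c1 : cr (P.em s0) (P.ep s0) < 0 := by
          have h2 : κ * cr (P.em s0) (P.ep s0) = -(a m * cr E F) := by
            rw [← cr_mul_left, hem, hep, cr_add_left, cr_neg_left, cr_mul_left, cr_mul_left,
              cr_self, mul_zero, add_zero]
          have h3 := mul_pos (ha0 m) hB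
          by_contra h4
          push Not at h4
          have h5 := mul_nonneg hκ.le h4
          linarith
        have c2 : 0 < cr (P.em s0) (P.γ D - P.γ s0) := by
          have h2 : κ * cr (P.em s0) (P.γ D - P.γ s0) = t * (b m * cr E F) := by
            rw [← cr_mul_left, hem, hDs', cr_add_left, cr_neg_left, cr_mul_left, cr_mul_left,
              cr_neg_right, cr_mul_right, cr_self, cr_neg_right, cr_mul_right, cr_swap F E]
            ring
          have h3 := mul_pos ht (mul_pos (hb0 m) hB)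
          by_contra h4
          push Not at h4
          have h5 := mul_nonpos_of_nonneg_of_nonpos hκ.le h4
          linarith
        exact ⟨fun h2 => absurd h2 (not_lt.2 c1.le), fun _ => Or.inl c2, fun h2 => absurd h2 c1.ne⟩
  · -- the limit is `γ D`
    rw [ha3] at hu'
    have h1 : P.γ u' = P.γ D := by rw [hu', hDs]
    obtain ⟨k, hk⟩ := P.γ_inj h1
    have hlim : Filter.Tendsto (fun m => u m + k * n) Filter.atTop (𝓝 D) := by
      rw [hk]
      exact hu.add tendsto_const_nhds
    have hev1 : ∀ᶠ m in Filter.atTop, u m + k * n < j + 1 := hlim.eventually_lt_const h.Dj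
    have hev2 : ∀ᶠ m in Filter.atTop, (j : ℝ) < u m + k * n := hlim.eventually_const_lt h.jD
    obtain ⟨m, hm1, hm2⟩ := (hev1.and hev2).exists
    have h2 := P.transE_ej h _ hm2.le hm1.le
    rw [P.γ_add_mul, hum m, hDs, ← hE] at h2
    have h3 : (b m : ℂ) * F = ((u m + k * n - D - t + a m : ℝ) : ℂ) * E := by
      push_cast
      push_cast at h2
      linear_combination h2
    have h4 : cr E ((b m : ℂ) * F) = 0 := by
      rw [h3, cr_mul_right, cr_self, mul_zero]
    rw [cr_mul_right] at h4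
    have := mul_pos (hb0 m) hB
    linarith

theorem preP_tE (hc : P.CCW) {i j : ℤ} {α β D s0 : ℝ} (h : P.PreP i j α β D s0) :
    0 < cr (P.V (j + 1) - P.V j) (P.γ s0 - P.γ D) := by
  by_contra hn
  obtain ⟨hB, t, ht, hs⟩ := P.transE_start hc h hn
  rcases lt_or_gt_of_ne ht with h1 | h1
  · exact P.transE_neg hc h h1 hs
  · exact P.transE_pos hc h h1 hB hs

end Poly

end Pool.Agent.Lib_PL
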