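import Pool.Agent.Lib_PL.RecBase

/-!
Theorem A: every vertex sees at most `cA K * n` components of `Bp p K` (formulated with separated finite sets of positions).

Map `x ∈ T` to the component `X` of `Bp p K` containing it (`X.i = ⌊x⌋`), injective by the separation.  Cornered: at most `2 n`.
Otherwise `Y = core K X` (injective); `rec_step` with `Ω = {ν}`, `MM = {{V ν}}` (`rep_vertex`), `K' = K`, `L = K`, `N = c2 K 1 K * n` (`rec2`),
`a = 2 n` (`t1a_count`, `t1a_countR`, `hbase_of`).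
-/

open Set Complex
open scoped Topology

namespace Pool.Agent.Lib_PL

/-- constant of Theorem A -/
def cA (K : ℕ) : ℕ := 2 + 1 + 4 + (K + 1) * 2 * (2 + c2 K 1 K)

namespace Poly

variable {n : ℕ} (P : Poly n)

private theorem TypeA_main (hc : P.CCW) (p : ℂ) (K : ℕ) (ν : ℤ) (G : Finset Arc)
    (hG : ∀ A ∈ G, P.IsComp p K A ∧ 0 ≤ A.i ∧ A.i < n ∧ ¬ A.Cornered ∧
      ∃ x ∈ A.s, P.Vis (P.V ν) (P.γ x)) :
    G.card ≤ n + 2 * (2 * n) + (K + 1) * (2 * 1) * (2 * n + c2 K 1 K * n) := by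
  classical
  obtain ⟨par, hpar⟩ := P.exists_par hc p
  obtain ⟨core, lev, hcore⟩ := P.exists_core hc p
  -- the core of a component determines the component
  have hinj : ∀ A ∈ G, ∀ B ∈ G, core K A = core K B → A = B := by
    intro A hA B hB hAB
    obtain ⟨-, hex, hsub, -, -⟩ := hcore.ex K A (hG A hA).1
    obtain ⟨-, -, hsub', -, -⟩ := hcore.ex K B (hG B hB).1
    have hab := hex.1.ab
    have hm : ((core K A).a + (core K A).b) / 2 ∈ (core K A).s :=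
      ⟨by linarith, by linarith⟩
    have hm' := hm
    rw [hAB] at hm'
    exact P.comp_unique (hG A hA).1 (hG B hB).1 (hsub hm) (by rw [hAB]; exact hsub' hm')
  set F : Finset Arc := G.image (core K) with hF
  have hcard : F.card = G.card := Finset.card_image_of_injOn fun A hA B hB h => hinj A hA B hB h
  have hex : ∀ Y, ∃ A, Y ∈ F → A ∈ G ∧ core K A = Y := by
    intro Y
    by_cases hY : Y ∈ F
    · obtain ⟨A, hA, hAY⟩ := Finset.mem_image.1 hY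
      exact ⟨A, fun _ => ⟨hA, hAY⟩⟩
    · exact ⟨Y, fun h => absurd h hY⟩
  choose Xf hXf using hex
  have hXinj : ∀ Y ∈ F, ∀ Y' ∈ F, Xf Y = Xf Y' → Y = Y' := by
    intro Y hY Y' hY' h
    rw [← (hXf Y hY).2, ← (hXf Y' hY').2, h]
  have hrep : ∀ S : Arc, ∀ l, P.IsComp p l S → P.Rep {P.V ν} S (ν : ℝ) := by
    intro S l hS
    exact P.rep_vertex hc ν hS.ia hS.bi
  have hM : ∀ M ∈ ({{P.V ν}} : Set (Set ℂ)), M.Nonempty ∧ ∀ l, l + 1 ≤ K → ∀ S, P.IsComp p l S →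
      ∃ ω ∈ ({(ν : ℝ)} : Finset ℝ), P.Rep M S ω := by
    intro M hM
    rw [mem_singleton_iff] at hM
    rw [hM]
    exact ⟨singleton_nonempty _, fun l _ S hS => ⟨ν, Finset.mem_singleton_self _, hrep S l hS⟩⟩
  have hΩ : ∀ ω ∈ ({(ν : ℝ)} : Finset ℝ), ∀ ω' ∈ ({(ν : ℝ)} : Finset ℝ), ω ≠ ω' →
      P.Vis (P.γ ω) (P.γ ω') := by
    intro ω hω ω' hω' hne
    rw [Finset.mem_singleton] at hω hω'
    exact absurd (hω.trans hω'.symm) hne
  have hN : ∀ H : Finset Arc, (∀ Y ∈ H, P.Item2 p par core lev {{P.V ν}} K K Y) →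
      H.card ≤ c2 K 1 K * n := by
    intro H hH
    have := P.rec2 hc hpar hcore {(ν : ℝ)} hΩ {{P.V ν}} K hM K H hH
    rwa [Finset.card_singleton] at this
  -- the data of a hooked item
  have hdata : ∀ Y ∈ F, ∀ l, lev K (Xf Y) = l + 1 → ∀ m : ℤ,
      ((par l Y).sh (m * n)).i < Y.i → Y.i < ((par l Y).sh (m * n)).i + n →
      P.HBase {(ν : ℝ)} ((par l Y).sh (m * n)) (Xf Y) {P.V ν} ∧
      P.T1A p ν K ((par l Y).sh (m * n)) (Xf Y) {P.V ν} ∧ Y.i = (Xf Y).i ∧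
        0 ≤ (Xf Y).i ∧ (Xf Y).i < n := by
    intro Y hY l hl m h1 h2
    obtain ⟨hXG, hXY⟩ := hXf Y hY
    obtain ⟨hXcomp, hX0, hXn, hXc, x, hx, hxv⟩ := hG _ hXG
    obtain ⟨-, hYex, hYs, hYi, -⟩ := hcore.ex K (Xf Y) hXcomp
    rw [hXY] at hYex hYs hYi
    rw [hl] at hYex
    refine ⟨?_, ⟨hXcomp, rfl, x, hx, hxv⟩, hYi, hX0, hXn⟩
    refine P.hbase_of hc hpar hXcomp hXc hYex hYs hYi (singleton_nonempty _)
      ⟨ν, Finset.mem_singleton_self _, hrep _ l (hpar.comp l Y hYex)⟩ ?_ ?_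
    · rw [← hYi]; exact h1
    · rw [← hYi]; exact h2
  have hstep := P.rec_step hc hpar hcore {(ν : ℝ)} {{P.V ν}} K K hM (c2 K 1 K * n) (2 * n) hN F
    (fun Y => lev K (Xf Y)) (fun _ => {P.V ν}) ?_ ?_ ?_
  · rw [Finset.card_singleton, hcard] at hstep
    exact hstep
  · intro Y hY
    obtain ⟨hXG, hXY⟩ := hXf Y hY
    obtain ⟨hXcomp, hX0, hXn, hXc, -⟩ := hG _ hXG
    obtain ⟨hle, hYex, -, hYi, hYc⟩ := hcore.ex K (Xf Y) hXcomp
    rw [hXY] at hYex hYi hYc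
    refine ⟨by rw [hYi]; exact hX0, by rw [hYi]; exact hXn, hYc hXc, hYex, ?_, hle, rfl⟩
    exact hle.trans (Nat.le_succ K)
  · intro H hHF hH
    rw [← Finset.card_image_of_injOn (s := H) (f := Xf)
      fun Y hY Y' hY' h => hXinj Y (hHF hY) Y' (hHF hY') h]
    refine P.t1a_count hc (p := p) (ν := ν) (K := K) _ ?_
    intro X hX
    obtain ⟨Y, hY, rfl⟩ := Finset.mem_image.1 hX
    obtain ⟨l, hl, m, h1, h2, hk⟩ := hH Y hY
    obtain ⟨d1, d2, d3, d4, d5⟩ := hdata Y (hHF hY) l hl m h1 h2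
    refine ⟨d4, d5, _, _, d1, ?_, d2⟩
    obtain ⟨σ, hσ, g, g1, g2, g3, g4, g5⟩ := hk
    exact ⟨σ, hσ, g, g1, by rw [← d3]; exact g2, g3, g4, g5⟩
  · intro H hHF hH
    rw [← Finset.card_image_of_injOn (s := H) (f := Xf)
      fun Y hY Y' hY' h => hXinj Y (hHF hY) Y' (hHF hY') h]
    refine P.t1a_countR hc (p := p) (ν := ν) (K := K) _ ?_
    intro X hX
    obtain ⟨Y, hY, rfl⟩ := Finset.mem_image.1 hX
    obtain ⟨l, hl, m, h1, h2, hk⟩ := hH Y hY
    obtain ⟨d1, d2, d3, d4, d5⟩ := hdata Y (hHF hY) l hl m h1 h2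
    refine ⟨d4, d5, _, _, d1, ?_, d2⟩
    obtain ⟨σ, hσ, g, g1, g2, g3, g4, g5⟩ := hk
    exact ⟨σ, hσ, g, by rw [← d3]; exact g1, g2, g3, g4, g5⟩

theorem thmA (hc : P.CCW) (p : ℂ) (K : ℕ) (ν : ℤ) (T : Finset ℝ)
    (hT : ∀ x ∈ T, x ∈ P.Bp p K ∧ P.Vis (P.V ν) (P.γ x) ∧ 0 ≤ x ∧ x < n)
    (hsep : ∀ x ∈ T, ∀ y ∈ T, x < y → ∃ t, x < t ∧ t < y ∧ t ∉ P.Bp p K) : T.card ≤ cA K * n := by
  classical
  have h1 : ∀ x : T, ∃ A, P.IsComp p K A ∧ (x : ℝ) ∈ A.s := fun x => P.exists_comp hc (hT x x.2).1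
  choose X hX using h1
  have hinj : Function.Injective X := by
    have key : ∀ x y : T, X x = X y → ¬ (x : ℝ) < y := by
      intro x y hxy hlt
      obtain ⟨t, ht1, ht2, ht3⟩ := hsep x x.2 y y.2 hlt
      have hy := (hX y).2
      rw [← hxy] at hy
      exact ht3 ((hX x).1.sub ⟨(hX x).2.1.trans ht1, ht2.trans hy.2⟩)
    intro x y hxy
    rcases lt_trichotomy (x : ℝ) y with h | h | h
    · exact absurd h (key x y hxy)
    · exact Subtype.ext h
    · exact absurd h (key y x hxy.symm)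
  set G : Finset Arc := T.attach.image X with hGdef
  have hcard : G.card = T.card := by
    rw [hGdef, Finset.card_image_of_injective _ hinj, Finset.card_attach]
  have hG : ∀ A ∈ G, P.IsComp p K A ∧ 0 ≤ A.i ∧ A.i < n ∧ ∃ x ∈ A.s, P.Vis (P.V ν) (P.γ x) := by
    intro A hA
    obtain ⟨x, -, rfl⟩ := Finset.mem_image.1 hA
    obtain ⟨-, h2, h3, h4⟩ := hT x x.2
    obtain ⟨h5, h6, h7, -⟩ := (hX x).1.mem_floor (hX x).2
    refine ⟨(hX x).1, ?_, ?_, x, (hX x).2, h2⟩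
    · rw [← h7]
      exact Int.floor_nonneg.2 h3
    · have h8 : (((X x).i : ℤ) : ℝ) < ((n : ℤ) : ℝ) := by
        push_cast
        linarith
      exact_mod_cast h8
  have hc1 : (G.filter fun A => A.Cornered).card ≤ 2 * n := by
    refine P.cornered_count (p := p) (k := K) _ ?_
    intro A hA
    obtain ⟨hA1, hA2⟩ := Finset.mem_filter.1 hA
    obtain ⟨h2, h3, h4, -⟩ := hG A hA1
    exact ⟨h2, hA2, h3, h4⟩
  have hc2 := P.TypeA_main hc p K ν (G.filter fun A => ¬ A.Cornered) (by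
    intro A hA
    obtain ⟨hA1, hA2⟩ := Finset.mem_filter.1 hA
    obtain ⟨h2, h3, h4, h5⟩ := hG A hA1
    exact ⟨h2, h3, h4, hA2, h5⟩)
  have hsum := Finset.card_filter_add_card_filter_not (s := G) (fun A : Arc => A.Cornered)
  rw [← hcard, ← hsum]
  refine (add_le_add hc1 hc2).trans (le_of_eq ?_)
  unfold cA
  ring

end Poly

end Pool.Agent.Lib_PL
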