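import Pool.Agent.Lib_PL.Quad
import Pool.Agent.Lib_PL.VisOpen

/-!
Weak visibility: the set of points of a segment which see an interval of an edge is an interval.

`rect`: the four points `γ s, γ s', γ y, γ y'` form a counterclockwise convex quadrilateral (`Vis.left'`),
use `quad`, then triangles.  `f2`: if the segments `z, γ s` and `z', γ s'` meet in a point `x`, use the
triangle `z z' x` and the opposite triangle `x, γ s, γ s'` (prolong beyond `x`); degenerate cases: `x = γ s =
γ s'`, or `x = z`, or everything on one line.  If they are disjoint use `quad'`.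
-/

open Set Complex
open scoped Topology

namespace Pool.Agent.Lib_PL

namespace Poly

variable {n : ℕ} (P : Poly n)

private theorem Weak_edge_R {i : ℤ} {x y : ℝ} (hx : (i : ℝ) ≤ x) (hx' : x ≤ i + 1)
    (hy : (i : ℝ) ≤ y) (hy' : y ≤ i + 1) : segment ℝ (P.γ x) (P.γ y) ⊆ P.R := by
  rw [P.segment_γ hx hx' hy hy']
  rintro z ⟨t, -, rfl⟩
  exact Or.inl (P.γ_mem_C t)

private theorem Weak_pt (hc : P.CCW) {v : ℂ} {k : ℤ} {x x' : ℝ} (hx : (k : ℝ) < x) (hxx : x ≤ x')
    (hx' : x' < k + 1) (h : P.Vis v (P.γ x)) (h' : P.Vis v (P.γ x')) :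
    ∀ c ∈ Icc x x', P.Vis v (P.γ c) := by
  intro c hcc
  rcases eq_or_lt_of_le hcc.1 with h1 | h1
  · rw [← h1]; exact h
  rcases eq_or_lt_of_le hcc.2 with h2 | h2
  · rw [h2]; exact h'
  have hlt : x < x' := h1.trans h2
  have hcr : 0 < cr (P.γ x' - P.γ x) (v - P.γ x) := by
    rw [P.γ_sub k x x' hx.le (by linarith) (by linarith) hx'.le, cr_mul_left]
    exact mul_pos (by linarith) (Vis.left' hc hx (by linarith) h.symm)
  refine (P.tri_vis (P.γ x) (P.γ x') v hcr.ne'
    (P.Weak_edge_R hx.le (by linarith) (by linarith) hx'.le) h'.symm.seg h.seg (P.γ c) ?_).symm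
  rw [P.openSegment_γ hx.le hx'.le hlt]
  exact ⟨c, ⟨h1, h2⟩, rfl⟩

theorem rect (hc : P.CCW) {i j : ℤ} {s s' y y' : ℝ} (hs : (i : ℝ) < s) (hss : s ≤ s')
    (hs' : s' < i + 1) (hy : (j : ℝ) < y) (hyy : y ≤ y') (hy' : y' < j + 1)
    (h1 : P.Vis (P.γ s) (P.γ y')) (h2 : P.Vis (P.γ s') (P.γ y)) :
    ∀ a ∈ Icc s s', ∀ b ∈ Icc y y', P.Vis (P.γ a) (P.γ b) := by
  intro a ha b hb
  rcases eq_or_lt_of_le hss with e1 | e1
  · have h3 : a = s := le_antisymm (by rw [e1]; exact ha.2) ha.1
    rw [h3]
    rw [← e1] at h2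
    exact P.Weak_pt hc hy hyy hy' h2 h1 b hb
  rcases eq_or_lt_of_le hyy with e2 | e2
  · have h3 : b = y := le_antisymm (by rw [e2]; exact hb.2) hb.1
    rw [h3]
    rw [← e2] at h1
    exact (P.Weak_pt hc hs hss hs' h1.symm h2.symm a ha).symm
  have c1 : P.γ s' - P.γ s = ((s' - s : ℝ) : ℂ) * (P.V (i + 1) - P.V i) :=
    P.γ_sub i s s' hs.le (by linarith) (by linarith) hs'.le
  have c2 : P.γ y' - P.γ y = ((y' - y : ℝ) : ℂ) * (P.V (j + 1) - P.V j) :=
    P.γ_sub j y y' hy.le (by linarith) (by linarith) hy'.le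
  have l1 := Vis.left' hc hs (by linarith) h1
  have l2 := Vis.left' hc (by linarith : (i : ℝ) < s') hs' h2
  have l3 := Vis.left' hc (by linarith : (j : ℝ) < y') hy' h1.symm
  have l4 := Vis.left' hc hy (by linarith) h2.symm
  have hs0 : 0 < s' - s := by linarith
  have hy0 : 0 < y' - y := by linarith
  obtain ⟨h3, h4⟩ := P.quad (P.γ s) (P.γ s') (P.γ y) (P.γ y')
    (by rw [c1, cr_mul_left]; exact mul_pos hs0 l2)
    (by
      rw [c2, cr_mul_right, cr_swap, ← cr_neg_right, neg_sub]
      exact mul_pos hy0 l4)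
    (by rw [c2, cr_mul_left]; exact mul_pos hy0 l3)
    (by
      rw [c1, cr_mul_right, cr_swap, ← cr_neg_right, neg_sub]
      exact mul_pos hs0 l1)
    (P.Weak_edge_R hs.le (by linarith) (by linarith) hs'.le) h2.seg
    (P.Weak_edge_R hy.le (by linarith) (by linarith) hy'.le) h1.symm.seg
  have h5 : P.Vis (P.γ a) (P.γ y) := (P.Weak_pt hc hs hss hs' h3.symm h2.symm a ha).symm
  have h6 : P.Vis (P.γ a) (P.γ y') := (P.Weak_pt hc hs hss hs' h1.symm h4.symm a ha).symm
  exact P.Weak_pt hc hy hyy hy' h5 h6 b hb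

/-- fan from one boundary point over a segment of `R` which does not contain the point -/
private theorem Weak_same {z z' S : ℂ} (hz : segment ℝ z z' ⊆ P.R) (hd : S ∉ segment ℝ z z')
    (h : P.Vis z S) (h' : P.Vis z' S) : ∀ c ∈ segment ℝ z z', P.Vis c S := by
  intro c hcs
  have hcS : c ≠ S := by
    rintro rfl
    exact hd hcs
  by_cases e : cr (z' - z) (S - z) = 0
  · by_cases hzz : z' - z = 0
    · have h1 : z' = z := sub_eq_zero.1 hzz
      rw [h1, segment_same] at hcs
      rw [mem_singleton_iff.1 hcs]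
      exact h
    · obtain ⟨τ, hτ⟩ := cr_eq_zero hzz e
      obtain ⟨u1, u2, hu1, hu2, hu, rfl⟩ := hcs
      rw [Complex.real_smul, Complex.real_smul] at hcS ⊢
      have hS : S = z + (τ : ℂ) * (z' - z) := by linear_combination hτ
      have hu' : (u1 : ℂ) = 1 - u2 := by
        have : u1 = 1 - u2 := by linarith
        rw [this]; push_cast; ring
      rcases lt_or_ge τ 0 with h1 | h1
      · -- S, z, c, z'
        have h2 : (u1 : ℂ) * z + (u2 : ℂ) * z' ∈ segment ℝ z' S := by
          refine ⟨(u2 - τ) / (1 - τ), (1 - u2) / (1 - τ), ?_, ?_, ?_, ?_⟩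
          · exact div_nonneg (by linarith) (by linarith)
          · exact div_nonneg (by linarith) (by linarith)
          · field_simp [(by linarith : (1 - τ) ≠ 0)]
            ring
          · rw [Complex.real_smul, Complex.real_smul, hS, hu']
            have h3 : ((1 : ℂ) - τ) ≠ 0 := by
              have : (1 - τ : ℝ) ≠ 0 := by linarith
              exact_mod_cast this
            push_cast
            field_simp
            ring
        exact h'.sub h2 (right_mem_segment ℝ _ _) hcS
      · rcases lt_or_ge 1 τ with h2 | h2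
        · -- z, c, z', S
          have h2 : (u1 : ℂ) * z + (u2 : ℂ) * z' ∈ segment ℝ z S := by
            refine ⟨(τ - u2) / τ, u2 / τ, ?_, ?_, ?_, ?_⟩
            · exact div_nonneg (by linarith) (by linarith)
            · exact div_nonneg (by linarith) (by linarith)
            · field_simp [(by linarith : τ ≠ 0)]
              ring
            · rw [Complex.real_smul, Complex.real_smul, hS, hu']
              have h3 : (τ : ℂ) ≠ 0 := by
                have : τ ≠ 0 := by linarith
                exact_mod_cast this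
              push_cast
              field_simp
              ring
          exact h.sub h2 (right_mem_segment ℝ _ _) hcS
        · exfalso
          apply hd
          refine ⟨1 - τ, τ, by linarith, h1, by ring, ?_⟩
          rw [Complex.real_smul, Complex.real_smul, hS]
          push_cast
          ring
  · by_cases e1 : c = z
    · rw [e1]; exact h
    by_cases e2 : c = z'
    · rw [e2]; exact h'
    exact P.tri_vis z z' S e hz h'.seg h.symm.seg c
      (mem_openSegment_of_ne_left_right (Ne.symm e1) (Ne.symm e2) hcs)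

private theorem Weak_sub_R {z w x y : ℂ} (h : P.Vis z w) (hx : x ∈ segment ℝ z w)
    (hy : y ∈ segment ℝ z w) : segment ℝ x y ⊆ P.R :=
  ((convex_segment z w).segment_subset hx hy).trans h.seg

/-- the case where the two segments meet -/
private theorem Weak_cross (hc : P.CCW) {z z' : ℂ} {i : ℤ} {s s' : ℝ} (hs : (i : ℝ) < s)
    (hs1 : s < i + 1) (hs' : (i : ℝ) < s') (hs1' : s' < i + 1) (hz : segment ℝ z z' ⊆ P.R)
    (hd : Disjoint (segment ℝ z z') (segment ℝ (P.γ s) (P.γ s'))) (h : P.Vis z (P.γ s))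
    (h' : P.Vis z' (P.γ s')) (hss : s ≠ s') {x : ℂ} (hx : x ∈ segment ℝ z (P.γ s))
    (hx' : x ∈ segment ℝ z' (P.γ s')) (c : ℂ) (hcz : c ∈ openSegment ℝ z z') :
    ∃ σ ∈ uIcc s s', P.Vis c (P.γ σ) := by
  have hcs : c ∈ segment ℝ z z' := openSegment_subset_segment _ _ _ hcz
  have hd1 : c ≠ P.γ s := by
    rintro rfl
    exact Set.disjoint_left.1 hd hcs (left_mem_segment ℝ _ _)
  have hd2 : c ≠ P.γ s' := by
    rintro rfl
    exact Set.disjoint_left.1 hd hcs (right_mem_segment ℝ _ _)
  obtain ⟨a1, p, ha1, hp, hap, hxp⟩ := id hx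
  obtain ⟨a2, q, ha2, hq, haq, hxq⟩ := id hx'
  rw [Complex.real_smul, Complex.real_smul] at hxp hxq
  rcases eq_or_lt_of_le hp with hp0 | hp0
  · -- `x = z`
    have h1 : x = z := by
      have : a1 = 1 := by linarith
      rw [← hxp, ← hp0, this]
      simp
    rw [h1] at hx'
    refine ⟨s', right_mem_uIcc, h'.sub ?_ (right_mem_segment ℝ _ _) hd2⟩
    exact (convex_segment z' (P.γ s')).segment_subset hx' (left_mem_segment ℝ _ _) hcs
  rcases eq_or_lt_of_le hq with hq0 | hq0
  · have h1 : x = z' := by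
      have : a2 = 1 := by linarith
      rw [← hxq, ← hq0, this]
      simp
    rw [h1] at hx
    refine ⟨s, left_mem_uIcc, h.sub ?_ (right_mem_segment ℝ _ _) hd1⟩
    exact (convex_segment z (P.γ s)).segment_subset (left_mem_segment ℝ _ _) hx hcs
  -- the heights over the edge
  have l1 := Vis.left' hc hs hs1 h.symm
  have l2 := Vis.left' hc hs' hs1' h'.symm
  have c1 : P.γ s' - P.γ s = ((s' - s : ℝ) : ℂ) * (P.V (i + 1) - P.V i) :=
    P.γ_sub i s s' hs.le hs1.le hs'.le hs1'.le
  set e := P.V (i + 1) - P.V i with he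
  set S := P.γ s with hS
  set S' := P.γ s' with hS'
  have hap' : (a1 : ℂ) = 1 - p := by
    have : a1 = 1 - p := by linarith
    rw [this]; push_cast; ring
  have haq' : (a2 : ℂ) = 1 - q := by
    have : a2 = 1 - q := by linarith
    rw [this]; push_cast; ring
  have k1 : cr e (x - S) = a1 * cr e (z - S) := by
    rw [← cr_mul_right]
    congr 1
    rw [← hxp, hap']
    ring
  have k2 : cr e (x - S') = a2 * cr e (z' - S') := by
    rw [← cr_mul_right]
    congr 1
    rw [← hxq, haq']
    ring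
  have k3 : cr e (x - S') = cr e (x - S) := by
    have : x - S' = (x - S) - ((s' - s : ℝ) : ℂ) * e := by rw [← c1]; ring
    rw [this, cr_sub_right, cr_mul_right, cr_self]
    ring
  have ha1' : 0 < a1 := by
    rcases eq_or_lt_of_le ha1 with h1 | h1
    · exfalso
      rw [← h1, zero_mul] at k1
      rw [k1, k2] at k3
      have h2 : a2 = 0 := by
        rcases mul_eq_zero.1 k3 with h3 | h3
        · exact h3
        · exact absurd h3 l2.ne'
      have h4 : x = S := by
        have : p = 1 := by linarith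
        rw [← hxp, ← h1, this]
        simp
      have h5 : x = S' := by
        have : q = 1 := by linarith
        rw [← hxq, h2, this]
        simp
      have h6 : ((s' - s : ℝ) : ℂ) * e = 0 := by rw [← c1, ← h4, ← h5, sub_self]
      rcases mul_eq_zero.1 h6 with h7 | h7
      · have h8 : s' - s = 0 := by exact_mod_cast h7
        exact hss (by linarith)
      · rw [h7, cr_zero_left] at l1
        exact lt_irrefl _ l1
    · exact h1
  have hL : 0 < cr e (x - S) := by rw [k1]; exact mul_pos ha1' l1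
  have ha2' : 0 < a2 := by
    rcases eq_or_lt_of_le ha2 with h1 | h1
    · exfalso
      rw [← h1, zero_mul] at k2
      linarith
    · exact h1
  have ha1c : (a1 : ℂ) ≠ 0 := by exact_mod_cast ha1'.ne'
  have ha2c : (a2 : ℂ) ≠ 0 := by exact_mod_cast ha2'.ne'
  set α := p / a1 with hα
  set β := q / a2 with hβ
  have hα0 : 0 < α := div_pos hp0 ha1'
  have hβ0 : 0 < β := div_pos hq0 ha2'
  have m1 : x - z = (α : ℂ) * (S - x) := by
    rw [hα]
    push_cast
    field_simp
    linear_combination (-(1 : ℂ)) * hxp + (x) * hap'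
  have m2 : x - z' = (β : ℂ) * (S' - x) := by
    rw [hβ]
    push_cast
    field_simp
    linear_combination (-(1 : ℂ)) * hxq + (x) * haq'
  have hSS : cr (S' - S) (x - S) ≠ 0 := by
    rw [c1, cr_mul_left]
    exact mul_ne_zero (sub_ne_zero.2 (Ne.symm hss)) hL.ne'
  have hzz : cr (z' - z) (x - z) ≠ 0 := by
    have h1 : z' - z = (α : ℂ) * (S - x) - (β : ℂ) * (S' - x) := by rw [← m1, ← m2]; ring
    have h2 : cr (z' - z) (x - z) = -(α * β * cr (S' - x) (S - x)) := by
      rw [m1, h1, cr_sub_left, cr_mul_left, cr_mul_left, cr_mul_right, cr_mul_right, cr_self]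
      ring
    have h3 : cr (S' - x) (S - x) = -cr (S' - S) (x - S) := by
      simp [cr]
      ring
    rw [h2, h3]
    simp only [mul_neg, neg_neg]
    exact mul_ne_zero (mul_pos hα0 hβ0).ne' hSS
  obtain ⟨u1, u2, hu1, hu2, hu, hcu⟩ := id hcz
  rw [Complex.real_smul, Complex.real_smul] at hcu
  set μ := u1 * α + u2 * β with hμ
  have hμ0 : 0 < μ := add_pos (mul_pos hu1 hα0) (mul_pos hu2 hβ0)
  have hμc : (μ : ℂ) ≠ 0 := by exact_mod_cast hμ0.ne'
  set r := u2 * β / μ with hr
  have hr0 : 0 < r := div_pos (mul_pos hu2 hβ0) hμ0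
  have hr1 : r < 1 := by
    rw [hr, div_lt_one hμ0, hμ]
    have := mul_pos hu1 hα0
    linarith
  set σ := s + r * (s' - s) with hσ
  have hσ1 : σ ∈ uIcc s s' := by
    rw [← segment_eq_uIcc]
    exact ⟨1 - r, r, by linarith, hr0.le, by ring, by rw [hσ]; simp only [smul_eq_mul]; ring⟩
  have hσi : (i : ℝ) ≤ σ ∧ σ ≤ i + 1 :=
    ⟨(le_min hs.le hs'.le).trans hσ1.1, hσ1.2.trans (max_le hs1.le hs1'.le)⟩
  have hγσ : P.γ σ = S + (r : ℂ) * (S' - S) := by
    have h1 := P.γ_sub i s σ hs.le hs1.le hσi.1 hσi.2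
    have h2 : ((σ - s : ℝ) : ℂ) = (r : ℂ) * ((s' - s : ℝ) : ℂ) := by
      rw [hσ]
      push_cast
      ring
    rw [h2, mul_assoc, ← he, ← c1] at h1
    linear_combination h1
  have hxσ : x - c = (μ : ℂ) * (P.γ σ - x) := by
    have h1 : x - c = (u1 : ℂ) * (x - z) + (u2 : ℂ) * (x - z') := by
      have hu' : (u1 : ℂ) + u2 = 1 := by exact_mod_cast hu
      rw [← hcu]
      linear_combination (-x) * hu'
    rw [h1, m1, m2, hγσ, hr]
    push_cast
    field_simp
    rw [hμ]
    push_cast
    ring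
  refine ⟨σ, hσ1, ?_⟩
  have v1 : P.Vis c x := P.tri_vis z z' x hzz hz
    (P.Weak_sub_R h' (left_mem_segment ℝ _ _) hx') (P.Weak_sub_R h hx (left_mem_segment ℝ _ _))
    c hcz
  have v2 : P.Vis (P.γ σ) x := by
    refine P.tri_vis S S' x hSS (P.Weak_edge_R hs.le hs1.le hs'.le hs1'.le)
      (P.Weak_sub_R h' (right_mem_segment ℝ _ _) hx')
      (P.Weak_sub_R h hx (right_mem_segment ℝ _ _)) (P.γ σ) ?_
    refine ⟨1 - r, r, by linarith, hr0, by ring, ?_⟩
    rw [Complex.real_smul, Complex.real_smul, hγσ]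
    push_cast
    ring
  have v3 : x ∈ P.I := by
    apply h
    refine ⟨a1, p, ha1', hp0, hap, ?_⟩
    rw [Complex.real_smul, Complex.real_smul]
    exact hxp
  have hxr : x ∈ Set.range (AffineMap.lineMap c (P.γ σ) : ℝ → ℂ) := by
    refine ⟨μ / (1 + μ), ?_⟩
    rw [AffineMap.lineMap_apply]
    simp only [vsub_eq_sub, vadd_eq_add, Complex.real_smul]
    have h1 : (1 : ℂ) + μ ≠ 0 := by
      have : (1 + μ : ℝ) ≠ 0 := by linarith
      exact_mod_cast this
    push_cast
    field_simp
    linear_combination -hxσ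
  intro w hw
  rcases openSegment_subset_union c (P.γ σ) hxr hw with h1 | h1 | h1
  · rw [h1]; exact v3
  · exact v1 h1
  · exact v2.symm h1

theorem f2 (hc : P.CCW) {z z' : ℂ} {i : ℤ} {s s' : ℝ} (hs : (i : ℝ) < s) (hs1 : s < i + 1)
    (hs' : (i : ℝ) < s') (hs1' : s' < i + 1) (hz : segment ℝ z z' ⊆ P.R)
    (hd : Disjoint (segment ℝ z z') (segment ℝ (P.γ s) (P.γ s'))) (h : P.Vis z (P.γ s))
    (h' : P.Vis z' (P.γ s')) : ∀ c ∈ segment ℝ z z', ∃ σ ∈ uIcc s s', P.Vis c (P.γ σ) := by
  intro c hcs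
  by_cases hss : s = s'
  · subst hss
    refine ⟨s, left_mem_uIcc, P.Weak_same hz ?_ h h' c hcs⟩
    intro h1
    exact Set.disjoint_left.1 hd h1 (left_mem_segment ℝ _ _)
  by_cases e1 : c = z
  · rw [e1]; exact ⟨s, left_mem_uIcc, h⟩
  by_cases e2 : c = z'
  · rw [e2]; exact ⟨s', right_mem_uIcc, h'⟩
  have hco : c ∈ openSegment ℝ z z' :=
    mem_openSegment_of_ne_left_right (Ne.symm e1) (Ne.symm e2) hcs
  by_cases hx : Disjoint (segment ℝ z (P.γ s)) (segment ℝ (P.γ s') z')
  · have hzz : z ≠ z' := by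
      rintro rfl
      rw [segment_same] at hcs
      exact e1 hcs
    have hSS : P.γ s ≠ P.γ s' := by
      intro h1
      have h2 := P.γ_sub i s s' hs.le hs1.le hs'.le hs1'.le
      rw [h1, sub_self] at h2
      rcases mul_eq_zero.1 h2.symm with h3 | h3
      · have h4 : s' - s = 0 := by exact_mod_cast h3
        exact hss (by linarith)
      · exact P.V_ne i (sub_eq_zero.1 h3).symm
    rcases P.quad' z (P.γ s) (P.γ s') z' hzz hSS h.seg
      (P.Weak_edge_R hs.le hs1.le hs'.le hs1'.le) h'.symm.seg (by rw [segment_symm]; exact hz) hx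
      (by rw [segment_symm ℝ z' z]; exact hd.symm) with h1 | h1
    · exact ⟨s, left_mem_uIcc, h1 c (by rw [openSegment_symm]; exact hco)⟩
    · exact ⟨s', right_mem_uIcc, h1 c (by rw [openSegment_symm]; exact hco)⟩
  · obtain ⟨x, hx1, hx2⟩ := Set.not_disjoint_iff.1 hx
    rw [segment_symm] at hx2
    exact P.Weak_cross hc hs hs1 hs' hs1' hz hd h h' hss hx1 hx2 c hco

/-- points of another edge -/
theorem f2_edge (hc : P.CCW) {i j : ℤ} {s s' y y' : ℝ} (hs : (i : ℝ) < s) (hs1 : s < i + 1)
    (hs' : (i : ℝ) < s') (hs1' : s' < i + 1) (hy : (j : ℝ) < y) (hyy : y ≤ y') (hy' : y' < j + 1)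
    (h : P.Vis (P.γ s) (P.γ y)) (h' : P.Vis (P.γ s') (P.γ y')) :
    ∀ c ∈ Icc y y', ∃ σ ∈ uIcc s s', P.Vis (P.γ σ) (P.γ c) := by
  intro c hcy
  have hseg := P.segment_γ hy.le (by linarith : y ≤ j + 1) (by linarith : (j : ℝ) ≤ y') hy'.le
  have hdis : Disjoint (segment ℝ (P.γ y) (P.γ y')) (segment ℝ (P.γ s) (P.γ s')) := by
    rw [hseg, P.segment_γ hs.le hs1.le hs'.le hs1'.le, Set.disjoint_left]
    rintro w ⟨b, hb, rfl⟩ ⟨a, ha, hab⟩
    rw [uIcc_of_le hyy] at hb
    obtain ⟨m, hm⟩ := P.γ_inj hab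
    have ha1 : (i : ℝ) < a := (lt_min hs hs').trans_le ha.1
    have ha2 : a < i + 1 := ha.2.trans_lt (max_lt hs1 hs1')
    have hb1 : (j : ℝ) < b := hy.trans_le hb.1
    have hb2 : b < j + 1 := hb.2.trans_lt hy'
    have hji : j = i + m * n := by
      have h1 : ((i + m * n : ℤ) : ℝ) < j + 1 := by push_cast; linarith
      have h2 : (j : ℝ) < ((i + m * n : ℤ) : ℝ) + 1 := by push_cast; linarith
      have h3 : i + m * n < j + 1 := by exact_mod_cast h1
      have h4 : j < i + m * n + 1 := by exact_mod_cast h2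
      omega
    have hjr : (j : ℝ) = i + m * n := by rw [hji]; push_cast; ring
    have h5 : P.γ (y + ((-m : ℤ) : ℝ) * n) = P.γ y := P.γ_add_mul y (-m)
    rw [← h5] at h
    refine P.not_vis_edge i hs.le hs1.le ?_ ?_ h
    · push_cast; linarith
    · push_cast; linarith
  obtain ⟨σ, hσ, hv⟩ := P.f2 hc hs hs1 hs' hs1' (P.Weak_edge_R hy.le (by linarith) (by linarith)
    hy'.le) hdis h.symm h'.symm (P.γ c) (by
      rw [hseg, uIcc_of_le hyy]
      exact ⟨c, hcy, rfl⟩)
  exact ⟨σ, hσ, hv.symm⟩

/-- points of a free segment -/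
theorem f2_chord (hc : P.CCW) {A B z z' : ℂ} (hw : P.Vis A B) (hz : z ∈ openSegment ℝ A B)
    (hz' : z' ∈ openSegment ℝ A B) {i : ℤ} {s s' : ℝ} (hs : (i : ℝ) < s) (hs1 : s < i + 1)
    (hs' : (i : ℝ) < s') (hs1' : s' < i + 1) (h : P.Vis z (P.γ s)) (h' : P.Vis z' (P.γ s')) :
    ∀ c ∈ segment ℝ z z', ∃ σ ∈ uIcc s s', P.Vis c (P.γ σ) := by
  have h1 : segment ℝ z z' ⊆ P.I :=
    ((convex_openSegment A B).segment_subset hz hz').trans hw
  refine P.f2 hc hs hs1 hs' hs1' (h1.trans Set.subset_union_right) ?_ h h'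
  rw [Set.disjoint_left]
  intro w hw1 hw2
  rw [P.segment_γ hs.le hs1.le hs'.le hs1'.le] at hw2
  obtain ⟨t, -, rfl⟩ := hw2
  exact (h1 hw1).1 (P.γ_mem_C t)

/-- the part of an edge seen from one point is an interval -/
theorem f2_pt (hc : P.CCW) {v : ℂ} {k : ℤ} {x x' : ℝ} (hx : (k : ℝ) < x) (hxx : x ≤ x')
    (hx' : x' < k + 1) (h : P.Vis v (P.γ x)) (h' : P.Vis v (P.γ x')) :
    ∀ c ∈ Icc x x', P.Vis v (P.γ c) :=
  P.Weak_pt hc hx hxx hx' h h'

/-- the part of a free segment seen from one boundary point is an interval -/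
theorem f2_pt_chord (hc : P.CCW) {v A B z z' : ℂ} (hw : P.Vis A B) (hz : z ∈ openSegment ℝ A B)
    (hz' : z' ∈ openSegment ℝ A B) (h : P.Vis v z) (h' : P.Vis v z') :
    ∀ c ∈ segment ℝ z z', P.Vis v c := by
  intro c hcs
  have h1 : segment ℝ z z' ⊆ P.I :=
    ((convex_openSegment A B).segment_subset hz hz').trans hw
  by_cases e : cr (z' - z) (v - z) = 0
  · by_cases hzz : z' - z = 0
    · have h2 : z' = z := sub_eq_zero.1 hzz
      rw [h2, segment_same] at hcs
      rw [mem_singleton_iff.1 hcs]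
      exact h
    · obtain ⟨τ, hτ⟩ := cr_eq_zero hzz e
      have hv : v = z + (τ : ℂ) * (z' - z) := by linear_combination hτ
      obtain ⟨u1, u2, hu1, hu2, hu, rfl⟩ := hcs
      rintro w ⟨r1, r2, hr1, hr2, hr, rfl⟩
      simp only [Complex.real_smul]
      have hu' : (u1 : ℂ) = 1 - u2 := by
        have : u1 = 1 - u2 := by linarith
        rw [this]; push_cast; ring
      have hr' : (r1 : ℂ) = 1 - r2 := by
        have : r1 = 1 - r2 := by linarith
        rw [this]; push_cast; ring
      set ω := (1 - r2) * τ + r2 * u2 with hω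
      have hww : (r1 : ℂ) * v + (r2 : ℂ) * ((u1 : ℂ) * z + (u2 : ℂ) * z') =
          z + (ω : ℂ) * (z' - z) := by
        rw [hv, hr', hu', hω]
        push_cast
        ring
      rw [hww]
      have hr1' : r1 = 1 - r2 := by linarith
      rw [hr1'] at hr1
      rcases lt_or_ge ω 0 with k1 | k1
      · apply h
        have hτ0 : τ < ω := by
          have : ω - τ = r2 * (u2 - τ) := by rw [hω]; ring
          have h3 : τ < 0 := by
            by_contra h4
            push Not at h4
            have := mul_nonneg hr1.le h4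
            have := mul_nonneg hr2.le hu2
            linarith
          have := mul_pos hr2 (by linarith : 0 < u2 - τ)
          linarith
        have hτn : τ < 0 := hτ0.trans k1
        refine ⟨ω / τ, 1 - ω / τ, div_pos_of_neg_of_neg k1 hτn, ?_, by ring, ?_⟩
        · rw [sub_pos, div_lt_one_of_neg hτn]
          exact hτ0
        · rw [Complex.real_smul, Complex.real_smul, hv]
          have h3 : (τ : ℂ) ≠ 0 := by exact_mod_cast hτn.ne
          push_cast
          field_simp
          ring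
      · rcases lt_or_ge 1 ω with k2 | k2
        · apply h'
          have hτ0 : ω < τ := by
            have h3 : 1 < τ := by
              by_contra h4
              push Not at h4
              have h5 := mul_nonneg hr1.le (by linarith : 0 ≤ 1 - τ)
              have h6 := mul_nonneg hr2.le (by linarith : 0 ≤ 1 - u2)
              have : 1 - ω = (1 - r2) * (1 - τ) + r2 * (1 - u2) := by rw [hω]; ring
              linarith
            have : τ - ω = r2 * (τ - u2) := by rw [hω]; ring
            have := mul_pos hr2 (by linarith : 0 < τ - u2)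
            linarith
          have hτ1 : 1 < τ := k2.trans hτ0
          refine ⟨(ω - 1) / (τ - 1), (τ - ω) / (τ - 1), div_pos (by linarith) (by linarith),
            div_pos (by linarith) (by linarith), ?_, ?_⟩
          · rw [← add_div, div_eq_one_iff_eq (by linarith)]
            ring
          · rw [Complex.real_smul, Complex.real_smul, hv]
            have h3 : ((τ : ℂ) - 1) ≠ 0 := by
              have : (τ - 1 : ℝ) ≠ 0 := by linarith
              exact_mod_cast this
            push_cast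
            field_simp
            ring
        · apply h1
          refine ⟨1 - ω, ω, by linarith, k1, by ring, ?_⟩
          rw [Complex.real_smul, Complex.real_smul]
          push_cast
          ring
  · by_cases e1 : c = z
    · rw [e1]; exact h
    by_cases e2 : c = z'
    · rw [e2]; exact h'
    exact (P.tri_vis z z' v e (h1.trans Set.subset_union_right) h'.symm.seg h.seg c
      (mem_openSegment_of_ne_left_right (Ne.symm e1) (Ne.symm e2) hcs)).symm

end Poly

end Pool.Agent.Lib_PL
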