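import Pool.Agent.Lib_PL.Levels
import Pool.Agent.Lib_PL.Pass

/-!
Frontier points in the interior lie on windows.

Let `z ∈ frontier (VV p k)`, `z ∈ I`.  `z ∉ VV p k` (`VV_open`).  Take `z_m → z` in `VV p k`, `z_m` sees `r_m` with `r_m = p` or `r_m = γ (x_m)`,
`x_m ∈ Bp p j`, `k = j + 1`; pass to a subsequence with `x_m → e` in a bounded window, `r* = p` or `γ e`.  The segment `z r*` is in `R`
(limit).  Case 1: the open segment `z r*` misses `C`: then `z` sees `r*`; `r* = p` impossible; `e` not an integer: `vis_open_end`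
gives `z` sees `x_m`: impossible; `e` an integer: `r* = V ν`; `x_m > e` for infinitely many `m` (say), `z_m` strictly left of edge `e`, so `z`
weakly left; strictly left is impossible (`vis_after`), so `z` is on the line of edge `e`, and behind the vertex (`Vis.sector`): `z - V ν`
is a positive multiple of `V ν - V (ν+1)`; take `r = V (ν+1)`.  (`x_m < e`: `r = V (ν-1)`; `x_m = e` impossible.)
Case 2: let `v` be the point of `C` on the open segment `z r*` nearest to `z`.  It is a vertex (`seg_sector'`: the edge through a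
non-vertex point would be collinear with the segment, and its end would be nearer).  If there is another vertex on the half-open
segment `(v, r*]` take it as `r`; if `r* = p` take `r = p`.  Otherwise `v` sees `r*` (there are no contacts between; an edge
collinear with the segment has its ends there), `e` is not an integer, `r* = γ e`; by `vis_open_end` `v` sees `x_m`, so
`e ∈ closure (SeeSet p j ν)`.  If `e ∉ SeeSet p j ν` take `r = γ e`.  If `e ∈ SeeSet`: the boundary at `v` is strictly on one side of the line (both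
directions are free, so strictly inside the sector), `vis_pass` or `vis_pass'` gives points `e'` near `e`, in `Bp p j` (`Bp_open`), seen
from `z`: `z ∈ VV p k`: contradiction.
-/

open Set Complex
open scoped Topology

namespace Pool.Agent.Lib_PL

private theorem winA_mem_seg (A B z : ℂ) :
    z ∈ segment ℝ A B ↔ ∃ t : ℝ, 0 ≤ t ∧ t ≤ 1 ∧ z = A + (t : ℂ) * (B - A) := by
  rw [segment_eq_image']
  constructor
  · rintro ⟨t, ht, rfl⟩
    exact ⟨t, ht.1, ht.2, by simp [Complex.real_smul]⟩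
  · rintro ⟨t, h0, h1, rfl⟩
    exact ⟨t, ⟨h0, h1⟩, by simp [Complex.real_smul]⟩

private theorem winA_mem_oseg (A B z : ℂ) :
    z ∈ openSegment ℝ A B ↔ ∃ t : ℝ, 0 < t ∧ t < 1 ∧ z = A + (t : ℂ) * (B - A) := by
  rw [openSegment_eq_image']
  constructor
  · rintro ⟨t, ht, rfl⟩
    exact ⟨t, ht.1, ht.2, by simp [Complex.real_smul]⟩
  · rintro ⟨t, h0, h1, rfl⟩
    exact ⟨t, ⟨h0, h1⟩, by simp [Complex.real_smul]⟩

namespace Poly

variable {n : ℕ} (P : Poly n)

/-- limits of free segments are in the polygon -/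
private theorem winA_limit {z r : ℂ} (h : (z, r) ∈ closure {q : ℂ × ℂ | P.Vis q.2 q.1}) :
    segment ℝ z r ⊆ P.R := by
  intro c hc
  obtain ⟨s, h0, h1, rfl⟩ := (winA_mem_seg _ _ _).1 hc
  have hcont : Continuous fun q : ℂ × ℂ => q.1 + (s : ℂ) * (q.2 - q.1) := by fun_prop
  have h2 : z + (s : ℂ) * (r - z) ∈ closure P.R := by
    refine map_mem_closure (f := fun q : ℂ × ℂ => q.1 + (s : ℂ) * (q.2 - q.1)) hcont h ?_
    rintro ⟨z', r'⟩ hq
    have h3 : P.Vis r' z' := hq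
    exact h3.symm.seg ((winA_mem_seg _ _ _).2 ⟨s, h0, h1, rfl⟩)
  rwa [P.R_closed.closure_eq] at h2

private theorem winA_ext {x : ℝ} (h : NI x) (d : ℂ) :
    InSector (P.em x) (P.ep x) d ↔ cr (P.ed x) d < 0 := by
  obtain ⟨t, ht, h1⟩ := P.ep_NI h
  obtain ⟨t', ht', h2⟩ := P.em_NI h
  have h3 : cr (P.em x) (P.ep x) = 0 := by
    rw [h1, h2, cr_neg_left, cr_mul_left, cr_mul_right, cr_self]
    ring
  rw [InSector_flat h3, h2, cr_neg_left, cr_mul_left]
  constructor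
  · intro h4
    by_contra h5
    push Not at h5
    have := mul_nonneg ht'.le h5
    linarith
  · intro h4
    have := mul_neg_of_pos_of_neg ht' h4
    linarith

/-- first contact of a segment -/
private theorem winA_first (hc : P.CCW) {z r : ℂ} (hI : z ∈ P.I) (hR : segment ℝ z r ⊆ P.R) :
    P.Vis z r ∨ ∃ (t0 : ℝ) (ν : ℤ), 0 < t0 ∧ t0 < 1 ∧ P.V ν = z + (t0 : ℂ) * (r - z) ∧
      P.Vis (P.V ν) z := by
  by_cases hV : P.Vis z r
  · exact Or.inl hV
  right
  have h1 : ∃ c ∈ openSegment ℝ z r, c ∉ P.I := by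
    by_contra hcon
    push Not at hcon
    exact hV hcon
  obtain ⟨c, hc1, hc2⟩ := h1
  have hcC : c ∈ P.C := (hR (openSegment_subset_segment ℝ _ _ hc1)).resolve_right hc2
  obtain ⟨t1, h10, h11, rfl⟩ := (winA_mem_oseg _ _ _).1 hc1
  set T : Set ℝ := Icc 0 1 ∩ (fun t : ℝ => z + (t : ℂ) * (r - z)) ⁻¹' P.C with hT
  have hTc : IsCompact T := isCompact_Icc.inter_right (P.C_closed.preimage (by fun_prop))
  obtain ⟨t0, ht0, hleast⟩ := hTc.exists_isLeast ⟨t1, ⟨h10.le, h11.le⟩, hcC⟩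
  have ht01 : t0 ≤ t1 := hleast ⟨⟨h10.le, h11.le⟩, hcC⟩
  have ht0C : z + (t0 : ℂ) * (r - z) ∈ P.C := ht0.2
  have h0 : 0 < t0 := by
    refine lt_of_le_of_ne ht0.1.1 fun h => ?_
    rw [← h, Complex.ofReal_zero, zero_mul, add_zero] at ht0C
    exact P.I_disj_C hI ht0C
  have hlt : t0 < 1 := lt_of_le_of_lt ht01 h11
  have hvis : P.Vis z (z + (t0 : ℂ) * (r - z)) := by
    intro d hd
    obtain ⟨s, hs0, hs1, rfl⟩ := (winA_mem_oseg _ _ _).1 hd
    have e1 : z + (s : ℂ) * (z + (t0 : ℂ) * (r - z) - z) = z + ((s * t0 : ℝ) : ℂ) * (r - z) := by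
      push_cast
      ring
    rw [e1]
    have hst0 : 0 < s * t0 := mul_pos hs0 h0
    have hst1 : s * t0 < t0 := by nlinarith
    rcases hR ((winA_mem_seg _ _ _).2 ⟨s * t0, hst0.le, by linarith, rfl⟩) with h | h
    · exfalso
      have : t0 ≤ s * t0 := hleast ⟨⟨hst0.le, by linarith⟩, h⟩
      linarith
    · exact h
  obtain ⟨x0, hx0⟩ := (P.mem_C_iff _).1 ht0C
  have hmem : P.γ x0 ∈ openSegment ℝ z r := by
    rw [hx0]
    exact (winA_mem_oseg _ _ _).2 ⟨t0, h0, hlt, rfl⟩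
  by_cases hNI : NI x0
  · exfalso
    have h2 := (P.seg_sector' hc hR hmem).2
    rw [P.winA_ext hNI] at h2
    rw [← hx0] at hvis
    have h3 := hvis.symm.left hc hNI
    have e1 : z - P.γ x0 = ((-t0 : ℝ) : ℂ) * (r - z) := by
      rw [hx0]
      push_cast
      ring
    rw [e1, cr_mul_right] at h3
    apply h2
    nlinarith
  · have h2 : ∃ ν : ℤ, (ν : ℝ) = x0 := by
      unfold NI at hNI
      push Not at hNI
      exact hNI
    obtain ⟨ν, rfl⟩ := h2
    rw [P.γ_int] at hx0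
    refine ⟨t0, ν, h0, hlt, hx0, ?_⟩
    rw [hx0]
    exact hvis.symm

/-- a further contact gives a further vertex -/
private theorem winA_second (hc : P.CCW) {z r : ℂ} (hR : segment ℝ z r ⊆ P.R) (hne : z ≠ r)
    {t1 : ℝ} (h0 : 0 < t1) (h1 : t1 < 1) (hC : z + (t1 : ℂ) * (r - z) ∈ P.C) :
    ∃ (m : ℤ) (t2 : ℝ), t1 ≤ t2 ∧ P.V m = z + (t2 : ℂ) * (r - z) := by
  obtain ⟨y, hy⟩ := (P.mem_C_iff _).1 hC
  have hmem : P.γ y ∈ openSegment ℝ z r := by
    rw [hy]
    exact (winA_mem_oseg _ _ _).2 ⟨t1, h0, h1, rfl⟩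
  by_cases hNI : NI y
  · obtain ⟨h2, h3⟩ := P.seg_sector' hc hR hmem
    rw [P.winA_ext hNI] at h2 h3
    have h4 : cr (P.ed y) (z - r) = - cr (P.ed y) (r - z) := by
      rw [← cr_neg_right]
      congr 1
      ring
    have h5 : cr (P.ed y) (r - z) = 0 := by
      rw [h4] at h2
      push Not at h2 h3
      linarith
    have h6 : cr (r - z) (P.ed y) = 0 := by
      rw [cr_swap, h5, neg_zero]
    obtain ⟨a, ha⟩ := cr_eq_zero (sub_ne_zero.2 hne.symm) h6
    obtain ⟨hk1, hk2, -⟩ := NI_floor hNI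
    have e1 := P.γ_sub ⌊y⌋ y (⌊y⌋ + 1) hk1.le hk2.le (by linarith) le_rfl
    have e2 := P.γ_sub ⌊y⌋ y ⌊y⌋ hk1.le hk2.le le_rfl (by linarith)
    have e3 : P.V (⌊y⌋ + 1) - P.V ⌊y⌋ = P.ed y := rfl
    have e4 : P.γ ((⌊y⌋ : ℝ) + 1) = P.V (⌊y⌋ + 1) := by
      have := P.γ_int (⌊y⌋ + 1)
      rw [← this]
      push_cast
      rfl
    rw [e3, ha, e4] at e1
    rw [e3, ha, P.γ_int] at e2
    rcases le_total 0 a with h7 | h7
    · refine ⟨⌊y⌋ + 1, t1 + ((⌊y⌋ : ℝ) + 1 - y) * a, ?_, ?_⟩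
      · have := mul_nonneg (by linarith : (0 : ℝ) ≤ (⌊y⌋ : ℝ) + 1 - y) h7
        linarith
      · have e5 : P.V (⌊y⌋ + 1) = P.γ y + (P.V (⌊y⌋ + 1) - P.γ y) := by ring
        rw [e5, e1, hy]
        push_cast
        ring
    · refine ⟨⌊y⌋, t1 + ((⌊y⌋ : ℝ) - y) * a, ?_, ?_⟩
      · have := mul_nonneg_of_nonpos_of_nonpos (by linarith : (⌊y⌋ : ℝ) - y ≤ 0) h7
        linarith
      · have e5 : P.V ⌊y⌋ = P.γ y + (P.V ⌊y⌋ - P.γ y) := by ring
        rw [e5, e2, hy]
        push_cast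
        ring
  · have h2 : ∃ ν : ℤ, (ν : ℝ) = y := by
      unfold NI at hNI
      push Not at hNI
      exact hNI
    obtain ⟨ν, rfl⟩ := h2
    rw [P.γ_int] at hy
    exact ⟨ν, t1, le_rfl, hy⟩

/-- the direction condition -/
private theorem winA_dir {z r v r' : ℂ} (hne : z ≠ r) {t0 t2 : ℝ} (h0 : 0 < t0) (h2 : t0 < t2)
    (hv : v = z + (t0 : ℂ) * (r - z)) (hr : r' = z + (t2 : ℂ) * (r - z)) :
    r' ≠ v ∧ ∃ t : ℝ, 0 < t ∧ z - v = (t : ℂ) * (v - r') := by
  have h3 : 0 < t2 - t0 := by linarith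
  have h4 : ((t2 - t0 : ℝ) : ℂ) ≠ 0 := by exact_mod_cast h3.ne'
  constructor
  · intro h
    rw [hv, hr] at h
    have h5 : ((t2 - t0 : ℝ) : ℂ) * (r - z) = 0 := by
      push_cast
      linear_combination h
    rcases mul_eq_zero.1 h5 with h6 | h6
    · exact h4 h6
    · exact hne (sub_eq_zero.1 h6).symm
  · refine ⟨t0 / (t2 - t0), by positivity, ?_⟩
    have e1 : z - v = ((-t0 : ℝ) : ℂ) * (r - z) := by rw [hv]; push_cast; ring
    have e2 : v - r' = -(((t2 - t0 : ℝ) : ℂ) * (r - z)) := by rw [hv, hr]; push_cast; ring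
    rw [e1, e2, Complex.ofReal_div]
    field_simp
    push_cast
    ring

/-- a sequence of lit boundary points has a limit position -/
private theorem winA_pos {p z : ℂ} {j : ℕ}
    (h : z ∈ closure {z' | ∃ x ∈ P.Bp p j, P.Vis (P.γ x) z'}) :
    ∃ e : ℝ, (z, e) ∈ closure {q : ℂ × ℝ | q.2 ∈ P.Bp p j ∧ P.Vis (P.γ q.2) q.1} := by
  obtain ⟨u, hu, hlim⟩ := mem_closure_iff_seq_limit.1 h
  have hn : 0 < (n : ℝ) := by
    have := P.three_le
    positivity
  have hx : ∀ m : ℕ, ∃ x ∈ Icc (0 : ℝ) n, x ∈ P.Bp p j ∧ P.Vis (P.γ x) (u m) := by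
    intro m
    obtain ⟨x, hx1, hx2⟩ := hu m
    set c : ℤ := ⌊x / n⌋ with hc
    have h1 : (c : ℝ) ≤ x / n := Int.floor_le _
    have h2 : x / n < (c : ℝ) + 1 := Int.lt_floor_add_one _
    rw [le_div_iff₀ hn] at h1
    rw [div_lt_iff₀ hn] at h2
    have h3 : x = x - c * n + c * n := by ring
    refine ⟨x - c * n, ⟨by linarith, by linarith⟩, ?_, ?_⟩
    · rw [h3] at hx1
      exact (P.Bp_add p j _ c).1 hx1
    · rw [h3, P.γ_add_mul] at hx2
      exact hx2
  choose x hx1 hx2 hx3 using hx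
  obtain ⟨e, -, φ, hφ, hφlim⟩ := isCompact_Icc.tendsto_subseq hx1
  refine ⟨e, ?_⟩
  have h1 : Filter.Tendsto (fun m => (u (φ m), x (φ m))) Filter.atTop (𝓝 (z, e)) :=
    (hlim.comp hφ.tendsto_atTop).prodMk_nhds hφlim
  exact mem_closure_of_tendsto h1 (Filter.Eventually.of_forall fun m => ⟨hx2 _, hx3 _⟩)

private theorem winA_freq {p z : ℂ} {j : ℕ} {e : ℝ}
    (h : (z, e) ∈ closure {q : ℂ × ℝ | q.2 ∈ P.Bp p j ∧ P.Vis (P.γ q.2) q.1}) {δ : ℝ}
    (hδ : 0 < δ) : ∃ (z' : ℂ) (x : ℝ), ‖z' - z‖ < δ ∧ |x - e| < δ ∧ x ∈ P.Bp p j ∧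
      P.Vis (P.γ x) z' := by
  obtain ⟨⟨z', x⟩, ⟨h1, h2⟩, h3⟩ := Metric.mem_closure_iff.1 h δ hδ
  rw [Prod.dist_eq, max_lt_iff] at h3
  refine ⟨z', x, ?_, ?_, h1, h2⟩
  · rw [← dist_eq_norm, dist_comm]
    exact h3.1
  · rw [← Real.dist_eq, dist_comm]
    exact h3.2

private theorem winA_cont (w z : ℂ) (e : ℝ) (h : cr w (z - P.γ e) < 0) :
    ∃ δ > 0, ∀ (z' : ℂ) (x : ℝ), ‖z' - z‖ < δ → |x - e| < δ → cr w (z' - P.γ x) < 0 := by
  have hcont : Continuous fun q : ℂ × ℝ => cr w (q.1 - P.γ q.2) := by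
    have h1 : Continuous fun q : ℂ × ℝ => q.1 - P.γ q.2 :=
      continuous_fst.sub (P.γ_cont.comp continuous_snd)
    have h2 : Continuous fun q : ℂ × ℝ => (w, q.1 - P.γ q.2) := continuous_const.prodMk h1
    exact cr_continuous.comp h2
  have h2 : ∀ᶠ q : ℂ × ℝ in 𝓝 (z, e), cr w (q.1 - P.γ q.2) < 0 :=
    hcont.continuousAt.eventually_lt continuousAt_const h
  obtain ⟨δ, hδ, h3⟩ := Metric.eventually_nhds_iff.1 h2
  refine ⟨δ, hδ, fun z' x hz' hx => ?_⟩
  refine @h3 (z', x) ?_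
  rw [Prod.dist_eq, max_lt_iff]
  exact ⟨by rwa [dist_eq_norm], by rwa [Real.dist_eq]⟩

/-- both directions of a line are inside the sector: the boundary is on one side of the line -/
private theorem winA_side {e m w : ℂ} (h1 : InSector e m w) (h2 : InSector e m (-w)) :
    (0 < cr w e ∧ 0 < cr w m) ∨ (cr w e < 0 ∧ cr w m < 0) := by
  have a1 : cr e w = - cr w e := cr_swap e w
  have a2 : cr e (-w) = cr w e := by rw [cr_neg_right, a1, neg_neg]
  have a3 : cr (-w) m = - cr w m := cr_neg_left w m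
  rcases lt_trichotomy (cr e m) 0 with h | h | h
  · have b1 := h1.2.1 h
    have b2 := h2.2.1 h
    rw [a1] at b1
    rw [a2, a3] at b2
    rcases b1 with b1 | b1
    · rcases b2 with b2 | b2
      · linarith
      · right; constructor <;> linarith
    · rcases b2 with b2 | b2
      · left; constructor <;> linarith
      · linarith
  · have b1 := h1.2.2 h
    have b2 := h2.2.2 h
    rw [a1] at b1
    rw [a2] at b2
    linarith
  · have b1 := (h1.1 h).1
    have b2 := (h2.1 h).1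
    rw [a1] at b1
    rw [a2] at b2
    linarith

/-- the case in which `z` sees the limit position and this is a vertex -/
private theorem winA_vertex (hc : P.CCW) {p z : ℂ} {j : ℕ} {ν : ℤ} (hI : z ∈ P.I)
    (hzn : z ∉ P.VV p (j + 1)) (hvis : P.Vis (P.V ν) z)
    (h : (z, (ν : ℝ)) ∈ closure {q : ℂ × ℝ | q.2 ∈ P.Bp p j ∧ P.Vis (P.γ q.2) q.1}) :
    ∃ r : ℂ, r ≠ P.V ν ∧ (∃ t : ℝ, 0 < t ∧ z - P.V ν = (t : ℂ) * (P.V ν - r)) ∧
      ∃ m : ℤ, r = P.V m := by
  have hvis' : P.Vis (P.γ (ν : ℝ)) z := by rw [P.γ_int]; exact hvis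
  have hzν : z - P.V ν ≠ 0 := by
    intro h0
    have h1 := P.γ_mem_C (ν : ℝ)
    rw [P.γ_int, ← sub_eq_zero.1 h0] at h1
    exact P.I_disj_C hI h1
  have hsec := hvis'.sector hc
  have hdisj := sector_disj (P.ep_ne (ν : ℝ)) (P.em_ne (ν : ℝ)) (P.em_ne_ep (ν : ℝ)) hsec
  rw [P.γ_int, P.ep_int, P.em_int] at hdisj
  -- one of the two sides occurs frequently
  have hor : (∀ δ > 0, ∃ (z' : ℂ) (x : ℝ), ‖z' - z‖ < δ ∧ |x - ν| < δ ∧ x ∈ P.Bp p j ∧
      P.Vis (P.γ x) z' ∧ (ν : ℝ) < x) ∨ (∀ δ > 0, ∃ (z' : ℂ) (x : ℝ), ‖z' - z‖ < δ ∧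
      |x - ν| < δ ∧ x ∈ P.Bp p j ∧ P.Vis (P.γ x) z' ∧ x < (ν : ℝ)) := by
    by_contra hcon
    push Not at hcon
    obtain ⟨⟨δ1, hδ1, h1⟩, ⟨δ2, hδ2, h2⟩⟩ := hcon
    obtain ⟨z', x, k1, k2, k3, k4⟩ := P.winA_freq h (lt_min hδ1 hδ2)
    have l1 := h1 z' x (k1.trans_le (min_le_left _ _)) (k2.trans_le (min_le_left _ _)) k3 k4
    have l2 := h2 z' x (k1.trans_le (min_le_right _ _)) (k2.trans_le (min_le_right _ _)) k3 k4
    exact k3.1 ν (le_antisymm l2 l1)
  rcases hor with hor | hor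
  · -- positions after the vertex
    have hge : 0 ≤ cr (P.V (ν + 1) - P.V ν) (z - P.V ν) := by
      by_contra hcon
      push Not at hcon
      obtain ⟨δ, hδ, hneg⟩ := P.winA_cont _ z ν (by rw [P.γ_int]; exact hcon)
      obtain ⟨z', x, k1, k2, k3, k4, k5⟩ := hor (min δ 1) (by positivity)
      have k6 : x < (ν : ℝ) + 1 := by
        have := (abs_lt.1 (k2.trans_le (min_le_right _ _))).2
        linarith
      have k7 := k4.left' hc k5 k6
      have k8 := hneg z' x (k1.trans_le (min_le_left _ _)) (k2.trans_le (min_le_left _ _))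
      linarith
    rcases hge.eq_or_lt with h0 | h0
    · obtain ⟨s, hs⟩ := cr_eq_zero (sub_ne_zero.2 (P.V_ne ν).symm) h0.symm
      have hs0 : s < 0 := by
        rcases lt_trichotomy s 0 with h1 | h1 | h1
        · exact h1
        · rw [h1, Complex.ofReal_zero, zero_mul] at hs
          exact absurd hs hzν
        · exact absurd hs (hdisj.2.1 s h1)
      refine ⟨P.V (ν + 1), (P.V_ne ν).symm, ⟨-s, by linarith, ?_⟩, ν + 1, rfl⟩
      rw [hs]
      push_cast
      ring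
    · exfalso
      obtain ⟨ε, hε, haft⟩ := P.vis_after hc hvis' (by rw [P.ep_int, P.γ_int]; exact h0)
      obtain ⟨z', x, k1, k2, k3, k4, k5⟩ := hor ε hε
      have k6 := haft x k5 (by
        have := (abs_lt.1 k2).2
        linarith)
      exact hzn (P.VV_of_vis k3 k6)
  · -- positions before the vertex
    have hVne : P.V (ν - 1) - P.V ν ≠ 0 := by
      have := P.V_ne (ν - 1)
      rw [sub_add_cancel] at this
      exact sub_ne_zero.2 this
    have hge : 0 ≤ cr (P.V ν - P.V (ν - 1)) (z - P.V ν) := by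
      by_contra hcon
      push Not at hcon
      obtain ⟨δ, hδ, hneg⟩ := P.winA_cont _ z ν (by rw [P.γ_int]; exact hcon)
      obtain ⟨z', x, k1, k2, k3, k4, k5⟩ := hor (min δ 1) (by positivity)
      have k6 : ((ν - 1 : ℤ) : ℝ) < x := by
        have := (abs_lt.1 (k2.trans_le (min_le_right _ _))).1
        push_cast
        linarith
      have k7 := k4.left' hc k6 (by push_cast; linarith)
      rw [sub_add_cancel] at k7
      have k8 := hneg z' x (k1.trans_le (min_le_left _ _)) (k2.trans_le (min_le_left _ _))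
      linarith
    have hflip : cr (z - P.V ν) (P.V (ν - 1) - P.V ν) = cr (P.V ν - P.V (ν - 1)) (z - P.V ν) := by
      simp [cr]
      ring
    rcases hge.eq_or_lt with h0 | h0
    · have h0' : cr (P.V (ν - 1) - P.V ν) (z - P.V ν) = 0 := by
        rw [cr_swap, hflip, ← h0, neg_zero]
      obtain ⟨s, hs⟩ := cr_eq_zero hVne h0'
      have hs0 : s < 0 := by
        rcases lt_trichotomy s 0 with h1 | h1 | h1
        · exact h1
        · rw [h1, Complex.ofReal_zero, zero_mul] at hs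
          exact absurd hs hzν
        · exact absurd hs (hdisj.2.2 s h1)
      refine ⟨P.V (ν - 1), sub_ne_zero.1 hVne, ⟨-s, by linarith, ?_⟩, ν - 1, rfl⟩
      rw [hs]
      push_cast
      ring
    · exfalso
      obtain ⟨ε, hε, haft⟩ := P.vis_before hc hvis' (by
        rw [P.em_int, P.γ_int, hflip]; exact h0)
      obtain ⟨z', x, k1, k2, k3, k4, k5⟩ := hor ε hε
      have k6 := haft x (by
        have := (abs_lt.1 k2).1
        linarith) k5
      exact hzn (P.VV_of_vis k3 k6)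

/-- a lit point seen through a vertex: `z` sees points near it -/
private theorem winA_pass (hc : P.CCW) {p z : ℂ} {j : ℕ} {ν : ℤ} {e : ℝ}
    (hzn : z ∉ P.VV p (j + 1)) (hvis : P.Vis z (P.V ν)) (he : e ∈ P.SeeSet p j ν)
    (hmem : P.V ν ∈ openSegment ℝ z (P.γ e)) : False := by
  obtain ⟨heB, heV⟩ := he
  have hNI : NI e := heB.1
  have h1 : P.Vis z (P.γ (ν : ℝ)) := by rw [P.γ_int]; exact hvis
  have h2 : P.Vis (P.γ (ν : ℝ)) (P.γ e) := by rw [P.γ_int]; exact heV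
  have hx : P.γ (ν : ℝ) ∈ openSegment ℝ z (P.γ e) := by rw [P.γ_int]; exact hmem
  obtain ⟨a, ha0, ha1, ha⟩ := (winA_mem_oseg _ _ _).1 hx
  have s1 := h1.symm.sector hc
  have s2 := h2.sector hc
  have e1 : z - P.γ (ν : ℝ) = (a : ℂ) * (z - P.γ e) := by rw [ha]; ring
  have e2 : P.γ e - P.γ (ν : ℝ) = ((1 - a : ℝ) : ℂ) * (-(z - P.γ e)) := by
    rw [ha]; push_cast; ring
  rw [e1] at s1
  rw [e2] at s2
  have s1' := (InSector_smul ha0).1 s1
  have s2' := (InSector_smul (by linarith : (0 : ℝ) < 1 - a)).1 s2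
  -- the sign of the edge through `γ e`
  have h3 := h2.symm.left hc hNI
  have e3 : P.γ (ν : ℝ) - P.γ e = ((1 - a : ℝ) : ℂ) * (z - P.γ e) := by
    rw [ha]; push_cast; ring
  rw [e3, cr_mul_right] at h3
  have h4 : cr (z - P.γ e) (P.ed e) < 0 := by
    have h5 : 0 < cr (P.ed e) (z - P.γ e) :=
      (pos_iff_pos_of_mul_pos h3).1 (by linarith)
    rw [cr_swap]
    linarith
  obtain ⟨hf1, hf2, -⟩ := NI_floor hNI
  obtain ⟨ε2, hε2, hB⟩ := P.Bp_open hc heB
  have hγ : ∀ u : ℝ, (⌊e⌋ : ℝ) ≤ u → u ≤ ⌊e⌋ + 1 → P.γ u - P.γ e = ((u - e : ℝ) : ℂ) * P.ed e :=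
    fun u hu hu' => P.γ_sub ⌊e⌋ e u hf1.le hf2.le hu hu'
  have hexδ : ∀ ε1 : ℝ, 0 < ε1 → ∃ δ > 0, δ < ε1 ∧ δ < ε2 ∧ δ < e - ⌊e⌋ ∧ δ < ⌊e⌋ + 1 - e := by
    intro ε1 hε1
    have g1 : 0 < e - ⌊e⌋ := by linarith
    have g2 : 0 < (⌊e⌋ : ℝ) + 1 - e := by linarith
    have g3 : 0 < min (min ε1 ε2) (min (e - ⌊e⌋) (⌊e⌋ + 1 - e)) := by positivity
    have g4 := min_le_left (min ε1 ε2) (min (e - ⌊e⌋) (⌊e⌋ + 1 - e))
    have g5 := min_le_right (min ε1 ε2) (min (e - ⌊e⌋) (⌊e⌋ + 1 - e))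
    have g6 := min_le_left ε1 ε2
    have g7 := min_le_right ε1 ε2
    have g8 := min_le_left (e - ⌊e⌋) (⌊e⌋ + 1 - e)
    have g9 := min_le_right (e - ⌊e⌋) (⌊e⌋ + 1 - e)
    exact ⟨min (min ε1 ε2) (min (e - ⌊e⌋) (⌊e⌋ + 1 - e)) / 2, by linarith, by linarith,
      by linarith, by linarith, by linarith⟩
  rcases winA_side s1' s2' with ⟨h5, h6⟩ | ⟨h5, h6⟩
  · obtain ⟨ε1, hε1, hp⟩ := P.vis_pass hc hNI hx h1 h2 h5 h6
    obtain ⟨δ, hδ, d1, d2, d3, d4⟩ := hexδ ε1 hε1
    have habs : |e + δ - e| = δ := by rw [add_sub_cancel_left, abs_of_pos hδ]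
    have h7 := hp (e + δ) (by rw [habs]; exact d1) (by
      rw [hγ (e + δ) (by linarith) (by linarith), add_sub_cancel_left, cr_mul_right]
      exact mul_neg_of_pos_of_neg hδ h4)
    exact hzn (P.VV_of_vis (hB (e + δ) (by rw [habs]; exact d2)) h7.symm)
  · obtain ⟨ε1, hε1, hp⟩ := P.vis_pass' hc hNI hx h1 h2 h5 h6
    obtain ⟨δ, hδ, d1, d2, d3, d4⟩ := hexδ ε1 hε1
    have hsub : e - δ - e = -δ := by ring
    have habs : |e - δ - e| = δ := by rw [hsub, abs_neg, abs_of_pos hδ]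
    have h7 := hp (e - δ) (by rw [habs]; exact d1) (by
      rw [hγ (e - δ) (by linarith) (by linarith), hsub, cr_mul_right]
      exact mul_pos_of_neg_of_neg (by linarith) h4)
    exact hzn (P.VV_of_vis (hB (e - δ) (by rw [habs]; exact d2)) h7.symm)

theorem frontier_window (hc : P.CCW) {p : ℂ} (hp : p ∈ P.R) {k : ℕ} {z : ℂ}
    (hz : z ∈ frontier (P.VV p k)) (hI : z ∈ P.I) :
    ∃ (ν : ℤ) (r : ℂ), r ≠ P.V ν ∧ P.Vis (P.V ν) z ∧
      (∃ t : ℝ, 0 < t ∧ z - P.V ν = (t : ℂ) * (P.V ν - r)) ∧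
      (r = p ∨ (∃ m : ℤ, r = P.V m) ∨
        ∃ j : ℕ, j + 1 = k ∧ ∃ e : ℝ, r = P.γ e ∧ NI e ∧ e ∉ P.SeeSet p j ν ∧
          e ∈ closure (P.SeeSet p j ν)) := by
  have hzn : z ∉ P.VV p k := by
    intro h
    obtain ⟨ε, hε, hb⟩ := P.VV_open hc h hI
    have h1 : z ∈ interior (P.VV p k) :=
      mem_interior.2 ⟨Metric.ball z ε, fun z' hz' => hb z' (by rwa [← dist_eq_norm]),
        Metric.isOpen_ball, Metric.mem_ball_self hε⟩
    exact hz.2 h1
  have hcl : z ∈ closure (P.VV p k) := hz.1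
  have hcases : z ∈ closure {z' | P.Vis p z'} ∨
      ∃ j, j + 1 = k ∧ z ∈ closure {z' | ∃ x ∈ P.Bp p j, P.Vis (P.γ x) z'} := by
    rcases k with _ | j
    · left
      exact closure_mono (fun z' hz' => ((P.VV_zero p z').1 hz').2) hcl
    · have h1 : P.VV p (j + 1) ⊆ {z' | P.Vis p z'} ∪ {z' | ∃ x ∈ P.Bp p j, P.Vis (P.γ x) z'} := by
        intro z' hz'
        rcases (P.VV_succ p z' j).1 hz' with h | h
        · exact Or.inl ((P.VV_zero p z').1 h).2
        · exact Or.inr h.2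
      have h2 := closure_mono h1 hcl
      rw [closure_union] at h2
      rcases h2 with h2 | h2
      · exact Or.inl h2
      · exact Or.inr ⟨j, rfl, h2⟩
  have hz0 : ¬ P.Vis p z := fun h =>
    hzn (P.VV_mono p (Nat.zero_le k) ((P.VV_zero p z).2 ⟨P.I_sub_R hI, h⟩))
  rcases hcases with hA | ⟨j, rfl, hB⟩
  · -- limits of points which see `p`
    have hcl2 : (z, p) ∈ closure {q : ℂ × ℂ | P.Vis q.2 q.1} := by
      have hcont : Continuous fun z' : ℂ => (z', p) := by fun_prop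
      exact map_mem_closure (f := fun z' : ℂ => (z', p)) hcont hA fun z' hz' => hz'
    have hR := P.winA_limit hcl2
    have hne : z ≠ p := by
      rintro rfl
      apply hz0
      intro c hcc
      rw [openSegment_same] at hcc
      rw [hcc]
      exact hI
    rcases P.winA_first hc hI hR with h | ⟨t0, ν, h0, h1, hν, hvis⟩
    · exact absurd h.symm hz0
    · obtain ⟨h2, h3⟩ := winA_dir (r' := p) hne h0 h1 hν (by push_cast; ring)
      exact ⟨ν, p, h2, hvis, h3, Or.inl rfl⟩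
  · obtain ⟨e, he⟩ := P.winA_pos hB
    have hcl2 : (z, P.γ e) ∈ closure {q : ℂ × ℂ | P.Vis q.2 q.1} := by
      have hcont : Continuous fun q : ℂ × ℝ => (q.1, P.γ q.2) :=
        continuous_fst.prodMk (P.γ_cont.comp continuous_snd)
      exact map_mem_closure (f := fun q : ℂ × ℝ => (q.1, P.γ q.2)) hcont he fun q hq => hq.2
    have hR := P.winA_limit hcl2
    have hne : z ≠ P.γ e := by
      intro h
      apply P.I_disj_C hI
      rw [h]
      exact P.γ_mem_C e
    have hint : ¬ NI e → ∃ ν : ℤ, (ν : ℝ) = e := by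
      intro h
      unfold NI at h
      push Not at h
      exact h
    rcases P.winA_first hc hI hR with h | ⟨t0, ν, h0, h1, hν, hvis⟩
    · by_cases hNI : NI e
      · exfalso
        obtain ⟨ε, hε, hop⟩ := P.vis_open_end hc hNI h
        obtain ⟨z', x, -, k2, k3, -⟩ := P.winA_freq he hε
        exact hzn (P.VV_of_vis k3 (hop x k2).symm)
      · obtain ⟨ν, rfl⟩ := hint hNI
        rw [P.γ_int] at h
        obtain ⟨r, h1, h2, h3⟩ := P.winA_vertex hc hI hzn h.symm he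
        exact ⟨ν, r, h1, h.symm, h2, Or.inr (Or.inl h3)⟩
    · by_cases hv : ∃ (m : ℤ) (t2 : ℝ), t0 < t2 ∧ P.V m = z + (t2 : ℂ) * (P.γ e - z)
      · obtain ⟨m, t2, h2, hm⟩ := hv
        obtain ⟨h3, h4⟩ := winA_dir hne h0 h2 hν hm
        exact ⟨ν, P.V m, h3, hvis, h4, Or.inr (Or.inl ⟨m, rfl⟩)⟩
      · have hNI : NI e := by
          by_contra hcon
          obtain ⟨m, rfl⟩ := hint hcon
          exact hv ⟨m, 1, h1, by rw [P.γ_int]; push_cast; ring⟩
        have hvisE : P.Vis (P.V ν) (P.γ e) := by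
          intro c hcc
          obtain ⟨s, hs0, hs1, rfl⟩ := (winA_mem_oseg _ _ _).1 hcc
          have e1 : P.V ν + (s : ℂ) * (P.γ e - P.V ν) =
              z + ((t0 + s * (1 - t0) : ℝ) : ℂ) * (P.γ e - z) := by
            rw [hν]
            push_cast
            ring
          rw [e1]
          have g1 : 0 < s * (1 - t0) := mul_pos hs0 (by linarith)
          have g2 : t0 + s * (1 - t0) < 1 := by nlinarith
          rcases hR ((winA_mem_seg _ _ _).2 ⟨t0 + s * (1 - t0), by linarith, g2.le, rfl⟩)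
            with h | h
          · exfalso
            obtain ⟨m, t2, h5, h6⟩ := P.winA_second hc hR hne (by linarith) g2 h
            exact hv ⟨m, t2, by linarith, h6⟩
          · exact h
        have hclo : e ∈ closure (P.SeeSet p j ν) := by
          obtain ⟨ε, hε, hop⟩ := P.vis_open_end hc hNI hvisE
          rw [Metric.mem_closure_iff]
          intro δ hδ
          obtain ⟨z', x, -, k2, k3, -⟩ := P.winA_freq he (lt_min hδ hε)
          refine ⟨x, ⟨k3, hop x (k2.trans_le (min_le_right _ _))⟩, ?_⟩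
          rw [dist_comm, Real.dist_eq]
          exact k2.trans_le (min_le_left _ _)
        have hnS : e ∉ P.SeeSet p j ν := by
          intro hS
          refine P.winA_pass hc hzn hvis.symm hS ?_
          rw [hν]
          exact (winA_mem_oseg _ _ _).2 ⟨t0, h0, h1, rfl⟩
        obtain ⟨h2, h3⟩ := winA_dir (r' := P.γ e) hne h0 h1 hν (by push_cast; ring)
        exact ⟨ν, P.γ e, h2, hvis, h3, Or.inr (Or.inr ⟨j, rfl, e, rfl, hNI, hnS, hclo⟩)⟩

end Poly

end Pool.Agent.Lib_PL
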